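import Mathlib

set_option autoImplicit false
set_option maxSynthPendingDepth 5

/-!
Frobenius theorem for linear systems `D g (v) = A(v) g` on a ball.
-/

namespace Pool.Agent.Lib.MP_6c284f_gt

open scoped ContDiff Topology
open Set Metric

variable {V : Type} [NormedAddCommGroup V] [NormedSpace ℝ V]
variable {F : Type} [NormedAddCommGroup F] [NormedSpace ℝ F] [CompleteSpace F]

/-- Existence for linear differential equations on `[0,1]`. -/
private theorem frob_ode {B : ℝ → F →L[ℝ] F} (hB : Continuous B) (f₀ : F) :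
    ∃ k : ℝ → F, k 0 = f₀ ∧ ∀ s ∈ Icc (0 : ℝ) 1, HasDerivAt k (B s (k s)) s := by
  obtain ⟨M₀, hM₀⟩ := (isCompact_Icc (a := (0 : ℝ)) (b := 1)).exists_bound_of_continuousOn
    hB.continuousOn
  set L : ℝ := 2 * (|M₀| + 1) with hL
  have hLpos : 0 < L := by positivity
  have hBM : ∀ u ∈ Icc (0 : ℝ) 1, ‖B u‖ ≤ L / 2 := by
    intro u hu
    have := hM₀ u hu
    have h2 := le_abs_self M₀
    rw [hL]
    linarith
  -- extension of functions on the unit interval
  set ext : C(unitInterval, F) → ℝ → F := fun m t => m (projIcc 0 1 zero_le_one t) with hext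
  have hextc : ∀ m, Continuous (ext m) := fun m => m.continuous.comp continuous_projIcc
  have hextn : ∀ m t, ‖ext m t‖ ≤ ‖m‖ := fun m t => m.norm_coe_le_norm _
  -- the integral
  set J : C(unitInterval, F) → ℝ → F := fun m s =>
    f₀ + ∫ u in (0 : ℝ)..s, B u (Real.exp (L * u) • ext m u) with hJ
  have hinner : ∀ m, Continuous fun u => B u (Real.exp (L * u) • ext m u) := by
    intro m
    exact hB.clm_apply ((Real.continuous_exp.comp (continuous_const.mul continuous_id)).smul
      (hextc m))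
  have hJd : ∀ m s, HasDerivAt (J m) (B s (Real.exp (L * s) • ext m s)) s := by
    intro m s
    exact ((hinner m).integral_hasStrictDerivAt 0 s).hasDerivAt.const_add _
  have hJc : ∀ m, Continuous (J m) := fun m =>
    continuous_iff_continuousAt.2 fun s => (hJd m s).continuousAt
  set T : C(unitInterval, F) → C(unitInterval, F) := fun m =>
    ⟨fun s => Real.exp (-(L * s)) • J m s, by
      exact (Real.continuous_exp.comp (continuous_const.mul continuous_subtype_val).neg).smul
        ((hJc m).comp continuous_subtype_val)⟩ with hT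
  have hcontr : ContractingWith (1 / 2) T := by
    refine ⟨by norm_num, LipschitzWith.of_dist_le_mul fun m m' => ?_⟩
    rw [dist_eq_norm, dist_eq_norm]
    refine (ContinuousMap.norm_le _ (by positivity)).2 fun s => ?_
    have hs := s.2
    have e1 : (T m - T m') s = Real.exp (-(L * s)) •
        ∫ u in (0 : ℝ)..s, B u (Real.exp (L * u) • (ext m u - ext m' u)) := by
      show Real.exp (-(L * s)) • J m s - Real.exp (-(L * s)) • J m' s = _
      rw [← smul_sub]
      congr 1
      simp only [hJ]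
      rw [add_sub_add_left_eq_sub, ← intervalIntegral.integral_sub
        ((hinner m).intervalIntegrable _ _) ((hinner m').intervalIntegrable _ _)]
      congr 1
      funext u
      rw [smul_sub, map_sub]
    rw [e1, norm_smul, Real.norm_eq_abs, abs_of_pos (Real.exp_pos _)]
    have h3 : ‖∫ u in (0 : ℝ)..s, B u (Real.exp (L * u) • (ext m u - ext m' u))‖ ≤
        ∫ u in (0 : ℝ)..s, L / 2 * ‖m - m'‖ * Real.exp (L * u) := by
      refine intervalIntegral.norm_integral_le_of_norm_le hs.1 ?_ ?_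
      · refine Filter.Eventually.of_forall fun u hu => ?_
        have hu' : u ∈ Icc (0 : ℝ) 1 := ⟨hu.1.le, hu.2.trans hs.2⟩
        have h4 : ‖ext m u - ext m' u‖ ≤ ‖m - m'‖ := (m - m').norm_coe_le_norm _
        calc ‖B u (Real.exp (L * u) • (ext m u - ext m' u))‖
            ≤ ‖B u‖ * ‖Real.exp (L * u) • (ext m u - ext m' u)‖ := (B u).le_opNorm _
          _ = ‖B u‖ * (Real.exp (L * u) * ‖ext m u - ext m' u‖) := by
              rw [norm_smul, Real.norm_eq_abs, abs_of_pos (Real.exp_pos _)]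
          _ ≤ L / 2 * (Real.exp (L * u) * ‖m - m'‖) := by
              gcongr
              exact hBM u hu'
          _ = L / 2 * ‖m - m'‖ * Real.exp (L * u) := by ring
      · exact (Continuous.intervalIntegrable (by fun_prop) _ _)
    have h4 : ∫ u in (0 : ℝ)..s, L / 2 * ‖m - m'‖ * Real.exp (L * u) =
        1 / 2 * ‖m - m'‖ * (Real.exp (L * s) - 1) := by
      rw [intervalIntegral.integral_const_mul]
      have h5 : ∫ u in (0 : ℝ)..s, Real.exp (L * u) = (Real.exp (L * s) - 1) / L := by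
        have h6 : ∀ u ∈ uIcc (0 : ℝ) s, HasDerivAt (fun u => Real.exp (L * u) / L)
            (Real.exp (L * u)) u := by
          intro u _
          have h7 : HasDerivAt (fun u => Real.exp (L * u)) (Real.exp (L * u) * (L * 1)) u :=
            ((hasDerivAt_id u).const_mul L).exp
          have h8 := h7.div_const L
          have h9 : Real.exp (L * u) * (L * 1) / L = Real.exp (L * u) := by
            field_simp
          rwa [h9] at h8
        rw [intervalIntegral.integral_eq_sub_of_hasDerivAt h6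
          (Continuous.intervalIntegrable (by fun_prop) _ _)]
        rw [mul_zero, Real.exp_zero]
        ring
      rw [h5]
      field_simp
    rw [h4] at h3
    have h5 : Real.exp (-(L * s)) * Real.exp (L * s) = 1 := by
      rw [← Real.exp_add]
      simp
    have h6 : ((1 / 2 : NNReal) : ℝ) = 1 / 2 := by norm_num
    rw [h6]
    calc Real.exp (-(L * s)) * ‖∫ u in (0 : ℝ)..s, B u (Real.exp (L * u) • (ext m u - ext m' u))‖
        ≤ Real.exp (-(L * s)) * (1 / 2 * ‖m - m'‖ * (Real.exp (L * s) - 1)) := by gcongr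
      _ = 1 / 2 * ‖m - m'‖ * (Real.exp (-(L * s)) * Real.exp (L * s) - Real.exp (-(L * s))) := by
          ring
      _ ≤ 1 / 2 * ‖m - m'‖ * 1 := by
          rw [h5]
          gcongr
          linarith [Real.exp_pos (-(L * s))]
      _ = 1 / 2 * ‖m - m'‖ := by ring
  have hfp := hcontr.fixedPoint_isFixedPt
  set m := ContractingWith.fixedPoint T hcontr with hm
  refine ⟨J m, ?_, fun s hs => ?_⟩
  · simp [hJ]
  · have h2 : ext m s = Real.exp (-(L * s)) • J m s := by
      have h3 : T m ⟨s, hs⟩ = m ⟨s, hs⟩ := by rw [hfp]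
      simp only [hext]
      rw [projIcc_of_mem zero_le_one hs, ← h3]
      rfl
    have h4 := hJd m s
    rw [h2, smul_smul, ← Real.exp_add] at h4
    simpa using h4

/-- Gronwall on the unit interval. -/
private theorem frob_gronwall {E : Type} [NormedAddCommGroup E] [NormedSpace ℝ E]
    {e e' : ℝ → E} {K ε : ℝ} (hK : 1 ≤ K) (hε : 0 ≤ ε)
    (he : ∀ s ∈ Icc (0 : ℝ) 1, HasDerivAt e (e' s) s) (h0 : e 0 = 0)
    (hb : ∀ s ∈ Icc (0 : ℝ) 1, ‖e' s‖ ≤ K * ‖e s‖ + ε) : ‖e 1‖ ≤ ε * Real.exp K := by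
  have h := norm_le_gronwallBound_of_norm_deriv_right_le (f := e) (f' := e') (δ := 0) (K := K)
    (ε := ε) (a := 0) (b := 1) (fun s hs => (he s hs).continuousAt.continuousWithinAt)
    (fun s hs => (he s ⟨hs.1, hs.2.le⟩).hasDerivWithinAt) (by rw [h0, norm_zero])
    (fun s hs => hb s ⟨hs.1, hs.2.le⟩) 1 ⟨zero_le_one, le_refl _⟩
  rw [gronwallBound_of_K_ne_0 (by linarith : K ≠ 0)] at h
  simp only [zero_mul, zero_add, sub_zero, mul_one] at h
  refine h.trans ?_
  have hK0 : 0 < K := by linarith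
  have h2 : ε / K ≤ ε := div_le_self hε hK
  have h3 : 0 ≤ Real.exp K - 1 := by
    have := Real.add_one_le_exp K
    linarith
  calc ε / K * (Real.exp K - 1) ≤ ε * (Real.exp K - 1) := by gcongr
    _ ≤ ε * Real.exp K := by
        gcongr
        linarith

private theorem frob_hasFDerivAt {A : V → V →L[ℝ] F →L[ℝ] F} {z : V} {ρ : ℝ}
    (hA : ContDiffOn ℝ ∞ A (ball z ρ))
    (hflat : ∀ y ∈ ball z ρ, ∀ v w f,
      fderiv ℝ A y v w f + A y w (A y v f) = fderiv ℝ A y w v f + A y v (A y w f))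
    {f₀ : F} {k : V → ℝ → F} (hk0 : ∀ y ∈ ball z ρ, k y 0 = f₀)
    (hk : ∀ y ∈ ball z ρ, ∀ s ∈ Icc (0 : ℝ) 1,
      HasDerivAt (k y) (A (z + s • (y - z)) (y - z) (k y s)) s)
    {y : V} (hy : y ∈ ball z ρ) :
    HasFDerivAt (fun y => k y 1) ((A y).flip (k y 1)) y := by
  have hρ : 0 < ρ := pos_of_mem_ball hy
  have hdA : ∀ p ∈ ball z ρ, DifferentiableAt ℝ A p := fun p hp =>
    (hA.differentiableOn (by simp)).differentiableAt (isOpen_ball.mem_nhds hp)
  have hcA : ∀ p ∈ ball z ρ, ContinuousAt A p := fun p hp => (hdA p hp).continuousAt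
  have hcD : ∀ p ∈ ball z ρ, ContinuousAt (fderiv ℝ A) p := fun p hp =>
    (hA.continuousOn_fderiv_of_isOpen isOpen_ball (by simp)).continuousAt
      (isOpen_ball.mem_nhds hp)
  -- the segment
  set x : ℝ → V := fun s => z + s • (y - z) with hx
  have hxc : Continuous x := by
    rw [hx]
    fun_prop
  have hxb : ∀ s ∈ Icc (0 : ℝ) 1, x s ∈ ball z ρ := by
    intro s hs
    rw [mem_ball, dist_eq_norm] at hy ⊢
    simp only [hx, add_sub_cancel_left, norm_smul, Real.norm_eq_abs]
    rw [abs_of_nonneg hs.1]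
    nlinarith [norm_nonneg (y - z), hs.2]
  set Ks : Set V := x '' Icc 0 1 with hKs
  have hKc : IsCompact Ks := isCompact_Icc.image hxc
  have hKb : Ks ⊆ ball z ρ := by
    rintro _ ⟨s, hs, rfl⟩
    exact hxb s hs
  obtain ⟨M₀, hM₀⟩ := hKc.exists_bound_of_continuousOn
    (f := A) (fun p hp => (hcA p (hKb hp)).continuousWithinAt)
  obtain ⟨M₁, hM₁⟩ := (isCompact_Icc (a := (0 : ℝ)) (b := 1)).exists_bound_of_continuousOn
    (f := k y) (fun s hs => (hk y hy s hs).continuousAt.continuousWithinAt)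
  set M : ℝ := |M₀| + |M₁| + 1 with hM
  have hM1 : 1 ≤ M := by
    rw [hM]
    linarith [abs_nonneg M₀, abs_nonneg M₁]
  have hMk : ∀ s ∈ Icc (0 : ℝ) 1, ‖k y s‖ ≤ M := by
    intro s hs
    have := hM₁ s hs
    rw [hM]
    linarith [abs_nonneg M₀, le_abs_self M₁]
  have hMA : ∀ s ∈ Icc (0 : ℝ) 1, ‖A (x s)‖ ≤ M := by
    intro s hs
    have := hM₀ (x s) ⟨s, hs, rfl⟩
    rw [hM]
    linarith [abs_nonneg M₁, le_abs_self M₀]
  set v : V := y - z with hv
  set K : ℝ := (M + 1) * (‖v‖ + 1) with hK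
  have hK1 : 1 ≤ K := by
    rw [hK]
    nlinarith [norm_nonneg v]
  set C : ℝ := ‖v‖ * M + M + (‖v‖ + (M + 1)) * (M * M) with hC
  have hC0 : 0 < C := by
    rw [hC]
    have := norm_nonneg v
    positivity
  -- uniform estimates near the segment
  have huni : ∀ ε > 0, ε ≤ 1 → ∃ δ > 0, δ ≤ ε ∧ ∀ s ∈ Icc (0 : ℝ) 1, ∀ u : V, ‖u‖ < δ →
      ‖A (x s + s • u)‖ ≤ M + 1 ∧ ‖A (x s + s • u) - A (x s)‖ ≤ ε ∧
      ‖A (x s + s • u) - A (x s) - fderiv ℝ A (x s) (s • u)‖ ≤ ε * ‖u‖ := by
    intro ε hε hε1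
    obtain ⟨δ₁, hδ₁, hsub⟩ := hKc.exists_thickening_subset_open isOpen_ball hKb
    have hu1 := hKc.uniformContinuousAt_of_continuousAt A (fun a ha => hcA a (hKb ha))
      (dist_mem_uniformity hε)
    have hu2 := hKc.uniformContinuousAt_of_continuousAt (fderiv ℝ A) (fun a ha => hcD a (hKb ha))
      (dist_mem_uniformity hε)
    obtain ⟨δ₂, hδ₂, h2⟩ := Metric.mem_uniformity_dist.1 hu1
    obtain ⟨δ₃, hδ₃, h3⟩ := Metric.mem_uniformity_dist.1 hu2
    refine ⟨min ε (min δ₁ (min δ₂ δ₃)), lt_min hε (lt_min hδ₁ (lt_min hδ₂ hδ₃)),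
      min_le_left _ _, ?_⟩
    intro s hs u hu
    have hu1 : ‖u‖ < δ₁ := hu.trans_le ((min_le_right _ _).trans (min_le_left _ _))
    have hu2 : ‖u‖ < δ₂ := hu.trans_le ((min_le_right _ _).trans
      ((min_le_right _ _).trans (min_le_left _ _)))
    have hu3 : ‖u‖ < δ₃ := hu.trans_le ((min_le_right _ _).trans
      ((min_le_right _ _).trans (min_le_right _ _)))
    have hsu : ‖s • u‖ ≤ ‖u‖ := by
      rw [norm_smul, Real.norm_eq_abs, abs_of_nonneg hs.1]
      nlinarith [norm_nonneg u, hs.2]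
    have hxs : x s ∈ Ks := ⟨s, hs, rfl⟩
    have hA1 : ‖A (x s + s • u) - A (x s)‖ ≤ ε := by
      have h4 : dist (x s) (x s + s • u) < δ₂ := by
        rw [dist_comm, dist_eq_norm, add_sub_cancel_left]
        exact hsu.trans_lt hu2
      have h5 : dist (A (x s)) (A (x s + s • u)) < ε := h2 h4 hxs
      rw [dist_comm, dist_eq_norm] at h5
      exact h5.le
    refine ⟨?_, hA1, ?_⟩
    · have h4 : A (x s + s • u) = (A (x s + s • u) - A (x s)) + A (x s) := by abel
      rw [h4]
      have h5 := norm_add_le (A (x s + s • u) - A (x s)) (A (x s))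
      have h6 := hMA s hs
      linarith
    · have hmem : ∀ p ∈ ball (x s) (min δ₁ δ₃), p ∈ ball z ρ := by
        intro p hp
        apply hsub
        exact mem_thickening_iff.2 ⟨x s, hxs, (mem_ball.1 hp).trans_le (min_le_left _ _)⟩
      have h4 := (convex_ball (x s) (min δ₁ δ₃)).norm_image_sub_le_of_norm_fderiv_le' (𝕜 := ℝ)
        (f := A) (C := ε) (φ := fderiv ℝ A (x s)) (fun p hp => hdA p (hmem p hp))
        (fun p hp => by
          have h5 : dist (x s) p < δ₃ := by
            rw [dist_comm]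
            exact (mem_ball.1 hp).trans_le (min_le_right _ _)
          have h6 : dist (fderiv ℝ A (x s)) (fderiv ℝ A p) < ε := h3 h5 hxs
          rw [dist_comm, dist_eq_norm] at h6
          exact h6.le)
        (mem_ball_self (lt_min hδ₁ hδ₃))
        (by
          rw [mem_ball, dist_eq_norm, add_sub_cancel_left]
          exact hsu.trans_lt (lt_min hu1 hu3) : x s + s • u ∈ ball (x s) (min δ₁ δ₃))
      rw [add_sub_cancel_left] at h4
      exact h4.trans (by gcongr)
  -- the estimate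
  rw [hasFDerivAt_iff_isLittleO_nhds_zero, Asymptotics.isLittleO_iff]
  intro c hc
  obtain ⟨ε, hε, hε1, hεc⟩ : ∃ ε > 0, ε ≤ 1 ∧ ε * C * Real.exp K ≤ c := by
    refine ⟨min 1 (c / (C * Real.exp K)), lt_min one_pos (by positivity), min_le_left _ _, ?_⟩
    have h4 : min 1 (c / (C * Real.exp K)) ≤ c / (C * Real.exp K) := min_le_right _ _
    rw [mul_assoc]
    calc min 1 (c / (C * Real.exp K)) * (C * Real.exp K)
        ≤ c / (C * Real.exp K) * (C * Real.exp K) := by gcongr
      _ = c := div_mul_cancel₀ _ (by positivity)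
  obtain ⟨δ, hδ, hδε, hest⟩ := huni ε hε hε1
  obtain ⟨δ', hδ', hball⟩ := Metric.isOpen_iff.1 isOpen_ball y hy
  have hev : ∀ᶠ u : V in 𝓝 0, ‖u‖ < min δ δ' := by
    have := Metric.ball_mem_nhds (0 : V) (lt_min hδ hδ')
    filter_upwards [this] with u hu
    rwa [mem_ball_zero_iff] at hu
  filter_upwards [hev] with u hu
  have huδ : ‖u‖ < δ := hu.trans_le (min_le_left _ _)
  have huδ' : ‖u‖ < δ' := hu.trans_le (min_le_right _ _)
  have hyu : y + u ∈ ball z ρ := hball (by
    rw [mem_ball, dist_eq_norm, add_sub_cancel_left]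
    exact huδ')
  set e : ℝ → F := fun s => k (y + u) s - k y s - s • A (x s) u (k y s) with he
  set e' : ℝ → F := fun s => A (x s + s • u) (v + u) (k (y + u) s) - A (x s) v (k y s) -
    (A (x s) u (k y s) + s • (fderiv ℝ A (x s) v u (k y s) + A (x s) u (A (x s) v (k y s))))
    with he'
  have hed : ∀ s ∈ Icc (0 : ℝ) 1, HasDerivAt e (e' s) s := by
    intro s hs
    have d1 : HasDerivAt (k (y + u)) (A (x s + s • u) (v + u) (k (y + u) s)) s := by
      have h4 := hk (y + u) hyu s hs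
      have h5 : z + s • (y + u - z) = x s + s • u := by
        simp only [hx, hv]
        rw [add_sub_right_comm, smul_add, add_assoc]
      have h6 : y + u - z = v + u := by
        rw [hv]
        abel
      rwa [h5, h6] at h4
    have d2 : HasDerivAt (k y) (A (x s) v (k y s)) s := hk y hy s hs
    have d3 : HasDerivAt x v s := by
      have h4 := ((hasDerivAt_id s).smul_const v).const_add z
      simpa [hx, hv] using h4
    have d4 : HasDerivAt (fun s => A (x s)) (fderiv ℝ A (x s) v) s :=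
      (hdA (x s) (hxb s hs)).hasFDerivAt.comp_hasDerivAt s d3
    have d5 : HasDerivAt (fun s => A (x s) u) (fderiv ℝ A (x s) v u) s := by
      have h4 := d4.clm_apply (hasDerivAt_const s u)
      simpa using h4
    have d6 : HasDerivAt (fun s => A (x s) u (k y s))
        (fderiv ℝ A (x s) v u (k y s) + A (x s) u (A (x s) v (k y s))) s := d5.clm_apply d2
    have d7 := (hasDerivAt_id s).smul d6
    have d8 := (d1.sub d2).sub d7
    refine d8.congr_deriv ?_
    simp only [he', id_eq, one_smul]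
    abel
  have he0 : e 0 = 0 := by
    simp only [he, hk0 y hy, hk0 (y + u) hyu, zero_smul, sub_self]
  have hbound : ∀ s ∈ Icc (0 : ℝ) 1, ‖e' s‖ ≤ K * ‖e s‖ + ε * C * ‖u‖ := by
    intro s hs
    obtain ⟨b1, b2, b3⟩ := hest s hs u huδ
    have hkk := hMk s hs
    have hAA := hMA s hs
    set a := A (x s + s • u) with ha
    set a₀ := A (x s) with ha₀
    set κ := k y s with hκ
    set η : F := s • a₀ u κ with hη
    have hfl : fderiv ℝ A (x s) v u κ + a₀ u (a₀ v κ) =
        fderiv ℝ A (x s) u v κ + a₀ v (a₀ u κ) := hflat (x s) (hxb s hs) v u κ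
    have hid : e' s = a (v + u) (e s) + (a - a₀ - fderiv ℝ A (x s) (s • u)) v κ +
        (a - a₀) u κ + ((a - a₀) v η + a u η) := by
      have h4 : e s = k (y + u) s - κ - η := rfl
      have h5 : e' s = a (v + u) (k (y + u) s) - a₀ v κ -
        (a₀ u κ + s • (fderiv ℝ A (x s) v u κ + a₀ u (a₀ v κ))) := rfl
      rw [h5, hfl, h4]
      simp only [map_sub, map_add, _root_.sub_apply, _root_.add_apply,
        map_smul, _root_.smul_apply, hη]
      module
    have hηn : ‖η‖ ≤ M * M * ‖u‖ := by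
      rw [hη, norm_smul, Real.norm_eq_abs, abs_of_nonneg hs.1]
      have h4 : ‖a₀ u κ‖ ≤ M * ‖u‖ * M := by
        refine (a₀.le_opNorm₂ u κ).trans ?_
        gcongr
      have h5 := norm_nonneg (a₀ u κ)
      nlinarith [hs.2]
    have hu0 := norm_nonneg u
    have hv0 := norm_nonneg v
    have hM0 : 0 ≤ M := by linarith
    have t1 : ‖a (v + u) (e s)‖ ≤ K * ‖e s‖ := by
      refine (a.le_opNorm₂ (v + u) (e s)).trans ?_
      have h4 : ‖v + u‖ ≤ ‖v‖ + 1 := (norm_add_le v u).trans (by linarith)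
      rw [hK]
      gcongr
    have t2 : ‖(a - a₀ - fderiv ℝ A (x s) (s • u)) v κ‖ ≤ ε * ‖u‖ * ‖v‖ * M := by
      refine (ContinuousLinearMap.le_opNorm₂ _ v κ).trans ?_
      gcongr
    have t3 : ‖(a - a₀) u κ‖ ≤ ε * ‖u‖ * M := by
      refine (ContinuousLinearMap.le_opNorm₂ _ u κ).trans ?_
      gcongr
    have t4 : ‖(a - a₀) v η‖ ≤ ε * ‖v‖ * (M * M * ‖u‖) := by
      refine (ContinuousLinearMap.le_opNorm₂ _ v η).trans ?_
      gcongr
    have t5 : ‖a u η‖ ≤ (M + 1) * ε * (M * M * ‖u‖) := by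
      refine (ContinuousLinearMap.le_opNorm₂ _ u η).trans ?_
      have h4 : ‖u‖ ≤ ε := huδ.le.trans hδε
      gcongr
    rw [hid]
    refine (norm_add_le _ _).trans ?_
    refine (add_le_add (norm_add_le _ _) (norm_add_le _ _)).trans ?_
    refine (add_le_add (add_le_add (norm_add_le _ _) le_rfl) le_rfl).trans ?_
    calc ‖a (v + u) (e s)‖ + ‖(a - a₀ - fderiv ℝ A (x s) (s • u)) v κ‖ + ‖(a - a₀) u κ‖ +
        (‖(a - a₀) v η‖ + ‖a u η‖)
        ≤ K * ‖e s‖ + ε * ‖u‖ * ‖v‖ * M + ε * ‖u‖ * M +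
          (ε * ‖v‖ * (M * M * ‖u‖) + (M + 1) * ε * (M * M * ‖u‖)) := by linarith
      _ = K * ‖e s‖ + ε * C * ‖u‖ := by
          rw [hC]
          ring
  have hfin := frob_gronwall hK1 (by positivity) hed he0 hbound
  have hx1 : x 1 = y := by
    simp only [hx, one_smul, hv]
    abel
  have he1 : e 1 = k (y + u) 1 - k y 1 - (A y).flip (k y 1) u := by
    simp only [he, hx1, one_smul, ContinuousLinearMap.flip_apply]
  rw [he1] at hfin
  refine hfin.trans ?_
  calc ε * C * ‖u‖ * Real.exp K = ε * C * Real.exp K * ‖u‖ := by ring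
    _ ≤ c * ‖u‖ := by gcongr

theorem frobenius {A : V → V →L[ℝ] F →L[ℝ] F} {z : V} {ρ : ℝ} (hρ : 0 < ρ)
    (hA : ContDiffOn ℝ ∞ A (ball z ρ))
    (hflat : ∀ y ∈ ball z ρ, ∀ v w f,
      fderiv ℝ A y v w f + A y w (A y v f) = fderiv ℝ A y w v f + A y v (A y w f))
    (f₀ : F) : ∃ g : V → F, ContDiffOn ℝ ∞ g (ball z ρ) ∧ g z = f₀ ∧
      ∀ y ∈ ball z ρ, ∀ v, fderiv ℝ g y v = A y v (g y) := by
  have hex : ∀ y : V, ∃ k : ℝ → F, y ∈ ball z ρ → (k 0 = f₀ ∧ ∀ s ∈ Icc (0 : ℝ) 1,
      HasDerivAt k (A (z + s • (y - z)) (y - z) (k s)) s) := by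
    intro y
    by_cases hy : y ∈ ball z ρ
    · have hseg : ∀ s ∈ Icc (0 : ℝ) 1, z + s • (y - z) ∈ ball z ρ := by
        intro s hs
        rw [mem_ball, dist_eq_norm] at hy ⊢
        simp only [add_sub_cancel_left, norm_smul, Real.norm_eq_abs]
        rw [abs_of_nonneg hs.1]
        nlinarith [norm_nonneg (y - z), hs.2]
      have hB : Continuous fun s : ℝ =>
          A (z + (projIcc 0 1 zero_le_one s : ℝ) • (y - z)) (y - z) := by
        have h1 : Continuous fun s : ℝ => A (z + (projIcc 0 1 zero_le_one s : ℝ) • (y - z)) := by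
          refine hA.continuousOn.comp_continuous ?_ ?_
          · exact continuous_const.add ((continuous_subtype_val.comp continuous_projIcc).smul
              continuous_const)
          · intro s
            exact hseg _ (projIcc 0 1 zero_le_one s).2
        exact h1.clm_apply continuous_const
      obtain ⟨k, hk0, hk⟩ := frob_ode hB f₀
      refine ⟨k, fun _ => ⟨hk0, fun s hs => ?_⟩⟩
      have h1 := hk s hs
      rw [projIcc_of_mem zero_le_one hs] at h1
      exact h1
    · exact ⟨fun _ => f₀, fun h => absurd h hy⟩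
  choose k hk using hex
  have hfd : ∀ y ∈ ball z ρ, HasFDerivAt (fun y => k y 1) ((A y).flip (k y 1)) y := fun y hy =>
    frob_hasFDerivAt hA hflat (fun y hy => (hk y hy).1) (fun y hy => (hk y hy).2) hy
  refine ⟨fun y => k y 1, ?_, ?_, fun y hy v => ?_⟩
  · rw [contDiffOn_infty]
    intro n
    induction n with
    | zero =>
      have h1 : ContDiffOn ℝ 0 (fun y => k y 1) (ball z ρ) :=
        contDiffOn_zero.2 fun y hy => (hfd y hy).continuousAt.continuousWithinAt
      exact_mod_cast h1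
    | succ n ih =>
      have h1 : ContDiffOn ℝ (n + 1) (fun y => k y 1) (ball z ρ) := by
        rw [contDiffOn_succ_iff_fderiv_of_isOpen isOpen_ball]
        refine ⟨fun y hy => (hfd y hy).differentiableAt.differentiableWithinAt, by simp, ?_⟩
        have h2 : ContDiffOn ℝ n (fun y => (A y).flip (k y 1)) (ball z ρ) := by
          have h3 : ContDiffOn ℝ n A (ball z ρ) := hA.of_le (by exact_mod_cast le_top)
          have h4 : ContDiffOn ℝ n (fun y => (A y).flip) (ball z ρ) :=
            (ContinuousLinearMap.flipₗᵢ ℝ V F F).contDiff.comp_contDiffOn h3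
          exact h4.clm_apply ih
        exact h2.congr fun y hy => (hfd y hy).fderiv
      exact_mod_cast h1
  · have hz : z ∈ ball z ρ := mem_ball_self hρ
    obtain ⟨h0, h1⟩ := hk z hz
    have h2 : ∀ s ∈ Icc (0 : ℝ) 1, HasDerivAt (fun s => k z s - f₀) ((fun _ => (0 : F)) s) s := by
      intro s hs
      have h3 := (h1 s hs).sub_const f₀
      simpa using h3
    have h3 := frob_gronwall (K := 1) (ε := 0) le_rfl le_rfl h2 (by rw [h0, sub_self])
      (fun s _ => by simp)
    rw [zero_mul] at h3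
    exact sub_eq_zero.1 (norm_le_zero_iff.1 h3)
  · rw [(hfd y hy).fderiv]
    rfl

theorem frobenius_unique {A : V → V →L[ℝ] F →L[ℝ] F} {B : Set V} (hB : IsOpen B)
    (hBc : IsPreconnected B) (hA : ContinuousOn A B) {g₁ g₂ : V → F}
    (h₁ : ∀ y ∈ B, DifferentiableAt ℝ g₁ y ∧ ∀ v, fderiv ℝ g₁ y v = A y v (g₁ y))
    (h₂ : ∀ y ∈ B, DifferentiableAt ℝ g₂ y ∧ ∀ v, fderiv ℝ g₂ y v = A y v (g₂ y))
    {z : V} (hz : z ∈ B) (h0 : g₁ z = g₂ z) : ∀ y ∈ B, g₁ y = g₂ y := by
  set d : V → F := fun y => g₁ y - g₂ y with hd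
  have hdd : ∀ y ∈ B, HasFDerivAt d ((A y).flip (d y)) y := by
    intro y hy
    have h3 := (h₁ y hy).1.hasFDerivAt.sub (h₂ y hy).1.hasFDerivAt
    refine h3.congr_fderiv ?_
    ext v
    simp only [_root_.sub_apply, (h₁ y hy).2 v, (h₂ y hy).2 v,
      ContinuousLinearMap.flip_apply, hd, map_sub]
  have hloc : ∀ y ∈ B, d y = 0 → ∀ᶠ x in 𝓝 y, d x = 0 := by
    intro y hy hdy
    have hcA : ContinuousAt A y := hA.continuousAt (hB.mem_nhds hy)
    have h3 : ∀ᶠ x in 𝓝 y, ‖A x‖ < ‖A y‖ + 1 :=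
      hcA.norm.eventually_lt continuousAt_const (by linarith)
    obtain ⟨r, hr, hrb⟩ := Metric.eventually_nhds_iff_ball.1 (h3.and (hB.eventually_mem hy))
    filter_upwards [Metric.ball_mem_nhds y (lt_min hr one_pos)] with x hx
    have hxr : ‖x - y‖ < r := by
      rw [← dist_eq_norm]
      exact (mem_ball.1 hx).trans_le (min_le_left _ _)
    have hx1 : ‖x - y‖ < 1 := by
      rw [← dist_eq_norm]
      exact (mem_ball.1 hx).trans_le (min_le_right _ _)
    have hseg : ∀ s ∈ Icc (0 : ℝ) 1, y + s • (x - y) ∈ ball y r := by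
      intro s hs
      rw [mem_ball, dist_eq_norm]
      simp only [add_sub_cancel_left, norm_smul, Real.norm_eq_abs]
      rw [abs_of_nonneg hs.1]
      nlinarith [norm_nonneg (x - y), hs.2]
    have hder : ∀ s ∈ Icc (0 : ℝ) 1, HasDerivAt (fun s : ℝ => d (y + s • (x - y)))
        (A (y + s • (x - y)) (x - y) (d (y + s • (x - y)))) s := by
      intro s hs
      have h4 : HasDerivAt (fun s : ℝ => y + s • (x - y)) (x - y) s := by
        have h5 := ((hasDerivAt_id s).smul_const (x - y)).const_add y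
        simpa using h5
      have h5 := (hdd _ (hrb _ (hseg s hs)).2).comp_hasDerivAt s h4
      exact h5
    have h4 := frob_gronwall (K := ‖A y‖ + 1) (ε := 0) (by linarith [norm_nonneg (A y)]) le_rfl
      hder (by simp [hdy]) (fun s hs => by
        have h5 := (A (y + s • (x - y))).le_opNorm₂ (x - y) (d (y + s • (x - y)))
        refine h5.trans ?_
        rw [add_zero]
        have h6 := (hrb _ (hseg s hs)).1
        have h7 : ‖A (y + s • (x - y))‖ * ‖x - y‖ ≤ ‖A y‖ + 1 := by
          have h8 := norm_nonneg (A (y + s • (x - y)))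
          nlinarith [norm_nonneg (x - y)]
        gcongr)
    rw [zero_mul, one_smul, add_sub_cancel] at h4
    exact norm_le_zero_iff.1 h4
  set U : Set V := {y | y ∈ B ∧ ∀ᶠ x in 𝓝 y, d x = 0} with hU
  have hUo : IsOpen U := hB.inter (isOpen_setOfPred_eventually_nhds)
  have hsub : B ⊆ U := by
    refine hBc.subset_of_closure_inter_subset hUo ⟨z, hz, hz, hloc z hz (sub_eq_zero.2 h0)⟩ ?_
    rintro y ⟨hyc, hyB⟩
    refine ⟨hyB, hloc y hyB ?_⟩
    by_contra hne
    have h3 : ∀ᶠ x in 𝓝 y, d x ≠ 0 := (hdd y hyB).continuousAt.eventually_ne hne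
    obtain ⟨w, hw1, hw2⟩ := (mem_closure_iff_frequently.1 hyc).and_eventually h3 |>.exists
    exact hw2 hw1.2.self_of_nhds
  intro y hy
  exact sub_eq_zero.1 (hsub hy).2.self_of_nhds

end Pool.Agent.Lib.MP_6c284f_gt
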