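import Pool.Agent.Lib.MP_6c284f_gt.HK
import Pool.Agent.Lib.MP_6c284f_gt.Frobenius

set_option autoImplicit false
set_option maxSynthPendingDepth 5

/-!
Local affine functions of a flat torsion free connection.
-/

namespace Pool.Agent.Lib.MP_6c284f_gt

open scoped ContDiff Topology
open Set Metric

variable {V : Type} [NormedAddCommGroup V] [NormedSpace ℝ V] [FiniteDimensional ℝ V]

/-- `u` is an affine function of the connection `Γ` at the point `z` -/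
def IsAffineAt (Γ : V → V →L[ℝ] V →L[ℝ] V) (u : V → ℝ) (z : V) : Prop :=
  ContDiffAt ℝ 2 u z ∧ ∀ᶠ y in 𝓝 z, ∀ v w, fderiv ℝ (fderiv ℝ u) y v w = fderiv ℝ u y (Γ y v w)

section aux

variable (V)

/-- the space of pairs (value, derivative) -/
abbrev Aff_F : Type := ℝ × (V →L[ℝ] ℝ)

/-- `T ↦ ((s, θ) ↦ (0, θ ∘ T))` -/
noncomputable def Aff_P : (V →L[ℝ] V) →L[ℝ] (Aff_F V →L[ℝ] Aff_F V) :=
  ((ContinuousLinearMap.compL ℝ (Aff_F V) (V →L[ℝ] ℝ) (Aff_F V)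
      (ContinuousLinearMap.inr ℝ ℝ (V →L[ℝ] ℝ))).comp
    ((ContinuousLinearMap.compL ℝ (Aff_F V) (V →L[ℝ] ℝ) (V →L[ℝ] ℝ)).flip
      (ContinuousLinearMap.snd ℝ ℝ (V →L[ℝ] ℝ)))).comp
    (ContinuousLinearMap.compL ℝ V V ℝ).flip

/-- `v ↦ ((s, θ) ↦ (θ v, 0))` -/
noncomputable def Aff_C : V →L[ℝ] (Aff_F V →L[ℝ] Aff_F V) :=
  ((ContinuousLinearMap.compL ℝ (Aff_F V) ℝ (Aff_F V)
      (ContinuousLinearMap.inl ℝ ℝ (V →L[ℝ] ℝ))).comp
    ((ContinuousLinearMap.compL ℝ (Aff_F V) (V →L[ℝ] ℝ) ℝ).flip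
      (ContinuousLinearMap.snd ℝ ℝ (V →L[ℝ] ℝ)))).comp
    (ContinuousLinearMap.apply ℝ ℝ : V →L[ℝ] (V →L[ℝ] ℝ) →L[ℝ] ℝ)

variable {V}

theorem Aff_P_apply (T : V →L[ℝ] V) (f : Aff_F V) : Aff_P V T f = (0, f.2.comp T) := rfl

theorem Aff_C_apply (v : V) (f : Aff_F V) : Aff_C V v f = (f.2 v, 0) := rfl

/-- the linear system -/
noncomputable def Aff_A (Γ : V → V →L[ℝ] V →L[ℝ] V) (y : V) : V →L[ℝ] Aff_F V →L[ℝ] Aff_F V :=
  Aff_C V + ContinuousLinearMap.compL ℝ V (V →L[ℝ] V) (Aff_F V →L[ℝ] Aff_F V) (Aff_P V) (Γ y)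

theorem Aff_A_apply (Γ : V → V →L[ℝ] V →L[ℝ] V) (y v : V) (f : Aff_F V) :
    Aff_A Γ y v f = (f.2 v, f.2.comp (Γ y v)) := by
  have h : Aff_A Γ y v f = Aff_C V v f + Aff_P V (Γ y v) f := rfl
  rw [h, Aff_P_apply, Aff_C_apply, Prod.mk_add_mk, add_zero, zero_add]

theorem Aff_A_contDiffOn {Γ : V → V →L[ℝ] V →L[ℝ] V} {W : Set V} (h : ContDiffOn ℝ ∞ Γ W) :
    ContDiffOn ℝ ∞ (Aff_A Γ) W := by
  unfold Aff_A
  exact contDiffOn_const.add ((ContinuousLinearMap.contDiff _).comp_contDiffOn h)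

theorem Aff_A_fderiv {Γ : V → V →L[ℝ] V →L[ℝ] V} {y : V} (h : DifferentiableAt ℝ Γ y) (v w : V)
    (f : Aff_F V) : fderiv ℝ (Aff_A Γ) y v w f = (0, f.2.comp (fderiv ℝ Γ y v w)) := by
  have h1 : HasFDerivAt (Aff_A Γ)
      ((ContinuousLinearMap.compL ℝ V (V →L[ℝ] V) (Aff_F V →L[ℝ] Aff_F V) (Aff_P V)).comp
        (fderiv ℝ Γ y)) y := by
    unfold Aff_A
    exact ((ContinuousLinearMap.hasFDerivAt _).comp y h.hasFDerivAt).const_add _
  rw [h1.fderiv]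
  exact Aff_P_apply _ f

end aux

/-- Frobenius: a flat torsion free connection has local affine functions with arbitrary value
and derivative at the centre of a ball. -/
theorem exists_affine {D : HKData V} {W : Set V} (h : IsHK D W)
    (hflat : ∀ z ∈ W, ∀ u v w, curv D.Γ z u v w = 0) {z : V} {ρ : ℝ} (hρ : 0 < ρ)
    (hball : ball z ρ ⊆ W) (s : ℝ) (l : V →L[ℝ] ℝ) :
    ∃ u : V → ℝ, (∀ y ∈ ball z ρ, IsAffineAt D.Γ u y) ∧ u z = s ∧ fderiv ℝ u z = l := by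
  obtain ⟨g, hg, hgz, hgd⟩ := frobenius (A := Aff_A D.Γ) hρ
    ((Aff_A_contDiffOn h.smoothΓ).mono hball) (by
      intro y hy v w f
      have hd : DifferentiableAt ℝ D.Γ y :=
        (h.smoothΓ.contDiffAt (h.isOpen.mem_nhds (hball hy))).differentiableAt (by simp)
      rw [Aff_A_fderiv hd, Aff_A_fderiv hd]
      simp only [Aff_A_apply]
      apply Prod.ext
      · simp only [Prod.mk_add_mk, zero_add, ContinuousLinearMap.comp_apply]
        rw [h.tors y (hball hy)]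
      · simp only [Prod.mk_add_mk]
        ext x
        simp only [ContinuousLinearMap.add_apply, ContinuousLinearMap.comp_apply]
        have h1 := hflat y (hball hy) v w x
        unfold curv at h1
        rw [← map_add, ← map_add]
        congr 1
        rw [← sub_eq_zero, ← h1]
        abel) (s, l)
  have hgdiff : ∀ y ∈ ball z ρ, ContDiffAt ℝ ∞ g y := fun y hy =>
    hg.contDiffAt (isOpen_ball.mem_nhds hy)
  have hdg : ∀ y ∈ ball z ρ, DifferentiableAt ℝ g y := fun y hy =>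
    (hgdiff y hy).differentiableAt (by simp)
  have hu : ∀ y ∈ ball z ρ, fderiv ℝ (fun y => (g y).1) y = (g y).2 := by
    intro y hy
    have h1 : HasFDerivAt (fun y => (g y).1)
        ((ContinuousLinearMap.fst ℝ ℝ (V →L[ℝ] ℝ)).comp (fderiv ℝ g y)) y :=
      (hdg y hy).hasFDerivAt.fst
    rw [h1.fderiv]
    ext v
    rw [ContinuousLinearMap.comp_apply, hgd y hy v, Aff_A_apply]
    rfl
  refine ⟨fun y => (g y).1, ?_, ?_, ?_⟩
  · intro y hy
    refine ⟨((contDiff_fst.contDiffAt).comp y (hgdiff y hy)).of_le (WithTop.coe_le_coe.2 le_top), ?_⟩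
    filter_upwards [isOpen_ball.mem_nhds hy] with x hx v w
    have h1 : fderiv ℝ (fun y => (g y).1) =ᶠ[𝓝 x] fun y => (g y).2 := by
      filter_upwards [isOpen_ball.mem_nhds hx] with x' hx'
      exact hu x' hx'
    rw [h1.fderiv_eq, hu x hx]
    have h2 : HasFDerivAt (fun y => (g y).2)
        ((ContinuousLinearMap.snd ℝ ℝ (V →L[ℝ] ℝ)).comp (fderiv ℝ g x)) x :=
      (hdg x hx).hasFDerivAt.snd
    rw [h2.fderiv, ContinuousLinearMap.comp_apply, hgd x hx v, Aff_A_apply]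
    rfl
  · change (g z).1 = s
    rw [hgz]
  · rw [hu z (mem_ball_self hρ), hgz]

/-- uniqueness on connected open sets -/
theorem affine_unique {D : HKData V} {W : Set V} (h : IsHK D W) {B : Set V} (hB : IsOpen B)
    (hBc : IsPreconnected B) (hBW : B ⊆ W) {u₁ u₂ : V → ℝ} (h₁ : ∀ y ∈ B, IsAffineAt D.Γ u₁ y)
    (h₂ : ∀ y ∈ B, IsAffineAt D.Γ u₂ y) {z : V} (hz : z ∈ B) (h0 : u₁ z = u₂ z)
    (h1 : fderiv ℝ u₁ z = fderiv ℝ u₂ z) :
    ∀ y ∈ B, u₁ y = u₂ y ∧ fderiv ℝ u₁ y = fderiv ℝ u₂ y := by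
  have key : ∀ u : V → ℝ, (∀ y ∈ B, IsAffineAt D.Γ u y) → ∀ y ∈ B,
      DifferentiableAt ℝ (fun y => ((u y, fderiv ℝ u y) : Aff_F V)) y ∧
      ∀ v, fderiv ℝ (fun y => ((u y, fderiv ℝ u y) : Aff_F V)) y v =
        Aff_A D.Γ y v (u y, fderiv ℝ u y) := by
    intro u hu y hy
    obtain ⟨hc, he⟩ := hu y hy
    have d1 : HasFDerivAt u (fderiv ℝ u y) y :=
      (hc.differentiableAt (by norm_num)).hasFDerivAt
    have d2 : HasFDerivAt (fderiv ℝ u) (fderiv ℝ (fderiv ℝ u) y) y :=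
      ((hc.fderiv_right (m := 1) (by norm_num)).differentiableAt (by norm_num)).hasFDerivAt
    have d3 := d1.prodMk d2
    refine ⟨d3.differentiableAt, fun v => ?_⟩
    rw [d3.fderiv, Aff_A_apply]
    apply Prod.ext
    · rfl
    · ext w
      exact he.self_of_nhds v w
  have hA : ContinuousOn (Aff_A D.Γ) B := (Aff_A_contDiffOn h.smoothΓ).continuousOn.mono hBW
  have hres := frobenius_unique (A := Aff_A D.Γ) hB hBc hA (key u₁ h₁) (key u₂ h₂) hz
    (by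
      change ((u₁ z, fderiv ℝ u₁ z) : Aff_F V) = (u₂ z, fderiv ℝ u₂ z)
      rw [h0, h1])
  intro y hy
  have := hres y hy
  exact ⟨congrArg Prod.fst this, congrArg Prod.snd this⟩

end Pool.Agent.Lib.MP_6c284f_gt
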