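import Pool.Agent.Lib.MP_6c284f_gt.HK

set_option autoImplicit false

/-!
The curvature commutes with the parallel endomorphisms.
-/

namespace Pool.Agent.Lib.MP_6c284f_gt

open scoped ContDiff Topology
open Set

variable {V : Type} [NormedAddCommGroup V] [NormedSpace ℝ V]

private theorem curvB_apply1 {F E : Type} [NormedAddCommGroup F] [NormedSpace ℝ F]
    [NormedAddCommGroup E] [NormedSpace ℝ E]
    {B : V → E →L[ℝ] F} {z : V} (hB : DifferentiableAt ℝ B z) {a : V → E} {a' : V →L[ℝ] E}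
    (ha : HasFDerivAt a a' z) (x : V) :
    DifferentiableAt ℝ (fun y => B y (a y)) z ∧ fderiv ℝ (fun y => B y (a y)) z x =
      fderiv ℝ B z x (a z) + B z (a' x) := by
  have h1 := hB.hasFDerivAt.clm_apply ha
  refine ⟨h1.differentiableAt, ?_⟩
  rw [h1.fderiv]
  simp only [add_apply, ContinuousLinearMap.comp_apply, ContinuousLinearMap.flip_apply]
  abel

/-- the derivative of `par` -/
private theorem curvB_par {D : HKData V} {W : Set V} (h : IsHK D W) {z : V} (hz : z ∈ W)
    (a : Fin 4) (x u v : V) :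
    fderiv ℝ (fderiv ℝ (D.I a)) z x u v + fderiv ℝ D.Γ z x u (D.I a z v)
        + D.Γ z u (fderiv ℝ (D.I a) z x v) =
      fderiv ℝ (D.I a) z x (D.Γ z u v) + D.I a z (fderiv ℝ D.Γ z x u v) := by
  have hI0 : ContDiffAt ℝ ∞ (D.I a) z := (h.smoothI a).contDiffAt (h.isOpen.mem_nhds hz)
  have hI : DifferentiableAt ℝ (D.I a) z := hI0.differentiableAt (by simp)
  have hΓ : DifferentiableAt ℝ D.Γ z :=
    (h.smoothΓ.contDiffAt (h.isOpen.mem_nhds hz)).differentiableAt (by simp)
  have hI' : DifferentiableAt ℝ (fderiv ℝ (D.I a)) z := by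
    have h2 : ContDiffAt ℝ 1 (fderiv ℝ (D.I a)) z := hI0.fderiv_right (m := 1) (by norm_cast)
    exact h2.differentiableAt (by simp)
  -- `fderiv I u v`
  have a1 := curvB_apply1 hI' (hasFDerivAt_const u z) x
  have a2 := curvB_apply1 a1.1 (hasFDerivAt_const v z) x
  rw [a1.2] at a2
  -- `Γ u (I v)`
  have b1 := curvB_apply1 hΓ (hasFDerivAt_const u z) x
  have b2 := curvB_apply1 hI (hasFDerivAt_const v z) x
  have b3 := curvB_apply1 b1.1 b2.1.hasFDerivAt x
  rw [b1.2, b2.2] at b3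
  -- `I (Γ u v)`
  have c1 := curvB_apply1 b1.1 (hasFDerivAt_const v z) x
  have c2 := curvB_apply1 hI c1.1.hasFDerivAt x
  rw [c1.2, b1.2] at c2
  have hE : (fun y => fderiv ℝ (D.I a) y u v) + (fun y => D.Γ y u (D.I a y v)) =ᶠ[𝓝 z]
      (fun y => D.I a y (D.Γ y u v)) := by
    filter_upwards [h.isOpen.mem_nhds hz] with y hy
    exact h.par a y hy u v
  have h3 := hE.fderiv_eq (𝕜 := ℝ)
  rw [fderiv_add a2.1 b3.1] at h3
  have h4 := congrArg (fun L => L x) h3
  simp only [add_apply] at h4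
  rw [a2.2, b3.2, c2.2] at h4
  simp only [zero_apply, map_zero, add_zero, add_apply] at h4
  rw [← add_assoc] at h4
  exact h4

theorem curv_I {D : HKData V} {W : Set V} (h : IsHK D W) {z : V} (hz : z ∈ W) (a : Fin 4)
    (u v w : V) : curv D.Γ z u v (D.I a z w) = D.I a z (curv D.Γ z u v w) := by
  have h1 : ContDiffAt ℝ ∞ (D.I a) z := (h.smoothI a).contDiffAt (h.isOpen.mem_nhds hz)
  have h2 : fderiv ℝ (fderiv ℝ (D.I a)) z u v = fderiv ℝ (fderiv ℝ (D.I a)) z v u :=
    (h1.isSymmSndFDerivAt (by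
      rw [minSmoothness_of_isRCLikeNormedField]
      exact WithTop.coe_le_coe.2 le_top)).eq u v
  have h3 := curvB_par h hz a u v w
  have h4 := curvB_par h hz a v u w
  have hp : ∀ x y : V, fderiv ℝ (D.I a) z x y = D.I a z (D.Γ z x y) - D.Γ z x (D.I a z y) := by
    intro x y
    rw [← h.par a z hz x y]
    abel
  rw [h2] at h3
  rw [hp, hp] at h3 h4
  unfold curv
  simp only [map_add, map_sub] at h3 h4 ⊢
  linear_combination (norm := module) h3 - h4

end Pool.Agent.Lib.MP_6c284f_gt
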