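import Pool.Agent.Lib.MP_6c284f_gt.HK

set_option autoImplicit false

/-!
Algebra of the quaternionic frame `I a v`.
-/

namespace Pool.Agent.Lib.MP_6c284f_gt

open scoped ContDiff Topology
open Set

variable {V : Type} [NormedAddCommGroup V] [NormedSpace ℝ V]

private theorem FrameA_self {D : HKData V} {W : Set V} (h : IsHK D W) {z : V} (hz : z ∈ W)
    (a : Fin 4) (hsq : ∀ v, D.I a z (D.I a z v) = -v) (v : V) : D.G z (D.I a z v) v = 0 := by
  have h1 := h.orth a z hz (D.I a z v) v
  rw [hsq, map_neg, neg_apply, h.symm z hz v] at h1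
  linarith

theorem I_orth {D : HKData V} {W : Set V} (h : IsHK D W) {z : V} (hz : z ∈ W) {a b : Fin 4}
    (hab : a ≠ b) (v : V) : D.G z (D.I a z v) (D.I b z v) = 0 := by
  have e11 := h.I11 z hz
  have e22 := h.I22 z hz
  have e12 := h.I12 z hz
  have e21 := h.I21 z hz
  have e13 : ∀ v, D.I 1 z (D.I 3 z v) = -D.I 2 z v := fun v => by rw [← e12, e11]
  have e32 : ∀ v, D.I 3 z (D.I 2 z v) = -D.I 1 z v := fun v => by
    rw [← e12, e22, map_neg]
  have e23 : ∀ v, D.I 2 z (D.I 3 z v) = D.I 1 z v := fun v => by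
    rw [← e12, e21, e32, neg_neg]
  have e33 : ∀ v, D.I 3 z (D.I 3 z v) = -v := fun v => by
    rw [← e12, e23, e11]
  have s1 := FrameA_self h hz 1 e11
  have s2 := FrameA_self h hz 2 e22
  have s3 := FrameA_self h hz 3 e33
  have o1 := h.orth 1 z hz
  have o2 := h.orth 2 z hz
  have k12 : D.G z (D.I 1 z v) (D.I 2 z v) = 0 := by
    rw [← o1, e11, e12, h.symm z hz, map_neg, s3, neg_zero]
  have k13 : D.G z (D.I 1 z v) (D.I 3 z v) = 0 := by
    rw [← o1, e11, e13, h.symm z hz, map_neg, map_neg, neg_apply, s2, neg_zero, neg_zero]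
  have k23 : D.G z (D.I 2 z v) (D.I 3 z v) = 0 := by
    rw [← o2, e22, e23, h.symm z hz, map_neg, s1, neg_zero]
  have key : ∀ a b : Fin 4, a < b → D.G z (D.I a z v) (D.I b z v) = 0 := by
    intro a b hlt
    fin_cases a <;> fin_cases b <;> first
      | exact absurd hlt (by decide)
      | skip
    · change D.G z (D.I 0 z v) (D.I 1 z v) = 0
      rw [h.I0 z hz, h.symm z hz, s1]
    · change D.G z (D.I 0 z v) (D.I 2 z v) = 0
      rw [h.I0 z hz, h.symm z hz, s2]
    · change D.G z (D.I 0 z v) (D.I 3 z v) = 0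
      rw [h.I0 z hz, h.symm z hz, s3]
    · exact k12
    · exact k13
    · exact k23
  rcases lt_or_gt_of_ne hab with h1 | h1
  · exact key a b h1
  · rw [h.symm z hz]
    exact key b a h1

theorem I_expand {D : HKData V} {W : Set V} (h : IsHK D W) {z : V} (hz : z ∈ W)
    (hdim : Module.finrank ℝ V = 4) {e : V} (he : e ≠ 0) (x : V) :
    x = ∑ a, (D.G z x (D.I a z e) / D.G z e e) • D.I a z e := by
  have hpos := h.pos z hz e he
  have hG : ∀ (c : Fin 4 → ℝ) (b : Fin 4),
      D.G z (∑ a, c a • D.I a z e) (D.I b z e) = c b * D.G z e e := by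
    intro c b
    rw [map_sum, _root_.sum_apply, Finset.sum_eq_single b]
    · rw [map_smul, _root_.smul_apply, smul_eq_mul, h.orth b z hz]
    · intro a _ hab
      rw [map_smul, _root_.smul_apply, I_orth h hz hab, smul_zero]
    · intro hb
      exact absurd (Finset.mem_univ b) hb
  have hli : LinearIndependent ℝ (fun a : Fin 4 => D.I a z e) := by
    rw [Fintype.linearIndependent_iff]
    intro g hg b
    have h1 := hG g b
    rw [hg, map_zero, _root_.zero_apply] at h1
    have h2 : g b * D.G z e e = 0 := h1.symm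
    rcases mul_eq_zero.1 h2 with h3 | h3
    · exact h3
    · exact absurd h3 hpos.ne'
  have hspan := hli.span_eq_top_of_card_eq_finrank (by rw [hdim]; simp)
  have hx : x ∈ Submodule.span ℝ (Set.range fun a : Fin 4 => D.I a z e) := by
    rw [hspan]; exact Submodule.mem_top
  obtain ⟨c, hc⟩ := (Submodule.mem_span_range_iff_exists_fun ℝ).1 hx
  conv_lhs => rw [← hc]
  refine Finset.sum_congr rfl fun b _ => ?_
  congr 1
  rw [← hc, hG]
  field_simp

end Pool.Agent.Lib.MP_6c284f_gt
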