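import Pool.Agent.Lib.MP_6c284f_gt.CurvA
import Pool.Agent.Lib.MP_6c284f_gt.CurvB
import Pool.Agent.Lib.MP_6c284f_gt.FrameA

set_option autoImplicit false
set_option maxSynthPendingDepth 5

/-!
Pair symmetry of the curvature, vanishing of the Ricci curvature and the vanishing criterion.
-/

namespace Pool.Agent.Lib.MP_6c284f_gt

open scoped ContDiff Topology
open Set

variable {V : Type} [NormedAddCommGroup V] [NormedSpace ℝ V]

private theorem curvC_anti (D : HKData V) (z u v w x : V) :
    D.G z (curv D.Γ z u v w) x = -D.G z (curv D.Γ z v u w) x := by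
  rw [curv_antisymm D.Γ z u v w, map_neg, ContinuousLinearMap.neg_apply]

private theorem curvC_skew {D : HKData V} {W : Set V} (h : IsHK D W) {z : V} (hz : z ∈ W)
    (u v w x : V) : D.G z (curv D.Γ z u v w) x = -D.G z (curv D.Γ z u v x) w := by
  rw [curv_skew h hz, h.symm z hz w]

private theorem curvC_bianchi {D : HKData V} {W : Set V} (h : IsHK D W) {z : V} (hz : z ∈ W)
    (u v w x : V) : D.G z (curv D.Γ z u v w) x + D.G z (curv D.Γ z v w u) x +
      D.G z (curv D.Γ z w u v) x = 0 := by
  have h1 := congrArg (fun y => D.G z y x) (curv_bianchi h hz u v w)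
  simpa only [map_add, ContinuousLinearMap.add_apply, map_zero,
    ContinuousLinearMap.zero_apply] using h1

theorem curv_pair {D : HKData V} {W : Set V} (h : IsHK D W) {z : V} (hz : z ∈ W)
    (u v w x : V) : D.G z (curv D.Γ z u v w) x = D.G z (curv D.Γ z w x u) v := by
  have b1 := curvC_bianchi h hz u v w x
  have b2 := curvC_bianchi h hz v w x u
  have b3 := curvC_bianchi h hz w x u v
  have b4 := curvC_bianchi h hz x u v w
  have s1 := curvC_skew h hz v w u x
  have s2 := curvC_skew h hz u v w x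
  have s3 := curvC_skew h hz w x u v
  have s4 := curvC_skew h hz x u v w
  have s5 := curvC_skew h hz w u v x
  have s6 := curvC_skew h hz x v w u
  have s7 := curvC_skew h hz v x u w
  have s8 := curvC_skew h hz u w x v
  have a1 := curvC_anti D z w u v x
  have a2 := curvC_anti D z v x u w
  have a3 := curvC_anti D z w u x v
  have a4 := curvC_anti D z v x w u
  linarith

private theorem curvC_inv {D : HKData V} {W : Set V} (h : IsHK D W) {z : V} (hz : z ∈ W)
    (a : Fin 4) (u v w x : V) :
    D.G z (curv D.Γ z (D.I a z u) (D.I a z v) w) x = D.G z (curv D.Γ z u v w) x := by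
  rw [curv_pair h hz, curv_I h hz, h.orth a z hz, ← curv_pair h hz]

/-- the sum of the sectional curvatures of the planes spanned by `v` and `I a v` is zero -/
theorem curv_ric {D : HKData V} {W : Set V} (h : IsHK D W) {z : V} (hz : z ∈ W) (v : V) :
    ∑ a, D.G z (curv D.Γ z (D.I a z v) v v) (D.I a z v) = 0 := by
  rw [Fin.sum_univ_four, h.I0 z hz]
  have h0 : D.G z (curv D.Γ z v v v) v = 0 := by
    have := curvC_anti D z v v v v
    linarith
  have r1 := curvC_inv h hz 2 (D.I 1 z v) v v (D.I 1 z v)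
  have r2 := curvC_inv h hz 3 (D.I 2 z v) v v (D.I 2 z v)
  have r3 := curvC_inv h hz 1 (D.I 3 z v) v v (D.I 3 z v)
  have q1 : D.I 2 z (D.I 1 z v) = -D.I 3 z v := h.I21 z hz v
  have q2 : D.I 3 z (D.I 2 z v) = -D.I 1 z v := by
    rw [← h.I12 z hz, h.I22 z hz, map_neg]
  have q3 : D.I 1 z (D.I 3 z v) = -D.I 2 z v := by
    rw [← h.I12 z hz, h.I11 z hz]
  have hneg : ∀ u w y x : V, D.G z (curv D.Γ z (-u) w y) x = -D.G z (curv D.Γ z u w y) x := by
    intro u w y x
    unfold curv
    simp only [map_neg, ContinuousLinearMap.neg_apply, map_add, map_sub,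
      ContinuousLinearMap.add_apply, ContinuousLinearMap.sub_apply]
    ring
  rw [q1, hneg] at r1
  rw [q2, hneg] at r2
  rw [q3, hneg] at r3
  have b := curvC_bianchi h hz (D.I 1 z v) (D.I 2 z v) (D.I 3 z v) v
  have s1 := curvC_skew h hz (D.I 3 z v) (D.I 2 z v) v (D.I 1 z v)
  have s2 := curvC_skew h hz (D.I 1 z v) (D.I 3 z v) v (D.I 2 z v)
  have s3 := curvC_skew h hz (D.I 2 z v) (D.I 1 z v) v (D.I 3 z v)
  have a1 := curvC_anti D z (D.I 3 z v) (D.I 2 z v) (D.I 1 z v) v
  have a2 := curvC_anti D z (D.I 1 z v) (D.I 3 z v) (D.I 2 z v) v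
  have a3 := curvC_anti D z (D.I 2 z v) (D.I 1 z v) (D.I 3 z v) v
  linarith

private theorem curvC_lin (Γ : V → V →L[ℝ] V →L[ℝ] V) (z u v : V) (c : Fin 4 → ℝ)
    (w : Fin 4 → V) (hw : ∀ a, curv Γ z u v (w a) = 0) :
    curv Γ z u v (∑ a, c a • w a) = 0 := by
  have h1 : curv Γ z u v (∑ a, c a • w a) = ∑ a, c a • curv Γ z u v (w a) := by
    unfold curv
    simp only [map_sum, map_smul, ← Finset.sum_sub_distrib, ← Finset.sum_add_distrib,
      smul_sub, smul_add]
  rw [h1]
  simp [hw]

theorem curv_zero {D : HKData V} {W : Set V} (h : IsHK D W) {z : V} (hz : z ∈ W)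
    (hdim : Module.finrank ℝ V = 4) {e : V} (he : e ≠ 0)
    (h0 : ∀ u, curv D.Γ z u e e = 0) (u v w : V) : curv D.Γ z u v w = 0 := by
  have h1 : ∀ u w, curv D.Γ z u e w = 0 := by
    intro u w
    rw [I_expand h hz hdim he w]
    apply curvC_lin
    intro a
    rw [curv_I h hz, h0, map_zero]
  have h2 : ∀ w x, curv D.Γ z w x e = 0 := by
    intro w x
    by_contra hne
    have hp := h.pos z hz _ hne
    rw [curv_pair h hz, curvC_anti, h1, map_zero, ContinuousLinearMap.zero_apply, neg_zero] at hp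
    exact lt_irrefl _ hp
  rw [I_expand h hz hdim he w]
  apply curvC_lin
  intro a
  rw [curv_I h hz, h2, map_zero]

end Pool.Agent.Lib.MP_6c284f_gt
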