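import Pool.Agent.Lib.MP_6c284f_gt.Tube

set_option autoImplicit false
set_option maxSynthPendingDepth 5

/-!
Parallel fields along a geodesic.
-/

namespace Pool.Agent.Lib.MP_6c284f_gt

open scoped ContDiff Topology
open Set

variable {V : Type} [NormedAddCommGroup V] [NormedSpace ℝ V]

/-- the endomorphisms commute with the covariant derivative along a curve -/
theorem covD_I {D : HKData V} {W : Set V} (h : IsHK D W) {c X : ℝ → V}
    (hc : IsGeod D W c) {t : ℝ} (ht : t ∈ Icc (0 : ℝ) 1) (hX : DifferentiableAt ℝ X t)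
    (a : Fin 4) :
    covD D.Γ c (fun s => D.I a (c s) (X s)) t = D.I a (c t) (covD D.Γ c X t) := by
  have hc1 : HasDerivAt c (deriv c t) t :=
    ((hc.smooth t ht).differentiableAt (by simp)).hasDerivAt
  have hI0 : HasFDerivAt (D.I a) (fderiv ℝ (D.I a) (c t)) (c t) :=
    (((h.smoothI a).contDiffAt (h.isOpen.mem_nhds (hc.mem t ht))).differentiableAt
      (by simp)).hasFDerivAt
  have hI : HasDerivAt (fun s => D.I a (c s)) (fderiv ℝ (D.I a) (c t) (deriv c t)) t :=
    hI0.comp_hasDerivAt t hc1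
  have h1 := hI.clm_apply hX.hasDerivAt
  unfold covD
  rw [h1.deriv, map_add, ← h.par a _ (hc.mem t ht)]
  abel

theorem covD_velocity {D : HKData V} {W : Set V} {c : ℝ → V}
    (hc : IsGeod D W c) {t : ℝ} (ht : t ∈ Icc (0 : ℝ) 1) : covD D.Γ c (deriv c) t = 0 := by
  unfold covD
  rw [hc.eq t ht, neg_add_cancel]

theorem contDiffAt_I {D : HKData V} {W : Set V} (h : IsHK D W) {c X : ℝ → V}
    (hc : IsGeod D W c) {t : ℝ} (ht : t ∈ Icc (0 : ℝ) 1) (hX : ContDiffAt ℝ 1 X t)
    (a : Fin 4) : ContDiffAt ℝ 1 (fun s => D.I a (c s) (X s)) t := by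
  have h1 : ContDiffAt ℝ 1 (D.I a) (c t) :=
    ((h.smoothI a).contDiffAt (h.isOpen.mem_nhds (hc.mem t ht))).of_le (by simp)
  have h2 : ContDiffAt ℝ 1 c t := (hc.smooth t ht).of_le (by norm_num)
  exact (h1.comp t h2).clm_apply hX

theorem contDiffAt_velocity {D : HKData V} {W : Set V} {c : ℝ → V}
    (hc : IsGeod D W c) {t : ℝ} (ht : t ∈ Icc (0 : ℝ) 1) : ContDiffAt ℝ 1 (deriv c) t := by
  have h1 : ContDiffAt ℝ 1 (fderiv ℝ c) t :=
    (hc.smooth t ht).fderiv_right (m := 1) (by norm_num)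
  have h2 : ContDiffAt ℝ 1 (fun s => fderiv ℝ c s 1) t := h1.clm_apply contDiffAt_const
  have h3 : (fun s => fderiv ℝ c s 1) = deriv c := by
    funext s
    exact fderiv_apply_one_eq_deriv
  rwa [h3] at h2

/-- a geodesic has constant speed -/
theorem speed_const {D : HKData V} {W : Set V} (h : IsHK D W) {c : ℝ → V}
    (hc : IsGeod D W c) {t : ℝ} (ht : t ∈ Icc (0 : ℝ) 1) :
    D.G (c t) (deriv c t) (deriv c t) = D.G (c 0) (deriv c 0) (deriv c 0) := by
  have hd : ∀ s ∈ Icc (0 : ℝ) 1,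
      HasDerivAt (fun s => D.G (c s) (deriv c s) (deriv c s)) 0 s := by
    intro s hs
    have hc1 : HasDerivAt c (deriv c s) s :=
      ((hc.smooth s hs).differentiableAt (by simp)).hasDerivAt
    have hc2 : HasDerivAt (deriv c) (deriv (deriv c) s) s :=
      ((contDiffAt_velocity hc hs).differentiableAt (by simp)).hasDerivAt
    have hG0 : HasFDerivAt D.G (fderiv ℝ D.G (c s)) (c s) :=
      ((h.smoothG.contDiffAt (h.isOpen.mem_nhds (hc.mem s hs))).differentiableAt
        (by simp)).hasFDerivAt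
    have hG : HasDerivAt (fun s => D.G (c s)) (fderiv ℝ D.G (c s) (deriv c s)) s :=
      hG0.comp_hasDerivAt s hc1
    have h1 := (hG.clm_apply hc2).clm_apply hc2
    refine h1.congr_deriv ?_
    rw [hc.eq s hs, add_apply, h.compat _ (hc.mem s hs), map_neg, map_neg]
    simp only [neg_apply]
    ring
  exact constant_of_has_deriv_right_zero (f := fun s => D.G (c s) (deriv c s) (deriv c s))
    (fun s hs => (hd s hs).continuousAt.continuousWithinAt)
    (fun s hs => (hd s (Ico_subset_Icc_self hs)).hasDerivWithinAt) t ht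

end Pool.Agent.Lib.MP_6c284f_gt
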