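import Pool.Agent.Lib.MP_6c284f_gt.SecVar
import Pool.Agent.Lib.MP_6c284f_gt.CurvC
import Pool.Agent.Lib.MP_6c284f_gt.FrameB

set_option autoImplicit false
set_option maxSynthPendingDepth 5

/-!
Bourguignon-Yau: the curvature vanishes along a locally energy minimizing closed geodesic.
-/

namespace Pool.Agent.Lib.MP_6c284f_gt

open scoped ContDiff Topology
open Set

/-- index form of a closed geodesic which is a local minimum of the energy -/
theorem index_nonneg {D : HKData E4} {W : Set E4} {ε δ : ℝ} (hT : IsTube D W ε)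
    (hLM : IsLM D W δ) {c : ℝ → E4} (hc : IsGeod D W c)
    (hclose : ∀ t ∈ Icc (0 : ℝ) 1, ‖c t - t • e0‖ < δ) (hend : c 1 = c 0 + e0)
    (hvel : deriv c 1 = deriv c 0) (h0 : ‖c 0‖ < ε) (hE : energy D.G c = 1) {X : ℝ → E4}
    (hX : ∀ t ∈ Icc (0 : ℝ) 1, ContDiffAt ℝ 1 X t) (hX01 : X 1 = X 0) :
    0 ≤ ∫ t in (0 : ℝ)..1, (D.G (c t) (covD D.Γ c X t) (covD D.Γ c X t)
      - D.G (c t) (curv D.Γ (c t) (X t) (deriv c t) (deriv c t)) (X t)) := by
  have h := hT.hk
  have hcc : ContinuousOn c (Icc 0 1) := fun t ht =>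
    (hc.smooth t ht).continuousAt.continuousWithinAt
  have hXc : ContinuousOn X (Icc 0 1) := fun t ht =>
    (hX t ht).continuousAt.continuousWithinAt
  obtain ⟨r, hr, hmem⟩ := secVar_tube h.isOpen hcc hXc hc.mem
  obtain ⟨M, hM⟩ := isCompact_Icc.exists_bound_of_continuousOn hXc
  have hM0 : 0 ≤ M := (norm_nonneg _).trans (hM 0 ⟨le_rfl, zero_le_one⟩)
  have hdist : ContinuousOn (fun t : ℝ => ‖c t - t • e0‖) (Icc 0 1) :=
    (hcc.sub (continuousOn_id.smul continuousOn_const)).norm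
  obtain ⟨t1, ht1, hmax⟩ := isCompact_Icc.exists_isMaxOn
    (nonempty_Icc.2 zero_le_one) hdist
  have hgap : 0 < δ - ‖c t1 - t1 • e0‖ := sub_pos.2 (hclose t1 ht1)
  have hlow : ∀ s : ℝ, |s| < r → |s| < (δ - ‖c t1 - t1 • e0‖) / (M + 1) →
      1 ≤ energy D.G (fun t => c t + s • X t) := by
    intro s hs hs'
    refine hLM _ ?_ ?_ ?_
    · intro t ht
      exact ((hc.smooth t ht).of_le (by norm_num)).add ((hX t ht).const_smul s)
    · simp only [hend, hX01]
      abel
    · intro t ht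
      refine ⟨hmem t ht s hs, ?_⟩
      have e1 : c t + s • X t - t • e0 = (c t - t • e0) + s • X t := by abel
      have e2 : ‖s • X t‖ < δ - ‖c t1 - t1 • e0‖ := by
        rw [norm_smul, Real.norm_eq_abs]
        rw [lt_div_iff₀ (by positivity)] at hs'
        refine lt_of_le_of_lt ?_ hs'
        exact mul_le_mul_of_nonneg_left ((hM t ht).trans (by linarith)) (abs_nonneg _)
      have e3 : ‖c t - t • e0‖ ≤ ‖c t1 - t1 • e0‖ := hmax ht
      simp only [e1]
      calc ‖(c t - t • e0) + s • X t‖ ≤ ‖c t - t • e0‖ + ‖s • X t‖ := norm_add_le _ _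
        _ < δ := by linarith
  have hG1 : D.G (c 1) = D.G (c 0) := by rw [hend]; exact hT.perG _ h0
  have hΓ1 : D.Γ (c 1) = D.Γ (c 0) := by rw [hend]; exact hT.perΓ _ h0
  have hSV := second_variation h hc hX
  rw [hG1, hΓ1, hvel, hX01, sub_self, sub_self, hE] at hSV
  by_contra hneg
  rw [not_le] at hneg
  set J := ∫ t in (0 : ℝ)..1, (D.G (c t) (covD D.Γ c X t) (covD D.Γ c X t)
      - D.G (c t) (curv D.Γ (c t) (X t) (deriv c t) (deriv c t)) (X t)) with hJ
  rw [Asymptotics.isLittleO_iff] at hSV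
  have hev := hSV (c := -J / 2) (by linarith)
  rw [Metric.eventually_nhds_iff] at hev
  obtain ⟨η, hη, hev⟩ := hev
  set s : ℝ := min (η / 2) (min (r / 2) ((δ - ‖c t1 - t1 • e0‖) / (M + 1) / 2)) with hs
  have hq : 0 < (δ - ‖c t1 - t1 • e0‖) / (M + 1) := by positivity
  have hspos : 0 < s := lt_min (by linarith) (lt_min (by linarith) (by linarith))
  have hs1 : s < η := lt_of_le_of_lt (min_le_left _ _) (by linarith)
  have hs2 : s < r := lt_of_le_of_lt ((min_le_right _ _).trans (min_le_left _ _)) (by linarith)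
  have hs3 : s < (δ - ‖c t1 - t1 • e0‖) / (M + 1) :=
    lt_of_le_of_lt ((min_le_right _ _).trans (min_le_right _ _)) (by linarith)
  have hE1 := hlow s (by rwa [abs_of_pos hspos]) (by rwa [abs_of_pos hspos])
  have hE2 := hev (y := s) (by rwa [Real.dist_eq, sub_zero, abs_of_pos hspos])
  rw [Real.norm_eq_abs, Real.norm_eq_abs, abs_of_nonneg (sq_nonneg s)] at hE2
  have hE3 := (abs_le.1 hE2).2
  have hs4 : 0 < s ^ 2 := by positivity
  nlinarith

end Pool.Agent.Lib.MP_6c284f_gt
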