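import Pool.Agent.Lib.MP_6c284f_gt.SecVar
import Pool.Agent.Lib.MP_6c284f_gt.CurvC
import Pool.Agent.Lib.MP_6c284f_gt.FrameB
import Pool.Agent.Lib.MP_6c284f_gt.BYA

set_option autoImplicit false
set_option maxSynthPendingDepth 5

/-!
Bourguignon-Yau: the curvature vanishes along a locally energy minimizing closed geodesic.
-/

namespace Pool.Agent.Lib.MP_6c284f_gt

open scoped ContDiff Topology
open Set

section

variable {V : Type} [NormedAddCommGroup V] [NormedSpace ℝ V]

theorem byF_curv_add (Γ : V → V →L[ℝ] V →L[ℝ] V) (z u u' v w : V) :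
    curv Γ z (u + u') v w = curv Γ z u v w + curv Γ z u' v w := by
  simp only [curv, map_add, add_apply]
  abel

theorem byF_curv_smul (Γ : V → V →L[ℝ] V →L[ℝ] V) (z u v w : V) (s : ℝ) :
    curv Γ z (s • u) v w = s • curv Γ z u v w := by
  simp only [curv, map_smul, smul_apply, smul_sub, smul_add]

theorem byF_curv_sum (Γ : V → V →L[ℝ] V →L[ℝ] V) (z v w : V) (s : Fin 4 → ℝ) (u : Fin 4 → V) :
    curv Γ z (∑ a, s a • u a) v w = ∑ a, s a • curv Γ z (u a) v w := by
  simp only [Fin.sum_univ_four, byF_curv_add, byF_curv_smul]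

/-- symmetry of the curvature operator `u ↦ R(u,e)e` -/
theorem byF_jac_symm {D : HKData V} {W : Set V} (h : IsHK D W) {z : V} (hz : z ∈ W)
    (u e x : V) : D.G z (curv D.Γ z u e e) x = D.G z (curv D.Γ z x e e) u := by
  rw [curv_pair h hz u e e x, curv_antisymm D.Γ z e x u, map_neg, neg_apply,
    curv_skew h hz x e u e, neg_neg, h.symm z hz]

/-- the integrand of the index form -/
noncomputable def byF (D : HKData V) (c X : ℝ → V) (t : ℝ) : ℝ :=
  D.G (c t) (covD D.Γ c X t) (covD D.Γ c X t)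
      - D.G (c t) (curv D.Γ (c t) (X t) (deriv c t) (deriv c t)) (X t)

theorem byF_cont_curv {D : HKData V} {W : Set V} (h : IsHK D W) {c X : ℝ → V}
    (hc : IsGeod D W c) (hXc : ContinuousOn X (Icc 0 1)) :
    ContinuousOn (fun t => curv D.Γ (c t) (X t) (deriv c t) (deriv c t)) (Icc 0 1) := by
  have hcc : ContinuousOn c (Icc 0 1) := fun t ht =>
    (hc.smooth t ht).continuousAt.continuousWithinAt
  have hcd : ContinuousOn (deriv c) (Icc 0 1) :=
    secVar_contDeriv (fun t ht => (hc.smooth t ht).of_le (by norm_num))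
  have hΓ0 : ContinuousOn (fun t => D.Γ (c t)) (Icc 0 1) :=
    h.smoothΓ.continuousOn.comp hcc hc.mem
  have hΓ1' : ContDiffOn ℝ ∞ (fderiv ℝ D.Γ) W := h.smoothΓ.fderiv_of_isOpen h.isOpen (by simp)
  have hΓ1 : ContinuousOn (fun t => fderiv ℝ D.Γ (c t)) (Icc 0 1) :=
    hΓ1'.continuousOn.comp hcc hc.mem
  exact (((((hΓ1.clm_apply hXc).clm_apply hcd).clm_apply hcd).sub
      (((hΓ1.clm_apply hcd).clm_apply hXc).clm_apply hcd)).add
      ((hΓ0.clm_apply hXc).clm_apply ((hΓ0.clm_apply hcd).clm_apply hcd))).sub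
      ((hΓ0.clm_apply hcd).clm_apply ((hΓ0.clm_apply hXc).clm_apply hcd))

theorem byF_contG {D : HKData V} {W : Set V} (h : IsHK D W) {c X Y : ℝ → V}
    (hc : IsGeod D W c) (hX : ContinuousOn X (Icc 0 1)) (hY : ContinuousOn Y (Icc 0 1)) :
    ContinuousOn (fun t => D.G (c t) (X t) (Y t)) (Icc 0 1) := by
  have hcc : ContinuousOn c (Icc 0 1) := fun t ht =>
    (hc.smooth t ht).continuousAt.continuousWithinAt
  have hk0 : ContinuousOn (fun t => D.G (c t)) (Icc 0 1) :=
    h.smoothG.continuousOn.comp hcc hc.mem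
  exact (hk0.clm_apply hX).clm_apply hY

theorem byF_cont {D : HKData V} {W : Set V} (h : IsHK D W) {c X : ℝ → V}
    (hc : IsGeod D W c) (hX : ∀ t ∈ Icc (0 : ℝ) 1, ContDiffAt ℝ 1 X t) :
    ContinuousOn (byF D c X) (Icc 0 1) := by
  have hcc : ContinuousOn c (Icc 0 1) := fun t ht =>
    (hc.smooth t ht).continuousAt.continuousWithinAt
  have hXc : ContinuousOn X (Icc 0 1) := fun t ht =>
    (hX t ht).continuousAt.continuousWithinAt
  have hcd : ContinuousOn (deriv c) (Icc 0 1) :=
    secVar_contDeriv (fun t ht => (hc.smooth t ht).of_le (by norm_num))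
  have hXd : ContinuousOn (deriv X) (Icc 0 1) := secVar_contDeriv hX
  have hΓ0 : ContinuousOn (fun t => D.Γ (c t)) (Icc 0 1) :=
    h.smoothΓ.continuousOn.comp hcc hc.mem
  have hcov : ContinuousOn (covD D.Γ c X) (Icc 0 1) :=
    hXd.add ((hΓ0.clm_apply hcd).clm_apply hXc)
  exact (byF_contG h hc hcov hcov).sub (byF_contG h hc (byF_cont_curv h hc hXc) hXc)

/-- the curvature field `R(X,c')c'` is continuously differentiable -/
theorem byF_smooth_curv {D : HKData V} {W : Set V} (h : IsHK D W) {c X : ℝ → V}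
    (hc : IsGeod D W c) {t : ℝ} (ht : t ∈ Icc (0 : ℝ) 1) (hX : ContDiffAt ℝ 1 X t) :
    ContDiffAt ℝ 1 (fun t => curv D.Γ (c t) (X t) (deriv c t) (deriv c t)) t := by
  have hcc : ContDiffAt ℝ 1 c t := (hc.smooth t ht).of_le (by norm_num)
  have hcd : ContDiffAt ℝ 1 (deriv c) t := contDiffAt_velocity hc ht
  have hz := h.isOpen.mem_nhds (hc.mem t ht)
  have hΓ0 : ContDiffAt ℝ 1 (fun t => D.Γ (c t)) t :=
    ((h.smoothΓ.contDiffAt hz).of_le (by simp)).comp t hcc
  have hΓ1' : ContDiffOn ℝ ∞ (fderiv ℝ D.Γ) W := h.smoothΓ.fderiv_of_isOpen h.isOpen (by simp)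
  have hΓ1 : ContDiffAt ℝ 1 (fun t => fderiv ℝ D.Γ (c t)) t :=
    ((hΓ1'.contDiffAt hz).of_le (by simp)).comp t hcc
  exact (((((hΓ1.clm_apply hX).clm_apply hcd).clm_apply hcd).sub
      (((hΓ1.clm_apply hcd).clm_apply hX).clm_apply hcd)).add
      ((hΓ0.clm_apply hX).clm_apply ((hΓ0.clm_apply hcd).clm_apply hcd))).sub
      ((hΓ0.clm_apply hcd).clm_apply ((hΓ0.clm_apply hX).clm_apply hcd))

/-- expansion of the index form at a parallel field `E` in the direction `X` -/
theorem byF_expand {D : HKData V} {W : Set V} (h : IsHK D W) {c E X : ℝ → V}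
    (hc : IsGeod D W c) {t : ℝ} (ht : t ∈ Icc (0 : ℝ) 1) (hE : DifferentiableAt ℝ E t)
    (hpar : covD D.Γ c E t = 0) (hX : DifferentiableAt ℝ X t) (s : ℝ) :
    byF D c (fun t => E t + s • X t) t = byF D c E t
      - s * (2 * D.G (c t) (curv D.Γ (c t) (E t) (deriv c t) (deriv c t)) (X t))
      + s ^ 2 * byF D c X t := by
  have hd : deriv (fun t => E t + s • X t) t = deriv E t + s • deriv X t :=
    ((hE.hasDerivAt).add ((hX.hasDerivAt).const_smul s)).deriv
  have hcov : covD D.Γ c (fun t => E t + s • X t) t = s • covD D.Γ c X t := by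
    have e1 : covD D.Γ c (fun t => E t + s • X t) t = covD D.Γ c E t + s • covD D.Γ c X t := by
      simp only [covD, hd, map_add, map_smul, smul_add]
      abel
    rw [e1, hpar, zero_add]
  have hsy := byF_jac_symm h (hc.mem t ht) (X t) (deriv c t) (E t)
  simp only [byF, hcov, hpar, byF_curv_add, byF_curv_smul, map_add, map_smul, add_apply,
    smul_apply, smul_eq_mul, map_zero]
  rw [hsy]
  ring

end

theorem byF_int {f : ℝ → ℝ} (hf : ContinuousOn f (Icc 0 1)) :
    IntervalIntegrable f MeasureTheory.volume 0 1 :=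
  ContinuousOn.intervalIntegrable (by rwa [uIcc_of_le zero_le_one])

theorem by_flat {D : HKData E4} {W : Set E4} {ε δ : ℝ} (hT : IsTube D W ε)
    (hLM : IsLM D W δ) {c : ℝ → E4} (hc : IsGeod D W c)
    (hclose : ∀ t ∈ Icc (0 : ℝ) 1, ‖c t - t • e0‖ < δ) (hend : c 1 = c 0 + e0)
    (hvel : deriv c 1 = deriv c 0) (h0 : ‖c 0‖ < ε) (hE : energy D.G c = 1) :
    ∀ t ∈ Icc (0 : ℝ) 1, ∀ u v w, curv D.Γ (c t) u v w = 0 := by
  have h := hT.hk
  have h01 : (0 : ℝ) ∈ Icc (0 : ℝ) 1 := ⟨le_rfl, zero_le_one⟩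
  -- the velocity does not vanish
  have hcc : ContinuousOn c (Icc 0 1) := fun t ht =>
    (hc.smooth t ht).continuousAt.continuousWithinAt
  have hcd : ContinuousOn (deriv c) (Icc 0 1) :=
    secVar_contDeriv (fun t ht => (hc.smooth t ht).of_le (by norm_num))
  have hne : ∀ t ∈ Icc (0 : ℝ) 1, deriv c t ≠ 0 := by
    intro t ht hzero
    have h1 := speed_const h hc ht
    rw [hzero, map_zero] at h1
    have h2 : energy D.G c = 0 := by
      unfold energy
      rw [intervalIntegral.integral_congr (g := fun _ => (0 : ℝ))]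
      · simp
      · intro s hs
        rw [uIcc_of_le zero_le_one] at hs
        simp only
        rw [speed_const h hc hs, ← h1]
    rw [h2] at hE
    exact zero_ne_one hE
  have hG1 : D.G (c 1) = D.G (c 0) := by rw [hend]; exact hT.perG _ h0
  have hΓ1 : D.Γ (c 1) = D.Γ (c 0) := by rw [hend]; exact hT.perΓ _ h0
  have hdΓ1 : fderiv ℝ D.Γ (c 1) = fderiv ℝ D.Γ (c 0) := by
    rw [hend, ← fderiv_comp_add_right]
    refine Filter.EventuallyEq.fderiv_eq ?_
    have : ∀ᶠ z : E4 in 𝓝 (c 0), ‖z‖ < ε :=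
      (continuous_norm.isOpen_preimage _ isOpen_Iio).mem_nhds h0
    filter_upwards [this] with z hz
    exact hT.perΓ z hz
  -- the parallel fields
  set E : Fin 4 → ℝ → E4 := fun a s => D.I a (c s) (deriv c s) with hEdef
  have hEs : ∀ a, ∀ t ∈ Icc (0 : ℝ) 1, ContDiffAt ℝ 1 (E a) t := fun a t ht =>
    contDiffAt_I h hc ht (contDiffAt_velocity hc ht) a
  have hEp : ∀ a, ∀ t ∈ Icc (0 : ℝ) 1, covD D.Γ c (E a) t = 0 := by
    intro a t ht
    have := covD_I h hc ht ((contDiffAt_velocity hc ht).differentiableAt (by norm_num)) a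
    rw [covD_velocity hc ht, map_zero] at this
    exact this
  have hE01 : ∀ a, E a 1 = E a 0 := by
    intro a
    simp only [hEdef]
    rw [hvel, hend, hT.perI _ h0 a]
  have hidx : ∀ X : ℝ → E4, (∀ t ∈ Icc (0 : ℝ) 1, ContDiffAt ℝ 1 X t) → X 1 = X 0 →
      0 ≤ ∫ t in (0 : ℝ)..1, byF D c X t := fun X hX hX01 =>
    index_nonneg hT hLM hc hclose hend hvel h0 hE hX hX01
  have hsum : ∑ a, ∫ t in (0 : ℝ)..1, byF D c (E a) t = 0 := by
    rw [← intervalIntegral.integral_finsetSum (fun a _ => byF_int (byF_cont h hc (hEs a)))]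
    rw [intervalIntegral.integral_congr (g := fun _ => (0 : ℝ))]
    · simp
    · intro t ht
      rw [uIcc_of_le zero_le_one] at ht
      simp only [byF, hEp _ t ht, map_zero, zero_sub, Finset.sum_neg_distrib]
      rw [neg_eq_zero]
      exact curv_ric h (hc.mem t ht) (deriv c t)
  have hEidx : ∀ a, ∫ t in (0 : ℝ)..1, byF D c (E a) t = 0 := fun a =>
    (Finset.sum_eq_zero_iff_of_nonneg
      (fun a _ => hidx (E a) (hEs a) (hE01 a))).1 hsum a (Finset.mem_univ a)
  -- the mixed terms vanish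
  have hmix : ∀ a, ∀ X : ℝ → E4, (∀ t ∈ Icc (0 : ℝ) 1, ContDiffAt ℝ 1 X t) → X 1 = X 0 →
      ∫ t in (0 : ℝ)..1, D.G (c t) (curv D.Γ (c t) (E a t) (deriv c t) (deriv c t)) (X t)
        = 0 := by
    intro a X hX hX01
    have hEc : ContinuousOn (E a) (Icc 0 1) := fun t ht =>
      (hEs a t ht).continuousAt.continuousWithinAt
    have hXc : ContinuousOn X (Icc 0 1) := fun t ht =>
      (hX t ht).continuousAt.continuousWithinAt
    set B := ∫ t in (0 : ℝ)..1,
      D.G (c t) (curv D.Γ (c t) (E a t) (deriv c t) (deriv c t)) (X t) with hB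
    set A := ∫ t in (0 : ℝ)..1, byF D c X t with hA
    have hBc : ContinuousOn (fun t =>
        D.G (c t) (curv D.Γ (c t) (E a t) (deriv c t) (deriv c t)) (X t)) (Icc 0 1) :=
      byF_contG h hc (byF_cont_curv h hc hEc) hXc
    have hkey : ∀ s : ℝ, 0 ≤ s ^ 2 * A - s * (2 * B) := by
      intro s
      have h1 := hidx (fun t => E a t + s • X t)
        (fun t ht => (hEs a t ht).add ((hX t ht).const_smul s))
        (by simp only [hE01 a, hX01])
      have h2 : (∫ t in (0 : ℝ)..1, byF D c (fun t => E a t + s • X t) t)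
          = ∫ t in (0 : ℝ)..1, (byF D c (E a) t
            - s * (2 * D.G (c t) (curv D.Γ (c t) (E a t) (deriv c t) (deriv c t)) (X t))
            + s ^ 2 * byF D c X t) := by
        refine intervalIntegral.integral_congr fun t ht => ?_
        rw [uIcc_of_le zero_le_one] at ht
        exact byF_expand h hc ht ((hEs a t ht).differentiableAt (by norm_num)) (hEp a t ht)
          ((hX t ht).differentiableAt (by norm_num)) s
      have i1 := byF_int (byF_cont h hc (hEs a))
      have i2 : IntervalIntegrable (fun t => s * (2 * D.G (c t)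
          (curv D.Γ (c t) (E a t) (deriv c t) (deriv c t)) (X t)))
          MeasureTheory.volume 0 1 := ((byF_int hBc).const_mul 2).const_mul s
      have i3 : IntervalIntegrable (fun t => s ^ 2 * byF D c X t)
          MeasureTheory.volume 0 1 := (byF_int (byF_cont h hc hX)).const_mul _
      rw [h2, intervalIntegral.integral_add (i1.sub i2) i3, intervalIntegral.integral_sub i1 i2,
        intervalIntegral.integral_const_mul, intervalIntegral.integral_const_mul,
        intervalIntegral.integral_const_mul, hEidx a] at h1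
      linarith
    have hA0 : 0 ≤ A := hidx X hX hX01
    by_contra hne0
    have h3 := hkey (B / (A + 1))
    have h4 : (B / (A + 1)) ^ 2 * A - B / (A + 1) * (2 * B)
        = -(B ^ 2 / (A + 1) ^ 2 * (A + 2)) := by
      field_simp
      ring
    have h5 : 0 < B ^ 2 / (A + 1) ^ 2 * (A + 2) := by positivity
    linarith
  -- the curvature operator vanishes on the frame
  have hvan : ∀ a, ∀ t ∈ Icc (0 : ℝ) 1,
      curv D.Γ (c t) (E a t) (deriv c t) (deriv c t) = 0 := by
    intro a t ht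
    by_contra hne0
    have hXs : ∀ t ∈ Icc (0 : ℝ) 1, ContDiffAt ℝ 1
        (fun t => curv D.Γ (c t) (E a t) (deriv c t) (deriv c t)) t := fun t ht =>
      byF_smooth_curv h hc ht (hEs a t ht)
    have hX01 : curv D.Γ (c 1) (E a 1) (deriv c 1) (deriv c 1)
        = curv D.Γ (c 0) (E a 0) (deriv c 0) (deriv c 0) := by
      simp only [curv, hE01 a, hΓ1, hdΓ1, hvel]
    have hm := hmix a _ hXs hX01
    have hXc : ContinuousOn (fun t => curv D.Γ (c t) (E a t) (deriv c t) (deriv c t))
        (Icc 0 1) := fun t ht => (hXs t ht).continuousAt.continuousWithinAt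
    have hpos := intervalIntegral.integral_pos (a := (0 : ℝ)) (b := 1) zero_lt_one
      (byF_contG h hc hXc hXc)
      (fun x hx => by
        have hz := hc.mem x ⟨hx.1.le, hx.2⟩
        by_cases hw : curv D.Γ (c x) (E a x) (deriv c x) (deriv c x) = 0
        · simp [hw]
        · exact (h.pos _ hz _ hw).le)
      ⟨t, ht, h.pos _ (hc.mem t ht) _ hne0⟩
    rw [hm] at hpos
    exact lt_irrefl _ hpos
  intro t ht u v w
  have hz := hc.mem t ht
  have hdim : Module.finrank ℝ E4 = 4 := finrank_euclideanSpace_fin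
  refine curv_zero h hz hdim (hne t ht) ?_ u v w
  intro u
  rw [I_expand h hz hdim (hne t ht) u, byF_curv_sum]
  refine Finset.sum_eq_zero fun a _ => ?_
  rw [show curv D.Γ (c t) (D.I a (c t) (deriv c t)) (deriv c t) (deriv c t) = 0 from hvan a t ht,
    smul_zero]

end Pool.Agent.Lib.MP_6c284f_gt
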