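import Pool.Agent.Lib.MP_6c284f_gt.HK

set_option autoImplicit false
set_option maxSynthPendingDepth 5

/-!
Symmetries of the curvature: antisymmetry, first Bianchi identity, skewness for the metric.
-/

namespace Pool.Agent.Lib.MP_6c284f_gt

open scoped ContDiff Topology
open Set

variable {V : Type} [NormedAddCommGroup V] [NormedSpace ℝ V]

theorem curv_antisymm (Γ : V → V →L[ℝ] V →L[ℝ] V) (z u v w : V) :
    curv Γ z u v w = -curv Γ z v u w := by
  unfold curv
  abel

private theorem curvA_apply2 {F : Type} [NormedAddCommGroup F] [NormedSpace ℝ F]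
    {B : V → V →L[ℝ] V →L[ℝ] F} {z : V} (hB : DifferentiableAt ℝ B z) {a b : V → V} {a' b' : V →L[ℝ] V}
    (ha : HasFDerivAt a a' z) (hb : HasFDerivAt b b' z) (x : V) :
    DifferentiableAt ℝ (fun y => B y (a y) (b y)) z ∧ fderiv ℝ (fun y => B y (a y) (b y)) z x =
      fderiv ℝ B z x (a z) (b z) + B z (a' x) (b z) + B z (a z) (b' x) := by
  have h1 := (hB.hasFDerivAt.clm_apply ha).clm_apply hb
  refine ⟨h1.differentiableAt, ?_⟩
  rw [h1.fderiv]
  simp only [ContinuousLinearMap.add_apply, ContinuousLinearMap.comp_apply,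
    ContinuousLinearMap.flip_apply]
  abel

private theorem curvA_diffΓ {D : HKData V} {W : Set V} (h : IsHK D W) {z : V} (hz : z ∈ W) :
    DifferentiableAt ℝ D.Γ z :=
  ((h.smoothΓ.contDiffAt (h.isOpen.mem_nhds hz)).differentiableAt (by simp))

private theorem curvA_diffG {D : HKData V} {W : Set V} (h : IsHK D W) {z : V} (hz : z ∈ W) :
    DifferentiableAt ℝ D.G z :=
  ((h.smoothG.contDiffAt (h.isOpen.mem_nhds hz)).differentiableAt (by simp))

private theorem curvA_diffG' {D : HKData V} {W : Set V} (h : IsHK D W) {z : V} (hz : z ∈ W) :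
    DifferentiableAt ℝ (fderiv ℝ D.G) z := by
  have h1 : ContDiffAt ℝ ∞ D.G z := h.smoothG.contDiffAt (h.isOpen.mem_nhds hz)
  have h2 : ContDiffAt ℝ 1 (fderiv ℝ D.G) z := h1.fderiv_right (m := 1) (by norm_cast)
  exact h2.differentiableAt (by simp)

/-- the derivative of `Γ` is symmetric in the two arguments of `Γ` (torsion freeness on `W`) -/
theorem fderiv_tors {D : HKData V} {W : Set V} (h : IsHK D W) {z : V} (hz : z ∈ W) (u v w : V) :
    fderiv ℝ D.Γ z u v w = fderiv ℝ D.Γ z u w v := by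
  have h1 := (curvA_apply2 (curvA_diffΓ h hz) (hasFDerivAt_const v z) (hasFDerivAt_const w z) u).2
  have h2 := (curvA_apply2 (curvA_diffΓ h hz) (hasFDerivAt_const w z) (hasFDerivAt_const v z) u).2
  have h3 : (fun y => D.Γ y v w) =ᶠ[𝓝 z] (fun y => D.Γ y w v) := by
    filter_upwards [h.isOpen.mem_nhds hz] with y hy
    exact h.tors y hy v w
  have h4 := h3.fderiv_eq (𝕜 := ℝ)
  simp only [ContinuousLinearMap.zero_apply, map_zero, add_zero] at h1 h2
  rw [← h1, ← h2, h4]

theorem curv_bianchi {D : HKData V} {W : Set V} (h : IsHK D W) {z : V} (hz : z ∈ W)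
    (u v w : V) : curv D.Γ z u v w + curv D.Γ z v w u + curv D.Γ z w u v = 0 := by
  unfold curv
  rw [fderiv_tors h hz u w v, fderiv_tors h hz v u w, fderiv_tors h hz w v u,
    h.tors z hz v w, h.tors z hz u w, h.tors z hz v u]
  abel

/-- the second derivative of the metric, by differentiating compatibility -/
theorem fderiv_compat {D : HKData V} {W : Set V} (h : IsHK D W) {z : V} (hz : z ∈ W)
    (x u v w : V) :
    fderiv ℝ (fderiv ℝ D.G) z x u v w =
      D.G z (D.Γ z x (D.Γ z u v)) w + D.G z (D.Γ z u v) (D.Γ z x w)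
      + D.G z (fderiv ℝ D.Γ z x u v) w
      + D.G z (D.Γ z x v) (D.Γ z u w) + D.G z v (D.Γ z x (D.Γ z u w))
      + D.G z v (fderiv ℝ D.Γ z x u w) := by
  have hG := curvA_diffG h hz
  have hΓ := curvA_diffΓ h hz
  -- left-hand side
  have h0 : HasFDerivAt (fun y => fderiv ℝ D.G y u)
      ((fderiv ℝ (fderiv ℝ D.G) z).flip u) z := by
    have := (curvA_diffG' h hz).hasFDerivAt.clm_apply (hasFDerivAt_const u z)
    simpa using this
  have hL := (curvA_apply2 h0.differentiableAt (hasFDerivAt_const v z) (hasFDerivAt_const w z) x).2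
  rw [h0.fderiv] at hL
  simp only [ContinuousLinearMap.zero_apply, map_zero, add_zero, ContinuousLinearMap.flip_apply]
    at hL
  -- the two functions
  have hd : ∀ b : V, HasFDerivAt (fun y => D.Γ y u b)
      (fderiv ℝ (fun y => D.Γ y u b) z) z := fun b =>
    (curvA_apply2 hΓ (hasFDerivAt_const u z) (hasFDerivAt_const b z) x).1.hasFDerivAt
  have hd' : ∀ b : V, fderiv ℝ (fun y => D.Γ y u b) z x = fderiv ℝ D.Γ z x u b := by
    intro b
    have := (curvA_apply2 hΓ (hasFDerivAt_const u z) (hasFDerivAt_const b z) x).2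
    simpa only [ContinuousLinearMap.zero_apply, map_zero, add_zero] using this
  have hR1 := curvA_apply2 hG (hd v) (hasFDerivAt_const w z) x
  have hR2 := curvA_apply2 hG (hasFDerivAt_const v z) (hd w) x
  have hE : (fun y => fderiv ℝ D.G y u v w) =ᶠ[𝓝 z]
      (fun y => D.G y (D.Γ y u v) w) + (fun y => D.G y v (D.Γ y u w)) := by
    filter_upwards [h.isOpen.mem_nhds hz] with y hy
    exact h.compat y hy u v w
  rw [← hL, hE.fderiv_eq, fderiv_add hR1.1 hR2.1, ContinuousLinearMap.add_apply, hR1.2, hR2.2,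
    hd' v, hd' w, h.compat z hz, h.compat z hz]
  simp only [ContinuousLinearMap.zero_apply, map_zero, add_zero]
  ring

theorem curv_skew {D : HKData V} {W : Set V} (h : IsHK D W) {z : V} (hz : z ∈ W)
    (u v w x : V) : D.G z (curv D.Γ z u v w) x = -D.G z w (curv D.Γ z u v x) := by
  have h1 : ContDiffAt ℝ ∞ D.G z := h.smoothG.contDiffAt (h.isOpen.mem_nhds hz)
  have h2 : fderiv ℝ (fderiv ℝ D.G) z u v = fderiv ℝ (fderiv ℝ D.G) z v u :=
    (h1.isSymmSndFDerivAt (by
      rw [minSmoothness_of_isRCLikeNormedField]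
      exact WithTop.coe_le_coe.2 le_top)).eq u v
  have h3 := fderiv_compat h hz u v w x
  have h4 := fderiv_compat h hz v u w x
  rw [h2, h4] at h3
  unfold curv
  simp only [map_add, map_sub, ContinuousLinearMap.add_apply, ContinuousLinearMap.sub_apply]
  linarith

end Pool.Agent.Lib.MP_6c284f_gt
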