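import Pool.Agent.Lib.MP_6c284f_gt.Bvp
import Pool.Agent.Lib.MP_6c284f_gt.CurvA

set_option autoImplicit false
set_option maxSynthPendingDepth 5

/-!
Geodesic loops near a closed geodesic along which the curvature vanishes (contraction mapping).
-/

namespace Pool.Agent.Lib.MP_6c284f_gt

open scoped ContDiff Topology
open Set

/-- A family of geodesic loops `c q`, based at `q`, near the axis of the tube. -/
structure LoopFam (D : HKData E4) (W : Set E4) (ρ K : ℝ) (c : E4 → ℝ → E4) : Prop where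
  geod : ∀ q, ‖q‖ < ρ → IsGeod D W (c q)
  start : ∀ q, ‖q‖ < ρ → c q 0 = q
  finish : ∀ q, ‖q‖ < ρ → c q 1 = q + e0
  close : ∀ q, ‖q‖ < ρ → ∀ t ∈ Icc (0 : ℝ) 1,
    ‖c q t - t • e0‖ ≤ K * ‖q‖ ∧ ‖deriv (c q) t - e0‖ ≤ K * ‖q‖
  lip : ∀ q q', ‖q‖ < ρ → ‖q'‖ < ρ → ∀ t ∈ Icc (0 : ℝ) 1,
    ‖c q t - c q' t‖ ≤ K * ‖q - q'‖ ∧ ‖deriv (c q) t - deriv (c q') t‖ ≤ K * ‖q - q'‖

/-- the differential of the geodesic equation along the axis vanishes -/
theorem axis_deriv {D : HKData E4} {W : Set E4} {ε : ℝ} (hT : IsTube D W ε)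
    (hflat : ∀ t ∈ Icc (0 : ℝ) 1, ∀ u v w, curv D.Γ (t • e0) u v w = 0) :
    ∀ t ∈ Icc (0 : ℝ) 1, ∀ x, fderiv ℝ D.Γ (t • e0) x e0 e0 = 0 := by
  intro t ht x
  have hε := hT.εpos
  have htI : t ∈ Ioo (-ε) (1 + ε) := ⟨by linarith [ht.1], by linarith [ht.2]⟩
  have hW := hT.axis t htI
  have hΓ : DifferentiableAt ℝ D.Γ (t • e0) :=
    (hT.hk.smoothΓ.contDiffAt (hT.hk.isOpen.mem_nhds hW)).differentiableAt (by simp)
  have h1 : ∀ v, fderiv ℝ D.Γ (t • e0) e0 e0 v = 0 := by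
    intro v
    have h2 : HasDerivAt (fun s : ℝ => s • e0) ((1 : ℝ) • e0) t :=
      (hasDerivAt_id t).smul_const e0
    have h3 : HasDerivAt (fun s : ℝ => D.Γ (s • e0)) (fderiv ℝ D.Γ (t • e0) ((1 : ℝ) • e0)) t :=
      hΓ.hasFDerivAt.comp_hasDerivAt t h2
    have h4 := (h3.clm_apply (hasDerivAt_const t e0)).clm_apply (hasDerivAt_const t v)
    have h5 : (fun s : ℝ => D.Γ (s • e0) e0 v) =ᶠ[𝓝 t] fun _ => 0 := by
      filter_upwards [Ioo_mem_nhds htI.1 htI.2] with s hs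
      exact hT.axisΓ s hs v
    have h6 := h4.deriv
    rw [h5.deriv_eq, deriv_const] at h6
    simpa using h6.symm
  have h2 := hflat t ht x e0 e0
  unfold curv at h2
  rw [fderiv_tors hT.hk hW e0 x e0, h1 x, hT.axisΓ t htI e0, hT.axisΓ t htI, map_zero] at h2
  simpa using h2

theorem exists_loopFam {D : HKData E4} {W : Set E4} {ε : ℝ} (hT : IsTube D W ε)
    (hflat : ∀ t ∈ Icc (0 : ℝ) 1, ∀ u v w, curv D.Γ (t • e0) u v w = 0) :
    ∃ (ρ K : ℝ) (c : E4 → ℝ → E4), 0 < ρ ∧ 0 < K ∧ LoopFam D W ρ K c := by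
  have hε := hT.εpos
  have hK : ContDiffOn ℝ 1 (fun p : E4 × E4 => -D.Γ p.1 p.2 p.2) (W ×ˢ (univ : Set E4)) := by
    have h1 : ContDiffOn ℝ 1 (fun p : E4 × E4 => D.Γ p.1) (W ×ˢ (univ : Set E4)) :=
      (hT.hk.smoothΓ.of_le (by exact WithTop.coe_le_coe.2 le_top)).comp contDiff_fst.contDiffOn
        (fun p hp => hp.1)
    exact ((h1.clm_apply contDiff_snd.contDiffOn).clm_apply contDiff_snd.contDiffOn).neg
  have htI : ∀ t ∈ Icc (0 : ℝ) 1, t ∈ Ioo (-ε) (1 + ε) := fun t ht =>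
    ⟨by linarith [ht.1], by linarith [ht.2]⟩
  obtain ⟨ρ, k, c, hρ, hk, hc, hl⟩ := exists_bvp (K := fun p : E4 × E4 => -D.Γ p.1 p.2 p.2)
    (S := W ×ˢ (univ : Set E4)) (hT.hk.isOpen.prod isOpen_univ) hK
    (fun t ht => ⟨hT.axis t (htI t ht), mem_univ _⟩)
    (fun t ht => by
      change -D.Γ (t • e0) e0 e0 = 0
      rw [hT.axisΓ t (htI t ht), neg_zero])
    (fun t ht => by
      have hW := hT.axis t (htI t ht)
      have hΓ : DifferentiableAt ℝ D.Γ (t • e0) :=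
        (hT.hk.smoothΓ.contDiffAt (hT.hk.isOpen.mem_nhds hW)).differentiableAt (by simp)
      have h1 : HasFDerivAt (fun p : E4 × E4 => D.Γ p.1)
          ((fderiv ℝ D.Γ (t • e0)).comp (ContinuousLinearMap.fst ℝ E4 E4)) (t • e0, e0) :=
        HasFDerivAt.comp (g := D.Γ) (f := Prod.fst) (t • e0, e0) hΓ.hasFDerivAt hasFDerivAt_fst
      have h2 : HasFDerivAt (fun p : E4 × E4 => p.2) (ContinuousLinearMap.snd ℝ E4 E4)
          (t • e0, e0) := hasFDerivAt_snd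
      have h3 := ((h1.clm_apply h2).clm_apply h2).neg
      refine h3.fderiv.trans ?_
      refine ContinuousLinearMap.ext fun p => ?_
      have e1 := axis_deriv hT hflat t ht p.1
      have e2 := hT.axisΓ t (htI t ht) p.2
      have e3 := hT.hk.tors _ hW p.2 e0
      simp only [neg_apply, add_apply, ContinuousLinearMap.comp_apply,
        ContinuousLinearMap.flip_apply, ContinuousLinearMap.coe_snd', ContinuousLinearMap.coe_fst',
        zero_apply]
      rw [e1, e3, e2]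
      simp)
  refine ⟨ρ, k, c, hρ, hk, ?_⟩
  constructor
  · intro q hq
    exact ⟨fun t ht => ((hc q hq).1 t ht).1, fun t ht => ((hc q hq).1 t ht).2.1.1,
      fun t ht => ((hc q hq).1 t ht).2.2⟩
  · exact fun q hq => (hc q hq).2.1
  · exact fun q hq => (hc q hq).2.2.1
  · exact fun q hq => (hc q hq).2.2.2
  · exact hl

end Pool.Agent.Lib.MP_6c284f_gt
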