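import Pool.Agent.Lib.MP_6c284f_gt.SecPoint
import Pool.Agent.Lib.MP_6c284f_gt.Loops

set_option autoImplicit false
set_option maxSynthPendingDepth 5

/-!
Convexity of the energy near the axis for fixed end points.
-/

namespace Pool.Agent.Lib.MP_6c284f_gt

open scoped ContDiff Topology
open Set

/-- a function with `φ'' ≥ m` on `[0,1]` -/
private lemma cx_taylor {φ φ1 φ2 : ℝ → ℝ} {m : ℝ}
    (h1 : ∀ s ∈ Icc (0 : ℝ) 1, HasDerivAt φ (φ1 s) s)
    (h2 : ∀ s ∈ Icc (0 : ℝ) 1, HasDerivAt φ1 (φ2 s) s)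
    (hm : ∀ s ∈ Icc (0 : ℝ) 1, m ≤ φ2 s) : φ 0 + φ1 0 + m / 2 ≤ φ 1 := by
  have hint : ∀ s ∈ interior (Icc (0 : ℝ) 1), s ∈ Icc (0 : ℝ) 1 := fun s hs => interior_subset hs
  -- first derivative
  have hψ1 : MonotoneOn (fun s => φ1 s - m * s) (Icc 0 1) := by
    have hd : ∀ s ∈ Icc (0 : ℝ) 1, HasDerivAt (fun s => φ1 s - m * s) (φ2 s - m) s := by
      intro s hs
      have := (h2 s hs).sub ((hasDerivAt_id s).const_mul m)
      rw [mul_one] at this
      exact this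
    refine monotoneOn_of_deriv_nonneg (convex_Icc 0 1)
      (fun s hs => (hd s hs).continuousAt.continuousWithinAt)
      (fun s hs => (hd s (hint s hs)).differentiableAt.differentiableWithinAt) ?_
    intro s hs
    rw [(hd s (hint s hs)).deriv]
    linarith [hm s (hint s hs)]
  have hψ : MonotoneOn (fun s => φ s - φ1 0 * s - m * s ^ 2 / 2) (Icc 0 1) := by
    have hd : ∀ s ∈ Icc (0 : ℝ) 1,
        HasDerivAt (fun s => φ s - φ1 0 * s - m * s ^ 2 / 2) (φ1 s - φ1 0 - m * s) s := by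
      intro s hs
      have h3 := (h1 s hs).sub ((hasDerivAt_id s).const_mul (φ1 0))
      have h4 := ((hasDerivAt_pow 2 s).const_mul m).div_const 2
      have h5 := h3.sub h4
      refine h5.congr_deriv ?_
      simp
      ring
    refine monotoneOn_of_deriv_nonneg (convex_Icc 0 1)
      (fun s hs => (hd s hs).continuousAt.continuousWithinAt)
      (fun s hs => (hd s (hint s hs)).differentiableAt.differentiableWithinAt) ?_
    intro s hs
    rw [(hd s (hint s hs)).deriv]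
    have hs' := hint s hs
    have := hψ1 (left_mem_Icc.2 zero_le_one) hs' hs'.1
    simp only [mul_zero, sub_zero] at this
    linarith
  have := hψ (left_mem_Icc.2 zero_le_one) (right_mem_Icc.2 zero_le_one) zero_le_one
  simp only [mul_zero, sub_zero, mul_one, one_pow] at this
  have e : (0 : ℝ) ^ 2 = 0 := by norm_num
  rw [e, mul_zero, zero_div, sub_zero] at this
  linarith

/-- Poincaré inequality -/
private lemma cx_poincare {v w : ℝ → E4} (hv : ∀ t ∈ Icc (0 : ℝ) 1, HasDerivAt v (w t) t)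
    (hw : ContinuousOn w (Icc 0 1)) (h0 : v 0 = 0) :
    ∫ t in (0 : ℝ)..1, ‖v t‖ ^ 2 ≤ ∫ t in (0 : ℝ)..1, ‖w t‖ ^ 2 := by
  have hwn : ContinuousOn (fun t => ‖w t‖) (Icc 0 1) := hw.norm
  have huIcc : uIcc (0 : ℝ) 1 = Icc 0 1 := uIcc_of_le zero_le_one
  have hi1 : IntervalIntegrable (fun t => ‖w t‖) MeasureTheory.volume 0 1 :=
    ContinuousOn.intervalIntegrable (by rw [huIcc]; exact hwn)
  have hi2 : IntervalIntegrable (fun t => ‖w t‖ ^ 2) MeasureTheory.volume 0 1 :=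
    ContinuousOn.intervalIntegrable (by rw [huIcc]; exact hwn.pow 2)
  set m : ℝ := ∫ t in (0 : ℝ)..1, ‖w t‖ with hm
  have hm0 : 0 ≤ m := intervalIntegral.integral_nonneg zero_le_one fun t _ => norm_nonneg _
  have hcs : m ^ 2 ≤ ∫ t in (0 : ℝ)..1, ‖w t‖ ^ 2 := by
    have h1 : 0 ≤ ∫ t in (0 : ℝ)..1, (‖w t‖ - m) ^ 2 :=
      intervalIntegral.integral_nonneg zero_le_one fun t _ => sq_nonneg _
    have h2 : ∫ t in (0 : ℝ)..1, (‖w t‖ - m) ^ 2 =
        (∫ t in (0 : ℝ)..1, ‖w t‖ ^ 2) - 2 * m * m + m ^ 2 := by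
      have e : ∀ t, (‖w t‖ - m) ^ 2 = (‖w t‖ ^ 2 - 2 * m * ‖w t‖) + m ^ 2 := fun t => by ring
      simp only [e]
      rw [intervalIntegral.integral_add (hi2.sub (hi1.const_mul _)) (by simp),
        intervalIntegral.integral_sub hi2 (hi1.const_mul _), intervalIntegral.integral_const_mul]
      simp [hm]
    rw [h2] at h1
    nlinarith
  have hvb : ∀ t ∈ Icc (0 : ℝ) 1, ‖v t‖ ^ 2 ≤ m ^ 2 := by
    intro t ht
    have hsub : uIcc (0 : ℝ) t ⊆ Icc 0 1 := by
      rw [uIcc_of_le ht.1]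
      exact Icc_subset_Icc_right ht.2
    have h1 : ∫ s in (0 : ℝ)..t, w s = v t - v 0 :=
      intervalIntegral.integral_eq_sub_of_hasDerivAt (fun s hs => hv s (hsub hs))
        (ContinuousOn.intervalIntegrable (hw.mono hsub))
    rw [h0, sub_zero] at h1
    have h2 : ‖v t‖ ≤ ∫ s in (0 : ℝ)..t, ‖w s‖ := by
      rw [← h1]
      exact intervalIntegral.norm_integral_le_integral_norm ht.1
    have h3 : ∫ s in (0 : ℝ)..t, ‖w s‖ ≤ m := by
      rw [hm, ← intervalIntegral.integral_add_adjacent_intervals (b := t) (a := 0) (c := 1)]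
      · have : 0 ≤ ∫ s in t..1, ‖w s‖ :=
          intervalIntegral.integral_nonneg ht.2 fun s _ => norm_nonneg _
        linarith
      · exact ContinuousOn.intervalIntegrable (hwn.mono hsub)
      · refine ContinuousOn.intervalIntegrable (hwn.mono ?_)
        rw [uIcc_of_le ht.2]
        exact Icc_subset_Icc_left ht.1
    exact pow_le_pow_left₀ (norm_nonneg _) (h2.trans h3) 2
  have hvc : ContinuousOn v (Icc 0 1) := fun t ht => (hv t ht).continuousAt.continuousWithinAt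
  calc ∫ t in (0 : ℝ)..1, ‖v t‖ ^ 2 ≤ ∫ _t in (0 : ℝ)..1, m ^ 2 := by
        refine intervalIntegral.integral_mono_on zero_le_one ?_ (by simp) hvb
        exact ContinuousOn.intervalIntegrable (by rw [huIcc]; exact hvc.norm.pow 2)
    _ = m ^ 2 := by simp
    _ ≤ _ := hcs

private lemma cx_deriv_cont {c : ℝ → E4} {t : ℝ} (h : ContDiffAt ℝ 1 c t) :
    ContinuousAt (deriv c) t := by
  have h1 := (h.fderiv_right (m := 0) (by norm_num)).continuousAt
  have h2 : deriv c = fun s => fderiv ℝ c s 1 := by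
    funext s
    rw [fderiv_apply_one_eq_deriv]
  rw [h2]
  exact h1.clm_apply continuousAt_const

section forms

/-- the second derivative of the integrand -/
private noncomputable def cxq (G0 : E4 →L[ℝ] E4 →L[ℝ] ℝ) (G1 : E4 →L[ℝ] E4 →L[ℝ] E4 →L[ℝ] ℝ)
    (G2 : E4 →L[ℝ] E4 →L[ℝ] E4 →L[ℝ] E4 →L[ℝ] ℝ) (p v w : E4) : ℝ :=
  G2 v v p p + 4 * G1 v p w + 2 * G0 w w

private lemma cx_b2 (G : E4 →L[ℝ] E4 →L[ℝ] ℝ) (u v : E4) : |G u v| ≤ ‖G‖ * ‖u‖ * ‖v‖ := by
  have := G.le_opNorm₂ u v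
  rwa [Real.norm_eq_abs] at this

private lemma cx_b3 (G : E4 →L[ℝ] E4 →L[ℝ] E4 →L[ℝ] ℝ) (u v w : E4) :
    |G u v w| ≤ ‖G‖ * ‖u‖ * ‖v‖ * ‖w‖ := by
  refine (cx_b2 (G u) v w).trans ?_
  have := G.le_opNorm u
  gcongr

private lemma cx_b4 (G : E4 →L[ℝ] E4 →L[ℝ] E4 →L[ℝ] E4 →L[ℝ] ℝ) (u v w x : E4) :
    |G u v w x| ≤ ‖G‖ * ‖u‖ * ‖v‖ * ‖w‖ * ‖x‖ := by
  refine (cx_b3 (G u) v w x).trans ?_
  have := G.le_opNorm u
  gcongr

private lemma cx_close {G0 G0' : E4 →L[ℝ] E4 →L[ℝ] ℝ} {G1 G1' : E4 →L[ℝ] E4 →L[ℝ] E4 →L[ℝ] ℝ}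
    {G2 G2' : E4 →L[ℝ] E4 →L[ℝ] E4 →L[ℝ] E4 →L[ℝ] ℝ} {M δ : ℝ} (hM : 0 ≤ M) (hδ : 0 ≤ δ)
    (hδM : 20 * (M + 1) * δ ≤ 1)
    (h0 : ‖G0 - G0'‖ ≤ 1 / 32) (h1 : ‖G1 - G1'‖ ≤ 1 / 32) (h2 : ‖G2 - G2'‖ ≤ 1 / 32)
    (hM1 : ‖G1'‖ ≤ M) (hM2 : ‖G2'‖ ≤ M) {p p' : E4} (hp' : ‖p'‖ ≤ 1) (hpp : ‖p - p'‖ ≤ δ)
    (v w : E4) :
    cxq G0' G1' G2' p' v w - 1 / 2 * (‖v‖ ^ 2 + ‖w‖ ^ 2) ≤ cxq G0 G1 G2 p v w := by
  have hδ1 : δ ≤ 1 := by nlinarith
  have hp : ‖p‖ ≤ 2 := by
    have : ‖p‖ ≤ ‖p - p'‖ + ‖p'‖ := by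
      have := norm_add_le (p - p') p'
      rwa [sub_add_cancel] at this
    linarith
  have hMδ : M * δ ≤ 1 / 20 := by nlinarith
  -- term 1
  have t1 : |G2 v v p p - G2' v v p' p'| ≤ (1 / 8 + 3 * (M * δ)) * ‖v‖ ^ 2 := by
    have e : G2 v v p p - G2' v v p' p' =
        (G2 - G2') v v p p + G2' v v p (p - p') + G2' v v (p - p') p' := by
      simp only [sub_apply, map_sub]
      ring
    rw [e]
    have a1 := cx_b4 (G2 - G2') v v p p
    have a2 := cx_b4 G2' v v p (p - p')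
    have a3 := cx_b4 G2' v v (p - p') p'
    have b1 : ‖G2 - G2'‖ * ‖v‖ * ‖v‖ * ‖p‖ * ‖p‖ ≤ 1 / 32 * ‖v‖ * ‖v‖ * 2 * 2 := by gcongr
    have b2 : ‖G2'‖ * ‖v‖ * ‖v‖ * ‖p‖ * ‖p - p'‖ ≤ M * ‖v‖ * ‖v‖ * 2 * δ := by gcongr
    have b3 : ‖G2'‖ * ‖v‖ * ‖v‖ * ‖p - p'‖ * ‖p'‖ ≤ M * ‖v‖ * ‖v‖ * δ * 1 := by gcongr
    have c1 := abs_add_le ((G2 - G2') v v p p + G2' v v p (p - p')) (G2' v v (p - p') p')
    have c2 := abs_add_le ((G2 - G2') v v p p) (G2' v v p (p - p'))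
    nlinarith
  have t2 : |G1 v p w - G1' v p' w| ≤ (1 / 16 + M * δ) * (‖v‖ * ‖w‖) := by
    have e : G1 v p w - G1' v p' w = (G1 - G1') v p w + G1' v (p - p') w := by
      simp only [sub_apply, map_sub]
      ring
    rw [e]
    have a1 := cx_b3 (G1 - G1') v p w
    have a2 := cx_b3 G1' v (p - p') w
    have b1 : ‖G1 - G1'‖ * ‖v‖ * ‖p‖ * ‖w‖ ≤ 1 / 32 * ‖v‖ * 2 * ‖w‖ := by gcongr
    have b2 : ‖G1'‖ * ‖v‖ * ‖p - p'‖ * ‖w‖ ≤ M * ‖v‖ * δ * ‖w‖ := by gcongr
    have c2 := abs_add_le ((G1 - G1') v p w) (G1' v (p - p') w)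
    nlinarith
  have t3 : |G0 w w - G0' w w| ≤ 1 / 32 * ‖w‖ ^ 2 := by
    have e : G0 w w - G0' w w = (G0 - G0') w w := by
      simp only [sub_apply]
    rw [e]
    have a1 := cx_b2 (G0 - G0') w w
    have b1 : ‖G0 - G0'‖ * ‖w‖ * ‖w‖ ≤ 1 / 32 * ‖w‖ * ‖w‖ := by gcongr
    nlinarith
  have u1 := (abs_le.1 t1).1
  have u2 := (abs_le.1 t2).1
  have u3 := (abs_le.1 t3).1
  have hvw : ‖v‖ * ‖w‖ ≤ (‖v‖ ^ 2 + ‖w‖ ^ 2) / 2 := by nlinarith [sq_nonneg (‖v‖ - ‖w‖)]
  have s1 : (1 / 8 + 3 * (M * δ)) * ‖v‖ ^ 2 ≤ (1 / 8 + 3 / 20) * ‖v‖ ^ 2 := by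
    gcongr
    linarith
  have s2 : (1 / 16 + M * δ) * (‖v‖ * ‖w‖) ≤ (1 / 16 + 1 / 20) * ((‖v‖ ^ 2 + ‖w‖ ^ 2) / 2) := by
    have h3 : 0 ≤ M * δ := by positivity
    gcongr
  unfold cxq
  nlinarith [sq_nonneg ‖v‖, sq_nonneg ‖w‖]

end forms

theorem energy_min {D : HKData E4} {W : Set E4} {ε : ℝ} (hT : IsTube D W ε)
    (hflat : ∀ t ∈ Icc (0 : ℝ) 1, ∀ u v w, curv D.Γ (t • e0) u v w = 0) :
    ∃ δ > 0, (∀ t ∈ Icc (0 : ℝ) 1, ∀ z, ‖z - t • e0‖ < δ → z ∈ W) ∧
      ∀ c b : ℝ → E4, IsGeod D W c → (∀ t ∈ Icc (0 : ℝ) 1, ContDiffAt ℝ 1 b t) →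
      b 0 = c 0 → b 1 = c 1 →
      (∀ t ∈ Icc (0 : ℝ) 1, ‖c t - t • e0‖ < δ ∧ ‖deriv c t - e0‖ < δ ∧
        ‖b t - t • e0‖ < δ ∧ ‖deriv b t - e0‖ < δ) →
      energy D.G c ≤ energy D.G b := by
  have hk := hT.hk
  have hW := hk.isOpen
  have hε := hT.εpos
  have hmemIoo : ∀ t ∈ Icc (0 : ℝ) 1, t ∈ Ioo (-ε) (1 + ε) := fun t ht =>
    ⟨by linarith [ht.1], by linarith [ht.2]⟩
  have huIcc : uIcc (0 : ℝ) 1 = Icc 0 1 := uIcc_of_le zero_le_one
  have he0 : ‖e0‖ = 1 := by simp [e0]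
  -- compact neighbourhood of the axis
  set S : Set E4 := (fun t : ℝ => t • e0) '' Icc (0 : ℝ) 1 with hS
  have hSc : IsCompact S := isCompact_Icc.image (by fun_prop)
  have hSW : S ⊆ W := by
    rintro _ ⟨t, ht, rfl⟩
    exact hT.axis t (hmemIoo t ht)
  obtain ⟨r, hr, hrW⟩ := hSc.exists_cthickening_subset_open hW hSW
  set K : Set E4 := Metric.cthickening r S with hK
  have hKc : IsCompact K := hSc.cthickening
  have hKmem : ∀ t ∈ Icc (0 : ℝ) 1, ∀ z, ‖z - t • e0‖ ≤ r → z ∈ K := by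
    intro t ht z hz
    refine Metric.mem_cthickening_of_dist_le z (t • e0) r S ⟨t, ht, rfl⟩ ?_
    rw [dist_eq_norm]
    exact hz
  -- smoothness
  have hG0 : ContDiffOn ℝ ∞ D.G W := hk.smoothG
  have hG1 : ContDiffOn ℝ ∞ (fderiv ℝ D.G) W := hG0.fderiv_of_isOpen hW (by simp)
  have hG2 : ContDiffOn ℝ ∞ (fderiv ℝ (fderiv ℝ D.G)) W := hG1.fderiv_of_isOpen hW (by simp)
  have hd0 : ∀ z ∈ W, HasFDerivAt D.G (fderiv ℝ D.G z) z := fun z hz =>
    ((hG0.contDiffAt (hW.mem_nhds hz)).differentiableAt (by simp)).hasFDerivAt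
  have hd1 : ∀ z ∈ W, HasFDerivAt (fderiv ℝ D.G) (fderiv ℝ (fderiv ℝ D.G) z) z := fun z hz =>
    ((hG1.contDiffAt (hW.mem_nhds hz)).differentiableAt (by simp)).hasFDerivAt
  have hsymm1 : ∀ z ∈ W, ∀ u v w, fderiv ℝ D.G z u v w = fderiv ℝ D.G z u w v := by
    intro z hz u v w
    rw [hk.compat z hz, hk.compat z hz, hk.symm z hz v, hk.symm z hz (D.Γ z u v)]
    ring
  -- uniform continuity
  obtain ⟨r0, hr0, hu0⟩ := (Metric.uniformContinuousOn_iff.1
    (hKc.uniformContinuousOn_of_continuous (hG0.continuousOn.mono hrW))) (1 / 32) (by norm_num)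
  obtain ⟨r1, hr1, hu1⟩ := (Metric.uniformContinuousOn_iff.1
    (hKc.uniformContinuousOn_of_continuous (hG1.continuousOn.mono hrW))) (1 / 32) (by norm_num)
  obtain ⟨r2, hr2, hu2⟩ := (Metric.uniformContinuousOn_iff.1
    (hKc.uniformContinuousOn_of_continuous (hG2.continuousOn.mono hrW))) (1 / 32) (by norm_num)
  obtain ⟨M1, hM1⟩ := hKc.exists_bound_of_continuousOn (hG1.continuousOn.mono hrW)
  obtain ⟨M2, hM2⟩ := hKc.exists_bound_of_continuousOn (hG2.continuousOn.mono hrW)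
  set M : ℝ := max 0 (max M1 M2) with hM
  have hM0 : 0 ≤ M := le_max_left _ _
  set δ : ℝ := min (min r (1 / (20 * (M + 1)))) (min r0 (min r1 r2)) with hδ
  have hδpos : 0 < δ := by
    refine lt_min (lt_min hr (by positivity)) (lt_min hr0 (lt_min hr1 hr2))
  have hδr : δ ≤ r := (min_le_left _ _).trans (min_le_left _ _)
  have hδM : 20 * (M + 1) * δ ≤ 1 := by
    have h1 : δ ≤ 1 / (20 * (M + 1)) := (min_le_left _ _).trans (min_le_right _ _)
    rw [le_div_iff₀ (by positivity)] at h1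
    linarith
  have hδ0 : δ ≤ r0 := (min_le_right _ _).trans (min_le_left _ _)
  have hδ1 : δ ≤ r1 := (min_le_right _ _).trans ((min_le_right _ _).trans (min_le_left _ _))
  have hδ2 : δ ≤ r2 := (min_le_right _ _).trans ((min_le_right _ _).trans (min_le_right _ _))
  have hKδ : ∀ t ∈ Icc (0 : ℝ) 1, ∀ z, ‖z - t • e0‖ < δ → z ∈ K := fun t ht z hz =>
    hKmem t ht z (hz.le.trans hδr)
  refine ⟨δ, hδpos, fun t ht z hz => hrW (hKδ t ht z hz), ?_⟩
  intro c b hc hb hb0 hb1 hclose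
  set v : ℝ → E4 := fun t => b t - c t with hv
  set w : ℝ → E4 := fun t => deriv b t - deriv c t with hw
  have hcd : ∀ t ∈ Icc (0 : ℝ) 1, HasDerivAt c (deriv c t) t := fun t ht =>
    ((hc.smooth t ht).differentiableAt (by norm_num)).hasDerivAt
  have hbd : ∀ t ∈ Icc (0 : ℝ) 1, HasDerivAt b (deriv b t) t := fun t ht =>
    ((hb t ht).differentiableAt (by norm_num)).hasDerivAt
  have hvd : ∀ t ∈ Icc (0 : ℝ) 1, HasDerivAt v (w t) t := fun t ht => (hbd t ht).sub (hcd t ht)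
  have hcc : ContinuousOn c (Icc 0 1) := fun t ht => (hcd t ht).continuousAt.continuousWithinAt
  have hbc : ContinuousOn b (Icc 0 1) := fun t ht => (hbd t ht).continuousAt.continuousWithinAt
  have hvc : ContinuousOn v (Icc 0 1) := hbc.sub hcc
  have hc'c : ContinuousOn (deriv c) (Icc 0 1) := fun t ht =>
    (cx_deriv_cont ((hc.smooth t ht).of_le (by norm_num))).continuousWithinAt
  have hb'c : ContinuousOn (deriv b) (Icc 0 1) := fun t ht =>
    (cx_deriv_cont (hb t ht)).continuousWithinAt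
  have hwc : ContinuousOn w (Icc 0 1) := hb'c.sub hc'c
  -- the convex combinations
  have hcomb : ∀ t ∈ Icc (0 : ℝ) 1, ∀ s ∈ Icc (0 : ℝ) 1,
      ‖c t + s • v t - t • e0‖ < δ ∧ ‖deriv c t + s • w t - e0‖ < δ := by
    intro t ht s hs
    obtain ⟨h1, h2, h3, h4⟩ := hclose t ht
    have hball : ∀ x : E4, Convex ℝ (Metric.ball x δ) := fun x => convex_ball x δ
    constructor
    · have h5 := (hball (t • e0)) (x := c t) (by rwa [Metric.mem_ball, dist_eq_norm])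
        (y := b t) (by rwa [Metric.mem_ball, dist_eq_norm]) (a := 1 - s) (b := s)
        (by linarith [hs.2]) hs.1 (by ring)
      have e : (1 - s) • c t + s • b t = c t + s • v t := by
        rw [hv, sub_smul, one_smul, smul_sub]; abel
      rwa [e, Metric.mem_ball, dist_eq_norm] at h5
    · have h5 := (hball e0) (x := deriv c t) (by rwa [Metric.mem_ball, dist_eq_norm])
        (y := deriv b t) (by rwa [Metric.mem_ball, dist_eq_norm]) (a := 1 - s) (b := s)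
        (by linarith [hs.2]) hs.1 (by ring)
      have e : (1 - s) • deriv c t + s • deriv b t = deriv c t + s • w t := by
        rw [hw, sub_smul, one_smul, smul_sub]; abel
      rwa [e, Metric.mem_ball, dist_eq_norm] at h5
  -- the value on the axis
  set A : ℝ → ℝ := fun t => cxq (D.G (t • e0)) (fderiv ℝ D.G (t • e0))
    (fderiv ℝ (fderiv ℝ D.G) (t • e0)) e0 (v t) (w t) with hA
  -- pointwise inequality
  have hpt : ∀ t ∈ Icc (0 : ℝ) 1,
      D.G (c t) (deriv c t) (deriv c t) +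
        (fderiv ℝ D.G (c t) (v t) (deriv c t) (deriv c t) +
          2 * D.G (c t) (deriv c t) (w t)) +
        (A t - 1 / 2 * (‖v t‖ ^ 2 + ‖w t‖ ^ 2)) / 2 ≤ D.G (b t) (deriv b t) (deriv b t) := by
    intro t ht
    set x := c t with hx
    set p := deriv c t with hp
    set V := v t with hV
    set U := w t with hU
    have hxs : ∀ s ∈ Icc (0 : ℝ) 1, x + s • V ∈ K := fun s hs => hKδ t ht _ (hcomb t ht s hs).1
    have hline : ∀ s : ℝ, HasDerivAt (fun s : ℝ => x + s • V) V s := by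
      intro s
      have := ((hasDerivAt_id s).smul_const V).const_add x
      simpa using this
    have hlinep : ∀ s : ℝ, HasDerivAt (fun s : ℝ => p + s • U) U s := by
      intro s
      have := ((hasDerivAt_id s).smul_const U).const_add p
      simpa using this
    have hg0 : ∀ s ∈ Icc (0 : ℝ) 1, HasDerivAt (fun s : ℝ => D.G (x + s • V))
        (fderiv ℝ D.G (x + s • V) V) s := fun s hs =>
      (hd0 _ (hrW (hxs s hs))).comp_hasDerivAt s (hline s)
    have hg1 : ∀ s ∈ Icc (0 : ℝ) 1, HasDerivAt (fun s : ℝ => fderiv ℝ D.G (x + s • V))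
        (fderiv ℝ (fderiv ℝ D.G) (x + s • V) V) s := fun s hs =>
      (hd1 _ (hrW (hxs s hs))).comp_hasDerivAt s (hline s)
    have hφ : ∀ s ∈ Icc (0 : ℝ) 1, HasDerivAt
        (fun s : ℝ => D.G (x + s • V) (p + s • U) (p + s • U))
        (fderiv ℝ D.G (x + s • V) V (p + s • U) (p + s • U) +
          2 * D.G (x + s • V) (p + s • U) U) s := by
      intro s hs
      have h1 := ((hg0 s hs).clm_apply (hlinep s)).clm_apply (hlinep s)
      refine h1.congr_deriv ?_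
      rw [add_apply, hk.symm _ (hrW (hxs s hs)) U (p + s • U)]
      ring
    have hφ1 : ∀ s ∈ Icc (0 : ℝ) 1, HasDerivAt
        (fun s : ℝ => fderiv ℝ D.G (x + s • V) V (p + s • U) (p + s • U) +
          2 * D.G (x + s • V) (p + s • U) U)
        (cxq (D.G (x + s • V)) (fderiv ℝ D.G (x + s • V))
          (fderiv ℝ (fderiv ℝ D.G) (x + s • V)) (p + s • U) V U) s := by
      intro s hs
      have h1 := (((hg1 s hs).clm_apply (hasDerivAt_const s V)).clm_apply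
        (hlinep s)).clm_apply (hlinep s)
      have h2 := (((hg0 s hs).clm_apply (hlinep s)).clm_apply (hasDerivAt_const s U)).const_mul 2
      have h3 := h1.add h2
      refine h3.congr_deriv ?_
      unfold cxq
      simp only [add_apply, map_zero, add_zero]
      rw [hsymm1 _ (hrW (hxs s hs)) V U (p + s • U)]
      ring
    have hmain := cx_taylor hφ hφ1 (m := A t - 1 / 2 * (‖V‖ ^ 2 + ‖U‖ ^ 2)) (by
      intro s hs
      have hxK := hxs s hs
      have haK : t • e0 ∈ K := hKδ t ht _ (by rw [sub_self, norm_zero]; exact hδpos)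
      obtain ⟨q1, q2⟩ := hcomb t ht s hs
      have hdist : dist (x + s • V) (t • e0) < δ := by rw [dist_eq_norm]; exact q1
      have k0 := hu0 _ hxK _ haK (hdist.trans_le hδ0)
      have k1 := hu1 _ hxK _ haK (hdist.trans_le hδ1)
      have k2 := hu2 _ hxK _ haK (hdist.trans_le hδ2)
      rw [dist_eq_norm] at k0 k1 k2
      exact cx_close hM0 hδpos.le hδM k0.le k1.le k2.le
        ((hM1 _ haK).trans ((le_max_left _ _).trans (le_max_right _ _)))
        ((hM2 _ haK).trans ((le_max_right _ _).trans (le_max_right _ _)))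
        he0.le q2.le V U)
    have e1 : x + (1 : ℝ) • V = b t := by
      show c t + (1 : ℝ) • (b t - c t) = b t
      rw [one_smul, add_sub_cancel]
    have e2 : p + (1 : ℝ) • U = deriv b t := by
      show deriv c t + (1 : ℝ) • (deriv b t - deriv c t) = deriv b t
      rw [one_smul, add_sub_cancel]
    simp only [zero_smul, add_zero] at hmain
    rw [e1, e2] at hmain
    exact hmain
  -- integrals
  have hintc : ContinuousOn (fun t => D.G (c t) (deriv c t) (deriv c t)) (Icc 0 1) :=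
    ((hG0.continuousOn.comp hcc hc.mem).clm_apply hc'c).clm_apply hc'c
  have hbmem : ∀ t ∈ Icc (0 : ℝ) 1, b t ∈ W := fun t ht => hrW (hKδ t ht _ (hclose t ht).2.2.1)
  have hintb : ContinuousOn (fun t => D.G (b t) (deriv b t) (deriv b t)) (Icc 0 1) :=
    ((hG0.continuousOn.comp hbc hbmem).clm_apply hb'c).clm_apply hb'c
  have hint1 : ContinuousOn (fun t => fderiv ℝ D.G (c t) (v t) (deriv c t) (deriv c t) +
      2 * D.G (c t) (deriv c t) (w t)) (Icc 0 1) :=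
    ((((hG1.continuousOn.comp hcc hc.mem).clm_apply hvc).clm_apply hc'c).clm_apply hc'c).add
      (continuousOn_const.mul
        (((hG0.continuousOn.comp hcc hc.mem).clm_apply hc'c).clm_apply hwc))
  have haxc : ContinuousOn (fun t : ℝ => t • e0) (Icc 0 1) := by fun_prop
  have haxm : MapsTo (fun t : ℝ => t • e0) (Icc 0 1) W := fun t ht => hT.axis t (hmemIoo t ht)
  have hintA : ContinuousOn A (Icc 0 1) := by
    have a0 := hG0.continuousOn.comp haxc haxm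
    have a1 := hG1.continuousOn.comp haxc haxm
    have a2 := hG2.continuousOn.comp haxc haxm
    have hcst : ContinuousOn (fun _ : ℝ => e0) (Icc 0 1) := continuousOn_const
    exact (((((a2.clm_apply hvc).clm_apply hvc).clm_apply hcst).clm_apply hcst).add
      (continuousOn_const.mul (((a1.clm_apply hvc).clm_apply hcst).clm_apply hwc))).add
      (continuousOn_const.mul ((a0.clm_apply hwc).clm_apply hwc))
  have hintv : ContinuousOn (fun t => ‖v t‖ ^ 2) (Icc 0 1) := hvc.norm.pow 2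
  have hintw : ContinuousOn (fun t => ‖w t‖ ^ 2) (Icc 0 1) := hwc.norm.pow 2
  have hw2 : ContinuousOn (fun t => 2 * ‖w t‖ ^ 2) (Icc 0 1) := continuousOn_const.mul hintw
  have hvw : ContinuousOn (fun t => ‖v t‖ ^ 2 + ‖w t‖ ^ 2) (Icc 0 1) := hintv.add hintw
  have hvw2 : ContinuousOn (fun t => 1 / 2 * (‖v t‖ ^ 2 + ‖w t‖ ^ 2)) (Icc 0 1) :=
    continuousOn_const.mul hvw
  have hAv : ContinuousOn (fun t => A t - 1 / 2 * (‖v t‖ ^ 2 + ‖w t‖ ^ 2)) (Icc 0 1) :=
    hintA.sub hvw2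
  have hAv2 : ContinuousOn (fun t => (A t - 1 / 2 * (‖v t‖ ^ 2 + ‖w t‖ ^ 2)) / 2) (Icc 0 1) :=
    hAv.div_const 2
  have hc1 : ContinuousOn (fun t => D.G (c t) (deriv c t) (deriv c t) +
      (fderiv ℝ D.G (c t) (v t) (deriv c t) (deriv c t) +
          2 * D.G (c t) (deriv c t) (w t))) (Icc 0 1) := hintc.add hint1
  have hc2 : ContinuousOn (fun t => D.G (c t) (deriv c t) (deriv c t) +
      (fderiv ℝ D.G (c t) (v t) (deriv c t) (deriv c t) +
          2 * D.G (c t) (deriv c t) (w t)) +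
        (A t - 1 / 2 * (‖v t‖ ^ 2 + ‖w t‖ ^ 2)) / 2) (Icc 0 1) := hc1.add hAv2
  have hAw : ContinuousOn (fun t => A t - 2 * ‖w t‖ ^ 2) (Icc 0 1) := hintA.sub hw2
  have hII : ∀ {f : ℝ → ℝ}, ContinuousOn f (Icc 0 1) →
      IntervalIntegrable f MeasureTheory.volume 0 1 := fun hf =>
    ContinuousOn.intervalIntegrable (by rw [huIcc]; exact hf)
  have hv0 : v 0 = 0 := by rw [hv]; simp [hb0]
  have hv1 : v 1 = 0 := by rw [hv]; simp [hb1]
  have hderv : ∀ t ∈ Icc (0 : ℝ) 1, deriv v t = w t := fun t ht => (hvd t ht).deriv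
  have hi1 : ∫ t in (0 : ℝ)..1, (fderiv ℝ D.G (c t) (v t) (deriv c t) (deriv c t) +
      2 * D.G (c t) (deriv c t) (w t)) = 0 := by
    have h1 : ∫ t in (0 : ℝ)..1, (fderiv ℝ D.G (c t) (v t) (deriv c t) (deriv c t) +
        2 * D.G (c t) (deriv c t) (w t)) =
        2 * D.G (c 1) (deriv c 1) (v 1) - 2 * D.G (c 0) (deriv c 0) (v 0) := by
      refine intervalIntegral.integral_eq_sub_of_hasDerivAt
        (f := fun s => 2 * D.G (c s) (deriv c s) (v s)) ?_ (hII hint1)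
      intro t ht
      rw [huIcc] at ht
      have := first_point hk hc ht (hvd t ht).differentiableAt
      rwa [hderv t ht] at this
    rw [h1, hv0, hv1]
    simp
  have hiA : ∫ t in (0 : ℝ)..1, A t = 2 * ∫ t in (0 : ℝ)..1, ‖w t‖ ^ 2 := by
    have haxd : deriv (fun t : ℝ => t • e0) = fun _ => e0 := by
      funext t
      have : HasDerivAt (fun t : ℝ => t • e0) e0 t := by
        simpa using (hasDerivAt_id t).smul_const e0
      exact this.deriv
    have hax : IsGeod D W (fun t : ℝ => t • e0) := by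
      refine ⟨?_, haxm, ?_⟩
      · intro t _
        exact (contDiff_id.smul contDiff_const).contDiffAt
      · intro t ht
        rw [haxd, hT.axisΓ t (hmemIoo t ht)]
        simp
    have h1 : ∫ t in (0 : ℝ)..1, (A t - 2 * ‖w t‖ ^ 2) =
        2 * D.G ((1 : ℝ) • e0) (D.Γ ((1 : ℝ) • e0) (v 1) (v 1)) e0 -
        2 * D.G ((0 : ℝ) • e0) (D.Γ ((0 : ℝ) • e0) (v 0) (v 0)) e0 := by
      refine intervalIntegral.integral_eq_sub_of_hasDerivAt
        (f := fun s : ℝ => 2 * D.G (s • e0) (D.Γ (s • e0) (v s) (v s)) e0) ?_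
        (hII hAw)
      intro t ht
      rw [huIcc] at ht
      have h2 := second_point hk hax ht (hvd t ht).differentiableAt
      rw [haxd, hderv t ht] at h2
      refine h2.congr_deriv ?_
      unfold covD
      rw [hflat t ht, hderv t ht, haxd, hT.axisΓ t (hmemIoo t ht)]
      simp only [add_zero, map_zero, zero_apply, sub_zero]
      rw [hT.axisG t (hmemIoo t ht) (w t) (w t), real_inner_self_eq_norm_sq]
      show _ = cxq (D.G (t • e0)) (fderiv ℝ D.G (t • e0))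
        (fderiv ℝ (fderiv ℝ D.G) (t • e0)) e0 (v t) (w t) - 2 * ‖w t‖ ^ 2
      unfold cxq
      rw [hT.axisG t (hmemIoo t ht) (w t) (w t), real_inner_self_eq_norm_sq]
    rw [hv0, hv1] at h1
    simp only [map_zero, zero_apply, mul_zero, sub_self] at h1
    rw [intervalIntegral.integral_sub (hII hintA) (hII hw2)] at h1
    have h2 : ∫ t in (0 : ℝ)..1, 2 * ‖w t‖ ^ 2 = 2 * ∫ t in (0 : ℝ)..1, ‖w t‖ ^ 2 :=
      intervalIntegral.integral_const_mul _ _
    rw [h2] at h1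
    linarith
  have hpoin := cx_poincare hvd hwc hv0
  have hw0 : 0 ≤ ∫ t in (0 : ℝ)..1, ‖w t‖ ^ 2 :=
    intervalIntegral.integral_nonneg zero_le_one fun t _ => sq_nonneg _
  have hle := intervalIntegral.integral_mono_on zero_le_one
    (hII hc2) (hII hintb) hpt
  have hsplit : ∫ t in (0 : ℝ)..1, (D.G (c t) (deriv c t) (deriv c t) +
        (fderiv ℝ D.G (c t) (v t) (deriv c t) (deriv c t) +
          2 * D.G (c t) (deriv c t) (w t)) +
        (A t - 1 / 2 * (‖v t‖ ^ 2 + ‖w t‖ ^ 2)) / 2) =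
      energy D.G c + (2 * (∫ t in (0 : ℝ)..1, ‖w t‖ ^ 2) - 1 / 2 *
        ((∫ t in (0 : ℝ)..1, ‖v t‖ ^ 2) + ∫ t in (0 : ℝ)..1, ‖w t‖ ^ 2)) / 2 := by
    rw [intervalIntegral.integral_add (hII hc1) (hII hAv2),
      intervalIntegral.integral_add (hII hintc) (hII hint1), hi1, add_zero,
      intervalIntegral.integral_div, intervalIntegral.integral_sub (hII hintA)
        (hII hvw2), hiA]
    have h3 : ∫ t in (0 : ℝ)..1, 1 / 2 * (‖v t‖ ^ 2 + ‖w t‖ ^ 2) = 1 / 2 *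
        ((∫ t in (0 : ℝ)..1, ‖v t‖ ^ 2) + ∫ t in (0 : ℝ)..1, ‖w t‖ ^ 2) := by
      rw [intervalIntegral.integral_const_mul, intervalIntegral.integral_add (hII hintv) (hII hintw)]
    rw [h3]
    rfl
  rw [hsplit] at hle
  have hEb : ∫ t in (0 : ℝ)..1, D.G (b t) (deriv b t) (deriv b t) = energy D.G b := rfl
  rw [hEb] at hle
  linarith

end Pool.Agent.Lib.MP_6c284f_gt
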