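import Pool.Agent.Lib.MP_6c284f_gt.SecVar
import Pool.Agent.Lib.MP_6c284f_gt.CurvC
import Pool.Agent.Lib.MP_6c284f_gt.FrameB
import Pool.Agent.Lib.MP_6c284f_gt.Convex

set_option autoImplicit false
set_option maxSynthPendingDepth 5

/-!
The differential inequality for the energy of the geodesic loops.
-/

namespace Pool.Agent.Lib.MP_6c284f_gt

open scoped ContDiff Topology
open Set

/-- uniform bounds near the axis -/
theorem ba_bounds {D : HKData E4} {W : Set E4} {ε : ℝ} (hT : IsTube D W ε) :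
    ∃ δ M m : ℝ, 0 < δ ∧ 0 < M ∧ 0 < m ∧ ∀ z : E4, (∃ t ∈ Icc (0 : ℝ) 1, ‖z - t • e0‖ ≤ δ) →
      z ∈ W ∧ ‖D.G z‖ ≤ M ∧ ‖D.Γ z‖ ≤ M ∧ ‖fderiv ℝ D.Γ z‖ ≤ M ∧ (∀ a, ‖D.I a z‖ ≤ M) ∧
      ∀ v : E4, m * ‖v‖ ^ 2 ≤ D.G z v v := by
  set S0 : Set E4 := (fun t : ℝ => t • e0) '' Icc 0 1 with hS0
  have hS0c : IsCompact S0 := isCompact_Icc.image (by fun_prop)
  have hS0W : S0 ⊆ W := by
    rintro _ ⟨t, ht, rfl⟩
    exact hT.axis t ⟨by linarith [ht.1, hT.εpos], by linarith [ht.2, hT.εpos]⟩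
  obtain ⟨δ, hδ, hsub⟩ := hS0c.exists_cthickening_subset_open hT.hk.isOpen hS0W
  have hKc : IsCompact (Metric.cthickening δ S0) := hS0c.cthickening
  have hmem : ∀ z : E4, (∃ t ∈ Icc (0 : ℝ) 1, ‖z - t • e0‖ ≤ δ) →
      z ∈ Metric.cthickening δ S0 := by
    rintro z ⟨t, ht, hz⟩
    exact Metric.mem_cthickening_of_dist_le z (t • e0) δ S0 ⟨t, ht, rfl⟩ (by rwa [dist_eq_norm])
  have hGc : ContinuousOn D.G W := hT.hk.smoothG.continuousOn
  have hΓc : ContinuousOn D.Γ W := hT.hk.smoothΓ.continuousOn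
  have hΓd : ContinuousOn (fderiv ℝ D.Γ) W :=
    hT.hk.smoothΓ.continuousOn_fderiv_of_isOpen hT.hk.isOpen (by simp)
  have hIc : ∀ a, ContinuousOn (D.I a) W := fun a => (hT.hk.smoothI a).continuousOn
  obtain ⟨C1, hC1⟩ := hKc.exists_bound_of_continuousOn (hGc.mono hsub)
  obtain ⟨C2, hC2⟩ := hKc.exists_bound_of_continuousOn (hΓc.mono hsub)
  obtain ⟨C3, hC3⟩ := hKc.exists_bound_of_continuousOn (hΓd.mono hsub)
  choose C4 hC4 using fun a => hKc.exists_bound_of_continuousOn ((hIc a).mono hsub)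
  -- lower bound
  set P : Set (E4 × E4) := Metric.cthickening δ S0 ×ˢ Metric.sphere (0 : E4) 1 with hP
  have hPc : IsCompact P := hKc.prod (isCompact_sphere 0 1)
  have hPf : ContinuousOn (fun p : E4 × E4 => D.G p.1 p.2 p.2) P := by
    have h1 : ContinuousOn (fun p : E4 × E4 => D.G p.1) P :=
      hGc.comp continuousOn_fst (fun p hp => hsub hp.1)
    exact (h1.clm_apply continuousOn_snd).clm_apply continuousOn_snd
  have he0 : ‖e0‖ = 1 := by simp [e0]
  have hPne : P.Nonempty := ⟨((0 : ℝ) • e0, e0), hmem _ ⟨0, by simp, by simp [hδ.le]⟩, by simp [he0]⟩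
  obtain ⟨p, hp, hpmin⟩ := hPc.exists_isMinOn hPne hPf
  have hp2 : p.2 ≠ 0 := by
    intro h
    have := hp.2
    simp [h] at this
  have hm : 0 < D.G p.1 p.2 p.2 := hT.hk.pos _ (hsub hp.1) _ hp2
  refine ⟨δ, max C1 (max C2 (max C3 (∑ a, |C4 a|))) + 1, D.G p.1 p.2 p.2, hδ, ?_, hm, ?_⟩
  · have : (0 : ℝ) ≤ ∑ a, |C4 a| := Finset.sum_nonneg (fun a _ => abs_nonneg _)
    have h2 : ∑ a, |C4 a| ≤ max C1 (max C2 (max C3 (∑ a, |C4 a|))) :=
      le_max_of_le_right (le_max_of_le_right (le_max_right _ _))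
    linarith
  · intro z hz
    have hz' := hmem z hz
    refine ⟨hsub hz', ?_, ?_, ?_, ?_, ?_⟩
    · exact (hC1 z hz').trans (le_add_of_le_of_nonneg (le_max_left _ _) zero_le_one)
    · exact (hC2 z hz').trans (le_add_of_le_of_nonneg
        (le_max_of_le_right (le_max_left _ _)) zero_le_one)
    · exact (hC3 z hz').trans (le_add_of_le_of_nonneg
        (le_max_of_le_right (le_max_of_le_right (le_max_left _ _))) zero_le_one)
    · intro a
      have h1 : C4 a ≤ ∑ a, |C4 a| := (le_abs_self _).trans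
        (Finset.single_le_sum (f := fun a => |C4 a|) (fun a _ => abs_nonneg _) (Finset.mem_univ a))
      exact (hC4 a z hz').trans (le_add_of_le_of_nonneg
        (h1.trans (le_max_of_le_right (le_max_of_le_right (le_max_right _ _)))) zero_le_one)
    · intro v
      rcases eq_or_ne v 0 with rfl | hv
      · simp
      · have hv0 : ‖v‖ ≠ 0 := norm_ne_zero_iff.2 hv
        have h1 : (z, (‖v‖)⁻¹ • v) ∈ P := by
          refine ⟨hz', ?_⟩
          simp [norm_smul, hv0]
        have h2 := hpmin h1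
        simp only [mem_ofPred_eq, map_smul, smul_apply, smul_eq_mul] at h2
        have h3 : 0 < ‖v‖ ^ 2 := by positivity
        calc D.G p.1 p.2 p.2 * ‖v‖ ^ 2 ≤ ((‖v‖)⁻¹ * ((‖v‖)⁻¹ * D.G z v v)) * ‖v‖ ^ 2 :=
              mul_le_mul_of_nonneg_right h2 h3.le
          _ = D.G z v v := by field_simp

/-- norm bound for the curvature -/
theorem ba_curv_norm {D : HKData E4} {z : E4} {M : ℝ} (hΓ : ‖D.Γ z‖ ≤ M)
    (hd : ‖fderiv ℝ D.Γ z‖ ≤ M) (u v w : E4) :
    ‖curv D.Γ z u v w‖ ≤ (2 * M + 2 * M ^ 2) * ‖u‖ * ‖v‖ * ‖w‖ := by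
  have hM : 0 ≤ M := (norm_nonneg _).trans hΓ
  have h1 : ∀ a b c : E4, ‖fderiv ℝ D.Γ z a b c‖ ≤ M * ‖a‖ * ‖b‖ * ‖c‖ := by
    intro a b c
    calc ‖fderiv ℝ D.Γ z a b c‖ ≤ ‖fderiv ℝ D.Γ z a b‖ * ‖c‖ := ContinuousLinearMap.le_opNorm _ _
      _ ≤ (‖fderiv ℝ D.Γ z a‖ * ‖b‖) * ‖c‖ := by
          gcongr; exact ContinuousLinearMap.le_opNorm _ _
      _ ≤ ((‖fderiv ℝ D.Γ z‖ * ‖a‖) * ‖b‖) * ‖c‖ := by
          gcongr; exact ContinuousLinearMap.le_opNorm _ _
      _ ≤ ((M * ‖a‖) * ‖b‖) * ‖c‖ := by gcongr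
  have h2 : ∀ a b : E4, ‖D.Γ z a b‖ ≤ M * ‖a‖ * ‖b‖ := by
    intro a b
    calc ‖D.Γ z a b‖ ≤ ‖D.Γ z a‖ * ‖b‖ := ContinuousLinearMap.le_opNorm _ _
      _ ≤ (‖D.Γ z‖ * ‖a‖) * ‖b‖ := by
          gcongr; exact ContinuousLinearMap.le_opNorm _ _
      _ ≤ (M * ‖a‖) * ‖b‖ := by gcongr
  have h3 : ∀ a b c : E4, ‖D.Γ z a (D.Γ z b c)‖ ≤ M ^ 2 * ‖a‖ * ‖b‖ * ‖c‖ := by
    intro a b c
    calc ‖D.Γ z a (D.Γ z b c)‖ ≤ M * ‖a‖ * ‖D.Γ z b c‖ := h2 _ _
      _ ≤ M * ‖a‖ * (M * ‖b‖ * ‖c‖) := by gcongr; exact h2 _ _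
      _ = M ^ 2 * ‖a‖ * ‖b‖ * ‖c‖ := by ring
  unfold curv
  calc ‖fderiv ℝ D.Γ z u v w - fderiv ℝ D.Γ z v u w + D.Γ z u (D.Γ z v w)
        - D.Γ z v (D.Γ z u w)‖
      ≤ ‖fderiv ℝ D.Γ z u v w‖ + ‖fderiv ℝ D.Γ z v u w‖ + ‖D.Γ z u (D.Γ z v w)‖
        + ‖D.Γ z v (D.Γ z u w)‖ := by
        refine (norm_sub_le _ _).trans ?_
        gcongr
        refine (norm_add_le _ _).trans ?_
        gcongr
        exact norm_sub_le _ _
    _ ≤ M * ‖u‖ * ‖v‖ * ‖w‖ + M * ‖v‖ * ‖u‖ * ‖w‖ + M ^ 2 * ‖u‖ * ‖v‖ * ‖w‖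
        + M ^ 2 * ‖v‖ * ‖u‖ * ‖w‖ := by
        gcongr
        · exact h1 _ _ _
        · exact h1 _ _ _
        · exact h3 _ _ _
        · exact h3 _ _ _
    _ = _ := by ring

/-- the curvature is additive in its first argument -/
theorem ba_curv_add (Γ : E4 → E4 →L[ℝ] E4 →L[ℝ] E4) (z u u' v w : E4) :
    curv Γ z (u + u') v w = curv Γ z u v w + curv Γ z u' v w := by
  unfold curv
  simp only [map_add, add_apply]
  abel

theorem ba_curv_cont {D : HKData E4} {W : Set E4} (h : IsHK D W) {s : Set ℝ}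
    {c u v w : ℝ → E4} (hc : ContinuousOn c s) (hcW : ∀ t ∈ s, c t ∈ W)
    (hu : ContinuousOn u s) (hv : ContinuousOn v s) (hw : ContinuousOn w s) :
    ContinuousOn (fun t => curv D.Γ (c t) (u t) (v t) (w t)) s := by
  have h1 : ContinuousOn (fun t => D.Γ (c t)) s := h.smoothΓ.continuousOn.comp hc hcW
  have h2 : ContinuousOn (fun t => fderiv ℝ D.Γ (c t)) s :=
    (h.smoothΓ.continuousOn_fderiv_of_isOpen h.isOpen (by simp)).comp hc hcW
  unfold curv
  exact (((((h2.clm_apply hu).clm_apply hv).clm_apply hw).sub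
    (((h2.clm_apply hv).clm_apply hu).clm_apply hw)).add
    ((h1.clm_apply hu).clm_apply ((h1.clm_apply hv).clm_apply hw))).sub
    ((h1.clm_apply hv).clm_apply ((h1.clm_apply hu).clm_apply hw))

/-- Test fields: for a geodesic loop `c` there are fields `X a` with `X a 0 = X a 1 = I a (c'(0))`
and small energy, up to the mismatch of the velocities at the base point. -/
theorem exists_fields {D : HKData E4} {W : Set E4} {ε : ℝ} (hT : IsTube D W ε)
    {ρ K : ℝ} {c : E4 → ℝ → E4} (hρ : 0 < ρ) (hc : LoopFam D W ρ K c) :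
    ∃ (r C : ℝ), 0 < r ∧ r ≤ ρ ∧ 0 < C ∧ ∀ q, ‖q‖ < r → ∃ X : Fin 4 → ℝ → E4,
      (∀ a, ∀ t ∈ Icc (0 : ℝ) 1, ContDiffAt ℝ 1 (X a) t) ∧
      (∀ a, X a 0 = D.I a q (deriv (c q) 0) ∧ X a 1 = D.I a q (deriv (c q) 0)) ∧
      (∑ a, ∫ t in (0 : ℝ)..1, (D.G (c q t) (covD D.Γ (c q) (X a) t) (covD D.Γ (c q) (X a) t)
        - D.G (c q t) (curv D.Γ (c q t) (X a t) (deriv (c q) t) (deriv (c q) t)) (X a t)))
        ≤ C * ‖deriv (c q) 1 - deriv (c q) 0‖ := by
  obtain ⟨δ, M, m, hδ, hM, hm, hB⟩ := ba_bounds hT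
  have he0 : ‖e0‖ = 1 := by simp [e0]
  set r : ℝ := min (min ρ ε) (min δ (1 / 2) / (|K| + 1)) with hr
  have hK1 : 0 < |K| + 1 := by positivity
  have hr0 : 0 < r := by
    have := hT.εpos
    positivity
  -- constants
  set B : ℝ := 4 * (M * (3 / 2) * M / (m / 4)) * (M * (3 / 2)) with hBdef
  have hB0 : 0 < B := by positivity
  set R : ℝ := 2 * M + 2 * M ^ 2 with hRdef
  have hR0 : 0 < R := by positivity
  set C : ℝ := 4 * (M * B ^ 2 + (M * R * (9 / 4) * (M * (3 / 2)) * (M * B) * 2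
      + M * R * (9 / 4) * (M * B) ^ 2)) with hCdef
  have hC0 : 0 < C := by positivity
  refine ⟨r, C, hr0, (min_le_left _ _).trans (min_le_left _ _), hC0, ?_⟩
  intro q hq
  have hqρ : ‖q‖ < ρ := lt_of_lt_of_le hq ((min_le_left _ _).trans (min_le_left _ _))
  have hqε : ‖q‖ < ε := lt_of_lt_of_le hq ((min_le_left _ _).trans (min_le_right _ _))
  have hqK : K * ‖q‖ ≤ min δ (1 / 2) := by
    have h1 : ‖q‖ ≤ min δ (1 / 2) / (|K| + 1) := hq.le.trans (min_le_right _ _)
    rw [le_div_iff₀ hK1] at h1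
    calc K * ‖q‖ ≤ |K| * ‖q‖ := by gcongr; exact le_abs_self K
      _ ≤ ‖q‖ * (|K| + 1) := by nlinarith [norm_nonneg q]
      _ ≤ _ := h1
  have hgeo := hc.geod q hqρ
  have hclose : ∀ t ∈ Icc (0 : ℝ) 1, ‖c q t - t • e0‖ ≤ δ ∧ ‖deriv (c q) t - e0‖ ≤ 1 / 2 := by
    intro t ht
    have := hc.close q hqρ t ht
    exact ⟨this.1.trans (hqK.trans (min_le_left _ _)), this.2.trans (hqK.trans (min_le_right _ _))⟩
  have hBt : ∀ t ∈ Icc (0 : ℝ) 1, c q t ∈ W ∧ ‖D.G (c q t)‖ ≤ M ∧ ‖D.Γ (c q t)‖ ≤ M ∧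
      ‖fderiv ℝ D.Γ (c q t)‖ ≤ M ∧ (∀ a, ‖D.I a (c q t)‖ ≤ M) ∧
      ∀ v : E4, m * ‖v‖ ^ 2 ≤ D.G (c q t) v v :=
    fun t ht => hB _ ⟨t, ht, (hclose t ht).1⟩
  have hvel : ∀ t ∈ Icc (0 : ℝ) 1, ‖deriv (c q) t‖ ≤ 3 / 2 ∧ 1 / 2 ≤ ‖deriv (c q) t‖ := by
    intro t ht
    have h1 := (hclose t ht).2
    have h2 := norm_sub_norm_le (deriv (c q) t) e0
    have h3 := norm_sub_norm_le e0 (deriv (c q) t)
    rw [norm_sub_rev] at h3
    constructor <;> linarith
  have h01 : (0 : ℝ) ∈ Icc (0 : ℝ) 1 := by simp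
  have h11 : (1 : ℝ) ∈ Icc (0 : ℝ) 1 := by simp
  have hv1 : deriv (c q) 1 ≠ 0 := by
    intro h
    have := (hvel 1 h11).2
    rw [h, norm_zero] at this
    linarith
  set x : E4 := deriv (c q) 0 - deriv (c q) 1 with hx
  have hx1 : ‖x‖ ≤ 1 := by
    have h1 := (hclose 0 h01).2
    have h2 := (hclose 1 h11).2
    have : x = (deriv (c q) 0 - e0) - (deriv (c q) 1 - e0) := by rw [hx]; abel
    rw [this]
    exact (norm_sub_le _ _).trans (by linarith)
  set b : Fin 4 → ℝ := fun a => D.G (c q 1) x (D.I a (c q 1) (deriv (c q) 1)) /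
    D.G (c q 1) (deriv (c q) 1) (deriv (c q) 1) with hb
  have hexp : x = ∑ a, b a • D.I a (c q 1) (deriv (c q) 1) :=
    I_expand hT.hk (hBt 1 h11).1 (by simp) hv1 x
  have hbb : ∀ a, |b a| ≤ (M * (3 / 2) * M / (m / 4)) * ‖x‖ := by
    intro a
    have hG := (hBt 1 h11).2.1
    have hI := (hBt 1 h11).2.2.2.2.1 a
    have hlow := (hBt 1 h11).2.2.2.2.2 (deriv (c q) 1)
    have hv := hvel 1 h11
    have h1 : m / 4 ≤ D.G (c q 1) (deriv (c q) 1) (deriv (c q) 1) := by
      refine le_trans ?_ hlow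
      have : (1 / 4 : ℝ) ≤ ‖deriv (c q) 1‖ ^ 2 := by nlinarith [hv.2]
      nlinarith
    have h2 : |D.G (c q 1) x (D.I a (c q 1) (deriv (c q) 1))| ≤ M * ‖x‖ * (M * (3 / 2)) := by
      rw [← Real.norm_eq_abs]
      calc ‖D.G (c q 1) x (D.I a (c q 1) (deriv (c q) 1))‖
          ≤ ‖D.G (c q 1) x‖ * ‖D.I a (c q 1) (deriv (c q) 1)‖ := ContinuousLinearMap.le_opNorm _ _
        _ ≤ (‖D.G (c q 1)‖ * ‖x‖) * (‖D.I a (c q 1)‖ * ‖deriv (c q) 1‖) := by
            gcongr
            · exact ContinuousLinearMap.le_opNorm _ _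
            · exact ContinuousLinearMap.le_opNorm _ _
        _ ≤ (M * ‖x‖) * (M * (3 / 2)) := by
            gcongr
            exact hv.1
    rw [hb]
    simp only
    rw [abs_div, abs_of_pos (lt_of_lt_of_le (by positivity) h1)]
    calc |D.G (c q 1) x (D.I a (c q 1) (deriv (c q) 1))| /
          D.G (c q 1) (deriv (c q) 1) (deriv (c q) 1)
        ≤ (M * ‖x‖ * (M * (3 / 2))) / (m / 4) := by gcongr
      _ = _ := by ring
  -- the parallel field
  set W0 : ℝ → E4 := fun t => ∑ a, b a • D.I a (c q t) (deriv (c q) t) with hW0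
  have hIE : ∀ a, ∀ t ∈ Icc (0 : ℝ) 1,
      ContDiffAt ℝ 1 (fun s => D.I a (c q s) (deriv (c q) s)) t := fun a t ht =>
    contDiffAt_I hT.hk hgeo ht (contDiffAt_velocity hgeo ht) a
  have hW0d : ∀ t ∈ Icc (0 : ℝ) 1, ContDiffAt ℝ 1 W0 t := by
    intro t ht
    exact ContDiffAt.sum (fun a _ => (hIE a t ht).const_smul (b a))
  have hW0par : ∀ t ∈ Icc (0 : ℝ) 1, covD D.Γ (c q) W0 t = 0 := by
    intro t ht
    have h1 : ∀ a, covD D.Γ (c q) (fun s => D.I a (c q s) (deriv (c q) s)) t = 0 := by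
      intro a
      rw [covD_I hT.hk hgeo ht ((contDiffAt_velocity hgeo ht).differentiableAt (by simp)),
        covD_velocity hgeo ht, map_zero]
    have h2 : deriv W0 t = ∑ a, b a • deriv (fun s => D.I a (c q s) (deriv (c q) s)) t := by
      have h3 : HasDerivAt W0 (∑ a, b a • deriv (fun s => D.I a (c q s) (deriv (c q) s)) t) t := by
        have := HasDerivAt.fun_sum (u := Finset.univ) (x := t)
          (A := fun (a : Fin 4) s => b a • D.I a (c q s) (deriv (c q) s))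
          (A' := fun a => b a • deriv (fun s => D.I a (c q s) (deriv (c q) s)) t)
          (fun a _ => (((hIE a t ht).differentiableAt (by simp)).hasDerivAt).const_smul (b a))
        exact this
      exact h3.deriv
    unfold covD at h1 ⊢
    rw [h2, hW0]
    simp only [map_sum, map_smul]
    rw [← Finset.sum_add_distrib]
    refine Finset.sum_eq_zero (fun a _ => ?_)
    rw [← smul_add, h1 a, smul_zero]
  have hW0n : ∀ t ∈ Icc (0 : ℝ) 1, ‖W0 t‖ ≤ B * ‖x‖ := by
    intro t ht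
    calc ‖W0 t‖ ≤ ∑ a, ‖b a • D.I a (c q t) (deriv (c q) t)‖ := norm_sum_le _ _
      _ ≤ ∑ _a : Fin 4, ((M * (3 / 2) * M / (m / 4)) * ‖x‖) * (M * (3 / 2)) := by
          refine Finset.sum_le_sum (fun a _ => ?_)
          rw [norm_smul, Real.norm_eq_abs]
          refine mul_le_mul (hbb a) ?_ (norm_nonneg _) (by positivity)
          calc ‖D.I a (c q t) (deriv (c q) t)‖ ≤ ‖D.I a (c q t)‖ * ‖deriv (c q) t‖ :=
                ContinuousLinearMap.le_opNorm _ _
            _ ≤ M * (3 / 2) := by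
                gcongr
                · exact (hBt t ht).2.2.2.2.1 a
                · exact (hvel t ht).1
      _ = B * ‖x‖ := by
          rw [Finset.sum_const, Finset.card_univ, Fintype.card_fin, hBdef]
          simp only [nsmul_eq_mul]
          push_cast
          ring
  -- the fields
  set Z : ℝ → E4 := fun t => deriv (c q) t + t • W0 t with hZ
  have hZd : ∀ t ∈ Icc (0 : ℝ) 1, ContDiffAt ℝ 1 Z t := by
    intro t ht
    exact (contDiffAt_velocity hgeo ht).add (contDiffAt_id.smul (hW0d t ht))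
  have hZcov : ∀ t ∈ Icc (0 : ℝ) 1, covD D.Γ (c q) Z t = W0 t := by
    intro t ht
    have h1 := hW0par t ht
    have h2 : covD D.Γ (c q) (deriv (c q)) t = 0 := covD_velocity hgeo ht
    have h3 : deriv Z t = deriv (deriv (c q)) t + (t • deriv W0 t + (1 : ℝ) • W0 t) := by
      have h4 : HasDerivAt (deriv (c q)) (deriv (deriv (c q)) t) t :=
        ((contDiffAt_velocity hgeo ht).differentiableAt (by simp)).hasDerivAt
      have h5 : HasDerivAt W0 (deriv W0 t) t :=
        ((hW0d t ht).differentiableAt (by simp)).hasDerivAt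
      exact (h4.add ((hasDerivAt_id t).smul h5)).deriv
    unfold covD at h1 h2 ⊢
    rw [h3, hZ]
    simp only [map_add, map_smul]
    calc deriv (deriv (c q)) t + (t • deriv W0 t + (1 : ℝ) • W0 t) +
          (D.Γ (c q t) (deriv (c q) t) (deriv (c q) t)
            + t • D.Γ (c q t) (deriv (c q) t) (W0 t))
        = (deriv (deriv (c q)) t + D.Γ (c q t) (deriv (c q) t) (deriv (c q) t))
          + t • (deriv W0 t + D.Γ (c q t) (deriv (c q) t) (W0 t)) + W0 t := by
            rw [one_smul, smul_add]; abel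
      _ = W0 t := by rw [h1, h2, smul_zero, zero_add, zero_add]
  refine ⟨fun a t => D.I a (c q t) (Z t), ?_, ?_, ?_⟩
  · intro a t ht
    exact contDiffAt_I hT.hk hgeo ht (hZd t ht) a
  · intro a
    constructor
    · simp only [hZ, zero_smul, add_zero]
      rw [hc.start q hqρ]
    · have hW1 : W0 1 = x := hexp.symm
      simp only [hZ, one_smul]
      rw [hW1, hx, hc.finish q hqρ, hT.perI q hqε a]
      congr 1
      abel
  · -- the estimate
    have hcc : ContinuousOn (c q) (Icc 0 1) := fun t ht =>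
      (hgeo.smooth t ht).continuousAt.continuousWithinAt
    have hvc : ContinuousOn (deriv (c q)) (Icc 0 1) := fun t ht =>
      (contDiffAt_velocity hgeo ht).continuousAt.continuousWithinAt
    have hZc : ContinuousOn Z (Icc 0 1) := fun t ht =>
      (hZd t ht).continuousAt.continuousWithinAt
    have hWc : ContinuousOn W0 (Icc 0 1) := fun t ht =>
      (hW0d t ht).continuousAt.continuousWithinAt
    have hcW : ∀ t ∈ Icc (0 : ℝ) 1, c q t ∈ W := fun t ht => (hBt t ht).1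
    have hGc : ContinuousOn (fun t => D.G (c q t)) (Icc 0 1) :=
      hT.hk.smoothG.continuousOn.comp hcc hcW
    have hIc : ∀ a, ContinuousOn (fun t => D.I a (c q t)) (Icc 0 1) := fun a =>
      (hT.hk.smoothI a).continuousOn.comp hcc hcW
    set f : Fin 4 → ℝ → ℝ := fun a t => D.G (c q t) (W0 t) (W0 t)
      - D.G (c q t) (curv D.Γ (c q t) (D.I a (c q t) (Z t)) (deriv (c q) t) (deriv (c q) t))
        (D.I a (c q t) (Z t)) with hf
    have hfc : ∀ a, ContinuousOn (f a) (Icc 0 1) := by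
      intro a
      refine ((hGc.clm_apply hWc).clm_apply hWc).sub
        ((hGc.clm_apply (ba_curv_cont hT.hk hcc hcW ((hIc a).clm_apply hZc) hvc hvc)).clm_apply
          ((hIc a).clm_apply hZc))
    have hfi : ∀ a, IntervalIntegrable (f a) MeasureTheory.volume 0 1 := fun a =>
      ContinuousOn.intervalIntegrable (by rw [uIcc_of_le zero_le_one]; exact hfc a)
    have heq : ∀ a, (∫ t in (0 : ℝ)..1,
        (D.G (c q t) (covD D.Γ (c q) (fun t => D.I a (c q t) (Z t)) t)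
          (covD D.Γ (c q) (fun t => D.I a (c q t) (Z t)) t)
        - D.G (c q t) (curv D.Γ (c q t) (D.I a (c q t) (Z t)) (deriv (c q) t) (deriv (c q) t))
          (D.I a (c q t) (Z t)))) = ∫ t in (0 : ℝ)..1, f a t := by
      intro a
      refine intervalIntegral.integral_congr (fun t ht => ?_)
      rw [uIcc_of_le zero_le_one] at ht
      simp only [hf]
      rw [covD_I hT.hk hgeo ht ((hZd t ht).differentiableAt (by simp)) a, hZcov t ht,
        hT.hk.orth a _ (hcW t ht)]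
    simp only [heq]
    rw [← intervalIntegral.integral_finsetSum (fun a _ => hfi a)]
    have hbound : ∀ t ∈ Icc (0 : ℝ) 1, ∑ a, f a t ≤ C * ‖x‖ := by
      intro t ht
      obtain ⟨hzW, hGn, hΓn, hdn, hIn, hlow⟩ := hBt t ht
      have hGb : ∀ u v : E4, |D.G (c q t) u v| ≤ M * ‖u‖ * ‖v‖ := by
        intro u v
        rw [← Real.norm_eq_abs]
        calc ‖D.G (c q t) u v‖ ≤ ‖D.G (c q t) u‖ * ‖v‖ := ContinuousLinearMap.le_opNorm _ _
          _ ≤ (‖D.G (c q t)‖ * ‖u‖) * ‖v‖ := by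
              gcongr; exact ContinuousLinearMap.le_opNorm _ _
          _ ≤ (M * ‖u‖) * ‖v‖ := by gcongr
      have hIb : ∀ a (u : E4), ‖D.I a (c q t) u‖ ≤ M * ‖u‖ := fun a u =>
        (ContinuousLinearMap.le_opNorm _ _).trans (by gcongr; exact hIn a)
      have hv := (hvel t ht).1
      have hWn := hW0n t ht
      have hcurv := fun u => ba_curv_norm hΓn hdn u (deriv (c q) t) (deriv (c q) t)
      have hcurv' : ∀ u, ‖curv D.Γ (c q t) u (deriv (c q) t) (deriv (c q) t)‖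
          ≤ R * (9 / 4) * ‖u‖ := by
        intro u
        refine (hcurv u).trans ?_
        rw [← hRdef]
        calc R * ‖u‖ * ‖deriv (c q) t‖ * ‖deriv (c q) t‖ ≤ R * ‖u‖ * (3 / 2) * (3 / 2) := by gcongr
          _ = _ := by ring
      have hZe : Z t = deriv (c q) t + t • W0 t := rfl
      have hsum : ∑ a, f a t = ∑ a : Fin 4, (D.G (c q t) (W0 t) (W0 t)
          - (D.G (c q t) (curv D.Γ (c q t) (D.I a (c q t) (deriv (c q) t)) (deriv (c q) t)
              (deriv (c q) t)) (D.I a (c q t) (t • W0 t))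
            + D.G (c q t) (curv D.Γ (c q t) (D.I a (c q t) (t • W0 t)) (deriv (c q) t)
              (deriv (c q) t)) (D.I a (c q t) (deriv (c q) t))
            + D.G (c q t) (curv D.Γ (c q t) (D.I a (c q t) (t • W0 t)) (deriv (c q) t)
              (deriv (c q) t)) (D.I a (c q t) (t • W0 t)))) := by
        have hr := curv_ric hT.hk hzW (deriv (c q) t)
        rw [← sub_eq_zero, ← Finset.sum_sub_distrib]
        rw [← neg_eq_zero, ← Finset.sum_neg_distrib, ← hr]
        refine Finset.sum_congr rfl (fun a _ => ?_)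
        simp only [hf, hZe]
        rw [map_add (D.I a (c q t)), ba_curv_add]
        simp only [map_add, add_apply]
        ring
      rw [hsum]
      have htW : ‖t • W0 t‖ ≤ B * ‖x‖ := by
        rw [norm_smul, Real.norm_eq_abs, abs_of_nonneg ht.1]
        calc t * ‖W0 t‖ ≤ 1 * ‖W0 t‖ := by gcongr; exact ht.2
          _ = ‖W0 t‖ := one_mul _
          _ ≤ _ := hWn
      have hnx : 0 ≤ ‖x‖ := norm_nonneg _
      have hBx : B * ‖x‖ ≤ B := by nlinarith
      have hterm : ∀ a : Fin 4, (D.G (c q t) (W0 t) (W0 t)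
          - (D.G (c q t) (curv D.Γ (c q t) (D.I a (c q t) (deriv (c q) t)) (deriv (c q) t)
              (deriv (c q) t)) (D.I a (c q t) (t • W0 t))
            + D.G (c q t) (curv D.Γ (c q t) (D.I a (c q t) (t • W0 t)) (deriv (c q) t)
              (deriv (c q) t)) (D.I a (c q t) (deriv (c q) t))
            + D.G (c q t) (curv D.Γ (c q t) (D.I a (c q t) (t • W0 t)) (deriv (c q) t)
              (deriv (c q) t)) (D.I a (c q t) (t • W0 t))))
          ≤ (M * B ^ 2 + (M * R * (9 / 4) * (M * (3 / 2)) * (M * B) * 2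
            + M * R * (9 / 4) * (M * B) ^ 2)) * ‖x‖ := by
        intro a
        have t0 : D.G (c q t) (W0 t) (W0 t) ≤ M * B ^ 2 * ‖x‖ := by
          refine (le_abs_self _).trans ((hGb _ _).trans ?_)
          calc M * ‖W0 t‖ * ‖W0 t‖ ≤ M * (B * ‖x‖) * (B * ‖x‖) := by gcongr
            _ = M * B * ‖x‖ * (B * ‖x‖) := by ring
            _ ≤ M * B * ‖x‖ * B := by gcongr
            _ = _ := by ring
        have n1 : ‖D.I a (c q t) (t • W0 t)‖ ≤ M * B * ‖x‖ := by
          refine (hIb a _).trans ?_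
          calc M * ‖t • W0 t‖ ≤ M * (B * ‖x‖) := by gcongr
            _ = _ := by ring
        have n1' : ‖D.I a (c q t) (t • W0 t)‖ ≤ M * B := by
          refine n1.trans ?_
          have : 0 ≤ M * B := by positivity
          nlinarith
        have n2 : ‖D.I a (c q t) (deriv (c q) t)‖ ≤ M * (3 / 2) := by
          refine (hIb a _).trans ?_
          gcongr
        have t1 : |D.G (c q t) (curv D.Γ (c q t) (D.I a (c q t) (deriv (c q) t)) (deriv (c q) t)
              (deriv (c q) t)) (D.I a (c q t) (t • W0 t))|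
            ≤ M * (R * (9 / 4) * (M * (3 / 2))) * (M * B * ‖x‖) := by
          refine (hGb _ _).trans ?_
          gcongr
          refine (hcurv' _).trans ?_
          gcongr
        have t2 : |D.G (c q t) (curv D.Γ (c q t) (D.I a (c q t) (t • W0 t)) (deriv (c q) t)
              (deriv (c q) t)) (D.I a (c q t) (deriv (c q) t))|
            ≤ M * (R * (9 / 4) * (M * B * ‖x‖)) * (M * (3 / 2)) := by
          refine (hGb _ _).trans ?_
          gcongr
          refine (hcurv' _).trans ?_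
          gcongr
        have t3 : |D.G (c q t) (curv D.Γ (c q t) (D.I a (c q t) (t • W0 t)) (deriv (c q) t)
              (deriv (c q) t)) (D.I a (c q t) (t • W0 t))|
            ≤ M * (R * (9 / 4) * (M * B * ‖x‖)) * (M * B) := by
          refine (hGb _ _).trans ?_
          gcongr
          refine (hcurv' _).trans ?_
          gcongr
        have t1' := neg_abs_le (D.G (c q t) (curv D.Γ (c q t) (D.I a (c q t) (deriv (c q) t))
          (deriv (c q) t) (deriv (c q) t)) (D.I a (c q t) (t • W0 t)))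
        have t2' := neg_abs_le (D.G (c q t) (curv D.Γ (c q t) (D.I a (c q t) (t • W0 t))
          (deriv (c q) t) (deriv (c q) t)) (D.I a (c q t) (deriv (c q) t)))
        have t3' := neg_abs_le (D.G (c q t) (curv D.Γ (c q t) (D.I a (c q t) (t • W0 t))
          (deriv (c q) t) (deriv (c q) t)) (D.I a (c q t) (t • W0 t)))
        calc _ ≤ M * B ^ 2 * ‖x‖ + (M * (R * (9 / 4) * (M * (3 / 2))) * (M * B * ‖x‖)
              + M * (R * (9 / 4) * (M * B * ‖x‖)) * (M * (3 / 2))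
              + M * (R * (9 / 4) * (M * B * ‖x‖)) * (M * B)) := by linarith
          _ = _ := by ring
      calc _ ≤ ∑ _a : Fin 4, ((M * B ^ 2 + (M * R * (9 / 4) * (M * (3 / 2)) * (M * B) * 2
            + M * R * (9 / 4) * (M * B) ^ 2)) * ‖x‖) := Finset.sum_le_sum (fun a _ => hterm a)
        _ = C * ‖x‖ := by
            rw [Finset.sum_const, Finset.card_univ, Fintype.card_fin, hCdef]
            simp only [nsmul_eq_mul]
            push_cast
            ring
    have hci : ContinuousOn (fun t => ∑ a, f a t) (Icc 0 1) :=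
      continuousOn_finsetSum _ (fun a _ => hfc a)
    calc (∫ t in (0 : ℝ)..1, ∑ a, f a t) ≤ ∫ _t in (0 : ℝ)..1, C * ‖x‖ := by
          refine intervalIntegral.integral_mono_on zero_le_one ?_ (by simp) hbound
          exact ContinuousOn.intervalIntegrable (by rw [uIcc_of_le zero_le_one]; exact hci)
      _ = C * ‖x‖ := by simp
      _ = C * ‖deriv (c q) 1 - deriv (c q) 0‖ := by rw [hx, norm_sub_rev]

end Pool.Agent.Lib.MP_6c284f_gt
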