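import Pool.Agent.Lib.MP_6c284f_gt.SecVar
import Pool.Agent.Lib.MP_6c284f_gt.CurvC
import Pool.Agent.Lib.MP_6c284f_gt.FrameB
import Pool.Agent.Lib.MP_6c284f_gt.Convex
import Pool.Agent.Lib.MP_6c284f_gt.BarrierA

set_option autoImplicit false
set_option maxSynthPendingDepth 5

/-!
The differential inequality for the energy of the geodesic loops.
-/

namespace Pool.Agent.Lib.MP_6c284f_gt

open scoped ContDiff Topology
open Set

/-- the barrier inequality -/
theorem loop_barrier {D : HKData E4} {W : Set E4} {ε : ℝ} (hT : IsTube D W ε)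
    (hflat : ∀ t ∈ Icc (0 : ℝ) 1, ∀ u v w, curv D.Γ (t • e0) u v w = 0)
    {ρ K : ℝ} {c : E4 → ℝ → E4} (hρ : 0 < ρ) (hc : LoopFam D W ρ K c) :
    ∃ (r C : ℝ), 0 < r ∧ r ≤ ρ ∧ ∀ q, ‖q‖ < r → ∃ (l : E4 →L[ℝ] ℝ) (d : Fin 4 → ℝ),
      (∀ a, ∀ η > 0, ∀ᶠ s in 𝓝 (0 : ℝ),
        energy D.G (c (q + s • D.I a q (deriv (c q) 0))) ≤ energy D.G (c q)
          + s * l (D.I a q (deriv (c q) 0)) + s ^ 2 / 2 * (d a + η)) ∧
      ∑ a, d a ≤ C * ‖l‖ ∧
      (∀ y, l y = 2 * D.G q (deriv (c q) 1 - deriv (c q) 0) y) := by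
  obtain ⟨δ0, M, m, hδ0, hM, hm, hB⟩ := ba_bounds hT
  obtain ⟨δ1, hδ1, -, hmin⟩ := energy_min hT hflat
  obtain ⟨r0, C0, hr0, hr0ρ, hC0, hX⟩ := exists_fields hT hρ hc
  have he0 : ‖e0‖ = 1 := by simp [e0]
  have hK1 : 0 < |K| + 1 := by positivity
  set δ : ℝ := min δ0 (min δ1 (1 / 2)) / 2 with hδdef
  have hδ : 0 < δ := by positivity
  have hδδ0 : δ < δ0 := by
    have : min δ0 (min δ1 (1 / 2)) ≤ δ0 := min_le_left _ _
    rw [hδdef]; linarith
  have hδδ1 : 2 * δ ≤ δ1 := by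
    have : min δ0 (min δ1 (1 / 2)) ≤ δ1 := (min_le_right _ _).trans (min_le_left _ _)
    rw [hδdef]; linarith
  have hδ12 : δ ≤ 1 / 2 := by
    have : min δ0 (min δ1 (1 / 2)) ≤ 1 / 2 := (min_le_right _ _).trans (min_le_right _ _)
    rw [hδdef]; linarith
  set r : ℝ := min (min r0 ε) (δ / (|K| + 1)) with hr
  have hrpos : 0 < r := by
    have := hT.εpos
    positivity
  have hrρ : r ≤ ρ := ((min_le_left _ _).trans (min_le_left _ _)).trans hr0ρ
  have hKr : ∀ q : E4, ‖q‖ < r → K * ‖q‖ ≤ δ := by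
    intro q hq
    have h1 : ‖q‖ ≤ δ / (|K| + 1) := hq.le.trans (min_le_right _ _)
    rw [le_div_iff₀ hK1] at h1
    calc K * ‖q‖ ≤ |K| * ‖q‖ := by gcongr; exact le_abs_self K
      _ ≤ ‖q‖ * (|K| + 1) := by nlinarith [norm_nonneg q]
      _ ≤ _ := h1
  refine ⟨r, (2 * C0 + 8 * (M * (M * (M * (3 / 2)) * (M * (3 / 2))))) / (2 * m), hrpos, hrρ, ?_⟩
  intro q hq
  have hqρ : ‖q‖ < ρ := lt_of_lt_of_le hq hrρ
  have hqr0 : ‖q‖ < r0 := lt_of_lt_of_le hq ((min_le_left _ _).trans (min_le_left _ _))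
  have hqε : ‖q‖ < ε := lt_of_lt_of_le hq ((min_le_left _ _).trans (min_le_right _ _))
  obtain ⟨X, hXd, hXe, hXI⟩ := hX q hqr0
  have hgeo := hc.geod q hqρ
  have hclose : ∀ t ∈ Icc (0 : ℝ) 1, ‖c q t - t • e0‖ ≤ δ ∧ ‖deriv (c q) t - e0‖ ≤ δ := by
    intro t ht
    have := hc.close q hqρ t ht
    exact ⟨this.1.trans (hKr q hq), this.2.trans (hKr q hq)⟩
  have h01 : (0 : ℝ) ∈ Icc (0 : ℝ) 1 := by simp
  have h11 : (1 : ℝ) ∈ Icc (0 : ℝ) 1 := by simp
  have hBq : q ∈ W ∧ ‖D.G q‖ ≤ M ∧ ‖D.Γ q‖ ≤ M ∧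
      ‖fderiv ℝ D.Γ q‖ ≤ M ∧ (∀ a, ‖D.I a q‖ ≤ M) ∧ ∀ v : E4, m * ‖v‖ ^ 2 ≤ D.G q v v := by
    refine hB q ⟨0, h01, ?_⟩
    have := (hclose 0 h01).1
    rw [hc.start q hqρ] at this
    exact this.trans hδδ0.le
  obtain ⟨hqW, hGn, hΓn, -, hIn, hlow⟩ := hBq
  set x : E4 := deriv (c q) 1 - deriv (c q) 0 with hx
  have hv0 : ‖deriv (c q) 0‖ ≤ 3 / 2 := by
    have h1 := (hclose 0 h01).2
    have h2 := norm_sub_norm_le (deriv (c q) 0) e0
    linarith
  set l : E4 →L[ℝ] ℝ := (2 : ℝ) • D.G q x with hl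
  have hly : ∀ y, l y = 2 * D.G q x y := by
    intro y
    simp [hl]
  have hxl : 2 * m * ‖x‖ ≤ ‖l‖ := by
    have h1 : 2 * m * ‖x‖ * ‖x‖ ≤ ‖l‖ * ‖x‖ := by
      calc 2 * m * ‖x‖ * ‖x‖ = 2 * (m * ‖x‖ ^ 2) := by ring
        _ ≤ 2 * D.G q x x := by linarith [hlow x]
        _ = l x := (hly x).symm
        _ ≤ ‖l x‖ := Real.le_norm_self _
        _ ≤ ‖l‖ * ‖x‖ := ContinuousLinearMap.le_opNorm _ _
    rcases eq_or_lt_of_le (norm_nonneg x) with h0 | h0
    · rw [← h0, mul_zero]; exact norm_nonneg _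
    · exact le_of_mul_le_mul_right h1 h0
  -- the second derivatives
  set J : Fin 4 → ℝ := fun a => ∫ t in (0 : ℝ)..1,
    (D.G (c q t) (covD D.Γ (c q) (X a) t) (covD D.Γ (c q) (X a) t)
      - D.G (c q t) (curv D.Γ (c q t) (X a t) (deriv (c q) t) (deriv (c q) t)) (X a t)) with hJ
  set Y : Fin 4 → E4 := fun a => D.I a q (deriv (c q) 0) with hY
  set d : Fin 4 → ℝ := fun a => 2 * (J a + D.G q (D.Γ q (Y a) (Y a)) x) with hd
  refine ⟨l, d, ?_, ?_, hly⟩
  · intro a η hη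
    have hsv := second_variation hT.hk hgeo (hXd a)
    have h1 := hsv.def (half_pos hη)
    -- bounds for the field
    have hXc : ContinuousOn (X a) (Icc 0 1) := fun t ht =>
      (hXd a t ht).continuousAt.continuousWithinAt
    have hXc' : ContinuousOn (deriv (X a)) (Icc 0 1) := by
      intro t ht
      have h2 : ContDiffAt ℝ 0 (fderiv ℝ (X a)) t := (hXd a t ht).fderiv_right (by simp)
      have h3 : ContinuousAt (fun s => fderiv ℝ (X a) s 1) t :=
        h2.continuousAt.clm_apply continuousAt_const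
      exact h3.continuousWithinAt
    obtain ⟨N1, hN1⟩ := isCompact_Icc.exists_bound_of_continuousOn hXc
    obtain ⟨N2, hN2⟩ := isCompact_Icc.exists_bound_of_continuousOn hXc'
    set N : ℝ := |N1| + |N2| + 1 with hN
    have hN0 : 0 < N := by positivity
    have hev1 : ∀ᶠ s in 𝓝 (0 : ℝ), |s| * N < δ := by
      have : Continuous (fun s : ℝ => |s| * N) := by fun_prop
      exact (this.tendsto' 0 0 (by simp)).eventually (gt_mem_nhds hδ)
    have hev2 : ∀ᶠ s in 𝓝 (0 : ℝ), ‖q + s • Y a‖ < r := by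
      have : Continuous (fun s : ℝ => ‖q + s • Y a‖) := by fun_prop
      exact (this.tendsto' 0 ‖q‖ (by simp)).eventually (gt_mem_nhds hq)
    filter_upwards [h1, hev1, hev2] with s hs1 hs2 hs3
    have hqs : ‖q + s • Y a‖ < ρ := lt_of_lt_of_le hs3 hrρ
    have hle : energy D.G (c (q + s • Y a)) ≤ energy D.G (fun t => c q t + s • X a t) := by
      have hder : ∀ t ∈ Icc (0 : ℝ) 1,
          deriv (fun t => c q t + s • X a t) t = deriv (c q) t + s • deriv (X a) t := by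
        intro t ht
        have h4 : HasDerivAt (c q) (deriv (c q) t) t :=
          ((hgeo.smooth t ht).differentiableAt (by simp)).hasDerivAt
        have h5 : HasDerivAt (X a) (deriv (X a) t) t :=
          ((hXd a t ht).differentiableAt (by simp)).hasDerivAt
        exact (h4.add (h5.const_smul s)).deriv
      refine hmin (c (q + s • Y a)) (fun t => c q t + s • X a t) (hc.geod _ hqs) ?_ ?_ ?_ ?_
      · intro t ht
        exact ((hgeo.smooth t ht).of_le (by norm_num)).add ((hXd a t ht).const_smul s)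
      · rw [hc.start q hqρ, hc.start _ hqs, (hXe a).1]
      · rw [hc.finish q hqρ, hc.finish _ hqs, (hXe a).2]
        abel
      · intro t ht
        have hcs := hc.close _ hqs t ht
        have hKs := hKr _ hs3
        have hsN1 : ‖s • X a t‖ ≤ |s| * N := by
          rw [norm_smul, Real.norm_eq_abs]
          gcongr
          refine (hN1 t ht).trans ?_
          have := le_abs_self N1
          have := abs_nonneg N2
          linarith
        have hsN2 : ‖s • deriv (X a) t‖ ≤ |s| * N := by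
          rw [norm_smul, Real.norm_eq_abs]
          gcongr
          refine (hN2 t ht).trans ?_
          have := le_abs_self N2
          have := abs_nonneg N1
          linarith
        refine ⟨?_, ?_, ?_, ?_⟩
        · linarith [hcs.1]
        · linarith [hcs.2]
        · have : c q t + s • X a t - t • e0 = (c q t - t • e0) + s • X a t := by abel
          rw [this]
          refine lt_of_le_of_lt (norm_add_le _ _) ?_
          linarith [(hclose t ht).1]
        · rw [hder t ht]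
          have : deriv (c q) t + s • deriv (X a) t - e0
              = (deriv (c q) t - e0) + s • deriv (X a) t := by abel
          rw [this]
          refine lt_of_le_of_lt (norm_add_le _ _) ?_
          linarith [(hclose t ht).2]
    have hlin : 2 * (D.G (c q 1) (deriv (c q) 1) (X a 1) - D.G (c q 0) (deriv (c q) 0) (X a 0))
        = l (Y a) := by
      rw [hly, hc.finish q hqρ, hc.start q hqρ, hT.perG q hqε, (hXe a).1, (hXe a).2, hx]
      simp only [map_sub, sub_apply]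
      rw [hY]
    have hquad : (D.G (c q 1) (D.Γ (c q 1) (X a 1) (X a 1)) (deriv (c q) 1)
            - D.G (c q 0) (D.Γ (c q 0) (X a 0) (X a 0)) (deriv (c q) 0))
        = D.G q (D.Γ q (Y a) (Y a)) x := by
      rw [hc.finish q hqρ, hc.start q hqρ, hT.perG q hqε, hT.perΓ q hqε, (hXe a).1, (hXe a).2, hx]
      simp only [map_sub]
      rw [hY]
    rw [hlin, hquad] at hs1
    rw [Real.norm_eq_abs, Real.norm_eq_abs, abs_of_nonneg (sq_nonneg s)] at hs1
    have h6 := (abs_le.1 hs1).2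
    have h7 : d a = 2 * (J a + D.G q (D.Γ q (Y a) (Y a)) x) := rfl
    rw [h7]
    simp only [hJ]
    linarith
  · have hsumJ : ∑ a, J a ≤ C0 * ‖x‖ := hXI
    have hYn : ∀ a, ‖Y a‖ ≤ M * (3 / 2) := by
      intro a
      calc ‖Y a‖ ≤ ‖D.I a q‖ * ‖deriv (c q) 0‖ := ContinuousLinearMap.le_opNorm _ _
        _ ≤ M * (3 / 2) := by
            gcongr
            exact hIn a
    have hbd : ∀ a, D.G q (D.Γ q (Y a) (Y a)) x ≤
        (M * (M * (M * (3 / 2)) * (M * (3 / 2)))) * ‖x‖ := by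
      intro a
      calc D.G q (D.Γ q (Y a) (Y a)) x ≤ ‖D.G q (D.Γ q (Y a) (Y a)) x‖ := Real.le_norm_self _
        _ ≤ ‖D.G q (D.Γ q (Y a) (Y a))‖ * ‖x‖ := ContinuousLinearMap.le_opNorm _ _
        _ ≤ (‖D.G q‖ * ‖D.Γ q (Y a) (Y a)‖) * ‖x‖ := by
            gcongr; exact ContinuousLinearMap.le_opNorm _ _
        _ ≤ (‖D.G q‖ * (‖D.Γ q (Y a)‖ * ‖Y a‖)) * ‖x‖ := by
            gcongr; exact ContinuousLinearMap.le_opNorm _ _
        _ ≤ (‖D.G q‖ * ((‖D.Γ q‖ * ‖Y a‖) * ‖Y a‖)) * ‖x‖ := by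
            gcongr; exact ContinuousLinearMap.le_opNorm _ _
        _ ≤ (M * ((M * (M * (3 / 2))) * (M * (3 / 2)))) * ‖x‖ := by
            gcongr
            · exact hYn a
            · exact hYn a
    have hsum : ∑ a, d a ≤ (2 * C0 + 8 * (M * (M * (M * (3 / 2)) * (M * (3 / 2))))) * ‖x‖ := by
      calc ∑ a, d a = 2 * ∑ a, J a + 2 * ∑ a, D.G q (D.Γ q (Y a) (Y a)) x := by
            rw [hd, Finset.mul_sum, Finset.mul_sum, ← Finset.sum_add_distrib]
            exact Finset.sum_congr rfl (fun a _ => by ring)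
        _ ≤ 2 * (C0 * ‖x‖) + 2 * ∑ _a : Fin 4,
              ((M * (M * (M * (3 / 2)) * (M * (3 / 2)))) * ‖x‖) := by
            gcongr
            exact hbd _
        _ = _ := by
            rw [Finset.sum_const, Finset.card_univ, Fintype.card_fin]
            simp only [nsmul_eq_mul]
            push_cast
            ring
    refine hsum.trans ?_
    rw [div_mul_eq_mul_div, le_div_iff₀ (by positivity)]
    calc (2 * C0 + 8 * (M * (M * (M * (3 / 2)) * (M * (3 / 2))))) * ‖x‖ * (2 * m)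
        = (2 * C0 + 8 * (M * (M * (M * (3 / 2)) * (M * (3 / 2))))) * (2 * m * ‖x‖) := by ring
      _ ≤ (2 * C0 + 8 * (M * (M * (M * (3 / 2)) * (M * (3 / 2))))) * ‖l‖ := by gcongr

end Pool.Agent.Lib.MP_6c284f_gt
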