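import Pool.Agent.Lib.MP_6c284f_gt.Tube

set_option autoImplicit false
set_option maxSynthPendingDepth 5

/-!
The two point boundary value problem for `c'' = K(c, c')` near a solution along which the
differential of `K` vanishes (contraction mapping).
-/

namespace Pool.Agent.Lib.MP_6c284f_gt

open scoped ContDiff Topology unitInterval
open Set MeasureTheory intervalIntegral

/-- the extension of a function on the unit interval -/
private noncomputable def bvpG (g : C(I, E4)) (t : ℝ) : E4 := g (projIcc 0 1 zero_le_one t)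

private noncomputable def bvpP (g : C(I, E4)) (t : ℝ) : E4 := ∫ s in (0 : ℝ)..t, bvpG g s

private noncomputable def bvpb (g : C(I, E4)) : E4 := -∫ s in (0 : ℝ)..1, bvpP g s

private noncomputable def bvpw' (g : C(I, E4)) (t : ℝ) : E4 := bvpb g + bvpP g t

private noncomputable def bvpw (g : C(I, E4)) (t : ℝ) : E4 := ∫ s in (0 : ℝ)..t, bvpw' g s

private theorem bvpG_cont (g : C(I, E4)) : Continuous (bvpG g) :=
  g.continuous.comp continuous_projIcc

private theorem bvpG_le (g : C(I, E4)) (t : ℝ) : ‖bvpG g t‖ ≤ ‖g‖ := g.norm_coe_le_norm _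

private theorem bvpP_deriv (g : C(I, E4)) (t : ℝ) : HasDerivAt (bvpP g) (bvpG g t) t :=
  (bvpG_cont g).integral_hasStrictDerivAt 0 t |>.hasDerivAt

private theorem bvpP_cont (g : C(I, E4)) : Continuous (bvpP g) :=
  continuous_iff_continuousAt.2 fun t => (bvpP_deriv g t).continuousAt

private theorem bvpw'_cont (g : C(I, E4)) : Continuous (bvpw' g) :=
  continuous_const.add (bvpP_cont g)

private theorem bvpw_deriv (g : C(I, E4)) (t : ℝ) : HasDerivAt (bvpw g) (bvpw' g t) t :=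
  (bvpw'_cont g).integral_hasStrictDerivAt 0 t |>.hasDerivAt

private theorem bvpw'_deriv (g : C(I, E4)) (t : ℝ) : HasDerivAt (bvpw' g) (bvpG g t) t :=
  (bvpP_deriv g t).const_add _

private theorem bvpw_cont (g : C(I, E4)) : Continuous (bvpw g) :=
  continuous_iff_continuousAt.2 fun t => (bvpw_deriv g t).continuousAt

private theorem bvpw_zero (g : C(I, E4)) : bvpw g 0 = 0 := by
  simp [bvpw]

private theorem bvpw_one (g : C(I, E4)) : bvpw g 1 = 0 := by
  unfold bvpw bvpw'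
  rw [integral_add (by simp) ((bvpP_cont g).intervalIntegrable _ _), intervalIntegral.integral_const]
  simp [bvpb]

private theorem bvp_int_le {f : ℝ → E4} {M : ℝ} (hM : 0 ≤ M)
    (hf : ∀ t ∈ Icc (0 : ℝ) 1, ‖f t‖ ≤ M) {t : ℝ} (ht : t ∈ Icc (0 : ℝ) 1) :
    ‖∫ s in (0 : ℝ)..t, f s‖ ≤ M := by
  have h := intervalIntegral.norm_integral_le_of_norm_le_const (a := 0) (b := t) (C := M) (f := f)
    (by
      intro x hx
      rw [uIoc_of_le ht.1] at hx
      exact hf x ⟨hx.1.le, hx.2.trans ht.2⟩)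
  refine h.trans ?_
  rw [sub_zero, abs_of_nonneg ht.1]
  nlinarith [ht.2]

private theorem bvpP_le (g : C(I, E4)) {t : ℝ} (ht : t ∈ Icc (0 : ℝ) 1) : ‖bvpP g t‖ ≤ ‖g‖ :=
  bvp_int_le (norm_nonneg _) (fun s _ => bvpG_le g s) ht

private theorem bvpb_le (g : C(I, E4)) : ‖bvpb g‖ ≤ ‖g‖ := by
  unfold bvpb
  rw [norm_neg]
  exact bvp_int_le (norm_nonneg _) (fun s hs => bvpP_le g hs) ⟨zero_le_one, le_refl _⟩

private theorem bvpw'_le (g : C(I, E4)) {t : ℝ} (ht : t ∈ Icc (0 : ℝ) 1) :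
    ‖bvpw' g t‖ ≤ 2 * ‖g‖ := by
  unfold bvpw'
  have := norm_add_le (bvpb g) (bvpP g t)
  linarith [bvpb_le g, bvpP_le g ht]

private theorem bvpw_le (g : C(I, E4)) {t : ℝ} (ht : t ∈ Icc (0 : ℝ) 1) :
    ‖bvpw g t‖ ≤ 2 * ‖g‖ :=
  bvp_int_le (by positivity) (fun s hs => bvpw'_le g hs) ht

private theorem bvpP_sub (g g' : C(I, E4)) (t : ℝ) :
    bvpP (g - g') t = bvpP g t - bvpP g' t := by
  unfold bvpP
  rw [← integral_sub ((bvpG_cont g).intervalIntegrable _ _)
    ((bvpG_cont g').intervalIntegrable _ _)]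
  rfl

private theorem bvpb_sub (g g' : C(I, E4)) : bvpb (g - g') = bvpb g - bvpb g' := by
  unfold bvpb
  have h : ∀ t, bvpP (g - g') t = bvpP g t - bvpP g' t := bvpP_sub g g'
  simp only [h]
  rw [integral_sub ((bvpP_cont g).intervalIntegrable _ _)
    ((bvpP_cont g').intervalIntegrable _ _)]
  abel

private theorem bvpw'_sub (g g' : C(I, E4)) (t : ℝ) :
    bvpw' (g - g') t = bvpw' g t - bvpw' g' t := by
  unfold bvpw'
  rw [bvpb_sub, bvpP_sub]
  abel

private theorem bvpw_sub (g g' : C(I, E4)) (t : ℝ) :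
    bvpw (g - g') t = bvpw g t - bvpw g' t := by
  unfold bvpw
  have h : ∀ t, bvpw' (g - g') t = bvpw' g t - bvpw' g' t := bvpw'_sub g g'
  simp only [h]
  rw [integral_sub ((bvpw'_cont g).intervalIntegrable _ _)
    ((bvpw'_cont g').intervalIntegrable _ _)]

/-- the neighbourhood of the axis on which `K` has small differential -/
private theorem bvp_nhd {K : E4 × E4 → E4} {S : Set (E4 × E4)} (hS : IsOpen S)
    (hK : ContDiffOn ℝ 1 K S) (hax : ∀ t ∈ Icc (0 : ℝ) 1, (t • e0, e0) ∈ S)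
    (h1 : ∀ t ∈ Icc (0 : ℝ) 1, fderiv ℝ K (t • e0, e0) = 0) :
    ∃ r > 0, ∀ t ∈ Icc (0 : ℝ) 1, ∀ p ∈ Metric.ball ((t • e0, e0) : E4 × E4) r,
      p ∈ S ∧ ‖fderiv ℝ K p‖ ≤ 1 / 8 := by
  have hc : ContinuousOn (fun p => ‖fderiv ℝ K p‖) S :=
    (hK.continuousOn_fderiv_of_isOpen hS le_rfl).norm
  have hU : IsOpen (S ∩ (fun p => ‖fderiv ℝ K p‖) ⁻¹' Iio (1 / 8)) :=
    hc.isOpen_inter_preimage hS isOpen_Iio
  have hA : IsCompact ((fun t : ℝ => ((t • e0, e0) : E4 × E4)) '' Icc 0 1) :=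
    isCompact_Icc.image (by fun_prop)
  obtain ⟨δ, hδ, hsub⟩ := hA.exists_thickening_subset_open hU (by
    rintro _ ⟨t, ht, rfl⟩
    refine ⟨hax t ht, ?_⟩
    show ‖fderiv ℝ K (t • e0, e0)‖ < 1 / 8
    rw [h1 t ht, norm_zero]
    norm_num)
  refine ⟨δ, hδ, fun t ht p hp => ?_⟩
  have h2 : p ∈ Metric.thickening δ ((fun t : ℝ => ((t • e0, e0) : E4 × E4)) '' Icc 0 1) :=
    Metric.mem_thickening_iff.2 ⟨_, ⟨t, ht, rfl⟩, hp⟩
  have h3 := hsub h2
  exact ⟨h3.1, le_of_lt h3.2⟩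

/-- the point of the phase space at time `t` -/
private noncomputable def bvpz (q : E4) (g : C(I, E4)) (t : ℝ) : E4 × E4 :=
  (q + t • e0 + bvpw g t, e0 + bvpw' g t)

private theorem bvpz_cont (q : E4) (g : C(I, E4)) : Continuous (bvpz q g) := by
  unfold bvpz
  exact ((continuous_const.add (continuous_id.smul continuous_const)).add (bvpw_cont g)).prodMk
    (continuous_const.add (bvpw'_cont g))

private theorem bvpz_sub (q q' : E4) (g g' : C(I, E4)) {t : ℝ} (ht : t ∈ Icc (0 : ℝ) 1) :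
    ‖bvpz q g t - bvpz q' g' t‖ ≤ ‖q - q'‖ + 2 * ‖g - g'‖ := by
  have e1 : (bvpz q g t - bvpz q' g' t).1 = (q - q') + bvpw (g - g') t := by
    rw [bvpw_sub]
    show q + t • e0 + bvpw g t - (q' + t • e0 + bvpw g' t) = _
    abel
  have e2 : (bvpz q g t - bvpz q' g' t).2 = bvpw' (g - g') t := by
    rw [bvpw'_sub]
    show e0 + bvpw' g t - (e0 + bvpw' g' t) = _
    abel
  rw [Prod.norm_def, e1, e2]
  refine max_le ?_ ?_
  · have := norm_add_le (q - q') (bvpw (g - g') t)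
    linarith [bvpw_le (g - g') ht]
  · linarith [bvpw'_le (g - g') ht, norm_nonneg (q - q')]

private theorem bvpz_ball {r : ℝ} (q : E4) (g : C(I, E4)) (hq : ‖q‖ < r / 4)
    (hg : ‖g‖ ≤ r / 4) {t : ℝ} (ht : t ∈ Icc (0 : ℝ) 1) :
    bvpz q g t ∈ Metric.ball ((t • e0, e0) : E4 × E4) r := by
  have h0 : bvpz 0 (0 : C(I, E4)) t = (t • e0, e0) := by
    have h1 : bvpw (0 : C(I, E4)) t = 0 := by
      have := bvpw_le (0 : C(I, E4)) ht
      rw [norm_zero, mul_zero] at this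
      exact norm_le_zero_iff.1 this
    have h2 : bvpw' (0 : C(I, E4)) t = 0 := by
      have := bvpw'_le (0 : C(I, E4)) ht
      rw [norm_zero, mul_zero] at this
      exact norm_le_zero_iff.1 this
    unfold bvpz
    rw [h1, h2, zero_add, add_zero, add_zero]
  rw [Metric.mem_ball, dist_eq_norm, ← h0]
  have := bvpz_sub q 0 g 0 ht
  rw [sub_zero, sub_zero] at this
  have hr : 0 < r := by linarith [norm_nonneg q]
  linarith

theorem exists_bvp {K : E4 × E4 → E4} {S : Set (E4 × E4)} (hS : IsOpen S)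
    (hK : ContDiffOn ℝ 1 K S) (hax : ∀ t ∈ Icc (0 : ℝ) 1, (t • e0, e0) ∈ S)
    (h0 : ∀ t ∈ Icc (0 : ℝ) 1, K (t • e0, e0) = 0)
    (h1 : ∀ t ∈ Icc (0 : ℝ) 1, fderiv ℝ K (t • e0, e0) = 0) :
    ∃ (ρ k : ℝ) (c : E4 → ℝ → E4), 0 < ρ ∧ 0 < k ∧
      (∀ q, ‖q‖ < ρ → (∀ t ∈ Icc (0 : ℝ) 1, ContDiffAt ℝ 2 (c q) t ∧
        (c q t, deriv (c q) t) ∈ S ∧ deriv (deriv (c q)) t = K (c q t, deriv (c q) t)) ∧
        c q 0 = q ∧ c q 1 = q + e0 ∧
        ∀ t ∈ Icc (0 : ℝ) 1, ‖c q t - t • e0‖ ≤ k * ‖q‖ ∧ ‖deriv (c q) t - e0‖ ≤ k * ‖q‖) ∧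
      (∀ q q', ‖q‖ < ρ → ‖q'‖ < ρ → ∀ t ∈ Icc (0 : ℝ) 1,
        ‖c q t - c q' t‖ ≤ k * ‖q - q'‖ ∧ ‖deriv (c q) t - deriv (c q') t‖ ≤ k * ‖q - q'‖) := by
  obtain ⟨r, hr, hball⟩ := bvp_nhd hS hK hax h1
  -- Lipschitz estimate for `K`
  have hLip : ∀ q q' : E4, ∀ g g' : C(I, E4), ‖q‖ < r / 4 → ‖q'‖ < r / 4 → ‖g‖ ≤ r / 4 →
      ‖g'‖ ≤ r / 4 → ∀ t ∈ Icc (0 : ℝ) 1,
      ‖K (bvpz q g t) - K (bvpz q' g' t)‖ ≤ 1 / 8 * ‖q - q'‖ + 1 / 4 * ‖g - g'‖ := by
    intro q q' g g' hq hq' hg hg' t ht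
    have h2 := (convex_ball ((t • e0, e0) : E4 × E4) r).norm_image_sub_le_of_norm_fderiv_le
      (𝕜 := ℝ) (f := K) (C := 1 / 8)
      (fun p hp => (hK.differentiableOn one_ne_zero).differentiableAt
        (hS.mem_nhds (hball t ht p hp).1))
      (fun p hp => (hball t ht p hp).2) (bvpz_ball q' g' hq' hg' ht) (bvpz_ball q g hq hg ht)
    have h3 := bvpz_sub q q' g g' ht
    linarith
  have hzero : ∀ t ∈ Icc (0 : ℝ) 1, K (bvpz 0 (0 : C(I, E4)) t) = 0 := by
    intro t ht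
    have h2 : bvpw (0 : C(I, E4)) t = 0 := by
      have := bvpw_le (0 : C(I, E4)) ht
      rw [norm_zero, mul_zero] at this
      exact norm_le_zero_iff.1 this
    have h3 : bvpw' (0 : C(I, E4)) t = 0 := by
      have := bvpw'_le (0 : C(I, E4)) ht
      rw [norm_zero, mul_zero] at this
      exact norm_le_zero_iff.1 this
    unfold bvpz
    rw [h2, h3, zero_add, add_zero, add_zero]
    exact h0 t ht
  have hself : ∀ q : E4, ∀ g : C(I, E4), ‖q‖ < r / 4 → ‖g‖ ≤ r / 4 → ∀ t ∈ Icc (0 : ℝ) 1,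
      ‖K (bvpz q g t)‖ ≤ 1 / 8 * ‖q‖ + 1 / 4 * ‖g‖ := by
    intro q g hq hg t ht
    have h2 := hLip q 0 g 0 hq (by rw [norm_zero]; positivity) hg (by rw [norm_zero]; positivity)
      t ht
    rwa [hzero t ht, sub_zero, sub_zero, sub_zero] at h2
  -- the fixed point
  have hfix : ∀ q : E4, ‖q‖ < r / 4 → ∃ g : C(I, E4), ‖g‖ ≤ r / 4 ∧
      ∀ t : I, g t = K (bvpz q g t) := by
    intro q hq
    have hcont : ∀ g : Metric.closedBall (0 : C(I, E4)) (r / 4),
        Continuous fun t : I => K (bvpz q g.1 t) := by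
      intro g
      have hg : ‖g.1‖ ≤ r / 4 := mem_closedBall_zero_iff.1 g.2
      refine hK.continuousOn.comp_continuous ((bvpz_cont q g.1).comp continuous_subtype_val) ?_
      intro t
      exact (hball t t.2 _ (bvpz_ball q g.1 hq hg t.2)).1
    set N : Metric.closedBall (0 : C(I, E4)) (r / 4) → Metric.closedBall (0 : C(I, E4)) (r / 4) :=
      fun g => ⟨⟨fun t : I => K (bvpz q g.1 t), hcont g⟩, by
        have hg : ‖g.1‖ ≤ r / 4 := mem_closedBall_zero_iff.1 g.2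
        rw [mem_closedBall_zero_iff]
        refine (ContinuousMap.norm_le _ (by positivity)).2 fun t => ?_
        have := hself q g.1 hq hg t t.2
        show ‖K (bvpz q g.1 t)‖ ≤ r / 4
        linarith⟩ with hN
    have : CompleteSpace (Metric.closedBall (0 : C(I, E4)) (r / 4)) :=
      Metric.isClosed_closedBall.completeSpace_coe
    have : Nonempty (Metric.closedBall (0 : C(I, E4)) (r / 4)) :=
      ⟨⟨0, Metric.mem_closedBall_self (by positivity)⟩⟩
    have hcontr : ContractingWith (1 / 4) N := by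
      refine ⟨by norm_num, LipschitzWith.of_dist_le_mul fun g g' => ?_⟩
      have hg : ‖g.1‖ ≤ r / 4 := mem_closedBall_zero_iff.1 g.2
      have hg' : ‖g'.1‖ ≤ r / 4 := mem_closedBall_zero_iff.1 g'.2
      rw [Subtype.dist_eq, Subtype.dist_eq, dist_eq_norm, dist_eq_norm]
      refine (ContinuousMap.norm_le _ (by positivity)).2 fun t => ?_
      have h2 := hLip q q g.1 g'.1 hq hq hg hg' t t.2
      rw [sub_self, norm_zero] at h2
      show ‖K (bvpz q g.1 t) - K (bvpz q g'.1 t)‖ ≤ _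
      have h3 : ((1 / 4 : NNReal) : ℝ) = 1 / 4 := by norm_num
      rw [h3]
      linarith
    have hfp := hcontr.fixedPoint_isFixedPt
    set g := ContractingWith.fixedPoint N hcontr with hg
    refine ⟨g.1, mem_closedBall_zero_iff.1 g.2, fun t => ?_⟩
    have h2 : (N g).1 t = g.1 t := by rw [hfp]
    exact h2.symm
  classical
  have hfix' : ∀ q : E4, ∃ g : C(I, E4), ‖q‖ < r / 4 → (‖g‖ ≤ r / 4 ∧
      ∀ t : I, g t = K (bvpz q g t)) := by
    intro q
    by_cases hq : ‖q‖ < r / 4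
    · obtain ⟨g, hg⟩ := hfix q hq
      exact ⟨g, fun _ => hg⟩
    · exact ⟨0, fun h => absurd h hq⟩
  choose g hg using hfix'
  have hgG : ∀ q, ‖q‖ < r / 4 → ∀ t ∈ Icc (0 : ℝ) 1, bvpG (g q) t = K (bvpz q (g q) t) := by
    intro q hq t ht
    have h2 := (hg q hq).2 ⟨t, ht⟩
    unfold bvpG
    rw [projIcc_of_mem zero_le_one ht]
    exact h2
  have hgl : ∀ q q', ‖q‖ < r / 4 → ‖q'‖ < r / 4 → ‖g q - g q'‖ ≤ ‖q - q'‖ := by
    intro q q' hq hq'
    have h2 : ‖g q - g q'‖ ≤ 1 / 8 * ‖q - q'‖ + 1 / 4 * ‖g q - g q'‖ := by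
      refine (ContinuousMap.norm_le _ (by positivity)).2 fun t => ?_
      have h3 := hLip q q' (g q) (g q') hq hq' (hg q hq).1 (hg q' hq').1 t t.2
      rw [← (hg q hq).2 t, ← (hg q' hq').2 t] at h3
      exact h3
    linarith [norm_nonneg (q - q')]
  have hgn : ∀ q, ‖q‖ < r / 4 → ‖g q‖ ≤ ‖q‖ := by
    intro q hq
    have h2 : ‖g q‖ ≤ 1 / 8 * ‖q‖ + 1 / 4 * ‖g q‖ := by
      refine (ContinuousMap.norm_le _ (by positivity)).2 fun t => ?_
      have h3 := hself q (g q) hq (hg q hq).1 t t.2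
      rw [← (hg q hq).2 t] at h3
      exact h3
    linarith [norm_nonneg q]
  set c : E4 → ℝ → E4 := fun q t => q + t • e0 + bvpw (g q) t with hc
  have hcd : ∀ q t, HasDerivAt (c q) (e0 + bvpw' (g q) t) t := by
    intro q t
    have h2 : HasDerivAt (fun t : ℝ => q + t • e0) e0 t := by
      have h3 := ((hasDerivAt_id t).smul_const e0).const_add q
      simpa using h3
    exact h2.add (bvpw_deriv (g q) t)
  have hcd' : ∀ q, deriv (c q) = fun t => e0 + bvpw' (g q) t := fun q =>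
    funext fun t => (hcd q t).deriv
  have hcd2 : ∀ q t, HasDerivAt (deriv (c q)) (bvpG (g q) t) t := by
    intro q t
    rw [hcd' q]
    exact (bvpw'_deriv (g q) t).const_add _
  have hcz : ∀ q t, ((c q t, deriv (c q) t) : E4 × E4) = bvpz q (g q) t := by
    intro q t
    rw [hcd' q]
    rfl
  have hC2 : ∀ q, ContDiff ℝ 2 (c q) := by
    intro q
    have h2 : ContDiff ℝ 1 (deriv (c q)) := by
      rw [contDiff_one_iff_deriv]
      refine ⟨fun t => (hcd2 q t).differentiableAt, ?_⟩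
      have h3 : deriv (deriv (c q)) = bvpG (g q) := funext fun t => (hcd2 q t).deriv
      rw [h3]
      exact bvpG_cont _
    have h3 : ContDiff ℝ (1 + 1) (c q) := by
      rw [contDiff_succ_iff_deriv]
      exact ⟨fun t => (hcd q t).differentiableAt, by simp, h2⟩
    have h4 : ((1 : WithTop ℕ∞) + 1) = 2 := by norm_num
    rwa [h4] at h3
  refine ⟨r / 4, 3, c, by positivity, by norm_num, ?_, ?_⟩
  · intro q hq
    refine ⟨fun t ht => ⟨(hC2 q).contDiffAt, ?_, ?_⟩, ?_, ?_, fun t ht => ?_⟩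
    · rw [hcz]
      exact (hball t ht _ (bvpz_ball q (g q) hq (hg q hq).1 ht)).1
    · rw [hcz, (hcd2 q t).deriv]
      exact hgG q hq t ht
    · simp [hc, bvpw_zero]
    · simp [hc, bvpw_one]
    · have hn := hgn q hq
      have hq0 := norm_nonneg q
      constructor
      · have h2 : c q t - t • e0 = q + bvpw (g q) t := by
          simp only [hc]
          abel
        rw [h2]
        have := norm_add_le q (bvpw (g q) t)
        linarith [bvpw_le (g q) ht]
      · rw [hcd' q]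
        simp only [add_sub_cancel_left]
        linarith [bvpw'_le (g q) ht]
  · intro q q' hq hq' t ht
    have hn := hgl q q' hq hq'
    have h2 := bvpz_sub q q' (g q) (g q') ht
    rw [← hcz, ← hcz, Prod.norm_def] at h2
    have h3 := max_le_iff.1 h2
    constructor
    · have := h3.1
      simp only [Prod.fst_sub] at this
      linarith
    · have := h3.2
      simp only [Prod.snd_sub] at this
      linarith

end Pool.Agent.Lib.MP_6c284f_gt
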