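import Pool.Agent.Lib.MP_6c284f_gt.TubeMap

set_option autoImplicit false
set_option maxSynthPendingDepth 5

/-!
Changes of charts: smoothness, invertibility of derivatives.
-/

namespace Pool.Agent.Lib.MP_6c284f_gt

open scoped Manifold ContDiff Topology
open Set Metric

variable {X : Type} [TopologicalSpace X] [ChartedSpace C2 X]

/-- changes of charts are smooth -/
theorem mt_trans (hX : IsManifold 𝓘(ℝ, C2) ∞ X) {e e' : OpenPartialHomeomorph X C2}
    (he : e ∈ atlas C2 X) (he' : e' ∈ atlas C2 X) {x : X} (hx : x ∈ e.source)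
    (hx' : x ∈ e'.source) : ContDiffAt ℝ ∞ (e' ∘ e.symm) (e x) := by
  have hcomp : (e.symm.trans e') ∈ contDiffGroupoid ∞ 𝓘(ℝ, C2) := HasGroupoid.compatible he he'
  rw [contDiffGroupoid, mem_groupoid_of_pregroupoid, contDiffPregroupoid] at hcomp
  have h1 : ContDiffOn ℝ ∞ (e' ∘ e.symm) (e.symm.trans e').source := by simpa using hcomp.1
  refine h1.contDiffAt ((e.symm.trans e').open_source.mem_nhds ?_)
  simp only [OpenPartialHomeomorph.trans_source, mem_inter_iff, mem_preimage]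
  refine ⟨e.map_source hx, ?_⟩
  rw [e.left_inv hx]
  exact hx'

theorem mt_trans_inv (hX : IsManifold 𝓘(ℝ, C2) ∞ X) {e e' : OpenPartialHomeomorph X C2}
    (he : e ∈ atlas C2 X) (he' : e' ∈ atlas C2 X) {x : X} (hx : x ∈ e.source)
    (hx' : x ∈ e'.source) : (fderiv ℝ (e' ∘ e.symm) (e x)).IsInvertible := by
  have h1 := mt_trans hX he he' hx hx'
  have h2 := mt_trans hX he' he hx' hx
  have hd1 : DifferentiableAt ℝ (e' ∘ e.symm) (e x) := h1.differentiableAt (by simp)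
  have hd2 : DifferentiableAt ℝ (e ∘ e'.symm) (e' x) := h2.differentiableAt (by simp)
  have hv1 : (e' ∘ e.symm) (e x) = e' x := by simp [e.left_inv hx]
  have hv2 : (e ∘ e'.symm) (e' x) = e x := by simp [e'.left_inv hx']
  have hid1 : fderiv ℝ (e ∘ e'.symm) (e' x) ∘L fderiv ℝ (e' ∘ e.symm) (e x) =
      ContinuousLinearMap.id ℝ C2 := by
    have h3 : fderiv ℝ ((e ∘ e'.symm) ∘ (e' ∘ e.symm)) (e x) =
        fderiv ℝ (e ∘ e'.symm) ((e' ∘ e.symm) (e x)) ∘L fderiv ℝ (e' ∘ e.symm) (e x) :=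
      fderiv_comp _ (by rw [hv1]; exact hd2) hd1
    rw [hv1] at h3
    rw [← h3]
    have h4 : ((e ∘ e'.symm) ∘ (e' ∘ e.symm)) =ᶠ[𝓝 (e x)] id := by
      have h5 : ∀ᶠ y in 𝓝 (e x), y ∈ (e.symm.trans e').source :=
        (e.symm.trans e').open_source.mem_nhds (by
          simp only [OpenPartialHomeomorph.trans_source, mem_inter_iff, mem_preimage]
          refine ⟨e.map_source hx, ?_⟩
          rw [e.left_inv hx]
          exact hx')
      filter_upwards [h5] with y hy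
      simp only [OpenPartialHomeomorph.trans_source, mem_inter_iff, mem_preimage] at hy
      show e (e'.symm (e' (e.symm y))) = y
      rw [e'.left_inv hy.2, e.right_inv hy.1]
    rw [h4.fderiv_eq, fderiv_id]
  have hid2 : fderiv ℝ (e' ∘ e.symm) (e x) ∘L fderiv ℝ (e ∘ e'.symm) (e' x) =
      ContinuousLinearMap.id ℝ C2 := by
    have h3 : fderiv ℝ ((e' ∘ e.symm) ∘ (e ∘ e'.symm)) (e' x) =
        fderiv ℝ (e' ∘ e.symm) ((e ∘ e'.symm) (e' x)) ∘L fderiv ℝ (e ∘ e'.symm) (e' x) :=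
      fderiv_comp _ (by rw [hv2]; exact hd1) hd2
    rw [hv2] at h3
    rw [← h3]
    have h4 : ((e' ∘ e.symm) ∘ (e ∘ e'.symm)) =ᶠ[𝓝 (e' x)] id := by
      have h5 : ∀ᶠ y in 𝓝 (e' x), y ∈ (e'.symm.trans e).source :=
        (e'.symm.trans e).open_source.mem_nhds (by
          simp only [OpenPartialHomeomorph.trans_source, mem_inter_iff, mem_preimage]
          refine ⟨e'.map_source hx', ?_⟩
          rw [e'.left_inv hx']
          exact hx)
      filter_upwards [h5] with y hy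
      simp only [OpenPartialHomeomorph.trans_source, mem_inter_iff, mem_preimage] at hy
      show e' (e.symm (e (e'.symm y))) = y
      rw [e.left_inv hy.2, e'.right_inv hy.1]
    rw [h4.fderiv_eq, fderiv_id]
  refine ⟨ContinuousLinearEquiv.equivOfInverse (fderiv ℝ (e' ∘ e.symm) (e x))
    (fderiv ℝ (e ∘ e'.symm) (e' x)) (fun v => ?_) (fun v => ?_), ?_⟩
  · exact congrArg (fun f : C2 →L[ℝ] C2 => f v) hid1
  · exact congrArg (fun f : C2 →L[ℝ] C2 => f v) hid2
  · ext v : 1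
    rfl

/-- smoothness of a map into the manifold in a chart of the atlas -/
theorem mt_chart_smooth (hX : IsManifold 𝓘(ℝ, C2) ∞ X) {Φ : E4 → X} {z : E4}
    (hΦ : ContMDiffAt 𝓘(ℝ, E4) 𝓘(ℝ, C2) ∞ Φ z) {e : OpenPartialHomeomorph X C2}
    (he : e ∈ atlas C2 X) (hz : Φ z ∈ e.source) : ContDiffAt ℝ ∞ (e ∘ Φ) z := by
  have h1 : ContMDiffAt 𝓘(ℝ, C2) 𝓘(ℝ, C2) ∞ e (Φ z) :=
    contMDiffAt_of_mem_maximalAtlas (IsManifold.subset_maximalAtlas he) hz
  exact (ContMDiffAt.comp z h1 hΦ).contDiffAt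

/-- invertibility of the derivative does not depend on the chart -/
theorem mt_inv_chart (hX : IsManifold 𝓘(ℝ, C2) ∞ X) {Φ : E4 → X} {z : E4}
    (hΦ : ContMDiffAt 𝓘(ℝ, E4) 𝓘(ℝ, C2) ∞ Φ z) {e e' : OpenPartialHomeomorph X C2}
    (he : e ∈ atlas C2 X) (he' : e' ∈ atlas C2 X) (hz : Φ z ∈ e.source)
    (hz' : Φ z ∈ e'.source) (h : (fderiv ℝ (e ∘ Φ) z).IsInvertible) :
    (fderiv ℝ (e' ∘ Φ) z).IsInvertible := by
  have h1 := mt_chart_smooth hX hΦ he hz
  have h2 := mt_trans hX he he' hz hz'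
  have h3 : (e' ∘ Φ) =ᶠ[𝓝 z] (e' ∘ e.symm) ∘ (e ∘ Φ) := by
    have h4 : ∀ᶠ y in 𝓝 z, Φ y ∈ e.source :=
      hΦ.continuousAt.eventually_mem (e.open_source.mem_nhds hz)
    filter_upwards [h4] with y hy
    show e' (Φ y) = e' (e.symm (e (Φ y)))
    rw [e.left_inv hy]
  have h5 : fderiv ℝ (e' ∘ Φ) z =
      fderiv ℝ (e' ∘ e.symm) (e (Φ z)) ∘L fderiv ℝ (e ∘ Φ) z := by
    rw [h3.fderiv_eq]
    exact fderiv_comp z (h2.differentiableAt (by simp)) (h1.differentiableAt (by simp))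
  rw [h5]
  exact (mt_trans_inv hX he he' hz hz').comp h

end Pool.Agent.Lib.MP_6c284f_gt
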