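import Mathlib

set_option autoImplicit false

/-!
Definitions for the theorem on closed geodesics of Ricci-flat K3 surfaces.
-/

namespace Pool.Agent.Lib.MP_6c284f_gt

open scoped Manifold ContDiff Topology ComplexConjugate Matrix
open Set

/-- The model space of complex surfaces. -/
abbrev C2 : Type := Fin 2 → ℂ

/-- The Wirtinger derivative with respect to the coordinate `z_k`. -/
noncomputable def dz (k : Fin 2) (f : C2 → ℂ) (z : C2) : ℂ :=
  (fderiv ℝ f z (Pi.single k 1) - Complex.I * fderiv ℝ f z (Pi.single k Complex.I)) / 2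

/-- The Wirtinger derivative with respect to the conjugate coordinate. -/
noncomputable def dzbar (k : Fin 2) (f : C2 → ℂ) (z : C2) : ℂ :=
  (fderiv ℝ f z (Pi.single k 1) + Complex.I * fderiv ℝ f z (Pi.single k Complex.I)) / 2

section

variable {X : Type} [TopologicalSpace X]

/-- The holomorphic Jacobian matrix of the change of charts from `e` to `e'`,
`jac e e' z k i` is the derivative of the `k`-th coordinate in the direction `i`. -/
noncomputable def jac (e e' : OpenPartialHomeomorph X C2) (z : C2) : Matrix (Fin 2) (Fin 2) ℂ :=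
  fun k i => fderiv ℂ (e' ∘ e.symm) z (Pi.single i 1) k

variable (X) [ChartedSpace C2 X]

/-- A Kähler metric on a complex surface, given in every chart of the atlas by its matrix
`h_{i \bar j}`: a smooth function whose values are positive definite Hermitian matrices, with the
transformation law of a Hermitian metric, and such that the associated two-form is closed. -/
structure KahlerMetric where
  /-- the matrix of the metric in a chart -/
  mat : OpenPartialHomeomorph X C2 → C2 → Matrix (Fin 2) (Fin 2) ℂ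
  smooth : ∀ e ∈ atlas C2 X, ∀ i j, ContDiffOn ℝ ∞ (fun z => mat e z i j) e.target
  hermitian : ∀ e ∈ atlas C2 X, ∀ z ∈ e.target, (mat e z).IsHermitian
  pos : ∀ e ∈ atlas C2 X, ∀ z ∈ e.target, ∀ v : C2, v ≠ 0 →
    0 < (∑ i, ∑ j, mat e z i j * v i * conj (v j)).re
  compat : ∀ e ∈ atlas C2 X, ∀ e' ∈ atlas C2 X, ∀ x ∈ e.source ∩ e'.source,
    mat e (e x) = (jac e e' (e x))ᵀ * mat e' (e' x) * (jac e e' (e x)).map conj
  closed : ∀ e ∈ atlas C2 X, ∀ z ∈ e.target, ∀ i j k,
    dz k (fun z => mat e z i j) z = dz i (fun z => mat e z k j) z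

/-- A holomorphic two-form on a complex surface, given in every chart of the atlas by its
coefficient with respect to `dz_1 ∧ dz_2`. -/
structure HolomorphicTwoForm where
  /-- the coefficient in a chart -/
  coef : OpenPartialHomeomorph X C2 → C2 → ℂ
  holo : ∀ e ∈ atlas C2 X, ContDiffOn ℂ ω (coef e) e.target
  compat : ∀ e ∈ atlas C2 X, ∀ e' ∈ atlas C2 X, ∀ x ∈ e.source ∩ e'.source,
    coef e (e x) = coef e' (e' x) * (jac e e' (e x)).det

/-- A K3 surface: a compact, simply connected complex surface with trivial canonical bundle,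
that is, with a holomorphic two-form without zeros. -/
structure IsK3 : Prop where
  complex : IsManifold 𝓘(ℂ, C2) ω X
  hausdorff : T2Space X
  compact : CompactSpace X
  simplyConnected : SimplyConnectedSpace X
  trivialCanonical : ∃ Ω : HolomorphicTwoForm X,
    ∀ e ∈ atlas C2 X, ∀ z ∈ e.target, Ω.coef e z ≠ 0

variable {X}

/-- The Ricci form of the metric vanishes: in every chart, all mixed second derivatives
`∂_i ∂_{\bar j} log det h` are zero. -/
def KahlerMetric.RicciFlat (g : KahlerMetric X) : Prop :=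
  ∀ e ∈ atlas C2 X, ∀ z ∈ e.target, ∀ i j : Fin 2,
    dz i (fun y => dzbar j (fun x => ((Real.log ((g.mat e x).det.re) : ℝ) : ℂ)) y) z = 0

/-- The Riemannian scalar product `Re h(v, w)` of two tangent vectors at the point with
coordinates `z` in the chart `e`. -/
noncomputable def KahlerMetric.inner (g : KahlerMetric X) (e : OpenPartialHomeomorph X C2)
    (z v w : C2) : ℝ :=
  (∑ i, ∑ j, g.mat e z i j * v i * conj (w j)).re

/-- The speed of a curve at time `t`. -/
noncomputable def KahlerMetric.speed (g : KahlerMetric X) (c : ℝ → X) (t : ℝ) : ℝ :=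
  Real.sqrt (g.inner (chartAt C2 (c t)) (chartAt C2 (c t) (c t))
    (deriv (chartAt C2 (c t) ∘ c) t) (deriv (chartAt C2 (c t) ∘ c) t))

/-- The length of a curve on the interval `[0,1]`. -/
noncomputable def KahlerMetric.length (g : KahlerMetric X) (c : ℝ → X) : ℝ :=
  ∫ t in (0 : ℝ)..1, g.speed c t

/-- The periodic map on the line defined by a closed curve, parametrised by the circle `ℝ/ℤ`. -/
def lift (c : C(UnitAddCircle, X)) (t : ℝ) : X := c (t : UnitAddCircle)

/-- A curve is piecewise continuously differentiable on `[0,1]`. -/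
def PiecewiseC1 (c : ℝ → X) : Prop :=
  ∃ (n : ℕ) (s : ℕ → ℝ), Monotone s ∧ s 0 = 0 ∧ s n = 1 ∧
    ∀ i < n, ContMDiffOn 𝓘(ℝ, ℝ) 𝓘(ℝ, C2) 1 c (Icc (s i) (s (i + 1)))

/-- A closed geodesic: a non-constant smooth closed curve which satisfies in every chart the
geodesic equation of the Kähler metric,
`h_{k \bar l} z_k'' + ∂_i h_{j \bar l} z_i' z_j' = 0` for all `l`
(that is, `z_k'' + Γ^k_{ij} z_i' z_j' = 0` with `Γ^k_{ij} = h^{k \bar l} ∂_i h_{j \bar l}`). -/
structure KahlerMetric.IsClosedGeodesic (g : KahlerMetric X) (γ : C(UnitAddCircle, X)) :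
    Prop where
  smooth : ContMDiff 𝓘(ℝ, ℝ) 𝓘(ℝ, C2) ∞ (lift γ)
  nonconst : ¬ ∃ x, ∀ t, γ t = x
  geodesic : ∀ e ∈ atlas C2 X, ∀ t : ℝ, lift γ t ∈ e.source → ∀ l : Fin 2,
    ∑ k, g.mat e (e (lift γ t)) k l * deriv (deriv (e ∘ lift γ)) t k
      + ∑ i, ∑ j, dz i (fun z => g.mat e z j l) (e (lift γ t)) *
        deriv (e ∘ lift γ) t i * deriv (e ∘ lift γ) t j = 0

/-- A closed curve `γ` is locally length minimizing if it has a neighbourhood in the space of
closed curves with the `C⁰` topology in which no (piecewise `C¹`) closed curve is shorter. -/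
def KahlerMetric.LocallyLengthMinimizing (g : KahlerMetric X) (γ : C(UnitAddCircle, X)) : Prop :=
  ∃ U ∈ 𝓝 γ, ∀ c ∈ U, PiecewiseC1 (lift c) → g.length (lift γ) ≤ g.length (lift c)

end

end Pool.Agent.Lib.MP_6c284f_gt
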