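import Mathlib

set_option autoImplicit false

/-!
Local hyperkähler data on open subsets of real normed spaces: a metric, its connection, and
three parallel complex structures. Curvature and pullback relation.
-/

namespace Pool.Agent.Lib.MP_6c284f_gt

open scoped ContDiff Topology
open Set

/-- A metric `G`, a connection `Γ` and endomorphisms `I a` (with `I 0 = id`). -/
structure HKData (V : Type) [NormedAddCommGroup V] [NormedSpace ℝ V] where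
  G : V → V →L[ℝ] V →L[ℝ] ℝ
  Γ : V → V →L[ℝ] V →L[ℝ] V
  I : Fin 4 → V → V →L[ℝ] V

section

variable {V : Type} [NormedAddCommGroup V] [NormedSpace ℝ V]
variable {V' : Type} [NormedAddCommGroup V'] [NormedSpace ℝ V']

/-- The data are hyperkähler on the open set `W`. -/
structure IsHK (D : HKData V) (W : Set V) : Prop where
  isOpen : IsOpen W
  smoothG : ContDiffOn ℝ ∞ D.G W
  smoothΓ : ContDiffOn ℝ ∞ D.Γ W
  smoothI : ∀ a, ContDiffOn ℝ ∞ (D.I a) W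
  symm : ∀ z ∈ W, ∀ u v, D.G z u v = D.G z v u
  pos : ∀ z ∈ W, ∀ v, v ≠ 0 → 0 < D.G z v v
  tors : ∀ z ∈ W, ∀ u v, D.Γ z u v = D.Γ z v u
  compat : ∀ z ∈ W, ∀ u v w,
    fderiv ℝ D.G z u v w = D.G z (D.Γ z u v) w + D.G z v (D.Γ z u w)
  I0 : ∀ z ∈ W, ∀ v, D.I 0 z v = v
  I11 : ∀ z ∈ W, ∀ v, D.I 1 z (D.I 1 z v) = -v
  I22 : ∀ z ∈ W, ∀ v, D.I 2 z (D.I 2 z v) = -v
  I12 : ∀ z ∈ W, ∀ v, D.I 1 z (D.I 2 z v) = D.I 3 z v
  I21 : ∀ z ∈ W, ∀ v, D.I 2 z (D.I 1 z v) = -D.I 3 z v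
  orth : ∀ a, ∀ z ∈ W, ∀ u v, D.G z (D.I a z u) (D.I a z v) = D.G z u v
  par : ∀ a, ∀ z ∈ W, ∀ u v,
    fderiv ℝ (D.I a) z u v + D.Γ z u (D.I a z v) = D.I a z (D.Γ z u v)

/-- The curvature `R(u,v)w` of the connection `Γ` at the point `z`. -/
noncomputable def curv (Γ : V → V →L[ℝ] V →L[ℝ] V) (z u v w : V) : V :=
  fderiv ℝ Γ z u v w - fderiv ℝ Γ z v u w + Γ z u (Γ z v w) - Γ z v (Γ z u w)

/-- The data `D'` are at the point `z` the pullback of the data `D` by the map `Φ`. -/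
structure HKRel (D' : HKData V') (D : HKData V) (Φ : V' → V) (z : V') : Prop where
  G : ∀ u v, D'.G z u v = D.G (Φ z) (fderiv ℝ Φ z u) (fderiv ℝ Φ z v)
  Γ : ∀ u v, fderiv ℝ Φ z (D'.Γ z u v) =
    D.Γ (Φ z) (fderiv ℝ Φ z u) (fderiv ℝ Φ z v) + fderiv ℝ (fderiv ℝ Φ) z u v
  I : ∀ a v, fderiv ℝ Φ z (D'.I a z v) = D.I a (Φ z) (fderiv ℝ Φ z v)

end

end Pool.Agent.Lib.MP_6c284f_gt
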