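import Pool.Agent.Lib.MP_6c284f_gt.HK

set_option autoImplicit false

/-!
Definitions for the analysis in a tube around a closed geodesic.
-/

namespace Pool.Agent.Lib.MP_6c284f_gt

open scoped ContDiff Topology
open Set

/-- four-dimensional Euclidean space -/
abbrev E4 : Type := EuclideanSpace ℝ (Fin 4)

/-- the first basis vector, the direction of the closed geodesic -/
noncomputable def e0 : E4 := EuclideanSpace.single 0 1

section

variable {V : Type} [NormedAddCommGroup V] [NormedSpace ℝ V]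

/-- the energy of a curve on `[0,1]` -/
noncomputable def energy (G : V → V →L[ℝ] V →L[ℝ] ℝ) (c : ℝ → V) : ℝ :=
  ∫ t in (0 : ℝ)..1, G (c t) (deriv c t) (deriv c t)

/-- the covariant derivative of the field `X` along the curve `c` -/
noncomputable def covD (Γ : V → V →L[ℝ] V →L[ℝ] V) (c X : ℝ → V) (t : ℝ) : V :=
  deriv X t + Γ (c t) (deriv c t) (X t)

/-- the curve `c` is a (twice differentiable) geodesic in `W` on `[0,1]` -/
structure IsGeod (D : HKData V) (W : Set V) (c : ℝ → V) : Prop where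
  smooth : ∀ t ∈ Icc (0 : ℝ) 1, ContDiffAt ℝ 2 c t
  mem : ∀ t ∈ Icc (0 : ℝ) 1, c t ∈ W
  eq : ∀ t ∈ Icc (0 : ℝ) 1, deriv (deriv c) t = -D.Γ (c t) (deriv c t) (deriv c t)

end

/-- Hyperkähler data in a tube around the segment from `0` to `e0`, periodic near the ends,
standard along the axis. -/
structure IsTube (D : HKData E4) (W : Set E4) (ε : ℝ) : Prop where
  hk : IsHK D W
  εpos : 0 < ε
  axis : ∀ t ∈ Ioo (-ε) (1 + ε), t • e0 ∈ W
  axisG : ∀ t ∈ Ioo (-ε) (1 + ε), ∀ v w, D.G (t • e0) v w = inner ℝ v w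
  axisΓ : ∀ t ∈ Ioo (-ε) (1 + ε), ∀ v, D.Γ (t • e0) e0 v = 0
  perW : ∀ z : E4, ‖z‖ < ε → z ∈ W ∧ z + e0 ∈ W
  perG : ∀ z : E4, ‖z‖ < ε → D.G (z + e0) = D.G z
  perΓ : ∀ z : E4, ‖z‖ < ε → D.Γ (z + e0) = D.Γ z
  perI : ∀ z : E4, ‖z‖ < ε → ∀ a, D.I a (z + e0) = D.I a z

/-- The axis has least energy among the loops in the tube that are `δ`-close to it. -/
def IsLM (D : HKData E4) (W : Set E4) (δ : ℝ) : Prop :=
  ∀ c : ℝ → E4, (∀ t ∈ Icc (0 : ℝ) 1, ContDiffAt ℝ 1 c t) → c 1 = c 0 + e0 →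
    (∀ t ∈ Icc (0 : ℝ) 1, c t ∈ W ∧ ‖c t - t • e0‖ < δ) → 1 ≤ energy D.G c

end Pool.Agent.Lib.MP_6c284f_gt
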