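import Pool.Agent.Lib.MP_6c284f_gt.Defs
import Pool.Agent.Lib.MP_6c284f_gt.HK
import Pool.Agent.Lib.MP_6c284f_gt.Tube

set_option autoImplicit false
set_option maxSynthPendingDepth 5

/-!
Hyperkähler data on a manifold with charts in `C2`.
-/

namespace Pool.Agent.Lib.MP_6c284f_gt

open scoped Manifold ContDiff Topology ComplexConjugate Matrix
open Set

variable (X : Type) [TopologicalSpace X] [ChartedSpace C2 X]

/-- hyperkähler data in every chart, compatible with the changes of charts -/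
structure ManHK where
  D : OpenPartialHomeomorph X C2 → HKData C2
  isHK : ∀ e ∈ atlas C2 X, IsHK (D e) e.target
  rel : ∀ e ∈ atlas C2 X, ∀ e' ∈ atlas C2 X, ∀ x ∈ e.source ∩ e'.source,
    HKRel (D e) (D e') (e' ∘ e.symm) (e x)

variable {X}

/-- the changes of charts of a complex surface are smooth -/
theorem isManifold_real (h : IsManifold 𝓘(ℂ, C2) ω X) : IsManifold 𝓘(ℝ, C2) ∞ X := by
  apply isManifold_of_contDiffOn
  intro e e' he he'
  have h1 := h.compatible he he'
  rw [contDiffGroupoid, mem_groupoid_of_pregroupoid] at h1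
  have h2 : ContDiffOn ℂ ω (𝓘(ℂ, C2) ∘ (e.symm ≫ₕ e') ∘ 𝓘(ℂ, C2).symm)
      (𝓘(ℂ, C2).symm ⁻¹' (e.symm ≫ₕ e').source ∩ range 𝓘(ℂ, C2)) := h1.1
  have h3 := (h2.restrict_scalars ℝ).of_le (le_top : (∞ : WithTop ℕ∞) ≤ ω)
  simpa only [modelWithCornersSelf_coe, modelWithCornersSelf_coe_symm, Function.id_comp,
    Function.comp_id, preimage_id_eq, id_eq, range_id, inter_univ] using h3

/-- the curvature vanishes at the point `x` -/
def ManHK.FlatAt (M : ManHK X) (x : X) : Prop :=
  ∀ e ∈ atlas C2 X, x ∈ e.source → ∀ u v w, curv (M.D e).Γ (e x) u v w = 0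

end Pool.Agent.Lib.MP_6c284f_gt
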