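import Pool.Agent.Lib.MP_6c284f_gt.Defs

set_option autoImplicit false
set_option maxSynthPendingDepth 5

/-!
The logarithm of the absolute value of a holomorphic function without zeros is pluriharmonic.
-/

namespace Pool.Agent.Lib.MP_6c284f_gt

open scoped Manifold ContDiff Topology ComplexConjugate Matrix
open Set

theorem NormB_single (j : Fin 2) :
    (Pi.single j Complex.I : C2) = Complex.I • (Pi.single j (1 : ℂ) : C2) := by
  rw [← Pi.single_smul, smul_eq_mul, mul_one]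

theorem NormB_conj {h : C2 → ℂ} {z : C2} (hh : DifferentiableAt ℂ h z) :
    HasFDerivAt (𝕜 := ℝ) (fun y => conj (h y))
      ((Complex.conjCLE : ℂ →L[ℝ] ℂ).comp ((fderiv ℂ h z).restrictScalars ℝ)) z :=
  (Complex.conjCLE : ℂ →L[ℝ] ℂ).hasFDerivAt.comp z (hh.hasFDerivAt.restrictScalars ℝ)

theorem NormB_dz {h : C2 → ℂ} {z : C2} (hh : DifferentiableAt ℂ h z) (i : Fin 2) :
    dz i (fun y => conj (h y)) z = 0 := by
  unfold dz
  rw [(NormB_conj hh).fderiv, NormB_single]
  simp only [ContinuousLinearMap.comp_apply, ContinuousLinearMap.coe_restrictScalars', map_smul,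
    ContinuousLinearEquiv.coe_coe, Complex.conjCLE_apply, smul_eq_mul, map_mul, Complex.conj_I]
  have h1 : Complex.I * Complex.I = -1 := Complex.I_mul_I
  linear_combination (1 / 2 : ℂ) * conj (fderiv ℂ h z (Pi.single i 1)) * h1

theorem NormB_dzbar {g : C2 → ℂ} {z : C2} (hg : DifferentiableAt ℂ g z) (C : ℂ) (j : Fin 2) :
    dzbar j (fun y => C + g y + conj (g y)) z = conj (fderiv ℂ g z (Pi.single j 1)) := by
  have h1 : HasFDerivAt (𝕜 := ℝ) (fun y => C + g y + conj (g y))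
      ((fderiv ℂ g z).restrictScalars ℝ +
        (Complex.conjCLE : ℂ →L[ℝ] ℂ).comp ((fderiv ℂ g z).restrictScalars ℝ)) z :=
    ((hg.hasFDerivAt.restrictScalars ℝ).const_add C).add (NormB_conj hg)
  unfold dzbar
  rw [h1.fderiv, NormB_single]
  simp only [add_apply, ContinuousLinearMap.comp_apply,
    ContinuousLinearMap.coe_restrictScalars', map_smul,
    ContinuousLinearEquiv.coe_coe, Complex.conjCLE_apply, smul_eq_mul, map_mul, Complex.conj_I]
  have h1 : Complex.I * Complex.I = -1 := Complex.I_mul_I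
  linear_combination (1 / 2 : ℂ) * (fderiv ℂ g z (Pi.single j 1)) * h1 -
    (1 / 2 : ℂ) * conj (fderiv ℂ g z (Pi.single j 1)) * h1

theorem log_norm_pluriharmonic {U : Set C2} (hU : IsOpen U) {f : C2 → ℂ}
    (hf : ContDiffOn ℂ ω f U) (h0 : ∀ z ∈ U, f z ≠ 0) {z : C2} (hz : z ∈ U) (i j : Fin 2) :
    dz i (fun y => dzbar j (fun x => ((Real.log (‖f x‖ ^ 2) : ℝ) : ℂ)) y) z = 0 := by
  have hfz : ContDiffAt ℂ ω f z := hf.contDiffAt (hU.mem_nhds hz)
  set g : C2 → ℂ := fun y => Complex.log (f y / f z) with hgdef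
  have hgz : ContDiffAt ℂ ω g z := by
    have h1 : ContDiffAt ℂ ω (fun y => f y / f z) z := hfz.div_const _
    have h2 : f z / f z ∈ Complex.slitPlane := by
      rw [div_self (h0 z hz)]
      exact Complex.one_mem_slitPlane
    exact (Complex.contDiffAt_log h2).comp z h1
  -- near `z`
  have hnear : ∀ᶠ y in 𝓝 z, y ∈ U ∧ DifferentiableAt ℂ g y := by
    have h1 : ∀ᶠ y in 𝓝 z, ContDiffAt ℂ 1 g y :=
      (hgz.of_le (m := 1) le_top).eventually (by simp)
    filter_upwards [hU.mem_nhds hz, h1] with y hy hy1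
    exact ⟨hy, hy1.differentiableAt (by norm_num)⟩
  have heq : ∀ y ∈ U, ((Real.log (‖f y‖ ^ 2) : ℝ) : ℂ) =
      ((Real.log (‖f z‖ ^ 2) : ℝ) : ℂ) + g y + conj (g y) := by
    intro y hy
    have hny : ‖f y‖ ≠ 0 := norm_ne_zero_iff.2 (h0 y hy)
    have hnz : ‖f z‖ ≠ 0 := norm_ne_zero_iff.2 (h0 z hz)
    rw [add_assoc, Complex.add_conj, hgdef]
    dsimp only
    rw [Complex.log_re, norm_div, Real.log_div hny hnz, Real.log_pow, Real.log_pow]
    push_cast
    ring
  have h1 : (fun y => dzbar j (fun x => ((Real.log (‖f x‖ ^ 2) : ℝ) : ℂ)) y) =ᶠ[𝓝 z]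
      fun y => conj (fderiv ℂ g y (Pi.single j 1)) := by
    filter_upwards [hnear] with y hy
    rw [← NormB_dzbar hy.2 ((Real.log (‖f z‖ ^ 2) : ℝ) : ℂ) j]
    have h2 : (fun x => ((Real.log (‖f x‖ ^ 2) : ℝ) : ℂ)) =ᶠ[𝓝 y]
        fun x => ((Real.log (‖f z‖ ^ 2) : ℝ) : ℂ) + g x + conj (g x) := by
      filter_upwards [hU.mem_nhds hy.1] with x hx
      exact heq x hx
    unfold dzbar
    rw [h2.fderiv_eq]
  have h3 : dz i (fun y => dzbar j (fun x => ((Real.log (‖f x‖ ^ 2) : ℝ) : ℂ)) y) z =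
      dz i (fun y => conj (fderiv ℂ g y (Pi.single j 1))) z := by
    unfold dz
    rw [h1.fderiv_eq]
  rw [h3]
  apply NormB_dz
  have h4 : DifferentiableAt ℂ (fderiv ℂ g) z :=
    ((hgz.of_le (m := 2) le_top).fderiv_right (m := 1) (by norm_num)).differentiableAt
      (by norm_num)
  exact h4.clm_apply (differentiableAt_const _)

end Pool.Agent.Lib.MP_6c284f_gt
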