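import Pool.Agent.Lib.MP_6c284f_gt.NormA
import Pool.Agent.Lib.MP_6c284f_gt.NormB

set_option autoImplicit false
set_option maxSynthPendingDepth 5

/-!
The norm of a holomorphic two-form on a compact Ricci-flat Kähler surface is constant.
-/

namespace Pool.Agent.Lib.MP_6c284f_gt

open scoped Manifold ContDiff Topology ComplexConjugate Matrix
open Set

/-- the determinant of a positive Hermitian `2 × 2` matrix has positive real part -/
private theorem norm_det_pos {H : Matrix (Fin 2) (Fin 2) ℂ} (hH : H.IsHermitian)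
    (hpos : ∀ v : C2, v ≠ 0 → 0 < (∑ i, ∑ j, H i j * v i * conj (v j)).re) :
    0 < H.det.re := by
  have h01 : conj (H 0 1) = H 1 0 := by
    have := hH.apply 1 0
    simpa using this
  have h00 : conj (H 0 0) = H 0 0 := by
    have := hH.apply 0 0
    simpa using this
  have im00 : (H 0 0).im = 0 := Complex.conj_eq_iff_im.1 h00
  have p0 : 0 < (H 0 0).re := by
    have := hpos ![1, 0] (by
      intro h
      have := congrFun h 0
      simp at this)
    simpa [Fin.sum_univ_two] using this
  have h10 : H 1 0 = ⟨(H 0 1).re, -(H 0 1).im⟩ := by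
    rw [← h01]; rfl
  have e00 : H 0 0 = ((H 0 0).re : ℂ) := by
    apply Complex.ext
    · simp
    · simp [im00]
  have p1 := hpos ![-(H 1 0), ((H 0 0).re : ℂ)] (by
    intro h
    have := congrFun h 1
    simp at this
    linarith)
  have key : (∑ i, ∑ j, H i j * (![-(H 1 0), ((H 0 0).re : ℂ)] : C2) i *
      conj ((![-(H 1 0), ((H 0 0).re : ℂ)] : C2) j)).re = (H 0 0).re * H.det.re := by
    rw [Matrix.det_fin_two]
    simp only [Fin.sum_univ_two, Matrix.cons_val_zero, Matrix.cons_val_one, map_neg,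
      Complex.conj_ofReal]
    rw [h10]
    simp only [Complex.add_re, Complex.sub_re, Complex.mul_re, Complex.mul_im, Complex.neg_re,
      Complex.neg_im, Complex.ofReal_re, Complex.ofReal_im, Complex.conj_re, Complex.conj_im, im00]
    ring
  rw [key] at p1
  exact (mul_pos_iff_of_pos_left p0).1 p1

private theorem norm_dzbar_sub {f h : C2 → ℂ} {z : C2} (hf : DifferentiableAt ℝ f z)
    (hh : DifferentiableAt ℝ h z) (j : Fin 2) :
    dzbar j (fun x => f x - h x) z = dzbar j f z - dzbar j h z := by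
  unfold dzbar
  rw [fderiv_fun_sub hf hh]
  simp only [sub_apply]
  ring

private theorem norm_dz_sub {f h : C2 → ℂ} {z : C2} (hf : DifferentiableAt ℝ f z)
    (hh : DifferentiableAt ℝ h z) (j : Fin 2) :
    dz j (fun x => f x - h x) z = dz j f z - dz j h z := by
  unfold dz
  rw [fderiv_fun_sub hf hh]
  simp only [sub_apply]
  ring

private theorem norm_dz_congr {f h : C2 → ℂ} {z : C2} (hfh : f =ᶠ[𝓝 z] h) (j : Fin 2) :
    dz j f z = dz j h z := by
  unfold dz
  rw [hfh.fderiv_eq]

private theorem norm_dzbar_diff {f : C2 → ℂ} {z : C2} (hf : ContDiffAt ℝ ∞ f z) (j : Fin 2) :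
    DifferentiableAt ℝ (fun y => dzbar j f y) z := by
  have h1 : DifferentiableAt ℝ (fderiv ℝ f) z :=
    (hf.fderiv_right (m := 1) (by norm_cast)).differentiableAt (by norm_num)
  unfold dzbar
  have h2 : ∀ v : C2, DifferentiableAt ℝ (fun y => fderiv ℝ f y v) z := fun v =>
    h1.clm_apply (differentiableAt_const v)
  simp only [div_eq_mul_inv]
  exact DifferentiableAt.mul_const
    (DifferentiableAt.fun_add (h2 _) (DifferentiableAt.const_mul (h2 _) _)) _

variable {X : Type} [TopologicalSpace X] [ChartedSpace C2 X]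

/-- the function in a chart -/
private noncomputable def normPhi (g : KahlerMetric X) (Ω : HolomorphicTwoForm X)
    (e : OpenPartialHomeomorph X C2) (z : C2) : ℝ :=
  Real.log (g.mat e z).det.re - Real.log (‖Ω.coef e z‖ ^ 2)

private theorem norm_compat (g : KahlerMetric X) (Ω : HolomorphicTwoForm X)
    (hΩ : ∀ e ∈ atlas C2 X, ∀ z ∈ e.target, Ω.coef e z ≠ 0)
    {e e' : OpenPartialHomeomorph X C2} (he : e ∈ atlas C2 X) (he' : e' ∈ atlas C2 X) {x : X}
    (hx : x ∈ e.source ∩ e'.source) : normPhi g Ω e (e x) = normPhi g Ω e' (e' x) := by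
  have hd : 0 < (g.mat e (e x)).det.re :=
    norm_det_pos (g.hermitian e he _ (e.map_source hx.1)) (g.pos e he _ (e.map_source hx.1))
  have hd' : 0 < (g.mat e' (e' x)).det.re :=
    norm_det_pos (g.hermitian e' he' _ (e'.map_source hx.2)) (g.pos e' he' _ (e'.map_source hx.2))
  have hJ : (g.mat e (e x)).det.re =
      ‖(jac e e' (e x)).det‖ ^ 2 * (g.mat e' (e' x)).det.re := by
    have h1 := congrArg Matrix.det (g.compat e he e' he' x hx)
    rw [Matrix.det_mul, Matrix.det_mul, Matrix.det_transpose] at h1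
    have h2 : ((jac e e' (e x)).map conj).det = conj (jac e e' (e x)).det :=
      (RingHom.map_det (starRingEnd ℂ) _).symm
    rw [h2] at h1
    have h3 : (jac e e' (e x)).det * (g.mat e' (e' x)).det * conj (jac e e' (e x)).det =
        ((‖(jac e e' (e x)).det‖ ^ 2 : ℝ) : ℂ) * (g.mat e' (e' x)).det := by
      rw [mul_right_comm, Complex.mul_conj, Complex.normSq_eq_norm_sq]
    rw [h3] at h1
    rw [h1, Complex.re_ofReal_mul]
  have hJ0 : (jac e e' (e x)).det ≠ 0 := by
    intro h0
    rw [h0] at hJ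
    simp at hJ
    linarith
  have hJn : 0 < ‖(jac e e' (e x)).det‖ := norm_pos_iff.2 hJ0
  have hΩ' : Ω.coef e' (e' x) ≠ 0 := hΩ e' he' _ (e'.map_source hx.2)
  have hΩn : 0 < ‖Ω.coef e' (e' x)‖ := norm_pos_iff.2 hΩ'
  unfold normPhi
  rw [hJ, Ω.compat e he e' he' x hx, norm_mul, mul_pow, Real.log_mul (by positivity) hd'.ne',
    Real.log_mul (by positivity) (by positivity)]
  ring

theorem exists_norm_const (hX : IsK3 X) (g : KahlerMetric X) (hR : g.RicciFlat)
    (Ω : HolomorphicTwoForm X) (hΩ : ∀ e ∈ atlas C2 X, ∀ z ∈ e.target, Ω.coef e z ≠ 0) :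
    ∃ r : ℝ, 0 < r ∧ ∀ e ∈ atlas C2 X, ∀ z ∈ e.target,
      r ^ 2 * ‖Ω.coef e z‖ ^ 2 = (g.mat e z).det.re := by
  have hcpt : CompactSpace X := hX.compact
  have hsc : SimplyConnectedSpace X := hX.simplyConnected
  have hpc : PathConnectedSpace X := inferInstance
  obtain ⟨x0⟩ : Nonempty X := hpc.nonempty
  have hdet : ∀ e ∈ atlas C2 X, ∀ z ∈ e.target, 0 < (g.mat e z).det.re := fun e he z hz =>
    norm_det_pos (g.hermitian e he z hz) (g.pos e he z hz)
  have hΩn : ∀ e ∈ atlas C2 X, ∀ z ∈ e.target, 0 < ‖Ω.coef e z‖ ^ 2 := fun e he z hz => by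
    have := norm_pos_iff.2 (hΩ e he z hz)
    positivity
  -- smoothness of the two logarithms
  have hs1 : ∀ e ∈ atlas C2 X, ContDiffOn ℝ ∞ (fun z => Real.log (g.mat e z).det.re) e.target := by
    intro e he
    apply ContDiffOn.log _ (fun z hz => (hdet e he z hz).ne')
    have h1 : (fun z => (g.mat e z).det.re) = fun z =>
        (g.mat e z 0 0 * g.mat e z 1 1 - g.mat e z 0 1 * g.mat e z 1 0).re := by
      funext z
      rw [Matrix.det_fin_two]
    rw [h1]
    have h2 : ContDiffOn ℝ ∞ (fun z =>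
        g.mat e z 0 0 * g.mat e z 1 1 - g.mat e z 0 1 * g.mat e z 1 0) e.target :=
      ((g.smooth e he 0 0).mul (g.smooth e he 1 1)).sub
        ((g.smooth e he 0 1).mul (g.smooth e he 1 0))
    exact Complex.reCLM.contDiff.comp_contDiffOn h2
  have hs2 : ∀ e ∈ atlas C2 X,
      ContDiffOn ℝ ∞ (fun z => Real.log (‖Ω.coef e z‖ ^ 2)) e.target := by
    intro e he
    apply ContDiffOn.log _ (fun z hz => (hΩn e he z hz).ne')
    have h1 : ContDiffOn ℝ ∞ (Ω.coef e) e.target :=
      ((Ω.holo e he).restrict_scalars ℝ).of_le le_top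
    exact h1.norm_sq ℝ
  have hφs : ∀ e ∈ atlas C2 X, ContDiffOn ℝ ∞ (normPhi g Ω e) e.target := fun e he =>
    (hs1 e he).sub (hs2 e he)
  have hofR : ∀ {f : C2 → ℝ} {z : C2}, ContDiffAt ℝ ∞ f z →
      ContDiffAt ℝ ∞ (fun x => ((f x : ℝ) : ℂ)) z := fun hf =>
    Complex.ofRealCLM.contDiff.contDiffAt.comp _ hf
  have hpl : ∀ e ∈ atlas C2 X, ∀ z ∈ e.target, ∀ i : Fin 2,
      dz i (fun y => dzbar i (fun x => ((normPhi g Ω e x : ℝ) : ℂ)) y) z = 0 := by
    intro e he z hz i
    have hnb : e.target ∈ 𝓝 z := e.open_target.mem_nhds hz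
    have hc1 : ∀ y ∈ e.target, ContDiffAt ℝ ∞
        (fun x => ((Real.log (g.mat e x).det.re : ℝ) : ℂ)) y := fun y hy =>
      hofR ((hs1 e he).contDiffAt (e.open_target.mem_nhds hy))
    have hc2 : ∀ y ∈ e.target, ContDiffAt ℝ ∞
        (fun x => ((Real.log (‖Ω.coef e x‖ ^ 2) : ℝ) : ℂ)) y := fun y hy =>
      hofR ((hs2 e he).contDiffAt (e.open_target.mem_nhds hy))
    have h1 : (fun y => dzbar i (fun x => ((normPhi g Ω e x : ℝ) : ℂ)) y) =ᶠ[𝓝 z]
        fun y => dzbar i (fun x => ((Real.log (g.mat e x).det.re : ℝ) : ℂ)) y -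
          dzbar i (fun x => ((Real.log (‖Ω.coef e x‖ ^ 2) : ℝ) : ℂ)) y := by
      filter_upwards [hnb] with y hy
      have h2 : (fun x => ((normPhi g Ω e x : ℝ) : ℂ)) = fun x =>
          ((Real.log (g.mat e x).det.re : ℝ) : ℂ) - ((Real.log (‖Ω.coef e x‖ ^ 2) : ℝ) : ℂ) := by
        funext x
        unfold normPhi
        push_cast
        rfl
      rw [h2]
      exact norm_dzbar_sub ((hc1 y hy).differentiableAt (by norm_num))
        ((hc2 y hy).differentiableAt (by norm_num)) i
    rw [norm_dz_congr h1, norm_dz_sub (norm_dzbar_diff (hc1 z hz) i)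
      (norm_dzbar_diff (hc2 z hz) i), hR e he z hz i i,
      log_norm_pluriharmonic e.open_target (Ω.holo e he) (hΩ e he) hz i i, sub_zero]
  -- the global function
  set F : X → ℝ := fun x => normPhi g Ω (chartAt C2 x) (chartAt C2 x x) with hF
  have hFe : ∀ e ∈ atlas C2 X, ∀ x ∈ e.source, F x = normPhi g Ω e (e x) := fun e he x hx =>
    norm_compat g Ω hΩ (chart_mem_atlas C2 x) he ⟨mem_chart_source C2 x, hx⟩
  have hFc : Continuous F := by
    rw [continuous_iff_continuousAt]
    intro y
    set e := chartAt C2 y with he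
    have hea : e ∈ atlas C2 X := chart_mem_atlas C2 y
    have hye : y ∈ e.source := mem_chart_source C2 y
    have h1 : ContinuousAt (normPhi g Ω e) (e y) :=
      ((hφs e hea).contDiffAt (e.open_target.mem_nhds (e.map_source hye))).continuousAt
    have h2 : ContinuousAt (normPhi g Ω e ∘ e) y := h1.comp (e.continuousAt hye)
    refine h2.congr ?_
    filter_upwards [e.open_source.mem_nhds hye] with z hz
    exact (hFe e hea z hz).symm
  obtain ⟨p, -, hp⟩ := isCompact_univ.exists_isMinOn (univ_nonempty (α := X)) hFc.continuousOn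
  have hmin : ∀ y, F p ≤ F y := fun y => hp (mem_univ y)
  have hloc : ∀ y, F y = F p → ∀ᶠ z in 𝓝 y, F z = F p := by
    intro y hy
    set e := chartAt C2 y with he
    have hea : e ∈ atlas C2 X := chart_mem_atlas C2 y
    have hye : y ∈ e.source := mem_chart_source C2 y
    have h1 := pluriharmonic_min e.open_target (hφs e hea) (hpl e hea) (e.map_source hye) (by
      intro z hz
      have h2 := hFe e hea (e.symm z) (e.map_target hz)
      rw [e.right_inv hz] at h2
      have h3 := hFe e hea y hye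
      rw [← h2, ← h3, hy]
      exact hmin _)
    have h4 := (e.continuousAt hye).eventually h1
    filter_upwards [h4, e.open_source.mem_nhds hye] with z hz1 hz2
    rw [hFe e hea z hz2, hz1, ← hFe e hea y hye, hy]
  set S : Set X := {y | F y = F p} with hS
  have hSo : IsOpen S := by
    rw [isOpen_iff_mem_nhds]
    intro y hy
    exact hloc y hy
  have hSc : IsClosed S := isClosed_eq hFc continuous_const
  have hSu : S = univ := IsClopen.eq_univ ⟨hSc, hSo⟩ ⟨p, rfl⟩
  refine ⟨Real.exp (F p / 2), Real.exp_pos _, ?_⟩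
  intro e he z hz
  have h1 : F (e.symm z) = F p := by
    have : e.symm z ∈ S := by rw [hSu]; exact mem_univ _
    exact this
  have h2 := hFe e he (e.symm z) (e.map_target hz)
  rw [e.right_inv hz, h1] at h2
  have h3 : Real.exp (F p / 2) ^ 2 = Real.exp (F p) := by
    rw [← Real.exp_nat_mul]
    congr 1
    push_cast
    ring
  rw [h3, h2]
  unfold normPhi
  rw [Real.exp_sub, Real.exp_log (hdet e he z hz), Real.exp_log (hΩn e he z hz)]
  exact div_mul_cancel₀ _ (hΩn e he z hz).ne'

end Pool.Agent.Lib.MP_6c284f_gt
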