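import Pool.Agent.Lib.MP_6c284f_gt.KahlerF
import Pool.Agent.Lib.MP_6c284f_gt.Norm
import Pool.Agent.Lib.MP_6c284f_gt.ManHK

set_option autoImplicit false
set_option maxSynthPendingDepth 5

/-!
The hyperkähler data of a Ricci-flat K3 surface.
-/

namespace Pool.Agent.Lib.MP_6c284f_gt

open scoped Manifold ContDiff Topology ComplexConjugate Matrix
open Set

variable {X : Type} [TopologicalSpace X] [ChartedSpace C2 X]

theorem isK_chart (g : KahlerMetric X) (Ω : HolomorphicTwoForm X) {r : ℝ} (hr : 0 < r)
    (hn : ∀ e ∈ atlas C2 X, ∀ z ∈ e.target,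
      r ^ 2 * ‖Ω.coef e z‖ ^ 2 = (g.mat e z).det.re)
    {e : OpenPartialHomeomorph X C2} (he : e ∈ atlas C2 X) :
    IsK (g.mat e) (Ω.coef e) r e.target where
  isOpen := e.open_target
  smooth := g.smooth e he
  herm := g.hermitian e he
  pos := g.pos e he
  closed := g.closed e he
  holo := Ω.holo e he
  rpos := hr
  norm := hn e he

/-- the hyperkähler structure of a Ricci-flat Kähler surface with a holomorphic two-form of
constant norm -/
noncomputable def manHK (hX : IsManifold 𝓘(ℂ, C2) ω X) (g : KahlerMetric X)
    (Ω : HolomorphicTwoForm X) {r : ℝ} (hr : 0 < r)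
    (hn : ∀ e ∈ atlas C2 X, ∀ z ∈ e.target,
      r ^ 2 * ‖Ω.coef e z‖ ^ 2 = (g.mat e z).det.re) : ManHK X where
  D e := kData (g.mat e) (Ω.coef e) r
  isHK e he := isHK_kData (isK_chart g Ω hr hn he)
  rel e he e' he' x hx := by
    have hcomp : (e.symm.trans e') ∈ contDiffGroupoid ω 𝓘(ℂ, C2) := by
      exact HasGroupoid.compatible he he'
    have hW : IsOpen (e.symm.trans e').source := (e.symm.trans e').open_source
    have hsub : (e.symm.trans e').source ⊆ e.target := by
      intro z hz
      simp only [OpenPartialHomeomorph.trans_source, mem_inter_iff, mem_preimage] at hz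
      exact hz.1
    refine k_rel (isK_chart g Ω hr hn he) (isK_chart g Ω hr hn he') hW hsub (τ := e' ∘ e.symm)
      ?_ ?_ ?_ ?_ ?_
    · rw [contDiffGroupoid, mem_groupoid_of_pregroupoid, contDiffPregroupoid] at hcomp
      simpa using hcomp.1
    · intro z hz
      simp only [OpenPartialHomeomorph.trans_source, mem_inter_iff, mem_preimage] at hz
      exact e'.map_source hz.2
    · intro z hz
      simp only [OpenPartialHomeomorph.trans_source, mem_inter_iff, mem_preimage] at hz
      have h1 := g.compat e he e' he' (e.symm z) ⟨e.map_target hz.1, hz.2⟩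
      rw [e.right_inv hz.1] at h1
      exact h1
    · intro z hz
      simp only [OpenPartialHomeomorph.trans_source, mem_inter_iff, mem_preimage] at hz
      have h1 := Ω.compat e he e' he' (e.symm z) ⟨e.map_target hz.1, hz.2⟩
      rw [e.right_inv hz.1] at h1
      exact h1
    · simp only [OpenPartialHomeomorph.trans_source, mem_inter_iff, mem_preimage]
      refine ⟨e.map_source hx.1, ?_⟩
      rw [e.left_inv hx.1]
      exact hx.2

end Pool.Agent.Lib.MP_6c284f_gt
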