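import Pool.Agent.Lib.MP_6c284f_gt.HK

set_option autoImplicit false
set_option maxSynthPendingDepth 5

/-!
Transformation of the curvature under pullback.
-/

namespace Pool.Agent.Lib.MP_6c284f_gt

open scoped ContDiff Topology
open Set

variable {V : Type} [NormedAddCommGroup V] [NormedSpace ℝ V]
variable {V' : Type} [NormedAddCommGroup V'] [NormedSpace ℝ V']

theorem relCurv_two_le : minSmoothness ℝ 2 ≤ ∞ := by
  rw [minSmoothness_of_isRCLikeNormedField]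
  exact WithTop.coe_le_coe.2 (le_top : (2 : ℕ∞) ≤ ⊤)

/-- the derivative of the relation between the connections -/
theorem relCurv_deriv {D' : HKData V'} {D : HKData V} {W' : Set V'} {W : Set V} (hW' : IsOpen W')
    (hW : IsOpen W) (hΓ' : ContDiffOn ℝ ∞ D'.Γ W') (hΓ : ContDiffOn ℝ ∞ D.Γ W)
    {Φ : V' → V} (hΦ : ∀ z ∈ W', ContDiffAt ℝ ∞ Φ z) (hmaps : MapsTo Φ W' W)
    (hrel : ∀ z ∈ W', HKRel D' D Φ z) {z : V'} (hz : z ∈ W') (u v w : V') :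
    fderiv ℝ Φ z (fderiv ℝ D'.Γ z u v w) + fderiv ℝ (fderiv ℝ Φ) z u (D'.Γ z v w) =
      fderiv ℝ D.Γ (Φ z) (fderiv ℝ Φ z u) (fderiv ℝ Φ z v) (fderiv ℝ Φ z w)
      + D.Γ (Φ z) (fderiv ℝ (fderiv ℝ Φ) z u v) (fderiv ℝ Φ z w)
      + D.Γ (Φ z) (fderiv ℝ Φ z v) (fderiv ℝ (fderiv ℝ Φ) z u w)
      + fderiv ℝ (fderiv ℝ (fderiv ℝ Φ)) z u v w := by
  have hcA : ContDiffAt ℝ ∞ (fderiv ℝ Φ) z := (hΦ z hz).fderiv_right (m := ∞) (by simp)
  have hcAA : ContDiffAt ℝ ∞ (fderiv ℝ (fderiv ℝ Φ)) z := hcA.fderiv_right (m := ∞) (by simp)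
  have hP : HasFDerivAt Φ (fderiv ℝ Φ z) z := ((hΦ z hz).differentiableAt (by simp)).hasFDerivAt
  have hA : HasFDerivAt (fderiv ℝ Φ) (fderiv ℝ (fderiv ℝ Φ) z) z :=
    (hcA.differentiableAt (by simp)).hasFDerivAt
  have hAA : HasFDerivAt (fderiv ℝ (fderiv ℝ Φ)) (fderiv ℝ (fderiv ℝ (fderiv ℝ Φ)) z) z :=
    (hcAA.differentiableAt (by simp)).hasFDerivAt
  have hG' : HasFDerivAt D'.Γ (fderiv ℝ D'.Γ z) z :=
    ((hΓ'.contDiffAt (hW'.mem_nhds hz)).differentiableAt (by simp)).hasFDerivAt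
  have hG0 : HasFDerivAt D.Γ (fderiv ℝ D.Γ (Φ z)) (Φ z) :=
    ((hΓ.contDiffAt (hW.mem_nhds (hmaps hz))).differentiableAt (by simp)).hasFDerivAt
  have hG : HasFDerivAt (fun y => D.Γ (Φ y)) ((fderiv ℝ D.Γ (Φ z)).comp (fderiv ℝ Φ z)) z :=
    hG0.comp z hP
  have h1 := hA.clm_apply ((hG'.clm_apply (hasFDerivAt_const v z)).clm_apply
    (hasFDerivAt_const w z))
  have h2 := ((hG.clm_apply (hA.clm_apply (hasFDerivAt_const v z))).clm_apply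
    (hA.clm_apply (hasFDerivAt_const w z))).add
    ((hAA.clm_apply (hasFDerivAt_const v z)).clm_apply (hasFDerivAt_const w z))
  have he : (fun y => fderiv ℝ Φ y (D'.Γ y v w)) =ᶠ[𝓝 z]
      (fun y => D.Γ (Φ y) (fderiv ℝ Φ y v) (fderiv ℝ Φ y w) + fderiv ℝ (fderiv ℝ Φ) y v w) := by
    filter_upwards [hW'.mem_nhds hz] with y hy
    exact (hrel y hy).Γ v w
  have h3 := (h2.congr_of_eventuallyEq he).unique h1
  have h4 := congrArg (fun L => L u) h3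
  simp only [add_apply, ContinuousLinearMap.comp_apply,
    ContinuousLinearMap.flip_apply, zero_apply, map_zero, zero_add] at h4
  rw [← h4]
  abel

theorem curv_rel {D' : HKData V'} {D : HKData V} {W' : Set V'} {W : Set V} (hW' : IsOpen W')
    (hW : IsOpen W) (hΓ' : ContDiffOn ℝ ∞ D'.Γ W') (hΓ : ContDiffOn ℝ ∞ D.Γ W)
    {Φ : V' → V} (hΦ : ∀ z ∈ W', ContDiffAt ℝ ∞ Φ z) (hmaps : MapsTo Φ W' W)
    (hrel : ∀ z ∈ W', HKRel D' D Φ z) {z : V'} (hz : z ∈ W') (u v w : V') :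
    fderiv ℝ Φ z (curv D'.Γ z u v w) =
      curv D.Γ (Φ z) (fderiv ℝ Φ z u) (fderiv ℝ Φ z v) (fderiv ℝ Φ z w) := by
  have hcA : ContDiffAt ℝ ∞ (fderiv ℝ Φ) z := (hΦ z hz).fderiv_right (m := ∞) (by simp)
  have s1 : fderiv ℝ (fderiv ℝ Φ) z u v = fderiv ℝ (fderiv ℝ Φ) z v u :=
    (hΦ z hz).isSymmSndFDerivAt relCurv_two_le u v
  have s2 : fderiv ℝ (fderiv ℝ (fderiv ℝ Φ)) z u v = fderiv ℝ (fderiv ℝ (fderiv ℝ Φ)) z v u :=
    hcA.isSymmSndFDerivAt relCurv_two_le u v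
  have e1 := relCurv_deriv hW' hW hΓ' hΓ hΦ hmaps hrel hz u v w
  have e2 := relCurv_deriv hW' hW hΓ' hΓ hΦ hmaps hrel hz v u w
  have r1 := (hrel z hz).Γ u (D'.Γ z v w)
  have r2 := (hrel z hz).Γ v (D'.Γ z u w)
  rw [(hrel z hz).Γ v w, map_add] at r1
  rw [(hrel z hz).Γ u w, map_add] at r2
  rw [s2, s1] at e1
  unfold curv
  rw [map_sub, map_add, map_sub, r1, r2]
  rw [eq_sub_of_add_eq e1, eq_sub_of_add_eq e2]
  abel

end Pool.Agent.Lib.MP_6c284f_gt
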