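import Pool.Agent.Lib.MP_6c284f_gt.FlatUC
import Pool.Agent.Lib.MP_6c284f_gt.K3HK
import Pool.Agent.Lib.MP_6c284f_gt.RelCurv

set_option autoImplicit false
set_option maxSynthPendingDepth 5

/-!
Flatness on a nonempty open set implies flatness everywhere.
-/

namespace Pool.Agent.Lib.MP_6c284f_gt

open scoped Manifold ContDiff Topology ComplexConjugate Matrix
open Set

variable {X : Type} [TopologicalSpace X] [ChartedSpace C2 X]

/-- the changes of charts are smooth -/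
private theorem flatManA_smooth (hX : IsManifold 𝓘(ℝ, C2) ∞ X)
    {e e' : OpenPartialHomeomorph X C2} (he : e ∈ atlas C2 X) (he' : e' ∈ atlas C2 X) :
    ∀ z ∈ (e'.symm ≫ₕ e).source, ContDiffAt ℝ ∞ (e ∘ e'.symm) z := by
  intro z hz
  have h1 := HasGroupoid.compatible (G := contDiffGroupoid ∞ 𝓘(ℝ, C2)) he' he
  rw [contDiffGroupoid] at h1
  have h2 := (mem_groupoid_of_pregroupoid.1 h1).1
  have h3 : ContDiffOn ℝ ∞ (e ∘ e'.symm) (e'.symm ≫ₕ e).source := by
    have h4 : ContDiffOn ℝ ∞ (𝓘(ℝ, C2) ∘ (e'.symm ≫ₕ e) ∘ 𝓘(ℝ, C2).symm)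
      (𝓘(ℝ, C2).symm ⁻¹' (e'.symm ≫ₕ e).source ∩ range 𝓘(ℝ, C2)) := h2
    simpa using h4
  exact h3.contDiffAt ((e'.symm ≫ₕ e).open_source.mem_nhds hz)

omit [ChartedSpace C2 X] in
private theorem flatManA_mem {e e' : OpenPartialHomeomorph X C2} {x : X} (hx : x ∈ e.source)
    (hx' : x ∈ e'.source) : e' x ∈ (e'.symm ≫ₕ e).source := by
  rw [OpenPartialHomeomorph.trans_source]
  refine ⟨e'.map_source hx', ?_⟩
  show e'.symm (e' x) ∈ e.source
  rw [e'.left_inv hx']
  exact hx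

/-- flatness at a point can be tested in one chart -/
theorem flatAt_of_chart (hX : IsManifold 𝓘(ℝ, C2) ∞ X) (M : ManHK X)
    {e : OpenPartialHomeomorph X C2} (he : e ∈ atlas C2 X) {x : X} (hx : x ∈ e.source)
    (h : ∀ u v w, curv (M.D e).Γ (e x) u v w = 0) : M.FlatAt x := by
  intro e' he' hx' u v w
  have hmem := flatManA_mem hx hx'
  have hsrc : ∀ z ∈ (e'.symm ≫ₕ e).source, z ∈ e'.target ∧ e'.symm z ∈ e.source := by
    intro z hz
    rw [OpenPartialHomeomorph.trans_source] at hz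
    exact hz
  have hrel := curv_rel (D' := M.D e') (D := M.D e) (W' := (e'.symm ≫ₕ e).source)
    (W := e.target) (e'.symm ≫ₕ e).open_source e.open_target
    ((M.isHK e' he').smoothΓ.mono fun z hz => (hsrc z hz).1) (M.isHK e he).smoothΓ
    (Φ := e ∘ e'.symm) (flatManA_smooth hX he he')
    (fun z hz => e.map_source (hsrc z hz).2) (by
      intro z hz
      have := M.rel e' he' e he (e'.symm z) ⟨e'.map_target (hsrc z hz).1, (hsrc z hz).2⟩
      rwa [e'.right_inv (hsrc z hz).1] at this) hmem u v w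
  have hΦx : (e ∘ e'.symm) (e' x) = e x := by
    show e (e'.symm (e' x)) = e x
    rw [e'.left_inv hx']
  rw [hΦx, h] at hrel
  -- injectivity of the derivative
  have hΨ : ContDiffAt ℝ ∞ (e' ∘ e.symm) (e x) := flatManA_smooth hX he' he _ (flatManA_mem hx' hx)
  have hΦ : ContDiffAt ℝ ∞ (e ∘ e'.symm) (e' x) := flatManA_smooth hX he he' _ hmem
  have hcomp : fderiv ℝ ((e' ∘ e.symm) ∘ (e ∘ e'.symm)) (e' x) =
      (fderiv ℝ (e' ∘ e.symm) ((e ∘ e'.symm) (e' x))).comp (fderiv ℝ (e ∘ e'.symm) (e' x)) := by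
    apply fderiv_comp
    · rw [hΦx]
      exact hΨ.differentiableAt (by norm_num)
    · exact hΦ.differentiableAt (by norm_num)
  have hid : ((e' ∘ e.symm) ∘ (e ∘ e'.symm)) =ᶠ[𝓝 (e' x)] id := by
    filter_upwards [(e'.symm ≫ₕ e).open_source.mem_nhds hmem] with z hz
    show e' (e.symm (e (e'.symm z))) = z
    rw [e.left_inv (hsrc z hz).2, e'.right_inv (hsrc z hz).1]
  rw [hid.fderiv_eq, fderiv_id] at hcomp
  have h2 := congrArg (fun L : C2 →L[ℝ] C2 => L (curv (M.D e').Γ (e' x) u v w)) hcomp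
  simp only [ContinuousLinearMap.comp_apply, ContinuousLinearMap.id_apply] at h2
  rw [h2, hrel, map_zero]

end Pool.Agent.Lib.MP_6c284f_gt
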