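import Pool.Agent.Lib.MP_6c284f_gt.FlatUC
import Pool.Agent.Lib.MP_6c284f_gt.K3HK
import Pool.Agent.Lib.MP_6c284f_gt.RelCurv
import Pool.Agent.Lib.MP_6c284f_gt.FlatManA

set_option autoImplicit false
set_option maxSynthPendingDepth 5

/-!
Flatness on a nonempty open set implies flatness everywhere.
-/

namespace Pool.Agent.Lib.MP_6c284f_gt

open scoped Manifold ContDiff Topology ComplexConjugate Matrix
open Set

variable {X : Type} [TopologicalSpace X] [ChartedSpace C2 X]

private theorem flatMan_isK_mono {H : C2 → Matrix (Fin 2) (Fin 2) ℂ} {f : C2 → ℂ} {r : ℝ}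
    {U V : Set C2} (h : IsK H f r U) (hV : IsOpen V) (hVU : V ⊆ U) : IsK H f r V where
  isOpen := hV
  smooth := fun i j => (h.smooth i j).mono hVU
  herm := fun z hz => h.herm z (hVU hz)
  pos := fun z hz => h.pos z (hVU hz)
  closed := fun z hz => h.closed z (hVU hz)
  holo := h.holo.mono hVU
  rpos := h.rpos
  norm := fun z hz => h.norm z (hVU hz)

theorem flat_everywhere [PreconnectedSpace X] (hX : IsManifold 𝓘(ℂ, C2) ω X)
    (g : KahlerMetric X) (Ω : HolomorphicTwoForm X) {r : ℝ} (hr : 0 < r)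
    (hn : ∀ e ∈ atlas C2 X, ∀ z ∈ e.target,
      r ^ 2 * ‖Ω.coef e z‖ ^ 2 = (g.mat e z).det.re)
    {O : Set X} (hO : IsOpen O) (hne : O.Nonempty)
    (hflat : ∀ x ∈ O, (manHK hX g Ω hr hn).FlatAt x) (x : X) :
    (manHK hX g Ω hr hn).FlatAt x := by
  set M := manHK hX g Ω hr hn with hM
  have hXr : IsManifold 𝓘(ℝ, C2) ∞ X := isManifold_real hX
  set S : Set X := {y | ∀ᶠ z in 𝓝 y, M.FlatAt z} with hS
  have hSo : IsOpen S := isOpen_setOfPred_eventually_nhds
  have hOS : O ⊆ S := fun y hy => Filter.mem_of_superset (hO.mem_nhds hy) hflat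
  have hSc : IsClosed S := by
    rw [← closure_subset_iff_isClosed]
    intro y hy
    set e := chartAt C2 y with he
    have hea : e ∈ atlas C2 X := chart_mem_atlas C2 y
    have hye : y ∈ e.source := mem_chart_source C2 y
    obtain ⟨s, hs, hball⟩ := Metric.isOpen_iff.1 e.open_target (e y) (e.map_source hye)
    have hK := isK_chart g Ω hr hn hea
    have hKB := flatMan_isK_mono hK Metric.isOpen_ball hball
    have hopen : IsOpen (e.source ∩ e ⁻¹' Metric.ball (e y) s) :=
      e.isOpen_inter_preimage Metric.isOpen_ball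
    obtain ⟨y', hy', hyS⟩ := mem_closure_iff.1 hy _ hopen ⟨hye, Metric.mem_ball_self hs⟩
    set O' : Set C2 := Metric.ball (e y) s ∩ (e.target ∩ e.symm ⁻¹' S) with hO'
    have hO'o : IsOpen O' := Metric.isOpen_ball.inter (e.isOpen_inter_preimage_symm hSo)
    have hO'ne : O'.Nonempty := by
      refine ⟨e y', hy'.2, e.map_source hy'.1, ?_⟩
      show e.symm (e y') ∈ S
      rw [e.left_inv hy'.1]
      exact hyS
    have hzero : ∀ z ∈ O', ∀ i j k l, dzbar l (chris (g.mat e) i j k) z = 0 := by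
      intro z hz
      rw [← curv_eq_zero_iff hK hz.2.1]
      intro u v w
      have h1 : M.FlatAt (e.symm z) := Filter.Eventually.self_of_nhds hz.2.2
      have h2 := h1 e hea (e.map_target hz.2.1) u v w
      rw [e.right_inv hz.2.1] at h2
      exact h2
    have huc := kahler_uc hKB (convex_ball (e y) s).isPreconnected hO'o (fun z hz => hz.1) hO'ne
      hzero
    show ∀ᶠ z in 𝓝 y, M.FlatAt z
    filter_upwards [hopen.mem_nhds ⟨hye, Metric.mem_ball_self hs⟩] with z hz
    refine flatAt_of_chart hXr M hea hz.1 ?_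
    exact (curv_eq_zero_iff hK (hball hz.2)).2 (huc (e z) hz.2)
  have hSu : S = univ := IsClopen.eq_univ ⟨hSc, hSo⟩ (hne.mono hOS)
  have hxS : x ∈ S := by rw [hSu]; exact mem_univ x
  exact Filter.Eventually.self_of_nhds hxS

end Pool.Agent.Lib.MP_6c284f_gt
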