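import Pool.Agent.Lib.MP_6c284f_gt.FlatUCC

set_option autoImplicit false
set_option maxSynthPendingDepth 5

/-!
Unique continuation of flatness for Ricci-flat Kähler metrics in a chart.
-/

namespace Pool.Agent.Lib.MP_6c284f_gt

open scoped Manifold ContDiff Topology ComplexConjugate Matrix
open Set

variable {H : C2 → Matrix (Fin 2) (Fin 2) ℂ} {f : C2 → ℂ} {r : ℝ} {U : Set C2}

theorem FlatUCD_diff_chris (hK : IsK H f r U) {z : C2} (hz : z ∈ U) (i j k : Fin 2) :
    DifferentiableAt ℝ (chris H i j k) z :=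
  ((k_smooth_chris hK i j k).contDiffAt (hK.isOpen.mem_nhds hz)).differentiableAt (by simp)

theorem FlatUCD_fderiv (hK : IsK H f r U) {z : C2} (hz : z ∈ U) (u v w : C2) (k : Fin 2) :
    fderiv ℝ (kΓ H) z u v w k =
      ∑ i, ∑ j, fderiv ℝ (chris H i j k) z u * v i * w j := by
  have h : HasFDerivAt (kΓ H) (fderiv ℝ (kΓ H) z) z :=
    (((k_smoothΓ hK).contDiffAt (hK.isOpen.mem_nhds hz)).differentiableAt (by simp)).hasFDerivAt
  have h1 := (h.clm_apply (hasFDerivAt_const v z)).clm_apply (hasFDerivAt_const w z)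
  have h2 := (hasFDerivAt_pi'.1 h1) k
  have h3 : HasFDerivAt (fun y => kΓ H y v w k)
      (∑ i, ∑ j, w j • (v i • fderiv ℝ (chris H i j k) z)) z := by
    have h4 : (fun y => kΓ H y v w k) = fun y => ∑ i, ∑ j, chris H i j k y * v i * w j := by
      funext y
      exact kΓ_apply H y v w k
    rw [h4]
    refine HasFDerivAt.fun_sum fun i _ => HasFDerivAt.fun_sum fun j _ => ?_
    exact ((FlatUCD_diff_chris hK hz i j k).hasFDerivAt.mul_const (v i)).mul_const (w j)
  have h5 := h2.unique h3
  have h6 := congrArg (fun L => L u) h5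
  simp only [ContinuousLinearMap.comp_apply, ContinuousLinearMap.proj_apply] at h6
  have h7 : fderiv ℝ (kΓ H) z u v w k = (∑ i, ∑ j, w j • (v i • fderiv ℝ (chris H i j k) z)) u := by
    rw [← h6]
    simp
  rw [h7]
  simp only [Fin.sum_univ_two, add_apply, smul_apply, smul_eq_mul]
  ring

theorem FlatUCD_curv (hK : IsK H f r U) {z : C2} (hz : z ∈ U) (u v w : C2) (k : Fin 2) :
    curv (kΓ H) z u v w k =
      ∑ l, ∑ i, ∑ j, dzbar l (chris H i j k) z * (conj (u l) * v i - conj (v l) * u i) * w j := by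
  have h : ∀ p i j, dz p (chris H i j k) z - dz i (chris H p j k) z =
      ∑ m, (chris H i m k z * chris H p j m z - chris H p m k z * chris H i j m z) :=
    fun p i j => chris_flat20 hK hz p i j k
  unfold curv
  rw [Pi.sub_apply, Pi.add_apply, Pi.sub_apply, FlatUCD_fderiv hK hz, FlatUCD_fderiv hK hz,
    kΓ_apply, kΓ_apply]
  simp only [kΓ_apply, fderiv_eq_dz]
  have h000 := h 0 1 0
  have h001 := h 0 1 1
  simp only [Fin.sum_univ_two] at h000 h001 ⊢
  linear_combination (u 0 * v 1 - u 1 * v 0) * w 0 * h000 + (u 0 * v 1 - u 1 * v 0) * w 1 * h001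

theorem FlatUCD_alg (c : Fin 2 → Fin 2 → ℂ)
    (h : ∀ u v : C2, ∑ l, ∑ i, c l i * (conj (u l) * v i - conj (v l) * u i) = 0) :
    ∀ l i, c l i = 0 := by
  have h00 := h ![1, 0] ![Complex.I, 0]
  have h11 := h ![0, 1] ![0, Complex.I]
  have ha := h ![1, 0] ![0, 1]
  have hb := h ![1, 0] ![0, Complex.I]
  simp [Fin.sum_univ_two] at h00 h11 ha hb
  have hI := Complex.I_ne_zero
  have e1 : c 0 1 = c 1 0 := by linear_combination ha
  have e2 : Complex.I * (2 * c 1 0) = 0 := by
    rw [e1] at hb
    linear_combination hb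
  have e3 : c 1 0 = 0 := by
    have := (mul_eq_zero.1 e2).resolve_left hI
    simpa using this
  intro l i
  fin_cases l <;> fin_cases i
  · exact h00
  · exact e1.trans e3
  · exact e3
  · exact h11

/-- the curvature vanishes at a point iff the Christoffel symbols are holomorphic there -/
theorem curv_eq_zero_iff (hK : IsK H f r U) {z : C2} (hz : z ∈ U) :
    (∀ u v w, curv (kΓ H) z u v w = 0) ↔ ∀ i j k l, dzbar l (chris H i j k) z = 0 := by
  constructor
  · intro h i j k l
    refine FlatUCD_alg (fun l i => dzbar l (chris H i j k) z) (fun u v => ?_) l i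
    have h1 := congrFun (h u v (Pi.single j 1)) k
    rw [FlatUCD_curv hK hz, Pi.zero_apply] at h1
    rw [← h1]
    refine Finset.sum_congr rfl fun l _ => Finset.sum_congr rfl fun i _ => ?_
    rw [Finset.sum_eq_single j]
    · simp
    · intro j' _ hj'
      rw [Pi.single_eq_of_ne hj', mul_zero]
    · intro hj
      exact absurd (Finset.mem_univ j) hj
  · intro h u v w
    funext k
    rw [FlatUCD_curv hK hz]
    simp [h]

end Pool.Agent.Lib.MP_6c284f_gt
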