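import Pool.Agent.Lib.MP_6c284f_gt.FlatUCC
import Pool.Agent.Lib.MP_6c284f_gt.FlatUCD

set_option autoImplicit false
set_option maxSynthPendingDepth 5

/-!
Unique continuation of flatness for Ricci-flat Kähler metrics in a chart.
-/

namespace Pool.Agent.Lib.MP_6c284f_gt

open scoped Manifold ContDiff Topology ComplexConjugate Matrix
open Set

variable {H : C2 → Matrix (Fin 2) (Fin 2) ℂ} {f : C2 → ℂ} {r : ℝ} {U : Set C2}

theorem fu_smooth_dzbar {g : C2 → ℂ} (hU : IsOpen U) (hg : ContDiffOn ℝ ∞ g U) (l : Fin 2) :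
    ContDiffOn ℝ ∞ (dzbar l g) U := by
  have h1 : ContDiffOn ℝ ∞ (fderiv ℝ g) U := hg.fderiv_of_isOpen hU (by decide)
  have h2 : ∀ v : C2, ContDiffOn ℝ ∞ (fun z => fderiv ℝ g z v) U := fun v =>
    h1.clm_apply contDiffOn_const
  unfold dzbar
  exact ((h2 _).add (contDiffOn_const.mul (h2 _))).div_const 2

theorem fu_det (A : Matrix (Fin 2) (Fin 2) ℂ) : A.det = A 0 0 * A 1 1 - A 0 1 * A 1 0 :=
  Matrix.det_fin_two A

theorem fu_inv (A : Matrix (Fin 2) (Fin 2) ℂ) :
    A⁻¹ = A.det⁻¹ • !![A 1 1, -A 0 1; -A 1 0, A 0 0] := by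
  rw [Matrix.inv_def, Ring.inverse_eq_inv', Matrix.adjugate_fin_two]

theorem fu_smooth_inv (hK : IsK H f r U) (p q : Fin 2) :
    ContDiffOn ℝ ∞ (fun z => (H z)⁻¹ p q) U := by
  have hdet : ContDiffOn ℝ ∞ (fun z => (H z).det) U := by
    have h1 : (fun z => (H z).det) = fun z => H z 0 0 * H z 1 1 - H z 0 1 * H z 1 0 :=
      funext fun z => fu_det (H z)
    rw [h1]
    exact ((hK.smooth 0 0).mul (hK.smooth 1 1)).sub ((hK.smooth 0 1).mul (hK.smooth 1 0))
  have hne : ∀ z ∈ U, (H z).det ≠ 0 := by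
    intro z hz h0
    have := (k_det_pos hK hz).1
    rw [h0] at this
    simp at this
  have hinv : ContDiffOn ℝ ∞ (fun z => ((H z).det)⁻¹) U := hdet.inv hne
  have h2 : (fun z => (H z)⁻¹ p q) =
      fun z => ((H z).det)⁻¹ * (!![H z 1 1, -H z 0 1; -H z 1 0, H z 0 0] :
        Matrix (Fin 2) (Fin 2) ℂ) p q := by
    funext z
    rw [fu_inv]
    rfl
  rw [h2]
  refine hinv.mul ?_
  fin_cases p <;> fin_cases q
  · exact hK.smooth 1 1
  · exact (hK.smooth 0 1).neg
  · exact (hK.smooth 1 0).neg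
  · exact hK.smooth 0 0

theorem fu_pos (hK : IsK H f r U) {z : C2} (hz : z ∈ U) {v : C2} (hv : v ≠ 0) :
    0 < (∑ i, ∑ j, ((H z)⁻¹)ᵀ i j * v i * conj (v j)).re := by
  obtain ⟨hd, hi⟩ := k_det_pos hK hz
  have hdet : (H z).det = (((H z).det.re : ℝ) : ℂ) := by
    apply Complex.ext <;> simp [hi]
  have hw : (![-v 1, v 0] : C2) ≠ 0 := by
    intro h
    apply hv
    funext i
    have h0 := congrFun h 0
    have h1 := congrFun h 1
    simp at h0 h1
    fin_cases i
    · simpa using h1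
    · simpa using h0
  have hp := hK.pos z hz _ hw
  have hh : H z 1 0 = conj (H z 0 1) := by
    have := (hK.herm z hz).apply 1 0
    simpa using this.symm
  have h00 : conj (H z 0 0) = H z 0 0 := by
    have := (hK.herm z hz).apply 0 0
    simpa using this
  have h11 : conj (H z 1 1) = H z 1 1 := by
    have := (hK.herm z hz).apply 1 1
    simpa using this
  have key : (∑ i, ∑ j, ((H z)⁻¹)ᵀ i j * v i * conj (v j)).re =
      ((H z).det.re)⁻¹ * (∑ i, ∑ j, H z i j * (![-v 1, v 0] : C2) i *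
        conj ((![-v 1, v 0] : C2) j)).re := by
    rw [fu_inv, hdet]
    rw [← Complex.ofReal_inv, ← Complex.re_ofReal_mul]
    congr 1
    simp only [Fin.sum_univ_two, Matrix.transpose_apply, Matrix.smul_apply, Matrix.of_apply,
      Matrix.cons_val_zero, Matrix.cons_val_one, smul_eq_mul, map_neg]
    simp only [Complex.ofReal_re]
    rw [hh]
    ring
  rw [key]
  exact mul_pos (inv_pos.2 hd) hp

theorem kahler_uc (hK : IsK H f r U) (hconn : IsPreconnected U) {O : Set C2} (hO : IsOpen O)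
    (hOU : O ⊆ U) (hne : O.Nonempty)
    (hzero : ∀ z ∈ O, ∀ i j k l, dzbar l (chris H i j k) z = 0) :
    ∀ z ∈ U, ∀ i j k l, dzbar l (chris H i j k) z = 0 := by
  have h := complex_uc (ι := Fin 2 × Fin 2 × Fin 2 × Fin 2) hK.isOpen hconn
    (fun z => ((H z)⁻¹)ᵀ) (fun p q => fu_smooth_inv hK q p)
    (fun z hz => (hK.herm z hz).inv.transpose) (fun z hz v hv => fu_pos hK hz hv)
    (fun m => cur H m.1 m.2.1 m.2.2.1 m.2.2.2)
    (fun m => fu_smooth_dzbar hK.isOpen (k_smooth_chris hK _ _ _) _) ?_ hO hOU hne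
    (fun z hz m => hzero z hz _ _ _ _)
  · intro z hz i j k l
    exact h z hz (i, j, k, l)
  · intro z hz
    obtain ⟨C, hC⟩ := kahler_elliptic hK hz
    refine ⟨C, ?_⟩
    filter_upwards [hC] with y hy m
    have h1 := hy m.1 m.2.1 m.2.2.1 m.2.2.2
    simp only [Fintype.sum_prod_type]
    exact h1

end Pool.Agent.Lib.MP_6c284f_gt
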