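import Pool.Agent.Lib.MP_6c284f_gt.KahlerE

set_option autoImplicit false
set_option maxSynthPendingDepth 5

/-!
Calculus of the Wirtinger derivatives and of the Christoffel symbols of a Kähler metric.
-/

namespace Pool.Agent.Lib.MP_6c284f_gt

open scoped Manifold ContDiff Topology ComplexConjugate Matrix
open Set

variable {H : C2 → Matrix (Fin 2) (Fin 2) ℂ} {f : C2 → ℂ} {r : ℝ} {U : Set C2}

/-- real derivative in terms of Wirtinger derivatives -/
theorem fderiv_eq_dz {g : C2 → ℂ} {z : C2} (v : C2) :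
    fderiv ℝ g z v = ∑ k, (dz k g z * v k + dzbar k g z * conj (v k)) := by
  have hv : v = ∑ k : Fin 2, ((v k).re • (Pi.single k (1 : ℂ) : C2) +
      (v k).im • (Pi.single k Complex.I : C2)) := by
    funext i
    fin_cases i <;> simp [Fin.sum_univ_two]
  conv_lhs => rw [hv]
  rw [map_sum]
  refine Finset.sum_congr rfl fun k _ => ?_
  rw [map_add, map_smul, map_smul]
  unfold dz dzbar
  simp only [Complex.real_smul]
  generalize fderiv ℝ g z (Pi.single k 1) = a
  generalize fderiv ℝ g z (Pi.single k Complex.I) = b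
  have h1 : v k = (v k).re + (v k).im * Complex.I := (Complex.re_add_im _).symm
  have h2 : conj (v k) = (v k).re - (v k).im * Complex.I := by
    apply Complex.ext <;> simp
  rw [h2]
  linear_combination (-(a - Complex.I * b) / 2) * h1 + (b * (v k).im) * Complex.I_sq

theorem dz_mul {g h : C2 → ℂ} {z : C2} (hg : DifferentiableAt ℝ g z)
    (hh : DifferentiableAt ℝ h z) (k : Fin 2) :
    dz k (fun y => g y * h y) z = dz k g z * h z + g z * dz k h z := by
  unfold dz
  rw [fderiv_fun_mul hg hh]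
  simp only [add_apply, smul_apply, smul_eq_mul]
  ring

theorem dzbar_mul {g h : C2 → ℂ} {z : C2} (hg : DifferentiableAt ℝ g z)
    (hh : DifferentiableAt ℝ h z) (k : Fin 2) :
    dzbar k (fun y => g y * h y) z = dzbar k g z * h z + g z * dzbar k h z := by
  unfold dzbar
  rw [fderiv_fun_mul hg hh]
  simp only [add_apply, smul_apply, smul_eq_mul]
  ring

private theorem flatUCAA_fderiv {g : C2 → ℂ} {z : C2} (hg : ContDiffAt ℝ ∞ g z) (a b : C2)
    (w : C2) (s : ℂ) :
    fderiv ℝ (fun y => (fderiv ℝ g y a + s * fderiv ℝ g y b) / 2) z w =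
      (fderiv ℝ (fderiv ℝ g) z w a + s * fderiv ℝ (fderiv ℝ g) z w b) / 2 := by
  have h2 : ContDiffAt ℝ 1 (fderiv ℝ g) z := hg.fderiv_right (m := 1) (by norm_cast)
  have h3 : DifferentiableAt ℝ (fderiv ℝ g) z := h2.differentiableAt (by simp)
  have h4 : ∀ a : C2, HasFDerivAt (fun y => fderiv ℝ g y a)
      ((fderiv ℝ (fderiv ℝ g) z).flip a) z := by
    intro a
    have := h3.hasFDerivAt.clm_apply (hasFDerivAt_const a z)
    simpa using this
  have h5 := ((h4 a).add ((h4 b).const_mul s)).mul_const (2⁻¹ : ℂ)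
  have h6 : (fun y => (fderiv ℝ g y a + s * fderiv ℝ g y b) / 2) =
      fun y => (fderiv ℝ g y a + s * fderiv ℝ g y b) * 2⁻¹ := by
    funext y
    rw [div_eq_mul_inv]
  rw [h6]
  have h7 := h5.fderiv
  simp only [Pi.add_apply] at h7
  rw [show (fun y => (fderiv ℝ g y a + s * fderiv ℝ g y b) * 2⁻¹) =
    (fun y => ((fun y => fderiv ℝ g y a) y + s * (fun y => fderiv ℝ g y b) y) * 2⁻¹) from rfl]
  rw [h7]
  simp
  ring

private theorem flatUCAA_dz {g : C2 → ℂ} {z : C2} (hg : ContDiffAt ℝ ∞ g z) (l : Fin 2) (w : C2) :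
    fderiv ℝ (dz l g) z w = (fderiv ℝ (fderiv ℝ g) z w (Pi.single l 1) -
      Complex.I * fderiv ℝ (fderiv ℝ g) z w (Pi.single l Complex.I)) / 2 := by
  have h1 := flatUCAA_fderiv hg (Pi.single l 1) (Pi.single l Complex.I) w (-Complex.I)
  have h2 : dz l g = fun y => (fderiv ℝ g y (Pi.single l 1) +
      (-Complex.I) * fderiv ℝ g y (Pi.single l Complex.I)) / 2 := by
    funext y
    unfold dz
    ring
  rw [h2, h1]
  ring

private theorem flatUCAA_dzbar {g : C2 → ℂ} {z : C2} (hg : ContDiffAt ℝ ∞ g z) (l : Fin 2)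
    (w : C2) :
    fderiv ℝ (dzbar l g) z w = (fderiv ℝ (fderiv ℝ g) z w (Pi.single l 1) +
      Complex.I * fderiv ℝ (fderiv ℝ g) z w (Pi.single l Complex.I)) / 2 :=
  flatUCAA_fderiv hg (Pi.single l 1) (Pi.single l Complex.I) w Complex.I

theorem dz_comm {g : C2 → ℂ} (hU : IsOpen U) (hg : ContDiffOn ℝ ∞ g U) {z : C2} (hz : z ∈ U)
    (k l : Fin 2) : dz k (dz l g) z = dz l (dz k g) z ∧
      dz k (dzbar l g) z = dzbar l (dz k g) z ∧ dzbar k (dzbar l g) z = dzbar l (dzbar k g) z := by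
  have h1 : ContDiffAt ℝ ∞ g z := hg.contDiffAt (hU.mem_nhds hz)
  have hs : ∀ a b : C2, fderiv ℝ (fderiv ℝ g) z a b = fderiv ℝ (fderiv ℝ g) z b a := fun a b =>
    (h1.isSymmSndFDerivAt (by
      rw [minSmoothness_of_isRCLikeNormedField]
      exact WithTop.coe_le_coe.2 le_top)).eq a b
  have e1 : ∀ (k : Fin 2) (φ : C2 → ℂ), dz k φ z = (fderiv ℝ φ z (Pi.single k 1) -
      Complex.I * fderiv ℝ φ z (Pi.single k Complex.I)) / 2 := fun _ _ => rfl
  have e2 : ∀ (k : Fin 2) (φ : C2 → ℂ), dzbar k φ z = (fderiv ℝ φ z (Pi.single k 1) +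
      Complex.I * fderiv ℝ φ z (Pi.single k Complex.I)) / 2 := fun _ _ => rfl
  have s1 := hs (Pi.single k 1) (Pi.single l 1)
  have s2 := hs (Pi.single k 1) (Pi.single l Complex.I)
  have s3 := hs (Pi.single k Complex.I) (Pi.single l 1)
  have s4 := hs (Pi.single k Complex.I) (Pi.single l Complex.I)
  refine ⟨?_, ?_, ?_⟩
  · rw [e1, e1, flatUCAA_dz h1, flatUCAA_dz h1, flatUCAA_dz h1, flatUCAA_dz h1, s1, s2, s3, s4]
    ring
  · rw [e1, e2, flatUCAA_dz h1, flatUCAA_dz h1, flatUCAA_dzbar h1, flatUCAA_dzbar h1,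
      s1, s2, s3, s4]
    ring
  · rw [e2, e2, flatUCAA_dzbar h1, flatUCAA_dzbar h1, flatUCAA_dzbar h1, flatUCAA_dzbar h1,
      s1, s2, s3, s4]
    ring

theorem dz_conj {g : C2 → ℂ} {z : C2} (k : Fin 2) :
    dz k (fun y => conj (g y)) z = conj (dzbar k g z) ∧
      dzbar k (fun y => conj (g y)) z = conj (dz k g z) := by
  have h1 : ∀ v, fderiv ℝ (fun y => conj (g y)) z v = conj (fderiv ℝ g z v) := by
    intro v
    have h2 : (fun y => conj (g y)) = Complex.conjCLE ∘ g := rfl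
    rw [h2, ContinuousLinearEquiv.comp_fderiv]
    rfl
  unfold dz dzbar
  rw [h1, h1]
  constructor
  · simp only [map_div₀, map_add, map_mul, Complex.conj_I, map_ofNat]
    ring
  · simp only [map_div₀, map_sub, map_mul, Complex.conj_I, map_ofNat]
    ring

end Pool.Agent.Lib.MP_6c284f_gt
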