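import Pool.Agent.Lib.MP_6c284f_gt.KahlerE
import Pool.Agent.Lib.MP_6c284f_gt.FlatUCAA

set_option autoImplicit false
set_option maxSynthPendingDepth 5

/-!
Calculus of the Wirtinger derivatives and of the Christoffel symbols of a Kähler metric.
-/

namespace Pool.Agent.Lib.MP_6c284f_gt

open scoped Manifold ContDiff Topology ComplexConjugate Matrix
open Set

variable {H : C2 → Matrix (Fin 2) (Fin 2) ℂ} {f : C2 → ℂ} {r : ℝ} {U : Set C2}

private theorem dz_add_UCAB {g h : C2 → ℂ} {z : C2} (hg : DifferentiableAt ℝ g z)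
    (hh : DifferentiableAt ℝ h z) (k : Fin 2) :
    dz k (fun y => g y + h y) z = dz k g z + dz k h z := by
  unfold dz
  have e : fderiv ℝ (fun y => g y + h y) z = fderiv ℝ g z + fderiv ℝ h z := fderiv_fun_add hg hh
  rw [e]
  simp only [_root_.add_apply]
  ring

private theorem dz_congr_UCAB {g h : C2 → ℂ} {z : C2} (h1 : g =ᶠ[𝓝 z] h) (k : Fin 2) :
    dz k g z = dz k h z := by
  unfold dz
  rw [h1.fderiv_eq]

private theorem dz_const_UCAB (c : ℂ) (z : C2) (k : Fin 2) : dz k (fun _ => c) z = 0 := by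
  unfold dz
  simp

private theorem ent_UCAB (hK : IsK H f r U) {z : C2} (hz : z ∈ U) (i j : Fin 2) :
    ContDiffAt ℝ ∞ (fun y => H y i j) z :=
  (hK.smooth i j).contDiffAt (hK.isOpen.mem_nhds hz)

private theorem det_ne_UCAB (hK : IsK H f r U) {z : C2} (hz : z ∈ U) : (H z).det ≠ 0 := by
  intro h
  have := (k_det_pos hK hz).1
  rw [h] at this
  simp at this

private theorem inv_diff_UCAB (hK : IsK H f r U) {z : C2} (hz : z ∈ U) (a b : Fin 2) :
    DifferentiableAt ℝ (fun y => (H y)⁻¹ a b) z := by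
  have hd : ∀ i j, DifferentiableAt ℝ (fun y => H y i j) z := fun i j =>
    (ent_UCAB hK hz i j).differentiableAt (by simp)
  have hdet : DifferentiableAt ℝ (fun y => (H y).det) z := by
    simp only [Matrix.det_fin_two]
    exact ((hd 0 0).mul (hd 1 1)).sub ((hd 0 1).mul (hd 1 0))
  have hadj : DifferentiableAt ℝ (fun y => (H y).adjugate a b) z := by
    simp only [Matrix.adjugate_fin_two]
    fin_cases a <;> fin_cases b
    · exact hd 1 1
    · exact (hd 0 1).neg
    · exact (hd 1 0).neg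
    · exact hd 0 0
  have e : (fun y => (H y)⁻¹ a b) = fun y => ((H y).det)⁻¹ * (H y).adjugate a b := by
    funext y
    rw [Matrix.inv_def, Ring.inverse_eq_inv']
    rfl
  rw [e]
  exact (hdet.inv (det_ne_UCAB hK hz)).mul hadj

private theorem mul_inv_UCAB (hK : IsK H f r U) {z : C2} (hz : z ∈ U) (j k : Fin 2) :
    H z j 0 * (H z)⁻¹ 0 k + H z j 1 * (H z)⁻¹ 1 k = (1 : Matrix (Fin 2) (Fin 2) ℂ) j k := by
  have h : H z * (H z)⁻¹ = 1 :=
    Matrix.mul_nonsing_inv _ (isUnit_iff_ne_zero.2 (det_ne_UCAB hK hz))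
  rw [← h, Matrix.mul_apply, Fin.sum_univ_two]

private theorem inv_mul_UCAB (hK : IsK H f r U) {z : C2} (hz : z ∈ U) (j k : Fin 2) :
    (H z)⁻¹ j 0 * H z 0 k + (H z)⁻¹ j 1 * H z 1 k = (1 : Matrix (Fin 2) (Fin 2) ℂ) j k := by
  have h : (H z)⁻¹ * H z = 1 :=
    Matrix.nonsing_inv_mul _ (isUnit_iff_ne_zero.2 (det_ne_UCAB hK hz))
  rw [← h, Matrix.mul_apply, Fin.sum_univ_two]

private theorem dz_inv_UCAB (hK : IsK H f r U) {z : C2} (hz : z ∈ U) (p a k : Fin 2) :
    dz p (fun y => (H y)⁻¹ a k) z =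
      -((H z)⁻¹ a 0 * chris H p 0 k z + (H z)⁻¹ a 1 * chris H p 1 k z) := by
  have hd : ∀ i j, DifferentiableAt ℝ (fun y => H y i j) z := fun i j =>
    (ent_UCAB hK hz i j).differentiableAt (by simp)
  have hi : ∀ i j, DifferentiableAt ℝ (fun y => (H y)⁻¹ i j) z := fun i j =>
    inv_diff_UCAB hK hz i j
  -- derivative of `H * H⁻¹ = 1`
  have key : ∀ j, H z j 0 * dz p (fun y => (H y)⁻¹ 0 k) z + H z j 1 * dz p (fun y => (H y)⁻¹ 1 k) z =
      -chris H p j k z := by
    intro j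
    have h0 : dz p (fun y => H y j 0 * (H y)⁻¹ 0 k + H y j 1 * (H y)⁻¹ 1 k) z = 0 := by
      rw [dz_congr_UCAB (h := fun _ => (1 : Matrix (Fin 2) (Fin 2) ℂ) j k)]
      · exact dz_const_UCAB _ _ _
      · filter_upwards [hK.isOpen.mem_nhds hz] with y hy
        exact mul_inv_UCAB hK hy j k
    rw [dz_add_UCAB ((hd j 0).fun_mul (hi 0 k)) ((hd j 1).fun_mul (hi 1 k)), dz_mul (hd j 0) (hi 0 k),
      dz_mul (hd j 1) (hi 1 k)] at h0
    simp only [chris, Fin.sum_univ_two]
    linear_combination h0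
  have k0 := key 0
  have k1 := key 1
  have e0 := inv_mul_UCAB hK hz a 0
  have e1 := inv_mul_UCAB hK hz a 1
  set D0 := dz p (fun y => (H y)⁻¹ 0 k) z with hD0
  set D1 := dz p (fun y => (H y)⁻¹ 1 k) z with hD1
  have hD : ∀ a : Fin 2, dz p (fun y => (H y)⁻¹ a k) z = (1 : Matrix (Fin 2) (Fin 2) ℂ) a 0 * D0 +
      (1 : Matrix (Fin 2) (Fin 2) ℂ) a 1 * D1 := by
    rw [Fin.forall_fin_two]
    constructor
    · rw [Matrix.one_apply_eq, Matrix.one_apply_ne (by decide), one_mul, zero_mul, add_zero]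
    · rw [Matrix.one_apply_eq, Matrix.one_apply_ne (by decide), one_mul, zero_mul, zero_add]
  rw [hD a, ← e0, ← e1]
  linear_combination (H z)⁻¹ a 0 * k0 + (H z)⁻¹ a 1 * k1

/-- vanishing of the (2,0) part of the curvature of the Chern connection -/
theorem chris_flat20 (hK : IsK H f r U) {z : C2} (hz : z ∈ U) (p i j k : Fin 2) :
    dz p (chris H i j k) z - dz i (chris H p j k) z =
      ∑ m, (chris H i m k z * chris H p j m z - chris H p m k z * chris H i j m z) := by
  have hi : ∀ i j, DifferentiableAt ℝ (fun y => (H y)⁻¹ i j) z := fun i j =>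
    inv_diff_UCAB hK hz i j
  have hdz : ∀ q l, DifferentiableAt ℝ (fun y => dz q (fun x => H x j l) y) z := by
    intro q l
    have h1 : ContDiffAt ℝ 1 (fderiv ℝ (fun x => H x j l)) z :=
      (ent_UCAB hK hz j l).fderiv_right (m := 1) (by norm_cast)
    have h2 : ∀ v : C2, DifferentiableAt ℝ (fun y => fderiv ℝ (fun x => H x j l) y v) z :=
      fun v => (h1.differentiableAt (by norm_num)).clm_apply (differentiableAt_const v)
    have h3 : DifferentiableAt ℝ (fun y => fderiv ℝ (fun x => H x j l) y (Pi.single q 1) -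
        Complex.I * fderiv ℝ (fun x => H x j l) y (Pi.single q Complex.I)) z :=
      (h2 _).fun_sub ((h2 _).const_mul Complex.I)
    have h4 := h3.mul_const ((2 : ℂ)⁻¹)
    simpa only [dz, div_eq_mul_inv] using h4
  have hch : ∀ q s : Fin 2, dz q (chris H s j k) z =
      (dz q (fun y => (H y)⁻¹ 0 k) z * dz s (fun y => H y j 0) z +
        (H z)⁻¹ 0 k * dz q (fun y => dz s (fun x => H x j 0) y) z) +
      (dz q (fun y => (H y)⁻¹ 1 k) z * dz s (fun y => H y j 1) z +
        (H z)⁻¹ 1 k * dz q (fun y => dz s (fun x => H x j 1) y) z) := by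
    intro q s
    have e : chris H s j k = fun y => (H y)⁻¹ 0 k * dz s (fun x => H x j 0) y +
        (H y)⁻¹ 1 k * dz s (fun x => H x j 1) y := by
      funext y
      simp only [chris, Fin.sum_univ_two]
    rw [e, dz_add_UCAB ((hi 0 k).fun_mul (hdz s 0)) ((hi 1 k).fun_mul (hdz s 1)),
      dz_mul (hi 0 k) (hdz s 0), dz_mul (hi 1 k) (hdz s 1)]
  have hc : ∀ l, dz p (fun y => dz i (fun x => H x j l) y) z =
      dz i (fun y => dz p (fun x => H x j l) y) z := fun l =>
    (dz_comm hK.isOpen (hK.smooth j l) hz p i).1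
  rw [hch p i, hch i p, dz_inv_UCAB hK hz p 0 k, dz_inv_UCAB hK hz p 1 k,
    dz_inv_UCAB hK hz i 0 k, dz_inv_UCAB hK hz i 1 k, hc 0, hc 1, Fin.sum_univ_two]
  have c1 : ∀ q s, chris H q j s z = (H z)⁻¹ 0 s * dz q (fun y => H y j 0) z +
      (H z)⁻¹ 1 s * dz q (fun y => H y j 1) z := by
    intro q s
    simp only [chris, Fin.sum_univ_two]
  rw [c1 p 0, c1 p 1, c1 i 0, c1 i 1]
  ring

end Pool.Agent.Lib.MP_6c284f_gt
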