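import Pool.Agent.Lib.MP_6c284f_gt.KahlerE
import Pool.Agent.Lib.MP_6c284f_gt.FlatUCAA
import Pool.Agent.Lib.MP_6c284f_gt.FlatUCAB

set_option autoImplicit false
set_option maxSynthPendingDepth 5

/-!
Calculus of the Wirtinger derivatives and of the Christoffel symbols of a Kähler metric.
-/

namespace Pool.Agent.Lib.MP_6c284f_gt

open scoped Manifold ContDiff Topology ComplexConjugate Matrix
open Set

variable {H : C2 → Matrix (Fin 2) (Fin 2) ℂ} {f : C2 → ℂ} {r : ℝ} {U : Set C2}

theorem FlatUCA_dz_congr {g h : C2 → ℂ} {z : C2} (e : g =ᶠ[𝓝 z] h) (k : Fin 2) :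
    dz k g z = dz k h z := by
  unfold dz
  rw [e.fderiv_eq]

theorem FlatUCA_dzbar_congr {g h : C2 → ℂ} {z : C2} (e : g =ᶠ[𝓝 z] h) (k : Fin 2) :
    dzbar k g z = dzbar k h z := by
  unfold dzbar
  rw [e.fderiv_eq]

theorem FlatUCA_dz_zero (z : C2) (k : Fin 2) : dz k (fun _ => 0) z = 0 := by
  unfold dz
  simp

theorem FlatUCA_dzbar_sum {g : Fin 2 → C2 → ℂ} {z : C2} (h : ∀ i, DifferentiableAt ℝ (g i) z)
    (k : Fin 2) : dzbar k (fun y => ∑ i, g i y) z = ∑ i, dzbar k (g i) z := by
  unfold dzbar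
  rw [fderiv_fun_sum (fun i _ => h i)]
  simp only [Fin.sum_univ_two, ContinuousLinearMap.add_apply]
  ring

theorem FlatUCA_diff_H (hK : IsK H f r U) {z : C2} (hz : z ∈ U) (i j : Fin 2) :
    DifferentiableAt ℝ (fun y => H y i j) z :=
  ((hK.smooth i j).contDiffAt (hK.isOpen.mem_nhds hz)).differentiableAt (by simp)

theorem FlatUCA_diff_chris (hK : IsK H f r U) {z : C2} (hz : z ∈ U) (i j k : Fin 2) :
    DifferentiableAt ℝ (chris H i j k) z :=
  ((k_smooth_chris hK i j k).contDiffAt (hK.isOpen.mem_nhds hz)).differentiableAt (by simp)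

theorem FlatUCA_diff_f (hK : IsK H f r U) {z : C2} (hz : z ∈ U) : DifferentiableAt ℂ f z :=
  (hK.holo.contDiffAt (hK.isOpen.mem_nhds hz)).differentiableAt (by simp)

theorem FlatUCA_holo {g : C2 → ℂ} {z : C2} (hg : DifferentiableAt ℂ g z) (k : Fin 2) :
    dzbar k g z = 0 := by
  unfold dzbar
  rw [hg.fderiv_restrictScalars ℝ]
  simp only [ContinuousLinearMap.coe_restrictScalars']
  have h : (Pi.single k Complex.I : C2) = Complex.I • Pi.single k 1 := by
    rw [← Pi.single_smul]
    simp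
  rw [h, map_smul, smul_eq_mul, ← mul_assoc, Complex.I_mul_I]
  ring

/-- the Ricci curvature vanishes: trace over the last two indices -/
theorem chris_ricci (hK : IsK H f r U) {z : C2} (hz : z ∈ U) (i l : Fin 2) :
    ∑ k, dzbar l (chris H i k k) z = 0 := by
  have hU := hK.isOpen.mem_nhds hz
  have hf0 := k_f_ne hK hz
  rw [← FlatUCA_dzbar_sum (fun k => FlatUCA_diff_chris hK hz i k k)]
  have h1 : (fun y => f y * ∑ k, chris H i k k y) =ᶠ[𝓝 z] dz i f := by
    filter_upwards [hU] with y hy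
    exact k_trace hK hy i
  have h2 : dzbar l (fun y => f y * ∑ k, chris H i k k y) z = 0 := by
    rw [FlatUCA_dzbar_congr h1]
    have hfs : ContDiffOn ℝ ∞ f U := (hK.holo.restrict_scalars ℝ).of_le (by simp)
    rw [← (dz_comm hK.isOpen hfs hz i l).2.1]
    have h3 : dzbar l f =ᶠ[𝓝 z] fun _ => 0 := by
      filter_upwards [hU] with y hy
      exact FlatUCA_holo (FlatUCA_diff_f hK hy) l
    rw [FlatUCA_dz_congr h3, FlatUCA_dz_zero]
  have hd : DifferentiableAt ℝ (fun y => ∑ k, chris H i k k y) z :=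
    DifferentiableAt.fun_sum fun k _ => FlatUCA_diff_chris hK hz i k k
  rw [dzbar_mul ((FlatUCA_diff_f hK hz).restrictScalars ℝ) hd,
    FlatUCA_holo (FlatUCA_diff_f hK hz) l, zero_mul, zero_add] at h2
  exact (mul_eq_zero.1 h2).resolve_left hf0

theorem FlatUCA_det (hK : IsK H f r U) {z : C2} (hz : z ∈ U) : IsUnit (H z).det := by
  rw [isUnit_iff_ne_zero]
  intro h
  have := (k_det_pos hK hz).1
  rw [h] at this
  simp at this

/-- conjugate form of the closedness -/
theorem FlatUCA_closed (hK : IsK H f r U) {z : C2} (hz : z ∈ U) (k m q : Fin 2) :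
    dzbar q (fun y => H y k m) z = dzbar m (fun y => H y k q) z := by
  have hU := hK.isOpen.mem_nhds hz
  have h : ∀ i j, (fun y => H y i j) =ᶠ[𝓝 z] fun y => conj (H y j i) := by
    intro i j
    filter_upwards [hU] with y hy
    exact ((hK.herm y hy).apply i j).symm
  rw [FlatUCA_dzbar_congr (h k m), FlatUCA_dzbar_congr (h k q), (dz_conj q).2, (dz_conj m).2,
    hK.closed z hz m k q]

/-- lowering the last index of the connection -/
theorem FlatUCA_lower (hK : IsK H f r U) {z : C2} (hz : z ∈ U) (p j m : Fin 2) :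
    ∑ k, chris H p j k z * H z k m = dz p (fun y => H y j m) z := by
  have h1 : (H z)⁻¹ * H z = 1 := Matrix.nonsing_inv_mul _ (FlatUCA_det hK hz)
  have h2 : ∀ l, ∑ k, (H z)⁻¹ l k * H z k m = if l = m then 1 else 0 := by
    intro l
    have := congrFun (congrFun h1 l) m
    rw [Matrix.mul_apply, Matrix.one_apply] at this
    exact this
  unfold chris
  simp_rw [Finset.sum_mul]
  rw [Finset.sum_comm]
  have h3 : ∀ l, ∑ k, (H z)⁻¹ l k * dz p (fun y => H y j l) z * H z k m =
      (if l = m then 1 else 0) * dz p (fun y => H y j l) z := by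
    intro l
    rw [← h2 l, Finset.sum_mul]
    refine Finset.sum_congr rfl fun k _ => ?_
    ring
  rw [Finset.sum_congr rfl fun l _ => h3 l]
  simp

theorem FlatUCA_symm (hK : IsK H f r U) {z : C2} (hz : z ∈ U) (p j q m : Fin 2) :
    ∑ k, dzbar q (chris H p j k) z * H z k m = ∑ k, dzbar m (chris H p j k) z * H z k q := by
  have hU := hK.isOpen.mem_nhds hz
  have key : ∀ q m, ∑ k, dzbar q (chris H p j k) z * H z k m =
      dz p (dzbar q (fun y => H y j m)) z -
        ∑ k, chris H p j k z * dzbar q (fun y => H y k m) z := by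
    intro q m
    have h1 : (fun y => ∑ k, chris H p j k y * H y k m) =ᶠ[𝓝 z] dz p (fun y => H y j m) := by
      filter_upwards [hU] with y hy
      exact FlatUCA_lower hK hy p j m
    have h2 := FlatUCA_dzbar_congr h1 q
    rw [FlatUCA_dzbar_sum (g := fun k y => chris H p j k y * H y k m)
      (fun k => (FlatUCA_diff_chris hK hz p j k).mul (FlatUCA_diff_H hK hz k m))] at h2
    have h3 : ∀ k, dzbar q (fun y => chris H p j k y * H y k m) z =
        dzbar q (chris H p j k) z * H z k m +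
          chris H p j k z * dzbar q (fun y => H y k m) z := fun k =>
      dzbar_mul (FlatUCA_diff_chris hK hz p j k) (FlatUCA_diff_H hK hz k m) q
    rw [Finset.sum_congr rfl fun k _ => h3 k, Finset.sum_add_distrib] at h2
    rw [(dz_comm hK.isOpen (hK.smooth j m) hz p q).2.1, ← h2]
    ring
  rw [key, key]
  have h1 : dzbar q (fun y => H y j m) =ᶠ[𝓝 z] dzbar m (fun y => H y j q) := by
    filter_upwards [hU] with y hy
    exact FlatUCA_closed hK hy j m q
  rw [FlatUCA_dz_congr h1]
  congr 1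
  refine Finset.sum_congr rfl fun k _ => ?_
  rw [FlatUCA_closed hK hz k m q]

theorem FlatUCA_matrix (A B : Matrix (Fin 2) (Fin 2) ℂ) (hAB : A * B = 1)
    (M : Fin 2 → Matrix (Fin 2) (Fin 2) ℂ) (hM : ∀ p, (M p * A)ᵀ = M p * A)
    (htr : ∀ m, ∑ p, M p m p = 0) (k : Fin 2) : ∑ p, ∑ q, B q p * M p q k = 0 := by
  have h1 : ∀ p, Bᵀ * M p = (M p)ᵀ * B := by
    intro p
    have h2 : M p = Aᵀ * (M p)ᵀ * B := by
      rw [← Matrix.transpose_mul, hM p, Matrix.mul_assoc, hAB, Matrix.mul_one]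
    have h3 : Bᵀ * Aᵀ = 1 := by
      rw [← Matrix.transpose_mul, hAB, Matrix.transpose_one]
    calc Bᵀ * M p = Bᵀ * (Aᵀ * (M p)ᵀ * B) := by rw [← h2]
      _ = (Bᵀ * Aᵀ) * (M p)ᵀ * B := by simp only [Matrix.mul_assoc]
      _ = (M p)ᵀ * B := by rw [h3, Matrix.one_mul]
  have h4 : ∀ p, ∑ q, B q p * M p q k = ∑ m, M p m p * B m k := by
    intro p
    have := congrFun (congrFun (h1 p) p) k
    rw [Matrix.mul_apply, Matrix.mul_apply] at this
    exact this
  rw [Finset.sum_congr rfl fun p _ => h4 p, Finset.sum_comm]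
  refine Finset.sum_eq_zero fun m _ => ?_
  rw [← Finset.sum_mul, htr m, zero_mul]

theorem FlatUCA_tors (hK : IsK H f r U) {z : C2} (hz : z ∈ U) (p j k : Fin 2) :
    chris H p j k z = chris H j p k z := by
  unfold chris
  refine Finset.sum_congr rfl fun l _ => ?_
  rw [hK.closed z hz j l p]

/-- the Ricci curvature vanishes: contraction with the inverse metric -/
theorem chris_ricci' (hK : IsK H f r U) {z : C2} (hz : z ∈ U) (j k : Fin 2) :
    ∑ p, ∑ q, (H z)⁻¹ q p * dzbar q (chris H p j k) z = 0 := by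
  have hU := hK.isOpen.mem_nhds hz
  have h1 : ∀ p q, dzbar q (chris H p j k) z = dzbar q (chris H j p k) z := by
    intro p q
    refine FlatUCA_dzbar_congr ?_ q
    filter_upwards [hU] with y hy
    exact FlatUCA_tors hK hy p j k
  simp_rw [h1]
  refine FlatUCA_matrix (H z) (H z)⁻¹ (Matrix.mul_nonsing_inv _ (FlatUCA_det hK hz))
    (fun p => Matrix.of fun q k => dzbar q (chris H j p k) z) (fun p => ?_)
    (fun m => chris_ricci hK hz j m) k
  ext a b
  rw [Matrix.transpose_apply, Matrix.mul_apply, Matrix.mul_apply]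
  exact FlatUCA_symm hK hz j p b a

end Pool.Agent.Lib.MP_6c284f_gt
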