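import Pool.Agent.Lib.MP_6c284f_gt.FlatUCA

set_option autoImplicit false
set_option maxSynthPendingDepth 5

/-!
The elliptic differential inequality for the curvature of a Ricci-flat Kähler metric.
-/

namespace Pool.Agent.Lib.MP_6c284f_gt

open scoped Manifold ContDiff Topology ComplexConjugate Matrix
open Set

variable {H : C2 → Matrix (Fin 2) (Fin 2) ℂ} {f : C2 → ℂ} {r : ℝ} {U : Set C2}

/-- a component of the curvature -/
noncomputable def cur (H : C2 → Matrix (Fin 2) (Fin 2) ℂ) (i j k l : Fin 2) (z : C2) : ℂ :=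
  dzbar l (chris H i j k) z

theorem fb_dz_congr {g h : C2 → ℂ} (hU : IsOpen U) (hgh : ∀ y ∈ U, g y = h y) (k : Fin 2)
    {z : C2} (hz : z ∈ U) : dz k g z = dz k h z := by
  have h1 : g =ᶠ[𝓝 z] h := Filter.eventuallyEq_of_mem (hU.mem_nhds hz) hgh
  unfold dz
  rw [h1.fderiv_eq]

theorem fb_dzbar_congr {g h : C2 → ℂ} (hU : IsOpen U) (hgh : ∀ y ∈ U, g y = h y) (k : Fin 2)
    {z : C2} (hz : z ∈ U) : dzbar k g z = dzbar k h z := by
  have h1 : g =ᶠ[𝓝 z] h := Filter.eventuallyEq_of_mem (hU.mem_nhds hz) hgh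
  unfold dzbar
  rw [h1.fderiv_eq]

theorem fb_smooth_fderiv (hU : IsOpen U) {g : C2 → ℂ} (hg : ContDiffOn ℝ ∞ g U) :
    ContDiffOn ℝ ∞ (fderiv ℝ g) U :=
  hg.fderiv_of_isOpen hU (by simp)

theorem fb_smooth_dz (hU : IsOpen U) {g : C2 → ℂ} (hg : ContDiffOn ℝ ∞ g U) (k : Fin 2) :
    ContDiffOn ℝ ∞ (dz k g) U := by
  have h := fb_smooth_fderiv hU hg
  have h1 : ContDiffOn ℝ ∞ (fun z => fderiv ℝ g z (Pi.single k 1)) U :=
    h.clm_apply contDiffOn_const
  have h2 : ContDiffOn ℝ ∞ (fun z => fderiv ℝ g z (Pi.single k Complex.I)) U :=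
    h.clm_apply contDiffOn_const
  exact (h1.sub (contDiffOn_const.mul h2)).div_const 2

theorem fb_smooth_dzbar (hU : IsOpen U) {g : C2 → ℂ} (hg : ContDiffOn ℝ ∞ g U) (k : Fin 2) :
    ContDiffOn ℝ ∞ (dzbar k g) U := by
  have h := fb_smooth_fderiv hU hg
  have h1 : ContDiffOn ℝ ∞ (fun z => fderiv ℝ g z (Pi.single k 1)) U :=
    h.clm_apply contDiffOn_const
  have h2 : ContDiffOn ℝ ∞ (fun z => fderiv ℝ g z (Pi.single k Complex.I)) U :=
    h.clm_apply contDiffOn_const
  exact (h1.add (contDiffOn_const.mul h2)).div_const 2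

theorem fb_diffAt (hU : IsOpen U) {g : C2 → ℂ} (hg : ContDiffOn ℝ ∞ g U) {z : C2} (hz : z ∈ U) :
    DifferentiableAt ℝ g z :=
  ((hg.contDiffAt (hU.mem_nhds hz)).differentiableAt (by simp))

theorem fb_contAt (hU : IsOpen U) {g : C2 → ℂ} (hg : ContDiffOn ℝ ∞ g U) {z : C2} (hz : z ∈ U) :
    ContinuousAt g z :=
  (hg.contDiffAt (hU.mem_nhds hz)).continuousAt

theorem fb_dz_add {g h : C2 → ℂ} {z : C2} (hg : DifferentiableAt ℝ g z)
    (hh : DifferentiableAt ℝ h z) (k : Fin 2) :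
    dz k (fun y => g y + h y) z = dz k g z + dz k h z := by
  unfold dz
  rw [fderiv_fun_add hg hh]
  simp only [add_apply]
  ring

theorem fb_dzbar_add {g h : C2 → ℂ} {z : C2} (hg : DifferentiableAt ℝ g z)
    (hh : DifferentiableAt ℝ h z) (k : Fin 2) :
    dzbar k (fun y => g y + h y) z = dzbar k g z + dzbar k h z := by
  unfold dzbar
  rw [fderiv_fun_add hg hh]
  simp only [add_apply]
  ring

theorem fb_dz_sub {g h : C2 → ℂ} {z : C2} (hg : DifferentiableAt ℝ g z)
    (hh : DifferentiableAt ℝ h z) (k : Fin 2) :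
    dz k (fun y => g y - h y) z = dz k g z - dz k h z := by
  unfold dz
  rw [fderiv_fun_sub hg hh]
  simp only [sub_apply]
  ring

theorem fb_dzbar_sub {g h : C2 → ℂ} {z : C2} (hg : DifferentiableAt ℝ g z)
    (hh : DifferentiableAt ℝ h z) (k : Fin 2) :
    dzbar k (fun y => g y - h y) z = dzbar k g z - dzbar k h z := by
  unfold dzbar
  rw [fderiv_fun_sub hg hh]
  simp only [sub_apply]
  ring

theorem fb_dz_sum {ι : Type} (s : Finset ι) {g : ι → C2 → ℂ} {z : C2}
    (hg : ∀ i ∈ s, DifferentiableAt ℝ (g i) z) (k : Fin 2) :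
    dz k (fun y => ∑ i ∈ s, g i y) z = ∑ i ∈ s, dz k (g i) z := by
  unfold dz
  rw [fderiv_fun_sum hg]
  simp only [sum_apply, Finset.mul_sum, Finset.sum_div, ← Finset.sum_sub_distrib]

theorem fb_dzbar_sum {ι : Type} (s : Finset ι) {g : ι → C2 → ℂ} {z : C2}
    (hg : ∀ i ∈ s, DifferentiableAt ℝ (g i) z) (k : Fin 2) :
    dzbar k (fun y => ∑ i ∈ s, g i y) z = ∑ i ∈ s, dzbar k (g i) z := by
  unfold dzbar
  rw [fderiv_fun_sum hg]
  simp only [sum_apply, Finset.mul_sum, Finset.sum_div, ← Finset.sum_add_distrib]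

theorem fb_dz_zero (k : Fin 2) (z : C2) : dz k (fun _ => (0 : ℂ)) z = 0 := by
  simp [dz]

theorem fb_dzbar_zero (k : Fin 2) (z : C2) : dzbar k (fun _ => (0 : ℂ)) z = 0 := by
  simp [dzbar]

theorem fb_norm_single (k : Fin 2) (c : ℂ) : ‖(Pi.single k c : C2)‖ = ‖c‖ := by
  exact Pi.norm_single (G := fun _ : Fin 2 => ℂ) c

theorem fb_norm_dz_le (g : C2 → ℂ) (k : Fin 2) (z : C2) : ‖dz k g z‖ ≤ ‖fderiv ℝ g z‖ := by
  have h1 : ‖fderiv ℝ g z (Pi.single k 1)‖ ≤ ‖fderiv ℝ g z‖ := by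
    have := (fderiv ℝ g z).le_opNorm (Pi.single k 1)
    rwa [fb_norm_single, norm_one, mul_one] at this
  have h2 : ‖fderiv ℝ g z (Pi.single k Complex.I)‖ ≤ ‖fderiv ℝ g z‖ := by
    have := (fderiv ℝ g z).le_opNorm (Pi.single k Complex.I)
    rwa [fb_norm_single, Complex.norm_I, mul_one] at this
  unfold dz
  rw [norm_div]
  have h3 := norm_sub_le (fderiv ℝ g z (Pi.single k 1))
    (Complex.I * fderiv ℝ g z (Pi.single k Complex.I))
  rw [norm_mul, Complex.norm_I, one_mul] at h3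
  have h4 : ‖(2 : ℂ)‖ = 2 := by norm_num
  rw [h4]
  linarith

theorem fb_norm_dzbar_le (g : C2 → ℂ) (k : Fin 2) (z : C2) :
    ‖dzbar k g z‖ ≤ ‖fderiv ℝ g z‖ := by
  have h1 : ‖fderiv ℝ g z (Pi.single k 1)‖ ≤ ‖fderiv ℝ g z‖ := by
    have := (fderiv ℝ g z).le_opNorm (Pi.single k 1)
    rwa [fb_norm_single, norm_one, mul_one] at this
  have h2 : ‖fderiv ℝ g z (Pi.single k Complex.I)‖ ≤ ‖fderiv ℝ g z‖ := by
    have := (fderiv ℝ g z).le_opNorm (Pi.single k Complex.I)
    rwa [fb_norm_single, Complex.norm_I, mul_one] at this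
  unfold dzbar
  rw [norm_div]
  have h3 := norm_add_le (fderiv ℝ g z (Pi.single k 1))
    (Complex.I * fderiv ℝ g z (Pi.single k Complex.I))
  rw [norm_mul, Complex.norm_I, one_mul] at h3
  have h4 : ‖(2 : ℂ)‖ = 2 := by norm_num
  rw [h4]
  linarith

/-- the controlling quantity -/
noncomputable def fbN (H : C2 → Matrix (Fin 2) (Fin 2) ℂ) (y : C2) : ℝ :=
  ∑ i', ∑ j', ∑ k', ∑ l', (‖cur H i' j' k' l' y‖ + ‖fderiv ℝ (cur H i' j' k' l') y‖)

theorem fbN_nonneg (H : C2 → Matrix (Fin 2) (Fin 2) ℂ) (y : C2) : 0 ≤ fbN H y := by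
  unfold fbN
  positivity

theorem fb_le_sum4 (F : Fin 2 → Fin 2 → Fin 2 → Fin 2 → ℝ) (h : ∀ i j k l, 0 ≤ F i j k l)
    (i j k l : Fin 2) : F i j k l ≤ ∑ i', ∑ j', ∑ k', ∑ l', F i' j' k' l' := by
  calc F i j k l ≤ ∑ l', F i j k l' :=
        Finset.single_le_sum (f := fun l' => F i j k l') (fun _ _ => h _ _ _ _)
          (Finset.mem_univ _)
    _ ≤ ∑ k', ∑ l', F i j k' l' :=
        Finset.single_le_sum (f := fun k' => ∑ l', F i j k' l')
          (fun _ _ => Finset.sum_nonneg fun _ _ => h _ _ _ _) (Finset.mem_univ _)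
    _ ≤ ∑ j', ∑ k', ∑ l', F i j' k' l' :=
        Finset.single_le_sum (f := fun j' => ∑ k', ∑ l', F i j' k' l')
          (fun _ _ => Finset.sum_nonneg fun _ _ => Finset.sum_nonneg fun _ _ => h _ _ _ _)
          (Finset.mem_univ _)
    _ ≤ ∑ i', ∑ j', ∑ k', ∑ l', F i' j' k' l' :=
        Finset.single_le_sum (f := fun i' => ∑ j', ∑ k', ∑ l', F i' j' k' l')
          (fun _ _ => Finset.sum_nonneg fun _ _ => Finset.sum_nonneg fun _ _ =>
            Finset.sum_nonneg fun _ _ => h _ _ _ _)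
          (Finset.mem_univ _)

theorem fbN_le (H : C2 → Matrix (Fin 2) (Fin 2) ℂ) (y : C2) (i j k l : Fin 2) :
    ‖cur H i j k l y‖ + ‖fderiv ℝ (cur H i j k l) y‖ ≤ fbN H y :=
  fb_le_sum4 (fun i j k l => ‖cur H i j k l y‖ + ‖fderiv ℝ (cur H i j k l) y‖)
    (fun _ _ _ _ => by positivity) i j k l

/-- a function controlled near `z` by the curvature and its first derivatives -/
def FbSmall (H : C2 → Matrix (Fin 2) (Fin 2) ℂ) (z : C2) (g : C2 → ℂ) : Prop :=
  ∃ C : ℝ, 0 ≤ C ∧ ∀ᶠ y in 𝓝 z, ‖g y‖ ≤ C * fbN H y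

theorem FbSmall.add {z : C2} {g h : C2 → ℂ} (hg : FbSmall H z g) (hh : FbSmall H z h) :
    FbSmall H z (fun y => g y + h y) := by
  obtain ⟨C, hC, h1⟩ := hg
  obtain ⟨D, hD, h2⟩ := hh
  refine ⟨C + D, by positivity, ?_⟩
  filter_upwards [h1, h2] with y h1 h2
  calc ‖g y + h y‖ ≤ ‖g y‖ + ‖h y‖ := norm_add_le _ _
    _ ≤ C * fbN H y + D * fbN H y := add_le_add h1 h2
    _ = _ := by ring

theorem FbSmall.neg {z : C2} {g : C2 → ℂ} (hg : FbSmall H z g) :
    FbSmall H z (fun y => - g y) := by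
  obtain ⟨C, hC, h1⟩ := hg
  refine ⟨C, hC, ?_⟩
  filter_upwards [h1] with y h1
  rwa [norm_neg]

theorem FbSmall.sub {z : C2} {g h : C2 → ℂ} (hg : FbSmall H z g) (hh : FbSmall H z h) :
    FbSmall H z (fun y => g y - h y) := by
  simpa only [sub_eq_add_neg] using hg.add hh.neg

theorem fbSmall_zero {z : C2} : FbSmall H z (fun _ => 0) :=
  ⟨0, le_rfl, Filter.Eventually.of_forall fun y => by simp⟩

theorem FbSmall.sum {z : C2} {ι : Type} (s : Finset ι) {g : ι → C2 → ℂ}
    (hg : ∀ i ∈ s, FbSmall H z (g i)) : FbSmall H z (fun y => ∑ i ∈ s, g i y) := by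
  classical
  induction s using Finset.induction_on with
  | empty => simpa using fbSmall_zero
  | insert a s ha ih =>
    simp only [Finset.sum_insert ha]
    exact (hg a (Finset.mem_insert_self a s)).add
      (ih fun i hi => hg i (Finset.mem_insert_of_mem hi))

theorem FbSmall.mul {z : C2} {b g : C2 → ℂ} (hb : ContinuousAt b z) (hg : FbSmall H z g) :
    FbSmall H z (fun y => b y * g y) := by
  obtain ⟨C, hC, h1⟩ := hg
  refine ⟨(‖b z‖ + 1) * C, by positivity, ?_⟩
  have h2 : ∀ᶠ y in 𝓝 z, ‖b y‖ < ‖b z‖ + 1 :=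
    hb.norm.eventually_lt continuousAt_const (by linarith)
  filter_upwards [h1, h2] with y h1 h2
  rw [norm_mul]
  calc ‖b y‖ * ‖g y‖ ≤ (‖b z‖ + 1) * (C * fbN H y) :=
        mul_le_mul h2.le h1 (norm_nonneg _) (by positivity)
    _ = _ := by ring

theorem FbSmall.mul' {z : C2} {b g : C2 → ℂ} (hb : ContinuousAt b z) (hg : FbSmall H z g) :
    FbSmall H z (fun y => g y * b y) := by
  simpa only [mul_comm] using hg.mul hb

theorem FbSmall.congr {z : C2} {g h : C2 → ℂ} (hg : FbSmall H z g)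
    (hgh : ∀ᶠ y in 𝓝 z, h y = g y) : FbSmall H z h := by
  obtain ⟨C, hC, h1⟩ := hg
  refine ⟨C, hC, ?_⟩
  filter_upwards [h1, hgh] with y h1 h2
  rwa [h2]

theorem fbSmall_cur (z : C2) (i j k l : Fin 2) : FbSmall H z (cur H i j k l) :=
  ⟨1, zero_le_one, Filter.Eventually.of_forall fun y => by
    have := fbN_le H y i j k l
    have h2 := norm_nonneg (fderiv ℝ (cur H i j k l) y)
    linarith⟩

theorem fbSmall_dz (z : C2) (p i j k l : Fin 2) : FbSmall H z (dz p (cur H i j k l)) :=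
  ⟨1, zero_le_one, Filter.Eventually.of_forall fun y => by
    have := fbN_le H y i j k l
    have h1 := fb_norm_dz_le (cur H i j k l) p y
    have h2 := norm_nonneg (cur H i j k l y)
    linarith⟩

theorem fbSmall_dzbar (z : C2) (p i j k l : Fin 2) : FbSmall H z (dzbar p (cur H i j k l)) :=
  ⟨1, zero_le_one, Filter.Eventually.of_forall fun y => by
    have := fbN_le H y i j k l
    have h1 := fb_norm_dzbar_le (cur H i j k l) p y
    have h2 := norm_nonneg (cur H i j k l y)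
    linarith⟩

theorem fb_smooth_inv (hK : IsK H f r U) (q p : Fin 2) :
    ContDiffOn ℝ ∞ (fun z => (H z)⁻¹ q p) U := by
  have hdet : ContDiffOn ℝ ∞ (fun z => (H z).det) U := by
    simp only [Matrix.det_fin_two]
    exact ((hK.smooth 0 0).mul (hK.smooth 1 1)).sub ((hK.smooth 0 1).mul (hK.smooth 1 0))
  have hne : ∀ z ∈ U, (H z).det ≠ 0 := by
    intro z hz h0
    have := (k_det_pos hK hz).1
    rw [h0] at this
    simp at this
  have hadj : ∀ a b : Fin 2, ContDiffOn ℝ ∞ (fun z => (H z).adjugate a b) U := by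
    intro a b
    simp only [Matrix.adjugate_fin_two]
    fin_cases a <;> fin_cases b
    · simpa using hK.smooth 1 1
    · simpa using (hK.smooth 0 1).neg
    · simpa using (hK.smooth 1 0).neg
    · simpa using hK.smooth 0 0
  have h : ∀ z ∈ U, (H z)⁻¹ q p = ((H z).det)⁻¹ * (H z).adjugate q p := by
    intro z hz
    rw [Matrix.inv_def, Matrix.smul_apply, Ring.inverse_eq_inv', smul_eq_mul]
  exact ((hdet.inv hne).mul (hadj q p)).congr h

theorem fb_smooth_cur (hK : IsK H f r U) (i j k l : Fin 2) : ContDiffOn ℝ ∞ (cur H i j k l) U :=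
  fb_smooth_dzbar hK.isOpen (k_smooth_chris hK i j k) l

/-- second antiholomorphic derivatives of products of Christoffel symbols are controlled -/
theorem fbSmall_quad (hK : IsK H f r U) {z : C2} (hz : z ∈ U) (a b c a' b' c' q l : Fin 2) :
    FbSmall H z (dzbar q (dzbar l (fun y => chris H a b c y * chris H a' b' c' y))) := by
  have s1 := k_smooth_chris hK a b c
  have s2 := k_smooth_chris hK a' b' c'
  have hU := hK.isOpen
  have key : ∀ y ∈ U, dzbar q (dzbar l (fun y => chris H a b c y * chris H a' b' c' y)) y =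
      (dzbar q (cur H a b c l) y * chris H a' b' c' y + cur H a b c l y * cur H a' b' c' q y) +
      (cur H a b c q y * cur H a' b' c' l y + chris H a b c y * dzbar q (cur H a' b' c' l) y) := by
    intro y hy
    have e1 : ∀ w ∈ U, dzbar l (fun y => chris H a b c y * chris H a' b' c' y) w =
        cur H a b c l w * chris H a' b' c' w + chris H a b c w * cur H a' b' c' l w := by
      intro w hw
      exact dzbar_mul (fb_diffAt hU s1 hw) (fb_diffAt hU s2 hw) l
    rw [fb_dzbar_congr hU e1 q hy]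
    have c1 := fb_smooth_cur hK a b c l
    have c2 := fb_smooth_cur hK a' b' c' l
    have d1 : DifferentiableAt ℝ (fun y => cur H a b c l y * chris H a' b' c' y) y :=
      (fb_diffAt hU c1 hy).mul (fb_diffAt hU s2 hy)
    have d2 : DifferentiableAt ℝ (fun y => chris H a b c y * cur H a' b' c' l y) y :=
      (fb_diffAt hU s1 hy).mul (fb_diffAt hU c2 hy)
    rw [fb_dzbar_add d1 d2 q,
      dzbar_mul (fb_diffAt hU c1 hy) (fb_diffAt hU s2 hy),
      dzbar_mul (fb_diffAt hU s1 hy) (fb_diffAt hU c2 hy)]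
    rfl
  have hev : ∀ᶠ y in 𝓝 z, y ∈ U := hU.mem_nhds hz
  refine FbSmall.congr (g := fun y =>
    (dzbar q (cur H a b c l) y * chris H a' b' c' y + cur H a b c l y * cur H a' b' c' q y) +
      (cur H a b c q y * cur H a' b' c' l y + chris H a b c y * dzbar q (cur H a' b' c' l) y))
    ?_ (hev.mono key)
  refine FbSmall.add (FbSmall.add ?_ ?_) (FbSmall.add ?_ ?_)
  · exact (fbSmall_dzbar z q a b c l).mul' (fb_contAt hU s2 hz)
  · exact (fbSmall_cur z a' b' c' q).mul (fb_contAt hU (fb_smooth_cur hK a b c l) hz)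
  · exact (fbSmall_cur z a' b' c' l).mul (fb_contAt hU (fb_smooth_cur hK a b c q) hz)
  · exact (fbSmall_dzbar z q a' b' c' l).mul (fb_contAt hU s1 hz)

/-- commuting the derivatives in the principal part -/
theorem fb_commute (hK : IsK H f r U) {y : C2} (hy : y ∈ U) (p q i j k l : Fin 2) :
    dz p (dzbar q (cur H i j k l)) y = dz i (dzbar l (cur H p j k q)) y +
      ∑ m, (dzbar q (dzbar l (fun w => chris H i m k w * chris H p j m w)) y -
        dzbar q (dzbar l (fun w => chris H p m k w * chris H i j m w)) y) := by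
  have hU := hK.isOpen
  have sΓ : ∀ a b c, ContDiffOn ℝ ∞ (chris H a b c) U := fun a b c => k_smooth_chris hK a b c
  -- commutation
  have e1 : dz p (dzbar q (cur H i j k l)) y = dzbar q (dzbar l (dz p (chris H i j k))) y := by
    rw [(dz_comm hU (fb_smooth_cur hK i j k l) hy p q).2.1]
    exact fb_dzbar_congr hU (fun w hw => (dz_comm hU (sΓ i j k) hw p l).2.1) q hy
  have e2 : dz i (dzbar l (cur H p j k q)) y = dzbar q (dzbar l (dz i (chris H p j k))) y := by
    have e3 : dz i (dzbar l (cur H p j k q)) y = dz i (dzbar q (cur H p j k l)) y :=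
      fb_dz_congr hU (fun w hw => (dz_comm hU (sΓ p j k) hw l q).2.2) i hy
    rw [e3, (dz_comm hU (fb_smooth_cur hK p j k l) hy i q).2.1]
    exact fb_dzbar_congr hU (fun w hw => (dz_comm hU (sΓ p j k) hw i l).2.1) q hy
  rw [e1, e2]
  have sP : ∀ a b c a' b' c', ContDiffOn ℝ ∞ (fun w => chris H a b c w * chris H a' b' c' w) U :=
    fun a b c a' b' c' => (sΓ a b c).mul (sΓ a' b' c')
  have e4 : ∀ w ∈ U, dzbar l (dz p (chris H i j k)) w = dzbar l (dz i (chris H p j k)) w +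
      ∑ m, (dzbar l (fun w => chris H i m k w * chris H p j m w) w -
        dzbar l (fun w => chris H p m k w * chris H i j m w) w) := by
    intro w hw
    have e5 : ∀ v ∈ U, dz p (chris H i j k) v = dz i (chris H p j k) v +
        ∑ m, (chris H i m k v * chris H p j m v - chris H p m k v * chris H i j m v) := by
      intro v hv
      rw [← chris_flat20 hK hv p i j k]
      ring
    have d1 := fb_diffAt hU (fb_smooth_dz hU (sΓ p j k) i) hw
    have d2 : ∀ m ∈ (Finset.univ : Finset (Fin 2)), DifferentiableAt ℝ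
        (fun v => chris H i m k v * chris H p j m v - chris H p m k v * chris H i j m v) w :=
      fun m _ => (fb_diffAt hU (sP i m k p j m) hw).sub (fb_diffAt hU (sP p m k i j m) hw)
    rw [fb_dzbar_congr hU e5 l hw, fb_dzbar_add d1 (DifferentiableAt.fun_sum d2),
      fb_dzbar_sum _ d2]
    congr 1
    refine Finset.sum_congr rfl fun m _ => ?_
    exact fb_dzbar_sub (fb_diffAt hU (sP i m k p j m) hw) (fb_diffAt hU (sP p m k i j m) hw) l
  have d1 := fb_diffAt hU (fb_smooth_dzbar hU (fb_smooth_dz hU (sΓ p j k) i) l) hy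
  have d2 : ∀ m ∈ (Finset.univ : Finset (Fin 2)), DifferentiableAt ℝ
      (fun w => dzbar l (fun w => chris H i m k w * chris H p j m w) w -
        dzbar l (fun w => chris H p m k w * chris H i j m w) w) y :=
    fun m _ => (fb_diffAt hU (fb_smooth_dzbar hU (sP i m k p j m) l) hy).sub
      (fb_diffAt hU (fb_smooth_dzbar hU (sP p m k i j m) l) hy)
  rw [fb_dzbar_congr hU e4 q hy, fb_dzbar_add d1 (DifferentiableAt.fun_sum d2),
    fb_dzbar_sum _ d2]
  congr 1
  refine Finset.sum_congr rfl fun m _ => ?_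
  exact fb_dzbar_sub (fb_diffAt hU (fb_smooth_dzbar hU (sP i m k p j m) l) hy)
    (fb_diffAt hU (fb_smooth_dzbar hU (sP p m k i j m) l) hy) q

/-- the differentiated Ricci identity -/
theorem fbSmall_ricci (hK : IsK H f r U) {z : C2} (hz : z ∈ U) (i j k l : Fin 2) :
    FbSmall H z (fun y => ∑ p, ∑ q, (H y)⁻¹ q p * dz i (dzbar l (cur H p j k q)) y) := by
  have hU := hK.isOpen
  have sI : ∀ p q, ContDiffOn ℝ ∞ (fun z => (H z)⁻¹ q p) U := fun p q => fb_smooth_inv hK q p
  have sc : ∀ p q, ContDiffOn ℝ ∞ (cur H p j k q) U := fun p q => fb_smooth_cur hK p j k q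
  -- first derivative
  have e1 : ∀ w ∈ U, ∑ p, ∑ q, (dzbar l (fun z => (H z)⁻¹ q p) w * cur H p j k q w +
      (H w)⁻¹ q p * dzbar l (cur H p j k q) w) = 0 := by
    intro w hw
    have h0 : dzbar l (fun y => ∑ p, ∑ q, (H y)⁻¹ q p * cur H p j k q y) w = 0 := by
      have h0' : ∀ v ∈ U, ∑ p, ∑ q, (H v)⁻¹ q p * cur H p j k q v = 0 :=
        fun v hv => chris_ricci' hK hv j k
      rw [fb_dzbar_congr hU h0' l hw]
      exact fb_dzbar_zero l w
    have d1 : ∀ p q, DifferentiableAt ℝ (fun y => (H y)⁻¹ q p * cur H p j k q y) w :=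
      fun p q => (fb_diffAt hU (sI p q) hw).mul (fb_diffAt hU (sc p q) hw)
    rw [← h0, fb_dzbar_sum _ (fun p _ => DifferentiableAt.fun_sum fun q _ => d1 p q)]
    refine Finset.sum_congr rfl fun p _ => ?_
    rw [fb_dzbar_sum _ (fun q _ => d1 p q)]
    refine Finset.sum_congr rfl fun q _ => ?_
    exact (dzbar_mul (fb_diffAt hU (sI p q) hw) (fb_diffAt hU (sc p q) hw) l).symm
  have e2 : ∀ w ∈ U, ∑ p, ∑ q, (H w)⁻¹ q p * dz i (dzbar l (cur H p j k q)) w =
      -∑ p, ∑ q, ((dz i (dzbar l (fun z => (H z)⁻¹ q p)) w * cur H p j k q w +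
        dzbar l (fun z => (H z)⁻¹ q p) w * dz i (cur H p j k q) w) +
        dz i (fun z => (H z)⁻¹ q p) w * dzbar l (cur H p j k q) w) := by
    intro w hw
    have h0 : dz i (fun y => ∑ p, ∑ q, (dzbar l (fun z => (H z)⁻¹ q p) y * cur H p j k q y +
      (H y)⁻¹ q p * dzbar l (cur H p j k q) y)) w = 0 := by
      rw [fb_dz_congr hU e1 i hw]
      exact fb_dz_zero i w
    have t1 : ∀ p q, DifferentiableAt ℝ (dzbar l (fun z => (H z)⁻¹ q p)) w :=
      fun p q => fb_diffAt hU (fb_smooth_dzbar hU (sI p q) l) hw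
    have t2 : ∀ p q, DifferentiableAt ℝ (cur H p j k q) w := fun p q => fb_diffAt hU (sc p q) hw
    have t3 : ∀ p q, DifferentiableAt ℝ (fun z => (H z)⁻¹ q p) w :=
      fun p q => fb_diffAt hU (sI p q) hw
    have t4 : ∀ p q, DifferentiableAt ℝ (dzbar l (cur H p j k q)) w :=
      fun p q => fb_diffAt hU (fb_smooth_dzbar hU (sc p q) l) hw
    have d1 : ∀ p q, DifferentiableAt ℝ (fun y => dzbar l (fun z => (H z)⁻¹ q p) y *
        cur H p j k q y + (H y)⁻¹ q p * dzbar l (cur H p j k q) y) w :=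
      fun p q => ((t1 p q).mul (t2 p q)).add ((t3 p q).mul (t4 p q))
    rw [fb_dz_sum _ (fun p _ => DifferentiableAt.fun_sum fun q _ => d1 p q)] at h0
    have h1 : ∑ p, ∑ q, (((dz i (dzbar l (fun z => (H z)⁻¹ q p)) w * cur H p j k q w +
        dzbar l (fun z => (H z)⁻¹ q p) w * dz i (cur H p j k q) w) +
        dz i (fun z => (H z)⁻¹ q p) w * dzbar l (cur H p j k q) w) +
        (H w)⁻¹ q p * dz i (dzbar l (cur H p j k q)) w) = 0 := by
      rw [← h0]
      refine Finset.sum_congr rfl fun p _ => ?_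
      rw [fb_dz_sum _ (fun q _ => d1 p q)]
      refine Finset.sum_congr rfl fun q _ => ?_
      have u1 : DifferentiableAt ℝ
          (fun y => dzbar l (fun z => (H z)⁻¹ q p) y * cur H p j k q y) w := (t1 p q).mul (t2 p q)
      have u2 : DifferentiableAt ℝ (fun y => (H y)⁻¹ q p * dzbar l (cur H p j k q) y) w :=
        (t3 p q).mul (t4 p q)
      have u3 : dz i (fun y => dzbar l (fun z => (H z)⁻¹ q p) y * cur H p j k q y) w =
          dz i (dzbar l (fun z => (H z)⁻¹ q p)) w * cur H p j k q w +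
            dzbar l (fun z => (H z)⁻¹ q p) w * dz i (cur H p j k q) w :=
        dz_mul (t1 p q) (t2 p q) i
      have u4 : dz i (fun y => (H y)⁻¹ q p * dzbar l (cur H p j k q) y) w =
          dz i (fun z => (H z)⁻¹ q p) w * dzbar l (cur H p j k q) w +
            (H w)⁻¹ q p * dz i (dzbar l (cur H p j k q)) w :=
        dz_mul (t3 p q) (t4 p q) i
      rw [fb_dz_add u1 u2 i, u3, u4]
      ring
    simp only [Finset.sum_add_distrib] at h1 ⊢
    linear_combination h1
  refine FbSmall.congr ?_ ((show ∀ᶠ y in 𝓝 z, y ∈ U from hU.mem_nhds hz).mono e2)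
  refine FbSmall.neg (FbSmall.sum _ fun p _ => FbSmall.sum _ fun q _ => ?_)
  refine FbSmall.add (FbSmall.add ?_ ?_) ?_
  · exact (fbSmall_cur z p j k q).mul
      (fb_contAt hU (fb_smooth_dz hU (fb_smooth_dzbar hU (sI p q) l) i) hz)
  · exact (fbSmall_dz z i p j k q).mul (fb_contAt hU (fb_smooth_dzbar hU (sI p q) l) hz)
  · exact (fbSmall_dzbar z l p j k q).mul (fb_contAt hU (fb_smooth_dz hU (sI p q) i) hz)

theorem fbSmall_main (hK : IsK H f r U) {z : C2} (hz : z ∈ U) (i j k l : Fin 2) :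
    FbSmall H z (fun y => ∑ p, ∑ q, (H y)⁻¹ q p * dz p (dzbar q (cur H i j k l)) y) := by
  have hU := hK.isOpen
  have e : ∀ y ∈ U, ∑ p, ∑ q, (H y)⁻¹ q p * dz p (dzbar q (cur H i j k l)) y =
      (∑ p, ∑ q, (H y)⁻¹ q p * dz i (dzbar l (cur H p j k q)) y) +
      ∑ p, ∑ q, (H y)⁻¹ q p *
        ∑ m, (dzbar q (dzbar l (fun w => chris H i m k w * chris H p j m w)) y -
        dzbar q (dzbar l (fun w => chris H p m k w * chris H i j m w)) y) := by
    intro y hy
    rw [← Finset.sum_add_distrib]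
    refine Finset.sum_congr rfl fun p _ => ?_
    rw [← Finset.sum_add_distrib]
    refine Finset.sum_congr rfl fun q _ => ?_
    rw [fb_commute hK hy p q i j k l]
    ring
  refine FbSmall.congr ?_ ((show ∀ᶠ y in 𝓝 z, y ∈ U from hU.mem_nhds hz).mono e)
  refine (fbSmall_ricci hK hz i j k l).add (FbSmall.sum _ fun p _ => FbSmall.sum _ fun q _ => ?_)
  refine FbSmall.mul (fb_contAt hU (fb_smooth_inv hK q p) hz) (FbSmall.sum _ fun m _ => ?_)
  exact (fbSmall_quad hK hz i m k p j m q l).sub (fbSmall_quad hK hz p m k i j m q l)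

theorem kahler_elliptic (hK : IsK H f r U) {z : C2} (hz : z ∈ U) :
    ∃ C : ℝ, ∀ᶠ y in 𝓝 z, ∀ i j k l,
      ‖∑ p, ∑ q, (H y)⁻¹ q p * dz p (dzbar q (cur H i j k l)) y‖ ≤
        C * ∑ i', ∑ j', ∑ k', ∑ l',
          (‖cur H i' j' k' l' y‖ + ‖fderiv ℝ (cur H i' j' k' l') y‖) := by
  choose C hC h using fun i j k l => fbSmall_main hK hz i j k l
  refine ⟨∑ i, ∑ j, ∑ k, ∑ l, C i j k l, ?_⟩
  have h' : ∀ᶠ y in 𝓝 z, ∀ i j k l,
      ‖∑ p, ∑ q, (H y)⁻¹ q p * dz p (dzbar q (cur H i j k l)) y‖ ≤ C i j k l * fbN H y := by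
    simp only [Filter.eventually_all]
    exact h
  filter_upwards [h'] with y hy i j k l
  refine (hy i j k l).trans (mul_le_mul_of_nonneg_right ?_ (fbN_nonneg H y))
  exact fb_le_sum4 C hC i j k l

end Pool.Agent.Lib.MP_6c284f_gt
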