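import Pool.Agent.Lib.MP_6c284f_gt.UC
import Pool.Agent.Lib.MP_6c284f_gt.FlatUCB

set_option autoImplicit false
set_option maxSynthPendingDepth 5

/-!
Unique continuation for complex valued systems in `C2` with principal part
`∑ h^{p \bar q} ∂_p ∂_{\bar q}`.
-/

namespace Pool.Agent.Lib.MP_6c284f_gt

open scoped Manifold ContDiff Topology ComplexConjugate Matrix
open Set

/-- the linear part of the identification of `ℝ⁴` with `C2` -/
noncomputable def FlatUCC_lin : E4 ≃ₗ[ℝ] C2 where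
  toFun x := ![⟨x 0, x 1⟩, ⟨x 2, x 3⟩]
  invFun z := WithLp.toLp 2 ![(z 0).re, (z 0).im, (z 1).re, (z 1).im]
  map_add' x y := by
    ext i
    fin_cases i <;> apply Complex.ext <;> simp
  map_smul' c x := by
    ext i
    fin_cases i <;> apply Complex.ext <;> simp
  left_inv x := by
    ext i
    fin_cases i <;> simp
  right_inv z := by
    ext i
    fin_cases i <;> apply Complex.ext <;> simp

/-- the identification of `ℝ⁴` with `C2` -/
noncomputable def FlatUCC_L : E4 ≃L[ℝ] C2 := FlatUCC_lin.toContinuousLinearEquiv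

theorem FlatUCC_L_apply (x : E4) : FlatUCC_L x = ![⟨x 0, x 1⟩, ⟨x 2, x 3⟩] := rfl

theorem FlatUCC_L0 : FlatUCC_L (EuclideanSpace.single 0 1) = Pi.single 0 1 := by
  rw [FlatUCC_L_apply]
  ext i
  fin_cases i <;> apply Complex.ext <;> simp

theorem FlatUCC_L1 : FlatUCC_L (EuclideanSpace.single 1 1) = Pi.single 0 Complex.I := by
  rw [FlatUCC_L_apply]
  ext i
  fin_cases i <;> apply Complex.ext <;> simp

theorem FlatUCC_L2 : FlatUCC_L (EuclideanSpace.single 2 1) = Pi.single 1 1 := by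
  rw [FlatUCC_L_apply]
  ext i
  fin_cases i <;> apply Complex.ext <;> simp

theorem FlatUCC_L3 : FlatUCC_L (EuclideanSpace.single 3 1) = Pi.single 1 Complex.I := by
  rw [FlatUCC_L_apply]
  ext i
  fin_cases i <;> apply Complex.ext <;> simp

/-- the real coefficients -/
noncomputable def FlatUCC_A (M : Matrix (Fin 2) (Fin 2) ℂ) : Fin 4 → Fin 4 → ℝ :=
  !![(M 0 0).re, -(M 0 0).im, (M 0 1).re, -(M 0 1).im;
     (M 0 0).im, (M 0 0).re, (M 0 1).im, (M 0 1).re;
     (M 1 0).re, -(M 1 0).im, (M 1 1).re, -(M 1 1).im;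
     (M 1 0).im, (M 1 0).re, (M 1 1).im, (M 1 1).re]

theorem FlatUCC_herm {M : Matrix (Fin 2) (Fin 2) ℂ} (h : M.IsHermitian) :
    (M 0 0).im = 0 ∧ (M 1 1).im = 0 ∧ (M 1 0).re = (M 0 1).re ∧ (M 1 0).im = -(M 0 1).im := by
  have h00 := h.apply 0 0
  have h11 := h.apply 1 1
  have h01 := h.apply 1 0
  simp only [Complex.star_def] at h00 h11 h01
  refine ⟨Complex.conj_eq_iff_im.mp h00, Complex.conj_eq_iff_im.mp h11, ?_, ?_⟩
  · rw [← h01]; simp
  · rw [← h01]; simp

theorem FlatUCC_A_symm {M : Matrix (Fin 2) (Fin 2) ℂ} (h : M.IsHermitian) (i j : Fin 4) :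
    FlatUCC_A M i j = FlatUCC_A M j i := by
  obtain ⟨h1, h2, h3, h4⟩ := FlatUCC_herm h
  fin_cases i <;> fin_cases j <;> simp [FlatUCC_A, h1, h2, h3, h4]

theorem FlatUCC_A_quad (M : Matrix (Fin 2) (Fin 2) ℂ) (ξ : Fin 4 → ℝ) :
    ∑ i, ∑ j, FlatUCC_A M i j * ξ i * ξ j =
      (∑ i, ∑ j, M i j * (![⟨ξ 0, -ξ 1⟩, ⟨ξ 2, -ξ 3⟩] : C2) i *
        conj ((![⟨ξ 0, -ξ 1⟩, ⟨ξ 2, -ξ 3⟩] : C2) j)).re := by
  simp only [Fin.sum_univ_four, Fin.sum_univ_two, FlatUCC_A]
  simp
  ring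

theorem FlatUCC_A_op {M : Matrix (Fin 2) (Fin 2) ℂ} (h : M.IsHermitian)
    (D : C2 →L[ℝ] C2 →L[ℝ] ℂ) (hD : ∀ u w, D u w = D w u) :
    ∑ p, ∑ q, M p q * (D (Pi.single p 1) (Pi.single q 1) +
      D (Pi.single p Complex.I) (Pi.single q Complex.I) +
      Complex.I * (D (Pi.single p 1) (Pi.single q Complex.I) -
        D (Pi.single p Complex.I) (Pi.single q 1))) =
    ∑ i, ∑ j, FlatUCC_A M i j •
      D (FlatUCC_L (EuclideanSpace.single i 1)) (FlatUCC_L (EuclideanSpace.single j 1)) := by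
  obtain ⟨h1, h2, h3, h4⟩ := FlatUCC_herm h
  have e00 : M 0 0 = ((M 0 0).re : ℂ) := Complex.ext (by simp) (by simp [h1])
  have e11 : M 1 1 = ((M 1 1).re : ℂ) := Complex.ext (by simp) (by simp [h2])
  have e01 : M 0 1 = ((M 0 1).re : ℂ) + ((M 0 1).im : ℂ) * Complex.I := (Complex.re_add_im _).symm
  have e10 : M 1 0 = ((M 0 1).re : ℂ) - ((M 0 1).im : ℂ) * Complex.I := by
    apply Complex.ext <;> simp [h3, h4]
  simp only [Fin.sum_univ_four, Fin.sum_univ_two, FlatUCC_L0, FlatUCC_L1, FlatUCC_L2, FlatUCC_L3]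
  rw [hD (Pi.single 0 Complex.I) (Pi.single 0 1), hD (Pi.single 1 1) (Pi.single 0 1),
    hD (Pi.single 1 Complex.I) (Pi.single 0 1), hD (Pi.single 1 1) (Pi.single 0 Complex.I),
    hD (Pi.single 1 Complex.I) (Pi.single 0 Complex.I),
    hD (Pi.single 1 Complex.I) (Pi.single 1 1)]
  simp only [FlatUCC_A, h1, h2, h3, h4, Complex.real_smul]
  generalize (M 0 0).re = s00' at *
  generalize (M 1 1).re = s11' at *
  generalize (M 0 1).re = s' at *
  generalize (M 0 1).im = t' at *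
  rw [e00, e11, e01, e10]
  simp
  generalize D (Pi.single 0 1) (Pi.single 0 1) = d00
  generalize D (Pi.single 0 1) (Pi.single 0 Complex.I) = d01
  generalize D (Pi.single 0 1) (Pi.single 1 1) = d02
  generalize D (Pi.single 0 1) (Pi.single 1 Complex.I) = d03
  generalize D (Pi.single 0 Complex.I) (Pi.single 0 Complex.I) = d11
  generalize D (Pi.single 0 Complex.I) (Pi.single 1 1) = d12
  generalize D (Pi.single 0 Complex.I) (Pi.single 1 Complex.I) = d13
  generalize D (Pi.single 1 1) (Pi.single 1 1) = d22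
  generalize D (Pi.single 1 1) (Pi.single 1 Complex.I) = d23
  generalize D (Pi.single 1 Complex.I) (Pi.single 1 Complex.I) = d33
  generalize (s00' : ℂ) = s00
  generalize (s11' : ℂ) = s11
  generalize (s' : ℂ) = s
  generalize (t' : ℂ) = t
  have hI : Complex.I ^ 2 = -1 := Complex.I_sq
  linear_combination (2 * t * (d03 - d12)) * hI

/-- second derivatives through `Φ ∘ f ∘ L` -/
theorem FlatUCC_dd (φ : ℂ →L[ℝ] ℝ) {f : C2 → ℂ} {x : E4} (hf : ContDiffAt ℝ 2 f (FlatUCC_L x))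
    (i j : Fin 4) :
    dd (fun y => φ (f (FlatUCC_L y))) i j x =
      φ (fderiv ℝ (fderiv ℝ f) (FlatUCC_L x) (FlatUCC_L (EuclideanSpace.single i 1))
        (FlatUCC_L (EuclideanSpace.single j 1))) := by
  set u : E4 → ℝ := fun y => φ (f (FlatUCC_L y)) with hu
  have hu2 : ContDiffAt ℝ 2 u x :=
    φ.contDiff.contDiffAt.comp x (hf.comp x FlatUCC_L.contDiff.contDiffAt)
  have hdu : DifferentiableAt ℝ (fderiv ℝ u) x :=
    (hu2.fderiv_right (m := 1) (by norm_num)).differentiableAt (by norm_num)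
  have hdf : DifferentiableAt ℝ (fderiv ℝ f) (FlatUCC_L x) :=
    (hf.fderiv_right (m := 1) (by norm_num)).differentiableAt (by norm_num)
  have hev : ∀ᶠ y in 𝓝 x, fderiv ℝ u y (EuclideanSpace.single j 1) =
      φ (fderiv ℝ f (FlatUCC_L y) (FlatUCC_L (EuclideanSpace.single j 1))) := by
    have h1 : ∀ᶠ y in 𝓝 (FlatUCC_L x), DifferentiableAt ℝ f y := by
      have := hf.eventually (by simp)
      exact this.mono fun y hy => hy.differentiableAt (by norm_num)
    have h2 := FlatUCC_L.continuous.continuousAt.eventually h1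
    refine h2.mono fun y hy => ?_
    have h3 : HasFDerivAt u (φ ∘L (fderiv ℝ f (FlatUCC_L y)) ∘L (FlatUCC_L : E4 →L[ℝ] C2)) y :=
      φ.hasFDerivAt.comp y (hy.hasFDerivAt.comp y FlatUCC_L.hasFDerivAt)
    rw [h3.fderiv]
    rfl
  unfold dd
  have h4 : fderiv ℝ (fderiv ℝ u) x (EuclideanSpace.single i 1) (EuclideanSpace.single j 1) =
      fderiv ℝ (fun y => fderiv ℝ u y (EuclideanSpace.single j 1)) x (EuclideanSpace.single i 1) := by
    have := hdu.hasFDerivAt.clm_apply (hasFDerivAt_const (EuclideanSpace.single j (1 : ℝ)) x)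
    rw [this.fderiv]
    simp
  rw [h4, Filter.EventuallyEq.fderiv_eq hev]
  have h5 : HasFDerivAt (fun y => φ (fderiv ℝ f (FlatUCC_L y)
      (FlatUCC_L (EuclideanSpace.single j 1))))
      (φ ∘L ((fderiv ℝ (fderiv ℝ f) (FlatUCC_L x)).flip
        (FlatUCC_L (EuclideanSpace.single j 1))) ∘L (FlatUCC_L : E4 →L[ℝ] C2)) x := by
    have h6 : HasFDerivAt (fun z => fderiv ℝ f z (FlatUCC_L (EuclideanSpace.single j 1)))
        ((fderiv ℝ (fderiv ℝ f) (FlatUCC_L x)).flip
          (FlatUCC_L (EuclideanSpace.single j 1))) (FlatUCC_L x) := by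
      have := hdf.hasFDerivAt.clm_apply
        (hasFDerivAt_const (FlatUCC_L (EuclideanSpace.single j (1 : ℝ))) (FlatUCC_L x))
      refine this.congr_fderiv ?_
      ext w
      simp
    exact φ.hasFDerivAt.comp x (h6.comp x FlatUCC_L.hasFDerivAt)
  rw [h5.fderiv]
  rfl

theorem FlatUCC_dz {f : C2 → ℂ} {y : C2} (hf : ContDiffAt ℝ 2 f y) (p q : Fin 2) :
    4 * dz p (dzbar q f) y =
      fderiv ℝ (fderiv ℝ f) y (Pi.single p 1) (Pi.single q 1) +
      fderiv ℝ (fderiv ℝ f) y (Pi.single p Complex.I) (Pi.single q Complex.I) +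
      Complex.I * (fderiv ℝ (fderiv ℝ f) y (Pi.single p 1) (Pi.single q Complex.I) -
        fderiv ℝ (fderiv ℝ f) y (Pi.single p Complex.I) (Pi.single q 1)) := by
  have hdf : DifferentiableAt ℝ (fderiv ℝ f) y :=
    (hf.fderiv_right (m := 1) (by norm_num)).differentiableAt (by norm_num)
  have h6 : ∀ w : C2, HasFDerivAt (fun z => fderiv ℝ f z w)
      ((fderiv ℝ (fderiv ℝ f) y).flip w) y := by
    intro w
    have := hdf.hasFDerivAt.clm_apply (hasFDerivAt_const w y)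
    refine this.congr_fderiv ?_
    ext v
    simp
  have h7 : HasFDerivAt (dzbar q f)
      ((2 : ℂ)⁻¹ • (((fderiv ℝ (fderiv ℝ f) y).flip (Pi.single q 1)) +
        Complex.I • ((fderiv ℝ (fderiv ℝ f) y).flip (Pi.single q Complex.I)))) y := by
    have h8 := ((h6 (Pi.single q 1)).add ((h6 (Pi.single q Complex.I)).const_mul Complex.I)).const_mul
      (2 : ℂ)⁻¹
    refine h8.congr_of_eventuallyEq (Filter.Eventually.of_forall fun z => ?_)
    simp only [dzbar]
    rw [div_eq_inv_mul]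
    rfl
  rw [dz, h7.fderiv]
  simp only [smul_apply, add_apply, ContinuousLinearMap.flip_apply, smul_eq_mul]
  have hI : Complex.I ^ 2 = -1 := Complex.I_sq
  linear_combination (-(fderiv ℝ (fderiv ℝ f) y (Pi.single p Complex.I)
    (Pi.single q Complex.I))) * hI

theorem FlatUCC_pi (z : ℂ) : ‖z‖ ≤ |Complex.reCLM z| + |Complex.imCLM z| :=
  Complex.norm_le_abs_re_add_abs_im z

/-- the norm of the derivative -/
theorem FlatUCC_norm {f : C2 → ℂ} {x : E4} (hf : DifferentiableAt ℝ f (FlatUCC_L x)) :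
    ‖fderiv ℝ f (FlatUCC_L x)‖ ≤ ‖(FlatUCC_L.symm : C2 →L[ℝ] E4)‖ *
      (‖fderiv ℝ (fun y => Complex.reCLM (f (FlatUCC_L y))) x‖ +
        ‖fderiv ℝ (fun y => Complex.imCLM (f (FlatUCC_L y))) x‖) := by
  have h3 : ∀ φ : ℂ →L[ℝ] ℝ, fderiv ℝ (fun y => φ (f (FlatUCC_L y))) x =
      (φ ∘L (fderiv ℝ f (FlatUCC_L x)) ∘L (FlatUCC_L : E4 →L[ℝ] C2)) := fun φ =>
    (φ.hasFDerivAt.comp x (hf.hasFDerivAt.comp x FlatUCC_L.hasFDerivAt)).fderiv
  refine ContinuousLinearMap.opNorm_le_bound _ (by positivity) fun w => ?_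
  refine (FlatUCC_pi _).trans ?_
  have h4 : ∀ φ : ℂ →L[ℝ] ℝ, |φ (fderiv ℝ f (FlatUCC_L x) w)| ≤
      ‖fderiv ℝ (fun y => φ (f (FlatUCC_L y))) x‖ *
        (‖(FlatUCC_L.symm : C2 →L[ℝ] E4)‖ * ‖w‖) := by
    intro φ
    have h5 : φ (fderiv ℝ f (FlatUCC_L x) w) =
        fderiv ℝ (fun y => φ (f (FlatUCC_L y))) x (FlatUCC_L.symm w) := by
      rw [h3 φ]
      simp
    rw [h5, ← Real.norm_eq_abs]
    refine (ContinuousLinearMap.le_opNorm _ _).trans ?_
    gcongr
    exact ContinuousLinearMap.le_opNorm (FlatUCC_L.symm : C2 →L[ℝ] E4) w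
  calc _ ≤ _ := add_le_add (h4 Complex.reCLM) (h4 Complex.imCLM)
    _ = _ := by ring

/-- `B` is the inverse (transposed) matrix of the metric: Hermitian and positive definite. -/
theorem complex_uc {ι : Type} [Fintype ι] {U : Set C2} (hU : IsOpen U) (hconn : IsPreconnected U)
    (B : C2 → Matrix (Fin 2) (Fin 2) ℂ) (hB : ∀ p q, ContDiffOn ℝ ∞ (fun z => B z p q) U)
    (hherm : ∀ z ∈ U, (B z).IsHermitian)
    (hpos : ∀ z ∈ U, ∀ v : C2, v ≠ 0 → 0 < (∑ i, ∑ j, B z i j * v i * conj (v j)).re)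
    (v : ι → C2 → ℂ) (hv : ∀ k, ContDiffOn ℝ ∞ (v k) U)
    (hineq : ∀ z ∈ U, ∃ C : ℝ, ∀ᶠ y in 𝓝 z, ∀ k,
      ‖∑ p, ∑ q, B y p q * dz p (dzbar q (v k)) y‖ ≤
        C * ∑ m, (‖v m y‖ + ‖fderiv ℝ (v m) y‖))
    {O : Set C2} (hO : IsOpen O) (hOU : O ⊆ U) (hne : O.Nonempty)
    (hzero : ∀ z ∈ O, ∀ k, v k z = 0) : ∀ z ∈ U, ∀ k, v k z = 0 := by
  classical
  set L := FlatUCC_L with hL
  set φ : Fin 2 → (ℂ →L[ℝ] ℝ) := ![Complex.reCLM, Complex.imCLM] with hφ
  have hφn : ∀ s z, |φ s z| ≤ ‖z‖ := by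
    intro s z
    fin_cases s
    · exact Complex.abs_re_le_norm z
    · exact Complex.abs_im_le_norm z
  set E : Fin (Fintype.card (ι × Fin 2)) ≃ ι × Fin 2 := (Fintype.equivFin (ι × Fin 2)).symm with hE
  set v' : Fin (Fintype.card (ι × Fin 2)) → E4 → ℝ :=
    fun k x => φ (E k).2 (v (E k).1 (L x)) with hv'
  set U' : Set E4 := L ⁻¹' U with hU'
  have hU'o : IsOpen U' := hU.preimage L.continuous
  have hU'c : IsPreconnected U' := by
    have : U' = L.symm '' U := by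
      rw [hU']
      ext x
      simp only [mem_preimage, mem_image]
      constructor
      · intro hx
        exact ⟨L x, hx, by simp⟩
      · rintro ⟨z, hz, rfl⟩
        simpa using hz
    rw [this]
    exact hconn.image _ L.symm.continuous.continuousOn
  have hvat : ∀ k, ∀ x ∈ U', ContDiffAt ℝ 2 (v k) (L x) := fun k x hx =>
    ((hv k).contDiffAt (hU.mem_nhds hx)).of_le ENat.LEInfty.out
  have key := unique_continuation (n := Fintype.card (ι × Fin 2)) hU'o hU'c
    (fun i j x => FlatUCC_A (B (L x)) i j) ?_ ?_ ?_ v' ?_ ?_ (O := L ⁻¹' O)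
    (hO.preimage L.continuous) (fun x hx => hOU hx) ?_ ?_
  · intro z hz k
    have hx : L.symm z ∈ U' := by simpa [hU'] using hz
    have h0 := key _ hx (E.symm (k, 0))
    have h1 := key _ hx (E.symm (k, 1))
    simp only [hv', Equiv.apply_symm_apply, ContinuousLinearEquiv.apply_symm_apply] at h0 h1
    exact Complex.ext h0 h1
  · intro i j
    have hre : ∀ p q, ContDiffOn ℝ ∞ (fun x => (B (L x) p q).re) U' := fun p q =>
      Complex.reCLM.contDiff.comp_contDiffOn ((hB p q).comp L.contDiff.contDiffOn (fun x hx => hx))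
    have him : ∀ p q, ContDiffOn ℝ ∞ (fun x => (B (L x) p q).im) U' := fun p q =>
      Complex.imCLM.contDiff.comp_contDiffOn ((hB p q).comp L.contDiff.contDiffOn (fun x hx => hx))
    fin_cases i <;> fin_cases j <;> simp only [FlatUCC_A] <;>
      first
      | exact hre _ _
      | exact him _ _
      | exact (him _ _).neg
  · intro x hx i j
    exact FlatUCC_A_symm (hherm _ hx) i j
  · intro x hx ξ hξ
    rw [FlatUCC_A_quad]
    refine hpos _ hx _ fun h => hξ ?_
    have h0 := congrFun h 0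
    have h1 := congrFun h 1
    simp only [Matrix.cons_val_zero, Matrix.cons_val_one, Pi.zero_apply, Complex.ext_iff,
      Complex.zero_re, Complex.zero_im, neg_eq_zero] at h0 h1
    ext i
    fin_cases i
    · exact h0.1
    · exact h0.2
    · exact h1.1
    · exact h1.2
  · intro k
    exact (φ (E k).2).contDiff.comp_contDiffOn
      ((hv (E k).1).comp L.contDiff.contDiffOn (fun x hx => hx))
  · intro x hx
    obtain ⟨C, hC⟩ := hineq (L x) hx
    have hC' := L.continuous.continuousAt.eventually hC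
    refine ⟨4 * |C| * (1 + ‖(L.symm : C2 →L[ℝ] E4)‖), ?_⟩
    filter_upwards [hC', hU'o.mem_nhds hx] with y hy hyU k
    have h1 : ∑ i, ∑ j, FlatUCC_A (B (L y)) i j * dd (v' k) i j y =
        φ (E k).2 (4 * ∑ p, ∑ q, B (L y) p q * dz p (dzbar q (v (E k).1)) (L y)) := by
      have h2 : (4 : ℂ) * ∑ p, ∑ q, B (L y) p q * dz p (dzbar q (v (E k).1)) (L y) =
          ∑ i, ∑ j, FlatUCC_A (B (L y)) i j •
            fderiv ℝ (fderiv ℝ (v (E k).1)) (L y) (L (EuclideanSpace.single i 1))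
              (L (EuclideanSpace.single j 1)) := by
        rw [← FlatUCC_A_op (hherm _ hyU) _
          (((hvat (E k).1 y hyU).isSymmSndFDerivAt (by simp)))]
        rw [Finset.mul_sum]
        refine Finset.sum_congr rfl fun p _ => ?_
        rw [Finset.mul_sum]
        refine Finset.sum_congr rfl fun q _ => ?_
        rw [← FlatUCC_dz (hvat (E k).1 y hyU) p q]
        ring
      rw [h2, map_sum]
      refine Finset.sum_congr rfl fun i _ => ?_
      rw [map_sum]
      refine Finset.sum_congr rfl fun j _ => ?_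
      rw [map_smul, smul_eq_mul]
      congr 1
      exact FlatUCC_dd (φ (E k).2) (hvat (E k).1 y hyU) i j
    rw [h1]
    refine (hφn _ _).trans ?_
    rw [norm_mul]
    have h3 : ‖(4 : ℂ)‖ = 4 := by norm_num
    rw [h3]
    have hS0 : 0 ≤ ∑ m, (‖v m (L y)‖ + ‖fderiv ℝ (v m) (L y)‖) :=
      Finset.sum_nonneg fun m _ => by positivity
    have h4 : ∑ m, (‖v m (L y)‖ + ‖fderiv ℝ (v m) (L y)‖) ≤
        (1 + ‖(L.symm : C2 →L[ℝ] E4)‖) * ∑ m, (|v' m y| + ‖fderiv ℝ (v' m) y‖) := by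
      have h5 : ∑ m, (|v' m y| + ‖fderiv ℝ (v' m) y‖) =
          ∑ m : ι, ∑ s : Fin 2, (|φ s (v m (L y))| +
            ‖fderiv ℝ (fun x => φ s (v m (L x))) y‖) := by
        rw [← Fintype.sum_prod_type' (f := fun (m : ι) (s : Fin 2) => (|φ s (v m (L y))| +
            ‖fderiv ℝ (fun x => φ s (v m (L x))) y‖))]
        exact Equiv.sum_comp E (fun p : ι × Fin 2 => (|φ p.2 (v p.1 (L y))| +
            ‖fderiv ℝ (fun x => φ p.2 (v p.1 (L x))) y‖))
      rw [h5, Finset.mul_sum]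
      refine Finset.sum_le_sum fun m _ => ?_
      rw [Fin.sum_univ_two]
      have h6 := FlatUCC_pi (v m (L y))
      have h7 := FlatUCC_norm ((hvat m y hyU).differentiableAt (by norm_num))
      simp only [hφ, Matrix.cons_val_zero, Matrix.cons_val_one]
      have h8 : 0 ≤ ‖(L.symm : C2 →L[ℝ] E4)‖ := norm_nonneg _
      have h9 : 0 ≤ |Complex.reCLM (v m (L y))| := abs_nonneg _
      have h10 : 0 ≤ |Complex.imCLM (v m (L y))| := abs_nonneg _
      have h11 : 0 ≤ ‖fderiv ℝ (fun x => Complex.reCLM (v m (L x))) y‖ := norm_nonneg _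
      have h12 : 0 ≤ ‖fderiv ℝ (fun x => Complex.imCLM (v m (L x))) y‖ := norm_nonneg _
      nlinarith [mul_nonneg h8 h9, mul_nonneg h8 h10]
    calc (4 : ℝ) * ‖∑ p, ∑ q, B (L y) p q * dz p (dzbar q (v (E k).1)) (L y)‖
        ≤ 4 * (C * ∑ m, (‖v m (L y)‖ + ‖fderiv ℝ (v m) (L y)‖)) := by
          gcongr
          exact hy (E k).1
      _ ≤ 4 * (|C| * ∑ m, (‖v m (L y)‖ + ‖fderiv ℝ (v m) (L y)‖)) := by
          gcongr
          exact le_abs_self C
      _ ≤ 4 * (|C| * ((1 + ‖(L.symm : C2 →L[ℝ] E4)‖) *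
            ∑ m, (|v' m y| + ‖fderiv ℝ (v' m) y‖))) := by
          gcongr
      _ = _ := by ring
  · obtain ⟨z, hz⟩ := hne
    exact ⟨L.symm z, by simpa using hz⟩
  · intro x hx k
    simp only [hv']
    rw [hzero _ hx, map_zero]

end Pool.Agent.Lib.MP_6c284f_gt
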