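import Pool.Agent.Lib.MP_6c284f_gt.Defs
import Pool.Agent.Lib.MP_6c284f_gt.HK

set_option autoImplicit false

/-!
The hyperkähler data of a Ricci-flat Kähler metric in a holomorphic chart (definitions).
-/

namespace Pool.Agent.Lib.MP_6c284f_gt

open scoped Manifold ContDiff Topology ComplexConjugate Matrix
open Set

/-- the bilinear map `(v, w) ↦ v i * conj (w j)` -/
noncomputable def pbar (i j : Fin 2) : C2 →L[ℝ] C2 →L[ℝ] ℂ :=
  (ContinuousLinearMap.mul ℝ ℂ).bilinearComp (ContinuousLinearMap.proj i)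
    ((Complex.conjCLE : ℂ →L[ℝ] ℂ) ∘L ContinuousLinearMap.proj j)

/-- the bilinear map `(v, w) ↦ v i * w j` -/
noncomputable def pmul (i j : Fin 2) : C2 →L[ℝ] C2 →L[ℝ] ℂ :=
  (ContinuousLinearMap.mul ℝ ℂ).bilinearComp (ContinuousLinearMap.proj i)
    (ContinuousLinearMap.proj j)

@[simp] theorem pbar_apply (i j : Fin 2) (v w : C2) : pbar i j v w = v i * conj (w j) := rfl

@[simp] theorem pmul_apply (i j : Fin 2) (v w : C2) : pmul i j v w = v i * w j := rfl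

/-- the real scalar product `Re h(v, w)` -/
noncomputable def kG (H : C2 → Matrix (Fin 2) (Fin 2) ℂ) (z : C2) : C2 →L[ℝ] C2 →L[ℝ] ℝ :=
  ContinuousLinearMap.compL ℝ C2 ℂ ℝ Complex.reCLM ∘L (∑ i, ∑ j, H z i j • pbar i j)

@[simp] theorem kG_apply (H : C2 → Matrix (Fin 2) (Fin 2) ℂ) (z v w : C2) :
    kG H z v w = (∑ i, ∑ j, H z i j * v i * conj (w j)).re := by
  simp [kG, mul_assoc]

/-- the Christoffel symbols `Γ^k_{ij} = h^{k \bar l} ∂_i h_{j \bar l}` -/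
noncomputable def chris (H : C2 → Matrix (Fin 2) (Fin 2) ℂ) (i j k : Fin 2) (z : C2) : ℂ :=
  ∑ l, (H z)⁻¹ l k * dz i (fun y => H y j l) z

/-- the connection of a Kähler metric in a holomorphic chart -/
noncomputable def kΓ (H : C2 → Matrix (Fin 2) (Fin 2) ℂ) (z : C2) : C2 →L[ℝ] C2 →L[ℝ] C2 :=
  ∑ k, ContinuousLinearMap.compL ℝ C2 ℂ C2
    (ContinuousLinearMap.single ℝ (fun _ : Fin 2 => ℂ) k) ∘L
      (∑ i, ∑ j, chris H i j k z • pmul i j)

@[simp] theorem kΓ_apply (H : C2 → Matrix (Fin 2) (Fin 2) ℂ) (z u v : C2) (k : Fin 2) :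
    kΓ H z u v k = ∑ i, ∑ j, chris H i j k z * u i * v j := by
  simp only [kΓ, sum_apply, ContinuousLinearMap.comp_apply,
    ContinuousLinearMap.compL_apply, smul_apply, pmul_apply,
    ContinuousLinearMap.single_apply, Finset.sum_apply, smul_eq_mul, mul_assoc]
  simp [Pi.single_apply]

/-- the antilinear complex structure defined by `h(Jv, w) = r \overline{Ω(w, v)}` -/
noncomputable def kJ (H : C2 → Matrix (Fin 2) (Fin 2) ℂ) (f : C2 → ℂ) (r : ℝ) (z : C2) :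
    C2 →L[ℝ] C2 :=
  ∑ k, (ContinuousLinearMap.single ℝ (fun _ : Fin 2 => ℂ) k) ∘L
    (((r : ℂ) * conj (f z) * (H z)⁻¹ 0 k) •
        ((Complex.conjCLE : ℂ →L[ℝ] ℂ) ∘L (ContinuousLinearMap.proj 1 : C2 →L[ℝ] ℂ))
      - ((r : ℂ) * conj (f z) * (H z)⁻¹ 1 k) •
        ((Complex.conjCLE : ℂ →L[ℝ] ℂ) ∘L (ContinuousLinearMap.proj 0 : C2 →L[ℝ] ℂ)))

@[simp] theorem kJ_apply (H : C2 → Matrix (Fin 2) (Fin 2) ℂ) (f : C2 → ℂ) (r : ℝ) (z v : C2)
    (k : Fin 2) :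
    kJ H f r z v k = (r : ℂ) * conj (f z) *
      ((H z)⁻¹ 0 k * conj (v 1) - (H z)⁻¹ 1 k * conj (v 0)) := by
  simp only [kJ, sum_apply, ContinuousLinearMap.comp_apply,
    ContinuousLinearMap.single_apply, Finset.sum_apply, Pi.single_apply]
  simp
  ring

/-- the four endomorphisms `1, i, J, iJ` -/
noncomputable def kI (H : C2 → Matrix (Fin 2) (Fin 2) ℂ) (f : C2 → ℂ) (r : ℝ) :
    Fin 4 → C2 → C2 →L[ℝ] C2 :=
  ![fun _ => ContinuousLinearMap.id ℝ C2,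
    fun _ => Complex.I • ContinuousLinearMap.id ℝ C2,
    kJ H f r,
    fun z => Complex.I • kJ H f r z]

/-- the hyperkähler data in a chart -/
noncomputable def kData (H : C2 → Matrix (Fin 2) (Fin 2) ℂ) (f : C2 → ℂ) (r : ℝ) : HKData C2 where
  G := kG H
  Γ := kΓ H
  I := kI H f r

/-- The hypotheses on the local data: `H` is the matrix of a Kähler metric, `f` the coefficient
of a holomorphic two-form without zeros and `r ^ 2 * |f| ^ 2 = det H`. -/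
structure IsK (H : C2 → Matrix (Fin 2) (Fin 2) ℂ) (f : C2 → ℂ) (r : ℝ) (U : Set C2) : Prop where
  isOpen : IsOpen U
  smooth : ∀ i j, ContDiffOn ℝ ∞ (fun z => H z i j) U
  herm : ∀ z ∈ U, (H z).IsHermitian
  pos : ∀ z ∈ U, ∀ v : C2, v ≠ 0 → 0 < (∑ i, ∑ j, H z i j * v i * conj (v j)).re
  closed : ∀ z ∈ U, ∀ i j k, dz k (fun z => H z i j) z = dz i (fun z => H z k j) z
  holo : ContDiffOn ℂ ω f U
  rpos : 0 < r
  norm : ∀ z ∈ U, r ^ 2 * ‖f z‖ ^ 2 = (H z).det.re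

end Pool.Agent.Lib.MP_6c284f_gt
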