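import Pool.Agent.Lib.MP_6c284f_gt.Kahler

set_option autoImplicit false
set_option maxSynthPendingDepth 5

/-!
Smoothness of the local data.
-/

namespace Pool.Agent.Lib.MP_6c284f_gt

open scoped Manifold ContDiff Topology ComplexConjugate Matrix
open Set

variable {H : C2 → Matrix (Fin 2) (Fin 2) ℂ} {f : C2 → ℂ} {r : ℝ} {U : Set C2}

theorem k_det_pos (hK : IsK H f r U) {z : C2} (hz : z ∈ U) :
    0 < (H z).det.re ∧ (H z).det.im = 0 := by
  have hh := hK.herm z hz
  have h00 : conj (H z 0 0) = H z 0 0 := by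
    simpa using congrFun (congrFun hh 0) 0
  have h11 : conj (H z 1 1) = H z 1 1 := by
    simpa using congrFun (congrFun hh 1) 1
  have h01 : conj (H z 1 0) = H z 0 1 := by
    simpa using congrFun (congrFun hh 0) 1
  have i00 : (H z 0 0).im = 0 := Complex.conj_eq_iff_im.1 h00
  have i11 : (H z 1 1).im = 0 := Complex.conj_eq_iff_im.1 h11
  have p0 := hK.pos z hz ![1, 0] (by
    intro h
    simpa using congrFun h 0)
  simp [Fin.sum_univ_two] at p0
  have p1 := hK.pos z hz ![-H z 1 0, H z 0 0] (by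
    intro h
    have h1 := congrFun h 1
    simp only [Matrix.cons_val_one, Matrix.cons_val_fin_one, Pi.zero_apply] at h1
    rw [h1] at p0
    simp at p0)
  rw [Matrix.det_fin_two, ← h01]
  simp only [Fin.sum_univ_two, Matrix.cons_val_zero, Matrix.cons_val_one,
    Matrix.cons_val_fin_one, ← h01] at p1
  simp only [Complex.add_re, Complex.mul_re, Complex.mul_im, Complex.neg_re, Complex.neg_im,
    Complex.conj_re, Complex.conj_im, map_neg, i00] at p1
  refine ⟨?_, ?_⟩
  · have : 0 < (H z 0 0).re * ((H z 0 0).re * (H z 1 1).re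
        - ((H z 1 0).re ^ 2 + (H z 1 0).im ^ 2)) := by
      nlinarith [p1]
    have h2 : 0 < (H z 0 0).re * (H z 1 1).re - ((H z 1 0).re ^ 2 + (H z 1 0).im ^ 2) :=
      (mul_pos_iff_of_pos_left p0).1 this
    simp only [Complex.sub_re, Complex.mul_re, Complex.conj_re, Complex.conj_im, i00, i11]
    nlinarith [h2]
  · simp only [Complex.sub_im, Complex.mul_im, Complex.conj_re, Complex.conj_im, i00, i11]
    ring

theorem k_f_ne (hK : IsK H f r U) {z : C2} (hz : z ∈ U) : f z ≠ 0 := by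
  intro h
  have h1 := hK.norm z hz
  have h2 := (k_det_pos hK hz).1
  rw [h] at h1
  simp at h1
  linarith

theorem k_smoothG (hK : IsK H f r U) : ContDiffOn ℝ ∞ (kG H) U := by
  have h : ContDiffOn ℝ ∞ (fun z => ∑ i, ∑ j, H z i j • pbar i j) U :=
    ContDiffOn.sum fun i _ => ContDiffOn.sum fun j _ => (hK.smooth i j).smul contDiffOn_const
  exact contDiffOn_const.clm_comp h

theorem kA_dz {U : Set C2} (hU : IsOpen U) {g : C2 → ℂ} (hg : ContDiffOn ℝ ∞ g U) (i : Fin 2) :
    ContDiffOn ℝ ∞ (dz i g) U := by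
  have h1 : ContDiffOn ℝ ∞ (fun y => fderiv ℝ g y) U :=
    hg.fderiv_of_isOpen hU (by simp)
  have h2 : ContDiffOn ℝ ∞ (fun y => fderiv ℝ g y (Pi.single i 1)) U :=
    h1.clm_apply contDiffOn_const
  have h3 : ContDiffOn ℝ ∞ (fun y => fderiv ℝ g y (Pi.single i Complex.I)) U :=
    h1.clm_apply contDiffOn_const
  exact (h2.sub (contDiffOn_const.mul h3)).div_const 2

theorem kA_inv (hK : IsK H f r U) (i j : Fin 2) : ContDiffOn ℝ ∞ (fun z => (H z)⁻¹ i j) U := by
  have hdet : ContDiffOn ℝ ∞ (fun z => (H z).det) U := by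
    have : ContDiffOn ℝ ∞ (fun z => H z 0 0 * H z 1 1 - H z 0 1 * H z 1 0) U :=
      ((hK.smooth 0 0).mul (hK.smooth 1 1)).sub ((hK.smooth 0 1).mul (hK.smooth 1 0))
    refine this.congr fun z _ => ?_
    rw [Matrix.det_fin_two]
  have hne : ∀ z ∈ U, (H z).det ≠ 0 := by
    intro z hz h
    have := (k_det_pos hK hz).1
    rw [h] at this
    simp at this
  have hinv : ContDiffOn ℝ ∞ (fun z => ((H z).det)⁻¹) U := hdet.inv hne
  have hadj : ContDiffOn ℝ ∞ (fun z => (H z).adjugate i j) U := by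
    fin_cases i <;> fin_cases j
    · exact (hK.smooth 1 1).congr fun z _ => by simp [Matrix.adjugate_fin_two]
    · exact (hK.smooth 0 1).neg.congr fun z _ => by simp [Matrix.adjugate_fin_two]
    · exact (hK.smooth 1 0).neg.congr fun z _ => by simp [Matrix.adjugate_fin_two]
    · exact (hK.smooth 0 0).congr fun z _ => by simp [Matrix.adjugate_fin_two]
  refine (hinv.mul hadj).congr fun z _ => ?_
  rw [Matrix.inv_def, Ring.inverse_eq_inv']
  rfl

theorem k_smooth_chris (hK : IsK H f r U) (i j k : Fin 2) :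
    ContDiffOn ℝ ∞ (chris H i j k) U := by
  have : ContDiffOn ℝ ∞ (fun z => ∑ l, (H z)⁻¹ l k * dz i (fun y => H y j l) z) U :=
    ContDiffOn.sum fun l _ => (kA_inv hK l k).mul (kA_dz hK.isOpen (hK.smooth j l) i)
  exact this

theorem k_smoothΓ (hK : IsK H f r U) : ContDiffOn ℝ ∞ (kΓ H) U := by
  have h : ∀ k, ContDiffOn ℝ ∞ (fun z => ∑ i, ∑ j, chris H i j k z • pmul i j) U := fun k =>
    ContDiffOn.sum fun i _ => ContDiffOn.sum fun j _ =>
      (k_smooth_chris hK i j k).smul contDiffOn_const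
  have : ContDiffOn ℝ ∞ (fun z => ∑ k, ContinuousLinearMap.compL ℝ C2 ℂ C2
      (ContinuousLinearMap.single ℝ (fun _ : Fin 2 => ℂ) k) ∘L
      (∑ i, ∑ j, chris H i j k z • pmul i j)) U :=
    ContDiffOn.sum fun k _ => contDiffOn_const.clm_comp (h k)
  exact this

theorem kA_J (hK : IsK H f r U) : ContDiffOn ℝ ∞ (kJ H f r) U := by
  have hf : ContDiffOn ℝ ∞ f U := (hK.holo.restrict_scalars ℝ).of_le (by simp)
  have hcf : ContDiffOn ℝ ∞ (fun z => conj (f z)) U :=
    Complex.conjCLE.contDiff.comp_contDiffOn hf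
  have hc : ∀ i k, ContDiffOn ℝ ∞ (fun z => (r : ℂ) * conj (f z) * (H z)⁻¹ i k) U :=
    fun i k => (contDiffOn_const.mul hcf).mul (kA_inv hK i k)
  have : ContDiffOn ℝ ∞ (fun z => ∑ k, (ContinuousLinearMap.single ℝ (fun _ : Fin 2 => ℂ) k) ∘L
    (((r : ℂ) * conj (f z) * (H z)⁻¹ 0 k) •
        ((Complex.conjCLE : ℂ →L[ℝ] ℂ) ∘L (ContinuousLinearMap.proj 1 : C2 →L[ℝ] ℂ))
      - ((r : ℂ) * conj (f z) * (H z)⁻¹ 1 k) •
        ((Complex.conjCLE : ℂ →L[ℝ] ℂ) ∘L (ContinuousLinearMap.proj 0 : C2 →L[ℝ] ℂ)))) U :=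
    ContDiffOn.sum fun k _ => contDiffOn_const.clm_comp
      (((hc 0 k).smul contDiffOn_const).sub ((hc 1 k).smul contDiffOn_const))
  exact this

theorem k_smoothI (hK : IsK H f r U) (a : Fin 4) : ContDiffOn ℝ ∞ (kI H f r a) U := by
  fin_cases a
  · exact contDiffOn_const
  · exact contDiffOn_const
  · exact kA_J hK
  · exact (contDiffOn_const (c := Complex.I)).smul (kA_J hK)

end Pool.Agent.Lib.MP_6c284f_gt
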