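import Pool.Agent.Lib.MP_6c284f_gt.Kahler
import Pool.Agent.Lib.MP_6c284f_gt.KahlerA

set_option autoImplicit false
set_option maxSynthPendingDepth 5

/-!
The connection of a Kähler metric in a holomorphic chart is torsion free and metric.
-/

namespace Pool.Agent.Lib.MP_6c284f_gt

open scoped Manifold ContDiff Topology ComplexConjugate Matrix
open Set

variable {H : C2 → Matrix (Fin 2) (Fin 2) ℂ} {f : C2 → ℂ} {r : ℝ} {U : Set C2}

theorem kB_herm (hK : IsK H f r U) {z : C2} (hz : z ∈ U) (i j : Fin 2) :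
    conj (H z i j) = H z j i := by
  have := congrFun (congrFun (hK.herm z hz) j) i
  simpa using this

theorem k_symm (hK : IsK H f r U) {z : C2} (hz : z ∈ U) (u v : C2) :
    kG H z u v = kG H z v u := by
  have h : conj (∑ i, ∑ j, H z i j * u i * conj (v j)) = ∑ i, ∑ j, H z i j * v i * conj (u j) := by
    simp only [map_sum, map_mul, Complex.conj_conj, kB_herm hK hz]
    rw [Finset.sum_comm]
    refine Finset.sum_congr rfl fun i _ => Finset.sum_congr rfl fun j _ => ?_
    ring
  rw [kG_apply, kG_apply, ← h, Complex.conj_re]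

theorem k_pos (hK : IsK H f r U) {z : C2} (hz : z ∈ U) {v : C2} (hv : v ≠ 0) :
    0 < kG H z v v := by
  rw [kG_apply]
  exact hK.pos z hz v hv

theorem k_tors (hK : IsK H f r U) {z : C2} (hz : z ∈ U) (u v : C2) :
    kΓ H z u v = kΓ H z v u := by
  funext k
  rw [kΓ_apply, kΓ_apply, Finset.sum_comm]
  refine Finset.sum_congr rfl fun i _ => Finset.sum_congr rfl fun j _ => ?_
  have : chris H j i k z = chris H i j k z := by
    unfold chris
    refine Finset.sum_congr rfl fun l _ => ?_
    rw [hK.closed z hz]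
  rw [this]
  ring

theorem kB_alg (A B c : ℂ) : c.re • A + c.im • B
    = (A - Complex.I * B) / 2 * c + (A + Complex.I * B) / 2 * conj c := by
  have h1 : c = c.re + c.im * Complex.I := (Complex.re_add_im c).symm
  have h2 : conj c = c.re - c.im * Complex.I := by
    apply Complex.ext <;> simp
  rw [h2]
  generalize c.re = x at *
  generalize c.im = y at *
  rw [h1]
  simp only [Complex.real_smul]
  have hI : Complex.I ^ 2 = -1 := Complex.I_sq
  linear_combination (B * y) * hI

/-- the derivative in terms of Wirtinger derivatives -/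
theorem kB_wirt (g : C2 → ℂ) (z u : C2) :
    fderiv ℝ g z u = ∑ k, (dz k g z * u k + dzbar k g z * conj (u k)) := by
  have hu : u = ∑ k, ((u k).re • (Pi.single k 1 : C2) + (u k).im • (Pi.single k Complex.I : C2)) := by
    funext l
    rw [Finset.sum_apply]
    simp only [Pi.add_apply, Pi.smul_apply, Pi.single_apply, smul_ite, smul_zero]
    rw [Finset.sum_add_distrib, Finset.sum_ite_eq, Finset.sum_ite_eq]
    simp only [Finset.mem_univ, if_true, Complex.real_smul, mul_one]
    exact (Complex.re_add_im (u l)).symm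
  conv_lhs => rw [hu]
  rw [map_sum]
  refine Finset.sum_congr rfl fun k _ => ?_
  rw [map_add, map_smul, map_smul]
  exact kB_alg _ _ _

theorem kB_dzbar (hK : IsK H f r U) {z : C2} (hz : z ∈ U) (i j k : Fin 2) :
    dzbar k (fun y => H y i j) z = conj (dz k (fun y => H y j i) z) := by
  have hd : DifferentiableAt ℝ (fun y => H y j i) z :=
    ((hK.smooth j i).contDiffAt (hK.isOpen.mem_nhds hz)).differentiableAt (by simp)
  have he : (fun y => H y i j) =ᶠ[𝓝 z] (fun y => conj (H y j i)) := by
    filter_upwards [hK.isOpen.mem_nhds hz] with y hy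
    exact (kB_herm hK hy j i).symm
  have h1 : fderiv ℝ (fun y => H y i j) z =
      (Complex.conjCLE : ℂ →L[ℝ] ℂ) ∘L fderiv ℝ (fun y => H y j i) z := by
    rw [he.fderiv_eq]
    exact ((Complex.conjCLE : ℂ →L[ℝ] ℂ).hasFDerivAt.comp z hd.hasFDerivAt).fderiv
  unfold dz dzbar
  rw [h1]
  simp [sub_eq_add_neg, Complex.conj_ofNat]

theorem kB_det (hK : IsK H f r U) {z : C2} (hz : z ∈ U) : IsUnit (H z).det := by
  rw [isUnit_iff_ne_zero]
  intro h
  have := (k_det_pos hK hz).1
  rw [h] at this
  simp at this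

theorem kB_contr (hK : IsK H f r U) {z : C2} (hz : z ∈ U) (k i j : Fin 2) :
    ∑ p, H z p j * chris H k i p z = dz k (fun y => H y i j) z := by
  have h1 : ∀ l, ∑ p, (H z)⁻¹ l p * H z p j = if l = j then 1 else 0 := by
    intro l
    have := congrFun (congrFun (Matrix.nonsing_inv_mul (H z) (kB_det hK hz)) l) j
    rw [Matrix.mul_apply] at this
    rw [this, Matrix.one_apply]
  unfold chris
  calc ∑ p, H z p j * ∑ l, (H z)⁻¹ l p * dz k (fun y => H y i l) z
      = ∑ l, (∑ p, (H z)⁻¹ l p * H z p j) * dz k (fun y => H y i l) z := by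
        simp only [Finset.mul_sum, Finset.sum_mul]
        rw [Finset.sum_comm]
        refine Finset.sum_congr rfl fun i _ => Finset.sum_congr rfl fun j _ => ?_
        ring
    _ = _ := by
        simp only [h1]
        simp

theorem kB_G (hK : IsK H f r U) {z : C2} (hz : z ∈ U) (u v w : C2) :
    kG H z (kΓ H z u v) w =
      (∑ i, ∑ j, (∑ k, dz k (fun y => H y i j) z * u k) * v i * conj (w j)).re := by
  rw [kG_apply]
  congr 1
  simp only [kΓ_apply]
  have h := kB_contr hK hz
  simp only [Fin.sum_univ_two] at h ⊢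
  linear_combination (h 0 0 0) * (u 0 * v 0 * conj (w 0)) + (h 0 0 1) * (u 0 * v 0 * conj (w 1))
    + (h 0 1 0) * (u 0 * v 1 * conj (w 0)) + (h 0 1 1) * (u 0 * v 1 * conj (w 1))
    + (h 1 0 0) * (u 1 * v 0 * conj (w 0)) + (h 1 0 1) * (u 1 * v 0 * conj (w 1))
    + (h 1 1 0) * (u 1 * v 1 * conj (w 0)) + (h 1 1 1) * (u 1 * v 1 * conj (w 1))

theorem kB_fderiv (hK : IsK H f r U) {z : C2} (hz : z ∈ U) (u v w : C2) :
    fderiv ℝ (kG H) z u v w =
      (∑ i, ∑ j, fderiv ℝ (fun y => H y i j) z u * v i * conj (w j)).re := by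
  have hG : HasFDerivAt (kG H) (fderiv ℝ (kG H) z) z :=
    (((k_smoothG hK).contDiffAt (hK.isOpen.mem_nhds hz)).differentiableAt (by simp)).hasFDerivAt
  have h1 := (hG.clm_apply (hasFDerivAt_const v z)).clm_apply (hasFDerivAt_const w z)
  have hd : ∀ i j, HasFDerivAt (fun y => H y i j) (fderiv ℝ (fun y => H y i j) z) z := fun i j =>
    (((hK.smooth i j).contDiffAt (hK.isOpen.mem_nhds hz)).differentiableAt (by simp)).hasFDerivAt
  have h2 : HasFDerivAt (fun y => ∑ i, ∑ j, H y i j * v i * conj (w j))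
      (∑ i, ∑ j, (conj (w j)) • (v i • fderiv ℝ (fun y => H y i j) z)) z := by
    refine HasFDerivAt.fun_sum fun i _ => HasFDerivAt.fun_sum fun j _ => ?_
    exact ((hd i j).mul_const (v i)).mul_const (conj (w j))
  have h3 : HasFDerivAt (fun y => kG H y v w) (Complex.reCLM ∘L
      (∑ i, ∑ j, (conj (w j)) • (v i • fderiv ℝ (fun y => H y i j) z))) z := by
    have := Complex.reCLM.hasFDerivAt.comp z h2
    refine this.congr_of_eventuallyEq (Filter.Eventually.of_forall fun y => ?_)
    exact kG_apply H y v w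
  have h4 := congrArg (fun L => L u) (h1.unique h3)
  simp only [add_apply, ContinuousLinearMap.comp_apply,
      ContinuousLinearMap.flip_apply, zero_apply, map_zero, zero_add] at h4
  rw [h4]
  simp only [sum_apply, smul_apply, smul_eq_mul, Complex.reCLM_apply]
  congr 1
  refine Finset.sum_congr rfl fun i _ => Finset.sum_congr rfl fun j _ => ?_
  ring

theorem k_compat (hK : IsK H f r U) {z : C2} (hz : z ∈ U) (u v w : C2) :
    fderiv ℝ (kG H) z u v w = kG H z (kΓ H z u v) w + kG H z v (kΓ H z u w) := by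
  rw [k_symm hK hz v, kB_G hK hz, kB_G hK hz, kB_fderiv hK hz]
  have h : (∑ i, ∑ j, (∑ k, dz k (fun y => H y i j) z * u k) * w i * conj (v j)).re =
      (conj (∑ i, ∑ j, (∑ k, dz k (fun y => H y i j) z * u k) * w i * conj (v j))).re :=
    (Complex.conj_re _).symm
  rw [h, ← Complex.add_re]
  congr 1
  simp only [kB_wirt (fun y => H y _ _) z u, kB_dzbar hK hz, Fin.sum_univ_two, map_add, map_mul,
    Complex.conj_conj]
  ring

/-- the geodesic equation of the metric in terms of `kΓ` -/
theorem k_geodesic (hK : IsK H f r U) {z : C2} (hz : z ∈ U) (v a : C2)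
    (h : ∀ l : Fin 2, ∑ k, H z k l * a k
      + ∑ i, ∑ j, dz i (fun y => H y j l) z * v i * v j = 0) :
    a = -kΓ H z v v := by
  have h1 : ∀ m p, ∑ l, H z m l * (H z)⁻¹ l p = if m = p then 1 else 0 := by
    intro m p
    have := congrFun (congrFun (Matrix.mul_nonsing_inv (H z) (kB_det hK hz)) m) p
    rw [Matrix.mul_apply] at this
    rw [this, Matrix.one_apply]
  funext m
  rw [Pi.neg_apply, kΓ_apply]
  unfold chris
  have e00 := h1 0 m
  have e11 := h1 1 m
  have h0 := h 0
  have h2 := h 1
  simp only [Fin.sum_univ_two] at *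
  have : a m = a 0 * (if 0 = m then 1 else 0) + a 1 * (if 1 = m then 1 else 0) := by
    fin_cases m <;> simp
  rw [this, ← e00, ← e11]
  linear_combination (H z)⁻¹ 0 m * h0 + (H z)⁻¹ 1 m * h2

end Pool.Agent.Lib.MP_6c284f_gt
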