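import Pool.Agent.Lib.MP_6c284f_gt.Kahler

set_option autoImplicit false
set_option maxSynthPendingDepth 5

/-!
The quaternion relations of the endomorphisms `kI`.
-/

namespace Pool.Agent.Lib.MP_6c284f_gt

open scoped Manifold ContDiff Topology ComplexConjugate Matrix
open Set

variable {H : C2 → Matrix (Fin 2) (Fin 2) ℂ} {f : C2 → ℂ} {r : ℝ} {U : Set C2}

private theorem KC_kI0 (z : C2) : kI H f r 0 z = ContinuousLinearMap.id ℝ C2 := rfl

private theorem KC_kI1 (z : C2) : kI H f r 1 z = Complex.I • ContinuousLinearMap.id ℝ C2 := rfl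

private theorem KC_kI2 (z : C2) : kI H f r 2 z = kJ H f r z := rfl

private theorem KC_kI3 (z : C2) : kI H f r 3 z = Complex.I • kJ H f r z := rfl

private theorem KC_kI1' (z v : C2) (k : Fin 2) : kI H f r 1 z v k = Complex.I * v k := rfl

private theorem KC_kI3' (z v : C2) (k : Fin 2) :
    kI H f r 3 z v k = Complex.I * kJ H f r z v k := rfl

theorem k_I0 (z v : C2) : kI H f r 0 z v = v := rfl

theorem k_I11 (z v : C2) : kI H f r 1 z (kI H f r 1 z v) = -v := by
  funext k
  rw [KC_kI1', KC_kI1', ← mul_assoc, Complex.I_mul_I, Pi.neg_apply]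
  ring

private theorem KC_inv (M : Matrix (Fin 2) (Fin 2) ℂ) :
    M⁻¹ 0 0 = M.det⁻¹ * M 1 1 ∧ M⁻¹ 0 1 = M.det⁻¹ * (-M 0 1) ∧
    M⁻¹ 1 0 = M.det⁻¹ * (-M 1 0) ∧ M⁻¹ 1 1 = M.det⁻¹ * M 0 0 := by
  rw [Matrix.inv_def, Matrix.adjugate_fin_two, Ring.inverse_eq_inv']
  refine ⟨?_, ?_, ?_, ?_⟩ <;> simp

private theorem KC_facts (hK : IsK H f r U) {z : C2} (hz : z ∈ U) :
    conj (H z 0 0) = H z 0 0 ∧ conj (H z 1 1) = H z 1 1 ∧ conj (H z 0 1) = H z 1 0 ∧
    conj (H z 1 0) = H z 0 1 ∧ conj (H z).det = (H z).det ∧ (H z).det ≠ 0 ∧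
    (H z).det = H z 0 0 * H z 1 1 - H z 0 1 * H z 1 0 ∧
    (r : ℂ) ^ 2 * (f z * conj (f z)) = (H z).det := by
  have hh := hK.herm z hz
  have h00 : conj (H z 0 0) = H z 0 0 := hh.apply 0 0
  have h11 : conj (H z 1 1) = H z 1 1 := hh.apply 1 1
  have h01 : conj (H z 0 1) = H z 1 0 := hh.apply 1 0
  have h10 : conj (H z 1 0) = H z 0 1 := hh.apply 0 1
  have hdet : (H z).det = H z 0 0 * H z 1 1 - H z 0 1 * H z 1 0 := Matrix.det_fin_two _
  have hc : conj (H z).det = (H z).det := by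
    rw [hdet, map_sub, map_mul, map_mul, h00, h11, h01, h10]
    ring
  have hne : (H z).det ≠ 0 := by
    intro h0
    by_cases hd : H z 1 1 = 0
    · have h1 := hK.pos z hz ![0, 1] (by
        intro h
        have := congrFun h 1
        simp at this)
      simp [Fin.sum_univ_two, hd] at h1
    · have h1 := hK.pos z hz ![H z 1 1, -H z 0 1] (by
        intro h
        exact hd (congrFun h 0))
      have h2 : (∑ i, ∑ j, H z i j * (![H z 1 1, -H z 0 1] : C2) i *
          conj ((![H z 1 1, -H z 0 1] : C2) j)) = 0 := by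
        simp only [Fin.sum_univ_two, Matrix.cons_val_zero, Matrix.cons_val_one, map_neg, h11, h01]
        rw [hdet] at h0
        linear_combination (H z 1 1) * h0
      rw [h2] at h1
      simp at h1
  refine ⟨h00, h11, h01, h10, hc, hne, hdet, ?_⟩
  have h3 := hK.norm z hz
  rw [Complex.mul_conj, Complex.normSq_eq_norm_sq]
  have h4 : (((H z).det.re : ℝ) : ℂ) = (H z).det := Complex.conj_eq_iff_re.1 hc
  rw [← h4, ← h3]
  push_cast
  ring

theorem k_I22 (hK : IsK H f r U) {z : C2} (hz : z ∈ U) (v : C2) :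
    kI H f r 2 z (kI H f r 2 z v) = -v := by
  obtain ⟨h00, h11, h01, h10, hc, hne, hdet, hnorm⟩ := KC_facts hK hz
  obtain ⟨i00, i01, i10, i11⟩ := KC_inv (H z)
  rw [KC_kI2]
  funext k
  fin_cases k
  · change kJ H f r z (kJ H f r z v) 0 = -v 0
    rw [kJ_apply, kJ_apply, kJ_apply, i00, i01, i10, i11]
    simp only [map_mul, map_sub, map_neg, Complex.conj_conj, Complex.conj_ofReal, map_inv₀,
      hc, h00, h11, h01, h10]
    field_simp
    rw [hdet] at hnorm ⊢
    linear_combination (-v 0 * (H z 0 0 * H z 1 1 - H z 0 1 * H z 1 0)) * hnorm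
  · change kJ H f r z (kJ H f r z v) 1 = -v 1
    rw [kJ_apply, kJ_apply, kJ_apply, i00, i01, i10, i11]
    simp only [map_mul, map_sub, map_neg, Complex.conj_conj, Complex.conj_ofReal, map_inv₀,
      hc, h00, h11, h01, h10]
    field_simp
    rw [hdet] at hnorm ⊢
    linear_combination (-v 1 * (H z 0 0 * H z 1 1 - H z 0 1 * H z 1 0)) * hnorm

theorem k_I12 (z v : C2) : kI H f r 1 z (kI H f r 2 z v) = kI H f r 3 z v := rfl

theorem k_I21 (z v : C2) : kI H f r 2 z (kI H f r 1 z v) = -kI H f r 3 z v := by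
  funext k
  rw [KC_kI2, Pi.neg_apply, KC_kI3', kJ_apply, kJ_apply, KC_kI1', KC_kI1', map_mul, map_mul,
    Complex.conj_I]
  ring

private theorem KC_orthJ (hK : IsK H f r U) {z : C2} (hz : z ∈ U) (u v : C2) :
    kG H z (kJ H f r z u) (kJ H f r z v) = kG H z u v := by
  obtain ⟨h00, h11, h01, h10, hc, hne, hdet, hnorm⟩ := KC_facts hK hz
  obtain ⟨i00, i01, i10, i11⟩ := KC_inv (H z)
  have key : (∑ i, ∑ j, H z i j * kJ H f r z u i * conj (kJ H f r z v j)) =
      conj (∑ i, ∑ j, H z i j * u i * conj (v j)) := by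
    simp only [Fin.sum_univ_two, kJ_apply, i00, i01, i10, i11]
    simp only [map_mul, map_sub, map_neg, map_add, Complex.conj_conj, Complex.conj_ofReal,
      map_inv₀, hc, h00, h11, h01, h10]
    field_simp
    rw [hdet] at hnorm ⊢
    linear_combination ((H z 0 0 * H z 1 1 - H z 0 1 * H z 1 0) *
      ((H z 1 1 * conj (u 1) + H z 1 0 * conj (u 0)) * v 1 +
        (conj (u 1) * H z 0 1 + H z 0 0 * conj (u 0)) * v 0)) * hnorm
  rw [kG_apply, kG_apply, key, Complex.conj_re]

private theorem KC_orthI {z : C2} (u v : C2) :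
    kG H z (Complex.I • u) (Complex.I • v) = kG H z u v := by
  rw [kG_apply, kG_apply]
  congr 1
  refine Finset.sum_congr rfl fun i _ => Finset.sum_congr rfl fun j _ => ?_
  rw [Pi.smul_apply, Pi.smul_apply, smul_eq_mul, smul_eq_mul, map_mul, Complex.conj_I]
  linear_combination (-(H z i j * u i * conj (v j))) * Complex.I_mul_I

theorem k_orth (hK : IsK H f r U) (a : Fin 4) {z : C2} (hz : z ∈ U) (u v : C2) :
    kG H z (kI H f r a z u) (kI H f r a z v) = kG H z u v := by
  fin_cases a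
  · rfl
  · exact KC_orthI u v
  · exact KC_orthJ hK hz u v
  · exact (KC_orthI _ _).trans (KC_orthJ hK hz u v)

end Pool.Agent.Lib.MP_6c284f_gt
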