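import Pool.Agent.Lib.MP_6c284f_gt.Kahler

set_option autoImplicit false
set_option maxSynthPendingDepth 5

/-!
Elementary rules for the Wirtinger derivatives and for the entries of a `2 × 2` inverse matrix.
-/

namespace Pool.Agent.Lib.MP_6c284f_gt

open scoped Manifold ContDiff Topology ComplexConjugate Matrix
open Set

theorem kw_decomp (v : C2) : v = ∑ k, ((v k).re • (Pi.single k (1 : ℂ) : C2)
    + (v k).im • (Pi.single k Complex.I : C2)) := by
  funext j
  simp only [Finset.sum_apply, Pi.add_apply, Pi.smul_apply, Pi.single_apply]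
  fin_cases j <;>
  simp [Fin.sum_univ_two]

/-- real derivative in terms of Wirtinger derivatives -/
theorem kw_fderiv {g : C2 → ℂ} {z : C2} (v : C2) :
    fderiv ℝ g z v = ∑ k, (dz k g z * v k + dzbar k g z * conj (v k)) := by
  conv_lhs => rw [kw_decomp v]
  rw [map_sum]
  refine Finset.sum_congr rfl fun k _ => ?_
  rw [map_add, map_smul, map_smul]
  unfold dz dzbar
  have h1 : v k = ((v k).re : ℂ) + ((v k).im : ℂ) * Complex.I := (Complex.re_add_im _).symm
  have h2 : conj (v k) = ((v k).re : ℂ) - ((v k).im : ℂ) * Complex.I := by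
    apply Complex.ext <;> simp
  rw [h2]
  conv_rhs => rw [show v k = ((v k).re : ℂ) + ((v k).im : ℂ) * Complex.I from h1]
  simp only [Complex.real_smul, Complex.add_re, Complex.add_im, Complex.mul_re, Complex.mul_im,
    Complex.ofReal_re, Complex.ofReal_im, Complex.I_re, Complex.I_im]
  push_cast
  ring_nf
  simp only [Complex.I_sq]
  ring

theorem kw_dz_mul {g h : C2 → ℂ} {z : C2} (hg : DifferentiableAt ℝ g z)
    (hh : DifferentiableAt ℝ h z) (k : Fin 2) :
    dz k (fun y => g y * h y) z = dz k g z * h z + g z * dz k h z := by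
  unfold dz
  rw [fderiv_fun_mul hg hh]
  simp only [add_apply, smul_apply, smul_eq_mul]
  ring

theorem kw_dzbar_mul {g h : C2 → ℂ} {z : C2} (hg : DifferentiableAt ℝ g z)
    (hh : DifferentiableAt ℝ h z) (k : Fin 2) :
    dzbar k (fun y => g y * h y) z = dzbar k g z * h z + g z * dzbar k h z := by
  unfold dzbar
  rw [fderiv_fun_mul hg hh]
  simp only [add_apply, smul_apply, smul_eq_mul]
  ring

theorem kw_dz_sub {g h : C2 → ℂ} {z : C2} (hg : DifferentiableAt ℝ g z)
    (hh : DifferentiableAt ℝ h z) (k : Fin 2) :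
    dz k (fun y => g y - h y) z = dz k g z - dz k h z := by
  unfold dz
  rw [fderiv_fun_sub hg hh]
  simp only [sub_apply]
  ring

theorem kw_dz_add {g h : C2 → ℂ} {z : C2} (hg : DifferentiableAt ℝ g z)
    (hh : DifferentiableAt ℝ h z) (k : Fin 2) :
    dz k (fun y => g y + h y) z = dz k g z + dz k h z := by
  unfold dz
  rw [fderiv_fun_add hg hh]
  simp only [add_apply]
  ring

theorem kw_dzbar_sub {g h : C2 → ℂ} {z : C2} (hg : DifferentiableAt ℝ g z)
    (hh : DifferentiableAt ℝ h z) (k : Fin 2) :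
    dzbar k (fun y => g y - h y) z = dzbar k g z - dzbar k h z := by
  unfold dzbar
  rw [fderiv_fun_sub hg hh]
  simp only [sub_apply]
  ring

theorem kw_dzbar_add {g h : C2 → ℂ} {z : C2} (hg : DifferentiableAt ℝ g z)
    (hh : DifferentiableAt ℝ h z) (k : Fin 2) :
    dzbar k (fun y => g y + h y) z = dzbar k g z + dzbar k h z := by
  unfold dzbar
  rw [fderiv_fun_add hg hh]
  simp only [add_apply]
  ring

theorem kw_dz_const_mul {h : C2 → ℂ} {z : C2} (c : ℂ)
    (hh : DifferentiableAt ℝ h z) (k : Fin 2) :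
    dz k (fun y => c * h y) z = c * dz k h z := by
  unfold dz
  rw [fderiv_const_mul hh c]
  simp only [smul_apply, smul_eq_mul]
  ring

theorem kw_dzbar_const_mul {h : C2 → ℂ} {z : C2} (c : ℂ)
    (hh : DifferentiableAt ℝ h z) (k : Fin 2) :
    dzbar k (fun y => c * h y) z = c * dzbar k h z := by
  unfold dzbar
  rw [fderiv_const_mul hh c]
  simp only [smul_apply, smul_eq_mul]
  ring

theorem kw_fderiv_conj {g : C2 → ℂ} {z : C2} (v : C2) :
    fderiv ℝ (fun y => conj (g y)) z v = conj (fderiv ℝ g z v) := by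
  have h := (Complex.conjCLE : ℂ ≃L[ℝ] ℂ).comp_fderiv (f := g) (x := z)
  have h2 : (Complex.conjCLE : ℂ → ℂ) ∘ g = fun y => conj (g y) := rfl
  rw [h2] at h
  rw [h]
  rfl

theorem kw_dz_conj {g : C2 → ℂ} {z : C2} (k : Fin 2) :
    dz k (fun y => conj (g y)) z = conj (dzbar k g z) := by
  unfold dz dzbar
  rw [kw_fderiv_conj, kw_fderiv_conj]
  simp only [map_div₀, map_add, map_mul, Complex.conj_I]
  rw [show conj (2 : ℂ) = 2 from Complex.conj_ofNat 2]
  ring

theorem kw_dzbar_conj {g : C2 → ℂ} {z : C2} (k : Fin 2) :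
    dzbar k (fun y => conj (g y)) z = conj (dz k g z) := by
  unfold dz dzbar
  rw [kw_fderiv_conj, kw_fderiv_conj]
  simp only [map_div₀, map_sub, map_mul, Complex.conj_I]
  rw [show conj (2 : ℂ) = 2 from Complex.conj_ofNat 2]
  ring

theorem kw_dz_congr {g h : C2 → ℂ} {z : C2} (e : g =ᶠ[𝓝 z] h) (k : Fin 2) :
    dz k g z = dz k h z := by
  unfold dz
  rw [e.fderiv_eq]

theorem kw_dzbar_congr {g h : C2 → ℂ} {z : C2} (e : g =ᶠ[𝓝 z] h) (k : Fin 2) :
    dzbar k g z = dzbar k h z := by
  unfold dzbar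
  rw [e.fderiv_eq]

/-- a holomorphic function has complex linear real derivative -/
theorem kw_fderiv_holo {g : C2 → ℂ} {z : C2} (hg : DifferentiableAt ℂ g z) (v : C2) :
    fderiv ℝ g z v = fderiv ℂ g z v := by
  rw [(hg.hasFDerivAt.restrictScalars ℝ).fderiv]
  rfl

theorem kw_dzbar_holo {g : C2 → ℂ} {z : C2} (hg : DifferentiableAt ℂ g z) (k : Fin 2) :
    dzbar k g z = 0 := by
  unfold dzbar
  rw [kw_fderiv_holo hg, kw_fderiv_holo hg]
  have h : (Pi.single k Complex.I : C2) = Complex.I • (Pi.single k (1 : ℂ) : C2) := by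
    funext j
    by_cases hj : j = k
    · subst hj; simp
    · simp [hj]
  rw [h, map_smul, smul_eq_mul, ← mul_assoc, Complex.I_mul_I]
  ring

theorem kw_dz_holo {g : C2 → ℂ} {z : C2} (hg : DifferentiableAt ℂ g z) (k : Fin 2) :
    dz k g z = fderiv ℂ g z (Pi.single k 1) := by
  unfold dz
  rw [kw_fderiv_holo hg, kw_fderiv_holo hg]
  have h : (Pi.single k Complex.I : C2) = Complex.I • (Pi.single k (1 : ℂ) : C2) := by
    funext j
    by_cases hj : j = k
    · subst hj; simp
    · simp [hj]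
  rw [h, map_smul, smul_eq_mul, ← mul_assoc, Complex.I_mul_I]
  ring

section inverse

variable (A : Matrix (Fin 2) (Fin 2) ℂ)

theorem kw_inv00 : A⁻¹ 0 0 = A 1 1 / A.det := by
  rw [Matrix.inv_def, Ring.inverse_eq_inv', Matrix.smul_apply, Matrix.adjugate_fin_two]
  simp [div_eq_inv_mul]

theorem kw_inv01 : A⁻¹ 0 1 = -A 0 1 / A.det := by
  rw [Matrix.inv_def, Ring.inverse_eq_inv', Matrix.smul_apply, Matrix.adjugate_fin_two]
  simp [div_eq_inv_mul]

theorem kw_inv10 : A⁻¹ 1 0 = -A 1 0 / A.det := by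
  rw [Matrix.inv_def, Ring.inverse_eq_inv', Matrix.smul_apply, Matrix.adjugate_fin_two]
  simp [div_eq_inv_mul]

theorem kw_inv11 : A⁻¹ 1 1 = A 0 0 / A.det := by
  rw [Matrix.inv_def, Ring.inverse_eq_inv', Matrix.smul_apply, Matrix.adjugate_fin_two]
  simp [div_eq_inv_mul]

end inverse

variable {H : C2 → Matrix (Fin 2) (Fin 2) ℂ} {f : C2 → ℂ} {r : ℝ} {U : Set C2}

theorem kw_herm (hK : IsK H f r U) {z : C2} (hz : z ∈ U) (i j : Fin 2) :
    conj (H z i j) = H z j i := (hK.herm z hz).apply j i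

theorem kw_det_pos (hK : IsK H f r U) {z : C2} (hz : z ∈ U) :
    0 < (H z).det.re ∧ (H z).det.im = 0 := by
  have h00 := kw_herm hK hz 0 0
  have h11 := kw_herm hK hz 1 1
  have h01 := kw_herm hK hz 0 1
  have e00 : (H z 0 0).im = 0 := by
    have := congrArg Complex.im h00
    simp at this; linarith
  have e11 : (H z 1 1).im = 0 := by
    have := congrArg Complex.im h11
    simp at this; linarith
  have p00 : 0 < (H z 0 0).re := by
    have := hK.pos z hz (Pi.single 0 1) (by simp)
    simpa [Fin.sum_univ_two] using this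
  have er : (H z 1 0).re = (H z 0 1).re := by
    have := congrArg Complex.re h01
    simp at this; linarith
  have ei : (H z 1 0).im = -(H z 0 1).im := by
    have := congrArg Complex.im h01
    simp at this; linarith
  have key := hK.pos z hz ![-(H z 1 0), H z 0 0] (by
    intro h
    have := congrFun h 1
    simp at this
    rw [this] at p00
    simp at p00)
  rw [Matrix.det_fin_two]
  simp only [Fin.sum_univ_two, Matrix.cons_val_zero, Matrix.cons_val_one, map_neg,
    Complex.add_re, Complex.mul_re, Complex.neg_re, Complex.mul_im, Complex.neg_im,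
    Complex.conj_re, Complex.conj_im, Complex.sub_re, Complex.sub_im, e00, e11, er, ei] at key ⊢
  constructor
  · by_contra hcon
    push Not at hcon
    nlinarith [mul_nonneg p00.le (neg_nonneg.2 hcon)]
  · ring

theorem kw_det_ne (hK : IsK H f r U) {z : C2} (hz : z ∈ U) : (H z).det ≠ 0 := by
  intro h
  have := (kw_det_pos hK hz).1
  rw [h] at this
  simp at this

theorem kw_f_ne (hK : IsK H f r U) {z : C2} (hz : z ∈ U) : f z ≠ 0 := by
  intro h
  have h1 := (kw_det_pos hK hz).1
  have h2 := hK.norm z hz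
  rw [h] at h2
  simp at h2
  linarith

theorem kw_norm (hK : IsK H f r U) {z : C2} (hz : z ∈ U) :
    (H z).det = (r : ℂ) ^ 2 * (f z * conj (f z)) := by
  have h2 := hK.norm z hz
  apply Complex.ext
  · rw [← h2, Complex.mul_conj, Complex.normSq_eq_norm_sq]
    norm_cast
  · rw [(kw_det_pos hK hz).2, Complex.mul_conj]
    norm_cast

theorem kw_diff (hK : IsK H f r U) {z : C2} (hz : z ∈ U) (i j : Fin 2) :
    DifferentiableAt ℝ (fun y => H y i j) z :=
  ((hK.smooth i j).differentiableOn (by simp)).differentiableAt (hK.isOpen.mem_nhds hz)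

theorem kw_holo (hK : IsK H f r U) {z : C2} (hz : z ∈ U) : DifferentiableAt ℂ f z :=
  (hK.holo.differentiableOn (by simp)).differentiableAt (hK.isOpen.mem_nhds hz)

theorem kw_diff_f (hK : IsK H f r U) {z : C2} (hz : z ∈ U) : DifferentiableAt ℝ f z :=
  (kw_holo hK hz).restrictScalars ℝ

theorem kw_herm_dz (hK : IsK H f r U) {z : C2} (hz : z ∈ U) (k i j : Fin 2) :
    conj (dz k (fun y => H y i j) z) = dzbar k (fun y => H y j i) z := by
  have e : (fun y => H y j i) =ᶠ[𝓝 z] fun y => conj (H y i j) := by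
    filter_upwards [hK.isOpen.mem_nhds hz] with y hy
    exact (kw_herm hK hy i j).symm
  rw [kw_dzbar_congr e, kw_dzbar_conj]

theorem kw_herm_dzbar (hK : IsK H f r U) {z : C2} (hz : z ∈ U) (k i j : Fin 2) :
    conj (dzbar k (fun y => H y i j) z) = dz k (fun y => H y j i) z := by
  have e : (fun y => H y j i) =ᶠ[𝓝 z] fun y => conj (H y i j) := by
    filter_upwards [hK.isOpen.mem_nhds hz] with y hy
    exact (kw_herm hK hy i j).symm
  rw [kw_dz_congr e, kw_dz_conj]

end Pool.Agent.Lib.MP_6c284f_gt
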