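import Pool.Agent.Lib.MP_6c284f_gt.Kahler
import Pool.Agent.Lib.MP_6c284f_gt.Wirt

set_option autoImplicit false
set_option maxSynthPendingDepth 5

/-!
The endomorphisms `kI` are parallel.
-/

namespace Pool.Agent.Lib.MP_6c284f_gt

open scoped Manifold ContDiff Topology ComplexConjugate Matrix
open Set

variable {H : C2 → Matrix (Fin 2) (Fin 2) ℂ} {f : C2 → ℂ} {r : ℝ} {U : Set C2}

/-- the trace of the connection is the logarithmic derivative of the holomorphic two-form -/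
theorem k_trace (hK : IsK H f r U) {z : C2} (hz : z ∈ U) (i : Fin 2) :
    f z * ∑ k, chris H i k k z = dz i f z := by
  have hdet : (fun y => H y 0 0 * H y 1 1 - H y 0 1 * H y 1 0) =ᶠ[𝓝 z]
      fun y => (r : ℂ) ^ 2 * (f y * conj (f y)) := by
    filter_upwards [hK.isOpen.mem_nhds hz] with y hy
    rw [← kw_norm hK hy, Matrix.det_fin_two]
  have h1 := kw_dz_congr hdet i
  have d00 := kw_diff hK hz 0 0
  have d01 := kw_diff hK hz 0 1
  have d10 := kw_diff hK hz 1 0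
  have d11 := kw_diff hK hz 1 1
  have df := kw_diff_f hK hz
  have dfc : DifferentiableAt ℝ (fun y => conj (f y)) z :=
    (Complex.conjCLE : ℂ ≃L[ℝ] ℂ).differentiableAt.comp z df
  rw [kw_dz_sub (d00.fun_mul d11) (d01.fun_mul d10), kw_dz_mul d00 d11, kw_dz_mul d01 d10,
    kw_dz_const_mul _ (df.fun_mul dfc), kw_dz_mul df dfc, kw_dz_conj,
    kw_dzbar_holo (kw_holo hK hz)] at h1
  have hD := kw_det_ne hK hz
  have hN := kw_norm hK hz
  have hf := kw_f_ne hK hz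
  have hr : (r : ℂ) ≠ 0 := by exact_mod_cast hK.rpos.ne'
  have hfc : conj (f z) ≠ 0 := by simpa using hf
  simp only [chris, Fin.sum_univ_two, kw_inv00, kw_inv01, kw_inv10, kw_inv11]
  have h2 : (H z).det * dz i f z = f z * ((r : ℂ) ^ 2 * conj (f z) * dz i f z) := by
    rw [hN]; ring
  have h3 : (H z).det ≠ 0 := hD
  field_simp
  simp only [map_zero, mul_zero, add_zero] at h1
  linear_combination f z * h1 - h2

theorem kd_inv_diff (hK : IsK H f r U) {z : C2} (hz : z ∈ U) (a b : Fin 2) :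
    DifferentiableAt ℝ (fun y => (H y)⁻¹ a b) z := by
  have d00 := kw_diff hK hz 0 0
  have d01 := kw_diff hK hz 0 1
  have d10 := kw_diff hK hz 1 0
  have d11 := kw_diff hK hz 1 1
  have hd : DifferentiableAt ℝ (fun y => (H y).det) z := by
    have e : (fun y => (H y).det) = fun y => H y 0 0 * H y 1 1 - H y 0 1 * H y 1 0 := by
      funext y; rw [Matrix.det_fin_two]
    rw [e]
    exact (d00.fun_mul d11).fun_sub (d01.fun_mul d10)
  have hne := kw_det_ne hK hz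
  have hi : DifferentiableAt ℝ (fun y => ((H y).det)⁻¹) z :=
    ((differentiableAt_inv (𝕜 := ℂ) hne).restrictScalars ℝ).comp z hd
  fin_cases a <;> fin_cases b
  · simp only [Fin.zero_eta, kw_inv00, div_eq_mul_inv]
    exact d11.fun_mul hi
  · simp only [Fin.zero_eta, Fin.mk_one, kw_inv01, div_eq_mul_inv]
    exact d01.fun_neg.fun_mul hi
  · simp only [Fin.zero_eta, Fin.mk_one, kw_inv10, div_eq_mul_inv]
    exact d10.fun_neg.fun_mul hi
  · simp only [Fin.mk_one, kw_inv11, div_eq_mul_inv]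
    exact d00.fun_mul hi

theorem kd_inv_mul (hK : IsK H f r U) {z : C2} (hz : z ∈ U) (a b : Fin 2) :
    (H z)⁻¹ a 0 * H z 0 b + (H z)⁻¹ a 1 * H z 1 b = if a = b then 1 else 0 := by
  have h : (H z)⁻¹ * H z = 1 := Matrix.nonsing_inv_mul _ (kw_det_ne hK hz).isUnit
  have := congrFun (congrFun h a) b
  rw [Matrix.mul_apply, Fin.sum_univ_two, Matrix.one_apply] at this
  exact this

theorem kd_mul_inv (hK : IsK H f r U) {z : C2} (hz : z ∈ U) (a b : Fin 2) :
    H z a 0 * (H z)⁻¹ 0 b + H z a 1 * (H z)⁻¹ 1 b = if a = b then 1 else 0 := by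
  have h : H z * (H z)⁻¹ = 1 := Matrix.mul_nonsing_inv _ (kw_det_ne hK hz).isUnit
  have := congrFun (congrFun h a) b
  rw [Matrix.mul_apply, Fin.sum_univ_two, Matrix.one_apply] at this
  exact this

theorem kd_inv_herm (hK : IsK H f r U) {z : C2} (hz : z ∈ U) (a b : Fin 2) :
    conj ((H z)⁻¹ a b) = (H z)⁻¹ b a := (hK.herm z hz).inv.apply b a

theorem kd_inv_dz (hK : IsK H f r U) {z : C2} (hz : z ∈ U) (k a b : Fin 2) :
    dz k (fun y => (H y)⁻¹ a b) z = -∑ c, ∑ d, (H z)⁻¹ a c * dz k (fun y => H y c d) z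
      * (H z)⁻¹ d b := by
  have key : ∀ b', dz k (fun y => (H y)⁻¹ a 0) z * H z 0 b' +
      (H z)⁻¹ a 0 * dz k (fun y => H y 0 b') z +
      (dz k (fun y => (H y)⁻¹ a 1) z * H z 1 b' +
      (H z)⁻¹ a 1 * dz k (fun y => H y 1 b') z) = 0 := by
    intro b'
    have e : (fun y => (H y)⁻¹ a 0 * H y 0 b' + (H y)⁻¹ a 1 * H y 1 b') =ᶠ[𝓝 z]
        fun _ => if a = b' then 1 else 0 := by
      filter_upwards [hK.isOpen.mem_nhds hz] with y hy
      exact kd_inv_mul hK hy a b'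
    have h := kw_dz_congr e k
    rw [kw_dz_add ((kd_inv_diff hK hz a 0).fun_mul (kw_diff hK hz 0 b'))
      ((kd_inv_diff hK hz a 1).fun_mul (kw_diff hK hz 1 b')),
      kw_dz_mul (kd_inv_diff hK hz a 0) (kw_diff hK hz 0 b'),
      kw_dz_mul (kd_inv_diff hK hz a 1) (kw_diff hK hz 1 b')] at h
    rw [h]
    simp [dz]
  have h0 := key 0
  have h1 := key 1
  have e0 := kd_mul_inv hK hz 0 b
  have e1 := kd_mul_inv hK hz 1 b
  simp only [Fin.sum_univ_two]
  fin_cases b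
  · simp at e0 e1 ⊢
    linear_combination (H z)⁻¹ 0 0 * h0 + (H z)⁻¹ 1 0 * h1
      - dz k (fun y => (H y)⁻¹ a 0) z * e0 - dz k (fun y => (H y)⁻¹ a 1) z * e1
  · simp at e0 e1 ⊢
    linear_combination (H z)⁻¹ 0 1 * h0 + (H z)⁻¹ 1 1 * h1
      - dz k (fun y => (H y)⁻¹ a 0) z * e0 - dz k (fun y => (H y)⁻¹ a 1) z * e1

theorem kd_inv_dzbar (hK : IsK H f r U) {z : C2} (hz : z ∈ U) (k a b : Fin 2) :
    dzbar k (fun y => (H y)⁻¹ a b) z = -∑ c, ∑ d, (H z)⁻¹ a c * dzbar k (fun y => H y c d) z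
      * (H z)⁻¹ d b := by
  have e : (fun y => (H y)⁻¹ a b) =ᶠ[𝓝 z] fun y => conj ((H y)⁻¹ b a) := by
    filter_upwards [hK.isOpen.mem_nhds hz] with y hy
    exact (kd_inv_herm hK hy b a).symm
  rw [kw_dzbar_congr e, kw_dzbar_conj, kd_inv_dz hK hz]
  simp only [Fin.sum_univ_two, map_neg, map_add, map_mul, kd_inv_herm hK hz, kw_herm_dz hK hz]
  ring

theorem kd_eval {F : C2 → C2 →L[ℝ] C2} {z : C2} (hF : DifferentiableAt ℝ F z) (u v : C2)
    (k : Fin 2) : fderiv ℝ F z u v k = fderiv ℝ (fun y => F y v k) z u := by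
  have h1 : HasFDerivAt (fun y => F y v k)
      (((ContinuousLinearMap.proj (R := ℝ) k : C2 →L[ℝ] ℂ) ∘L
        (ContinuousLinearMap.apply ℝ C2 v)) ∘L fderiv ℝ F z) z :=
    ((((ContinuousLinearMap.proj (R := ℝ) k : C2 →L[ℝ] ℂ) ∘L
        (ContinuousLinearMap.apply ℝ C2 v))).hasFDerivAt (x := F z)).comp z hF.hasFDerivAt
  rw [h1.fderiv]
  rfl

theorem kd_conj_diff (hK : IsK H f r U) {z : C2} (hz : z ∈ U) :
    DifferentiableAt ℝ (fun y => conj (f y)) z :=
  (Complex.conjCLE : ℂ ≃L[ℝ] ℂ).differentiableAt.comp z (kw_diff_f hK hz)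

theorem kd_J_diff (hK : IsK H f r U) {z : C2} (hz : z ∈ U) :
    DifferentiableAt ℝ (kJ H f r) z := by
  unfold kJ
  apply DifferentiableAt.fun_sum
  intro k _
  have h1 : ∀ a : Fin 2, DifferentiableAt ℝ (fun y => (r : ℂ) * conj (f y) * (H y)⁻¹ a k) z :=
    fun a => ((kd_conj_diff hK hz).const_mul (r : ℂ)).fun_mul (kd_inv_diff hK hz a k)
  have h2 : DifferentiableAt ℝ (fun y => ((r : ℂ) * conj (f y) * (H y)⁻¹ 0 k) •
        ((Complex.conjCLE : ℂ →L[ℝ] ℂ) ∘L (ContinuousLinearMap.proj 1 : C2 →L[ℝ] ℂ))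
      - ((r : ℂ) * conj (f y) * (H y)⁻¹ 1 k) •
        ((Complex.conjCLE : ℂ →L[ℝ] ℂ) ∘L (ContinuousLinearMap.proj 0 : C2 →L[ℝ] ℂ))) z :=
    ((h1 0).smul_const _).fun_sub ((h1 1).smul_const _)
  exact (differentiableAt_const _).clm_comp h2

theorem kd_par2 (hK : IsK H f r U) {z : C2} (hz : z ∈ U) (u v : C2) :
    fderiv ℝ (kJ H f r) z u v + kΓ H z u (kJ H f r z v)
      = kJ H f r z (kΓ H z u v) := by
  funext k
  rw [Pi.add_apply, kd_eval (kd_J_diff hK hz)]
  simp only [kJ_apply]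
  have hf := kd_conj_diff hK hz
  have i0 := kd_inv_diff hK hz 0 k
  have i1 := kd_inv_diff hK hz 1 k
  have e : (fun y => (r : ℂ) * conj (f y) *
      ((H y)⁻¹ 0 k * conj (v 1) - (H y)⁻¹ 1 k * conj (v 0))) =
      fun y => (r : ℂ) * (conj (f y) * (conj (v 1) * (H y)⁻¹ 0 k - conj (v 0) * (H y)⁻¹ 1 k)) := by
    funext y; ring
  rw [e, kw_fderiv]
  have t1 : DifferentiableAt ℝ
      (fun y => conj (v 1) * (H y)⁻¹ 0 k - conj (v 0) * (H y)⁻¹ 1 k) z :=
    (i0.const_mul _).fun_sub (i1.const_mul _)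
  have hz' : ∀ i, dz i (fun y => (r : ℂ) * (conj (f y) *
      (conj (v 1) * (H y)⁻¹ 0 k - conj (v 0) * (H y)⁻¹ 1 k))) z =
      (r : ℂ) * (conj (f z) * (conj (v 1) * dz i (fun y => (H y)⁻¹ 0 k) z
        - conj (v 0) * dz i (fun y => (H y)⁻¹ 1 k) z)) := by
    intro i
    rw [kw_dz_const_mul _ (hf.fun_mul t1), kw_dz_mul hf t1, kw_dz_conj,
      kw_dzbar_holo (kw_holo hK hz), kw_dz_sub (i0.const_mul _) (i1.const_mul _),
      kw_dz_const_mul _ i0, kw_dz_const_mul _ i1]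
    simp
  have hzb : ∀ i, dzbar i (fun y => (r : ℂ) * (conj (f y) *
      (conj (v 1) * (H y)⁻¹ 0 k - conj (v 0) * (H y)⁻¹ 1 k))) z =
      (r : ℂ) * (conj (dz i f z) * (conj (v 1) * (H z)⁻¹ 0 k - conj (v 0) * (H z)⁻¹ 1 k) +
        conj (f z) * (conj (v 1) * dzbar i (fun y => (H y)⁻¹ 0 k) z
        - conj (v 0) * dzbar i (fun y => (H y)⁻¹ 1 k) z)) := by
    intro i
    rw [kw_dzbar_const_mul _ (hf.fun_mul t1), kw_dzbar_mul hf t1, kw_dzbar_conj,
      kw_dzbar_sub (i0.const_mul _) (i1.const_mul _),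
      kw_dzbar_const_mul _ i0, kw_dzbar_const_mul _ i1]
  simp only [hz', hzb, ← k_trace hK hz, kd_inv_dz hK hz, kd_inv_dzbar hK hz, kΓ_apply, kJ_apply,
    chris, Fin.sum_univ_two, map_add, map_mul, kd_inv_herm hK hz, kw_herm_dz hK hz]
  ring

theorem k_par (hK : IsK H f r U) (a : Fin 4) {z : C2} (hz : z ∈ U) (u v : C2) :
    fderiv ℝ (kI H f r a) z u v + kΓ H z u (kI H f r a z v)
      = kI H f r a z (kΓ H z u v) := by
  have hlin : ∀ w : C2, kΓ H z u (Complex.I • w) = Complex.I • kΓ H z u w := by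
    intro w
    funext k
    rw [Pi.smul_apply, kΓ_apply, kΓ_apply]
    simp only [Fin.sum_univ_two, Pi.smul_apply, smul_eq_mul]
    ring
  fin_cases a
  · have e : fderiv ℝ (kI H f r 0) z = 0 := by
      have : kI H f r 0 = fun _ => ContinuousLinearMap.id ℝ C2 := rfl
      rw [this]; exact fderiv_const_apply _
    change fderiv ℝ (kI H f r 0) z u v + kΓ H z u v = kΓ H z u v
    rw [e]; simp
  · have e : fderiv ℝ (kI H f r 1) z = 0 := by
      have : kI H f r 1 = fun _ => Complex.I • ContinuousLinearMap.id ℝ C2 := rfl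
      rw [this]; exact fderiv_const_apply _
    change fderiv ℝ (kI H f r 1) z u v + kΓ H z u (Complex.I • v) = Complex.I • kΓ H z u v
    rw [e, hlin]; simp
  · exact kd_par2 hK hz u v
  · have e : fderiv ℝ (kI H f r 3) z = Complex.I • fderiv ℝ (kJ H f r) z := by
      have : kI H f r 3 = fun z => Complex.I • kJ H f r z := rfl
      rw [this]; exact fderiv_const_smul (kd_J_diff hK hz) Complex.I
    change fderiv ℝ (kI H f r 3) z u v + kΓ H z u (Complex.I • kJ H f r z v)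
      = Complex.I • kJ H f r z (kΓ H z u v)
    rw [e, hlin, ← kd_par2 hK hz u v, smul_add]
    rfl

end Pool.Agent.Lib.MP_6c284f_gt
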