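import Pool.Agent.Lib.MP_6c284f_gt.KahlerA
import Pool.Agent.Lib.MP_6c284f_gt.KahlerB
import Pool.Agent.Lib.MP_6c284f_gt.KahlerC
import Pool.Agent.Lib.MP_6c284f_gt.KahlerD

set_option autoImplicit false
set_option maxSynthPendingDepth 5

/-!
The local data of a Ricci-flat Kähler metric are hyperkähler.
-/

namespace Pool.Agent.Lib.MP_6c284f_gt

open scoped Manifold ContDiff Topology ComplexConjugate Matrix
open Set

variable {H : C2 → Matrix (Fin 2) (Fin 2) ℂ} {f : C2 → ℂ} {r : ℝ} {U : Set C2}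

theorem isHK_kData (hK : IsK H f r U) : IsHK (kData H f r) U where
  isOpen := hK.isOpen
  smoothG := k_smoothG hK
  smoothΓ := k_smoothΓ hK
  smoothI := k_smoothI hK
  symm _ hz u v := k_symm hK hz u v
  pos _ hz _ hv := k_pos hK hz hv
  tors _ hz u v := k_tors hK hz u v
  compat _ hz u v w := k_compat hK hz u v w
  I0 z _ v := k_I0 (H := H) (f := f) (r := r) z v
  I11 z _ v := k_I11 (H := H) (f := f) (r := r) z v
  I22 _ hz v := k_I22 hK hz v
  I12 z _ v := k_I12 (H := H) (f := f) (r := r) z v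
  I21 z _ v := k_I21 (H := H) (f := f) (r := r) z v
  orth a _ hz u v := k_orth hK a hz u v
  par a _ hz u v := k_par hK a hz u v

end Pool.Agent.Lib.MP_6c284f_gt
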