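import Pool.Agent.Lib.MP_6c284f_gt.KahlerE

set_option autoImplicit false
set_option maxSynthPendingDepth 5

/-!
The local data in two holomorphic charts are related by pullback.
-/

namespace Pool.Agent.Lib.MP_6c284f_gt

open scoped Manifold ContDiff Topology ComplexConjugate Matrix
open Set

section AuxKF

/-- decomposition of a vector -/
private theorem kf_vec (w : C2) :
    w = w 0 • (Pi.single 0 1 : C2) + w 1 • (Pi.single 1 1 : C2) := by
  ext k
  fin_cases k <;> simp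

private theorem kf_rvec (w : C2) :
    w = (w 0).re • (Pi.single 0 1 : C2) + (w 0).im • (Pi.single 0 Complex.I : C2)
      + (w 1).re • (Pi.single 1 1 : C2) + (w 1).im • (Pi.single 1 Complex.I : C2) := by
  ext k
  fin_cases k <;> simp

/-- a complex linear map in coordinates -/
private theorem kf_clin {E : Type} [NormedAddCommGroup E] [NormedSpace ℂ E] (L : C2 →L[ℂ] E)
    (w : C2) : L w = w 0 • L (Pi.single 0 1) + w 1 • L (Pi.single 1 1) := by
  conv_lhs => rw [kf_vec w]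
  rw [map_add, map_smul, map_smul]

private theorem kf_rlin (L : C2 →L[ℝ] ℂ) (w : C2) :
    L w = (w 0).re * L (Pi.single 0 1) + (w 0).im * L (Pi.single 0 Complex.I)
      + (w 1).re * L (Pi.single 1 1) + (w 1).im * L (Pi.single 1 Complex.I) := by
  conv_lhs => rw [kf_rvec w]
  rw [map_add, map_add, map_add, map_smul, map_smul, map_smul, map_smul]
  simp only [Complex.real_smul]

/-- the complex linear part of a real linear map -/
private theorem kf_wirt (L : C2 →L[ℝ] ℂ) (w : C2) :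
    (L w - Complex.I * L (Complex.I • w)) / 2 =
      w 0 * ((L (Pi.single 0 1) - Complex.I * L (Pi.single 0 Complex.I)) / 2)
      + w 1 * ((L (Pi.single 1 1) - Complex.I * L (Pi.single 1 Complex.I)) / 2) := by
  rw [kf_rlin L w, kf_rlin L (Complex.I • w)]
  have h0 := Complex.re_add_im (w 0)
  have h1 := Complex.re_add_im (w 1)
  have hI : Complex.I * Complex.I = -1 := Complex.I_mul_I
  conv_rhs => rw [← h0, ← h1]
  simp only [Pi.smul_apply, smul_eq_mul, Complex.mul_re, Complex.mul_im, Complex.I_re,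
    Complex.I_im, zero_mul, one_mul, zero_sub, zero_add, Complex.ofReal_neg]
  linear_combination (((w 0).im : ℂ) / 2 * L (Pi.single 0 Complex.I)
    + ((w 1).im : ℂ) / 2 * L (Pi.single 1 Complex.I)) * hI

variable {F G g : C2 → ℂ} {z : C2} {τ : C2 → C2} (i : Fin 2)

private theorem kf_single (i : Fin 2) :
    (Pi.single i Complex.I : C2) = Complex.I • (Pi.single i 1 : C2) := by
  ext k
  fin_cases i <;> fin_cases k <;> simp

private theorem kf_dz_congr (h : F =ᶠ[𝓝 z] G) : dz i F z = dz i G z := by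
  unfold dz
  rw [h.fderiv_eq]

private theorem kf_dz_add (hF : DifferentiableAt ℝ F z) (hG : DifferentiableAt ℝ G z) :
    dz i (fun y => F y + G y) z = dz i F z + dz i G z := by
  unfold dz
  rw [fderiv_fun_add hF hG]
  simp only [add_apply]
  ring

private theorem kf_dz_mul (hF : DifferentiableAt ℝ F z) (hG : DifferentiableAt ℝ G z) :
    dz i (fun y => F y * G y) z = F z * dz i G z + dz i F z * G z := by
  unfold dz
  rw [fderiv_fun_mul hF hG]
  simp only [add_apply, smul_apply, smul_eq_mul]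
  ring

private theorem kf_dz_holo (hF : DifferentiableAt ℂ F z) :
    dz i F z = fderiv ℂ F z (Pi.single i 1) := by
  unfold dz
  rw [hF.fderiv_restrictScalars ℝ]
  simp only [ContinuousLinearMap.coe_restrictScalars']
  rw [kf_single, map_smul, smul_eq_mul]
  have hI : Complex.I * Complex.I = -1 := Complex.I_mul_I
  linear_combination (-(fderiv ℂ F z (Pi.single i 1)) / 2) * hI

private theorem kf_dz_conj (hF : DifferentiableAt ℂ F z) :
    dz i (fun y => conj (F y)) z = 0 := by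
  have h1 : HasFDerivAt F ((fderiv ℂ F z).restrictScalars ℝ) z :=
    hF.hasFDerivAt.restrictScalars ℝ
  have h2 : HasFDerivAt (fun y => conj (F y))
      ((Complex.conjCLE : ℂ →L[ℝ] ℂ) ∘L ((fderiv ℂ F z).restrictScalars ℝ)) z :=
    ((Complex.conjCLE : ℂ →L[ℝ] ℂ).hasFDerivAt).comp z h1
  unfold dz
  rw [h2.fderiv]
  simp only [ContinuousLinearMap.comp_apply, ContinuousLinearMap.coe_restrictScalars']
  rw [kf_single, map_smul, smul_eq_mul]
  have hI : Complex.I * Complex.I = -1 := Complex.I_mul_I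
  simp only [ContinuousLinearEquiv.coe_coe, Complex.conjCLE_apply, map_mul, Complex.conj_I]
  linear_combination (conj (fderiv ℂ F z (Pi.single i 1)) / 2) * hI

private theorem kf_dz_comp (hg : DifferentiableAt ℝ g (τ z)) (hτ : DifferentiableAt ℂ τ z) :
    dz i (fun y => g (τ y)) z = fderiv ℂ τ z (Pi.single i 1) 0 * dz 0 g (τ z)
      + fderiv ℂ τ z (Pi.single i 1) 1 * dz 1 g (τ z) := by
  have h1 : HasFDerivAt τ ((fderiv ℂ τ z).restrictScalars ℝ) z := hτ.hasFDerivAt.restrictScalars ℝ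
  have h2 : HasFDerivAt (fun y => g (τ y))
      ((fderiv ℝ g (τ z)) ∘L ((fderiv ℂ τ z).restrictScalars ℝ)) z :=
    hg.hasFDerivAt.comp z h1
  unfold dz
  rw [h2.fderiv]
  simp only [ContinuousLinearMap.comp_apply, ContinuousLinearMap.coe_restrictScalars']
  rw [kf_single, map_smul, kf_wirt]

end AuxKF

variable {H H' : C2 → Matrix (Fin 2) (Fin 2) ℂ} {f f' : C2 → ℂ} {r : ℝ} {U U' : Set C2}

/-- the holomorphic Jacobian matrix of a map -/
noncomputable def jm (τ : C2 → C2) (z : C2) : Matrix (Fin 2) (Fin 2) ℂ :=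
  fun k i => fderiv ℂ τ z (Pi.single i 1) k

/-- the derivative in coordinates -/
private theorem kf_jm {τ : C2 → C2} {z : C2} (v : C2) (k : Fin 2) :
    fderiv ℂ τ z v k = jm τ z k 0 * v 0 + jm τ z k 1 * v 1 := by
  rw [kf_clin (fderiv ℂ τ z) v]
  simp only [Pi.add_apply, Pi.smul_apply, smul_eq_mul, jm]
  ring

/-- the matrix identity behind the transformation laws -/
private theorem kf_inv {A B J : Matrix (Fin 2) (Fin 2) ℂ} (hA : A = Jᵀ * B * J.map conj)
    (hd : A.det ≠ 0) : J.map conj * (A⁻¹ * Jᵀ) = B⁻¹ := by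
  have h1 : A.det = Jᵀ.det * B.det * (J.map conj).det := by rw [hA, Matrix.det_mul, Matrix.det_mul]
  have hJ : Jᵀ.det ≠ 0 := fun h => hd (by rw [h1, h, zero_mul, zero_mul])
  have hB : B.det ≠ 0 := fun h => hd (by rw [h1, h, mul_zero, zero_mul])
  have hK : (J.map conj).det ≠ 0 := fun h => hd (by rw [h1, h, mul_zero])
  have uJ : IsUnit Jᵀ.det := isUnit_iff_ne_zero.2 hJ
  have uB : IsUnit B.det := isUnit_iff_ne_zero.2 hB
  have uK : IsUnit (J.map conj).det := isUnit_iff_ne_zero.2 hK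
  have h2 : A⁻¹ = (J.map conj)⁻¹ * (B⁻¹ * (Jᵀ)⁻¹) := by
    rw [hA, Matrix.mul_inv_rev, Matrix.mul_inv_rev]
  rw [h2, Matrix.mul_assoc, Matrix.mul_assoc, Matrix.nonsing_inv_mul _ uJ, Matrix.mul_one,
    ← Matrix.mul_assoc, Matrix.mul_nonsing_inv _ uK, Matrix.one_mul]

/-- the second derivative of a holomorphic map -/
private theorem kf_second {τ : C2 → C2} {z : C2} (hτz : ContDiffAt ℂ ω τ z) (u v : C2) :
    fderiv ℝ (fderiv ℝ τ) z u v = fderiv ℂ (fderiv ℂ τ) z u v := by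
  have h1 : ∀ᶠ y in 𝓝 z, DifferentiableAt ℂ τ y := by
    have h2 : ContDiffAt ℂ 1 τ z := hτz.of_le (by simp)
    filter_upwards [h2.eventually (by simp)] with y hy
    exact hy.differentiableAt (by simp)
  have h3 : fderiv ℝ τ =ᶠ[𝓝 z]
      fun y => ContinuousLinearMap.restrictScalarsL ℂ C2 C2 ℝ ℝ (fderiv ℂ τ y) := by
    filter_upwards [h1] with y hy
    exact hy.fderiv_restrictScalars ℝ
  have h4 : DifferentiableAt ℂ (fderiv ℂ τ) z := by
    have h5 : ContDiffAt ℂ 1 (fderiv ℂ τ) z := hτz.fderiv_right (by simp)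
    exact h5.differentiableAt (by simp)
  have h6 : HasFDerivAt (fun y => ContinuousLinearMap.restrictScalarsL ℂ C2 C2 ℝ ℝ (fderiv ℂ τ y))
      ((ContinuousLinearMap.restrictScalarsL ℂ C2 C2 ℝ ℝ) ∘L
        ((fderiv ℂ (fderiv ℂ τ) z).restrictScalars ℝ)) z :=
    (ContinuousLinearMap.restrictScalarsL ℂ C2 C2 ℝ ℝ).hasFDerivAt.comp z
      (h4.hasFDerivAt.restrictScalars ℝ)
  rw [h3.fderiv_eq, h6.fderiv]
  rfl

/-- the derivative of an entry of the Jacobian matrix -/
private theorem kf_djm {τ : C2 → C2} {z : C2} (hτz : ContDiffAt ℂ ω τ z) (a j : Fin 2) :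
    HasFDerivAt (fun y => jm τ y a j)
      ((ContinuousLinearMap.proj a : C2 →L[ℂ] ℂ) ∘L
        ((ContinuousLinearMap.apply ℂ C2 (Pi.single j 1 : C2)) ∘L (fderiv ℂ (fderiv ℂ τ) z))) z := by
  have h4 : DifferentiableAt ℂ (fderiv ℂ τ) z := by
    have h5 : ContDiffAt ℂ 1 (fderiv ℂ τ) z := hτz.fderiv_right (by simp)
    exact h5.differentiableAt (by simp)
  have h5 : HasFDerivAt (fun y => fderiv ℂ τ y (Pi.single j 1))
      ((ContinuousLinearMap.apply ℂ C2 (Pi.single j 1 : C2)) ∘L (fderiv ℂ (fderiv ℂ τ) z)) z :=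
    (ContinuousLinearMap.apply ℂ C2 (Pi.single j 1 : C2)).hasFDerivAt.comp z h4.hasFDerivAt
  exact (ContinuousLinearMap.proj a : C2 →L[ℂ] ℂ).hasFDerivAt.comp z h5

/-- the Wirtinger derivative of one term of the transformed matrix -/
private theorem kf_term {τ : C2 → C2} {z : C2} (hτz : ContDiffAt ℂ ω τ z)
    {g : C2 → ℂ} (hg : DifferentiableAt ℝ g (τ z)) (i j l a b : Fin 2) :
    DifferentiableAt ℝ (fun y => jm τ y a j * g (τ y) * conj (jm τ y b l)) z ∧
    dz i (fun y => jm τ y a j * g (τ y) * conj (jm τ y b l)) z =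
      (jm τ z a j * (jm τ z 0 i * dz 0 g (τ z) + jm τ z 1 i * dz 1 g (τ z))
        + fderiv ℂ (fderiv ℂ τ) z (Pi.single i 1) (Pi.single j 1) a * g (τ z))
        * conj (jm τ z b l) := by
  have hd1 : DifferentiableAt ℂ τ z := hτz.differentiableAt (by simp)
  have hd2 : DifferentiableAt ℝ τ z := hd1.restrictScalars ℝ
  have h1 := (kf_djm hτz a j)
  have h2 := (kf_djm hτz b l)
  have h3 : DifferentiableAt ℝ (fun y => jm τ y a j) z := h1.differentiableAt.restrictScalars ℝ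
  have h4 : DifferentiableAt ℝ (fun y => g (τ y)) z := hg.comp z hd2
  have h5 : DifferentiableAt ℝ (fun y => jm τ y b l) z := h2.differentiableAt.restrictScalars ℝ
  have h6 : DifferentiableAt ℝ (fun y => conj (jm τ y b l)) z :=
    ((Complex.conjCLE : ℂ →L[ℝ] ℂ).differentiableAt).comp z h5
  have h7 : DifferentiableAt ℝ (fun y => jm τ y a j * g (τ y)) z := h3.mul h4
  refine ⟨h7.mul h6, ?_⟩
  rw [kf_dz_mul i h7 h6, kf_dz_mul i h3 h4, kf_dz_conj i h2.differentiableAt,
    kf_dz_holo i h1.differentiableAt, h1.fderiv, kf_dz_comp i hg hd1]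
  simp only [ContinuousLinearMap.comp_apply, ContinuousLinearMap.proj_apply,
    ContinuousLinearMap.apply_apply, jm]
  ring

theorem k_rel (hK : IsK H f r U) (hK' : IsK H' f' r U') {τ : C2 → C2} {W : Set C2}
    (hW : IsOpen W) (hWU : W ⊆ U) (hτ : ContDiffOn ℂ ω τ W) (hmaps : MapsTo τ W U')
    (hH : ∀ z ∈ W, H z = (jm τ z)ᵀ * H' (τ z) * (jm τ z).map conj)
    (hf : ∀ z ∈ W, f z = f' (τ z) * (jm τ z).det) {z : C2} (hz : z ∈ W) :
    HKRel (kData H f r) (kData H' f' r) τ z := by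
  have hzW : W ∈ 𝓝 z := hW.mem_nhds hz
  have hτz : ContDiffAt ℂ ω τ z := hτ.contDiffAt hzW
  have hd1 : DifferentiableAt ℂ τ z := hτz.differentiableAt (by simp)
  have hR : fderiv ℝ τ z = (fderiv ℂ τ z).restrictScalars ℝ := hd1.fderiv_restrictScalars ℝ
  have hdet : (H z).det ≠ 0 := by
    intro h
    have := (k_det_pos hK (hWU hz)).1
    rw [h] at this
    simp at this
  have hN := kf_inv (hH z hz) hdet
  set J := jm τ z with hJ
  set N := (H z)⁻¹ * Jᵀ with hNd
  have hN0 : ∀ b m, (H' (τ z))⁻¹ b m = conj (J b 0) * N 0 m + conj (J b 1) * N 1 m := by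
    intro b m
    rw [← hN, Matrix.mul_apply, Fin.sum_univ_two, Matrix.map_apply, Matrix.map_apply]
  have hN1 : ∀ l m, N l m = J m 0 * (H z)⁻¹ l 0 + J m 1 * (H z)⁻¹ l 1 := by
    intro l m
    rw [hNd, Matrix.mul_apply, Fin.sum_univ_two, Matrix.transpose_apply, Matrix.transpose_apply]
    ring
  have hv : ∀ v k, fderiv ℝ τ z v k = J k 0 * v 0 + J k 1 * v 1 := by
    intro v k
    rw [hR]
    exact kf_jm v k
  have hHz := hH z hz
  refine ⟨fun u v => ?_, fun u v => ?_, fun a v => ?_⟩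
  · show kG H z u v = kG H' (τ z) (fderiv ℝ τ z u) (fderiv ℝ τ z v)
    rw [kG_apply, kG_apply, hHz]
    congr 1
    simp only [Fin.sum_univ_two, Matrix.mul_apply, Matrix.transpose_apply, Matrix.map_apply, hv,
      map_add, map_mul]
    ring
  · show fderiv ℝ τ z (kΓ H z u v) =
      kΓ H' (τ z) (fderiv ℝ τ z u) (fderiv ℝ τ z v) + fderiv ℝ (fderiv ℝ τ) z u v
    have hg : ∀ a b, DifferentiableAt ℝ (fun y => H' y a b) (τ z) := fun a b =>
      ((hK'.smooth a b).contDiffAt (hK'.isOpen.mem_nhds (hmaps hz))).differentiableAt (by simp)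
    have hE : ∀ i j l, dz i (fun y => H y j l) z =
        ((J 0 j * (J 0 i * dz 0 (fun y => H' y 0 0) (τ z) + J 1 i * dz 1 (fun y => H' y 0 0) (τ z))
          + fderiv ℂ (fderiv ℂ τ) z (Pi.single i 1) (Pi.single j 1) 0 * H' (τ z) 0 0)
          * conj (J 0 l)
        + (J 1 j * (J 0 i * dz 0 (fun y => H' y 1 0) (τ z) + J 1 i * dz 1 (fun y => H' y 1 0) (τ z))
          + fderiv ℂ (fderiv ℂ τ) z (Pi.single i 1) (Pi.single j 1) 1 * H' (τ z) 1 0)
          * conj (J 0 l))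
        + ((J 0 j * (J 0 i * dz 0 (fun y => H' y 0 1) (τ z) + J 1 i * dz 1 (fun y => H' y 0 1) (τ z))
          + fderiv ℂ (fderiv ℂ τ) z (Pi.single i 1) (Pi.single j 1) 0 * H' (τ z) 0 1)
          * conj (J 1 l)
        + (J 1 j * (J 0 i * dz 0 (fun y => H' y 1 1) (τ z) + J 1 i * dz 1 (fun y => H' y 1 1) (τ z))
          + fderiv ℂ (fderiv ℂ τ) z (Pi.single i 1) (Pi.single j 1) 1 * H' (τ z) 1 1)
          * conj (J 1 l)) := by
      intro i j l
      obtain ⟨d00, e00⟩ := kf_term hτz (hg 0 0) i j l 0 0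
      obtain ⟨d10, e10⟩ := kf_term hτz (hg 1 0) i j l 1 0
      obtain ⟨d01, e01⟩ := kf_term hτz (hg 0 1) i j l 0 1
      obtain ⟨d11, e11⟩ := kf_term hτz (hg 1 1) i j l 1 1
      rw [hJ, ← e00, ← e10, ← e01, ← e11, ← kf_dz_add i d00 d10, ← kf_dz_add i d01 d11,
        ← kf_dz_add i (d00.fun_add d10) (d01.fun_add d11)]
      refine kf_dz_congr i ?_
      filter_upwards [hzW] with y hy
      rw [hH y hy]
      simp only [Fin.sum_univ_two, Matrix.mul_apply, Matrix.transpose_apply, Matrix.map_apply]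
      ring
    have hδ : ∀ a m, H' (τ z) a 0 * (conj (J 0 0) * N 0 m + conj (J 0 1) * N 1 m)
        + H' (τ z) a 1 * (conj (J 1 0) * N 0 m + conj (J 1 1) * N 1 m)
        = (1 : Matrix (Fin 2) (Fin 2) ℂ) a m := by
      intro a m
      have hu : IsUnit (H' (τ z)).det := by
        refine isUnit_iff_ne_zero.2 fun h => ?_
        have := (k_det_pos hK' (hmaps hz)).1
        rw [h] at this
        simp at this
      rw [← hN0, ← hN0, ← Matrix.mul_nonsing_inv _ hu, Matrix.mul_apply, Fin.sum_univ_two]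
    have hT : ∀ m, fderiv ℂ (fderiv ℂ τ) z u v m =
        u 0 * v 0 * fderiv ℂ (fderiv ℂ τ) z (Pi.single 0 1) (Pi.single 0 1) m
        + u 0 * v 1 * fderiv ℂ (fderiv ℂ τ) z (Pi.single 0 1) (Pi.single 1 1) m
        + u 1 * v 0 * fderiv ℂ (fderiv ℂ τ) z (Pi.single 1 1) (Pi.single 0 1) m
        + u 1 * v 1 * fderiv ℂ (fderiv ℂ τ) z (Pi.single 1 1) (Pi.single 1 1) m := by
      intro m
      rw [kf_clin (fderiv ℂ (fderiv ℂ τ) z) u, add_apply, smul_apply,
        smul_apply, kf_clin (fderiv ℂ (fderiv ℂ τ) z (Pi.single 0 1)) v,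
        kf_clin (fderiv ℂ (fderiv ℂ τ) z (Pi.single 1 1)) v]
      simp only [Pi.add_apply, Pi.smul_apply, smul_eq_mul]
      ring
    ext m
    rw [Pi.add_apply, kf_second hτz, hT, hv, kΓ_apply, kΓ_apply, kΓ_apply]
    simp only [Fin.sum_univ_two, chris, hE, hv]
    have hd0 := hδ 0 m
    have hd1 := hδ 1 m
    rw [hN1, hN1] at hd0 hd1
    simp only [hN0, hN1]
    have hm : m = 0 ∨ m = 1 := by fin_cases m <;> simp
    rcases hm with rfl | rfl
    · rw [Matrix.one_apply_eq] at hd0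
      rw [Matrix.one_apply_ne (show (1 : Fin 2) ≠ 0 by decide)] at hd1
      linear_combination (u 0 * v 0 * fderiv ℂ (fderiv ℂ τ) z (Pi.single 0 1) (Pi.single 0 1) 0
        + u 0 * v 1 * fderiv ℂ (fderiv ℂ τ) z (Pi.single 0 1) (Pi.single 1 1) 0
        + u 1 * v 0 * fderiv ℂ (fderiv ℂ τ) z (Pi.single 1 1) (Pi.single 0 1) 0
        + u 1 * v 1 * fderiv ℂ (fderiv ℂ τ) z (Pi.single 1 1) (Pi.single 1 1) 0) * hd0
        + (u 0 * v 0 * fderiv ℂ (fderiv ℂ τ) z (Pi.single 0 1) (Pi.single 0 1) 1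
        + u 0 * v 1 * fderiv ℂ (fderiv ℂ τ) z (Pi.single 0 1) (Pi.single 1 1) 1
        + u 1 * v 0 * fderiv ℂ (fderiv ℂ τ) z (Pi.single 1 1) (Pi.single 0 1) 1
        + u 1 * v 1 * fderiv ℂ (fderiv ℂ τ) z (Pi.single 1 1) (Pi.single 1 1) 1) * hd1
    · rw [Matrix.one_apply_ne (show (0 : Fin 2) ≠ 1 by decide)] at hd0
      rw [Matrix.one_apply_eq] at hd1
      linear_combination (u 0 * v 0 * fderiv ℂ (fderiv ℂ τ) z (Pi.single 0 1) (Pi.single 0 1) 0
        + u 0 * v 1 * fderiv ℂ (fderiv ℂ τ) z (Pi.single 0 1) (Pi.single 1 1) 0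
        + u 1 * v 0 * fderiv ℂ (fderiv ℂ τ) z (Pi.single 1 1) (Pi.single 0 1) 0
        + u 1 * v 1 * fderiv ℂ (fderiv ℂ τ) z (Pi.single 1 1) (Pi.single 1 1) 0) * hd0
        + (u 0 * v 0 * fderiv ℂ (fderiv ℂ τ) z (Pi.single 0 1) (Pi.single 0 1) 1
        + u 0 * v 1 * fderiv ℂ (fderiv ℂ τ) z (Pi.single 0 1) (Pi.single 1 1) 1
        + u 1 * v 0 * fderiv ℂ (fderiv ℂ τ) z (Pi.single 1 1) (Pi.single 0 1) 1
        + u 1 * v 1 * fderiv ℂ (fderiv ℂ τ) z (Pi.single 1 1) (Pi.single 1 1) 1) * hd1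
  · have key : ∀ v, fderiv ℝ τ z (kJ H f r z v) = kJ H' f' r (τ z) (fderiv ℝ τ z v) := by
      intro v
      ext m
      have hfz := hf z hz
      rw [hv, kJ_apply, kJ_apply, kJ_apply, hN0, hN0, hv, hv, hfz, Matrix.det_fin_two]
      simp only [map_mul, map_add, map_sub, hN1]
      ring
    have hI : ∀ w : C2, fderiv ℝ τ z (Complex.I • w) = Complex.I • fderiv ℝ τ z w := by
      intro w
      rw [hR]
      exact map_smul (fderiv ℂ τ z) Complex.I w
    show fderiv ℝ τ z (kI H f r a z v) = kI H' f' r a (τ z) (fderiv ℝ τ z v)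
    fin_cases a
    · rfl
    · exact hI v
    · exact key v
    · show fderiv ℝ τ z (Complex.I • kJ H f r z v) = Complex.I • kJ H' f' r (τ z) (fderiv ℝ τ z v)
      rw [hI, key]

end Pool.Agent.Lib.MP_6c284f_gt
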