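import Pool.Agent.Lib.MP_6c284f_gt.Affine
import Pool.Agent.Lib.MP_6c284f_gt.ManHK

set_option autoImplicit false
set_option maxSynthPendingDepth 5

/-!
A compact simply connected manifold carries no flat hyperkähler structure.
-/

namespace Pool.Agent.Lib.MP_6c284f_gt

open scoped Manifold ContDiff Topology ComplexConjugate Matrix
open Set Filter

/-- A locally constant system of germs of real functions with fibre `F`. -/
structure NoFlatGerm (X F : Type) [TopologicalSpace X] where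
  B : X → Set X
  A : X → F → X → ℝ
  aff : (X → ℝ) → X → Prop
  isOpen_B : ∀ p, IsOpen (B p)
  mem_B : ∀ p, p ∈ B p
  aff_A : ∀ p f, ∀ z ∈ B p, aff (A p f) z
  exists_f : ∀ p, ∀ z ∈ B p, ∀ u, aff u z → ∃ f, A p f =ᶠ[𝓝 z] u
  unique_f : ∀ p, ∀ z ∈ B p, ∀ f f', A p f =ᶠ[𝓝 z] A p f' → f = f'

namespace NoFlatGerm

variable {X F : Type} [TopologicalSpace X] (S : NoFlatGerm X F)

open Classical in
/-- the change of coordinates -/
noncomputable def cc (p q z : X) (f : F) : F :=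
  if h : z ∈ S.B p ∩ S.B q then Classical.choose (S.exists_f q z h.2 (S.A p f) (S.aff_A p f z h.1))
  else f

theorem cc_spec {p q z : X} (h : z ∈ S.B p ∩ S.B q) (f : F) :
    S.A q (S.cc p q z f) =ᶠ[𝓝 z] S.A p f := by
  unfold cc
  rw [dif_pos h]
  exact Classical.choose_spec (S.exists_f q z h.2 (S.A p f) (S.aff_A p f z h.1))

theorem cc_unique {p q z : X} (h : z ∈ S.B p ∩ S.B q) {f f' : F}
    (hf : S.A q f' =ᶠ[𝓝 z] S.A p f) : S.cc p q z f = f' :=
  S.unique_f q z h.2 _ _ ((S.cc_spec h f).trans hf.symm)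

theorem cc_locally_const {p q z : X} (h : z ∈ S.B p ∩ S.B q) (f : F) :
    ∀ᶠ y in 𝓝 z, S.cc p q y f = S.cc p q z f := by
  have h1 := (S.cc_spec h f).eventually_nhds
  have h2 : ∀ᶠ y in 𝓝 z, y ∈ S.B p ∩ S.B q :=
    ((S.isOpen_B p).inter (S.isOpen_B q)).mem_nhds h
  filter_upwards [h1, h2] with y h1 h2
  exact S.cc_unique h2 h1

/-- the core of the covering space of germs -/
noncomputable def core [TopologicalSpace F] [DiscreteTopology F] : FiberBundleCore X X F where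
  baseSet := S.B
  isOpen_baseSet := S.isOpen_B
  indexAt := id
  mem_baseSet_at := S.mem_B
  coordChange := S.cc
  coordChange_self := fun i x hx v => S.cc_unique ⟨hx, hx⟩ (EventuallyEq.refl _ _)
  continuousOn_coordChange := by
    intro i j
    rintro ⟨z, f⟩ ⟨hz, -⟩
    apply ContinuousAt.continuousWithinAt
    rw [ContinuousAt, nhds_discrete F]
    rw [tendsto_pure]
    rw [nhds_prod_eq, nhds_discrete F, prod_pure, eventually_map]
    exact S.cc_locally_const hz f
  coordChange_comp := by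
    intro i j k z hz f
    symm
    apply S.cc_unique ⟨hz.1.1, hz.2⟩
    exact (S.cc_spec ⟨hz.1.2, hz.2⟩ _).trans (S.cc_spec ⟨hz.1.1, hz.1.2⟩ f)

theorem exists_global [SimplyConnectedSpace X] [LocallyPathConnectedSpace X] (x : X) (f : F) :
    ∃ u : X → ℝ, (∀ y, ∃ f', u =ᶠ[𝓝 y] S.A y f') ∧ u =ᶠ[𝓝 x] S.A x f := by
  let _ : TopologicalSpace F := ⊥
  have : DiscreteTopology F := ⟨rfl⟩
  have cov : IsCoveringMap (Bundle.TotalSpace.proj : Bundle.TotalSpace F S.core.Fiber → X) :=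
    FiberBundle.isCoveringMap
  obtain ⟨σ, ⟨hσx, hσ⟩, -⟩ := cov.existsUnique_continuousMap_lifts (ContinuousMap.id X) x
    (⟨x, f⟩ : Bundle.TotalSpace F S.core.Fiber) rfl
  have hσ1 : ∀ y, (σ y).1 = y := fun y => congrFun hσ y
  let s : X → F := fun y => (σ y).2
  have key : ∀ y0, ∀ᶠ y in 𝓝 y0, S.cc y y0 y (s y) = s y0 := by
    intro y0
    have hmem : σ y0 ∈ (S.core.localTriv y0).source := by
      rw [FiberBundleCore.mem_localTriv_source]
      show (σ y0).1 ∈ S.B y0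
      rw [hσ1]
      exact S.mem_B y0
    have hc : ContinuousAt (fun y => (S.core.localTriv y0 (σ y)).2) y0 := by
      have h1 : ContinuousAt (S.core.localTriv y0) (σ y0) :=
        (S.core.localTriv y0).continuousOn_toFun.continuousAt
          ((S.core.localTriv y0).open_source.mem_nhds hmem)
      exact continuousAt_snd.comp (ContinuousAt.comp (f := σ) h1 σ.continuous.continuousAt)
    have h2 : ∀ᶠ y in 𝓝 y0, (S.core.localTriv y0 (σ y)).2 = (S.core.localTriv y0 (σ y0)).2 := by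
      have := hc.tendsto
      rw [nhds_discrete F, tendsto_pure] at this
      exact this
    have h3 : ∀ y, (S.core.localTriv y0 (σ y)).2 = S.cc y y0 y (s y) := by
      intro y
      rw [FiberBundleCore.localTriv_apply]
      show S.cc (σ y).1 y0 (σ y).1 (σ y).2 = S.cc y y0 y (s y)
      rw [hσ1]
    filter_upwards [h2] with y hy
    rw [h3, h3] at hy
    rw [hy]
    exact S.cc_unique ⟨S.mem_B y0, S.mem_B y0⟩ (EventuallyEq.refl _ _)
  have loc : ∀ y0, (fun y => S.A y (s y) y) =ᶠ[𝓝 y0] S.A y0 (s y0) := by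
    intro y0
    filter_upwards [key y0, (S.isOpen_B y0).mem_nhds (S.mem_B y0)] with y hy hyB
    have h1 := (S.cc_spec (p := y) (q := y0) ⟨S.mem_B y, hyB⟩ (s y)).eq_of_nhds
    rw [hy] at h1
    exact h1.symm
  refine ⟨fun y => S.A y (s y) y, fun y => ⟨s y, loc y⟩, ?_⟩
  have hx : s x = f := by
    show (σ x).2 = f
    rw [hσx]
  have := loc x
  rwa [hx] at this

end NoFlatGerm

/-! ### affine functions -/

section

variable {V V' : Type} [NormedAddCommGroup V] [NormedSpace ℝ V] [NormedAddCommGroup V']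
  [NormedSpace ℝ V']

theorem noFlat_affine_congr {Γ : V → V →L[ℝ] V →L[ℝ] V} {u u' : V → ℝ} {z : V}
    (h : IsAffineAt Γ u z) (huu : u' =ᶠ[𝓝 z] u) : IsAffineAt Γ u' z := by
  refine ⟨h.1.congr_of_eventuallyEq huu, ?_⟩
  have huu1 : fderiv ℝ u' =ᶠ[𝓝 z] fderiv ℝ u := Filter.EventuallyEq.fderiv (𝕜 := ℝ) huu
  have huu2 : fderiv ℝ (fderiv ℝ u') =ᶠ[𝓝 z] fderiv ℝ (fderiv ℝ u) :=
    Filter.EventuallyEq.fderiv (𝕜 := ℝ) huu1
  filter_upwards [h.2, huu1, huu2] with y h1 h2 h3
  intro v w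
  rw [h2, h3]
  exact h1 v w

theorem noFlat_affine_eventually {Γ : V → V →L[ℝ] V →L[ℝ] V} {u : V → ℝ} {z : V}
    (h : IsAffineAt Γ u z) : ∀ᶠ y in 𝓝 z, IsAffineAt Γ u y := by
  have h1 : ∀ᶠ y in 𝓝 z, ContDiffAt ℝ 2 u y := h.1.eventually (by simp)
  have h2 := h.2.eventually_nhds
  filter_upwards [h1, h2] with y h1 h2
  exact ⟨h1, h2⟩

/-- affine functions pull back to affine functions -/
theorem noFlat_affine_comp {D' : HKData V'} {D : HKData V} {Φ : V' → V} {w : V → ℝ} {z : V'}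
    (hΦ : ContDiffAt ℝ 2 Φ z) (hrel : ∀ᶠ y in 𝓝 z, HKRel D' D Φ y)
    (hw : IsAffineAt D.Γ w (Φ z)) : IsAffineAt D'.Γ (w ∘ Φ) z := by
  refine ⟨hw.1.comp z hΦ, ?_⟩
  have h1 : ∀ᶠ y in 𝓝 z, ContDiffAt ℝ 2 Φ y := hΦ.eventually (by simp)
  have h2 : ∀ᶠ y in 𝓝 z, IsAffineAt D.Γ w (Φ y) :=
    hΦ.continuousAt.eventually (noFlat_affine_eventually hw)
  have h3 : ∀ᶠ y in 𝓝 z, fderiv ℝ (w ∘ Φ) y = (fderiv ℝ w (Φ y)).comp (fderiv ℝ Φ y) := by
    filter_upwards [h1, h2] with y h1 h2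
    exact fderiv_comp y (h2.1.differentiableAt (by norm_num)) (h1.differentiableAt (by norm_num))
  filter_upwards [h1, h2, h3.eventually_nhds, hrel] with y h1 h2 h3 hr
  intro v v'
  have e1 : fderiv ℝ (fun y => fderiv ℝ (w ∘ Φ) y) y
      = fderiv ℝ (fun y => (fderiv ℝ w (Φ y)).comp (fderiv ℝ Φ y)) y :=
    Filter.EventuallyEq.fderiv_eq h3
  have hd1 : DifferentiableAt ℝ (fderiv ℝ Φ) y :=
    (h1.fderiv_right (m := 1) (by norm_num)).differentiableAt (by norm_num)
  have hd2 : DifferentiableAt ℝ (fderiv ℝ w) (Φ y) :=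
    (h2.1.fderiv_right (m := 1) (by norm_num)).differentiableAt (by norm_num)
  have hd3 : HasFDerivAt (fun y => fderiv ℝ w (Φ y))
      ((fderiv ℝ (fderiv ℝ w) (Φ y)).comp (fderiv ℝ Φ y)) y :=
    hd2.hasFDerivAt.comp y (h1.differentiableAt (by norm_num)).hasFDerivAt
  have hd4 := hd3.clm_comp hd1.hasFDerivAt
  have e2 := hd4.fderiv
  have e3 : fderiv ℝ (fderiv ℝ (w ∘ Φ)) y v v' =
      fderiv ℝ w (Φ y) (fderiv ℝ (fderiv ℝ Φ) y v v') +
        fderiv ℝ (fderiv ℝ w) (Φ y) (fderiv ℝ Φ y v) (fderiv ℝ Φ y v') := by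
    show fderiv ℝ (fun y => fderiv ℝ (w ∘ Φ) y) y v v' = _
    rw [e1, e2]
    simp
  rw [e3, h2.2.self_of_nhds, h3.self_of_nhds]
  show _ = fderiv ℝ w (Φ y) (fderiv ℝ Φ y (D'.Γ y v v'))
  rw [hr.Γ, map_add, add_comm]

end

variable {X : Type} [TopologicalSpace X] [ChartedSpace C2 X]

/-- a function on the manifold which is affine in all charts near `x` -/
def ManHK.IsAffineAt (M : ManHK X) (u : X → ℝ) (x : X) : Prop :=
  ∀ e ∈ atlas C2 X, x ∈ e.source → Pool.Agent.Lib.MP_6c284f_gt.IsAffineAt (M.D e).Γ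
    (u ∘ e.symm) (e x)

theorem noFlat_man_congr {M : ManHK X} {u u' : X → ℝ} {x : X} (h : M.IsAffineAt u x)
    (huu : u' =ᶠ[𝓝 x] u) : M.IsAffineAt u' x := by
  intro e he hx
  refine noFlat_affine_congr (h e he hx) ?_
  have h1 : Tendsto e.symm (𝓝 (e x)) (𝓝 x) := by
    have := e.continuousAt_symm (e.map_source hx)
    rw [ContinuousAt, e.left_inv hx] at this
    exact this
  exact h1.eventually huu

/-- a function which is affine in one chart is affine -/
theorem noFlat_man_of_chart (hX : IsManifold 𝓘(ℝ, C2) ∞ X) (M : ManHK X)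
    {e : OpenPartialHomeomorph X C2} (he : e ∈ atlas C2 X) {x : X} (hx : x ∈ e.source)
    {w : C2 → ℝ} (hw : Pool.Agent.Lib.MP_6c284f_gt.IsAffineAt (M.D e).Γ w (e x)) :
    M.IsAffineAt (w ∘ e) x := by
  intro e' he' hx'
  have hc : ContDiffAt ℝ 2 (e ∘ e'.symm) (e' x) := by
    have h1 := HasGroupoid.compatible (G := contDiffGroupoid ∞ 𝓘(ℝ, C2)) he' he
    rw [contDiffGroupoid] at h1
    have h2 := (mem_groupoid_of_pregroupoid.1 h1).1
    have h3 : ContDiffOn ℝ ∞ (e ∘ e'.symm) (e'.symm ≫ₕ e).source := by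
      have h4 : ContDiffOn ℝ ∞ (𝓘(ℝ, C2) ∘ (e'.symm ≫ₕ e) ∘ 𝓘(ℝ, C2).symm)
        (𝓘(ℝ, C2).symm ⁻¹' (e'.symm ≫ₕ e).source ∩ range 𝓘(ℝ, C2)) := h2
      simpa using h4
    have hmem : e' x ∈ (e'.symm ≫ₕ e).source := by
      rw [OpenPartialHomeomorph.trans_source]
      refine ⟨e'.map_source hx', ?_⟩
      show e'.symm (e' x) ∈ e.source
      rw [e'.left_inv hx']
      exact hx
    exact (h3.contDiffAt ((e'.symm ≫ₕ e).open_source.mem_nhds hmem)).of_le (by norm_cast)
  have hrel : ∀ᶠ y in 𝓝 (e' x), HKRel (M.D e') (M.D e) (e ∘ e'.symm) y := by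
    have hopen : IsOpen (e'.target ∩ e'.symm ⁻¹' e.source) :=
      e'.isOpen_inter_preimage_symm e.open_source
    have hmem : e' x ∈ e'.target ∩ e'.symm ⁻¹' e.source := by
      refine ⟨e'.map_source hx', ?_⟩
      show e'.symm (e' x) ∈ e.source
      rw [e'.left_inv hx']
      exact hx
    filter_upwards [hopen.mem_nhds hmem] with y hy
    have := M.rel e' he' e he (e'.symm y) ⟨e'.map_target hy.1, hy.2⟩
    rwa [e'.right_inv hy.1] at this
  have hw' : Pool.Agent.Lib.MP_6c284f_gt.IsAffineAt (M.D e).Γ w ((e ∘ e'.symm) (e' x)) := by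
    show Pool.Agent.Lib.MP_6c284f_gt.IsAffineAt (M.D e).Γ w (e (e'.symm (e' x)))
    rw [e'.left_inv hx']
    exact hw
  exact noFlat_affine_comp (Φ := e ∘ e'.symm) hc hrel hw'

/-! ### the germ system of a flat manifold -/

section

variable (M : ManHK X) (hflat : ∀ x, M.FlatAt x)

include hflat in
theorem noFlat_curv {e : OpenPartialHomeomorph X C2} (he : e ∈ atlas C2 X) :
    ∀ z ∈ e.target, ∀ u v w, curv (M.D e).Γ z u v w = 0 := by
  intro z hz u v w
  have := hflat (e.symm z) e he (e.map_target hz) u v w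
  rwa [e.right_inv hz] at this

theorem noFlat_radius (p : X) : ∃ ρ : ℝ, 0 < ρ ∧
    Metric.ball (chartAt C2 p p) (3 * ρ) ⊆ (chartAt C2 p).target := by
  obtain ⟨r, hr, h⟩ := Metric.isOpen_iff.1 (chartAt C2 p).open_target (chartAt C2 p p)
    ((chartAt C2 p).map_source (mem_chart_source C2 p))
  refine ⟨r / 3, by positivity, ?_⟩
  have : 3 * (r / 3) = r := by ring
  rwa [this]

noncomputable def noFlatR (p : X) : ℝ := Classical.choose (noFlat_radius p)

theorem noFlatR_pos (p : X) : 0 < noFlatR p := (Classical.choose_spec (noFlat_radius p)).1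

theorem noFlatR_sub (p : X) :
    Metric.ball (chartAt C2 p p) (3 * noFlatR p) ⊆ (chartAt C2 p).target :=
  (Classical.choose_spec (noFlat_radius p)).2

theorem noFlatR_sub' (p : X) :
    Metric.ball (chartAt C2 p p) (noFlatR p) ⊆ (chartAt C2 p).target :=
  (Metric.ball_subset_ball (by linarith [noFlatR_pos p])).trans (noFlatR_sub p)

include hflat in
theorem noFlat_U (p : X) (f : ℝ × (C2 →L[ℝ] ℝ)) : ∃ u : C2 → ℝ,
    (∀ y ∈ Metric.ball (chartAt C2 p p) (noFlatR p),
      Pool.Agent.Lib.MP_6c284f_gt.IsAffineAt (M.D (chartAt C2 p)).Γ u y) ∧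
    u (chartAt C2 p p) = f.1 ∧ fderiv ℝ u (chartAt C2 p p) = f.2 :=
  exists_affine (M.isHK _ (chart_mem_atlas C2 p)) (noFlat_curv M hflat (chart_mem_atlas C2 p))
    (noFlatR_pos p) (noFlatR_sub' p) f.1 f.2

noncomputable def noFlatU (p : X) (f : ℝ × (C2 →L[ℝ] ℝ)) : C2 → ℝ :=
  Classical.choose (noFlat_U M hflat p f)

theorem noFlatU_aff (p : X) (f : ℝ × (C2 →L[ℝ] ℝ)) :
    ∀ y ∈ Metric.ball (chartAt C2 p p) (noFlatR p),
      Pool.Agent.Lib.MP_6c284f_gt.IsAffineAt (M.D (chartAt C2 p)).Γ (noFlatU M hflat p f) y :=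
  (Classical.choose_spec (noFlat_U M hflat p f)).1

theorem noFlatU_val (p : X) (f : ℝ × (C2 →L[ℝ] ℝ)) :
    noFlatU M hflat p f (chartAt C2 p p) = f.1 ∧
      fderiv ℝ (noFlatU M hflat p f) (chartAt C2 p p) = f.2 :=
  (Classical.choose_spec (noFlat_U M hflat p f)).2

/-- uniqueness on a ball in a chart -/
theorem noFlat_unique {e : OpenPartialHomeomorph X C2} (he : e ∈ atlas C2 X) {c : C2} {r : ℝ}
    (hr : Metric.ball c r ⊆ e.target) {u₁ u₂ : C2 → ℝ}
    (h₁ : ∀ y ∈ Metric.ball c r, Pool.Agent.Lib.MP_6c284f_gt.IsAffineAt (M.D e).Γ u₁ y)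
    (h₂ : ∀ y ∈ Metric.ball c r, Pool.Agent.Lib.MP_6c284f_gt.IsAffineAt (M.D e).Γ u₂ y) {z : C2}
    (hz : z ∈ Metric.ball c r) (h0 : u₁ z = u₂ z) (h1 : fderiv ℝ u₁ z = fderiv ℝ u₂ z) :
    ∀ y ∈ Metric.ball c r, u₁ y = u₂ y ∧ fderiv ℝ u₁ y = fderiv ℝ u₂ y :=
  affine_unique (M.isHK e he) Metric.isOpen_ball (convex_ball c r).isPreconnected hr h₁ h₂ hz h0 h1

noncomputable def noFlatSys (hX : IsManifold 𝓘(ℝ, C2) ∞ X) :
    NoFlatGerm X (ℝ × (C2 →L[ℝ] ℝ)) where
  B := fun p => (chartAt C2 p).source ∩ (chartAt C2 p) ⁻¹'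
    Metric.ball (chartAt C2 p p) (noFlatR p)
  A := fun p f => noFlatU M hflat p f ∘ chartAt C2 p
  aff := M.IsAffineAt
  isOpen_B := fun p => (chartAt C2 p).isOpen_inter_preimage Metric.isOpen_ball
  mem_B := fun p => ⟨mem_chart_source C2 p, Metric.mem_ball_self (noFlatR_pos p)⟩
  aff_A := fun p f z hz =>
    noFlat_man_of_chart hX M (chart_mem_atlas C2 p) hz.1 (noFlatU_aff M hflat p f _ hz.2)
  exists_f := by
    intro p z hz u hu
    set e := chartAt C2 p with he
    have hea : e ∈ atlas C2 X := chart_mem_atlas C2 p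
    have hw := hu e hea hz.1
    set w : C2 → ℝ := u ∘ e.symm with hwdef
    have hz1 : dist (e z) (e p) < noFlatR p := hz.2
    have hρ := noFlatR_pos p
    have hsub : Metric.ball (e z) (2 * noFlatR p) ⊆ e.target := by
      refine Set.Subset.trans ?_ (noFlatR_sub p)
      intro y hy
      rw [Metric.mem_ball] at hy ⊢
      have := dist_triangle y (e z) (e p)
      show dist y (e p) < 3 * noFlatR p
      linarith
    have hsub2 : Metric.ball (e p) (noFlatR p) ⊆ Metric.ball (e z) (2 * noFlatR p) := by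
      intro y hy
      rw [Metric.mem_ball] at hy ⊢
      have := dist_triangle y (e p) (e z)
      rw [dist_comm (e p) (e z)] at this
      linarith
    obtain ⟨u1, a1, a2, a3⟩ := exists_affine (M.isHK e hea) (noFlat_curv M hflat hea)
      (ρ := 2 * noFlatR p) (by positivity) hsub (w (e z)) (fderiv ℝ w (e z))
    refine ⟨(u1 (e p), fderiv ℝ u1 (e p)), ?_⟩
    set f : ℝ × (C2 →L[ℝ] ℝ) := (u1 (e p), fderiv ℝ u1 (e p)) with hf
    obtain ⟨b1, b2⟩ := noFlatU_val M hflat p f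
    have hU := noFlat_unique M hea (noFlatR_sub' p) (noFlatU_aff M hflat p f)
      (fun y hy => a1 y (hsub2 hy)) (Metric.mem_ball_self hρ) b1 b2
    obtain ⟨c1, c2⟩ := hU (e z) hz.2
    -- a small ball around `e z`
    have hev : ∀ᶠ y in 𝓝 (e z), Pool.Agent.Lib.MP_6c284f_gt.IsAffineAt (M.D e).Γ w y ∧
        y ∈ Metric.ball (e p) (noFlatR p) :=
      (noFlat_affine_eventually hw).and (Metric.isOpen_ball.mem_nhds hz.2)
    obtain ⟨r, hr, hball⟩ := Metric.eventually_nhds_iff_ball.1 hev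
    have hfin := noFlat_unique M hea (c := e z) (r := r)
      (fun y hy => noFlatR_sub' p (hball y hy).2)
      (fun y hy => noFlatU_aff M hflat p f y (hball y hy).2) (fun y hy => (hball y hy).1)
      (Metric.mem_ball_self hr) (c1.trans a2) (c2.trans a3)
    have hopen : IsOpen (e.source ∩ e ⁻¹' Metric.ball (e z) r) :=
      e.isOpen_inter_preimage Metric.isOpen_ball
    filter_upwards [hopen.mem_nhds ⟨hz.1, Metric.mem_ball_self hr⟩] with y hy
    have h1 := (hfin (e y) hy.2).1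
    show noFlatU M hflat p f (e y) = u y
    rw [h1]
    show u (e.symm (e y)) = u y
    rw [e.left_inv hy.1]
  unique_f := by
    intro p z hz f f' hff
    set e := chartAt C2 p with he
    have hea : e ∈ atlas C2 X := chart_mem_atlas C2 p
    have h1 : noFlatU M hflat p f =ᶠ[𝓝 (e z)] noFlatU M hflat p f' := by
      have h2 : Tendsto e.symm (𝓝 (e z)) (𝓝 z) := by
        have := e.continuousAt_symm (e.map_source hz.1)
        rw [ContinuousAt, e.left_inv hz.1] at this
        exact this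
      have h3 := h2.eventually hff
      have h4 : ∀ᶠ y in 𝓝 (e z), y ∈ e.target := e.open_target.mem_nhds (e.map_source hz.1)
      filter_upwards [h3, h4] with y h3 h4
      have h5 : noFlatU M hflat p f (e (e.symm y)) = noFlatU M hflat p f' (e (e.symm y)) := h3
      rwa [e.right_inv h4] at h5
    have h2 := h1.eq_of_nhds
    have h3 : fderiv ℝ (noFlatU M hflat p f) (e z) = fderiv ℝ (noFlatU M hflat p f') (e z) :=
      Filter.EventuallyEq.fderiv_eq h1
    have h4 := noFlat_unique M hea (noFlatR_sub' p) (noFlatU_aff M hflat p f)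
      (noFlatU_aff M hflat p f') hz.2 h2 h3 (e p) (Metric.mem_ball_self (noFlatR_pos p))
    obtain ⟨b1, b2⟩ := noFlatU_val M hflat p f
    obtain ⟨b1', b2'⟩ := noFlatU_val M hflat p f'
    refine Prod.ext ?_ ?_
    · rw [← b1, ← b1']; exact h4.1
    · rw [← b2, ← b2']; exact h4.2

end

/-- every germ of an affine function extends to the whole simply connected manifold -/
theorem exists_global_affine [T2Space X] [SimplyConnectedSpace X]
    (hX : IsManifold 𝓘(ℝ, C2) ∞ X) (M : ManHK X) (hflat : ∀ x, M.FlatAt x)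
    {e : OpenPartialHomeomorph X C2} (he : e ∈ atlas C2 X) {x : X} (hx : x ∈ e.source)
    (l : C2 →L[ℝ] ℝ) :
    ∃ u : X → ℝ, (∀ y, M.IsAffineAt u y) ∧ u x = 0 ∧ fderiv ℝ (u ∘ e.symm) (e x) = l := by
  have hlp : LocallyPathConnectedSpace X := ChartedSpace.locallyPathConnectedSpace C2 X
  set S := noFlatSys M hflat hX with hS
  obtain ⟨r, hr, hball⟩ := Metric.isOpen_iff.1 e.open_target (e x) (e.map_source hx)
  obtain ⟨U0, a1, a2, a3⟩ := exists_affine (M.isHK e he) (noFlat_curv M hflat he) hr hball 0 l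
  have h0 : M.IsAffineAt (U0 ∘ e) x :=
    noFlat_man_of_chart hX M he hx (a1 _ (Metric.mem_ball_self hr))
  obtain ⟨f, hf⟩ := S.exists_f x x (S.mem_B x) (U0 ∘ e) h0
  obtain ⟨u, hu1, hu2⟩ := S.exists_global x f
  refine ⟨u, ?_, ?_, ?_⟩
  · intro y
    obtain ⟨f', hf'⟩ := hu1 y
    exact noFlat_man_congr (S.aff_A y f' y (S.mem_B y)) hf'
  · have h1 := (hu2.trans hf).eq_of_nhds
    rw [h1]
    exact a2
  · have h1 := hu2.trans hf
    have h2 : Tendsto e.symm (𝓝 (e x)) (𝓝 x) := by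
      have := e.continuousAt_symm (e.map_source hx)
      rw [ContinuousAt, e.left_inv hx] at this
      exact this
    have h3 : (u ∘ e.symm) =ᶠ[𝓝 (e x)] U0 := by
      have h4 := h2.eventually h1
      have h5 : ∀ᶠ y in 𝓝 (e x), y ∈ e.target := e.open_target.mem_nhds (e.map_source hx)
      filter_upwards [h4, h5] with y h4 h5
      show u (e.symm y) = U0 y
      have h6 : u (e.symm y) = U0 (e (e.symm y)) := h4
      rw [h6, e.right_inv h5]
    rw [h3.fderiv_eq]
    exact a3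

end Pool.Agent.Lib.MP_6c284f_gt
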