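import Pool.Agent.Lib.MP_6c284f_gt.Affine
import Pool.Agent.Lib.MP_6c284f_gt.ManHK
import Pool.Agent.Lib.MP_6c284f_gt.NoFlatA

set_option autoImplicit false
set_option maxSynthPendingDepth 5

/-!
A compact simply connected manifold carries no flat hyperkähler structure.
-/

namespace Pool.Agent.Lib.MP_6c284f_gt

open scoped Manifold ContDiff Topology ComplexConjugate Matrix
open Set Filter

variable {X : Type} [TopologicalSpace X] [ChartedSpace C2 X]

private theorem noFlat_const_affine {V : Type} [NormedAddCommGroup V] [NormedSpace ℝ V]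
    (Γ : V → V →L[ℝ] V →L[ℝ] V) (c : ℝ) (z : V) :
    Pool.Agent.Lib.MP_6c284f_gt.IsAffineAt Γ (fun _ => c) z := by
  refine ⟨contDiffAt_const, Eventually.of_forall fun y v w => ?_⟩
  have h1 : fderiv ℝ (fun _ : V => c) = fun _ => 0 := by
    funext y
    exact fderiv_const_apply c
  rw [h1]
  have h2 : fderiv ℝ (fun _ : V => (0 : V →L[ℝ] ℝ)) y = 0 := fderiv_const_apply _
  rw [h2]
  simp

/-- spreading of the constancy of an affine function:
if a point `y'` close to `y` has value `c` and derivative `0` in the chart at `y`, then the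
function is `c` near `y`. -/
private theorem noFlat_spread {M : ManHK X} {u : X → ℝ} (hu : ∀ y, M.IsAffineAt u y)
    {y y' : X} {r : ℝ} (hr : Metric.ball (chartAt C2 y y) r ⊆ (chartAt C2 y).target)
    (hr0 : 0 < r) (hy' : chartAt C2 y y' ∈ Metric.ball (chartAt C2 y y) r)
    (hs : y' ∈ (chartAt C2 y).source) {c : ℝ} (h0 : u y' = c)
    (h1 : fderiv ℝ (u ∘ (chartAt C2 y).symm) (chartAt C2 y y') = 0) :
    ∀ᶠ z in 𝓝 y, u z = c := by
  set e := chartAt C2 y with he
  have hea : e ∈ atlas C2 X := chart_mem_atlas C2 y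
  have haff : ∀ z ∈ Metric.ball (e y) r,
      Pool.Agent.Lib.MP_6c284f_gt.IsAffineAt (M.D e).Γ (u ∘ e.symm) z := by
    intro z hz
    have h2 := hu (e.symm z) e hea (e.map_target (hr hz))
    rwa [e.right_inv (hr hz)] at h2
  have h2 : (u ∘ e.symm) (e y') = c := by
    show u (e.symm (e y')) = c
    rw [e.left_inv hs, h0]
  have h3 : fderiv ℝ (u ∘ e.symm) (e y') = fderiv ℝ (fun _ : C2 => c) (e y') := by
    rw [h1, fderiv_const_apply]
  have hfin := noFlat_unique M hea hr haff
    (fun z _ => noFlat_const_affine (M.D e).Γ c z) hy' h2 h3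
  have hopen : IsOpen (e.source ∩ e ⁻¹' Metric.ball (e y) r) :=
    e.isOpen_inter_preimage Metric.isOpen_ball
  filter_upwards [hopen.mem_nhds ⟨mem_chart_source C2 y, Metric.mem_ball_self hr0⟩] with z hz
  have h4 := (hfin (e z) hz.2).1
  have h5 : u (e.symm (e z)) = c := h4
  rwa [e.left_inv hz.1] at h5

theorem no_flat [T2Space X] [CompactSpace X] [SimplyConnectedSpace X]
    (hX : IsManifold 𝓘(ℝ, C2) ∞ X) (M : ManHK X) (hflat : ∀ x, M.FlatAt x) : False := by
  have hpc : PathConnectedSpace X := inferInstance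
  obtain ⟨x⟩ : Nonempty X := hpc.nonempty
  set l : C2 →L[ℝ] ℝ := Complex.reCLM.comp (ContinuousLinearMap.proj (R := ℝ) (0 : Fin 2)) with hl
  have hl0 : l ≠ 0 := by
    intro h
    have h1 : l (fun _ => 1) = 0 := by rw [h]; rfl
    rw [hl] at h1
    simp at h1
  obtain ⟨u, hu, -, hux⟩ := exists_global_affine hX M hflat (chart_mem_atlas C2 x)
    (mem_chart_source C2 x) l
  have hcont : Continuous u := by
    rw [continuous_iff_continuousAt]
    intro y
    have h1 := (hu y (chartAt C2 y) (chart_mem_atlas C2 y) (mem_chart_source C2 y)).1.continuousAt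
    have h2 : ContinuousAt ((u ∘ (chartAt C2 y).symm) ∘ chartAt C2 y) y :=
      h1.comp ((chartAt C2 y).continuousAt (mem_chart_source C2 y))
    refine h2.congr ?_
    filter_upwards [(chartAt C2 y).open_source.mem_nhds (mem_chart_source C2 y)] with z hz
    show u ((chartAt C2 y).symm (chartAt C2 y z)) = u z
    rw [(chartAt C2 y).left_inv hz]
  obtain ⟨p, -, hp⟩ := isCompact_univ.exists_isMaxOn (univ_nonempty (α := X)) hcont.continuousOn
  have hmax : ∀ y, u y ≤ u p := fun y => hp (mem_univ y)
  set S : Set X := {y | ∀ᶠ z in 𝓝 y, u z = u p} with hS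
  have hSo : IsOpen S := isOpen_setOfPred_eventually_nhds
  have hpS : p ∈ S := by
    obtain ⟨r, hr, hball⟩ := Metric.isOpen_iff.1 (chartAt C2 p).open_target (chartAt C2 p p)
      ((chartAt C2 p).map_source (mem_chart_source C2 p))
    refine noFlat_spread hu hball hr (Metric.mem_ball_self hr) (mem_chart_source C2 p) rfl ?_
    apply IsLocalMax.fderiv_eq_zero
    refine Eventually.of_forall fun z => ?_
    show u ((chartAt C2 p).symm z) ≤ u ((chartAt C2 p).symm (chartAt C2 p p))
    rw [(chartAt C2 p).left_inv (mem_chart_source C2 p)]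
    exact hmax _
  have hSc : IsClosed S := by
    rw [← closure_subset_iff_isClosed]
    intro y hy
    obtain ⟨r, hr, hball⟩ := Metric.isOpen_iff.1 (chartAt C2 y).open_target (chartAt C2 y y)
      ((chartAt C2 y).map_source (mem_chart_source C2 y))
    have hopen : IsOpen ((chartAt C2 y).source ∩
        (chartAt C2 y) ⁻¹' Metric.ball (chartAt C2 y y) r) :=
      (chartAt C2 y).isOpen_inter_preimage Metric.isOpen_ball
    obtain ⟨y', hy', hyS⟩ := mem_closure_iff.1 hy _ hopen
      ⟨mem_chart_source C2 y, Metric.mem_ball_self hr⟩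
    refine noFlat_spread hu hball hr hy'.2 hy'.1 (hyS.self_of_nhds) ?_
    have h1 : (u ∘ (chartAt C2 y).symm) =ᶠ[𝓝 (chartAt C2 y y')] fun _ => u p := by
      have h2 : Tendsto (chartAt C2 y).symm (𝓝 (chartAt C2 y y')) (𝓝 y') := by
        have := (chartAt C2 y).continuousAt_symm ((chartAt C2 y).map_source hy'.1)
        rw [ContinuousAt, (chartAt C2 y).left_inv hy'.1] at this
        exact this
      exact h2.eventually hyS
    rw [h1.fderiv_eq, fderiv_const_apply]
  have hSu : S = univ := IsClopen.eq_univ ⟨hSc, hSo⟩ ⟨p, hpS⟩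
  have hxS : x ∈ S := by rw [hSu]; exact mem_univ x
  have h1 : (u ∘ (chartAt C2 x).symm) =ᶠ[𝓝 (chartAt C2 x x)] fun _ => u p := by
    have h2 : Tendsto (chartAt C2 x).symm (𝓝 (chartAt C2 x x)) (𝓝 x) := by
      have := (chartAt C2 x).continuousAt_symm ((chartAt C2 x).map_source (mem_chart_source C2 x))
      rw [ContinuousAt, (chartAt C2 x).left_inv (mem_chart_source C2 x)] at this
      exact this
    exact h2.eventually hxS
  rw [h1.fderiv_eq, fderiv_const_apply] at hux
  exact hl0 hux.symm

end Pool.Agent.Lib.MP_6c284f_gt
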