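import Pool.Agent.Lib.MP_6c284f_gt.TransferB
import Pool.Agent.Lib.MP_6c284f_gt.FlatMan
import Pool.Agent.Lib.MP_6c284f_gt.NoFlat

set_option autoImplicit false
set_option maxSynthPendingDepth 5

/-!
No closed geodesic of a Ricci-flat K3 surface is locally length minimizing.
-/

namespace Pool.Agent.Lib.MP_6c284f_gt

open scoped Manifold ContDiff Topology ComplexConjugate Matrix
open Set

variable {X : Type} [TopologicalSpace X] [ChartedSpace C2 X]

theorem no_llm (hX : IsK3 X) (g : KahlerMetric X) (hR : g.RicciFlat)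
    (γ : C(UnitAddCircle, X)) (hγ : g.IsClosedGeodesic γ) : ¬ g.LocallyLengthMinimizing γ := by
  intro hmin
  have hc := hX.complex
  have := hX.hausdorff
  have := hX.compact
  have := hX.simplyConnected
  obtain ⟨Ω, hΩ⟩ := hX.trivialCanonical
  obtain ⟨r, hr, hn⟩ := exists_norm_const hX g hR Ω hΩ
  have hreal := isManifold_real hc
  have hgeo : IsManGeod (manHK hc g Ω hr hn) (lift γ) := by
    intro e he t ht
    exact k_geodesic (isK_chart g Ω hr hn he) (e.map_source ht) _ _ (hγ.geodesic e he t ht)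
  obtain ⟨O, hO, hne, hflat⟩ := llm_flat hreal g (manHK hc g Ω hr hn)
    (fun e _ z _ v w => kG_apply (g.mat e) z v w) γ hγ.smooth hγ.nonconst hgeo hmin
  exact no_flat hreal (manHK hc g Ω hr hn) (flat_everywhere hc g Ω hr hn hO hne hflat)

end Pool.Agent.Lib.MP_6c284f_gt
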