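import Pool.Agent.Lib.MP_6c284f_gt.Defs
import Pool.Agent.Lib.MP_6c284f_gt.Tube

set_option autoImplicit false
set_option maxSynthPendingDepth 5

/-!
Tube maps: smooth maps from a neighbourhood of a segment in `E4` to the manifold with prescribed
values and first derivatives along the axis. Definitions.
-/

namespace Pool.Agent.Lib.MP_6c284f_gt

open scoped Manifold ContDiff Topology
open Set

variable {X : Type} [TopologicalSpace X] [ChartedSpace C2 X]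

/-- A smooth curve `γ` with a smooth family of linear maps `L e t : E4 → C2` (in the chart `e`)
that map `e0` to the velocity of `γ`. -/
structure IsJet (γ : ℝ → X) (L : OpenPartialHomeomorph X C2 → ℝ → E4 →L[ℝ] C2) : Prop where
  smoothγ : ContMDiff 𝓘(ℝ, ℝ) 𝓘(ℝ, C2) ∞ γ
  smoothL : ∀ e ∈ atlas C2 X, ∀ t, γ t ∈ e.source → ContDiffAt ℝ ∞ (L e) t
  trans : ∀ e ∈ atlas C2 X, ∀ e' ∈ atlas C2 X, ∀ t, γ t ∈ e.source → γ t ∈ e'.source →
    L e' t = fderiv ℝ (e' ∘ e.symm) (e (γ t)) ∘L L e t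
  vel : ∀ e ∈ atlas C2 X, ∀ t, γ t ∈ e.source → L e t e0 = deriv (e ∘ γ) t

/-- `Φ` is smooth on the open set `S` and has the prescribed jet along the axis. -/
structure IsTubeMap (γ : ℝ → X) (L : OpenPartialHomeomorph X C2 → ℝ → E4 →L[ℝ] C2)
    (Φ : E4 → X) (S : Set E4) : Prop where
  isOpen : IsOpen S
  smooth : ∀ z ∈ S, ContMDiffAt 𝓘(ℝ, E4) 𝓘(ℝ, C2) ∞ Φ z
  axis : ∀ t : ℝ, t • e0 ∈ S → Φ (t • e0) = γ t
  jet : ∀ t : ℝ, t • e0 ∈ S → ∀ e ∈ atlas C2 X, γ t ∈ e.source →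
    fderiv ℝ (e ∘ Φ) (t • e0) = L e t

end Pool.Agent.Lib.MP_6c284f_gt
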