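import Pool.Agent.Lib.MP_6c284f_gt.ManHK
import Pool.Agent.Lib.MP_6c284f_gt.TubeMap
import Pool.Agent.Lib.MP_6c284f_gt.ChartLemmas

set_option autoImplicit false
set_option maxSynthPendingDepth 5

/-!
The jet of the tube map: the quaternionic frame along a curve.
-/

namespace Pool.Agent.Lib.MP_6c284f_gt

open scoped Manifold ContDiff Topology
open Set

variable {X : Type} [TopologicalSpace X] [ChartedSpace C2 X]

/-- the linear map `y ↦ ∑ y_a I_a v` -/
noncomputable def frameMap (D : HKData C2) (p v : C2) : E4 →L[ℝ] C2 :=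
  ∑ a, (EuclideanSpace.proj a : E4 →L[ℝ] ℝ).smulRight (D.I a p v)

/-- the frame along the curve `γ` in the chart `e` -/
noncomputable def frameJet (M : ManHK X) (γ : ℝ → X) (e : OpenPartialHomeomorph X C2) (t : ℝ) :
    E4 →L[ℝ] C2 :=
  frameMap (M.D e) (e (γ t)) (deriv (e ∘ γ) t)

theorem frameMap_apply (D : HKData C2) (p v : C2) (y : E4) :
    frameMap D p v y = ∑ a, y a • D.I a p v := by
  simp only [frameMap, sum_apply, ContinuousLinearMap.smulRight_apply]
  rfl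

/-- smoothness of a curve in a chart -/
theorem mt_curve_smooth (hX : IsManifold 𝓘(ℝ, C2) ∞ X) {γ : ℝ → X}
    (hγ : ContMDiff 𝓘(ℝ, ℝ) 𝓘(ℝ, C2) ∞ γ) {e : OpenPartialHomeomorph X C2}
    (he : e ∈ atlas C2 X) {t : ℝ} (ht : γ t ∈ e.source) : ContDiffAt ℝ ∞ (e ∘ γ) t := by
  have h1 : ContMDiffAt 𝓘(ℝ, C2) 𝓘(ℝ, C2) ∞ e (γ t) :=
    contMDiffAt_of_mem_maximalAtlas (IsManifold.subset_maximalAtlas he) ht
  exact (ContMDiffAt.comp t h1 (hγ t)).contDiffAt

theorem mt_deriv_smooth {c : ℝ → C2} {t : ℝ} (h : ContDiffAt ℝ ∞ c t) :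
    ContDiffAt ℝ ∞ (deriv c) t := by
  have h1 : ContDiffAt ℝ ∞ (fderiv ℝ c) t := h.fderiv_right (by decide)
  have h2 : deriv c = fun s => fderiv ℝ c s 1 := by
    funext s
    exact (fderiv_apply_one_eq_deriv).symm
  rw [h2]
  exact h1.clm_apply contDiffAt_const

/-- the velocity in another chart -/
theorem mt_deriv_trans (hX : IsManifold 𝓘(ℝ, C2) ∞ X) {γ : ℝ → X}
    (hγ : ContMDiff 𝓘(ℝ, ℝ) 𝓘(ℝ, C2) ∞ γ) {e e' : OpenPartialHomeomorph X C2}
    (he : e ∈ atlas C2 X) (he' : e' ∈ atlas C2 X) {t : ℝ} (ht : γ t ∈ e.source)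
    (ht' : γ t ∈ e'.source) :
    deriv (e' ∘ γ) t = fderiv ℝ (e' ∘ e.symm) (e (γ t)) (deriv (e ∘ γ) t) := by
  have h1 := mt_curve_smooth hX hγ he ht
  have h2 := mt_trans hX he he' ht ht'
  have h3 : (e' ∘ γ) =ᶠ[𝓝 t] (e' ∘ e.symm) ∘ (e ∘ γ) := by
    have h4 : ∀ᶠ y in 𝓝 t, γ y ∈ e.source :=
      hγ.continuous.continuousAt.eventually_mem (e.open_source.mem_nhds ht)
    filter_upwards [h4] with y hy
    show e' (γ y) = e' (e.symm (e (γ y)))
    rw [e.left_inv hy]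
  rw [h3.deriv_eq]
  have h5 : HasFDerivAt (e' ∘ e.symm) (fderiv ℝ (e' ∘ e.symm) (e (γ t))) ((e ∘ γ) t) :=
    (h2.differentiableAt (by simp)).hasFDerivAt
  have h6 : HasDerivAt (e ∘ γ) (deriv (e ∘ γ) t) t :=
    (h1.differentiableAt (by simp)).hasDerivAt
  exact (h5.comp_hasDerivAt t h6).deriv

theorem isJet_frameJet (hX : IsManifold 𝓘(ℝ, C2) ∞ X) (M : ManHK X) {γ : ℝ → X}
    (hγ : ContMDiff 𝓘(ℝ, ℝ) 𝓘(ℝ, C2) ∞ γ) : IsJet γ (frameJet M γ) := by
  refine ⟨hγ, ?_, ?_, ?_⟩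
  · intro e he t ht
    have h1 := mt_curve_smooth hX hγ he ht
    have h2 : ∀ a, ContDiffAt ℝ ∞ (fun s => (M.D e).I a (e (γ s)) (deriv (e ∘ γ) s)) t := by
      intro a
      have h3 : ContDiffAt ℝ ∞ ((M.D e).I a) ((e ∘ γ) t) :=
        ((M.isHK e he).smoothI a).contDiffAt ((M.isHK e he).isOpen.mem_nhds (e.map_source ht))
      exact (ContDiffAt.comp t h3 h1).clm_apply (mt_deriv_smooth h1)
    have h4 : frameJet M γ e = fun s => ∑ a, (EuclideanSpace.proj a : E4 →L[ℝ] ℝ).smulRight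
        ((M.D e).I a (e (γ s)) (deriv (e ∘ γ) s)) := rfl
    rw [h4]
    refine ContDiffAt.sum fun a _ => ?_
    exact contDiffAt_const.smulRight (h2 a)
  · intro e he e' he' t ht ht'
    have hrel := M.rel e he e' he' (γ t) ⟨ht, ht'⟩
    have hv : (e' ∘ e.symm) (e (γ t)) = e' (γ t) := by simp [e.left_inv ht]
    ext1 y
    show frameMap (M.D e') (e' (γ t)) (deriv (e' ∘ γ) t) y =
      fderiv ℝ (e' ∘ e.symm) (e (γ t)) (frameMap (M.D e) (e (γ t)) (deriv (e ∘ γ) t) y)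
    rw [frameMap_apply, frameMap_apply, map_sum]
    refine Finset.sum_congr rfl fun a _ => ?_
    rw [map_smul, hrel.I a, hv, mt_deriv_trans hX hγ he he' ht ht']
  · intro e he t ht
    show frameMap (M.D e) (e (γ t)) (deriv (e ∘ γ) t) e0 = deriv (e ∘ γ) t
    rw [frameMap_apply]
    have hI0 := (M.isHK e he).I0 (e (γ t)) (e.map_source ht) (deriv (e ∘ γ) t)
    rw [Fin.sum_univ_four]
    simp [e0, hI0]

theorem frameJet_periodic (M : ManHK X) {γ : ℝ → X} (hper : ∀ t, γ (t + 1) = γ t)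
    (e : OpenPartialHomeomorph X C2) (t : ℝ) :
    frameJet M γ e (t + 1) = frameJet M γ e t := by
  have h1 : deriv (e ∘ γ) (t + 1) = deriv (e ∘ γ) t := by
    rw [← deriv_comp_add_const]
    congr 1
    funext s
    show e (γ (s + 1)) = e (γ s)
    rw [hper]
  unfold frameJet
  rw [h1, hper]

/-- a geodesic in the manifold: the equation holds in all charts -/
def IsManGeod (M : ManHK X) (γ : ℝ → X) : Prop :=
  ∀ e ∈ atlas C2 X, ∀ t, γ t ∈ e.source →
    deriv (deriv (e ∘ γ)) t = -(M.D e).Γ (e (γ t)) (deriv (e ∘ γ) t) (deriv (e ∘ γ) t)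

/-- A geodesic has constant speed. -/
theorem man_speed_const (hX : IsManifold 𝓘(ℝ, C2) ∞ X) (M : ManHK X) {γ : ℝ → X}
    (hγ : ContMDiff 𝓘(ℝ, ℝ) 𝓘(ℝ, C2) ∞ γ) (hgeo : IsManGeod M γ)
    (hnc : ¬ ∃ x, ∀ t, γ t = x) :
    ∃ lam : ℝ, 0 < lam ∧ ∀ e ∈ atlas C2 X, ∀ t, γ t ∈ e.source →
      (M.D e).G (e (γ t)) (deriv (e ∘ γ) t) (deriv (e ∘ γ) t) = lam := by
  have hcont : Continuous γ := hγ.continuous
  -- independence of the chart
  have hind : ∀ e ∈ atlas C2 X, ∀ e' ∈ atlas C2 X, ∀ t, γ t ∈ e.source → γ t ∈ e'.source →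
      (M.D e).G (e (γ t)) (deriv (e ∘ γ) t) (deriv (e ∘ γ) t) =
        (M.D e').G (e' (γ t)) (deriv (e' ∘ γ) t) (deriv (e' ∘ γ) t) := by
    intro e he e' he' t ht ht'
    have hrel := M.rel e he e' he' (γ t) ⟨ht, ht'⟩
    have hv : (e' ∘ e.symm) (e (γ t)) = e' (γ t) := by simp [e.left_inv ht]
    rw [hrel.G, hv, mt_deriv_trans hX hγ he he' ht ht']
  -- the derivative of the speed vanishes
  have hder : ∀ e ∈ atlas C2 X, ∀ t, γ t ∈ e.source →
      HasDerivAt (fun s => (M.D e).G (e (γ s)) (deriv (e ∘ γ) s) (deriv (e ∘ γ) s)) 0 t := by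
    intro e he t ht
    have h1 := mt_curve_smooth hX hγ he ht
    have hmem : e (γ t) ∈ e.target := e.map_source ht
    have hG : HasFDerivAt (M.D e).G (fderiv ℝ (M.D e).G ((e ∘ γ) t)) ((e ∘ γ) t) :=
      ((((M.isHK e he).smoothG).contDiffAt ((M.isHK e he).isOpen.mem_nhds hmem)).differentiableAt
        (by simp)).hasFDerivAt
    have hc : HasDerivAt (e ∘ γ) (deriv (e ∘ γ) t) t :=
      (h1.differentiableAt (by simp)).hasDerivAt
    have hc' : HasDerivAt (deriv (e ∘ γ)) (deriv (deriv (e ∘ γ)) t) t :=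
      ((mt_deriv_smooth h1).differentiableAt (by simp)).hasDerivAt
    have h2 := ((hG.comp_hasDerivAt t hc).clm_apply hc').clm_apply hc'
    have h3 := hgeo e he t ht
    have h4 := (M.isHK e he).compat (e (γ t)) hmem (deriv (e ∘ γ) t) (deriv (e ∘ γ) t)
      (deriv (e ∘ γ) t)
    refine h2.congr_deriv ?_
    simp only [Function.comp_apply, add_apply]
    rw [h3]
    simp only [map_neg, neg_apply]
    have h4' : fderiv ℝ (M.D e).G (e (γ t)) (deriv (e ∘ γ) t) (deriv (e ∘ γ) t)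
      (deriv (e ∘ γ) t) = _ := h4
    rw [h4']
    abel
  set Q : ℝ → ℝ := fun t => (M.D (chartAt C2 (γ t))).G ((chartAt C2 (γ t)) (γ t))
    (deriv ((chartAt C2 (γ t)) ∘ γ) t) (deriv ((chartAt C2 (γ t)) ∘ γ) t) with hQdef
  have hQe : ∀ e ∈ atlas C2 X, ∀ t, γ t ∈ e.source →
      (M.D e).G (e (γ t)) (deriv (e ∘ γ) t) (deriv (e ∘ γ) t) = Q t := by
    intro e he t ht
    exact hind e he _ (chart_mem_atlas C2 (γ t)) t ht (mem_chart_source C2 (γ t))
  have hQd : ∀ t, HasDerivAt Q 0 t := by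
    intro t
    have h1 := hder (chartAt C2 (γ t)) (chart_mem_atlas C2 (γ t)) t (mem_chart_source C2 (γ t))
    refine h1.congr_of_eventuallyEq ?_
    have h4 : ∀ᶠ y in 𝓝 t, γ y ∈ (chartAt C2 (γ t)).source :=
      hcont.continuousAt.eventually_mem
        ((chartAt C2 (γ t)).open_source.mem_nhds (mem_chart_source C2 (γ t)))
    filter_upwards [h4] with y hy
    exact (hQe _ (chart_mem_atlas C2 (γ t)) y hy).symm
  have hQc : ∀ t, Q t = Q 0 := fun t =>
    is_const_of_deriv_eq_zero (fun s => (hQd s).differentiableAt) (fun s => (hQd s).deriv) t 0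
  refine ⟨Q 0, ?_, fun e he t ht => by rw [hQe e he t ht, hQc t]⟩
  by_contra hneg
  apply hnc
  -- all velocities vanish
  have hv0 : ∀ e ∈ atlas C2 X, ∀ t, γ t ∈ e.source → deriv (e ∘ γ) t = 0 := by
    intro e he t ht
    by_contra hne
    have h1 := (M.isHK e he).pos (e (γ t)) (e.map_source ht) _ hne
    rw [hQe e he t ht, hQc t] at h1
    exact hneg h1
  have hloc : IsLocallyConstant γ := by
    rw [IsLocallyConstant.iff_eventually_eq]
    intro t
    set e := chartAt C2 (γ t) with hedef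
    have he : e ∈ atlas C2 X := chart_mem_atlas C2 (γ t)
    have hte : γ t ∈ e.source := mem_chart_source C2 (γ t)
    have h4 : ∀ᶠ y in 𝓝 t, γ y ∈ e.source :=
      hcont.continuousAt.eventually_mem (e.open_source.mem_nhds hte)
    obtain ⟨δ, hδ, hball⟩ := Metric.eventually_nhds_iff_ball.1 h4
    have h5 : ∀ y ∈ Metric.ball t δ, (e ∘ γ) y = (e ∘ γ) t := by
      intro y hy
      refine (convex_ball t δ).is_const_of_fderivWithin_eq_zero (𝕜 := ℝ) (f := e ∘ γ)
        ?_ ?_ hy (Metric.mem_ball_self hδ)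
      · intro s hs
        exact ((mt_curve_smooth hX hγ he (hball s hs)).differentiableAt
          (by simp)).differentiableWithinAt
      · intro s hs
        rw [fderivWithin_of_isOpen Metric.isOpen_ball hs]
        ext1
        rw [fderiv_apply_one_eq_deriv, hv0 e he s (hball s hs)]
        rfl
    filter_upwards [Metric.ball_mem_nhds t hδ] with y hy
    exact e.injOn (hball y hy) hte (h5 y hy)
  exact ⟨γ 0, fun t => hloc.apply_eq_of_preconnectedSpace t 0⟩

end Pool.Agent.Lib.MP_6c284f_gt
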