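import Pool.Agent.Lib.MP_6c284f_gt.Pull

set_option autoImplicit false
set_option maxSynthPendingDepth 5

/-!
The pullback of hyperkähler data is hyperkähler.
-/

namespace Pool.Agent.Lib.MP_6c284f_gt

open scoped ContDiff Topology
open Set

variable {V : Type} [NormedAddCommGroup V] [NormedSpace ℝ V] [CompleteSpace V]
variable {V' : Type} [NormedAddCommGroup V'] [NormedSpace ℝ V'] [CompleteSpace V']

theorem pull_rel (D : HKData V) {Φ : V' → V} {z : V'} (hinv : (fderiv ℝ Φ z).IsInvertible) :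
    HKRel (D.pull Φ) D Φ z := by
  refine ⟨fun u v => rfl, fun u v => ?_, fun a v => ?_⟩
  · change fderiv ℝ Φ z ((fderiv ℝ Φ z).inverse
      (D.Γ (Φ z) (fderiv ℝ Φ z u) (fderiv ℝ Φ z v) + fderiv ℝ (fderiv ℝ Φ) z u v)) = _
    rw [hinv.self_apply_inverse]
  · change fderiv ℝ Φ z ((fderiv ℝ Φ z).inverse (D.I a (Φ z) (fderiv ℝ Φ z v))) = _
    rw [hinv.self_apply_inverse]

/-- a pullback relation determines the data at the point -/
theorem rel_unique {D : HKData V} {D1 D2 : HKData V'} {Φ : V' → V} {z : V'}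
    (hinj : Function.Injective (fderiv ℝ Φ z)) (h1 : HKRel D1 D Φ z) (h2 : HKRel D2 D Φ z) :
    D1.G z = D2.G z ∧ D1.Γ z = D2.Γ z ∧ ∀ a, D1.I a z = D2.I a z := by
  refine ⟨?_, ?_, fun a => ?_⟩
  · refine ContinuousLinearMap.ext fun u => ContinuousLinearMap.ext fun v => ?_
    rw [h1.G, h2.G]
  · refine ContinuousLinearMap.ext fun u => ContinuousLinearMap.ext fun v => hinj ?_
    rw [h1.Γ, h2.Γ]
  · refine ContinuousLinearMap.ext fun v => hinj ?_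
    rw [h1.I, h2.I]

theorem pullRelA_bilinearComp {F : Type} [NormedAddCommGroup F] [NormedSpace ℝ F]
    {B : V' → V →L[ℝ] V →L[ℝ] F} {A : V' → V' →L[ℝ] V} {z : V'}
    (hB : ContDiffAt ℝ ∞ B z) (hA : ContDiffAt ℝ ∞ A z) :
    ContDiffAt ℝ ∞ (fun z => (B z).bilinearComp (A z) (A z)) z := by
  have h1 : ContDiffAt ℝ ∞ (fun z => (B z) ∘L (A z)) z := hB.clm_comp hA
  have h2 : ContDiffAt ℝ ∞ (fun z => ((B z) ∘L (A z)).flip) z :=
    (ContinuousLinearMap.flipₗᵢ ℝ V' V F).contDiff.comp_contDiffAt z h1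
  have h3 : ContDiffAt ℝ ∞ (fun z => ((B z) ∘L (A z)).flip ∘L (A z)) z := h2.clm_comp hA
  exact (ContinuousLinearMap.flipₗᵢ ℝ V' V' F).contDiff.comp_contDiffAt z h3

theorem pull_smooth {D : HKData V} {W : Set V} (h : IsHK D W) {Φ : V' → V} {W' : Set V'}
    (hW' : IsOpen W') (hΦ : ∀ z ∈ W', ContDiffAt ℝ ∞ Φ z)
    (hinv : ∀ z ∈ W', (fderiv ℝ Φ z).IsInvertible) (hmaps : MapsTo Φ W' W) :
    ContDiffOn ℝ ∞ (D.pull Φ).G W' ∧ ContDiffOn ℝ ∞ (D.pull Φ).Γ W' ∧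
      ∀ a, ContDiffOn ℝ ∞ ((D.pull Φ).I a) W' := by
  have hA : ∀ z ∈ W', ContDiffAt ℝ ∞ (fderiv ℝ Φ) z := fun z hz =>
    (hΦ z hz).fderiv_right (m := ∞) (by simp)
  have hAA : ∀ z ∈ W', ContDiffAt ℝ ∞ (fderiv ℝ (fderiv ℝ Φ)) z := fun z hz =>
    (hA z hz).fderiv_right (m := ∞) (by simp)
  have hinvs : ∀ z ∈ W', ContDiffAt ℝ ∞ (fun z => (fderiv ℝ Φ z).inverse) z := fun z hz =>
    ((hinv z hz).contDiffAt_map_inverse).comp z (hA z hz)
  have hG : ∀ z ∈ W', ContDiffAt ℝ ∞ (fun z => D.G (Φ z)) z := fun z hz =>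
    ((h.smoothG.contDiffAt (h.isOpen.mem_nhds (hmaps hz)))).comp z (hΦ z hz)
  have hΓ : ∀ z ∈ W', ContDiffAt ℝ ∞ (fun z => D.Γ (Φ z)) z := fun z hz =>
    ((h.smoothΓ.contDiffAt (h.isOpen.mem_nhds (hmaps hz)))).comp z (hΦ z hz)
  have hI : ∀ a, ∀ z ∈ W', ContDiffAt ℝ ∞ (fun z => D.I a (Φ z)) z := fun a z hz =>
    (((h.smoothI a).contDiffAt (h.isOpen.mem_nhds (hmaps hz)))).comp z (hΦ z hz)
  refine ⟨fun z hz => ContDiffAt.contDiffWithinAt ?_, fun z hz => ContDiffAt.contDiffWithinAt ?_,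
    fun a z hz => ContDiffAt.contDiffWithinAt ?_⟩
  · exact pullRelA_bilinearComp (hG z hz) (hA z hz)
  · have h1 : ContDiffAt ℝ ∞ (fun z => (D.Γ (Φ z)).bilinearComp (fderiv ℝ Φ z) (fderiv ℝ Φ z)
        + fderiv ℝ (fderiv ℝ Φ) z) z :=
      (pullRelA_bilinearComp (hΓ z hz) (hA z hz)).add (hAA z hz)
    have h2 : ContDiffAt ℝ ∞ (fun z => ContinuousLinearMap.compL ℝ V' V V'
        (fderiv ℝ Φ z).inverse) z :=
      (ContinuousLinearMap.compL ℝ V' V V').contDiff.comp_contDiffAt z (hinvs z hz)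
    exact h2.clm_comp h1
  · exact (hinvs z hz).clm_comp ((hI a z hz).clm_comp (hA z hz))

end Pool.Agent.Lib.MP_6c284f_gt
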