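import Pool.Agent.Lib.MP_6c284f_gt.Pull
import Pool.Agent.Lib.MP_6c284f_gt.PullRelA

set_option autoImplicit false
set_option maxSynthPendingDepth 5

/-!
The pullback of hyperkähler data is hyperkähler.
-/

namespace Pool.Agent.Lib.MP_6c284f_gt

open scoped ContDiff Topology
open Set

variable {V : Type} [NormedAddCommGroup V] [NormedSpace ℝ V] [CompleteSpace V]
variable {V' : Type} [NormedAddCommGroup V'] [NormedSpace ℝ V'] [CompleteSpace V']

theorem pullRel_two_le : minSmoothness ℝ 2 ≤ ∞ := by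
  rw [minSmoothness_of_isRCLikeNormedField]
  exact WithTop.coe_le_coe.2 (le_top : (2 : ℕ∞) ≤ ⊤)

theorem isHK_pull {D : HKData V} {W : Set V} (h : IsHK D W) {Φ : V' → V} {W' : Set V'}
    (hW' : IsOpen W') (hΦ : ∀ z ∈ W', ContDiffAt ℝ ∞ Φ z)
    (hinv : ∀ z ∈ W', (fderiv ℝ Φ z).IsInvertible) (hmaps : MapsTo Φ W' W) :
    IsHK (D.pull Φ) W' := by
  have hrel : ∀ z ∈ W', HKRel (D.pull Φ) D Φ z := fun z hz => pull_rel D (hinv z hz)
  have hinj : ∀ z ∈ W', Function.Injective (fderiv ℝ Φ z) := fun z hz => (hinv z hz).injective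
  have hsm := pull_smooth h hW' hΦ hinv hmaps
  have hP : ∀ z ∈ W', HasFDerivAt Φ (fderiv ℝ Φ z) z := fun z hz =>
    ((hΦ z hz).differentiableAt (by simp)).hasFDerivAt
  have hA : ∀ z ∈ W', HasFDerivAt (fderiv ℝ Φ) (fderiv ℝ (fderiv ℝ Φ) z) z := fun z hz =>
    (((hΦ z hz).fderiv_right (m := ∞) (by simp)).differentiableAt (by simp)).hasFDerivAt
  refine ⟨hW', hsm.1, hsm.2.1, hsm.2.2, ?_, ?_, ?_, ?_, ?_, ?_, ?_, ?_, ?_, ?_, ?_⟩
  · intro z hz u v
    rw [(hrel z hz).G, (hrel z hz).G, h.symm _ (hmaps hz)]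
  · intro z hz v hv
    rw [(hrel z hz).G]
    refine h.pos _ (hmaps hz) _ (fun h0 => hv (hinj z hz ?_))
    rw [h0, map_zero]
  · intro z hz u v
    refine hinj z hz ?_
    rw [(hrel z hz).Γ, (hrel z hz).Γ, h.tors _ (hmaps hz),
      (hΦ z hz).isSymmSndFDerivAt pullRel_two_le u v]
  · intro z hz u v w
    have hG' : HasFDerivAt (D.pull Φ).G (fderiv ℝ (D.pull Φ).G z) z :=
      ((hsm.1.contDiffAt (hW'.mem_nhds hz)).differentiableAt (by simp)).hasFDerivAt
    have hG0 : HasFDerivAt D.G (fderiv ℝ D.G (Φ z)) (Φ z) :=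
      ((h.smoothG.contDiffAt (h.isOpen.mem_nhds (hmaps hz))).differentiableAt
        (by simp)).hasFDerivAt
    have hG : HasFDerivAt (fun y => D.G (Φ y)) ((fderiv ℝ D.G (Φ z)).comp (fderiv ℝ Φ z)) z :=
      hG0.comp z (hP z hz)
    have h1 := (hG'.clm_apply (hasFDerivAt_const v z)).clm_apply (hasFDerivAt_const w z)
    have h2 := (hG.clm_apply ((hA z hz).clm_apply (hasFDerivAt_const v z))).clm_apply
      ((hA z hz).clm_apply (hasFDerivAt_const w z))
    have he : (fun y => (D.pull Φ).G y v w) =ᶠ[𝓝 z]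
        (fun y => D.G (Φ y) (fderiv ℝ Φ y v) (fderiv ℝ Φ y w)) := by
      filter_upwards [hW'.mem_nhds hz] with y hy
      exact (hrel y hy).G v w
    have h3 := (h2.congr_of_eventuallyEq he).unique h1
    have h4 := congrArg (fun L => L u) h3
    simp only [add_apply, ContinuousLinearMap.comp_apply,
      ContinuousLinearMap.flip_apply, zero_apply, map_zero, zero_add] at h4
    rw [← h4, (hrel z hz).G, (hrel z hz).G, (hrel z hz).Γ, (hrel z hz).Γ,
      h.compat _ (hmaps hz), map_add, map_add, add_apply]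
    ring
  · intro z hz v
    refine hinj z hz ?_
    rw [(hrel z hz).I, h.I0 _ (hmaps hz)]
  · intro z hz v
    refine hinj z hz ?_
    rw [(hrel z hz).I, (hrel z hz).I, h.I11 _ (hmaps hz), map_neg]
  · intro z hz v
    refine hinj z hz ?_
    rw [(hrel z hz).I, (hrel z hz).I, h.I22 _ (hmaps hz), map_neg]
  · intro z hz v
    refine hinj z hz ?_
    rw [(hrel z hz).I, (hrel z hz).I, (hrel z hz).I, h.I12 _ (hmaps hz)]
  · intro z hz v
    refine hinj z hz ?_
    rw [(hrel z hz).I, (hrel z hz).I, map_neg, (hrel z hz).I, h.I21 _ (hmaps hz)]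
  · intro a z hz u v
    rw [(hrel z hz).G, (hrel z hz).G, (hrel z hz).I, (hrel z hz).I, h.orth a _ (hmaps hz)]
  · intro a z hz u v
    have hI' : HasFDerivAt ((D.pull Φ).I a) (fderiv ℝ ((D.pull Φ).I a) z) z :=
      (((hsm.2.2 a).contDiffAt (hW'.mem_nhds hz)).differentiableAt (by simp)).hasFDerivAt
    have hI0 : HasFDerivAt (D.I a) (fderiv ℝ (D.I a) (Φ z)) (Φ z) :=
      (((h.smoothI a).contDiffAt (h.isOpen.mem_nhds (hmaps hz))).differentiableAt
        (by simp)).hasFDerivAt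
    have hI : HasFDerivAt (fun y => D.I a (Φ y))
        ((fderiv ℝ (D.I a) (Φ z)).comp (fderiv ℝ Φ z)) z := hI0.comp z (hP z hz)
    have h1 := (hA z hz).clm_apply (hI'.clm_apply (hasFDerivAt_const v z))
    have h2 := hI.clm_apply ((hA z hz).clm_apply (hasFDerivAt_const v z))
    have he : (fun y => fderiv ℝ Φ y ((D.pull Φ).I a y v)) =ᶠ[𝓝 z]
        (fun y => D.I a (Φ y) (fderiv ℝ Φ y v)) := by
      filter_upwards [hW'.mem_nhds hz] with y hy
      exact (hrel y hy).I a v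
    have h3 := (h2.congr_of_eventuallyEq he).unique h1
    have h4 := congrArg (fun L => L u) h3
    simp only [add_apply, ContinuousLinearMap.comp_apply,
      ContinuousLinearMap.flip_apply, zero_apply, map_zero, zero_add] at h4
    refine hinj z hz ?_
    have h5 := h.par a _ (hmaps hz) (fderiv ℝ Φ z u) (fderiv ℝ Φ z v)
    have h6 : fderiv ℝ Φ z (fderiv ℝ ((D.pull Φ).I a) z u v) =
        D.I a (Φ z) (fderiv ℝ (fderiv ℝ Φ) z u v)
        + fderiv ℝ (D.I a) (Φ z) (fderiv ℝ Φ z u) (fderiv ℝ Φ z v)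
        - fderiv ℝ (fderiv ℝ Φ) z u ((D.pull Φ).I a z v) := by
      rw [h4]; abel
    rw [map_add, h6, (hrel z hz).Γ, (hrel z hz).I, (hrel z hz).I, (hrel z hz).Γ, map_add, ← h5]
    abel

end Pool.Agent.Lib.MP_6c284f_gt
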