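import Pool.Agent.Lib.MP_6c284f_gt.HK

set_option autoImplicit false
set_option maxSynthPendingDepth 5

/-!
Composition of pullback relations, uniqueness of the connection of a metric.
-/

namespace Pool.Agent.Lib.MP_6c284f_gt

open scoped ContDiff Topology
open Set

variable {V : Type} [NormedAddCommGroup V] [NormedSpace ℝ V]
variable {V' : Type} [NormedAddCommGroup V'] [NormedSpace ℝ V']
variable {V'' : Type} [NormedAddCommGroup V''] [NormedSpace ℝ V'']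

/-- chain rule for the second derivative -/
theorem relComp_snd {Φ : V'' → V'} {Ψ : V' → V} {z : V''} (hΦ : ContDiffAt ℝ ∞ Φ z)
    (hΨ : ContDiffAt ℝ ∞ Ψ (Φ z)) (u v : V'') :
    fderiv ℝ (fderiv ℝ (Ψ ∘ Φ)) z u v =
      fderiv ℝ (fderiv ℝ Ψ) (Φ z) (fderiv ℝ Φ z u) (fderiv ℝ Φ z v)
      + fderiv ℝ Ψ (Φ z) (fderiv ℝ (fderiv ℝ Φ) z u v) := by
  have hP : HasFDerivAt Φ (fderiv ℝ Φ z) z := (hΦ.differentiableAt (by simp)).hasFDerivAt
  have hA : HasFDerivAt (fderiv ℝ Φ) (fderiv ℝ (fderiv ℝ Φ) z) z :=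
    ((hΦ.fderiv_right (m := ∞) (by simp)).differentiableAt (by simp)).hasFDerivAt
  have hB0 : HasFDerivAt (fderiv ℝ Ψ) (fderiv ℝ (fderiv ℝ Ψ) (Φ z)) (Φ z) :=
    ((hΨ.fderiv_right (m := ∞) (by simp)).differentiableAt (by simp)).hasFDerivAt
  have hB : HasFDerivAt (fun y => fderiv ℝ Ψ (Φ y))
      ((fderiv ℝ (fderiv ℝ Ψ) (Φ z)).comp (fderiv ℝ Φ z)) z := hB0.comp z hP
  have h1 := hB.clm_comp hA
  have e1 : ∀ᶠ y in 𝓝 z, DifferentiableAt ℝ Φ y := by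
    filter_upwards [(hΦ.of_le (m := 1) (by simp)).eventually (by simp)] with y hy
    exact hy.differentiableAt (by simp)
  have e2 : ∀ᶠ y in 𝓝 z, DifferentiableAt ℝ Ψ (Φ y) := by
    have : ∀ᶠ x in 𝓝 (Φ z), DifferentiableAt ℝ Ψ x := by
      filter_upwards [(hΨ.of_le (m := 1) (by simp)).eventually (by simp)] with y hy
      exact hy.differentiableAt (by simp)
    exact hΦ.continuousAt.eventually this
  have he : fderiv ℝ (Ψ ∘ Φ) =ᶠ[𝓝 z] (fun y => (fderiv ℝ Ψ (Φ y)).comp (fderiv ℝ Φ y)) := by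
    filter_upwards [e1, e2] with y h1 h2
    exact fderiv_comp y h2 h1
  have h3 := (h1.congr_of_eventuallyEq he).fderiv
  rw [h3]
  simp only [add_apply, ContinuousLinearMap.comp_apply,
    ContinuousLinearMap.flip_apply, ContinuousLinearMap.compL_apply]
  abel

theorem rel_comp {D1 : HKData V''} {D2 : HKData V'} {D3 : HKData V} {Φ : V'' → V'}
    {Ψ : V' → V} {z : V''} (hΦ : ContDiffAt ℝ ∞ Φ z) (hΨ : ContDiffAt ℝ ∞ Ψ (Φ z))
    (h1 : HKRel D1 D2 Φ z) (h2 : HKRel D2 D3 Ψ (Φ z)) : HKRel D1 D3 (Ψ ∘ Φ) z := by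
  have hc : fderiv ℝ (Ψ ∘ Φ) z = (fderiv ℝ Ψ (Φ z)).comp (fderiv ℝ Φ z) :=
    fderiv_comp z (hΨ.differentiableAt (by simp)) (hΦ.differentiableAt (by simp))
  refine ⟨fun u v => ?_, fun u v => ?_, fun a v => ?_⟩
  · rw [hc, h1.G, h2.G]; rfl
  · rw [hc]
    change fderiv ℝ Ψ (Φ z) (fderiv ℝ Φ z (D1.Γ z u v)) = _
    rw [h1.Γ, map_add, h2.Γ, relComp_snd hΦ hΨ]
    simp only [Function.comp_apply, ContinuousLinearMap.comp_apply]
    abel
  · rw [hc]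
    change fderiv ℝ Ψ (Φ z) (fderiv ℝ Φ z (D1.I a z v)) = _
    rw [h1.I, h2.I]; rfl

/-- the relation only depends on the germ of the map -/
theorem rel_congr {D' : HKData V'} {D : HKData V} {Φ Ψ : V' → V} {z : V'}
    (he : Φ =ᶠ[𝓝 z] Ψ) (h : HKRel D' D Φ z) : HKRel D' D Ψ z := by
  have h0 : Φ z = Ψ z := he.eq_of_nhds
  have h1 : fderiv ℝ Φ z = fderiv ℝ Ψ z := he.fderiv_eq
  have h2 : fderiv ℝ (fderiv ℝ Φ) z = fderiv ℝ (fderiv ℝ Ψ) z := he.fderiv.fderiv_eq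
  refine ⟨fun u v => ?_, fun u v => ?_, fun a v => ?_⟩
  · rw [← h0, ← h1]; exact h.G u v
  · rw [← h0, ← h1, ← h2]; exact h.Γ u v
  · rw [← h0, ← h1]; exact h.I a v

/-- a torsion free metric connection is determined by the metric -/
theorem conn_unique {D1 D2 : HKData V} {W : Set V} (h1 : IsHK D1 W) (h2 : IsHK D2 W)
    (hG : ∀ z ∈ W, D1.G z = D2.G z) : ∀ z ∈ W, D1.Γ z = D2.Γ z := by
  intro z hz
  have hd : fderiv ℝ D1.G z = fderiv ℝ D2.G z := by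
    refine Filter.EventuallyEq.fderiv_eq ?_
    filter_upwards [h1.isOpen.mem_nhds hz] with y hy
    exact hG y hy
  have key : ∀ {D : HKData V} (_ : IsHK D W) (u v w : V), 2 * D.G z (D.Γ z u v) w =
      fderiv ℝ D.G z u v w + fderiv ℝ D.G z v u w - fderiv ℝ D.G z w u v := by
    intro D h u v w
    rw [h.compat z hz, h.compat z hz, h.compat z hz, h.symm z hz v (D.Γ z u w),
      h.symm z hz u (D.Γ z v w), h.symm z hz u (D.Γ z w v), h.tors z hz w u, h.tors z hz w v,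
      h.tors z hz v u]
    ring
  refine ContinuousLinearMap.ext fun u => ContinuousLinearMap.ext fun v => ?_
  have h3 : ∀ w, D1.G z (D1.Γ z u v) w = D1.G z (D2.Γ z u v) w := by
    intro w
    have a := key h1 u v w
    have b := key h2 u v w
    rw [hd] at a
    rw [← hG z hz] at b
    linarith
  by_contra hne
  have h4 := h1.pos z hz (D1.Γ z u v - D2.Γ z u v) (sub_ne_zero.2 hne)
  have h5 : D1.G z (D1.Γ z u v - D2.Γ z u v) (D1.Γ z u v - D2.Γ z u v) =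
      D1.G z (D1.Γ z u v) (D1.Γ z u v - D2.Γ z u v)
      - D1.G z (D2.Γ z u v) (D1.Γ z u v - D2.Γ z u v) := by
    rw [(D1.G z).map_sub]; rfl
  rw [h5, h3, sub_self] at h4
  exact lt_irrefl _ h4

/-- being hyperkähler is a local property which only depends on germs -/
theorem isHK_of_local {D : HKData V} {W : Set V} (hW : IsOpen W)
    (h : ∀ z ∈ W, ∃ (D1 : HKData V) (W1 : Set V), z ∈ W1 ∧ W1 ⊆ W ∧ IsHK D1 W1 ∧
      (∀ y ∈ W1, D.G y = D1.G y ∧ D.Γ y = D1.Γ y ∧ ∀ a, D.I a y = D1.I a y)) :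
    IsHK D W := by
  have h' : ∀ z ∈ W, ∃ (D1 : HKData V) (W1 : Set V), z ∈ W1 ∧ IsHK D1 W1 ∧
      D.G z = D1.G z ∧ D.Γ z = D1.Γ z ∧ (∀ a, D.I a z = D1.I a z) ∧
      D.G =ᶠ[𝓝 z] D1.G ∧ D.Γ =ᶠ[𝓝 z] D1.Γ ∧ ∀ a, D.I a =ᶠ[𝓝 z] D1.I a := by
    intro z hz
    obtain ⟨D1, W1, hz1, -, hD1, he⟩ := h z hz
    refine ⟨D1, W1, hz1, hD1, (he z hz1).1, (he z hz1).2.1, (he z hz1).2.2, ?_, ?_, fun a => ?_⟩
    · filter_upwards [hD1.isOpen.mem_nhds hz1] with y hy using (he y hy).1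
    · filter_upwards [hD1.isOpen.mem_nhds hz1] with y hy using (he y hy).2.1
    · filter_upwards [hD1.isOpen.mem_nhds hz1] with y hy using (he y hy).2.2 a
  refine ⟨hW, ?_, ?_, ?_, ?_, ?_, ?_, ?_, ?_, ?_, ?_, ?_, ?_, ?_, ?_⟩
  · intro z hz
    obtain ⟨D1, W1, hz1, hD, -, -, -, eG, -, -⟩ := h' z hz
    exact ((hD.smoothG.contDiffAt (hD.isOpen.mem_nhds hz1)).congr_of_eventuallyEq
      eG).contDiffWithinAt
  · intro z hz
    obtain ⟨D1, W1, hz1, hD, -, -, -, -, eΓ, -⟩ := h' z hz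
    exact ((hD.smoothΓ.contDiffAt (hD.isOpen.mem_nhds hz1)).congr_of_eventuallyEq
      eΓ).contDiffWithinAt
  · intro a z hz
    obtain ⟨D1, W1, hz1, hD, -, -, -, -, -, eI⟩ := h' z hz
    exact (((hD.smoothI a).contDiffAt (hD.isOpen.mem_nhds hz1)).congr_of_eventuallyEq
      (eI a)).contDiffWithinAt
  · intro z hz u v
    obtain ⟨D1, W1, hz1, hD, g, c, i, -⟩ := h' z hz
    rw [g]; exact hD.symm z hz1 u v
  · intro z hz v hv
    obtain ⟨D1, W1, hz1, hD, g, c, i, -⟩ := h' z hz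
    rw [g]; exact hD.pos z hz1 v hv
  · intro z hz u v
    obtain ⟨D1, W1, hz1, hD, g, c, i, -⟩ := h' z hz
    rw [c]; exact hD.tors z hz1 u v
  · intro z hz u v w
    obtain ⟨D1, W1, hz1, hD, g, c, i, eG, -⟩ := h' z hz
    rw [eG.fderiv_eq, g, c]; exact hD.compat z hz1 u v w
  · intro z hz v
    obtain ⟨D1, W1, hz1, hD, g, c, i, -⟩ := h' z hz
    rw [i 0]; exact hD.I0 z hz1 v
  · intro z hz v
    obtain ⟨D1, W1, hz1, hD, g, c, i, -⟩ := h' z hz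
    rw [i 1]; exact hD.I11 z hz1 v
  · intro z hz v
    obtain ⟨D1, W1, hz1, hD, g, c, i, -⟩ := h' z hz
    rw [i 2]; exact hD.I22 z hz1 v
  · intro z hz v
    obtain ⟨D1, W1, hz1, hD, g, c, i, -⟩ := h' z hz
    rw [i 1, i 2, i 3]; exact hD.I12 z hz1 v
  · intro z hz v
    obtain ⟨D1, W1, hz1, hD, g, c, i, -⟩ := h' z hz
    rw [i 1, i 2, i 3]; exact hD.I21 z hz1 v
  · intro a z hz u v
    obtain ⟨D1, W1, hz1, hD, g, c, i, -⟩ := h' z hz
    rw [g, i a]; exact hD.orth a z hz1 u v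
  · intro a z hz u v
    obtain ⟨D1, W1, hz1, hD, g, c, i, -, -, eI⟩ := h' z hz
    rw [(eI a).fderiv_eq, c, i a]; exact hD.par a z hz1 u v

end Pool.Agent.Lib.MP_6c284f_gt
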