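import Pool.Agent.Lib.MP_6c284f_gt.TubeMapB

set_option autoImplicit false
set_option maxSynthPendingDepth 5

/-!
Concatenation of two tube maps.
-/

namespace Pool.Agent.Lib.MP_6c284f_gt

open scoped Manifold ContDiff Topology
open Set

variable {X : Type} [TopologicalSpace X] [ChartedSpace C2 X]

/-- being a tube map is a local property -/
theorem tmC_local {γ : ℝ → X} {L : OpenPartialHomeomorph X C2 → ℝ → E4 →L[ℝ] C2}
    {Θ : E4 → X} {R : Set E4} (hR : IsOpen R)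
    (h : ∀ z ∈ R, ∃ (Φ : E4 → X) (S : Set E4), IsTubeMap γ L Φ S ∧ z ∈ S ∧ Θ =ᶠ[𝓝 z] Φ) :
    IsTubeMap γ L Θ R := by
  refine ⟨hR, ?_, ?_, ?_⟩
  · intro z hz
    obtain ⟨Φ, S, hΦ, hzS, heq⟩ := h z hz
    exact (hΦ.smooth z hzS).congr_of_eventuallyEq heq
  · intro t ht
    obtain ⟨Φ, S, hΦ, hzS, heq⟩ := h _ ht
    rw [heq.eq_of_nhds]
    exact hΦ.axis t hzS
  · intro t ht e he hte
    obtain ⟨Φ, S, hΦ, hzS, heq⟩ := h _ ht
    rw [← hΦ.jet t hzS e he hte]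
    exact (heq.fun_comp e).fderiv_eq

/-- A tube map over `[p, b]` and a tube map over `[a, q]` with `p ≤ a < b ≤ q` can be joined to a
tube map over `[p, q]`, if the overlap `[a, b]` is mapped by `γ` into the domain of one chart. -/
theorem concat_tube (hX : IsManifold 𝓘(ℝ, C2) ∞ X) {γ : ℝ → X}
    {L : OpenPartialHomeomorph X C2 → ℝ → E4 →L[ℝ] C2} (hL : IsJet γ L)
    {Φ Ψ : E4 → X} {S T : Set E4} (hΦ : IsTubeMap γ L Φ S) (hΨ : IsTubeMap γ L Ψ T)
    {e : OpenPartialHomeomorph X C2} (he : e ∈ atlas C2 X) {p a b q : ℝ} (hpa : p ≤ a)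
    (hab : a < b) (hbq : b ≤ q)
    (hS : ∀ t ∈ Icc p b, t • e0 ∈ S) (hT : ∀ t ∈ Icc a q, t • e0 ∈ T)
    (hγ : ∀ t ∈ Icc a b, γ t ∈ e.source) :
    ∃ (Θ : E4 → X) (R : Set E4), IsTubeMap γ L Θ R ∧ (∀ t ∈ Icc p q, t • e0 ∈ R) ∧
      (∀ z ∈ R, z 0 ≤ a → z ∈ S ∧ Θ z = Φ z) ∧
      (∀ z ∈ R, b ≤ z 0 → z ∈ T ∧ Θ z = Ψ z) := by
  obtain ⟨Θ', R', hΘ', haR', hR'ST, hl, hr⟩ := interpolate_tube hX hL hΦ hΨ he hab
    (fun t ht => hS t ⟨hpa.trans ht.1, ht.2⟩) (fun t ht => hT t ⟨ht.1, ht.2.trans hbq⟩) hγ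
  set a' : ℝ := a + (b - a) / 3 with ha'
  set b' : ℝ := b - (b - a) / 3 with hb'
  have haa' : a < a' := by rw [ha']; linarith
  have hab' : a' < b' := by rw [ha', hb']; linarith
  have hbb' : b' < b := by rw [hb']; linarith
  have hproj : Continuous (fun z : E4 => z 0) := by fun_prop
  have ho1 : IsOpen {z : E4 | z 0 < a'} := isOpen_lt hproj continuous_const
  have ho2 : IsOpen {z : E4 | b' < z 0} := isOpen_lt continuous_const hproj
  classical
  set Θ : E4 → X := fun z => if z 0 < a' then Φ z else if b' < z 0 then Ψ z else Θ' z with hΘ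
  set P1 : Set E4 := S ∩ {z : E4 | z 0 < a'} with hP1
  set P3 : Set E4 := T ∩ {z : E4 | b' < z 0} with hP3
  have hΘ1 : ∀ z : E4, z 0 < a' → Θ z = Φ z := fun z hz => by simp only [hΘ, if_pos hz]
  have hΘ3 : ∀ z : E4, b' < z 0 → Θ z = Ψ z := fun z hz => by
    simp only [hΘ]
    rw [if_neg (by linarith), if_pos hz]
  have hΘ2 : ∀ z ∈ R', Θ z = Θ' z := by
    intro z hz
    by_cases h1 : z 0 < a'
    · rw [hΘ1 z h1, hl z hz h1.le]
    · by_cases h3 : b' < z 0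
      · rw [hΘ3 z h3, hr z hz h3.le]
      · simp only [hΘ]
        rw [if_neg h1, if_neg h3]
  refine ⟨Θ, P1 ∪ R' ∪ P3, tmC_local ?_ ?_, ?_, ?_, ?_⟩
  · exact ((hΦ.isOpen.inter ho1).union hΘ'.isOpen).union (hΨ.isOpen.inter ho2)
  · rintro z ((hz | hz) | hz)
    · exact ⟨Φ, S, hΦ, hz.1, by filter_upwards [ho1.mem_nhds hz.2] with y hy using hΘ1 y hy⟩
    · exact ⟨Θ', R', hΘ', hz,
        by filter_upwards [hΘ'.isOpen.mem_nhds hz] with y hy using hΘ2 y hy⟩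
    · exact ⟨Ψ, T, hΨ, hz.1, by filter_upwards [ho2.mem_nhds hz.2] with y hy using hΘ3 y hy⟩
  · intro t ht
    by_cases h1 : t < a'
    · left; left
      exact ⟨hS t ⟨ht.1, by linarith⟩, by simpa only [mem_setOf_eq, tmB_e0] using h1⟩
    · by_cases h3 : b' < t
      · right
        exact ⟨hT t ⟨by linarith, ht.2⟩, by simpa only [mem_setOf_eq, tmB_e0] using h3⟩
      · left; right
        exact haR' t ⟨by linarith, by linarith⟩
  · rintro z ((hz | hz) | hz) hza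
    · exact ⟨hz.1, hΘ1 z hz.2⟩
    · exact ⟨(hR'ST hz).1, by rw [hΘ2 z hz, hl z hz (by linarith)]⟩
    · have := hz.2
      simp only [mem_setOf_eq] at this
      linarith
  · rintro z ((hz | hz) | hz) hzb
    · have := hz.2
      simp only [mem_setOf_eq] at this
      linarith
    · exact ⟨(hR'ST hz).2, by rw [hΘ2 z hz, hr z hz (by linarith)]⟩
    · exact ⟨hz.1, hΘ3 z hz.2⟩

end Pool.Agent.Lib.MP_6c284f_gt
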