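import Pool.Agent.Lib.MP_6c284f_gt.TubeMapA
import Pool.Agent.Lib.MP_6c284f_gt.TubeMapC

set_option autoImplicit false
set_option maxSynthPendingDepth 5

/-!
Existence of tube maps around a closed curve.
-/

namespace Pool.Agent.Lib.MP_6c284f_gt

open scoped Manifold ContDiff Topology
open Set

variable {X : Type} [TopologicalSpace X] [ChartedSpace C2 X]

/-- an open set of `E4` containing an axis point contains the nearby ones -/
theorem tmD_near {S : Set E4} (hS : IsOpen S) {t : ℝ} (ht : t • e0 ∈ S) :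
    ∀ᶠ s : ℝ in 𝓝 t, s • e0 ∈ S := by
  have hc : Continuous (fun s : ℝ => s • e0) := by fun_prop
  exact hc.continuousAt.preimage_mem_nhds (hS.mem_nhds ht)

/-- points near an axis point to the left of `a` -/
theorem tmD_left {R : Set E4} (hR : IsOpen R) {t a : ℝ} (ht : t • e0 ∈ R) (hta : t < a) :
    ∀ᶠ z in 𝓝 (t • e0), z ∈ R ∧ z 0 < a := by
  have hproj : Continuous (fun z : E4 => z 0) := by fun_prop
  have ho1 : IsOpen {z : E4 | z 0 < a} := isOpen_lt hproj continuous_const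
  filter_upwards [hR.mem_nhds ht, ho1.mem_nhds (show (t • e0) 0 < a by rw [tmB_e0]; exact hta)]
    with z h1 h2 using ⟨h1, h2⟩

theorem tmD_right {R : Set E4} (hR : IsOpen R) {t a : ℝ} (ht : t • e0 ∈ R) (hta : a < t) :
    ∀ᶠ z in 𝓝 (t • e0), z ∈ R ∧ a < z 0 := by
  have hproj : Continuous (fun z : E4 => z 0) := by fun_prop
  have ho1 : IsOpen {z : E4 | a < z 0} := isOpen_lt continuous_const hproj
  filter_upwards [hR.mem_nhds ht, ho1.mem_nhds (show a < (t • e0) 0 by rw [tmB_e0]; exact hta)]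
    with z h1 h2 using ⟨h1, h2⟩

/-- extension of a tube map over one chart -/
theorem tmD_step (hX : IsManifold 𝓘(ℝ, C2) ∞ X) {γ : ℝ → X}
    {L : OpenPartialHomeomorph X C2 → ℝ → E4 →L[ℝ] C2} (hL : IsJet γ L)
    {Φ : E4 → X} {S : Set E4} (hΦ : IsTubeMap γ L Φ S) {p x y : ℝ} (hpx : p ≤ x) (hxy : x ≤ y)
    (hS : ∀ t ∈ Icc p x, t • e0 ∈ S) {e : OpenPartialHomeomorph X C2} (he : e ∈ atlas C2 X)
    (hγ : ∀ t ∈ Icc x y, γ t ∈ e.source) :
    ∃ (Θ : E4 → X) (R : Set E4), IsTubeMap γ L Θ R ∧ (∀ t ∈ Icc p y, t • e0 ∈ R) ∧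
      (∀ᶠ z in 𝓝 (p • e0), Θ z = Φ z) := by
  obtain ⟨Ξ, U, hΞ, hU⟩ := chart_tube hX hL he
  have hγc : Continuous γ := hL.smoothγ.continuous
  have h1 : ∀ᶠ s : ℝ in 𝓝 x, s • e0 ∈ S := tmD_near hΦ.isOpen (hS x ⟨hpx, le_rfl⟩)
  have h2 : ∀ᶠ s : ℝ in 𝓝 x, γ s ∈ e.source :=
    hγc.continuousAt.preimage_mem_nhds (e.open_source.mem_nhds (hγ x ⟨le_rfl, hxy⟩))
  obtain ⟨η, hη, hball⟩ := Metric.eventually_nhds_iff.1 (h1.and h2)
  have hb : ∀ s, x ≤ s → s ≤ x + η / 2 → s • e0 ∈ S ∧ γ s ∈ e.source := by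
    intro s hs1 hs2
    refine hball ?_
    rw [Real.dist_eq, abs_of_nonneg (by linarith)]
    linarith
  obtain ⟨Θ, R, hΘ, hR, hl, _⟩ := concat_tube hX hL hΦ hΞ he (p := p) (a := x + η / 4)
    (b := x + η / 2) (q := max y (x + η / 2)) (by linarith) (by linarith) (le_max_right _ _)
    (by
      intro t ht
      rcases le_total t x with h | h
      · exact hS t ⟨ht.1, h⟩
      · exact (hb t h ht.2).1)
    (by
      intro t ht
      refine hU t ?_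
      rcases le_total t (x + η / 2) with h | h
      · exact (hb t (by linarith [ht.1]) h).2
      · rcases le_max_iff.1 ht.2 with h' | h'
        · exact hγ t ⟨by linarith, h'⟩
        · exact (hb t (by linarith [ht.1]) h').2)
    (fun t ht => (hb t (by linarith [ht.1]) ht.2).2)
  refine ⟨Θ, R, hΘ, fun t ht => hR t ⟨ht.1, ht.2.trans (le_max_left _ _)⟩, ?_⟩
  have hpR : p • e0 ∈ R := hR p ⟨le_rfl, (hpx.trans hxy).trans (le_max_left _ _)⟩
  filter_upwards [tmD_left hΘ.isOpen hpR (show p < x + η / 4 by linarith)] with z hz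
  exact (hl z hz.1 hz.2.le).2

/-- Any two tube maps defined near `p • e0` and near `q • e0` extend to a common tube map. -/
theorem connect_tube (hX : IsManifold 𝓘(ℝ, C2) ∞ X) {γ : ℝ → X}
    {L : OpenPartialHomeomorph X C2 → ℝ → E4 →L[ℝ] C2} (hL : IsJet γ L)
    {Φ Ψ : E4 → X} {S T : Set E4} (hΦ : IsTubeMap γ L Φ S) (hΨ : IsTubeMap γ L Ψ T)
    {p q : ℝ} (hpq : p < q) (hS : p • e0 ∈ S) (hT : q • e0 ∈ T) :
    ∃ (Θ : E4 → X) (R : Set E4), IsTubeMap γ L Θ R ∧ (∀ t ∈ Icc p q, t • e0 ∈ R) ∧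
      (∀ᶠ z in 𝓝 (p • e0), Θ z = Φ z) ∧ (∀ᶠ z in 𝓝 (q • e0), Θ z = Ψ z) := by
  have hγc : Continuous γ := hL.smoothγ.continuous
  -- first extend `Φ` over `[p, q]`
  obtain ⟨Θ, R, hΘ, hR, hl⟩ : ∃ (Θ : E4 → X) (R : Set E4), IsTubeMap γ L Θ R ∧
      (∀ t ∈ Icc p q, t • e0 ∈ R) ∧ (∀ᶠ z in 𝓝 (p • e0), Θ z = Φ z) := by
    obtain ⟨t, ht0, htm, ⟨m, hm⟩, hcov⟩ := exists_monotone_Icc_subset_open_cover_Icc (a := p)
      (b := q) hpq.le (ι := X) (c := fun x => (fun s : Icc p q => γ s) ⁻¹' (chartAt C2 x).source)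
      (fun x => (chartAt C2 x).open_source.preimage (hγc.comp continuous_subtype_val))
      (fun s _ => mem_iUnion.2 ⟨γ s, mem_chart_source C2 (γ s)⟩)
    have key : ∀ n, ∃ (Θ : E4 → X) (R : Set E4), IsTubeMap γ L Θ R ∧
        (∀ s ∈ Icc p (t n : ℝ), s • e0 ∈ R) ∧ (∀ᶠ z in 𝓝 (p • e0), Θ z = Φ z) := by
      intro n
      induction n with
      | zero =>
        refine ⟨Φ, S, hΦ, ?_, Filter.Eventually.of_forall fun _ => rfl⟩
        intro s hs
        have h0 : ((t 0 : Icc p q) : ℝ) = p := by rw [ht0]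
        rw [h0, Icc_self, mem_singleton_iff] at hs
        rw [hs]
        exact hS
      | succ n ih =>
        obtain ⟨Θ, R, hΘ, hR, hl⟩ := ih
        obtain ⟨x, hx⟩ := hcov n
        have h1 : (t n : ℝ) ≤ (t (n + 1) : ℝ) := htm (Nat.le_succ n)
        obtain ⟨Θ', R', hΘ', hR', hl'⟩ := tmD_step hX hL hΘ (t n).2.1 h1 hR
          (chart_mem_atlas C2 x) (by
            intro s hs
            have hs' : s ∈ Icc p q := ⟨(t n).2.1.trans hs.1, hs.2.trans (t (n + 1)).2.2⟩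
            exact hx (show (⟨s, hs'⟩ : Icc p q) ∈ Icc (t n) (t (n + 1)) from ⟨hs.1, hs.2⟩))
        refine ⟨Θ', R', hΘ', hR', ?_⟩
        filter_upwards [hl, hl'] with z h1 h2
        rw [h2, h1]
    obtain ⟨Θ, R, hΘ, hR, hl⟩ := key m
    have hq : ((t m : Icc p q) : ℝ) = q := by rw [hm m le_rfl]
    rw [hq] at hR
    exact ⟨Θ, R, hΘ, hR, hl⟩
  -- then concatenate with `Ψ` in a chart at `γ q`
  set e := chartAt C2 (γ q) with he
  have h1 : ∀ᶠ s : ℝ in 𝓝 q, s • e0 ∈ T := tmD_near hΨ.isOpen hT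
  have h2 : ∀ᶠ s : ℝ in 𝓝 q, γ s ∈ e.source :=
    hγc.continuousAt.preimage_mem_nhds (e.open_source.mem_nhds (mem_chart_source C2 (γ q)))
  obtain ⟨η, hη, hball⟩ := Metric.eventually_nhds_iff.1 ((h1.and h2).and (lt_mem_nhds hpq))
  have hb : ∀ s, q - η / 2 ≤ s → s ≤ q → (s • e0 ∈ T ∧ γ s ∈ e.source) ∧ p < s := by
    intro s hs1 hs2
    refine hball ?_
    rw [Real.dist_eq, abs_sub_comm, abs_of_nonneg (by linarith)]
    linarith
  have hpa : p < q - η / 2 := (hb (q - η / 2) le_rfl (by linarith)).2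
  obtain ⟨Θ', R', hΘ', hR', hl', hr'⟩ := concat_tube hX hL hΘ hΨ (chart_mem_atlas C2 (γ q))
    (p := p) (a := q - η / 2) (b := q - η / 4) (q := q) hpa.le (by linarith) (by linarith)
    (fun t ht => hR t ⟨ht.1, by linarith [ht.2]⟩)
    (fun t ht => (hb t ht.1 ht.2).1.1)
    (fun t ht => (hb t ht.1 (by linarith [ht.2])).1.2)
  refine ⟨Θ', R', hΘ', hR', ?_, ?_⟩
  · filter_upwards [tmD_left hΘ'.isOpen (hR' p ⟨le_rfl, hpq.le⟩) hpa, hl] with z hz hz2
    rw [(hl' z hz.1 hz.2.le).2, hz2]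
  · filter_upwards [tmD_right hΘ'.isOpen (hR' q ⟨hpq.le, le_rfl⟩)
      (show q - η / 4 < q by linarith)] with z hz
    exact (hr' z hz.1 hz.2.le).2

/-- A closed curve has a tube map which is periodic near the ends. -/
theorem exists_tubeMap (hX : IsManifold 𝓘(ℝ, C2) ∞ X) {γ : ℝ → X}
    {L : OpenPartialHomeomorph X C2 → ℝ → E4 →L[ℝ] C2} (hL : IsJet γ L)
    (hγ : ∀ t, γ (t + 1) = γ t) (hper : ∀ e ∈ atlas C2 X, ∀ t, γ t ∈ e.source →
      L e (t + 1) = L e t) :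
    ∃ (Φ : E4 → X) (S : Set E4) (ε : ℝ), 0 < ε ∧ IsTubeMap γ L Φ S ∧
      (∀ t ∈ Ioo (-ε) (1 + ε), t • e0 ∈ S) ∧
      (∀ z : E4, ‖z‖ < ε → z ∈ S ∧ z + e0 ∈ S ∧ Φ (z + e0) = Φ z) := by
  obtain ⟨Φ, S, hΦ, hS⟩ := chart_tube hX hL (chart_mem_atlas C2 (γ 0))
  have hS0 : (0 : ℝ) • e0 ∈ S := hS 0 (mem_chart_source C2 (γ 0))
  set Ψ : E4 → X := fun z => Φ (z - e0) with hΨdef
  set T : Set E4 := (fun z => z - e0) ⁻¹' S with hTdef
  have hsub : ContDiff ℝ ∞ (fun z : E4 => z - e0) := contDiff_id.sub contDiff_const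
  have hsm : ∀ t : ℝ, t • e0 - e0 = (t - 1) • e0 := fun t => by rw [sub_smul, one_smul]
  have hγ' : ∀ t, γ (t - 1) = γ t := fun t => by rw [← hγ (t - 1), sub_add_cancel]
  have hΨ : IsTubeMap γ L Ψ T := by
    refine ⟨hΦ.isOpen.preimage hsub.continuous, ?_, ?_, ?_⟩
    · intro z hz
      exact ContMDiffAt.comp z (hΦ.smooth (z - e0) hz) hsub.contMDiff.contMDiffAt
    · intro t ht
      rw [hTdef, mem_preimage, hsm] at ht
      simp only [hΨdef, hsm, hΦ.axis _ ht, hγ']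
    · intro t ht e he hte
      rw [hTdef, mem_preimage, hsm] at ht
      have h1 := hΦ.jet (t - 1) ht e he (by rwa [hγ'])
      have h2 : fderiv ℝ (e ∘ Ψ) (t • e0) = fderiv ℝ (e ∘ Φ) (t • e0 - e0) := by
        have : (e ∘ Ψ) = fun z => (e ∘ Φ) (z - e0) := rfl
        rw [this, fderiv_comp_sub]
      rw [h2, hsm, h1, ← hper e he (t - 1) (by rwa [hγ']), sub_add_cancel]
  have hT1 : (1 : ℝ) • e0 ∈ T := by
    rw [hTdef, mem_preimage, hsm, sub_self]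
    exact hS0
  obtain ⟨Θ, R, hΘ, hR, hl, hr⟩ := connect_tube hX hL hΦ hΨ zero_lt_one hS0 hT1
  have e1 : ∀ᶠ z in 𝓝 (0 : E4), z ∈ R ∧ Θ z = Φ z := by
    have h0 := hR 0 ⟨le_rfl, zero_le_one⟩
    rw [zero_smul] at hl h0
    have h0' : ∀ᶠ z in 𝓝 (0 : E4), z ∈ R := hΘ.isOpen.mem_nhds h0
    exact h0'.and hl
  have e2 : ∀ᶠ z in 𝓝 (e0 : E4), z ∈ R ∧ Θ z = Ψ z := by
    have h0 := hR 1 ⟨zero_le_one, le_rfl⟩
    rw [one_smul] at hr h0
    have h0' : ∀ᶠ z in 𝓝 (e0 : E4), z ∈ R := hΘ.isOpen.mem_nhds h0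
    exact h0'.and hr
  obtain ⟨ε₁, hε₁, hb1⟩ := Metric.eventually_nhds_iff.1 e1
  obtain ⟨ε₂, hε₂, hb2⟩ := Metric.eventually_nhds_iff.1 e2
  have hn : ‖(e0 : E4)‖ = 1 := by simp [e0]
  refine ⟨Θ, R, min ε₁ ε₂, lt_min hε₁ hε₂, hΘ, ?_, ?_⟩
  · intro t ht
    rcases lt_or_ge t 0 with h | h
    · refine (hb1 (y := t • e0) ?_).1
      rw [dist_zero_right, norm_smul, hn, mul_one, Real.norm_eq_abs, abs_of_neg h]
      have := min_le_left ε₁ ε₂
      linarith [ht.1]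
    · rcases le_or_gt t 1 with h' | h'
      · exact hR t ⟨h, h'⟩
      · refine (hb2 (y := t • e0) ?_).1
        rw [dist_eq_norm, hsm, norm_smul, hn, mul_one, Real.norm_eq_abs,
          abs_of_pos (by linarith)]
        have := min_le_right ε₁ ε₂
        linarith [ht.2]
  · intro z hz
    have h1 := hb1 (y := z) (by rw [dist_zero_right]; exact hz.trans_le (min_le_left _ _))
    have h2 := hb2 (y := z + e0) (by
      rw [dist_eq_norm, add_sub_cancel_right]; exact hz.trans_le (min_le_right _ _))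
    refine ⟨h1.1, h2.1, ?_⟩
    rw [h2.2, h1.2]
    simp only [hΨdef, add_sub_cancel_right]

end Pool.Agent.Lib.MP_6c284f_gt
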