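import Pool.Agent.Lib.MP_6c284f_gt.ManTubeA
import Pool.Agent.Lib.MP_6c284f_gt.PullRel
import Pool.Agent.Lib.MP_6c284f_gt.RelComp
import Pool.Agent.Lib.MP_6c284f_gt.TubeMapD
import Pool.Agent.Lib.MP_6c284f_gt.ChartLemmas

set_option autoImplicit false
set_option maxSynthPendingDepth 5

/-!
Pullback of the hyperkähler data of a manifold by a local diffeomorphism from `E4`.
-/

namespace Pool.Agent.Lib.MP_6c284f_gt

open scoped Manifold ContDiff Topology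
open Set

variable {X : Type} [TopologicalSpace X] [ChartedSpace C2 X]

/-- the pullback of the data by the map `Φ`, computed in the preferred chart at each point -/
noncomputable def ManHK.pullMap (M : ManHK X) (Φ : E4 → X) : HKData E4 where
  G z := ((M.D (chartAt C2 (Φ z))).pull (chartAt C2 (Φ z) ∘ Φ)).G z
  Γ z := ((M.D (chartAt C2 (Φ z))).pull (chartAt C2 (Φ z) ∘ Φ)).Γ z
  I a z := ((M.D (chartAt C2 (Φ z))).pull (chartAt C2 (Φ z) ∘ Φ)).I a z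

/-- the pullback may be computed in any chart -/
theorem pullMap_rel (hX : IsManifold 𝓘(ℝ, C2) ∞ X) (M : ManHK X) {Φ : E4 → X} {z : E4}
    (hΦ : ContMDiffAt 𝓘(ℝ, E4) 𝓘(ℝ, C2) ∞ Φ z)
    (hinv : ∀ e ∈ atlas C2 X, Φ z ∈ e.source → (fderiv ℝ (e ∘ Φ) z).IsInvertible)
    {e : OpenPartialHomeomorph X C2} (he : e ∈ atlas C2 X) (hz : Φ z ∈ e.source) :
    HKRel (M.pullMap Φ) (M.D e) (e ∘ Φ) z := by
  have hcA : chartAt C2 (Φ z) ∈ atlas C2 X := chart_mem_atlas C2 (Φ z)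
  have hcs : Φ z ∈ (chartAt C2 (Φ z)).source := mem_chart_source C2 (Φ z)
  have h0 := pull_rel (M.D (chartAt C2 (Φ z))) (hinv _ hcA hcs)
  have h1 : HKRel (M.pullMap Φ) (M.D (chartAt C2 (Φ z))) (chartAt C2 (Φ z) ∘ Φ) z :=
    ⟨h0.G, h0.Γ, h0.I⟩
  have h2 : HKRel (M.D (chartAt C2 (Φ z))) (M.D e) (e ∘ (chartAt C2 (Φ z)).symm)
      ((chartAt C2 (Φ z) ∘ Φ) z) := M.rel _ hcA _ he _ ⟨hcs, hz⟩
  have h3 := rel_comp (mt_chart_smooth hX hΦ hcA hcs) (mt_trans hX hcA he hcs hz) h1 h2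
  refine rel_congr ?_ h3
  have h4 : ∀ᶠ y in 𝓝 z, Φ y ∈ (chartAt C2 (Φ z)).source :=
    hΦ.continuousAt.eventually_mem ((chartAt C2 (Φ z)).open_source.mem_nhds hcs)
  filter_upwards [h4] with y hy
  show e ((chartAt C2 (Φ z)).symm (chartAt C2 (Φ z) (Φ y))) = e (Φ y)
  rw [(chartAt C2 (Φ z)).left_inv hy]

theorem isHK_pullMap (hX : IsManifold 𝓘(ℝ, C2) ∞ X) (M : ManHK X) {Φ : E4 → X} {W : Set E4}
    (hW : IsOpen W) (hΦ : ∀ z ∈ W, ContMDiffAt 𝓘(ℝ, E4) 𝓘(ℝ, C2) ∞ Φ z)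
    (hinv : ∀ z ∈ W, ∀ e ∈ atlas C2 X, Φ z ∈ e.source → (fderiv ℝ (e ∘ Φ) z).IsInvertible) :
    IsHK (M.pullMap Φ) W := by
  refine isHK_of_local hW fun z hz => ?_
  have hcA : chartAt C2 (Φ z) ∈ atlas C2 X := chart_mem_atlas C2 (Φ z)
  have hcs : Φ z ∈ (chartAt C2 (Φ z)).source := mem_chart_source C2 (Φ z)
  have hcont : ContinuousOn Φ W := fun y hy => (hΦ y hy).continuousAt.continuousWithinAt
  have hopen : IsOpen (W ∩ Φ ⁻¹' (chartAt C2 (Φ z)).source) :=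
    hcont.isOpen_inter_preimage hW (chartAt C2 (Φ z)).open_source
  refine ⟨(M.D (chartAt C2 (Φ z))).pull (chartAt C2 (Φ z) ∘ Φ),
    W ∩ Φ ⁻¹' (chartAt C2 (Φ z)).source, ⟨hz, hcs⟩, inter_subset_left, ?_, ?_⟩
  · refine isHK_pull (M.isHK _ hcA) hopen (fun y hy => ?_) (fun y hy => ?_) (fun y hy => ?_)
    · exact mt_chart_smooth hX (hΦ y hy.1) hcA hy.2
    · exact hinv y hy.1 _ hcA hy.2
    · exact (chartAt C2 (Φ z)).map_source hy.2
  · intro y hy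
    have hi := hinv y hy.1 _ hcA hy.2
    exact rel_unique hi.injective (pullMap_rel hX M (hΦ y hy.1) (hinv y hy.1) hcA hy.2)
      (pull_rel _ hi)

/-- the pullback is periodic where `Φ` is -/
theorem pullMap_periodic (M : ManHK X) {Φ : E4 → X} {z : E4}
    (h : ∀ᶠ y in 𝓝 z, Φ (y + e0) = Φ y) :
    (M.pullMap Φ).G (z + e0) = (M.pullMap Φ).G z ∧
      (M.pullMap Φ).Γ (z + e0) = (M.pullMap Φ).Γ z ∧
      ∀ a, (M.pullMap Φ).I a (z + e0) = (M.pullMap Φ).I a z := by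
  have h0 : Φ (z + e0) = Φ z := h.self_of_nhds
  set e := chartAt C2 (Φ z) with he
  set f : E4 → C2 := e ∘ Φ with hf
  have hf0 : f (z + e0) = f z := congrArg e h0
  have h1 : (fun y => f (y + e0)) =ᶠ[𝓝 z] f := by
    filter_upwards [h] with y hy
    exact congrArg e hy
  have h2 : fderiv ℝ f (z + e0) = fderiv ℝ f z := by
    rw [← h1.fderiv_eq, fderiv_comp_add_right]
  have h3 : (fun y => fderiv ℝ f (y + e0)) =ᶠ[𝓝 z] fderiv ℝ f := by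
    filter_upwards [h1.fderiv (𝕜 := ℝ)] with y hy
    rw [← hy, fderiv_comp_add_right]
  have h4 : fderiv ℝ (fderiv ℝ f) (z + e0) = fderiv ℝ (fderiv ℝ f) z := by
    rw [← h3.fderiv_eq, fderiv_comp_add_right (f := fderiv ℝ f)]
  refine ⟨?_, ?_, fun a => ?_⟩
  · show ((M.D (chartAt C2 (Φ (z + e0)))).pull (chartAt C2 (Φ (z + e0)) ∘ Φ)).G (z + e0)
      = ((M.D (chartAt C2 (Φ z))).pull (chartAt C2 (Φ z) ∘ Φ)).G z
    rw [h0, ← he, ← hf]
    show ((M.D e).G (f (z + e0))).bilinearComp (fderiv ℝ f (z + e0)) (fderiv ℝ f (z + e0))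
      = ((M.D e).G (f z)).bilinearComp (fderiv ℝ f z) (fderiv ℝ f z)
    rw [hf0, h2]
  · show ((M.D (chartAt C2 (Φ (z + e0)))).pull (chartAt C2 (Φ (z + e0)) ∘ Φ)).Γ (z + e0)
      = ((M.D (chartAt C2 (Φ z))).pull (chartAt C2 (Φ z) ∘ Φ)).Γ z
    rw [h0, ← he, ← hf]
    show ContinuousLinearMap.compL ℝ E4 C2 E4 (fderiv ℝ f (z + e0)).inverse ∘L
        (((M.D e).Γ (f (z + e0))).bilinearComp (fderiv ℝ f (z + e0)) (fderiv ℝ f (z + e0))
          + fderiv ℝ (fderiv ℝ f) (z + e0))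
      = ContinuousLinearMap.compL ℝ E4 C2 E4 (fderiv ℝ f z).inverse ∘L
        (((M.D e).Γ (f z)).bilinearComp (fderiv ℝ f z) (fderiv ℝ f z)
          + fderiv ℝ (fderiv ℝ f) z)
    rw [hf0, h2, h4]
  · show ((M.D (chartAt C2 (Φ (z + e0)))).pull (chartAt C2 (Φ (z + e0)) ∘ Φ)).I a (z + e0)
      = ((M.D (chartAt C2 (Φ z))).pull (chartAt C2 (Φ z) ∘ Φ)).I a z
    rw [h0, ← he, ← hf]
    show (fderiv ℝ f (z + e0)).inverse ∘L ((M.D e).I a (f (z + e0)) ∘L fderiv ℝ f (z + e0))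
      = (fderiv ℝ f z).inverse ∘L ((M.D e).I a (f z) ∘L fderiv ℝ f z)
    rw [hf0, h2]

end Pool.Agent.Lib.MP_6c284f_gt
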