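import Pool.Agent.Lib.MP_6c284f_gt.ManTubeA
import Pool.Agent.Lib.MP_6c284f_gt.PullRel
import Pool.Agent.Lib.MP_6c284f_gt.RelComp
import Pool.Agent.Lib.MP_6c284f_gt.TubeMapD
import Pool.Agent.Lib.MP_6c284f_gt.ManTubeBA
import Pool.Agent.Lib.MP_6c284f_gt.FrameA
import Pool.Agent.Lib.MP_6c284f_gt.ChartLemmas

set_option autoImplicit false
set_option maxSynthPendingDepth 5

/-!
Pullback of the hyperkähler data of a manifold by a local diffeomorphism from `E4`.
-/

namespace Pool.Agent.Lib.MP_6c284f_gt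

open scoped Manifold ContDiff Topology
open Set

variable {X : Type} [TopologicalSpace X] [ChartedSpace C2 X]

theorem mb_finrank : Module.finrank ℝ C2 = 4 := by
  rw [Module.finrank_pi_fintype]
  simp [Complex.finrank_real_complex]

theorem mb_frame_inner {D : HKData C2} {W : Set C2} (h : IsHK D W) {p : C2} (hp : p ∈ W)
    (v : C2) (x y : E4) :
    D.G p (frameMap D p v x) (frameMap D p v y) = D.G p v v * inner ℝ x y := by
  rw [frameMap_apply, frameMap_apply]
  simp only [map_sum, map_smul, sum_apply, smul_apply]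
  have h1 : ∀ a b : Fin 4, D.G p (D.I a p v) (D.I b p v) =
      if a = b then D.G p v v else 0 := by
    intro a b
    by_cases hab : a = b
    · subst hab
      simp [h.orth a p hp]
    · simp [hab, I_orth h hp hab v]
  simp only [h1]
  simp only [PiLp.inner_apply, RCLike.inner_apply, conj_trivial, Finset.mul_sum, smul_eq_mul]
  simp only [mul_ite, mul_zero, Finset.sum_ite_eq', Finset.mem_univ, if_true]
  refine Finset.sum_congr rfl fun a _ => ?_
  ring

theorem mb_frame_inv {D : HKData C2} {W : Set C2} (h : IsHK D W) {p : C2} (hp : p ∈ W)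
    {v : C2} (hv : 0 < D.G p v v) : (frameMap D p v).IsInvertible := by
  have hinj : Function.Injective (frameMap D p v) := by
    rw [injective_iff_map_eq_zero]
    intro x hx
    have h1 := mb_frame_inner h hp v x x
    rw [hx] at h1
    simp only [map_zero] at h1
    have h2 : inner ℝ x x = (0 : ℝ) := by
      rcases mul_eq_zero.1 h1.symm with h3 | h3
      · exact absurd h3 hv.ne'
      · exact h3
    exact inner_self_eq_zero.1 h2
  have hdim : Module.finrank ℝ E4 = Module.finrank ℝ C2 := by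
    rw [mb_finrank]; simp
  have hbij : Function.Bijective (frameMap D p v : E4 →ₗ[ℝ] C2) :=
    ⟨hinj, (LinearMap.injective_iff_surjective_of_finrank_eq_finrank hdim).1 hinj⟩
  refine ⟨(LinearEquiv.ofBijective (frameMap D p v : E4 →ₗ[ℝ] C2) hbij).toContinuousLinearEquiv,
    ?_⟩
  ext x : 1
  rfl

/-- metric and connection on the axis -/
theorem pullMap_axis (hX : IsManifold 𝓘(ℝ, C2) ∞ X) (M : ManHK X) {γ : ℝ → X}
    (hγ : ContMDiff 𝓘(ℝ, ℝ) 𝓘(ℝ, C2) ∞ γ) (hgeo : IsManGeod M γ) {lam : ℝ} (hlam : 0 < lam)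
    (hspeed : ∀ e ∈ atlas C2 X, ∀ t, γ t ∈ e.source →
      (M.D e).G (e (γ t)) (deriv (e ∘ γ) t) (deriv (e ∘ γ) t) = lam)
    {Φ : E4 → X} {S : Set E4} (hΦ : IsTubeMap γ (frameJet M γ) Φ S) {t : ℝ}
    (ht : t • e0 ∈ S) :
    (∀ e ∈ atlas C2 X, Φ (t • e0) ∈ e.source →
      (fderiv ℝ (e ∘ Φ) (t • e0)).IsInvertible) ∧
    (∀ v w, (M.pullMap Φ).G (t • e0) v w = lam * inner ℝ v w) ∧
    (∀ v, (M.pullMap Φ).Γ (t • e0) e0 v = 0) := by
  have hinv : ∀ e ∈ atlas C2 X, Φ (t • e0) ∈ e.source →
      (fderiv ℝ (e ∘ Φ) (t • e0)).IsInvertible := by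
    intro e he hs
    have hs' : γ t ∈ e.source := by rwa [← hΦ.axis t ht]
    rw [hΦ.jet t ht e he hs']
    exact mb_frame_inv (M.isHK e he) (e.map_source hs') (by rw [hspeed e he t hs']; exact hlam)
  set e := chartAt C2 (Φ (t • e0)) with he
  have heA : e ∈ atlas C2 X := chart_mem_atlas C2 _
  have hes : Φ (t • e0) ∈ e.source := mem_chart_source C2 _
  have hes' : γ t ∈ e.source := by rwa [← hΦ.axis t ht]
  have hsm := hΦ.smooth (t • e0) ht
  have hrel := pullMap_rel hX M hsm hinv heA hes
  have hjet := hΦ.jet t ht e heA hes'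
  have hpt : (e ∘ Φ) (t • e0) = e (γ t) := by
    show e (Φ (t • e0)) = e (γ t)
    rw [hΦ.axis t ht]
  have hK := M.isHK e heA
  have hpW : e (γ t) ∈ e.target := e.map_source hes'
  refine ⟨hinv, ?_, ?_⟩
  · intro v w
    rw [hrel.G, hjet, hpt]
    unfold frameJet
    rw [mb_frame_inner hK hpW, hspeed e heA t hes']
  · intro v
    have hinjA : Function.Injective (fderiv ℝ (e ∘ Φ) (t • e0)) := by
      obtain ⟨L, hL⟩ := hinv e heA hes
      rw [← hL]
      exact L.injective
    apply hinjA
    rw [map_zero, hrel.Γ e0 v, hjet, hpt]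
    -- the curve in the chart
    set c : ℝ → C2 := e ∘ γ with hc
    have hcsm : ContDiffAt ℝ ∞ c t := by
      have h1 : ContMDiffAt 𝓘(ℝ, C2) 𝓘(ℝ, C2) ∞ e (γ t) :=
        contMDiffAt_of_mem_maximalAtlas (IsManifold.subset_maximalAtlas heA) hes'
      exact (ContMDiffAt.comp t h1 (hγ t)).contDiffAt
    have hc1 : HasDerivAt c (deriv c t) t :=
      (hcsm.differentiableAt (by simp)).hasDerivAt
    have hc2 : HasDerivAt (deriv c) (deriv (deriv c) t) t := by
      have h1 : ContDiffAt ℝ 1 (fderiv ℝ c) t := hcsm.fderiv_right (by decide)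
      have h2 : DifferentiableAt ℝ (fun s => fderiv ℝ c s 1) t :=
        (h1.differentiableAt (by simp)).clm_apply (differentiableAt_const _)
      have h3 : (fun s => fderiv ℝ c s 1) = deriv c := funext fun s => fderiv_apply_one_eq_deriv
      rw [h3] at h2
      exact h2.hasDerivAt
    -- derivative of the frame along the curve
    have hI : ∀ a, HasDerivAt (fun s => (M.D e).I a (c s) (deriv c s))
        (-(M.D e).Γ (c t) (deriv c t) ((M.D e).I a (c t) (deriv c t))) t := by
      intro a
      have h1 : DifferentiableAt ℝ ((M.D e).I a) (c t) :=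
        (((hK.smoothI a).contDiffAt (hK.isOpen.mem_nhds hpW)).differentiableAt (by simp))
      have h2 : HasDerivAt (fun s => (M.D e).I a (c s))
          (fderiv ℝ ((M.D e).I a) (c t) (deriv c t)) t :=
        h1.hasFDerivAt.comp_hasDerivAt t hc1
      have h3 := h2.clm_apply hc2
      have h4 := hK.par a (c t) hpW (deriv c t) (deriv c t)
      have h6 : deriv (deriv c) t = -(M.D e).Γ (c t) (deriv c t) (deriv c t) :=
        hgeo e heA t hes'
      have h7 : -(M.D e).Γ (c t) (deriv c t) ((M.D e).I a (c t) (deriv c t)) =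
          fderiv ℝ ((M.D e).I a) (c t) (deriv c t) (deriv c t)
            + (M.D e).I a (c t) (deriv (deriv c) t) := by
        rw [h6, map_neg, ← h4]
        abel
      rw [h7]
      exact h3
    have hsum : HasDerivAt (fun s => frameMap (M.D e) (c s) (deriv c s) v)
        (-(M.D e).Γ (c t) (deriv c t) (frameMap (M.D e) (c t) (deriv c t) v)) t := by
      have h1 : HasDerivAt (fun s => ∑ a, v a • (M.D e).I a (c s) (deriv c s))
          (∑ a, v a • (-(M.D e).Γ (c t) (deriv c t) ((M.D e).I a (c t) (deriv c t)))) t :=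
        HasDerivAt.fun_sum fun a _ => (hI a).const_smul (v a)
      have h2 : (fun s => frameMap (M.D e) (c s) (deriv c s) v) =
          fun s => ∑ a, v a • (M.D e).I a (c s) (deriv c s) :=
        funext fun s => frameMap_apply _ _ _ _
      rw [h2, frameMap_apply]
      convert h1 using 1
      simp only [map_sum, map_smul, smul_neg, Finset.sum_neg_distrib]
    have hline : HasDerivAt (fun s : ℝ => s • e0) e0 t := by
      have := (hasDerivAt_id t).smul_const e0
      simpa using this
    have hD2 : HasDerivAt (fun s : ℝ => fderiv ℝ (e ∘ Φ) (s • e0) v)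
        (fderiv ℝ (fderiv ℝ (e ∘ Φ)) (t • e0) e0 v) t := by
      have h1 := mt_chart_smooth hX hsm heA hes
      have h2 : DifferentiableAt ℝ (fderiv ℝ (e ∘ Φ)) (t • e0) :=
        (h1.fderiv_right (m := 1) (by decide)).differentiableAt (by simp)
      have h3 : HasDerivAt (fun s : ℝ => fderiv ℝ (e ∘ Φ) (s • e0))
          (fderiv ℝ (fderiv ℝ (e ∘ Φ)) (t • e0) e0) t :=
        HasFDerivAt.comp_hasDerivAt (l := fderiv ℝ (e ∘ Φ)) (f := fun s : ℝ => s • e0) t
          h2.hasFDerivAt hline
      have h4 := h3.clm_apply (hasDerivAt_const t v)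
      simpa using h4
    have heq : (fun s : ℝ => fderiv ℝ (e ∘ Φ) (s • e0) v) =ᶠ[𝓝 t]
        fun s => frameMap (M.D e) (c s) (deriv c s) v := by
      have h1 : ∀ᶠ s in 𝓝 t, s • e0 ∈ S :=
        (continuous_id.smul continuous_const).continuousAt.eventually_mem
          (hΦ.isOpen.mem_nhds ht)
      have h2 : ∀ᶠ s in 𝓝 t, γ s ∈ e.source :=
        hγ.continuous.continuousAt.eventually_mem (e.open_source.mem_nhds hes')
      filter_upwards [h1, h2] with s hs1 hs2
      rw [hΦ.jet s hs1 e heA hs2]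
      rfl
    have hfin := (hsum.congr_of_eventuallyEq heq).unique hD2
    rw [← hfin]
    have h0 : frameJet M γ e t e0 = deriv c t := by
      unfold frameJet
      rw [frameMap_apply]
      have h1 : ∀ a : Fin 4, e0 a = if a = 0 then 1 else 0 := by
        intro a
        simp [e0]
      simp only [h1, ite_smul, one_smul, zero_smul, Finset.sum_ite_eq', Finset.mem_univ, if_true]
      exact hK.I0 _ hpW _
    rw [h0]
    show (M.D e).Γ (e (γ t)) (deriv c t) (frameMap (M.D e) (e (γ t)) (deriv c t) v) +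
      -(M.D e).Γ (e (γ t)) (deriv c t) (frameMap (M.D e) (e (γ t)) (deriv c t) v) = 0
    exact add_neg_cancel _

end Pool.Agent.Lib.MP_6c284f_gt
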