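import Pool.Agent.Lib.MP_6c284f_gt.ManTubeB
import Pool.Agent.Lib.MP_6c284f_gt.ChartLemmas

set_option autoImplicit false
set_option maxSynthPendingDepth 5

/-!
The tube around a closed geodesic of a hyperkähler manifold.
-/

namespace Pool.Agent.Lib.MP_6c284f_gt

open scoped Manifold ContDiff Topology
open Set Metric

variable {X : Type} [TopologicalSpace X] [ChartedSpace C2 X]

/-- rescaling of the metric -/
noncomputable def HKData.scale (D : HKData E4) (r : ℝ) : HKData E4 where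
  G z := r • D.G z
  Γ := D.Γ
  I := D.I

theorem isHK_scale {D : HKData E4} {W : Set E4} (h : IsHK D W) {r : ℝ} (hr : 0 < r) :
    IsHK (D.scale r) W where
  isOpen := h.isOpen
  smoothG := h.smoothG.const_smul r
  smoothΓ := h.smoothΓ
  smoothI := h.smoothI
  symm z hz u v := by
    show r * D.G z u v = r * D.G z v u
    rw [h.symm z hz]
  pos z hz v hv := mul_pos hr (h.pos z hz v hv)
  tors := h.tors
  compat z hz u v w := by
    have h1 : DifferentiableAt ℝ D.G z :=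
      (h.smoothG.contDiffAt (h.isOpen.mem_nhds hz)).differentiableAt (by simp)
    have h2 : fderiv ℝ (fun y => r • D.G y) z = r • fderiv ℝ D.G z := fderiv_const_smul h1 r
    show fderiv ℝ (fun y => r • D.G y) z u v w = r * D.G z (D.Γ z u v) w
      + r * D.G z v (D.Γ z u w)
    rw [h2]
    show r * fderiv ℝ D.G z u v w = _
    rw [h.compat z hz]
    ring
  I0 := h.I0
  I11 := h.I11
  I22 := h.I22
  I12 := h.I12
  I21 := h.I21
  orth a z hz u v := by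
    show r * D.G z (D.I a z u) (D.I a z v) = r * D.G z u v
    rw [h.orth a z hz]
  par := h.par

theorem exists_tube (hX : IsManifold 𝓘(ℝ, C2) ∞ X) (M : ManHK X) {γ : ℝ → X}
    (hγ : ContMDiff 𝓘(ℝ, ℝ) 𝓘(ℝ, C2) ∞ γ) (hper : ∀ t, γ (t + 1) = γ t)
    (hgeo : IsManGeod M γ) (hnc : ¬ ∃ x, ∀ t, γ t = x) :
    ∃ (lam ε : ℝ) (W : Set E4) (Φ : E4 → X), 0 < lam ∧
      (∀ e ∈ atlas C2 X, ∀ t, γ t ∈ e.source →
        (M.D e).G (e (γ t)) (deriv (e ∘ γ) t) (deriv (e ∘ γ) t) = lam) ∧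
      IsTube ((M.pullMap Φ).scale lam⁻¹) W ε ∧ IsHK (M.pullMap Φ) W ∧
      (∀ z ∈ W, ContMDiffAt 𝓘(ℝ, E4) 𝓘(ℝ, C2) ∞ Φ z) ∧
      (∀ z ∈ W, ∀ e ∈ atlas C2 X, Φ z ∈ e.source →
        HKRel (M.pullMap Φ) (M.D e) (e ∘ Φ) z ∧ (fderiv ℝ (e ∘ Φ) z).IsInvertible) ∧
      (∀ t ∈ Ioo (-ε) (1 + ε), Φ (t • e0) = γ t) ∧
      (∀ z, ‖z‖ < ε → Φ (z + e0) = Φ z) := by
  obtain ⟨lam, hlam, hspeed⟩ := man_speed_const hX M hγ hgeo hnc
  obtain ⟨Φ, S, ε₀, hε₀, hΦ, haxis, hΦper⟩ := exists_tubeMap hX (isJet_frameJet hX M hγ) hper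
    (fun e _ t _ => frameJet_periodic M hper e t)
  set W : Set E4 := {z | z ∈ S ∧ ∀ e ∈ atlas C2 X, Φ z ∈ e.source →
    (fderiv ℝ (e ∘ Φ) z).IsInvertible} with hW
  have hWopen : IsOpen W := by
    rw [isOpen_iff_mem_nhds]
    intro z hz
    set e := chartAt C2 (Φ z) with he
    have heA : e ∈ atlas C2 X := chart_mem_atlas C2 (Φ z)
    have hes : Φ z ∈ e.source := mem_chart_source C2 (Φ z)
    have h1 : ∀ᶠ y in 𝓝 z, y ∈ S := hΦ.isOpen.mem_nhds hz.1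
    have h2 : ∀ᶠ y in 𝓝 z, Φ y ∈ e.source :=
      (hΦ.smooth z hz.1).continuousAt.eventually_mem (e.open_source.mem_nhds hes)
    have h3 : ContinuousAt (fderiv ℝ (e ∘ Φ)) z :=
      ((mt_chart_smooth hX (hΦ.smooth z hz.1) heA hes).fderiv_right (m := 0)
        (by simp)).continuousAt
    obtain ⟨L, hL⟩ := hz.2 e heA hes
    have h4 : ∀ᶠ y in 𝓝 z, fderiv ℝ (e ∘ Φ) y ∈
        range (fun L : E4 ≃L[ℝ] C2 => (L : E4 →L[ℝ] C2)) := by
      refine h3.eventually_mem ?_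
      rw [← hL]
      exact ContinuousLinearEquiv.nhds L
    filter_upwards [h1, h2, h4] with y hy1 hy2 hy4
    refine ⟨hy1, fun e' he' hy' => ?_⟩
    obtain ⟨L', hL'⟩ := hy4
    exact mt_inv_chart hX (hΦ.smooth y hy1) heA he' hy2 hy' ⟨L', hL'⟩
  have hax := fun (t : ℝ) (ht : t • e0 ∈ S) => pullMap_axis hX M hγ hgeo hlam hspeed hΦ ht
  have haxW : ∀ t ∈ Ioo (-ε₀) (1 + ε₀), t • e0 ∈ W := fun t ht =>
    ⟨haxis t ht, (hax t (haxis t ht)).1⟩
  have h0W : (0 : E4) ∈ W := by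
    have := haxW 0 ⟨by linarith, by linarith⟩
    simpa using this
  have h1W : e0 ∈ W := by
    have := haxW 1 ⟨by linarith, by linarith⟩
    simpa using this
  obtain ⟨r0, hr0, hr0'⟩ := Metric.isOpen_iff.1 hWopen 0 h0W
  obtain ⟨r1, hr1, hr1'⟩ := Metric.isOpen_iff.1 hWopen e0 h1W
  set ε : ℝ := min ε₀ (min r0 r1) with hε
  have hεpos : 0 < ε := lt_min hε₀ (lt_min hr0 hr1)
  have hε0 : ε ≤ ε₀ := min_le_left _ _
  have hIoo : ∀ t ∈ Ioo (-ε) (1 + ε), t ∈ Ioo (-ε₀) (1 + ε₀) := fun t ht =>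
    ⟨by linarith [ht.1], by linarith [ht.2]⟩
  have hinv : ∀ z ∈ W, ∀ e ∈ atlas C2 X, Φ z ∈ e.source →
      (fderiv ℝ (e ∘ Φ) z).IsInvertible := fun z hz => hz.2
  have hsm : ∀ z ∈ W, ContMDiffAt 𝓘(ℝ, E4) 𝓘(ℝ, C2) ∞ Φ z := fun z hz => hΦ.smooth z hz.1
  have hHK : IsHK (M.pullMap Φ) W := isHK_pullMap hX M hWopen hsm hinv
  have hpev : ∀ z : E4, ‖z‖ < ε → ∀ᶠ y in 𝓝 z, Φ (y + e0) = Φ y := by
    intro z hz
    have : ∀ᶠ y in 𝓝 z, y ∈ ball (0 : E4) ε := isOpen_ball.mem_nhds (by simpa using hz)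
    filter_upwards [this] with y hy
    have hy' : ‖y‖ < ε := by simpa using hy
    exact (hΦper y (hy'.trans_le hε0)).2.2
  refine ⟨lam, ε, W, Φ, hlam, hspeed, ?_, hHK, hsm, ?_, ?_, ?_⟩
  · refine ⟨isHK_scale hHK (inv_pos.2 hlam), hεpos, fun t ht => haxW t (hIoo t ht), ?_, ?_, ?_,
      ?_, ?_, ?_⟩
    · intro t ht v w
      have h1 := (hax t (haxis t (hIoo t ht))).2.1 v w
      show lam⁻¹ * (M.pullMap Φ).G (t • e0) v w = _
      rw [h1, ← mul_assoc, inv_mul_cancel₀ hlam.ne', one_mul]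
    · intro t ht v
      exact (hax t (haxis t (hIoo t ht))).2.2 v
    · intro z hz
      refine ⟨hr0' ?_, hr1' ?_⟩
      · rw [mem_ball, dist_eq_norm, sub_zero]
        exact hz.trans_le ((min_le_right _ _).trans (min_le_left _ _))
      · rw [mem_ball, dist_eq_norm, add_sub_cancel_right]
        exact hz.trans_le ((min_le_right _ _).trans (min_le_right _ _))
    · intro z hz
      have h1 := (pullMap_periodic M (hpev z hz)).1
      show lam⁻¹ • (M.pullMap Φ).G (z + e0) = lam⁻¹ • (M.pullMap Φ).G z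
      rw [h1]
    · intro z hz
      exact (pullMap_periodic M (hpev z hz)).2.1
    · intro z hz a
      exact (pullMap_periodic M (hpev z hz)).2.2 a
  · intro z hz e he hze
    exact ⟨pullMap_rel hX M (hsm z hz) (hinv z hz) he hze, hinv z hz e he hze⟩
  · intro t ht
    exact hΦ.axis t (haxis t (hIoo t ht))
  · intro z hz
    exact (hΦper z (hz.trans_le hε0)).2.2

end Pool.Agent.Lib.MP_6c284f_gt
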