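import Pool.Agent.Lib.MP_6c284f_gt.Tube

set_option autoImplicit false

/-!
The strong minimum principle for functions that satisfy a differential inequality in the barrier
sense.
-/

namespace Pool.Agent.Lib.MP_6c284f_gt

open scoped ContDiff Topology
open Set Metric

private lemma mx_second {f f' : ℝ → ℝ} {c : ℝ} (hf : ∀ s, HasDerivAt f (f' s) s)
    (hf' : HasDerivAt f' c 0) (hmax : IsLocalMax f 0) : f' 0 = 0 ∧ c ≤ 0 := by
  have h0 : f' 0 = 0 := hmax.hasDerivAt_eq_zero (hf 0)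
  refine ⟨h0, ?_⟩
  by_contra hc
  push Not at hc
  have hd : deriv f = f' := by
    funext s
    exact (hf s).deriv
  have hmin : IsLocalMin f 0 := by
    apply isLocalMin_of_deriv_deriv_pos
    · rw [hd, hf'.deriv]; exact hc
    · rw [hd]; exact h0
    · exact (hf 0).continuousAt
  have hconst : ∀ᶠ s in 𝓝 (0 : ℝ), f s = f 0 := by
    filter_upwards [hmax, hmin] with s h1 h2
    exact le_antisymm h1 h2
  have hd0 : ∀ᶠ s in 𝓝 (0 : ℝ), f' s = 0 := by
    filter_upwards [hconst.eventually_nhds] with s hs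
    have h1 : HasDerivAt f 0 s := by
      have h2 : f =ᶠ[𝓝 s] fun _ => f 0 := hs
      exact (hasDerivAt_const s (f 0)).congr_of_eventuallyEq h2
    exact (hf s).unique h1
  have h3 : HasDerivAt f' 0 0 := by
    have h4 : f' =ᶠ[𝓝 0] fun _ => (0 : ℝ) := hd0
    exact (hasDerivAt_const (0 : ℝ) (0 : ℝ)).congr_of_eventuallyEq h4
  have := hf'.unique h3
  linarith

/-- the barrier along a line -/
private lemma mx_barrier (α A B N : ℝ) (s : ℝ) :
    HasDerivAt (fun s : ℝ => Real.exp (-α * (A + 2 * s * B + s ^ 2 * N)))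
      ((-α * (2 * B + 2 * s * N)) * Real.exp (-α * (A + 2 * s * B + s ^ 2 * N))) s := by
  have h1 : HasDerivAt (fun s : ℝ => -α * (A + 2 * s * B + s ^ 2 * N))
      (-α * (2 * B + 2 * s * N)) s := by
    have h2 : HasDerivAt (fun s : ℝ => 2 * s * B) (2 * B) s := by
      have := ((hasDerivAt_id s).const_mul 2).mul_const B
      simpa using this
    have h3 : HasDerivAt (fun s : ℝ => s ^ 2 * N) (2 * s * N) s := by
      have := (hasDerivAt_pow 2 s).mul_const N
      simpa using this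
    exact ((h2.const_add A).add h3).const_mul (-α)
  have h4 := h1.exp
  rw [mul_comm]
  exact h4

private lemma mx_barrier2 (α A B N : ℝ) :
    HasDerivAt (fun s : ℝ => (-α * (2 * B + 2 * s * N)) *
      Real.exp (-α * (A + 2 * s * B + s ^ 2 * N)))
      ((4 * α ^ 2 * B ^ 2 - 2 * α * N) * Real.exp (-α * A)) 0 := by
  have h1 := mx_barrier α A B N 0
  have h2 : HasDerivAt (fun s : ℝ => -α * (2 * B + 2 * s * N)) (-α * (2 * N)) 0 := by
    have h3 : HasDerivAt (fun s : ℝ => 2 * s * N) (2 * N) 0 := by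
      have := ((hasDerivAt_id (0 : ℝ)).const_mul 2).mul_const N
      simpa using this
    exact (h3.const_add (2 * B)).const_mul (-α)
  have h4 := h2.mul h1
  refine h4.congr_deriv ?_
  simp
  ring

private lemma mx_norm (w Y : E4) (s : ℝ) :
    ‖w + s • Y‖ ^ 2 = ‖w‖ ^ 2 + 2 * s * inner ℝ w Y + s ^ 2 * ‖Y‖ ^ 2 := by
  rw [norm_add_sq_real, real_inner_smul_right, norm_smul, Real.norm_eq_abs, mul_pow, sq_abs]
  ring

theorem strong_min {F : E4 → ℝ} {ρ : ℝ} (hρ : 0 < ρ) (hF : ContinuousOn F (ball 0 ρ))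
    (hmin : ∀ q ∈ ball (0 : E4) ρ, F 0 ≤ F q) (Y : Fin 4 → E4 → E4) {Λ lam : ℝ} (hlam : 0 < lam)
    (hY : ∀ q ∈ ball (0 : E4) ρ, ∀ a, ‖Y a q‖ ≤ Λ)
    (hY2 : ∀ q ∈ ball (0 : E4) ρ, ∀ ξ : E4, lam * ‖ξ‖ ^ 2 ≤ ∑ a, (inner ℝ ξ (Y a q)) ^ 2)
    (C : ℝ)
    (hbar : ∀ q ∈ ball (0 : E4) ρ, ∃ (l : E4 →L[ℝ] ℝ) (d : Fin 4 → ℝ),
      (∀ a, ∀ η > 0, ∀ᶠ s in 𝓝 (0 : ℝ),
        F (q + s • Y a q) ≤ F q + s * l (Y a q) + s ^ 2 / 2 * (d a + η)) ∧
      ∑ a, d a ≤ C * ‖l‖) :
    ∀ q ∈ ball (0 : E4) (ρ / 4), F q = F 0 := by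
  intro q1 hq1
  by_contra hne
  have hq1n : ‖q1‖ < ρ / 4 := by simpa using hq1
  -- the contact set
  have hsub : closedBall (0 : E4) (ρ / 2) ⊆ ball 0 ρ := closedBall_subset_ball (by linarith)
  have hFc : ContinuousOn F (closedBall (0 : E4) (ρ / 2)) := hF.mono hsub
  set Z : Set E4 := closedBall (0 : E4) (ρ / 2) ∩ F ⁻¹' {F 0} with hZ
  have hZcl : IsClosed Z :=
    hFc.preimage_isClosed_of_isClosed isClosed_closedBall isClosed_singleton
  have hZc : IsCompact Z :=
    (isCompact_closedBall (0 : E4) (ρ / 2)).of_isClosed_subset hZcl inter_subset_left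
  have h0Z : (0 : E4) ∈ Z := ⟨by simp; linarith, rfl⟩
  obtain ⟨z, hzZ, hzd⟩ := hZc.exists_infDist_eq_dist ⟨0, h0Z⟩ q1
  set R : ℝ := dist q1 z with hR
  have hRle : R < ρ / 4 := by
    rw [← hzd]
    refine lt_of_le_of_lt (infDist_le_dist_of_mem h0Z) ?_
    rw [dist_zero_right]
    exact hq1n
  have hRpos : 0 < R := by
    rw [hR, dist_pos]
    rintro rfl
    exact hne hzZ.2
  -- points at distance `< R`
  have hpos : ∀ x, dist x q1 < R → F 0 < F x := by
    intro x hx
    have hxn : ‖x‖ < ρ / 2 := by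
      have h1 : ‖x‖ ≤ ‖x - q1‖ + ‖q1‖ := by
        have := norm_add_le (x - q1) q1
        rwa [sub_add_cancel] at this
      rw [dist_eq_norm] at hx
      linarith
    have hxb : x ∈ closedBall (0 : E4) (ρ / 2) := by simp; exact hxn.le
    rcases (hmin x (hsub hxb)).lt_or_eq with h | h
    · exact h
    · exfalso
      have hxZ : x ∈ Z := ⟨hxb, h.symm⟩
      have h2 : infDist q1 Z ≤ dist q1 x := infDist_le_dist_of_mem hxZ
      rw [hzd, dist_comm q1 x] at h2
      linarith
  have hK : closedBall q1 R ⊆ ball (0 : E4) ρ := by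
    intro x hx
    rw [mem_closedBall, dist_eq_norm] at hx
    have h1 : ‖x‖ ≤ ‖x - q1‖ + ‖q1‖ := by
      have := norm_add_le (x - q1) q1
      rwa [sub_add_cancel] at this
    rw [mem_ball, dist_zero_right]
    linarith
  -- the constant `m`
  obtain ⟨x0, hx0, hx0min⟩ := (isCompact_closedBall q1 (R / 2)).exists_isMinOn
    ⟨q1, mem_closedBall_self (by linarith)⟩
    (hF.mono ((closedBall_subset_closedBall (by linarith)).trans hK))
  set m : ℝ := F x0 - F 0 with hm
  have hmpos : 0 < m := by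
    have := hpos x0 (lt_of_le_of_lt hx0 (by linarith))
    linarith
  have hΛ : 0 ≤ Λ := (norm_nonneg _).trans (hY 0 (by simpa using hρ) 0)
  -- the constant `α`
  set α : ℝ := (4 * Λ ^ 2 + |C| * R + 1) / (2 * lam * (R / 2) ^ 2) with hα
  have hαpos : 0 < α := by positivity
  have hαeq : 2 * α * lam * (R / 2) ^ 2 = 4 * Λ ^ 2 + |C| * R + 1 := by
    rw [hα]; field_simp
  let v : E4 → ℝ := fun x => Real.exp (-α * ‖x - q1‖ ^ 2) - Real.exp (-α * R ^ 2)
  have hvc : Continuous v := by fun_prop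
  have hvle : ∀ x, v x ≤ 1 := by
    intro x
    have h1 : Real.exp (-α * ‖x - q1‖ ^ 2) ≤ 1 := by
      apply Real.exp_le_one_iff.2
      have : 0 ≤ α * ‖x - q1‖ ^ 2 := by positivity
      linarith
    have h2 := Real.exp_pos (-α * R ^ 2)
    show Real.exp (-α * ‖x - q1‖ ^ 2) - Real.exp (-α * R ^ 2) ≤ 1
    linarith
  have hvline : ∀ (x Y : E4) (s : ℝ), v (x + s • Y) =
      Real.exp (-α * (‖x - q1‖ ^ 2 + 2 * s * inner ℝ (x - q1) Y + s ^ 2 * ‖Y‖ ^ 2)) -
        Real.exp (-α * R ^ 2) := by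
    intro x Y s
    have e : x + s • Y - q1 = (x - q1) + s • Y := by abel
    show Real.exp (-α * ‖x + s • Y - q1‖ ^ 2) - Real.exp (-α * R ^ 2) = _
    rw [e, mx_norm]
  -- comparison on the ball
  have hcomp : ∀ x ∈ closedBall q1 R, m * v x ≤ F x - F 0 := by
    obtain ⟨q, hq, hqmin⟩ := (isCompact_closedBall q1 R).exists_isMinOn
      ⟨q1, mem_closedBall_self hRpos.le⟩
      (f := fun x => F x - F 0 - m * v x)
      (((hF.mono hK).sub continuousOn_const).sub (hvc.continuousOn.const_smul m))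
    by_contra hcon
    push Not at hcon
    obtain ⟨x, hx, hxlt⟩ := hcon
    have hneg : F q - F 0 - m * v q < 0 := by
      have h1 : F q - F 0 - m * v q ≤ F x - F 0 - m * v x := hqmin hx
      linarith
    -- `q` is in the open annulus
    have hq1R : dist q q1 ≤ R := hq
    have hq2 : R / 2 < dist q q1 := by
      by_contra hle
      push Not at hle
      have h1 : F x0 ≤ F q := hx0min (show q ∈ closedBall q1 (R / 2) from hle)
      have h2 := hvle q
      nlinarith
    have hq3 : dist q q1 < R := by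
      rcases hq1R.lt_or_eq with h | h
      · exact h
      · exfalso
        have h1 : v q = 0 := by
          show Real.exp (-α * ‖q - q1‖ ^ 2) - Real.exp (-α * R ^ 2) = 0
          rw [← dist_eq_norm, h, sub_self]
        have h2 := hmin q (hK hq)
        rw [h1] at hneg
        linarith
    obtain ⟨l, d, hbq, hd⟩ := hbar q (hK hq)
    set w : E4 := q - q1 with hw
    have hwn : ‖w‖ = dist q q1 := by rw [hw, dist_eq_norm]
    set e : ℝ := Real.exp (-α * ‖w‖ ^ 2) with he
    have hepos : 0 < e := Real.exp_pos _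
    have hkey : ∀ a, m * (-2 * α * inner ℝ w (Y a q) * e) = l (Y a q) ∧
        m * ((4 * α ^ 2 * (inner ℝ w (Y a q)) ^ 2 - 2 * α * ‖Y a q‖ ^ 2) * e) ≤ d a := by
      intro a
      have hall : ∀ η > 0, m * (-2 * α * inner ℝ w (Y a q) * e) = l (Y a q) ∧
          m * ((4 * α ^ 2 * (inner ℝ w (Y a q)) ^ 2 - 2 * α * ‖Y a q‖ ^ 2) * e) ≤ d a + η := by
        intro η hη
        set B : ℝ := inner ℝ w (Y a q) with hB
        set N : ℝ := ‖Y a q‖ ^ 2 with hN
        let f : ℝ → ℝ := fun s => m * Real.exp (-α * (‖w‖ ^ 2 + 2 * s * B + s ^ 2 * N)) -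
          s * l (Y a q) - s ^ 2 / 2 * (d a + η)
        let f' : ℝ → ℝ := fun s => m * ((-α * (2 * B + 2 * s * N)) *
          Real.exp (-α * (‖w‖ ^ 2 + 2 * s * B + s ^ 2 * N))) - l (Y a q) - s * (d a + η)
        have hfd : ∀ s, HasDerivAt f (f' s) s := by
          intro s
          have h1 := (mx_barrier α (‖w‖ ^ 2) B N s).const_mul m
          have h2 : HasDerivAt (fun s : ℝ => s * l (Y a q)) (l (Y a q)) s := by
            simpa using (hasDerivAt_id s).mul_const (l (Y a q))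
          have h3 : HasDerivAt (fun s : ℝ => s ^ 2 / 2 * (d a + η)) (s * (d a + η)) s := by
            have := ((hasDerivAt_pow 2 s).div_const 2).mul_const (d a + η)
            refine this.congr_deriv ?_
            simp
          exact (h1.sub h2).sub h3
        have hfd2 : HasDerivAt f' (m * ((4 * α ^ 2 * B ^ 2 - 2 * α * N) *
            Real.exp (-α * ‖w‖ ^ 2)) - (d a + η)) 0 := by
          have h1 := (mx_barrier2 α (‖w‖ ^ 2) B N).const_mul m
          have h3 : HasDerivAt (fun s : ℝ => s * (d a + η)) (d a + η) 0 := by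
            simpa using (hasDerivAt_id (0 : ℝ)).mul_const (d a + η)
          have h4 := (h1.sub_const (l (Y a q))).sub h3
          exact h4
        have hloc : IsLocalMax f 0 := by
          have hcont : Filter.Tendsto (fun s : ℝ => q + s • Y a q) (𝓝 0) (𝓝 q) := by
            have : Continuous (fun s : ℝ => q + s • Y a q) := by fun_prop
            have h2 := this.tendsto 0
            simpa using h2
          have hnear : ∀ᶠ s in 𝓝 (0 : ℝ), q + s • Y a q ∈ closedBall q1 R := by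
            have h1 : ball q1 R ∈ 𝓝 q := isOpen_ball.mem_nhds hq3
            filter_upwards [hcont h1] with s hs
            exact ball_subset_closedBall hs
          filter_upwards [hbq a η hη, hnear] with s h1 h2
          have h3 : F q - F 0 - m * v q ≤ F (q + s • Y a q) - F 0 - m * v (q + s • Y a q) :=
            hqmin h2
          have h4 : v (q + s • Y a q) =
              Real.exp (-α * (‖w‖ ^ 2 + 2 * s * B + s ^ 2 * N)) - Real.exp (-α * R ^ 2) :=
            hvline q (Y a q) s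
          have h5 : v q = e - Real.exp (-α * R ^ 2) := rfl
          show m * Real.exp (-α * (‖w‖ ^ 2 + 2 * s * B + s ^ 2 * N)) -
            s * l (Y a q) - s ^ 2 / 2 * (d a + η) ≤
            m * Real.exp (-α * (‖w‖ ^ 2 + 2 * 0 * B + 0 ^ 2 * N)) -
            0 * l (Y a q) - 0 ^ 2 / 2 * (d a + η)
          have h6 : Real.exp (-α * (‖w‖ ^ 2 + 2 * 0 * B + 0 ^ 2 * N)) = e := by
            rw [he]; congr 1; ring
          rw [h6]
          rw [h4, h5] at h3
          nlinarith
        obtain ⟨h1, h2⟩ := mx_second hfd hfd2 hloc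
        refine ⟨?_, ?_⟩
        · have h3 : f' 0 = m * ((-α * (2 * B + 2 * 0 * N)) *
            Real.exp (-α * (‖w‖ ^ 2 + 2 * 0 * B + 0 ^ 2 * N))) - l (Y a q) - 0 * (d a + η) := rfl
          have h6 : Real.exp (-α * (‖w‖ ^ 2 + 2 * 0 * B + 0 ^ 2 * N)) = e := by
            rw [he]; congr 1; ring
          rw [h6] at h3
          rw [h3] at h1
          linarith
        · have : m * ((4 * α ^ 2 * B ^ 2 - 2 * α * N) * e) - (d a + η) ≤ 0 := h2
          linarith
      refine ⟨(hall 1 one_pos).1, ?_⟩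
      exact le_of_forall_pos_le_add fun η hη => (hall η hη).2
    -- `l` is determined
    have hl : l = (-(2 * α * e * m)) • innerSL ℝ w := by
      set L : E4 →L[ℝ] ℝ := l - (-(2 * α * e * m)) • innerSL ℝ w with hL
      have h1 : ∀ a, L (Y a q) = 0 := by
        intro a
        have := (hkey a).1
        rw [hL]
        simp only [sub_apply, smul_apply,
          innerSL_apply_apply, smul_eq_mul]
        rw [← this]
        ring
      set ξ : E4 := (InnerProductSpace.toDual ℝ E4).symm L with hξ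
      have h2 : ∀ x, inner ℝ ξ x = L x := by
        intro x
        rw [hξ]
        exact InnerProductSpace.toDual_symm_apply
      have h3 := hY2 q (hK hq) ξ
      have h4 : ∑ a, (inner ℝ ξ (Y a q)) ^ 2 = 0 := by
        apply Finset.sum_eq_zero
        intro a _
        rw [h2, h1]
        ring
      rw [h4] at h3
      have h5 : ‖ξ‖ = 0 := by
        have h6 : 0 ≤ ‖ξ‖ ^ 2 := by positivity
        have h7 : ‖ξ‖ ^ 2 = 0 := by nlinarith
        exact pow_eq_zero_iff (two_ne_zero) |>.1 h7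
      have h6 : L = 0 := by
        ext x
        rw [← h2, norm_eq_zero.1 h5]
        simp
      have := sub_eq_zero.1 (hL ▸ h6)
      exact this
    have hln : ‖l‖ = 2 * α * e * m * ‖w‖ := by
      rw [hl, norm_smul, innerSL_apply_norm, Real.norm_eq_abs, abs_neg,
        abs_of_pos (by positivity)]
    have hsum : ∑ a, m * ((4 * α ^ 2 * (inner ℝ w (Y a q)) ^ 2 - 2 * α * ‖Y a q‖ ^ 2) * e) ≤
        |C| * (2 * α * e * m * ‖w‖) := by
      refine (Finset.sum_le_sum fun a _ => (hkey a).2).trans (hd.trans ?_)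
      rw [hln]
      exact mul_le_mul_of_nonneg_right (le_abs_self C) (by positivity)
    have hlow : m * e * (4 * α ^ 2 * (lam * ‖w‖ ^ 2) - 2 * α * (4 * Λ ^ 2)) ≤
        ∑ a, m * ((4 * α ^ 2 * (inner ℝ w (Y a q)) ^ 2 - 2 * α * ‖Y a q‖ ^ 2) * e) := by
      have h1 : ∑ a, m * ((4 * α ^ 2 * (inner ℝ w (Y a q)) ^ 2 - 2 * α * ‖Y a q‖ ^ 2) * e) =
          m * e * (4 * α ^ 2 * ∑ a, (inner ℝ w (Y a q)) ^ 2 - 2 * α * ∑ a, ‖Y a q‖ ^ 2) := by
        rw [Finset.mul_sum, Finset.mul_sum, ← Finset.sum_sub_distrib, Finset.mul_sum]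
        refine Finset.sum_congr rfl fun a _ => ?_
        ring
      rw [h1]
      refine mul_le_mul_of_nonneg_left ?_ (by positivity)
      have h2 := hY2 q (hK hq) w
      have h3 : ∑ a, ‖Y a q‖ ^ 2 ≤ 4 * Λ ^ 2 := by
        calc ∑ a, ‖Y a q‖ ^ 2 ≤ ∑ _a : Fin 4, Λ ^ 2 := by
              refine Finset.sum_le_sum fun a _ => ?_
              exact pow_le_pow_left₀ (norm_nonneg _) (hY q (hK hq) a) 2
          _ = 4 * Λ ^ 2 := by simp
      have h4 : 4 * α ^ 2 * (lam * ‖w‖ ^ 2) ≤ 4 * α ^ 2 * ∑ a, (inner ℝ w (Y a q)) ^ 2 :=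
        mul_le_mul_of_nonneg_left h2 (by positivity)
      have h5 : 2 * α * ∑ a, ‖Y a q‖ ^ 2 ≤ 2 * α * (4 * Λ ^ 2) :=
        mul_le_mul_of_nonneg_left h3 (by positivity)
      linarith
    have hcomb : m * e * (4 * α ^ 2 * (lam * ‖w‖ ^ 2) - 2 * α * (4 * Λ ^ 2)) ≤
        m * e * (2 * α * (|C| * ‖w‖)) := by
      calc _ ≤ |C| * (2 * α * e * m * ‖w‖) := hlow.trans hsum
        _ = m * e * (2 * α * (|C| * ‖w‖)) := by ring
    have hcomb2 := le_of_mul_le_mul_left hcomb (by positivity)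
    have hcomb3 : 2 * α * (2 * α * lam * ‖w‖ ^ 2 - 4 * Λ ^ 2) ≤ 2 * α * (|C| * ‖w‖) := by
      linarith
    have hcomb4 := le_of_mul_le_mul_left hcomb3 (by positivity)
    rw [← hwn] at hq2 hq3
    have h5 : (R / 2) ^ 2 ≤ ‖w‖ ^ 2 := pow_le_pow_left₀ (by positivity) hq2.le 2
    have h6 : 2 * α * lam * (R / 2) ^ 2 ≤ 2 * α * lam * ‖w‖ ^ 2 :=
      mul_le_mul_of_nonneg_left h5 (by positivity)
    have h7 : |C| * ‖w‖ ≤ |C| * R := mul_le_mul_of_nonneg_left hq3.le (abs_nonneg _)
    linarith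
  -- the boundary point
  have hzb : z ∈ ball (0 : E4) ρ := hsub hzZ.1
  have hFz : F z = F 0 := hzZ.2
  obtain ⟨l, d, hbz, -⟩ := hbar z hzb
  have hnearz : ∀ a, ∀ᶠ s in 𝓝 (0 : ℝ), z + s • Y a z ∈ ball (0 : E4) ρ := by
    intro a
    have : Continuous (fun s : ℝ => z + s • Y a z) := by fun_prop
    have h2 := this.tendsto 0
    simp only [zero_smul, add_zero] at h2
    exact h2 (isOpen_ball.mem_nhds hzb)
  have hl0 : ∀ a, l (Y a z) = 0 := by
    intro a
    let f : ℝ → ℝ := fun s => s * l (Y a z) + s ^ 2 / 2 * (d a + 1)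
    have h1 : IsLocalMin f 0 := by
      filter_upwards [hbz a 1 one_pos, hnearz a] with s h1 h2
      have h3 := hmin _ h2
      show 0 * l (Y a z) + 0 ^ 2 / 2 * (d a + 1) ≤ s * l (Y a z) + s ^ 2 / 2 * (d a + 1)
      rw [hFz] at h1
      linarith
    have h2 : HasDerivAt f (l (Y a z)) 0 := by
      have h3 : HasDerivAt (fun s : ℝ => s * l (Y a z)) (l (Y a z)) 0 := by
        simpa using (hasDerivAt_id (0 : ℝ)).mul_const (l (Y a z))
      have h4 : HasDerivAt (fun s : ℝ => s ^ 2 / 2 * (d a + 1)) 0 0 := by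
        have := ((hasDerivAt_pow 2 (0 : ℝ)).div_const 2).mul_const (d a + 1)
        refine this.congr_deriv ?_
        simp
      have := h3.add h4
      rw [add_zero] at this
      exact this
    exact h1.hasDerivAt_eq_zero h2
  set w : E4 := z - q1 with hw
  have hwn : ‖w‖ = R := by rw [hw, hR, dist_comm, dist_eq_norm]
  obtain ⟨a, ha⟩ : ∃ a, inner ℝ w (Y a z) ≠ 0 := by
    by_contra hcon
    push Not at hcon
    have h1 := hY2 z hzb w
    have h2 : ∑ a, (inner ℝ w (Y a z)) ^ 2 = 0 := by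
      apply Finset.sum_eq_zero
      intro a _
      rw [hcon a]
      ring
    rw [h2, hwn] at h1
    have : 0 < lam * R ^ 2 := by positivity
    linarith
  set B : ℝ := inner ℝ w (Y a z) with hB
  set N : ℝ := ‖Y a z‖ ^ 2 with hN
  -- the function along the line
  let g : ℝ → ℝ := fun s => m * (Real.exp (-α * (‖w‖ ^ 2 + 2 * s * B + s ^ 2 * N)) -
    Real.exp (-α * R ^ 2)) - s ^ 2 / 2 * (d a + 1)
  have hg0 : g 0 = 0 := by
    show m * (Real.exp (-α * (‖w‖ ^ 2 + 2 * 0 * B + 0 ^ 2 * N)) -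
      Real.exp (-α * R ^ 2)) - 0 ^ 2 / 2 * (d a + 1) = 0
    rw [hwn]
    simp
  have hgd : HasDerivAt g (m * (-α * (2 * B) * Real.exp (-α * R ^ 2))) 0 := by
    have h1 := ((mx_barrier α (‖w‖ ^ 2) B N 0).sub_const (Real.exp (-α * R ^ 2))).const_mul m
    have h4 : HasDerivAt (fun s : ℝ => s ^ 2 / 2 * (d a + 1)) 0 0 := by
      have := ((hasDerivAt_pow 2 (0 : ℝ)).div_const 2).mul_const (d a + 1)
      refine this.congr_deriv ?_
      simp
    have h5 := h1.sub h4
    refine h5.congr_deriv ?_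
    rw [hwn]
    simp
  have hgneg : ∀ᶠ s in 𝓝 (0 : ℝ), ‖w + s • Y a z‖ ≤ R → g s ≤ 0 := by
    filter_upwards [hbz a 1 one_pos] with s h1 h2
    rw [hl0, hFz] at h1
    have h3 : z + s • Y a z ∈ closedBall q1 R := by
      rw [mem_closedBall, dist_eq_norm]
      have e : z + s • Y a z - q1 = w + s • Y a z := by rw [hw]; abel
      rw [e]; exact h2
    have h4 := hcomp _ h3
    rw [hvline] at h4
    show m * (Real.exp (-α * (‖w‖ ^ 2 + 2 * s * B + s ^ 2 * N)) -
      Real.exp (-α * R ^ 2)) - s ^ 2 / 2 * (d a + 1) ≤ 0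
    linarith
  -- go inside: `s = -σ B`
  let G : ℝ → ℝ := fun σ => g (-σ * B)
  have hGd : HasDerivAt G (m * (-α * (2 * B) * Real.exp (-α * R ^ 2)) * (-B)) 0 := by
    have h1 : HasDerivAt (fun σ : ℝ => -σ * B) (-B) 0 := by
      have := ((hasDerivAt_id (0 : ℝ)).neg).mul_const B
      simpa using this
    have h2 : HasDerivAt g (m * (-α * (2 * B) * Real.exp (-α * R ^ 2))) (-0 * B) := by
      simpa using hgd
    exact h2.comp (0 : ℝ) h1
  have hGd0 : 0 < m * (-α * (2 * B) * Real.exp (-α * R ^ 2)) * (-B) := by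
    have h1 : m * (-α * (2 * B) * Real.exp (-α * R ^ 2)) * (-B) =
        2 * m * α * B ^ 2 * Real.exp (-α * R ^ 2) := by ring
    rw [h1]
    have h2 : 0 < B ^ 2 := by positivity
    have h3 := Real.exp_pos (-α * R ^ 2)
    positivity
  have hslope := hGd.tendsto_slope
  have hslope' : Filter.Tendsto (slope G 0) (𝓝[>] 0)
      (𝓝 (m * (-α * (2 * B) * Real.exp (-α * R ^ 2)) * (-B))) :=
    hslope.mono_left (nhdsGT_le_nhdsNE 0)
  have hle : m * (-α * (2 * B) * Real.exp (-α * R ^ 2)) * (-B) ≤ 0 := by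
    refine le_of_tendsto hslope' ?_
    have h1 : Filter.Tendsto (fun σ : ℝ => -σ * B) (𝓝 0) (𝓝 0) := by
      have : Continuous (fun σ : ℝ => -σ * B) := by fun_prop
      have h2 := this.tendsto 0
      simpa using h2
    have h2 : ∀ᶠ σ in 𝓝[>] (0 : ℝ), ‖w + (-σ * B) • Y a z‖ ≤ R → g (-σ * B) ≤ 0 :=
      (h1.eventually hgneg).filter_mono nhdsWithin_le_nhds
    have h3 : ∀ᶠ σ in 𝓝[>] (0 : ℝ), σ * N ≤ 1 := by
      have h4 : Filter.Tendsto (fun σ : ℝ => σ * N) (𝓝 0) (𝓝 0) := by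
        have : Continuous (fun σ : ℝ => σ * N) := by fun_prop
        have h2 := this.tendsto 0
        simpa using h2
      exact (h4.eventually (eventually_le_nhds one_pos)).filter_mono nhdsWithin_le_nhds
    filter_upwards [h2, h3, self_mem_nhdsWithin] with σ h4 h5 h6
    have hσ : 0 < σ := h6
    have h7 : ‖w + (-σ * B) • Y a z‖ ≤ R := by
      have h8 : ‖w + (-σ * B) • Y a z‖ ^ 2 ≤ R ^ 2 := by
        rw [mx_norm, hwn, ← hB, ← hN]
        have h9 : (-σ * B) ^ 2 * N = σ * B ^ 2 * (σ * N) := by ring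
        have h10 : σ * B ^ 2 * (σ * N) ≤ σ * B ^ 2 * 1 :=
          mul_le_mul_of_nonneg_left h5 (by positivity)
        have h11 : 0 ≤ σ * B ^ 2 := by positivity
        rw [h9]
        nlinarith
      exact (sq_le_sq₀ (norm_nonneg _) hRpos.le).1 h8
    have h8 : G σ ≤ 0 := h4 h7
    have h9 : G 0 = 0 := by
      show g (-0 * B) = 0
      simpa using hg0
    rw [slope_def_field, h9]
    apply div_nonpos_of_nonpos_of_nonneg
    · linarith
    · linarith
  linarith

end Pool.Agent.Lib.MP_6c284f_gt
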