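import Pool.Agent.Lib.MP_6c284f_gt.Defs
import Pool.Agent.Lib.MP_6c284f_gt.Max

set_option autoImplicit false
set_option maxSynthPendingDepth 5

/-!
Pluriharmonic functions of two complex variables: minimum principle, `log |f|²`.
-/

namespace Pool.Agent.Lib.MP_6c284f_gt

open scoped Manifold ContDiff Topology ComplexConjugate Matrix
open Set

/-- one-variable Taylor bound -/
private theorem NA_taylor {h h' : ℝ → ℝ} {c : ℝ} (hd : ∀ᶠ s in 𝓝 (0 : ℝ), HasDerivAt h (h' s) s)
    (hd2 : HasDerivAt h' c 0) {η : ℝ} (hη : 0 < η) :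
    ∀ᶠ s in 𝓝 (0 : ℝ), h s ≤ h 0 + s * h' 0 + s ^ 2 / 2 * (c + η) := by
  let k : ℝ → ℝ := fun s => h 0 + s * h' 0 + s ^ 2 / 2 * (c + η) - h s
  have hk : ∀ᶠ s in 𝓝 (0 : ℝ), HasDerivAt k (h' 0 + s * (c + η) - h' s) s := by
    filter_upwards [hd] with s hs
    have h2 : HasDerivAt (fun s : ℝ => s * h' 0) (h' 0) s := by
      simpa using (hasDerivAt_id s).mul_const (h' 0)
    have h3 : HasDerivAt (fun s : ℝ => s ^ 2 / 2 * (c + η)) (s * (c + η)) s := by
      have := ((hasDerivAt_pow 2 s).div_const 2).mul_const (c + η)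
      refine this.congr_deriv ?_
      simp
    exact ((h2.const_add (h 0)).add h3).sub hs
  have hk1 : deriv k =ᶠ[𝓝 0] fun s => h' 0 + s * (c + η) - h' s :=
    hk.mono fun s hs => hs.deriv
  have hk2 : HasDerivAt (fun s => h' 0 + s * (c + η) - h' s) η 0 := by
    have h3 : HasDerivAt (fun s : ℝ => s * (c + η)) (c + η) 0 := by
      simpa using (hasDerivAt_id (0 : ℝ)).mul_const (c + η)
    exact ((h3.const_add (h' 0)).sub hd2).congr_deriv (by ring)
  have hk3 : HasDerivAt (deriv k) η 0 := hk2.congr_of_eventuallyEq hk1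
  have hmin : IsLocalMin k 0 := by
    apply isLocalMin_of_deriv_deriv_pos
    · rw [hk3.deriv]; exact hη
    · rw [hk1.eq_of_nhds]; ring
    · exact hk.self_of_nhds.continuousAt
  filter_upwards [hmin] with s hs
  have h0 : k 0 = 0 := by
    change h 0 + 0 * h' 0 + 0 ^ 2 / 2 * (c + η) - h 0 = 0
    ring
  rw [h0] at hs
  change 0 ≤ h 0 + s * h' 0 + s ^ 2 / 2 * (c + η) - h s at hs
  linarith

/-- Taylor bound along a line -/
private theorem NA_line {U : Set C2} (hU : IsOpen U) {φ : C2 → ℝ} (hφ : ContDiffOn ℝ ∞ φ U)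
    {x : C2} (hx : x ∈ U) (v : C2) {η : ℝ} (hη : 0 < η) :
    ∀ᶠ s in 𝓝 (0 : ℝ), φ (x + s • v) ≤ φ x + s * fderiv ℝ φ x v +
      s ^ 2 / 2 * (fderiv ℝ (fderiv ℝ φ) x v v + η) := by
  have hline : ∀ s : ℝ, HasDerivAt (fun s : ℝ => x + s • v) v s := by
    intro s
    have := ((hasDerivAt_id s).smul_const v).const_add x
    simpa using this
  have hnear : ∀ᶠ s in 𝓝 (0 : ℝ), x + s • v ∈ U := by
    have h1 : Filter.Tendsto (fun s : ℝ => x + s • v) (𝓝 0) (𝓝 x) := by
      have := (hline 0).continuousAt.tendsto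
      simpa using this
    exact h1 (hU.mem_nhds hx)
  have hdiff : ∀ y ∈ U, DifferentiableAt ℝ φ y := fun y hy =>
    (hφ.contDiffAt (hU.mem_nhds hy)).differentiableAt (by simp)
  have hdiff2 : DifferentiableAt ℝ (fderiv ℝ φ) x := by
    have h1 : ContDiffAt ℝ 2 φ x := (hφ.contDiffAt (hU.mem_nhds hx)).of_le (show ((2 : ℕ∞) : WithTop ℕ∞) ≤ ((⊤ : ℕ∞) : WithTop ℕ∞) from WithTop.coe_le_coe.2 le_top)
    have h2 : ContDiffAt ℝ 1 (fderiv ℝ φ) x := h1.fderiv_right (m := 1) (by norm_num)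
    exact h2.differentiableAt (by norm_num)
  have h := NA_taylor (h := fun s : ℝ => φ (x + s • v))
    (h' := fun s : ℝ => fderiv ℝ φ (x + s • v) v)
    (c := fderiv ℝ (fderiv ℝ φ) x v v) ?_ ?_ hη
  · simpa using h
  · filter_upwards [hnear] with s hs
    exact (hdiff _ hs).hasFDerivAt.comp_hasDerivAt s (hline s)
  · have h1 : HasFDerivAt (fun y => fderiv ℝ φ y v)
        ((ContinuousLinearMap.apply ℝ ℝ v) ∘L (fderiv ℝ (fderiv ℝ φ) x)) (x + (0 : ℝ) • v) := by
      have h2 : x + (0 : ℝ) • v = x := by simp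
      rw [h2]
      exact (ContinuousLinearMap.apply ℝ ℝ v).hasFDerivAt.comp x hdiff2.hasFDerivAt
    exact h1.comp_hasDerivAt (0 : ℝ) (hline 0)

private noncomputable def NA_lin : E4 ≃ₗ[ℝ] C2 where
  toFun q := ![⟨q 0, q 1⟩, ⟨q 2, q 3⟩]
  invFun z := !₂[(z 0).re, (z 0).im, (z 1).re, (z 1).im]
  map_add' q q' := by
    funext i
    fin_cases i <;> apply Complex.ext <;> simp
  map_smul' c q := by
    funext i
    fin_cases i <;> apply Complex.ext <;> simp
  left_inv q := by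
    ext i
    fin_cases i <;> simp
  right_inv z := by
    funext i
    fin_cases i <;> apply Complex.ext <;> simp

private theorem NA_lin0 : NA_lin (EuclideanSpace.single 0 1) = Pi.single 0 1 := by
  funext i
  fin_cases i <;> apply Complex.ext <;> simp [NA_lin]

private theorem NA_lin1 : NA_lin (EuclideanSpace.single 1 1) = Pi.single 0 Complex.I := by
  funext i
  fin_cases i <;> apply Complex.ext <;> simp [NA_lin]

private theorem NA_lin2 : NA_lin (EuclideanSpace.single 2 1) = Pi.single 1 1 := by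
  funext i
  fin_cases i <;> apply Complex.ext <;> simp [NA_lin]

private theorem NA_lin3 : NA_lin (EuclideanSpace.single 3 1) = Pi.single 1 Complex.I := by
  funext i
  fin_cases i <;> apply Complex.ext <;> simp [NA_lin]

/-- the Laplacian in the `i`-th variable -/
private theorem NA_lap {U : Set C2} (hU : IsOpen U) {φ : C2 → ℝ} (hφ : ContDiffOn ℝ ∞ φ U)
    {z : C2} (hz : z ∈ U) (i : Fin 2)
    (h : dz i (fun y => dzbar i (fun x => ((φ x : ℝ) : ℂ)) y) z = 0) :
    fderiv ℝ (fderiv ℝ φ) z (Pi.single i 1) (Pi.single i 1) +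
      fderiv ℝ (fderiv ℝ φ) z (Pi.single i Complex.I) (Pi.single i Complex.I) = 0 := by
  have hdiff : ∀ y ∈ U, DifferentiableAt ℝ φ y := fun y hy =>
    (hφ.contDiffAt (hU.mem_nhds hy)).differentiableAt (by simp)
  have hdiff2 : DifferentiableAt ℝ (fderiv ℝ φ) z := by
    have h1 : ContDiffAt ℝ 2 φ z := (hφ.contDiffAt (hU.mem_nhds hz)).of_le (show ((2 : ℕ∞) : WithTop ℕ∞) ≤ ((⊤ : ℕ∞) : WithTop ℕ∞) from WithTop.coe_le_coe.2 le_top)
    have h2 : ContDiffAt ℝ 1 (fderiv ℝ φ) z := h1.fderiv_right (m := 1) (by norm_num)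
    exact h2.differentiableAt (by norm_num)
  set e1 : C2 := Pi.single i 1 with he1
  set e2 : C2 := Pi.single i Complex.I with he2
  have hf1 : ∀ y ∈ U, ∀ v, fderiv ℝ (fun x => ((φ x : ℝ) : ℂ)) y v = ((fderiv ℝ φ y v : ℝ) : ℂ) := by
    intro y hy v
    have h1 : HasFDerivAt (fun x => ((φ x : ℝ) : ℂ)) (Complex.ofRealCLM ∘L fderiv ℝ φ y) y :=
      Complex.ofRealCLM.hasFDerivAt.comp y (hdiff y hy).hasFDerivAt
    rw [h1.fderiv]
    rfl
  have hg : (fun y => dzbar i (fun x => ((φ x : ℝ) : ℂ)) y) =ᶠ[𝓝 z]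
      fun y => (((fderiv ℝ φ y e1 : ℝ) : ℂ) + Complex.I * ((fderiv ℝ φ y e2 : ℝ) : ℂ)) / 2 := by
    filter_upwards [hU.mem_nhds hz] with y hy
    rw [dzbar, hf1 y hy, hf1 y hy]
  have hder : ∀ v : C2, HasFDerivAt (fun y => ((fderiv ℝ φ y v : ℝ) : ℂ))
      (Complex.ofRealCLM ∘L ((ContinuousLinearMap.apply ℝ ℝ v) ∘L (fderiv ℝ (fderiv ℝ φ) z))) z := by
    intro v
    exact Complex.ofRealCLM.hasFDerivAt.comp z
      ((ContinuousLinearMap.apply ℝ ℝ v).hasFDerivAt.comp z hdiff2.hasFDerivAt)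
  have hder2 : ∀ w : C2, fderiv ℝ (fun y => dzbar i (fun x => ((φ x : ℝ) : ℂ)) y) z w =
      (((fderiv ℝ (fderiv ℝ φ) z w e1 : ℝ) : ℂ) +
        Complex.I * ((fderiv ℝ (fderiv ℝ φ) z w e2 : ℝ) : ℂ)) / 2 := by
    intro w
    rw [hg.fderiv_eq]
    have h1 := ((hder e1).add ((hder e2).const_mul Complex.I)).mul_const (2⁻¹ : ℂ)
    have h2 : (fun y => (((fderiv ℝ φ y e1 : ℝ) : ℂ) +
        Complex.I * ((fderiv ℝ φ y e2 : ℝ) : ℂ)) / 2) =
        fun y => (((fderiv ℝ φ y e1 : ℝ) : ℂ) +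
        Complex.I * ((fderiv ℝ φ y e2 : ℝ) : ℂ)) * (2⁻¹ : ℂ) := by
      funext y
      rw [div_eq_mul_inv]
    rw [h2]
    have h3 := h1.fderiv
    change fderiv ℝ (fun y => (((fderiv ℝ φ y e1 : ℝ) : ℂ) +
        Complex.I * ((fderiv ℝ φ y e2 : ℝ) : ℂ)) * (2⁻¹ : ℂ)) z = _ at h3
    rw [h3]
    simp
    ring
  rw [dz, hder2, hder2] at h
  have h5 := congrArg Complex.re h
  simp at h5
  linarith

/-- local version of the maximum principle for pluriharmonic functions -/
theorem pluriharmonic_min {U : Set C2} (hU : IsOpen U) {φ : C2 → ℝ} (hφ : ContDiffOn ℝ ∞ φ U)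
    (hpl : ∀ z ∈ U, ∀ i : Fin 2, dz i (fun y => dzbar i (fun x => ((φ x : ℝ) : ℂ)) y) z = 0)
    {p : C2} (hp : p ∈ U) (hmin : ∀ z ∈ U, φ p ≤ φ z) : ∀ᶠ z in 𝓝 p, φ z = φ p := by
  let L : E4 ≃L[ℝ] C2 := NA_lin.toContinuousLinearEquiv
  have hcont : Continuous fun q : E4 => p + L q := continuous_const.add L.continuous
  have hopen : (fun q : E4 => p + L q) ⁻¹' U ∈ 𝓝 (0 : E4) := by
    apply hcont.continuousAt.preimage_mem_nhds
    rw [map_zero, add_zero]
    exact hU.mem_nhds hp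
  obtain ⟨ρ, hρ, hball⟩ := Metric.mem_nhds_iff.1 hopen
  have hFc : ContinuousOn (fun q : E4 => φ (p + L q)) (Metric.ball 0 ρ) :=
    hφ.continuousOn.comp hcont.continuousOn (fun q hq => hball hq)
  have key := strong_min (F := fun q : E4 => φ (p + L q)) hρ hFc
    (fun q hq => by
      rw [map_zero, add_zero]
      exact hmin _ (hball hq))
    (fun a _ => EuclideanSpace.single a 1) (Λ := 1) (lam := 1) one_pos
    (fun q _ a => by simp)
    (fun q _ ξ => by
      rw [one_mul, EuclideanSpace.norm_sq_eq]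
      refine le_of_eq (Finset.sum_congr rfl fun a _ => ?_)
      simp [EuclideanSpace.inner_single_right])
    0 ?_
  · have h1 : Filter.Tendsto (fun z : C2 => L.symm (z - p)) (𝓝 p) (𝓝 0) := by
      have : Continuous fun z : C2 => L.symm (z - p) :=
        L.symm.continuous.comp (continuous_id.sub continuous_const)
      have h2 := this.tendsto p
      simpa using h2
    have h2 : Metric.ball (0 : E4) (ρ / 4) ∈ 𝓝 (0 : E4) := Metric.ball_mem_nhds _ (by positivity)
    filter_upwards [h1 h2] with z hz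
    have h3 := key _ hz
    simp only [ContinuousLinearEquiv.apply_symm_apply, map_zero, add_zero, add_sub_cancel] at h3
    exact h3
  · intro q hq
    have hx : p + L q ∈ U := hball hq
    refine ⟨(fderiv ℝ φ (p + L q)) ∘L (L : E4 →L[ℝ] C2), fun a =>
      fderiv ℝ (fderiv ℝ φ) (p + L q) (L (EuclideanSpace.single a 1))
        (L (EuclideanSpace.single a 1)), ?_, ?_⟩
    · intro a η hη
      filter_upwards [NA_line hU hφ hx (L (EuclideanSpace.single a 1)) hη] with s hs
      have e : p + L (q + s • EuclideanSpace.single a (1 : ℝ)) =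
          p + L q + s • L (EuclideanSpace.single a 1) := by
        rw [map_add, map_smul, add_assoc]
      change φ (p + L (q + s • EuclideanSpace.single a (1 : ℝ))) ≤ _
      rw [e]
      exact hs
    · have l0 : L (EuclideanSpace.single 0 1) = Pi.single 0 1 := NA_lin0
      have l1 : L (EuclideanSpace.single 1 1) = Pi.single 0 Complex.I := NA_lin1
      have l2 : L (EuclideanSpace.single 2 1) = Pi.single 1 1 := NA_lin2
      have l3 : L (EuclideanSpace.single 3 1) = Pi.single 1 Complex.I := NA_lin3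
      rw [zero_mul, Fin.sum_univ_four, l0, l1, l2, l3]
      have h0 := NA_lap hU hφ hx 0 (hpl _ hx 0)
      have h1 := NA_lap hU hφ hx 1 (hpl _ hx 1)
      linarith

end Pool.Agent.Lib.MP_6c284f_gt
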