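import Mathlib

set_option autoImplicit false

/-!
Second order Taylor expansion of a parametric integral over `[0,1]`.
-/

namespace Pool.Agent.Lib.MP_6c284f_gt

open scoped ContDiff Topology
open Set

/-- Mean value inequality on a symmetric interval. -/
theorem param_mvt {g g' : ℝ → ℝ} {δ C : ℝ} (h : ∀ s, |s| ≤ δ → HasDerivAt g (g' s) s)
    (h0 : g 0 = 0) {s : ℝ} (hs : |s| ≤ δ) (hC : ∀ x, |x| ≤ |s| → |g' x| ≤ C) :
    |g s| ≤ C * |s| := by
  have hconv : Convex ℝ (Icc (-|s|) |s|) := convex_Icc _ _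
  have h1 : ∀ x ∈ Icc (-|s|) |s|, HasDerivWithinAt g (g' x) (Icc (-|s|) |s|) x := by
    intro x hx
    exact (h x ((abs_le.2 hx).trans hs)).hasDerivWithinAt
  have h2 : ∀ x ∈ Icc (-|s|) |s|, ‖g' x‖ ≤ C := fun x hx => hC x (abs_le.2 hx)
  have h3 := hconv.norm_image_sub_le_of_norm_hasDerivWithin_le h1 h2
    (x := 0) (y := s) (by simp) (abs_le.1 le_rfl)
  simpa [h0] using h3

/-- If `f s t` has first and second derivatives `f1`, `f2` in `s` for `|s| < r`, `t ∈ [0,1]`,
with `f 0`, `f1 0` and (jointly) `f2` continuous, then the integral has the expected second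
order expansion at `s = 0`. -/
theorem integral_taylor {f f1 f2 : ℝ → ℝ → ℝ} {r : ℝ} (hr : 0 < r)
    (h1 : ∀ t ∈ Icc (0 : ℝ) 1, ∀ s, |s| < r → HasDerivAt (fun s => f s t) (f1 s t) s)
    (h2 : ∀ t ∈ Icc (0 : ℝ) 1, ∀ s, |s| < r → HasDerivAt (fun s => f1 s t) (f2 s t) s)
    (c0 : ContinuousOn (f 0) (Icc 0 1)) (c1 : ContinuousOn (f1 0) (Icc 0 1))
    (c2 : ContinuousOn (fun p : ℝ × ℝ => f2 p.1 p.2) (Ioo (-r) r ×ˢ Icc 0 1))
    (cs : ∀ s, |s| < r → ContinuousOn (f s) (Icc 0 1)) :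
    (fun s : ℝ => (∫ t in (0 : ℝ)..1, f s t) - (∫ t in (0 : ℝ)..1, f 0 t)
      - s * (∫ t in (0 : ℝ)..1, f1 0 t) - s ^ 2 * ((∫ t in (0 : ℝ)..1, f2 0 t) / 2))
      =o[𝓝 0] fun s => s ^ 2 := by
  have c20 : ContinuousOn (f2 0) (Icc 0 1) := by
    have : ContinuousOn (fun t : ℝ => ((0 : ℝ), t)) (Icc 0 1) :=
      continuousOn_const.prodMk continuousOn_id
    exact c2.comp this (fun t ht => ⟨⟨by linarith, hr⟩, ht⟩)
  rw [Asymptotics.isLittleO_iff]
  intro ε hε
  have hK : IsCompact (Icc (-(r / 2)) (r / 2) ×ˢ Icc (0 : ℝ) 1) := isCompact_Icc.prod isCompact_Icc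
  have huc := hK.uniformContinuousOn_of_continuous
    (c2.mono (prod_mono (fun x hx => ⟨by linarith [hx.1], by linarith [hx.2]⟩) le_rfl))
  obtain ⟨δ', hδ', hu⟩ := Metric.uniformContinuousOn_iff.1 huc ε hε
  set δ := min (δ' / 2) (r / 2) with hδdef
  have hδ : 0 < δ := lt_min (by linarith) (by linarith)
  have hδr : δ < r := lt_of_le_of_lt (min_le_right _ _) (by linarith)
  have hb : ∀ s, |s| ≤ δ → ∀ t ∈ Icc (0 : ℝ) 1, |f2 s t - f2 0 t| ≤ ε := by
    intro s hs t ht
    have hs2 : |s| ≤ r / 2 := hs.trans (min_le_right _ _)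
    have h := hu (s, t) ⟨abs_le.1 hs2, ht⟩ (0, t) ⟨⟨by linarith, by linarith⟩, ht⟩
      (by
        rw [Prod.dist_eq]
        simp only [dist_self, Real.dist_eq, sub_zero]
        rw [max_eq_left (abs_nonneg s)]
        exact lt_of_le_of_lt (hs.trans (min_le_left _ _)) (by linarith))
    rw [Real.dist_eq] at h
    exact h.le
  have key : ∀ s, |s| ≤ δ → ∀ t ∈ Icc (0 : ℝ) 1,
      |f s t - f 0 t - s * f1 0 t - s ^ 2 * (f2 0 t / 2)| ≤ ε * |s| * |s| := by
    intro s hs t ht
    have hg1 : ∀ x, |x| ≤ δ → |f1 x t - f1 0 t - x * f2 0 t| ≤ ε * |x| := by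
      intro x hx
      refine param_mvt (g := fun x => f1 x t - f1 0 t - x * f2 0 t)
        (g' := fun x => f2 x t - f2 0 t) (δ := δ) ?_ (by simp) hx ?_
      · intro y hy
        have := ((h2 t ht y (lt_of_le_of_lt hy hδr)).sub_const (f1 0 t)).sub
          ((hasDerivAt_id y).mul_const (f2 0 t))
        refine this.congr_deriv ?_
        simp
      · intro y hy
        exact hb y (hy.trans hx) t ht
    refine param_mvt (g := fun x => f x t - f 0 t - x * f1 0 t - x ^ 2 * (f2 0 t / 2))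
      (g' := fun x => f1 x t - f1 0 t - x * f2 0 t) (δ := δ) ?_ (by simp) hs ?_
    · intro y hy
      have := (((h1 t ht y (lt_of_le_of_lt hy hδr)).sub_const (f 0 t)).sub
        ((hasDerivAt_id y).mul_const (f1 0 t))).sub
        ((hasDerivAt_pow 2 y).mul_const (f2 0 t / 2))
      refine this.congr_deriv ?_
      simp
      ring
    · intro y hy
      refine (hg1 y (hy.trans hs)).trans ?_
      exact mul_le_mul_of_nonneg_left hy hε.le
  filter_upwards [Metric.ball_mem_nhds (0 : ℝ) hδ] with s hs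
  have hs' : |s| ≤ δ := by
    rw [Metric.mem_ball, Real.dist_eq, sub_zero] at hs
    exact hs.le
  have hsr : |s| < r := lt_of_le_of_lt hs' hδr
  have hI : ∀ {g : ℝ → ℝ}, ContinuousOn g (Icc 0 1) →
      IntervalIntegrable g MeasureTheory.volume 0 1 := by
    intro g hg
    exact ContinuousOn.intervalIntegrable (by rwa [uIcc_of_le zero_le_one])
  have hint : (∫ t in (0 : ℝ)..1, f s t) - (∫ t in (0 : ℝ)..1, f 0 t)
      - s * (∫ t in (0 : ℝ)..1, f1 0 t) - s ^ 2 * ((∫ t in (0 : ℝ)..1, f2 0 t) / 2)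
      = ∫ t in (0 : ℝ)..1, (f s t - f 0 t - s * f1 0 t - s ^ 2 * (f2 0 t / 2)) := by
    rw [intervalIntegral.integral_sub, intervalIntegral.integral_sub,
      intervalIntegral.integral_sub, intervalIntegral.integral_const_mul,
      intervalIntegral.integral_const_mul, intervalIntegral.integral_div]
    · exact hI (cs s hsr)
    · exact hI c0
    · exact (hI (cs s hsr)).sub (hI c0)
    · exact (hI c1).const_mul s
    · exact ((hI (cs s hsr)).sub (hI c0)).sub ((hI c1).const_mul s)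
    · exact ((hI c20).div_const 2).const_mul _
  rw [hint]
  have := intervalIntegral.norm_integral_le_of_norm_le_const (a := (0 : ℝ)) (b := 1)
    (f := fun t => f s t - f 0 t - s * f1 0 t - s ^ 2 * (f2 0 t / 2)) (C := ε * |s| * |s|)
    (by
      intro t ht
      rw [uIoc_of_le zero_le_one] at ht
      exact key s hs' t ⟨ht.1.le, ht.2⟩)
  refine this.trans (le_of_eq ?_)
  rw [Real.norm_eq_abs, abs_pow, sub_zero, abs_one]
  ring

end Pool.Agent.Lib.MP_6c284f_gt
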