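import Pool.Agent.Lib.MP_6c284f_gt.HK

set_option autoImplicit false
set_option maxSynthPendingDepth 5

/-!
Pullback of hyperkähler data by local diffeomorphisms, uniqueness of the connection,
transformation of the curvature.
-/

namespace Pool.Agent.Lib.MP_6c284f_gt

open scoped ContDiff Topology
open Set

variable {V : Type} [NormedAddCommGroup V] [NormedSpace ℝ V]
variable {V' : Type} [NormedAddCommGroup V'] [NormedSpace ℝ V']

/-- the pullback of the data `D` by the map `Φ` -/
noncomputable def HKData.pull (D : HKData V) (Φ : V' → V) : HKData V' where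
  G z := (D.G (Φ z)).bilinearComp (fderiv ℝ Φ z) (fderiv ℝ Φ z)
  Γ z := ContinuousLinearMap.compL ℝ V' V V' (fderiv ℝ Φ z).inverse ∘L
    ((D.Γ (Φ z)).bilinearComp (fderiv ℝ Φ z) (fderiv ℝ Φ z) + fderiv ℝ (fderiv ℝ Φ) z)
  I a z := (fderiv ℝ Φ z).inverse ∘L (D.I a (Φ z) ∘L fderiv ℝ Φ z)

end Pool.Agent.Lib.MP_6c284f_gt
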