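import Pool.Agent.Lib.MP_6c284f_gt.Tube
import Pool.Agent.Lib.MP_6c284f_gt.CurvA

set_option autoImplicit false
set_option maxSynthPendingDepth 5

/-!
The two pointwise identities behind the first and the second variation of the energy.
-/

namespace Pool.Agent.Lib.MP_6c284f_gt

open scoped ContDiff Topology
open Set

variable {V : Type} [NormedAddCommGroup V] [NormedSpace ℝ V]

private theorem secPoint_apply2 {F : Type} [NormedAddCommGroup F] [NormedSpace ℝ F]
    {B : V → V →L[ℝ] V →L[ℝ] F} {c a b : ℝ → V} {c' a' b' : V} {t : ℝ}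
    (hB : DifferentiableAt ℝ B (c t)) (hc : HasDerivAt c c' t)
    (ha : HasDerivAt a a' t) (hb : HasDerivAt b b' t) :
    HasDerivAt (fun s => B (c s) (a s) (b s))
      (fderiv ℝ B (c t) c' (a t) (b t) + B (c t) a' (b t) + B (c t) (a t) b') t := by
  have h0 : HasDerivAt (fun s => B (c s)) (fderiv ℝ B (c t) c') t :=
    hB.hasFDerivAt.comp_hasDerivAt t hc
  have h1 := (h0.clm_apply ha).clm_apply hb
  simpa only [add_apply] using h1

private theorem secPoint_diffΓ {D : HKData V} {W : Set V} (h : IsHK D W) {z : V} (hz : z ∈ W) :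
    DifferentiableAt ℝ D.Γ z :=
  ((h.smoothΓ.contDiffAt (h.isOpen.mem_nhds hz)).differentiableAt (by simp))

private theorem secPoint_diffG {D : HKData V} {W : Set V} (h : IsHK D W) {z : V} (hz : z ∈ W) :
    DifferentiableAt ℝ D.G z :=
  ((h.smoothG.contDiffAt (h.isOpen.mem_nhds hz)).differentiableAt (by simp))

private theorem secPoint_c {D : HKData V} {W : Set V} {c : ℝ → V}
    (hc : IsGeod D W c) {t : ℝ} (ht : t ∈ Icc (0 : ℝ) 1) :
    HasDerivAt c (deriv c t) t ∧
      HasDerivAt (deriv c) (-D.Γ (c t) (deriv c t) (deriv c t)) t := by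
  have h2 := hc.smooth t ht
  refine ⟨(h2.differentiableAt (by simp)).hasDerivAt, ?_⟩
  have h3 : ContDiffAt ℝ 1 (deriv c) t := by
    have h4 : ContDiffAt ℝ 1 (fderiv ℝ c) t := h2.fderiv_right (m := 1) (by norm_num)
    have h5 : deriv c = fun s => fderiv ℝ c s 1 := by
      funext s
      exact fderiv_apply_one_eq_deriv.symm
    rw [h5]
    exact h4.clm_apply contDiffAt_const
  rw [← hc.eq t ht]
  exact (h3.differentiableAt (by simp)).hasDerivAt

/-- first variation integrand -/
theorem first_point {D : HKData V} {W : Set V} (h : IsHK D W) {c X : ℝ → V}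
    (hc : IsGeod D W c) {t : ℝ} (ht : t ∈ Icc (0 : ℝ) 1) (hX : DifferentiableAt ℝ X t) :
    HasDerivAt (fun s => 2 * D.G (c s) (deriv c s) (X s))
      (fderiv ℝ D.G (c t) (X t) (deriv c t) (deriv c t)
        + 2 * D.G (c t) (deriv c t) (deriv X t)) t := by
  have hz := hc.mem t ht
  obtain ⟨h1, h2⟩ := secPoint_c hc ht
  have h3 := (secPoint_apply2 (secPoint_diffG h hz) h1 h2 hX.hasDerivAt).const_mul 2
  refine h3.congr_deriv ?_
  rw [h.compat _ hz, h.compat _ hz, h.tors _ hz (X t) (deriv c t),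
    h.symm _ hz (D.Γ (c t) (deriv c t) (X t)) (deriv c t)]
  simp only [map_neg, neg_apply]
  ring

/-- second variation integrand -/
theorem second_point {D : HKData V} {W : Set V} (h : IsHK D W) {c X : ℝ → V}
    (hc : IsGeod D W c) {t : ℝ} (ht : t ∈ Icc (0 : ℝ) 1) (hX : DifferentiableAt ℝ X t) :
    HasDerivAt (fun s => 2 * D.G (c s) (D.Γ (c s) (X s) (X s)) (deriv c s))
      (fderiv ℝ (fderiv ℝ D.G) (c t) (X t) (X t) (deriv c t) (deriv c t)
        + 4 * fderiv ℝ D.G (c t) (X t) (deriv c t) (deriv X t)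
        + 2 * D.G (c t) (deriv X t) (deriv X t)
        - 2 * (D.G (c t) (covD D.Γ c X t) (covD D.Γ c X t)
          - D.G (c t) (curv D.Γ (c t) (X t) (deriv c t) (deriv c t)) (X t))) t := by
  have hz := hc.mem t ht
  obtain ⟨h1, h2⟩ := secPoint_c hc ht
  have h4 := secPoint_apply2 (secPoint_diffΓ h hz) h1 hX.hasDerivAt hX.hasDerivAt
  have h3 := (secPoint_apply2 (secPoint_diffG h hz) h1 h4 h2).const_mul 2
  refine h3.congr_deriv ?_
  rw [curv_skew h hz, fderiv_compat h hz]
  unfold curv covD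
  generalize c t = z at *
  generalize deriv c t = p at *
  generalize X t = x at *
  generalize deriv X t = x' at *
  rw [h.compat _ hz, h.compat _ hz, h.tors _ hz p x, h.tors _ hz x' x,
    fderiv_tors h hz x p x]
  simp only [map_neg, map_add, map_sub, neg_apply, add_apply, sub_apply]
  have s1 := h.symm _ hz (D.Γ z p (D.Γ z x x)) p
  have s2 := h.symm _ hz (fderiv ℝ D.Γ z p x x) p
  have s3 := h.symm _ hz (D.Γ z x x') p
  have s4 := h.symm _ hz (D.Γ z x (D.Γ z x p)) p
  have s5 := h.symm _ hz (fderiv ℝ D.Γ z x x p) p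
  have s6 := h.symm _ hz (D.Γ z x p) x'
  linarith

end Pool.Agent.Lib.MP_6c284f_gt
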