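import Pool.Agent.Lib.MP_6c284f_gt.SecPoint
import Pool.Agent.Lib.MP_6c284f_gt.Param

set_option autoImplicit false
set_option maxSynthPendingDepth 5

/-!
The second variation formula for the energy.
-/

namespace Pool.Agent.Lib.MP_6c284f_gt

open scoped ContDiff Topology
open Set

variable {V : Type} [NormedAddCommGroup V] [NormedSpace ℝ V]

theorem secVar_fderiv_symm {D : HKData V} {W : Set V} (h : IsHK D W) {z : V} (hz : z ∈ W)
    (u v w : V) : fderiv ℝ D.G z u v w = fderiv ℝ D.G z u w v := by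
  rw [h.compat z hz, h.compat z hz, h.symm z hz _ w, h.symm z hz v]
  ring

theorem secVar_tube {W : Set V} (hW : IsOpen W) {c X : ℝ → V}
    (hc : ContinuousOn c (Icc 0 1)) (hX : ContinuousOn X (Icc 0 1))
    (hm : ∀ t ∈ Icc (0 : ℝ) 1, c t ∈ W) :
    ∃ r : ℝ, 0 < r ∧ ∀ t ∈ Icc (0 : ℝ) 1, ∀ s : ℝ, |s| < r → c t + s • X t ∈ W := by
  obtain ⟨M, hM⟩ := isCompact_Icc.exists_bound_of_continuousOn hX
  obtain ⟨δ, hδ, hsub⟩ := (isCompact_Icc.image_of_continuousOn hc).exists_cthickening_subset_open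
    hW (by rintro _ ⟨t, ht, rfl⟩; exact hm t ht)
  have hM0 : 0 ≤ M := (norm_nonneg _).trans (hM 0 ⟨le_rfl, zero_le_one⟩)
  refine ⟨δ / (M + 1), by positivity, fun t ht s hs => hsub ?_⟩
  refine Metric.mem_cthickening_of_dist_le _ (c t) _ _ ⟨t, ht, rfl⟩ ?_
  rw [dist_eq_norm, add_sub_cancel_left, norm_smul, Real.norm_eq_abs]
  have h1 : |s| * ‖X t‖ ≤ δ / (M + 1) * (M + 1) := by
    refine mul_le_mul hs.le ((hM t ht).trans (by linarith)) (norm_nonneg _) (by positivity)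
  rwa [div_mul_cancel₀ _ (by positivity)] at h1

theorem secVar_contDeriv {X : ℝ → V} (hX : ∀ t ∈ Icc (0 : ℝ) 1, ContDiffAt ℝ 1 X t) :
    ContinuousOn (deriv X) (Icc 0 1) := by
  intro t ht
  have h1 : ContinuousAt (fderiv ℝ X) t :=
    ((hX t ht).fderiv_right (m := 0) (by norm_num)).continuousAt
  have h2 : ContinuousAt (fun t => fderiv ℝ X t 1) t := h1.clm_apply continuousAt_const
  exact h2.continuousWithinAt

theorem second_variation {D : HKData V} {W : Set V} (h : IsHK D W) {c X : ℝ → V}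
    (hc : IsGeod D W c) (hX : ∀ t ∈ Icc (0 : ℝ) 1, ContDiffAt ℝ 1 X t) :
    (fun s : ℝ => energy D.G (fun t => c t + s • X t) - energy D.G c
      - s * (2 * (D.G (c 1) (deriv c 1) (X 1) - D.G (c 0) (deriv c 0) (X 0)))
      - s ^ 2 * ((∫ t in (0 : ℝ)..1, (D.G (c t) (covD D.Γ c X t) (covD D.Γ c X t)
            - D.G (c t) (curv D.Γ (c t) (X t) (deriv c t) (deriv c t)) (X t)))
          + (D.G (c 1) (D.Γ (c 1) (X 1) (X 1)) (deriv c 1)
            - D.G (c 0) (D.Γ (c 0) (X 0) (X 0)) (deriv c 0))))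
      =o[𝓝 0] fun s => s ^ 2 := by
  have hcc : ContinuousOn c (Icc 0 1) := fun t ht =>
    (hc.smooth t ht).continuousAt.continuousWithinAt
  have hXc : ContinuousOn X (Icc 0 1) := fun t ht =>
    (hX t ht).continuousAt.continuousWithinAt
  have hcd : ContinuousOn (deriv c) (Icc 0 1) :=
    secVar_contDeriv (fun t ht => (hc.smooth t ht).of_le (by norm_num))
  have hXd : ContinuousOn (deriv X) (Icc 0 1) := secVar_contDeriv hX
  have hdc : ∀ t ∈ Icc (0 : ℝ) 1, DifferentiableAt ℝ c t := fun t ht =>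
    (hc.smooth t ht).differentiableAt (by norm_num)
  have hdX : ∀ t ∈ Icc (0 : ℝ) 1, DifferentiableAt ℝ X t := fun t ht =>
    (hX t ht).differentiableAt (by norm_num)
  obtain ⟨r, hr, hmem⟩ := secVar_tube h.isOpen hcc hXc hc.mem
  have hG1 : ContDiffOn ℝ ∞ (fderiv ℝ D.G) W := h.smoothG.fderiv_of_isOpen h.isOpen (by simp)
  have hG2 : ContDiffOn ℝ ∞ (fderiv ℝ (fderiv ℝ D.G)) W := hG1.fderiv_of_isOpen h.isOpen (by simp)
  have hdG : ∀ z ∈ W, HasFDerivAt D.G (fderiv ℝ D.G z) z := fun z hz =>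
    ((h.smoothG.contDiffAt (h.isOpen.mem_nhds hz)).differentiableAt (by simp)).hasFDerivAt
  have hdG1 : ∀ z ∈ W, HasFDerivAt (fderiv ℝ D.G) (fderiv ℝ (fderiv ℝ D.G) z) z := fun z hz =>
    ((hG1.contDiffAt (h.isOpen.mem_nhds hz)).differentiableAt (by simp)).hasFDerivAt
  set f : ℝ → ℝ → ℝ := fun s t => D.G (c t + s • X t) (deriv c t + s • deriv X t)
    (deriv c t + s • deriv X t) with hf
  set f1 : ℝ → ℝ → ℝ := fun s t => fderiv ℝ D.G (c t + s • X t) (X t)
    (deriv c t + s • deriv X t) (deriv c t + s • deriv X t)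
    + 2 * D.G (c t + s • X t) (deriv c t + s • deriv X t) (deriv X t) with hf1
  set f2 : ℝ → ℝ → ℝ := fun s t => fderiv ℝ (fderiv ℝ D.G) (c t + s • X t) (X t) (X t)
    (deriv c t + s • deriv X t) (deriv c t + s • deriv X t)
    + 4 * fderiv ℝ D.G (c t + s • X t) (X t) (deriv c t + s • deriv X t) (deriv X t)
    + 2 * D.G (c t + s • X t) (deriv X t) (deriv X t) with hf2
  have hp : ∀ t s : ℝ, HasDerivAt (fun s : ℝ => c t + s • X t) (X t) s := by
    intro t s
    have := ((hasDerivAt_id s).smul_const (X t)).const_add (c t)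
    simpa using this
  have hq : ∀ t s : ℝ, HasDerivAt (fun s : ℝ => deriv c t + s • deriv X t) (deriv X t) s := by
    intro t s
    have := ((hasDerivAt_id s).smul_const (deriv X t)).const_add (deriv c t)
    simpa using this
  have h1 : ∀ t ∈ Icc (0 : ℝ) 1, ∀ s, |s| < r → HasDerivAt (fun s => f s t) (f1 s t) s := by
    intro t ht s hs
    have hz := hmem t ht s hs
    have hA := (hdG _ hz).comp_hasDerivAt s (hp t s)
    have hB := (hA.clm_apply (hq t s)).clm_apply (hq t s)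
    refine hB.congr_deriv ?_
    simp only [hf1, Function.comp_apply, add_apply]
    rw [h.symm _ hz (deriv X t)]
    ring
  have h2 : ∀ t ∈ Icc (0 : ℝ) 1, ∀ s, |s| < r → HasDerivAt (fun s => f1 s t) (f2 s t) s := by
    intro t ht s hs
    have hz := hmem t ht s hs
    have hA := (hdG _ hz).comp_hasDerivAt s (hp t s)
    have hA' := (hdG1 _ hz).comp_hasDerivAt s (hp t s)
    have hB := ((hA'.clm_apply (hasDerivAt_const s (X t))).clm_apply (hq t s)).clm_apply (hq t s)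
    have hC := ((hA.clm_apply (hq t s)).clm_apply (hasDerivAt_const s (deriv X t))).const_mul 2
    refine (hB.add hC).congr_deriv ?_
    simp only [hf2, Function.comp_apply, add_apply, map_zero, add_zero]
    rw [secVar_fderiv_symm h hz (X t) (deriv X t)]
    ring
  have hP : ContinuousOn (fun p : ℝ × ℝ => c p.2 + p.1 • X p.2) (Ioo (-r) r ×ˢ Icc 0 1) := by
    have a1 : ContinuousOn (fun p : ℝ × ℝ => c p.2) (Ioo (-r) r ×ˢ Icc 0 1) :=
      hcc.comp continuousOn_snd (fun p hp => hp.2)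
    have a2 : ContinuousOn (fun p : ℝ × ℝ => X p.2) (Ioo (-r) r ×ˢ Icc 0 1) :=
      hXc.comp continuousOn_snd (fun p hp => hp.2)
    exact a1.add (continuousOn_fst.smul a2)
  have hQX : ContinuousOn (fun p : ℝ × ℝ => X p.2) (Ioo (-r) r ×ˢ Icc 0 1) :=
    hXc.comp continuousOn_snd (fun p hp => hp.2)
  have hQX' : ContinuousOn (fun p : ℝ × ℝ => deriv X p.2) (Ioo (-r) r ×ˢ Icc 0 1) :=
    hXd.comp continuousOn_snd (fun p hp => hp.2)
  have hQ : ContinuousOn (fun p : ℝ × ℝ => deriv c p.2 + p.1 • deriv X p.2)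
      (Ioo (-r) r ×ˢ Icc 0 1) := by
    have a1 : ContinuousOn (fun p : ℝ × ℝ => deriv c p.2) (Ioo (-r) r ×ˢ Icc 0 1) :=
      hcd.comp continuousOn_snd (fun p hp => hp.2)
    exact a1.add (continuousOn_fst.smul hQX')
  have hmaps : MapsTo (fun p : ℝ × ℝ => c p.2 + p.1 • X p.2) (Ioo (-r) r ×ˢ Icc 0 1) W := by
    rintro ⟨s, t⟩ ⟨hs, ht⟩
    exact hmem t ht s (abs_lt.2 hs)
  have k0 : ContinuousOn (fun p : ℝ × ℝ => D.G (c p.2 + p.1 • X p.2)) (Ioo (-r) r ×ˢ Icc 0 1) :=
    h.smoothG.continuousOn.comp hP hmaps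
  have k1 : ContinuousOn (fun p : ℝ × ℝ => fderiv ℝ D.G (c p.2 + p.1 • X p.2))
      (Ioo (-r) r ×ˢ Icc 0 1) :=
    hG1.continuousOn.comp hP hmaps
  have k2 : ContinuousOn (fun p : ℝ × ℝ => fderiv ℝ (fderiv ℝ D.G) (c p.2 + p.1 • X p.2))
      (Ioo (-r) r ×ˢ Icc 0 1) :=
    hG2.continuousOn.comp hP hmaps
  have cf : ContinuousOn (fun p : ℝ × ℝ => f p.1 p.2) (Ioo (-r) r ×ˢ Icc 0 1) :=
    (k0.clm_apply hQ).clm_apply hQ
  have cf1 : ContinuousOn (fun p : ℝ × ℝ => f1 p.1 p.2) (Ioo (-r) r ×ˢ Icc 0 1) :=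
    (((k1.clm_apply hQX).clm_apply hQ).clm_apply hQ).add
      (continuousOn_const.mul ((k0.clm_apply hQ).clm_apply hQX'))
  have cf2 : ContinuousOn (fun p : ℝ × ℝ => f2 p.1 p.2) (Ioo (-r) r ×ˢ Icc 0 1) :=
    ((((((k2.clm_apply hQX).clm_apply hQX).clm_apply hQ).clm_apply hQ)).add
      (continuousOn_const.mul (((k1.clm_apply hQX).clm_apply hQ).clm_apply hQX'))).add
      (continuousOn_const.mul ((k0.clm_apply hQX').clm_apply hQX'))
  have slice : ∀ {g : ℝ → ℝ → ℝ}, ContinuousOn (fun p : ℝ × ℝ => g p.1 p.2)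
      (Ioo (-r) r ×ˢ Icc 0 1) → ∀ s, |s| < r → ContinuousOn (g s) (Icc 0 1) := by
    intro g hg s hs
    have : ContinuousOn (fun t : ℝ => (s, t)) (Icc 0 1) :=
      continuousOn_const.prodMk continuousOn_id
    exact hg.comp this (fun t ht => ⟨abs_lt.1 hs, ht⟩)
  have h00 : |(0 : ℝ)| < r := by simpa using hr
  have T := integral_taylor hr h1 h2 (slice cf 0 h00) (slice cf1 0 h00) cf2
    (fun s hs => slice cf s hs)
  have hI : ∀ {g : ℝ → ℝ}, ContinuousOn g (Icc 0 1) →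
      IntervalIntegrable g MeasureTheory.volume 0 1 := by
    intro g hg
    exact ContinuousOn.intervalIntegrable (by rwa [uIcc_of_le zero_le_one])
  -- energies
  have hen : ∀ s : ℝ, energy D.G (fun t => c t + s • X t) = ∫ t in (0 : ℝ)..1, f s t := by
    intro s
    refine intervalIntegral.integral_congr fun t ht => ?_
    rw [uIcc_of_le zero_le_one] at ht
    have hd : deriv (fun t => c t + s • X t) t = deriv c t + s • deriv X t := by
      have := ((hdc t ht).hasDerivAt).add (((hdX t ht).hasDerivAt).const_smul s)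
      exact this.deriv
    simp only [hf, hd]
  have hen0 : energy D.G c = ∫ t in (0 : ℝ)..1, f 0 t := by
    rw [← hen 0]
    simp
  have e1 : (∫ t in (0 : ℝ)..1, f1 0 t)
      = 2 * (D.G (c 1) (deriv c 1) (X 1) - D.G (c 0) (deriv c 0) (X 0)) := by
    rw [intervalIntegral.integral_eq_sub_of_hasDerivAt
      (f := fun s => 2 * D.G (c s) (deriv c s) (X s)) ?_ (hI (slice cf1 0 h00))]
    · ring
    · intro t ht
      rw [uIcc_of_le zero_le_one] at ht
      have := first_point h hc ht (hdX t ht)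
      simpa [hf1] using this
  have hk0 : ContinuousOn (fun t => D.G (c t)) (Icc 0 1) :=
    h.smoothG.continuousOn.comp hcc hc.mem
  have hΓ0 : ContinuousOn (fun t => D.Γ (c t)) (Icc 0 1) :=
    h.smoothΓ.continuousOn.comp hcc hc.mem
  have hΓ1' : ContDiffOn ℝ ∞ (fderiv ℝ D.Γ) W := h.smoothΓ.fderiv_of_isOpen h.isOpen (by simp)
  have hΓ1 : ContinuousOn (fun t => fderiv ℝ D.Γ (c t)) (Icc 0 1) :=
    hΓ1'.continuousOn.comp hcc hc.mem
  have hcov : ContinuousOn (covD D.Γ c X) (Icc 0 1) :=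
    hXd.add ((hΓ0.clm_apply hcd).clm_apply hXc)
  have hcurv : ContinuousOn (fun t => curv D.Γ (c t) (X t) (deriv c t) (deriv c t)) (Icc 0 1) :=
    (((((hΓ1.clm_apply hXc).clm_apply hcd).clm_apply hcd).sub
      (((hΓ1.clm_apply hcd).clm_apply hXc).clm_apply hcd)).add
      ((hΓ0.clm_apply hXc).clm_apply ((hΓ0.clm_apply hcd).clm_apply hcd))).sub
      ((hΓ0.clm_apply hcd).clm_apply ((hΓ0.clm_apply hXc).clm_apply hcd))
  have hidx : ContinuousOn (fun t => D.G (c t) (covD D.Γ c X t) (covD D.Γ c X t)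
            - D.G (c t) (curv D.Γ (c t) (X t) (deriv c t) (deriv c t)) (X t)) (Icc 0 1) :=
    ((hk0.clm_apply hcov).clm_apply hcov).sub ((hk0.clm_apply hcurv).clm_apply hXc)
  have hidx2 : ContinuousOn (fun t => 2 * (D.G (c t) (covD D.Γ c X t) (covD D.Γ c X t)
            - D.G (c t) (curv D.Γ (c t) (X t) (deriv c t) (deriv c t)) (X t))) (Icc 0 1) :=
    continuousOn_const.mul hidx
  have hsub2 : ContinuousOn (fun t => f2 0 t - 2 * (D.G (c t) (covD D.Γ c X t) (covD D.Γ c X t)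
            - D.G (c t) (curv D.Γ (c t) (X t) (deriv c t) (deriv c t)) (X t))) (Icc 0 1) :=
    (slice cf2 0 h00).sub hidx2
  have e2 : (∫ t in (0 : ℝ)..1, f2 0 t) / 2
      = (∫ t in (0 : ℝ)..1, (D.G (c t) (covD D.Γ c X t) (covD D.Γ c X t)
            - D.G (c t) (curv D.Γ (c t) (X t) (deriv c t) (deriv c t)) (X t)))
          + (D.G (c 1) (D.Γ (c 1) (X 1) (X 1)) (deriv c 1)
            - D.G (c 0) (D.Γ (c 0) (X 0) (X 0)) (deriv c 0)) := by
    have e3 : (∫ t in (0 : ℝ)..1, (f2 0 t - 2 * (D.G (c t) (covD D.Γ c X t) (covD D.Γ c X t)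
            - D.G (c t) (curv D.Γ (c t) (X t) (deriv c t) (deriv c t)) (X t))))
        = 2 * D.G (c 1) (D.Γ (c 1) (X 1) (X 1)) (deriv c 1)
          - 2 * D.G (c 0) (D.Γ (c 0) (X 0) (X 0)) (deriv c 0) := by
      rw [intervalIntegral.integral_eq_sub_of_hasDerivAt
        (f := fun s => 2 * D.G (c s) (D.Γ (c s) (X s) (X s)) (deriv c s)) ?_ (hI hsub2)]
      intro t ht
      rw [uIcc_of_le zero_le_one] at ht
      have := second_point h hc ht (hdX t ht)
      simpa [hf2] using this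
    rw [intervalIntegral.integral_sub (hI (slice cf2 0 h00)) (hI hidx2),
      intervalIntegral.integral_const_mul] at e3
    linarith
  rw [e1, e2] at T
  simpa only [hen, hen0] using T

end Pool.Agent.Lib.MP_6c284f_gt
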