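import Pool.Agent.Lib.MP_6c284f_gt.ManTubeC

set_option autoImplicit false
set_option maxSynthPendingDepth 5

/-!
Loops in the tube define closed curves in the manifold; their length.
-/

namespace Pool.Agent.Lib.MP_6c284f_gt

open scoped Manifold ContDiff Topology
open Set

variable {X : Type} [TopologicalSpace X] [ChartedSpace C2 X]

/-- a path on `[0,1]` with equal end points defines a closed curve -/
theorem exists_closed {p : ℝ → X} (hp : ContinuousOn p (Icc 0 1)) (h01 : p 1 = p 0) :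
    ∃ b : C(UnitAddCircle, X), ∀ t ∈ Icc (0 : ℝ) 1, lift b t = p t := by
  refine ⟨⟨AddCircle.liftIco 1 0 p, AddCircle.liftIco_zero_continuous h01.symm hp⟩, ?_⟩
  intro t ht
  change AddCircle.liftIco 1 0 p (t : UnitAddCircle) = p t
  rcases lt_or_eq_of_le ht.2 with h | h
  · exact AddCircle.liftIco_zero_coe_apply ⟨ht.1, h⟩
  · have h1 : ((t : ℝ) : UnitAddCircle) = ((0 : ℝ) : UnitAddCircle) := by
      rw [h]
      simp
    rw [h1, AddCircle.liftIco_zero_coe_apply ⟨le_refl _, zero_lt_one⟩, h, h01]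

/-- the good neighbourhoods in `exists_close` -/
private def TransferAA_P (Φ : E4 → X) (W : Set E4) (U : Set C(UnitAddCircle, X)) : Prop :=
  ∃ δ > 0, (∀ t ∈ Icc (0 : ℝ) 1, ∀ z, ‖z - t • e0‖ < δ → z ∈ W) ∧
      ∀ (c : ℝ → E4) (b : C(UnitAddCircle, X)),
        (∀ t ∈ Icc (0 : ℝ) 1, ‖c t - t • e0‖ < δ) →
        (∀ t ∈ Icc (0 : ℝ) 1, lift b t = Φ (c t)) → b ∈ U

/-- The closed curves defined by loops in the tube close to the axis are `C⁰`-close to `γ`. -/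
theorem exists_close [T2Space X] [CompactSpace X] {Φ : E4 → X} {W : Set E4} (hW : IsOpen W)
    (hΦ : ContinuousOn Φ W) {ε : ℝ} (hε : 0 < ε) (haxis : ∀ t ∈ Ioo (-ε) (1 + ε), t • e0 ∈ W)
    {γ : C(UnitAddCircle, X)} (hγ : ∀ t ∈ Ioo (-ε) (1 + ε), Φ (t • e0) = lift γ t)
    {U : Set C(UnitAddCircle, X)} (hU : U ∈ 𝓝 γ) :
    ∃ δ > 0, (∀ t ∈ Icc (0 : ℝ) 1, ∀ z, ‖z - t • e0‖ < δ → z ∈ W) ∧
      ∀ (c : ℝ → E4) (b : C(UnitAddCircle, X)),
        (∀ t ∈ Icc (0 : ℝ) 1, ‖c t - t • e0‖ < δ) →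
        (∀ t ∈ Icc (0 : ℝ) 1, lift b t = Φ (c t)) → b ∈ U := by
  have hIcc : ∀ t ∈ Icc (0 : ℝ) 1, t ∈ Ioo (-ε) (1 + ε) := by
    intro t ht
    exact ⟨by linarith [ht.1], by linarith [ht.2]⟩
  have hcont : Continuous fun t : ℝ => t • e0 := continuous_id.smul continuous_const
  -- compactness
  have hcomp : ∀ (K : Set ℝ) (O : Set E4), IsCompact K → IsOpen O → (∀ t ∈ K, t • e0 ∈ O) →
      ∃ δ > 0, ∀ t ∈ K, ∀ z, ‖z - t • e0‖ < δ → z ∈ O := by
    intro K O hK hO hKO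
    obtain ⟨δ, hδ, hsub⟩ := (hK.image hcont).exists_thickening_subset_open hO (by
      rintro _ ⟨t, ht, rfl⟩
      exact hKO t ht)
    refine ⟨δ, hδ, fun t ht z hz => hsub ?_⟩
    rw [Metric.mem_thickening_iff]
    exact ⟨t • e0, ⟨t, ht, rfl⟩, by rwa [dist_eq_norm]⟩
  obtain ⟨δ₀, hδ₀, hW0⟩ := hcomp (Icc 0 1) W isCompact_Icc hW fun t ht => haxis t (hIcc t ht)
  let G : Filter C(UnitAddCircle, X) :=
    { sets := {U | TransferAA_P Φ W U}
      univ_sets := ⟨δ₀, hδ₀, hW0, fun _ _ _ _ => trivial⟩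
      sets_of_superset := by
        rintro A B ⟨δ, hδ, h1, h2⟩ hAB
        exact ⟨δ, hδ, h1, fun c b hc hb => hAB (h2 c b hc hb)⟩
      inter_sets := by
        rintro A B ⟨δ, hδ, h1, h2⟩ ⟨δ', hδ', h1', h2'⟩
        refine ⟨min δ δ', lt_min hδ hδ', fun t ht z hz =>
          h1 t ht z (lt_of_lt_of_le hz (min_le_left _ _)), fun c b hc hb => ⟨?_, ?_⟩⟩
        · exact h2 c b (fun t ht => lt_of_lt_of_le (hc t ht) (min_le_left _ _)) hb
        · exact h2' c b (fun t ht => lt_of_lt_of_le (hc t ht) (min_le_right _ _)) hb }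
  have hG : G ≤ 𝓝 γ := by
    rw [ContinuousMap.nhds_compactOpen]
    refine le_iInf fun K => le_iInf fun hK => le_iInf fun V => le_iInf fun hV =>
      le_iInf fun hKV => ?_
    rw [Filter.le_principal_iff]
    change TransferAA_P Φ W _
    have hK' : IsCompact (Icc (0 : ℝ) 1 ∩ (fun t : ℝ => (t : UnitAddCircle)) ⁻¹' K) :=
      isCompact_Icc.inter_right (hK.isClosed.preimage (AddCircle.continuous_mk' 1))
    obtain ⟨δ, hδ, h1⟩ := hcomp _ (W ∩ Φ ⁻¹' V) hK' (hΦ.isOpen_inter_preimage hW hV) (by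
      rintro t ⟨ht, htK⟩
      refine ⟨haxis t (hIcc t ht), ?_⟩
      change Φ (t • e0) ∈ V
      rw [hγ t (hIcc t ht)]
      exact hKV htK)
    refine ⟨min δ δ₀, lt_min hδ hδ₀, fun t ht z hz =>
      hW0 t ht z (lt_of_lt_of_le hz (min_le_right _ _)), fun c b hc hb => ?_⟩
    intro s hs
    obtain ⟨t, ht, rfl⟩ : ∃ t ∈ Ico (0 : ℝ) 1, (t : UnitAddCircle) = s := by
      refine ⟨(AddCircle.equivIco 1 0 s : ℝ), ?_, AddCircle.coe_equivIco⟩
      have := (AddCircle.equivIco 1 0 s).2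
      simpa using this
    have ht' : t ∈ Icc (0 : ℝ) 1 := ⟨ht.1, ht.2.le⟩
    have h2 := h1 t ⟨ht', hs⟩ (c t) (lt_of_lt_of_le (hc t ht') (min_le_left _ _))
    have h3 : b (t : UnitAddCircle) = Φ (c t) := hb t ht'
    rw [h3]
    exact h2.2
  exact hG hU

end Pool.Agent.Lib.MP_6c284f_gt
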