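import Pool.Agent.Lib.MP_6c284f_gt.ManTubeC
import Pool.Agent.Lib.MP_6c284f_gt.TransferAA

set_option autoImplicit false
set_option maxSynthPendingDepth 5

/-!
Loops in the tube define closed curves in the manifold; their length.
-/

namespace Pool.Agent.Lib.MP_6c284f_gt

open scoped Manifold ContDiff Topology
open Set

variable {X : Type} [TopologicalSpace X] [ChartedSpace C2 X]

/-- Cauchy-Schwarz on `[0,1]` -/
private theorem transferA_cs {f : ℝ → ℝ} (hf : ContinuousOn f (Icc 0 1)) :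
    (∫ t in (0 : ℝ)..1, f t) ^ 2 ≤ ∫ t in (0 : ℝ)..1, f t ^ 2 := by
  have h01 : uIcc (0 : ℝ) 1 = Icc 0 1 := uIcc_of_le zero_le_one
  have hi : IntervalIntegrable f MeasureTheory.volume 0 1 :=
    ContinuousOn.intervalIntegrable (by rw [h01]; exact hf)
  have hi2 : IntervalIntegrable (fun t => f t ^ 2) MeasureTheory.volume 0 1 :=
    ContinuousOn.intervalIntegrable (by rw [h01]; exact hf.pow 2)
  set m := ∫ t in (0 : ℝ)..1, f t with hm
  have h1 : 0 ≤ ∫ t in (0 : ℝ)..1, (f t - m) ^ 2 :=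
    intervalIntegral.integral_nonneg zero_le_one fun t _ => sq_nonneg _
  have h2 : ∫ t in (0 : ℝ)..1, (f t - m) ^ 2
      = (∫ t in (0 : ℝ)..1, f t ^ 2) - m ^ 2 := by
    have h3 : ∀ t, (f t - m) ^ 2 = f t ^ 2 - (2 * m) * f t + m ^ 2 := fun t => by ring
    simp_rw [h3]
    rw [intervalIntegral.integral_add (hi2.sub (hi.const_mul _)) intervalIntegrable_const,
      intervalIntegral.integral_sub hi2 (hi.const_mul _),
      intervalIntegral.integral_const_mul, intervalIntegral.integral_const, ← hm]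
    simp only [sub_zero, smul_eq_mul, one_mul]
    ring
  linarith

/-- length and energy of a loop in the tube -/
theorem length_sq_le (hX : IsManifold 𝓘(ℝ, C2) ∞ X) (g : KahlerMetric X) (M : ManHK X)
    (hG : ∀ e ∈ atlas C2 X, ∀ z ∈ e.target, ∀ v w, (M.D e).G z v w = g.inner e z v w)
    {Φ : E4 → X} {W : Set E4} (hW : IsOpen W)
    (hΦ : ∀ z ∈ W, ContMDiffAt 𝓘(ℝ, E4) 𝓘(ℝ, C2) ∞ Φ z)
    (hHK : IsHK (M.pullMap Φ) W)
    (hrel : ∀ z ∈ W, ∀ e ∈ atlas C2 X, Φ z ∈ e.source →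
      HKRel (M.pullMap Φ) (M.D e) (e ∘ Φ) z)
    {c : ℝ → E4} (hc : ∀ t ∈ Icc (0 : ℝ) 1, ContDiffAt ℝ 1 c t)
    (hcW : ∀ t ∈ Icc (0 : ℝ) 1, c t ∈ W) {b : C(UnitAddCircle, X)}
    (hb : ∀ t ∈ Icc (0 : ℝ) 1, lift b t = Φ (c t)) :
    g.length (lift b) ^ 2 ≤ energy (M.pullMap Φ).G c ∧ PiecewiseC1 (lift b) := by
  constructor
  · set q : ℝ → ℝ := fun t => (M.pullMap Φ).G (c t) (deriv c t) (deriv c t) with hq
    have hqc : ContinuousOn q (Icc 0 1) := by
      intro t ht
      have h1 : ContinuousAt (deriv c) t := by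
        have h2 : ContDiffAt ℝ 0 (deriv c) t := (hc t ht).derivWithin (m := 0) (by simp)
        exact h2.continuousAt
      have h2 : ContinuousAt c t := (hc t ht).continuousAt
      have h3 : ContinuousAt (M.pullMap Φ).G (c t) :=
        (hHK.smoothG.continuousOn.continuousAt (hW.mem_nhds (hcW t ht)))
      have h4 : ContinuousAt (fun s => (M.pullMap Φ).G (c s)) t :=
        ContinuousAt.comp (g := (M.pullMap Φ).G) h3 h2
      exact ((h4.clm_apply h1).clm_apply h1).continuousWithinAt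
    have hspeed : ∀ t ∈ Ioo (0 : ℝ) 1, g.speed (lift b) t = Real.sqrt (q t) := by
      intro t ht
      have htI : t ∈ Icc (0 : ℝ) 1 := Ioo_subset_Icc_self ht
      have hcs : Φ (c t) ∈ (chartAt C2 (Φ (c t))).source := mem_chart_source C2 _
      have hcA : chartAt C2 (Φ (c t)) ∈ atlas C2 X := chart_mem_atlas C2 _
      have h1 : lift b t = Φ (c t) := hb t htI
      have h2 : ∀ᶠ s in 𝓝 t, lift b s = Φ (c s) := by
        filter_upwards [isOpen_Ioo.mem_nhds ht] with s hs
        exact hb s (Ioo_subset_Icc_self hs)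
      have h3 : deriv (chartAt C2 (Φ (c t)) ∘ lift b) t
          = fderiv ℝ (chartAt C2 (Φ (c t)) ∘ Φ) (c t) (deriv c t) := by
        have h4 : (chartAt C2 (Φ (c t)) ∘ lift b)
            =ᶠ[𝓝 t] (chartAt C2 (Φ (c t)) ∘ Φ) ∘ c := by
          filter_upwards [h2] with s hs
          show chartAt C2 (Φ (c t)) (lift b s) = chartAt C2 (Φ (c t)) (Φ (c s))
          rw [hs]
        rw [h4.deriv_eq]
        have h5 : DifferentiableAt ℝ (chartAt C2 (Φ (c t)) ∘ Φ) (c t) :=
          (mt_chart_smooth hX (hΦ _ (hcW t htI)) hcA hcs).differentiableAt (by simp)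
        have h6 : DifferentiableAt ℝ c t := (hc t htI).differentiableAt (by simp)
        exact (h5.hasFDerivAt.comp_hasDerivAt t h6.hasDerivAt).deriv
      unfold KahlerMetric.speed
      rw [h1, h3]
      congr 1
      rw [← hG _ hcA _ ((chartAt C2 (Φ (c t))).map_source hcs)]
      exact ((hrel _ (hcW t htI) _ hcA hcs).G _ _).symm
    have hlen : g.length (lift b) = ∫ t in (0 : ℝ)..1, Real.sqrt (q t) := by
      unfold KahlerMetric.length
      rw [intervalIntegral.integral_of_le zero_le_one, intervalIntegral.integral_of_le zero_le_one,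
        MeasureTheory.integral_Ioc_eq_integral_Ioo, MeasureTheory.integral_Ioc_eq_integral_Ioo]
      exact MeasureTheory.setIntegral_congr_fun measurableSet_Ioo hspeed
    have hq0 : ∀ t ∈ Icc (0 : ℝ) 1, 0 ≤ q t := by
      intro t ht
      by_cases hv : deriv c t = 0
      · show 0 ≤ (M.pullMap Φ).G (c t) (deriv c t) (deriv c t)
        rw [hv, map_zero]
      · exact (hHK.pos _ (hcW t ht) _ hv).le
    rw [hlen]
    refine (transferA_cs hqc.sqrt).trans (le_of_eq ?_)
    unfold energy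
    refine intervalIntegral.integral_congr fun t ht => ?_
    rw [uIcc_of_le zero_le_one] at ht
    exact Real.sq_sqrt (hq0 t ht)
  · refine ⟨1, fun k => min (k : ℝ) 1, ?_, by simp, by simp, ?_⟩
    · intro i j hij
      exact min_le_min_right _ (by exact_mod_cast hij)
    · intro i hi
      obtain rfl : i = 0 := by omega
      have h1 : Icc (min ((0 : ℕ) : ℝ) 1) (min ((0 + 1 : ℕ) : ℝ) 1) = Icc (0 : ℝ) 1 := by simp
      show ContMDiffOn 𝓘(ℝ, ℝ) 𝓘(ℝ, C2) 1 (lift b)
        (Icc (min ((0 : ℕ) : ℝ) 1) (min ((0 + 1 : ℕ) : ℝ) 1))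
      rw [h1]
      have h2 : ContMDiffOn 𝓘(ℝ, ℝ) 𝓘(ℝ, C2) 1 (Φ ∘ c) (Icc 0 1) := by
        intro t ht
        have h3 : ContMDiffAt 𝓘(ℝ, ℝ) 𝓘(ℝ, E4) 1 c t := (hc t ht).contMDiffAt
        have h4 : ContMDiffAt 𝓘(ℝ, E4) 𝓘(ℝ, C2) 1 Φ (c t) :=
          (hΦ _ (hcW t ht)).of_le (by simp)
        exact (h4.comp t h3).contMDiffWithinAt
      exact h2.congr hb

/-- length of a curve of constant speed -/
theorem length_const (g : KahlerMetric X) (M : ManHK X)
    (hG : ∀ e ∈ atlas C2 X, ∀ z ∈ e.target, ∀ v w, (M.D e).G z v w = g.inner e z v w)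
    {γ : ℝ → X} {lam : ℝ} (hlam : 0 < lam)
    (hspeed : ∀ e ∈ atlas C2 X, ∀ t, γ t ∈ e.source →
      (M.D e).G (e (γ t)) (deriv (e ∘ γ) t) (deriv (e ∘ γ) t) = lam) :
    g.length γ ^ 2 = lam ∧ 0 ≤ g.length γ := by
  have h1 : ∀ t, g.speed γ t = Real.sqrt lam := by
    intro t
    have hcA : chartAt C2 (γ t) ∈ atlas C2 X := chart_mem_atlas C2 _
    have hcs : γ t ∈ (chartAt C2 (γ t)).source := mem_chart_source C2 _
    unfold KahlerMetric.speed
    rw [← hG _ hcA _ ((chartAt C2 (γ t)).map_source hcs), hspeed _ hcA t hcs]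
  have h2 : g.length γ = Real.sqrt lam := by
    unfold KahlerMetric.length
    simp_rw [h1]
    rw [intervalIntegral.integral_const, sub_zero, one_smul]
  rw [h2]
  exact ⟨Real.sq_sqrt hlam.le, Real.sqrt_nonneg _⟩

end Pool.Agent.Lib.MP_6c284f_gt
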