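import Pool.Agent.Lib.MP_6c284f_gt.Max
import Pool.Agent.Lib.MP_6c284f_gt.BY
import Pool.Agent.Lib.MP_6c284f_gt.Barrier

set_option autoImplicit false
set_option maxSynthPendingDepth 5

/-!
The main theorem on tubes: if the axis is locally energy minimizing then the metric is flat near
the base point.
-/

namespace Pool.Agent.Lib.MP_6c284f_gt

open scoped ContDiff Topology
open Set Metric MeasureTheory

theorem tb_norm_e0 : ‖e0‖ = 1 := by
  simp [e0]

theorem tb_inner_e0 : inner ℝ e0 e0 = (1 : ℝ) := by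
  rw [real_inner_self_eq_norm_sq, tb_norm_e0]; norm_num

theorem tb_deriv_axis (t : ℝ) : deriv (fun s : ℝ => s • e0) t = e0 := by
  have h : HasDerivAt (fun s : ℝ => s • e0) ((1 : ℝ) • e0) t := (hasDerivAt_id t).smul_const e0
  rw [h.deriv, one_smul]

theorem tb_mem_Ioo {ε t : ℝ} (hε : 0 < ε) (ht : t ∈ Icc (0 : ℝ) 1) : t ∈ Ioo (-ε) (1 + ε) :=
  ⟨by linarith [ht.1], by linarith [ht.2]⟩

theorem tb_axis_geod {D : HKData E4} {W : Set E4} {ε : ℝ} (hT : IsTube D W ε) :
    IsGeod D W (fun t : ℝ => t • e0) where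
  smooth t _ := by fun_prop
  mem t ht := hT.axis t (tb_mem_Ioo hT.εpos ht)
  eq t ht := by
    have h1 : deriv (fun s : ℝ => s • e0) = fun _ => e0 := funext tb_deriv_axis
    rw [h1]
    simp only [deriv_const']
    rw [hT.axisΓ t (tb_mem_Ioo hT.εpos ht) e0, neg_zero]

theorem tb_axis_energy {D : HKData E4} {W : Set E4} {ε : ℝ} (hT : IsTube D W ε)
    {c : ℝ → E4} (h1 : ∀ t ∈ Icc (0 : ℝ) 1, c t = t • e0)
    (h2 : ∀ t ∈ Icc (0 : ℝ) 1, deriv c t = e0) : energy D.G c = 1 := by
  unfold energy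
  have h3 : ∫ t in (0 : ℝ)..1, D.G (c t) (deriv c t) (deriv c t) = ∫ _ in (0 : ℝ)..1, (1 : ℝ) := by
    refine intervalIntegral.integral_congr fun t ht => ?_
    rw [uIcc_of_le zero_le_one] at ht
    show D.G (c t) (deriv c t) (deriv c t) = 1
    rw [h1 t ht, h2 t ht, hT.axisG t (tb_mem_Ioo hT.εpos ht), tb_inner_e0]
  rw [h3]; simp

theorem tb_axis_flat {D : HKData E4} {W : Set E4} {ε δ : ℝ} (hT : IsTube D W ε) (hδ : 0 < δ)
    (hLM : IsLM D W δ) : ∀ t ∈ Icc (0 : ℝ) 1, ∀ u v w, curv D.Γ (t • e0) u v w = 0 := by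
  have := by_flat hT hLM (tb_axis_geod hT) (fun t _ => by simpa using hδ) (by simp)
    (by rw [tb_deriv_axis, tb_deriv_axis]) (by simpa using hT.εpos)
    (tb_axis_energy hT (fun t _ => rfl) fun t _ => tb_deriv_axis t)
  exact this

/-- a compact neighbourhood of the axis inside the tube -/
theorem tb_thick {D : HKData E4} {W : Set E4} {ε : ℝ} (hT : IsTube D W ε) :
    ∃ (d M : ℝ), 0 < d ∧ 0 < M ∧ (∀ t ∈ Icc (0 : ℝ) 1, ∀ z, ‖z - t • e0‖ ≤ d → z ∈ W) ∧
      ∀ t ∈ Icc (0 : ℝ) 1, ∀ z, ‖z - t • e0‖ ≤ d → ‖D.G z‖ ≤ M := by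
  set A : Set E4 := (fun t : ℝ => t • e0) '' Icc (0 : ℝ) 1 with hA
  have hAc : IsCompact A := isCompact_Icc.image (by fun_prop)
  have hAW : A ⊆ W := by
    rintro _ ⟨t, ht, rfl⟩
    exact hT.axis t (tb_mem_Ioo hT.εpos ht)
  obtain ⟨d, hd, hsub⟩ := hAc.exists_cthickening_subset_open hT.hk.isOpen hAW
  have hmem : ∀ t ∈ Icc (0 : ℝ) 1, ∀ z : E4, ‖z - t • e0‖ ≤ d → z ∈ cthickening d A := by
    intro t ht z hz
    refine mem_cthickening_of_dist_le z (t • e0) d A ⟨t, ht, rfl⟩ ?_
    rw [dist_eq_norm]; exact hz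
  have hcomp : IsCompact (cthickening d A) := hAc.cthickening
  obtain ⟨M, hM⟩ := hcomp.exists_bound_of_continuousOn
    (hT.hk.smoothG.continuousOn.mono hsub)
  refine ⟨d, max M 1, hd, lt_max_of_lt_right one_pos, fun t ht z hz => hsub (hmem t ht z hz),
    fun t ht z hz => (hM z (hmem t ht z hz)).trans (le_max_left _ _)⟩

theorem tb_continuous {D : HKData E4} {W : Set E4} {ε : ℝ} (hT : IsTube D W ε)
    {ρ K : ℝ} {c : E4 → ℝ → E4} (hK : 0 < K) (hc : LoopFam D W ρ K c) {R d M : ℝ}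
    (hRρ : R ≤ ρ) (hRd : K * R ≤ d) (hM : 0 < M)
    (hG : ∀ t ∈ Icc (0 : ℝ) 1, ∀ z, ‖z - t • e0‖ ≤ d → ‖D.G z‖ ≤ M) :
    ContinuousOn (fun q => energy D.G (c q)) (ball 0 R) := by
  intro q hq
  refine ContinuousAt.continuousWithinAt ?_
  have hqn : ‖q‖ < R := by simpa using hq
  have hR : 0 < R := (norm_nonneg q).trans_lt hqn
  have hball : ∀ᶠ x in 𝓝 q, ‖x‖ < R := by
    have := isOpen_ball.mem_nhds hq
    filter_upwards [this] with x hx
    simpa using hx
  unfold energy
  refine intervalIntegral.continuousAt_of_dominated_interval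
    (bound := fun _ => M * (1 + K * R) * (1 + K * R)) ?_ ?_ ?_ ?_
  · filter_upwards [hball] with x hx
    have hg := hc.geod x (hx.trans_le hRρ)
    refine ContinuousOn.aestronglyMeasurable ?_ measurableSet_uIoc
    rw [uIoc_of_le zero_le_one]
    refine ContinuousOn.mono ?_ Ioc_subset_Icc_self
    intro t ht
    refine ContinuousAt.continuousWithinAt ?_
    have h1 : ContinuousAt (c x) t := (hg.smooth t ht).continuousAt
    have h2 : ContinuousAt (deriv (c x)) t := by
      have h3 : ContDiffAt ℝ 1 (deriv (c x)) t := contDiffAt_velocity hg ht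
      exact h3.continuousAt
    have h3 : ContinuousAt (fun s => D.G (c x s)) t := by
      have h4 : ContinuousAt D.G (c x t) :=
        (hT.hk.smoothG.continuousOn.continuousAt (hT.hk.isOpen.mem_nhds (hg.mem t ht)))
      exact ContinuousAt.comp (f := c x) (g := D.G) h4 h1
    exact (h3.clm_apply h2).clm_apply h2
  · filter_upwards [hball] with x hx
    refine Filter.Eventually.of_forall fun t ht => ?_
    rw [uIoc_of_le zero_le_one] at ht
    have ht' : t ∈ Icc (0 : ℝ) 1 := Ioc_subset_Icc_self ht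
    obtain ⟨h1, h2⟩ := hc.close x (hx.trans_le hRρ) t ht'
    have hKx : K * ‖x‖ ≤ K * R := mul_le_mul_of_nonneg_left hx.le hK.le
    have h3 : ‖deriv (c x) t‖ ≤ 1 + K * R := by
      have := norm_add_le (deriv (c x) t - e0) e0
      rw [sub_add_cancel, tb_norm_e0] at this
      linarith
    have h4 := hG t ht' (c x t) ((h1.trans hKx).trans hRd)
    calc ‖D.G (c x t) (deriv (c x) t) (deriv (c x) t)‖
        ≤ ‖D.G (c x t)‖ * ‖deriv (c x) t‖ * ‖deriv (c x) t‖ :=
          ContinuousLinearMap.le_opNorm₂ _ _ _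
      _ ≤ M * (1 + K * R) * (1 + K * R) := by gcongr
  · exact intervalIntegrable_const
  · refine Filter.Eventually.of_forall fun t ht => ?_
    rw [uIoc_of_le zero_le_one] at ht
    have ht' : t ∈ Icc (0 : ℝ) 1 := Ioc_subset_Icc_self ht
    have hl1 : ContinuousAt (fun x => c x t) q := by
      rw [Metric.continuousAt_iff]
      intro η hη
      obtain ⟨s, hs, hs'⟩ := Metric.eventually_nhds_iff.1 hball
      refine ⟨min s (η / K), lt_min hs (by positivity), fun x hx => ?_⟩
      have hx1 := hs' (hx.trans_le (min_le_left _ _))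
      have h1 := (hc.lip x q (hx1.trans_le hRρ) (hqn.trans_le hRρ) t ht').1
      rw [dist_eq_norm] at hx ⊢
      have h2 : K * ‖x - q‖ < K * (η / K) := by
        have := hx.trans_le (min_le_right _ _)
        gcongr
      rw [mul_div_cancel₀ _ hK.ne'] at h2
      exact h1.trans_lt h2
    have hl2 : ContinuousAt (fun x => deriv (c x) t) q := by
      rw [Metric.continuousAt_iff]
      intro η hη
      obtain ⟨s, hs, hs'⟩ := Metric.eventually_nhds_iff.1 hball
      refine ⟨min s (η / K), lt_min hs (by positivity), fun x hx => ?_⟩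
      have hx1 := hs' (hx.trans_le (min_le_left _ _))
      have h1 := (hc.lip x q (hx1.trans_le hRρ) (hqn.trans_le hRρ) t ht').2
      rw [dist_eq_norm] at hx ⊢
      have h2 : K * ‖x - q‖ < K * (η / K) := by
        have := hx.trans_le (min_le_right _ _)
        gcongr
      rw [mul_div_cancel₀ _ hK.ne'] at h2
      exact h1.trans_lt h2
    have h3 : ContinuousAt (fun x => D.G (c x t)) q := by
      have h4 : ContinuousAt D.G (c q t) :=
        (hT.hk.smoothG.continuousOn.continuousAt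
          (hT.hk.isOpen.mem_nhds ((hc.geod q (hqn.trans_le hRρ)).mem t ht')))
      exact ContinuousAt.comp (f := fun x => c x t) (g := D.G) h4 hl1
    exact (h3.clm_apply hl2).clm_apply hl2

/-- the frame at the base point is uniformly nondegenerate near `0` -/
theorem tb_frame {D : HKData E4} {W : Set E4} {ε : ℝ} (hT : IsTube D W ε)
    {ρ K : ℝ} {c : E4 → ℝ → E4} (hρ : 0 < ρ) (hK : 0 < K) (hc : LoopFam D W ρ K c) :
    ∃ R > 0, R ≤ ρ ∧ (∀ q ∈ ball (0 : E4) R, ∀ a, ‖D.I a q (deriv (c q) 0)‖ ≤ 2) ∧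
      ∀ q ∈ ball (0 : E4) R, ∀ ξ : E4,
        (1 / 2 : ℝ) * ‖ξ‖ ^ 2 ≤ ∑ a, (inner ℝ ξ (D.I a q (deriv (c q) 0))) ^ 2 := by
  have h0W : (0 : E4) ∈ W := by
    have := hT.axis 0 ⟨by linarith [hT.εpos], by linarith [hT.εpos]⟩
    simpa using this
  have hG0 : ∀ v w, D.G 0 v w = inner ℝ v w := by
    have := hT.axisG 0 ⟨by linarith [hT.εpos], by linarith [hT.εpos]⟩
    simpa using this
  have he0 : e0 ≠ 0 := by
    intro h
    have := tb_norm_e0
    rw [h, norm_zero] at this
    exact zero_ne_one this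
  have hdim : Module.finrank ℝ E4 = 4 := by simp
  have h01 : (0 : ℝ) ∈ Icc (0 : ℝ) 1 := ⟨le_rfl, zero_le_one⟩
  have hd0 : deriv (c 0) 0 = e0 := by
    have := (hc.close 0 (by simpa using hρ) 0 h01).2
    rw [norm_zero, mul_zero] at this
    exact sub_eq_zero.1 (norm_le_zero_iff.1 this)
  have hnorm : ∀ a, ‖D.I a 0 e0‖ = 1 := by
    intro a
    have h1 := hT.hk.orth a 0 h0W e0 e0
    rw [hG0, hG0, tb_inner_e0, real_inner_self_eq_norm_sq] at h1
    nlinarith [norm_nonneg (D.I a 0 e0)]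
  have hsum : ∀ ξ : E4, ∑ a, (inner ℝ ξ (D.I a 0 e0)) ^ 2 = ‖ξ‖ ^ 2 := by
    intro ξ
    have h1 := I_expand hT.hk h0W hdim he0 ξ
    have h2 : inner ℝ ξ ξ = inner ℝ ξ
        (∑ a, (D.G 0 ξ (D.I a 0 e0) / D.G 0 e0 e0) • D.I a 0 e0) := by rw [← h1]
    rw [real_inner_self_eq_norm_sq, inner_sum] at h2
    rw [h2]
    refine Finset.sum_congr rfl fun a _ => ?_
    rw [inner_smul_right, hG0, hG0, tb_inner_e0, div_one]
    ring
  -- continuity of the frame at `0`
  have hcont : ∀ a, ContinuousAt (fun q => D.I a q (deriv (c q) 0)) 0 := by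
    intro a
    have h1 : ContinuousAt (D.I a) 0 :=
      (hT.hk.smoothI a).continuousOn.continuousAt (hT.hk.isOpen.mem_nhds h0W)
    have h2 : ContinuousAt (fun q => deriv (c q) 0) 0 := by
      rw [Metric.continuousAt_iff]
      intro η hη
      refine ⟨min ρ (η / K), lt_min hρ (by positivity), fun x hx => ?_⟩
      rw [dist_eq_norm, sub_zero] at hx
      have h1 := (hc.lip x 0 (hx.trans_le (min_le_left _ _)) (by simpa using hρ) 0 h01).2
      rw [dist_eq_norm]
      rw [sub_zero] at h1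
      have h2 : K * ‖x‖ < K * (η / K) := by
        have := hx.trans_le (min_le_right _ _)
        gcongr
      rw [mul_div_cancel₀ _ hK.ne'] at h2
      exact h1.trans_lt h2
    exact h1.clm_apply h2
  have hev : ∀ᶠ q in 𝓝 (0 : E4), ∀ a,
      ‖D.I a q (deriv (c q) 0) - D.I a 0 e0‖ < 1 / 20 := by
    rw [Filter.eventually_all]
    intro a
    have h1 := (Metric.continuousAt_iff'.1 (hcont a)) (1 / 20) (by norm_num)
    filter_upwards [h1] with q hq
    rw [dist_eq_norm, hd0] at hq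
    exact hq
  obtain ⟨R0, hR0, hR0'⟩ := Metric.eventually_nhds_iff.1 hev
  refine ⟨min R0 ρ, lt_min hR0 hρ, min_le_right _ _, ?_, ?_⟩
  · intro q hq a
    have h1 := hR0' (y := q) (by
      rw [mem_ball] at hq; exact hq.trans_le (min_le_left _ _)) a
    have h2 := norm_add_le (D.I a q (deriv (c q) 0) - D.I a 0 e0) (D.I a 0 e0)
    rw [sub_add_cancel, hnorm a] at h2
    linarith
  · intro q hq ξ
    have h1 := hR0' (y := q) (by
      rw [mem_ball] at hq; exact hq.trans_le (min_le_left _ _))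
    have h3 : ∀ a, (inner ℝ ξ (D.I a 0 e0)) ^ 2 - (1 / 8 : ℝ) * ‖ξ‖ ^ 2 ≤
        (inner ℝ ξ (D.I a q (deriv (c q) 0))) ^ 2 := by
      intro a
      set y := D.I a q (deriv (c q) 0) with hy
      set x := D.I a 0 e0 with hx
      have h4 : |inner ℝ ξ (y - x)| ≤ ‖ξ‖ * (1 / 20) :=
        (abs_real_inner_le_norm _ _).trans (mul_le_mul_of_nonneg_left (h1 a).le (norm_nonneg _))
      have h5 : |inner ℝ ξ x| ≤ ‖ξ‖ * 1 := by
        have := abs_real_inner_le_norm ξ x
        rwa [hx, hnorm a] at this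
      have h6 : inner ℝ ξ y = inner ℝ ξ (y - x) + inner ℝ ξ x := by
        rw [← inner_add_right, sub_add_cancel]
      rw [h6]
      have h7 : |inner ℝ ξ (y - x)| * |inner ℝ ξ x| ≤ (‖ξ‖ * (1 / 20)) * (‖ξ‖ * 1) :=
        mul_le_mul h4 h5 (abs_nonneg _) (by positivity)
      rw [← abs_mul] at h7
      have h8 := neg_abs_le (inner ℝ ξ (y - x) * inner ℝ ξ x)
      nlinarith [sq_nonneg (inner ℝ ξ (y - x)), sq_nonneg ‖ξ‖]
    have h4 : ∑ a : Fin 4, ((inner ℝ ξ (D.I a 0 e0)) ^ 2 - (1 / 8 : ℝ) * ‖ξ‖ ^ 2) ≤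
        ∑ a, (inner ℝ ξ (D.I a q (deriv (c q) 0))) ^ 2 := Finset.sum_le_sum fun a _ => h3 a
    rw [Finset.sum_sub_distrib, hsum] at h4
    simp only [Finset.sum_const, Finset.card_univ, Fintype.card_fin, nsmul_eq_mul] at h4
    push_cast at h4
    linarith

theorem tube_flat {D : HKData E4} {W : Set E4} {ε δ : ℝ} (hT : IsTube D W ε) (hδ : 0 < δ)
    (hLM : IsLM D W δ) : ∃ ρ > 0, ∀ z : E4, ‖z‖ < ρ → ∀ u v w, curv D.Γ z u v w = 0 := by
  have hflat := tb_axis_flat hT hδ hLM
  obtain ⟨ρ, K, c, hρ, hK, hc⟩ := exists_loopFam hT hflat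
  obtain ⟨r, C, hr, hrρ, hbar⟩ := loop_barrier hT hflat hρ hc
  obtain ⟨R1, hR1, hR1ρ, hY, hY2⟩ := tb_frame hT hρ hK hc
  obtain ⟨d, M, hd, hM, -, hG⟩ := tb_thick hT
  set R : ℝ := min (min r R1) (min (d / K) (min (δ / K) ε)) with hR
  have hRpos : 0 < R :=
    lt_min (lt_min hr hR1) (lt_min (by positivity) (lt_min (by positivity) hT.εpos))
  have hRr : R ≤ r := (min_le_left _ _).trans (min_le_left _ _)
  have hRR1 : R ≤ R1 := (min_le_left _ _).trans (min_le_right _ _)
  have hRd : K * R ≤ d := by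
    have h1 : R ≤ d / K := (min_le_right _ _).trans (min_le_left _ _)
    rw [le_div_iff₀ hK] at h1; linarith
  have hRδ : K * R ≤ δ := by
    have h1 : R ≤ δ / K := (min_le_right _ _).trans ((min_le_right _ _).trans (min_le_left _ _))
    rw [le_div_iff₀ hK] at h1; linarith
  have hRε : R ≤ ε := (min_le_right _ _).trans ((min_le_right _ _).trans (min_le_right _ _))
  have hRρ : R ≤ ρ := hRR1.trans hR1ρ
  have h0ball : ‖(0 : E4)‖ < ρ := by simpa using hρ
  have hF0 : energy D.G (c 0) = 1 := by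
    refine tb_axis_energy hT (fun t ht => ?_) fun t ht => ?_
    · have := (hc.close 0 h0ball t ht).1
      rw [norm_zero, mul_zero] at this
      exact sub_eq_zero.1 (norm_le_zero_iff.1 this)
    · have := (hc.close 0 h0ball t ht).2
      rw [norm_zero, mul_zero] at this
      exact sub_eq_zero.1 (norm_le_zero_iff.1 this)
  have hclose : ∀ q : E4, ‖q‖ < R → ∀ t ∈ Icc (0 : ℝ) 1, ‖c q t - t • e0‖ < δ := by
    intro q hq t ht
    have h1 := (hc.close q (hq.trans_le hRρ) t ht).1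
    have h2 : K * ‖q‖ < K * R := by gcongr
    linarith
  have hmin : ∀ q ∈ ball (0 : E4) R, energy D.G (c 0) ≤ energy D.G (c q) := by
    intro q hq
    have hqn : ‖q‖ < R := by simpa using hq
    have hg := hc.geod q (hqn.trans_le hRρ)
    rw [hF0]
    refine hLM (c q) (fun t ht => (hg.smooth t ht).of_le (by norm_num)) ?_ ?_
    · rw [hc.finish q (hqn.trans_le hRρ), hc.start q (hqn.trans_le hRρ)]
    · exact fun t ht => ⟨hg.mem t ht, hclose q hqn t ht⟩
  have hconst := strong_min (F := fun q => energy D.G (c q)) hRpos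
    (tb_continuous hT hK hc hRρ hRd hM hG) hmin (fun a q => D.I a q (deriv (c q) 0))
    (Λ := 2) (lam := 1 / 2) (by norm_num)
    (fun q hq a => hY q (ball_subset_ball hRR1 hq) a)
    (fun q hq ξ => hY2 q (ball_subset_ball hRR1 hq) ξ) C (fun q hq => by
      have hqn : ‖q‖ < R := by simpa using hq
      obtain ⟨l, d, h1, h2, -⟩ := hbar q (hqn.trans_le hRr)
      exact ⟨l, d, h1, h2⟩)
  refine ⟨R / 4, by positivity, fun q hq => ?_⟩
  have hqR : ‖q‖ < R := by linarith
  have hqball : q ∈ ball (0 : E4) (R / 4) := by simpa using hq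
  have hE : ∀ x ∈ ball (0 : E4) (R / 4), energy D.G (c x) = 1 := fun x hx =>
    (hconst x hx).trans hF0
  obtain ⟨l, dd, h1, -, h3⟩ := hbar q (hqR.trans_le hRr)
  -- the gradient vanishes
  have hl : ∀ a, l (D.I a q (deriv (c q) 0)) = 0 := by
    intro a
    set Y := D.I a q (deriv (c q) 0) with hYdef
    have hcontY : ContinuousAt (fun s : ℝ => q + s • Y) 0 := by fun_prop
    have hnear : ∀ᶠ s in 𝓝 (0 : ℝ), q + s • Y ∈ ball (0 : E4) (R / 4) := by
      refine hcontY.eventually_mem ?_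
      simp only [zero_smul, add_zero]
      exact isOpen_ball.mem_nhds hqball
    have hineq : ∀ᶠ s in 𝓝 (0 : ℝ), 0 ≤ s * l Y + s ^ 2 / 2 * (dd a + 1) := by
      filter_upwards [hnear, h1 a 1 one_pos] with s hs hs'
      rw [hE _ hs, hE _ hqball] at hs'
      linarith
    obtain ⟨s0, hs0, hs0'⟩ := Metric.eventually_nhds_iff.1 hineq
    by_contra hne
    -- choose s small of sign opposite to `l Y`
    set B : ℝ := |dd a + 1| / 2 + 1 with hB
    have hBpos : 0 < B := by positivity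
    have hlpos : 0 < |l Y| := abs_pos.2 hne
    set s : ℝ := min (s0 / 2) (|l Y| / (2 * B)) with hs
    have hspos : 0 < s := lt_min (by positivity) (by positivity)
    have hs1 : s < s0 := (min_le_left _ _).trans_lt (by linarith)
    have hs2 : s * B ≤ |l Y| / 2 := by
      have : s ≤ |l Y| / (2 * B) := min_le_right _ _
      rw [le_div_iff₀ (by positivity)] at this
      linarith
    have hsq : s ^ 2 / 2 * (dd a + 1) ≤ s * (|l Y| / 2) := by
      have h5 : s ^ 2 / 2 * (dd a + 1) ≤ s ^ 2 / 2 * |dd a + 1| :=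
        mul_le_mul_of_nonneg_left (le_abs_self _) (by positivity)
      have h6 : s ^ 2 / 2 * |dd a + 1| ≤ s * (s * B) := by
        rw [hB]; nlinarith [sq_nonneg s, abs_nonneg (dd a + 1)]
      have h7 : s * (s * B) ≤ s * (|l Y| / 2) := mul_le_mul_of_nonneg_left hs2 hspos.le
      linarith
    rcases lt_or_gt_of_ne hne with hneg | hpos'
    · have h5 := hs0' (y := s) (by rw [Real.dist_eq, sub_zero, abs_of_pos hspos]; exact hs1)
      rw [abs_of_neg hneg] at hsq
      nlinarith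
    · have h5 := hs0' (y := -s) (by
        rw [Real.dist_eq, sub_zero, abs_neg, abs_of_pos hspos]; exact hs1)
      rw [abs_of_pos hpos'] at hsq
      have h6 : (-s) ^ 2 = s ^ 2 := by ring
      rw [h6] at h5
      nlinarith
  have hqW : q ∈ W := (hT.perW q (hqR.trans_le hRε)).1
  -- the velocities agree
  have hlzero : ∀ y, l y = 0 := by
    set ξ := (InnerProductSpace.toDual ℝ E4).symm l with hξ
    have h5 : ∀ y, inner ℝ ξ y = l y := fun y => InnerProductSpace.toDual_symm_apply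
    have h6 := hY2 q (by
      have : ‖q‖ < R1 := hqR.trans_le hRR1
      simpa using this) ξ
    have h7 : ∑ a, (inner ℝ ξ (D.I a q (deriv (c q) 0))) ^ 2 = 0 := by
      refine Finset.sum_eq_zero fun a _ => ?_
      rw [h5, hl a]; norm_num
    rw [h7] at h6
    have h8 : ‖ξ‖ = 0 := by nlinarith [norm_nonneg ξ, sq_nonneg ‖ξ‖]
    have h9 : ξ = 0 := norm_eq_zero.1 h8
    intro y
    rw [← h5, h9, inner_zero_left]
  have hvel : deriv (c q) 1 = deriv (c q) 0 := by
    by_contra hne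
    have h5 := hT.hk.pos q hqW (deriv (c q) 1 - deriv (c q) 0) (sub_ne_zero.2 hne)
    have h6 := h3 (deriv (c q) 1 - deriv (c q) 0)
    rw [hlzero] at h6
    linarith
  have hstart := hc.start q (hqR.trans_le hRρ)
  have hfin := by_flat hT hLM (hc.geod q (hqR.trans_le hRρ)) (hclose q hqR)
    (by rw [hc.finish q (hqR.trans_le hRρ), hstart]) hvel
    (by rw [hstart]; exact hqR.trans_le hRε) (hE q hqball) 0 ⟨le_rfl, zero_le_one⟩
  rw [hstart] at hfin
  exact hfin

end Pool.Agent.Lib.MP_6c284f_gt
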