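import Pool.Agent.Lib.MP_6c284f_gt.TransferA
import Pool.Agent.Lib.MP_6c284f_gt.TubeThm
import Pool.Agent.Lib.MP_6c284f_gt.RelCurv

set_option autoImplicit false
set_option maxSynthPendingDepth 5

/-!
A locally length minimizing closed geodesic produces a nonempty open set where the metric is
flat.
-/

namespace Pool.Agent.Lib.MP_6c284f_gt

open scoped Manifold ContDiff Topology
open Set

variable {X : Type} [TopologicalSpace X] [ChartedSpace C2 X]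

/-- a smooth map into the manifold is smooth in every chart -/
theorem TransferBA_contDiffAt (hX : IsManifold 𝓘(ℝ, C2) ∞ X) {Φ : E4 → X} {z : E4}
    (hΦ : ContMDiffAt 𝓘(ℝ, E4) 𝓘(ℝ, C2) ∞ Φ z) {e : OpenPartialHomeomorph X C2}
    (he : e ∈ atlas C2 X) (hz : Φ z ∈ e.source) : ContDiffAt ℝ ∞ (e ∘ Φ) z := by
  have := hX
  have h1 : ContMDiffAt 𝓘(ℝ, C2) 𝓘(ℝ, C2) ∞ e (Φ z) :=
    contMDiffAt_of_mem_maximalAtlas (IsManifold.subset_maximalAtlas he) hz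
  have h2 : ContMDiffAt 𝓘(ℝ, E4) 𝓘(ℝ, C2) ∞ (e ∘ Φ) z := h1.comp z hΦ
  exact h2.contDiffAt

/-- flatness in the tube gives flatness on an open subset of the manifold -/
theorem flat_open (hX : IsManifold 𝓘(ℝ, C2) ∞ X) (M : ManHK X) {Φ : E4 → X} {W : Set E4}
    (hHK : IsHK (M.pullMap Φ) W)
    (hΦ : ∀ z ∈ W, ContMDiffAt 𝓘(ℝ, E4) 𝓘(ℝ, C2) ∞ Φ z)
    (hrel : ∀ z ∈ W, ∀ e ∈ atlas C2 X, Φ z ∈ e.source →
      HKRel (M.pullMap Φ) (M.D e) (e ∘ Φ) z ∧ (fderiv ℝ (e ∘ Φ) z).IsInvertible)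
    {ρ : ℝ} (hρ : 0 < ρ) (h0 : (0 : E4) ∈ W)
    (hflat : ∀ z ∈ W, ‖z‖ < ρ → ∀ u v w, curv (M.pullMap Φ).Γ z u v w = 0) :
    ∃ O : Set X, IsOpen O ∧ O.Nonempty ∧ ∀ x ∈ O, M.FlatAt x := by
  have hWo := hHK.isOpen
  have hcont : ContinuousOn Φ W := fun z hz => (hΦ z hz).continuousAt.continuousWithinAt
  -- `Φ` is open near the points of `W`
  have hopen : ∀ z ∈ W, Filter.map Φ (𝓝 z) = 𝓝 (Φ z) := by
    intro z hz
    have he : chartAt C2 (Φ z) ∈ atlas C2 X := chart_mem_atlas C2 (Φ z)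
    have hzs : Φ z ∈ (chartAt C2 (Φ z)).source := mem_chart_source C2 (Φ z)
    obtain ⟨e, hee⟩ : ∃ e : OpenPartialHomeomorph X C2, e = chartAt C2 (Φ z) := ⟨_, rfl⟩
    rw [← hee] at he hzs
    have h1 := TransferBA_contDiffAt hX (hΦ z hz) he hzs
    have h2 := h1.hasStrictFDerivAt (by simp)
    obtain ⟨L, hL⟩ := (hrel z hz e he hzs).2
    rw [← hL] at h2
    have h3 : Filter.map (e ∘ Φ) (𝓝 z) = 𝓝 ((e ∘ Φ) z) := h2.map_nhds_eq_of_equiv
    have h4 : Φ =ᶠ[𝓝 z] e.symm ∘ (e ∘ Φ) := by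
      filter_upwards [(hΦ z hz).continuousAt.preimage_mem_nhds (e.open_source.mem_nhds hzs)]
        with y hy
      exact (e.left_inv hy).symm
    rw [Filter.map_congr h4, ← Filter.map_map, h3]
    show Filter.map e.symm (𝓝 (e (Φ z))) = 𝓝 (Φ z)
    have h5 := e.symm.map_nhds_eq (x := e (Φ z)) (e.map_source hzs)
    rw [h5, e.left_inv hzs]
  refine ⟨Φ '' (W ∩ Metric.ball 0 ρ), ?_, ?_, ?_⟩
  · rw [isOpen_iff_mem_nhds]
    rintro x ⟨z, ⟨hz, hzρ⟩, rfl⟩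
    rw [← hopen z hz]
    exact Filter.image_mem_map ((hWo.inter Metric.isOpen_ball).mem_nhds ⟨hz, hzρ⟩)
  · exact ⟨Φ 0, 0, ⟨h0, Metric.mem_ball_self hρ⟩, rfl⟩
  · rintro x ⟨z, ⟨hz, hzρ⟩, rfl⟩ e he hzs u v w
    obtain ⟨L, hL⟩ := (hrel z hz e he hzs).2
    have hWe : IsOpen (W ∩ Φ ⁻¹' e.source) := hcont.isOpen_inter_preimage hWo e.open_source
    have h1 : ∀ u' v' w' : E4, curv (M.D e).Γ ((e ∘ Φ) z) (fderiv ℝ (e ∘ Φ) z u')
        (fderiv ℝ (e ∘ Φ) z v') (fderiv ℝ (e ∘ Φ) z w') = 0 := by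
      intro u' v' w'
      rw [← curv_rel (D' := M.pullMap Φ) (D := M.D e) (Φ := e ∘ Φ) hWe e.open_target
        (hHK.smoothΓ.mono inter_subset_left) (M.isHK e he).smoothΓ
        (fun y hy => TransferBA_contDiffAt hX (hΦ y hy.1) he hy.2)
        (fun y hy => e.map_source hy.2)
        (fun y hy => (hrel y hy.1 e he hy.2).1) ⟨hz, hzs⟩ u' v' w',
        hflat z hz (by simpa using hzρ) u' v' w', map_zero]
    have h2 := h1 (L.symm u) (L.symm v) (L.symm w)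
    rw [← hL] at h2
    simpa using h2

end Pool.Agent.Lib.MP_6c284f_gt
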