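import Pool.Agent.Lib.MP_6c284f_gt.TransferA
import Pool.Agent.Lib.MP_6c284f_gt.TubeThm
import Pool.Agent.Lib.MP_6c284f_gt.RelCurv
import Pool.Agent.Lib.MP_6c284f_gt.TransferBA

set_option autoImplicit false
set_option maxSynthPendingDepth 5

/-!
A locally length minimizing closed geodesic produces a nonempty open set where the metric is
flat.
-/

namespace Pool.Agent.Lib.MP_6c284f_gt

open scoped Manifold ContDiff Topology
open Set

variable {X : Type} [TopologicalSpace X] [ChartedSpace C2 X]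

theorem llm_flat [T2Space X] [CompactSpace X] (hX : IsManifold 𝓘(ℝ, C2) ∞ X)
    (g : KahlerMetric X) (M : ManHK X)
    (hG : ∀ e ∈ atlas C2 X, ∀ z ∈ e.target, ∀ v w, (M.D e).G z v w = g.inner e z v w)
    (γ : C(UnitAddCircle, X)) (hγ : ContMDiff 𝓘(ℝ, ℝ) 𝓘(ℝ, C2) ∞ (lift γ))
    (hnc : ¬ ∃ x, ∀ t, γ t = x) (hgeo : IsManGeod M (lift γ))
    (hmin : g.LocallyLengthMinimizing γ) :
    ∃ O : Set X, IsOpen O ∧ O.Nonempty ∧ ∀ x ∈ O, M.FlatAt x := by
  obtain ⟨U, hU, hUmin⟩ := hmin
  have hper : ∀ t, lift γ (t + 1) = lift γ t := by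
    intro t
    unfold lift
    congr 1
    simp
  have hnc' : ¬ ∃ x, ∀ t, lift γ t = x := by
    rintro ⟨x, hx⟩
    refine hnc ⟨x, fun t => ?_⟩
    obtain ⟨s, rfl⟩ := QuotientAddGroup.mk_surjective t
    exact hx s
  obtain ⟨lam, ε, W, Φ, hlam, hspeed, hT, hHK, hΦ, hrel, haxis, hΦper⟩ :=
    exists_tube hX M hγ hper hgeo hnc'
  have hΦc : ContinuousOn Φ W := fun z hz => (hΦ z hz).continuousAt.continuousWithinAt
  obtain ⟨δ, hδ, hδW, hδU⟩ := exists_close hHK.isOpen hΦc hT.εpos hT.axis haxis hU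
  set δ' := min δ ε with hδ'
  have hLM : IsLM ((M.pullMap Φ).scale lam⁻¹) W δ' := by
    intro c hc hend hclose
    have hc0 : ‖c 0‖ < ε := by
      have := (hclose 0 (by simp)).2
      simp only [zero_smul, sub_zero] at this
      exact this.trans_le (min_le_right _ _)
    have hcW : ∀ t ∈ Icc (0 : ℝ) 1, c t ∈ W := fun t ht => (hclose t ht).1
    have hp : ContinuousOn (fun t => Φ (c t)) (Icc 0 1) := by
      refine hΦc.comp (fun t ht => ?_) hcW
      exact (hc t ht).continuousAt.continuousWithinAt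
    obtain ⟨b, hb⟩ := exists_closed (p := fun t => Φ (c t)) hp (by
      show Φ (c 1) = Φ (c 0)
      rw [hend]; exact hΦper _ hc0)
    have hbU : b ∈ U := hδU c b (fun t ht => (hclose t ht).2.trans_le (min_le_left _ _)) hb
    obtain ⟨h1, h2⟩ := length_sq_le hX g M hG hHK.isOpen hΦ hHK
      (fun z hz e he hze => (hrel z hz e he hze).1) hc hcW hb
    have h3 := hUmin b hbU h2
    obtain ⟨h4, h5⟩ := length_const g M hG hlam hspeed
    have h6 : lam ≤ energy (M.pullMap Φ).G c := by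
      rw [← h4]
      exact (pow_le_pow_left₀ h5 h3 2).trans h1
    have h7 : energy ((M.pullMap Φ).scale lam⁻¹).G c = lam⁻¹ * energy (M.pullMap Φ).G c := by
      unfold energy HKData.scale
      simp
    rw [h7]
    rw [inv_mul_eq_div, one_le_div hlam]
    exact h6
  obtain ⟨ρ, hρ, hflat⟩ := tube_flat hT (lt_min hδ hT.εpos) hLM
  refine flat_open hX M hHK hΦ hrel hρ ?_ ?_
  · have := hT.axis 0 ⟨by linarith [hT.εpos], by linarith [hT.εpos]⟩
    simpa using this
  · intro z _ hz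
    exact hflat z hz

end Pool.Agent.Lib.MP_6c284f_gt
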