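import Pool.Agent.Lib.MP_6c284f_gt.TubeMap

set_option autoImplicit false
set_option maxSynthPendingDepth 5

/-!
The standard tube map in a chart.
-/

namespace Pool.Agent.Lib.MP_6c284f_gt

open scoped Manifold ContDiff Topology
open Set

variable {X : Type} [TopologicalSpace X] [ChartedSpace C2 X]

theorem tmA_e0 (t : ℝ) : (EuclideanSpace.proj (𝕜 := ℝ) (0 : Fin 4) : E4 →L[ℝ] ℝ) (t • e0) = t := by
  simp [e0]

/-- the chart expression of the tube map -/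
noncomputable def tmA_F (e : OpenPartialHomeomorph X C2) (γ : ℝ → X)
    (L : OpenPartialHomeomorph X C2 → ℝ → E4 →L[ℝ] C2) (z : E4) : C2 :=
  e (γ ((EuclideanSpace.proj (𝕜 := ℝ) (0 : Fin 4) : E4 →L[ℝ] ℝ) z)) +
    L e ((EuclideanSpace.proj (𝕜 := ℝ) (0 : Fin 4) : E4 →L[ℝ] ℝ) z)
      (z - ((EuclideanSpace.proj (𝕜 := ℝ) (0 : Fin 4) : E4 →L[ℝ] ℝ) z) • e0)

theorem tmA_curve (hX : IsManifold 𝓘(ℝ, C2) ∞ X) {γ : ℝ → X}
    (hγ : ContMDiff 𝓘(ℝ, ℝ) 𝓘(ℝ, C2) ∞ γ) {e : OpenPartialHomeomorph X C2} (he : e ∈ atlas C2 X)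
    {t : ℝ} (ht : γ t ∈ e.source) : ContDiffAt ℝ ∞ (e ∘ γ) t := by
  rw [← contMDiffAt_iff_contDiffAt]
  exact (contMDiffAt_of_mem_maximalAtlas
    (IsManifold.subset_maximalAtlas he) ht).comp t (hγ t)

theorem tmA_contDiffAt (hX : IsManifold 𝓘(ℝ, C2) ∞ X) {γ : ℝ → X}
    {L : OpenPartialHomeomorph X C2 → ℝ → E4 →L[ℝ] C2} (hL : IsJet γ L)
    {e : OpenPartialHomeomorph X C2} (he : e ∈ atlas C2 X) {z : E4}
    (hz : γ ((EuclideanSpace.proj (𝕜 := ℝ) (0 : Fin 4) : E4 →L[ℝ] ℝ) z) ∈ e.source) :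
    ContDiffAt ℝ ∞ (tmA_F e γ L) z := by
  have h1 := tmA_curve hX hL.smoothγ he hz
  have h2 := hL.smoothL e he _ hz
  have h3 : ContDiffAt ℝ ∞ (fun z : E4 =>
      (EuclideanSpace.proj (𝕜 := ℝ) (0 : Fin 4) : E4 →L[ℝ] ℝ) z) z :=
    (EuclideanSpace.proj (𝕜 := ℝ) (0 : Fin 4) : E4 →L[ℝ] ℝ).contDiff.contDiffAt
  have h4 : ContDiffAt ℝ ∞ (fun z : E4 =>
      (e ∘ γ) ((EuclideanSpace.proj (𝕜 := ℝ) (0 : Fin 4) : E4 →L[ℝ] ℝ) z)) z :=
    ContDiffAt.comp (g := e ∘ γ) z h1 h3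
  have h5 : ContDiffAt ℝ ∞ (fun z : E4 =>
      (L e) ((EuclideanSpace.proj (𝕜 := ℝ) (0 : Fin 4) : E4 →L[ℝ] ℝ) z)) z :=
    ContDiffAt.comp (g := L e) z h2 h3
  exact h4.add (h5.clm_apply (contDiffAt_id.sub (h3.smul contDiffAt_const)))

theorem tmA_fderiv (hX : IsManifold 𝓘(ℝ, C2) ∞ X) {γ : ℝ → X}
    {L : OpenPartialHomeomorph X C2 → ℝ → E4 →L[ℝ] C2} (hL : IsJet γ L)
    {e : OpenPartialHomeomorph X C2} (he : e ∈ atlas C2 X) {t : ℝ} (ht : γ t ∈ e.source) :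
    HasFDerivAt (tmA_F e γ L) (L e t) (t • e0) := by
  obtain ⟨pr, hpr⟩ : ∃ pr : E4 →L[ℝ] ℝ, pr = EuclideanSpace.proj (𝕜 := ℝ) (0 : Fin 4) := ⟨_, rfl⟩
  have hprt : pr (t • e0) = t := by rw [hpr]; exact tmA_e0 t
  have hpr1 : pr e0 = 1 := by
    have := tmA_e0 1
    rw [one_smul] at this
    rw [hpr]; exact this
  have h1 := tmA_curve hX hL.smoothγ he ht
  have h2 := hL.smoothL e he _ ht
  have d1 : HasDerivAt (e ∘ γ) (deriv (e ∘ γ) t) (pr (t • e0)) := by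
    rw [hprt]; exact (h1.differentiableAt (by simp)).hasDerivAt
  have d2 : HasDerivAt (L e) (deriv (L e) t) (pr (t • e0)) := by
    rw [hprt]; exact (h2.differentiableAt (by simp)).hasDerivAt
  have p1 : HasFDerivAt (fun z : E4 => pr z) pr (t • e0) := pr.hasFDerivAt
  have c1 := d1.hasFDerivAt.comp (t • e0) p1
  have c2 := d2.hasFDerivAt.comp (t • e0) p1
  have u1 : HasFDerivAt (fun z : E4 => z - pr z • e0)
      (ContinuousLinearMap.id ℝ E4 - pr.smulRight e0) (t • e0) :=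
    (hasFDerivAt_id _).sub (p1.smul_const e0)
  have c3 := c2.clm_apply u1
  have c4 := c1.add c3
  have e1 : tmA_F e γ L = fun z : E4 => (e ∘ γ ∘ pr) z + (L e ∘ pr) z (z - pr z • e0) := by
    rw [hpr]; rfl
  rw [e1]
  refine c4.congr_fderiv ?_
  ext1 v
  have e2 : t • e0 - pr (t • e0) • e0 = (0 : E4) := by rw [hprt, sub_self]
  have e3 : L e t e0 = deriv (e ∘ γ) t := hL.vel e he t ht
  simp only [add_apply, ContinuousLinearMap.comp_apply,
    ContinuousLinearMap.flip_apply, Function.comp_apply, hprt]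
  simp only [sub_apply, ContinuousLinearMap.id_apply,
    ContinuousLinearMap.smulRight_apply, ContinuousLinearMap.toSpanSingleton_apply, map_sub,
    map_smul, e3]
  abel

/-- `z ↦ e⁻¹ (e (γ z₀) + L z₀ (z - z₀ e₀))` is a tube map around the part of the axis where `γ`
is in the domain of the chart. -/
theorem chart_tube (hX : IsManifold 𝓘(ℝ, C2) ∞ X) {γ : ℝ → X}
    {L : OpenPartialHomeomorph X C2 → ℝ → E4 →L[ℝ] C2} (hL : IsJet γ L)
    {e : OpenPartialHomeomorph X C2} (he : e ∈ atlas C2 X) :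
    ∃ (Φ : E4 → X) (S : Set E4), IsTubeMap γ L Φ S ∧
      ∀ t : ℝ, γ t ∈ e.source → t • e0 ∈ S := by
  obtain ⟨pr, hpr⟩ : ∃ pr : E4 →L[ℝ] ℝ, pr = EuclideanSpace.proj (𝕜 := ℝ) (0 : Fin 4) := ⟨_, rfl⟩
  have hprt : ∀ t : ℝ, pr (t • e0) = t := fun t => by rw [hpr]; exact tmA_e0 t
  have hU : IsOpen {z : E4 | γ (pr z) ∈ e.source} :=
    e.open_source.preimage (hL.smoothγ.continuous.comp pr.continuous)
  have hF : ∀ z : E4, γ (pr z) ∈ e.source → ContDiffAt ℝ ∞ (tmA_F e γ L) z := by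
    intro z hz
    rw [hpr] at hz
    exact tmA_contDiffAt hX hL he hz
  have hFa : ∀ t : ℝ, tmA_F e γ L (t • e0) = e (γ t) := by
    intro t
    unfold tmA_F
    rw [tmA_e0, sub_self, map_zero, add_zero]
  refine ⟨e.symm ∘ tmA_F e γ L,
    {z : E4 | γ (pr z) ∈ e.source} ∩ tmA_F e γ L ⁻¹' e.target, ⟨?_, ?_, ?_, ?_⟩, ?_⟩
  · refine ContinuousOn.isOpen_inter_preimage ?_ hU e.open_target
    intro z hz
    exact (hF z hz).continuousAt.continuousWithinAt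
  · rintro z ⟨hz1, hz2⟩
    have h1 : ContMDiffAt 𝓘(ℝ, C2) 𝓘(ℝ, C2) ∞ e.symm (tmA_F e γ L z) :=
      (contMDiffOn_symm_of_mem_maximalAtlas (IsManifold.subset_maximalAtlas he)).contMDiffAt
        (e.open_target.mem_nhds hz2)
    exact h1.comp z (hF z hz1).contMDiffAt
  · rintro t ⟨ht1, -⟩
    have ht : γ t ∈ e.source := by
      have := ht1
      simp only [Set.mem_ofPred_eq, hprt] at this
      exact this
    show e.symm (tmA_F e γ L (t • e0)) = γ t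
    rw [hFa, e.left_inv ht]
  · rintro t ⟨ht1, -⟩ e' he' ht'
    have ht : γ t ∈ e.source := by
      have := ht1
      simp only [Set.mem_ofPred_eq, hprt] at this
      exact this
    have h1 : ContDiffAt ℝ ∞ (e' ∘ e.symm) (e (γ t)) := by
      rw [← contMDiffAt_iff_contDiffAt]
      have h2 : ContMDiffAt 𝓘(ℝ, C2) 𝓘(ℝ, C2) ∞ e.symm (e (γ t)) :=
        (contMDiffOn_symm_of_mem_maximalAtlas (IsManifold.subset_maximalAtlas he)).contMDiffAt
          (e.open_target.mem_nhds (e.map_source ht))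
      have h3 : e.symm (e (γ t)) ∈ e'.source := by rw [e.left_inv ht]; exact ht'
      exact (contMDiffAt_of_mem_maximalAtlas
        (IsManifold.subset_maximalAtlas he') h3).comp _ h2
    have h2 : HasFDerivAt (e' ∘ e.symm) (fderiv ℝ (e' ∘ e.symm) (e (γ t)))
        (tmA_F e γ L (t • e0)) := by
      rw [hFa]
      exact (h1.differentiableAt (by simp)).hasFDerivAt
    have h3 := h2.comp (t • e0) (tmA_fderiv hX hL he ht)
    have h4 : e' ∘ (e.symm ∘ tmA_F e γ L) = (e' ∘ e.symm) ∘ tmA_F e γ L := rfl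
    rw [h4, h3.fderiv, hL.trans e he e' he' t ht ht']
  · intro t ht
    refine ⟨?_, ?_⟩
    · show γ (pr (t • e0)) ∈ e.source
      rw [hprt]; exact ht
    · show tmA_F e γ L (t • e0) ∈ e.target
      rw [hFa]; exact e.map_source ht

end Pool.Agent.Lib.MP_6c284f_gt
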