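import Pool.Agent.Lib.MP_6c284f_gt.TubeMap

set_option autoImplicit false
set_option maxSynthPendingDepth 5

/-!
Interpolation of two tube maps in a chart.
-/

namespace Pool.Agent.Lib.MP_6c284f_gt

open scoped Manifold ContDiff Topology
open Set

variable {X : Type} [TopologicalSpace X] [ChartedSpace C2 X]

theorem tmB_e0 (t : ℝ) : (t • e0) 0 = t := by
  simp [e0]

/-- a chart composed with a smooth map -/
theorem tmB_chart_comp (hX : IsManifold 𝓘(ℝ, C2) ∞ X) {Φ : E4 → X} {z : E4}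
    (hΦ : ContMDiffAt 𝓘(ℝ, E4) 𝓘(ℝ, C2) ∞ Φ z) {e : OpenPartialHomeomorph X C2}
    (he : e ∈ atlas C2 X) (hz : Φ z ∈ e.source) : ContDiffAt ℝ ∞ (e ∘ Φ) z := by
  rw [← contMDiffAt_iff_contDiffAt]
  exact (contMDiffAt_of_mem_maximalAtlas
    (IsManifold.subset_maximalAtlas he) hz).comp z hΦ

/-- change of charts -/
theorem tmB_change (hX : IsManifold 𝓘(ℝ, C2) ∞ X) {e e' : OpenPartialHomeomorph X C2}
    (he : e ∈ atlas C2 X) (he' : e' ∈ atlas C2 X) {y : C2} (hy : y ∈ e.target)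
    (hy' : e.symm y ∈ e'.source) : ContDiffAt ℝ ∞ (e' ∘ e.symm) y := by
  rw [← contMDiffAt_iff_contDiffAt]
  have h1 : ContMDiffAt 𝓘(ℝ, C2) 𝓘(ℝ, C2) ∞ e.symm y :=
    (contMDiffOn_symm_of_mem_maximalAtlas (IsManifold.subset_maximalAtlas he)).contMDiffAt
      (e.open_target.mem_nhds hy)
  exact (contMDiffAt_of_mem_maximalAtlas
    (IsManifold.subset_maximalAtlas he') hy').comp y h1

/-- the cut-off function -/
theorem tmB_cutoff {a b : ℝ} (hab : a < b) : ∃ χ : ℝ → ℝ, ContDiff ℝ ∞ χ ∧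
    (∀ s, s ≤ a + (b - a) / 3 → χ s = 0) ∧ (∀ s, b - (b - a) / 3 ≤ s → χ s = 1) := by
  have hpos : 0 < (b - a) / 3 := by linarith
  refine ⟨fun s => Real.smoothTransition ((s - (a + (b - a) / 3)) / ((b - a) / 3)),
    Real.smoothTransition.contDiff.comp ((contDiff_id.sub contDiff_const).div_const _), ?_, ?_⟩
  · intro s hs
    exact Real.smoothTransition.zero_of_nonpos (div_nonpos_of_nonpos_of_nonneg (by linarith) hpos.le)
  · intro s hs
    refine Real.smoothTransition.one_of_one_le ?_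
    rw [le_div_iff₀ hpos]
    linarith

/-- Interpolate in the chart with a smooth cut-off function of `z 0`. -/
theorem interpolate_tube (hX : IsManifold 𝓘(ℝ, C2) ∞ X) {γ : ℝ → X}
    {L : OpenPartialHomeomorph X C2 → ℝ → E4 →L[ℝ] C2} (hL : IsJet γ L)
    {Φ Ψ : E4 → X} {S T : Set E4} (hΦ : IsTubeMap γ L Φ S) (hΨ : IsTubeMap γ L Ψ T)
    {e : OpenPartialHomeomorph X C2} (he : e ∈ atlas C2 X) {a b : ℝ} (hab : a < b)
    (hS : ∀ t ∈ Icc a b, t • e0 ∈ S) (hT : ∀ t ∈ Icc a b, t • e0 ∈ T)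
    (hγ : ∀ t ∈ Icc a b, γ t ∈ e.source) :
    ∃ (Θ : E4 → X) (R : Set E4), IsTubeMap γ L Θ R ∧ (∀ t ∈ Icc a b, t • e0 ∈ R) ∧
      R ⊆ S ∩ T ∧ (∀ z ∈ R, z 0 ≤ a + (b - a) / 3 → Θ z = Φ z) ∧
      (∀ z ∈ R, b - (b - a) / 3 ≤ z 0 → Θ z = Ψ z) := by
  obtain ⟨χ, hχ, hχ0, hχ1⟩ := tmB_cutoff hab
  set F : E4 → C2 := fun z => e (Φ z) + χ (z 0) • (e (Ψ z) - e (Φ z)) with hF
  have hproj : ContDiff ℝ ∞ (fun z : E4 => z 0) := by fun_prop
  have hχz : ContDiff ℝ ∞ (fun z : E4 => χ (z 0)) := hχ.comp hproj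
  set S' : Set E4 := (S ∩ Φ ⁻¹' e.source) ∩ (T ∩ Ψ ⁻¹' e.source) with hS'
  have hcΦ : ContinuousOn Φ S := fun z hz => (hΦ.smooth z hz).continuousAt.continuousWithinAt
  have hcΨ : ContinuousOn Ψ T := fun z hz => (hΨ.smooth z hz).continuousAt.continuousWithinAt
  have hS'o : IsOpen S' :=
    (hcΦ.isOpen_inter_preimage hΦ.isOpen e.open_source).inter
      (hcΨ.isOpen_inter_preimage hΨ.isOpen e.open_source)
  have hFs : ∀ z ∈ S', ContDiffAt ℝ ∞ F z := by
    intro z hz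
    have h1 : ContDiffAt ℝ ∞ (e ∘ Φ) z := tmB_chart_comp hX (hΦ.smooth z hz.1.1) he hz.1.2
    have h2 : ContDiffAt ℝ ∞ (e ∘ Ψ) z := tmB_chart_comp hX (hΨ.smooth z hz.2.1) he hz.2.2
    exact h1.add (hχz.contDiffAt.smul (h2.sub h1))
  have hFc : ContinuousOn F S' := fun z hz => (hFs z hz).continuousAt.continuousWithinAt
  set R : Set E4 := S' ∩ F ⁻¹' e.target with hR
  have hRo : IsOpen R := hFc.isOpen_inter_preimage hS'o e.open_target
  have hFax : ∀ t : ℝ, t • e0 ∈ S → t • e0 ∈ T → F (t • e0) = e (γ t) := by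
    intro t h1 h2
    simp only [hF, hΦ.axis t h1, hΨ.axis t h2, sub_self, smul_zero, add_zero]
  refine ⟨fun z => e.symm (F z), R, ⟨hRo, ?_, ?_, ?_⟩, ?_, ?_, ?_, ?_⟩
  · intro z hz
    have h1 : ContMDiffAt 𝓘(ℝ, C2) 𝓘(ℝ, C2) ∞ e.symm (F z) :=
      (contMDiffOn_symm_of_mem_maximalAtlas (IsManifold.subset_maximalAtlas he)).contMDiffAt
        (e.open_target.mem_nhds hz.2)
    exact h1.comp z (contMDiffAt_iff_contDiffAt.2 (hFs z hz.1))
  · intro t ht
    have h1 : γ t ∈ e.source := by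
      have := ht.1.1.2
      rwa [mem_preimage, hΦ.axis t ht.1.1.1] at this
    simp only [hFax t ht.1.1.1 ht.1.2.1]
    exact e.left_inv h1
  · intro t ht e' he' hte'
    have h1 : γ t ∈ e.source := by
      have := ht.1.1.2
      rwa [mem_preimage, hΦ.axis t ht.1.1.1] at this
    have hFt := hFax t ht.1.1.1 ht.1.2.1
    have hc := tmB_change hX he he' (e.map_source h1) (by rwa [e.left_inv h1])
    have hdF : HasFDerivAt F (L e t) (t • e0) := by
      have d1 : HasFDerivAt (e ∘ Φ) (L e t) (t • e0) := by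
        rw [← hΦ.jet t ht.1.1.1 e he h1]
        exact ((tmB_chart_comp hX (hΦ.smooth _ ht.1.1.1) he ht.1.1.2).differentiableAt
          (by simp)).hasFDerivAt
      have d2 : HasFDerivAt (e ∘ Ψ) (L e t) (t • e0) := by
        rw [← hΨ.jet t ht.1.2.1 e he h1]
        exact ((tmB_chart_comp hX (hΨ.smooth _ ht.1.2.1) he ht.1.2.2).differentiableAt
          (by simp)).hasFDerivAt
      have d3 : HasFDerivAt (fun z : E4 => χ (z 0)) (fderiv ℝ (fun z : E4 => χ (z 0)) (t • e0))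
          (t • e0) := (hχz.differentiable (by simp) _).hasFDerivAt
      have := d1.add (d3.smul (d2.sub d1))
      refine this.congr_fderiv ?_
      ext v
      simp [hΦ.axis t ht.1.1.1, hΨ.axis t ht.1.2.1]
    have hcomp : HasFDerivAt ((e' ∘ e.symm) ∘ F)
        ((fderiv ℝ (e' ∘ e.symm) (e (γ t))) ∘L (L e t)) (t • e0) := by
      refine HasFDerivAt.comp (t • e0) ?_ hdF
      rw [hFt]
      exact (hc.differentiableAt (by simp)).hasFDerivAt
    rw [hL.trans e he e' he' t h1 hte', ← hcomp.fderiv]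
    rfl
  · intro t ht
    refine ⟨⟨⟨hS t ht, ?_⟩, hT t ht, ?_⟩, ?_⟩
    · rw [mem_preimage, hΦ.axis t (hS t ht)]
      exact hγ t ht
    · rw [mem_preimage, hΨ.axis t (hT t ht)]
      exact hγ t ht
    · rw [mem_preimage, hFax t (hS t ht) (hT t ht)]
      exact e.map_source (hγ t ht)
  · intro z hz
    exact ⟨hz.1.1.1, hz.1.2.1⟩
  · intro z hz h0
    simp only [hF, hχ0 _ h0, zero_smul, add_zero]
    exact e.left_inv hz.1.1.2
  · intro z hz h0
    simp only [hF, hχ1 _ h0, one_smul, add_sub_cancel]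
    exact e.left_inv hz.1.2.2

end Pool.Agent.Lib.MP_6c284f_gt
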