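import Pool.Agent.Lib.MP_6c284f_gt.UCE

set_option autoImplicit false
set_option maxSynthPendingDepth 5

/-!
Weak unique continuation for second order elliptic differential inequalities with smooth real
principal part, for vector valued functions.
-/

namespace Pool.Agent.Lib.MP_6c284f_gt

open scoped ContDiff Topology
open Set

theorem unique_continuation {n : ℕ} {U : Set E4} (hU : IsOpen U) (hconn : IsPreconnected U)
    (a : Fin 4 → Fin 4 → E4 → ℝ) (ha : ∀ i j, ContDiffOn ℝ ∞ (a i j) U)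
    (hsymm : ∀ x ∈ U, ∀ i j, a i j x = a j i x)
    (hpos : ∀ x ∈ U, ∀ ξ : Fin 4 → ℝ, ξ ≠ 0 → 0 < ∑ i, ∑ j, a i j x * ξ i * ξ j)
    (v : Fin n → E4 → ℝ) (hv : ∀ k, ContDiffOn ℝ ∞ (v k) U)
    (hineq : ∀ x ∈ U, ∃ C : ℝ, ∀ᶠ y in 𝓝 x, ∀ k,
      |∑ i, ∑ j, a i j y * dd (v k) i j y| ≤ C * ∑ m, (|v m y| + ‖fderiv ℝ (v m) y‖))
    {O : Set E4} (hO : IsOpen O) (hOU : O ⊆ U) (hne : O.Nonempty)
    (hzero : ∀ x ∈ O, ∀ k, v k x = 0) : ∀ x ∈ U, ∀ k, v k x = 0 := by
  have hZo : IsOpen (interior {x : E4 | x ∈ U ∧ ∀ k, v k x = 0}) := isOpen_interior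
  have hsub : interior {x : E4 | x ∈ U ∧ ∀ k, v k x = 0} ⊆ {x : E4 | x ∈ U ∧ ∀ k, v k x = 0} :=
    interior_subset
  have hOZ : O ⊆ interior {x : E4 | x ∈ U ∧ ∀ k, v k x = 0} :=
    interior_maximal (fun x hx => ⟨hOU hx, hzero x hx⟩) hO
  have key : U ⊆ interior {x : E4 | x ∈ U ∧ ∀ k, v k x = 0} := by
    refine hconn.subset_of_closure_inter_subset hZo ?_ ?_
    · obtain ⟨x, hx⟩ := hne
      exact ⟨x, hOU hx, hOZ hx⟩
    · rintro b ⟨hb, hbU⟩
      by_contra hbZ
      obtain ⟨r, hr, hball⟩ := Metric.isOpen_iff.1 hU b hbU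
      obtain ⟨x, hxZ, hxb⟩ := Metric.mem_closure_iff.1 hb (r / 2) (by positivity)
      have hne' : ((interior {x : E4 | x ∈ U ∧ ∀ k, v k x = 0})ᶜ).Nonempty := ⟨b, hbZ⟩
      obtain ⟨p, hpZ, hpd⟩ := hZo.isClosed_compl.exists_infDist_eq_dist hne' x
      have hpx : p ≠ x := by
        rintro rfl
        exact hpZ hxZ
      have hd : dist x p ≤ dist x b := by
        rw [← hpd]
        exact Metric.infDist_le_dist_of_mem hbZ
      have hpU : p ∈ U := by
        apply hball
        rw [Metric.mem_ball]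
        calc dist p b ≤ dist p x + dist x b := dist_triangle _ _ _
          _ < r / 2 + r / 2 := by
            rw [dist_comm p x]
            have : dist x b < r / 2 := by rw [dist_comm]; exact hxb
            linarith
          _ = r := by ring
      have h0 : ∀ y ∈ Metric.ball x (dist p x), y ∈ U → ∀ k, v k y = 0 := by
        intro y hy _ k
        have hyZ : y ∈ interior {x : E4 | x ∈ U ∧ ∀ k, v k x = 0} := by
          by_contra hyn
          have h1 : Metric.infDist x ((interior {x : E4 | x ∈ U ∧ ∀ k, v k x = 0})ᶜ) ≤ dist x y :=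
            Metric.infDist_le_dist_of_mem hyn
          rw [hpd] at h1
          rw [Metric.mem_ball, dist_comm, dist_comm p x] at hy
          linarith
        exact (hsub hyZ).2 k
      have h1 := uc_at_point hU a ha hsymm hpos v hv hineq hpU hpx h0
      apply hpZ
      rw [mem_interior_iff_mem_nhds]
      filter_upwards [h1, hU.mem_nhds hpU] with y hy hyU
      exact ⟨hyU, hy⟩
  intro x hx k
  exact (hsub (key hx)).2 k

end Pool.Agent.Lib.MP_6c284f_gt
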