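import Pool.Agent.Lib.MP_6c284f_gt.UCDefs

set_option autoImplicit false
set_option maxSynthPendingDepth 5

/-!
Integrations by parts for the Carleman estimate. Here `u` is smooth with compact support and
`φ`, `a i j`, `q` are smooth.
-/

namespace Pool.Agent.Lib.MP_6c284f_gt

open scoped ContDiff Topology
open Set MeasureTheory

theorem pd_smooth {f : E4 → ℝ} (hf : ContDiff ℝ ∞ f) (i : Fin 4) : ContDiff ℝ ∞ (pd f i) := by
  unfold pd
  exact (hf.fderiv_right (m := ∞) (by simp)).clm_apply contDiff_const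

theorem smooth_diff {f : E4 → ℝ} (hf : ContDiff ℝ ∞ f) : Differentiable ℝ f :=
  hf.differentiable (by simp)

theorem pd_mul {f g : E4 → ℝ} (hf : ContDiff ℝ ∞ f) (hg : ContDiff ℝ ∞ g) (i : Fin 4) (x : E4) :
    pd (fun y => f y * g y) i x = pd f i x * g x + f x * pd g i x := by
  unfold pd
  rw [fderiv_fun_mul (smooth_diff hf x) (smooth_diff hg x)]
  simp
  ring

theorem pd_add {f g : E4 → ℝ} (hf : ContDiff ℝ ∞ f) (hg : ContDiff ℝ ∞ g) (i : Fin 4) (x : E4) :
    pd (fun y => f y + g y) i x = pd f i x + pd g i x := by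
  unfold pd
  rw [fderiv_fun_add (smooth_diff hf x) (smooth_diff hg x)]
  simp

theorem pd_sum {f : Fin 4 → E4 → ℝ} (hf : ∀ k, ContDiff ℝ ∞ (f k)) (i : Fin 4) (x : E4) :
    pd (fun y => ∑ k, f k y) i x = ∑ k, pd (f k) i x := by
  unfold pd
  rw [fderiv_fun_sum (fun k _ => smooth_diff (hf k) x)]
  simp

theorem pd_zero_of_notMem {f : E4 → ℝ} (i : Fin 4) {x : E4} (hx : x ∉ tsupport f) :
    pd f i x = 0 := by
  unfold pd
  rw [fderiv_of_notMem_tsupport ℝ hx]
  simp

theorem tsupport_pd {f : E4 → ℝ} (i : Fin 4) : tsupport (pd f i) ⊆ tsupport f := by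
  apply closure_minimal _ (isClosed_tsupport f)
  intro x hx
  by_contra h
  exact hx (pd_zero_of_notMem i h)

theorem hcs_pd {f : E4 → ℝ} (hc : HasCompactSupport f) (i : Fin 4) :
    HasCompactSupport (pd f i) :=
  hc.of_isClosed_subset (isClosed_tsupport _) (tsupport_pd i)

/-- a continuous function that vanishes off the support of a compactly supported `u` is
integrable -/
theorem int_of {u F : E4 → ℝ} (hc : HasCompactSupport u) (hF : Continuous F)
    (h : ∀ x, x ∉ tsupport u → F x = 0) : Integrable F :=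
  hF.integrable_of_hasCompactSupport (HasCompactSupport.intro hc h)

theorem integral_pd_eq_zero {F : E4 → ℝ} (hF : ContDiff ℝ ∞ F) (hc : HasCompactSupport F)
    (i : Fin 4) : ∫ x, pd F i x = 0 := by
  have h := integral_mul_fderiv_eq_neg_fderiv_mul_of_integrable (μ := (volume : Measure E4))
    (f := fun _ : E4 => (1 : ℝ)) (g := F) (v := EuclideanSpace.single i 1) ?_ ?_ ?_ ?_ ?_
  · simpa [pd] using h
  · simp
  · simp only [one_mul]
    exact (pd_smooth hF i).continuous.integrable_of_hasCompactSupport (hcs_pd hc i)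
  · simp only [one_mul]
    exact hF.continuous.integrable_of_hasCompactSupport hc
  · intro x _
    exact differentiableAt_const _
  · intro x _
    exact smooth_diff hF x

/-- the divergence theorem against a compactly supported function -/
theorem ibp_div {V : Fin 4 → E4 → ℝ} (hV : ∀ i, ContDiff ℝ ∞ (V i)) {G : E4 → ℝ}
    (hG : ContDiff ℝ ∞ G) (hc : HasCompactSupport G) :
    ∫ x, (∑ i, pd (V i) i x) * G x = -∫ x, ∑ i, V i x * pd G i x := by
  have hs : ∀ i, ContDiff ℝ ∞ (fun x => V i x * G x) := fun i => (hV i).mul hG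
  have hcs : ∀ i, HasCompactSupport (fun x => V i x * G x) := fun i =>
    HasCompactSupport.intro hc (fun x hx => by
      rw [image_eq_zero_of_notMem_tsupport hx, mul_zero])
  have h1 : ∀ i, ∫ x, pd (fun x => V i x * G x) i x = 0 := fun i =>
    integral_pd_eq_zero (hs i) (hcs i) i
  have h2 : ∫ x, ∑ i, pd (fun x => V i x * G x) i x = 0 := by
    rw [integral_finsetSum]
    · simp [h1]
    · intro i _
      exact (pd_smooth (hs i) i).continuous.integrable_of_hasCompactSupport (hcs_pd (hcs i) i)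
  have h3 : ∀ x, ∑ i, pd (fun x => V i x * G x) i x =
      (∑ i, pd (V i) i x) * G x + ∑ i, V i x * pd G i x := by
    intro x
    rw [Finset.sum_mul, ← Finset.sum_add_distrib]
    exact Finset.sum_congr rfl (fun i _ => pd_mul (hV i) hG i x)
  simp only [h3] at h2
  rw [integral_add] at h2
  · linarith
  · refine int_of hc ?_ ?_
    · exact (continuous_finsetSum _ (fun i _ => (pd_smooth (hV i) i).continuous)).mul
        hG.continuous
    · intro x hx
      rw [image_eq_zero_of_notMem_tsupport hx, mul_zero]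
  · refine int_of hc ?_ ?_
    · exact continuous_finsetSum _ (fun i _ => (hV i).continuous.mul (pd_smooth hG i).continuous)
    · intro x hx
      simp [pd_zero_of_notMem _ hx]

theorem smooth_row {a : Fin 4 → Fin 4 → E4 → ℝ} (ha : ∀ i j, ContDiff ℝ ∞ (a i j))
    {w : E4 → ℝ} (hw : ContDiff ℝ ∞ w) (i : Fin 4) :
    ContDiff ℝ ∞ (fun y => ∑ j, a i j y * pd w j y) :=
  ContDiff.sum (fun j _ => (ha i j).mul (pd_smooth hw j))

theorem smooth_opP {a : Fin 4 → Fin 4 → E4 → ℝ} (ha : ∀ i j, ContDiff ℝ ∞ (a i j))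
    {w : E4 → ℝ} (hw : ContDiff ℝ ∞ w) : ContDiff ℝ ∞ (opP a w) := by
  unfold opP
  exact ContDiff.sum (fun i _ => pd_smooth (smooth_row ha hw i) i)

theorem smooth_bil {a : Fin 4 → Fin 4 → E4 → ℝ} (ha : ∀ i j, ContDiff ℝ ∞ (a i j))
    {v w : E4 → ℝ} (hv : ContDiff ℝ ∞ v) (hw : ContDiff ℝ ∞ w) :
    ContDiff ℝ ∞ (bil a v w) := by
  unfold bil
  exact ContDiff.sum (fun i _ => ContDiff.sum (fun j _ =>
    ((ha i j).mul (pd_smooth hv i)).mul (pd_smooth hw j)))

theorem bil_symm {a : Fin 4 → Fin 4 → E4 → ℝ} (hsymm : ∀ i j x, a i j x = a j i x)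
    (v w : E4 → ℝ) (x : E4) : bil a v w x = bil a w v x := by
  unfold bil
  rw [Finset.sum_comm]
  refine Finset.sum_congr rfl (fun i _ => Finset.sum_congr rfl (fun j _ => ?_))
  rw [hsymm j i]
  ring

theorem bil_zero_right {a : Fin 4 → Fin 4 → E4 → ℝ} {v w : E4 → ℝ} {x : E4}
    (hx : x ∉ tsupport w) : bil a v w x = 0 := by
  unfold bil
  simp [pd_zero_of_notMem _ hx]

theorem bil_zero_left {a : Fin 4 → Fin 4 → E4 → ℝ} {v w : E4 → ℝ} {x : E4}
    (hx : x ∉ tsupport v) : bil a v w x = 0 := by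
  unfold bil
  simp [pd_zero_of_notMem _ hx]

/-- integration by parts of the operator against a compactly supported function -/
theorem ibp_op {a : Fin 4 → Fin 4 → E4 → ℝ} (ha : ∀ i j, ContDiff ℝ ∞ (a i j))
    {w G : E4 → ℝ} (hw : ContDiff ℝ ∞ w) (hG : ContDiff ℝ ∞ G) (hc : HasCompactSupport G) :
    ∫ x, opP a w x * G x = -∫ x, bil a G w x := by
  have h := ibp_div (V := fun i y => ∑ j, a i j y * pd w j y) (smooth_row ha hw) hG hc
  unfold opP
  rw [h]
  congr 2
  funext x
  unfold bil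
  refine Finset.sum_congr rfl (fun i _ => ?_)
  rw [Finset.sum_mul]
  exact Finset.sum_congr rfl (fun j _ => by ring)

/-- `-∫ P u · u = ∫ a(∇u,∇u)` -/
theorem ibp_energy {a : Fin 4 → Fin 4 → E4 → ℝ} (ha : ∀ i j, ContDiff ℝ ∞ (a i j))
    {u : E4 → ℝ} (hu : ContDiff ℝ ∞ u) (hc : HasCompactSupport u) :
    -∫ x, opP a u x * u x = ∫ x, bil a u u x := by
  rw [ibp_op ha hu hu hc, neg_neg]

/-- `-∫ P u · b u = ∫ b a(∇u,∇u) + ∫ u a(∇u,∇b)` -/
theorem ibp_mul {a : Fin 4 → Fin 4 → E4 → ℝ} (ha : ∀ i j, ContDiff ℝ ∞ (a i j))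
    (hsymm : ∀ i j x, a i j x = a j i x)
    {b u : E4 → ℝ} (hb : ContDiff ℝ ∞ b) (hu : ContDiff ℝ ∞ u) (hc : HasCompactSupport u) :
    -∫ x, opP a u x * (b x * u x) =
      (∫ x, b x * bil a u u x) + ∫ x, u x * bil a u b x := by
  have hcs : HasCompactSupport (fun x => b x * u x) :=
    HasCompactSupport.intro hc (fun x hx => by
      rw [image_eq_zero_of_notMem_tsupport hx, mul_zero])
  rw [ibp_op ha hu (hb.mul hu) hcs, neg_neg, ← integral_add]
  · congr 1
    funext x
    rw [bil_symm hsymm u b]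
    unfold bil
    rw [Finset.mul_sum, Finset.mul_sum, ← Finset.sum_add_distrib]
    refine Finset.sum_congr rfl (fun i _ => ?_)
    rw [Finset.mul_sum, Finset.mul_sum, ← Finset.sum_add_distrib]
    refine Finset.sum_congr rfl (fun j _ => ?_)
    rw [pd_mul hb hu]
    ring
  · exact int_of hc (hb.continuous.mul (smooth_bil ha hu hu).continuous)
      (fun x hx => by rw [bil_zero_left hx, mul_zero])
  · exact int_of hc (hu.continuous.mul (smooth_bil ha hu hb).continuous)
      (fun x hx => by rw [bil_zero_left hx, mul_zero])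

/-- `-2 ∫ q u a(∇φ,∇u) - ∫ q P φ u² = ∫ a(∇q,∇φ) u²` -/
theorem ibp_zero {a : Fin 4 → Fin 4 → E4 → ℝ} (ha : ∀ i j, ContDiff ℝ ∞ (a i j))
    (hsymm : ∀ i j x, a i j x = a j i x) {q φ u : E4 → ℝ} (hq : ContDiff ℝ ∞ q)
    (hφ : ContDiff ℝ ∞ φ) (hu : ContDiff ℝ ∞ u) (hc : HasCompactSupport u) :
    -2 * (∫ x, q x * u x * bil a φ u x) - ∫ x, q x * opP a φ x * u x ^ 2 =
      ∫ x, bil a q φ x * u x ^ 2 := by
  have hcs : HasCompactSupport (fun x => q x * (u x * u x)) :=
    HasCompactSupport.intro hc (fun x hx => by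
      rw [image_eq_zero_of_notMem_tsupport hx]; ring)
  have h := ibp_op ha hφ (hq.mul (hu.mul hu)) hcs
  have h1 : ∫ x, q x * opP a φ x * u x ^ 2 = ∫ x, opP a φ x * (q x * (u x * u x)) := by
    congr 1
    funext x
    ring
  have h2 : ∀ x, bil a (fun x => q x * (u x * u x)) φ x =
      bil a q φ x * u x ^ 2 + 2 * (q x * u x * bil a φ u x) := by
    intro x
    rw [bil_symm hsymm φ u]
    unfold bil
    rw [Finset.sum_mul, Finset.mul_sum, Finset.mul_sum, ← Finset.sum_add_distrib]
    refine Finset.sum_congr rfl (fun i _ => ?_)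
    rw [Finset.sum_mul, Finset.mul_sum, Finset.mul_sum, ← Finset.sum_add_distrib]
    refine Finset.sum_congr rfl (fun j _ => ?_)
    rw [pd_mul hq (hu.mul hu), pd_mul hu hu]
    ring
  rw [h1, h]
  simp only [h2]
  rw [integral_add, integral_const_mul]
  · ring
  · exact int_of hc ((smooth_bil ha hq hφ).continuous.mul (hu.continuous.pow 2))
      (fun x hx => by rw [image_eq_zero_of_notMem_tsupport hx]; ring)
  · exact int_of hc (continuous_const.mul ((hq.continuous.mul hu.continuous).mul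
      (smooth_bil ha hφ hu).continuous))
      (fun x hx => by rw [image_eq_zero_of_notMem_tsupport hx]; ring)

end Pool.Agent.Lib.MP_6c284f_gt
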