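import Pool.Agent.Lib.MP_6c284f_gt.UCDefs
import Pool.Agent.Lib.MP_6c284f_gt.UCAA

set_option autoImplicit false
set_option maxSynthPendingDepth 5

/-!
Integrations by parts for the Carleman estimate. Here `u` is smooth with compact support and
`φ`, `a i j`, `q` are smooth.
-/

namespace Pool.Agent.Lib.MP_6c284f_gt

open scoped ContDiff Topology
open Set MeasureTheory

/-- symmetry of second derivatives -/
theorem pd_comm {f : E4 → ℝ} (hf : ContDiff ℝ ∞ f) (i j : Fin 4) (x : E4) :
    pd (pd f i) j x = pd (pd f j) i x := by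
  have hd : Differentiable ℝ (fderiv ℝ f) :=
    (hf.fderiv_right (m := ∞) (by simp)).differentiable (by simp)
  have key : ∀ i j : Fin 4, pd (pd f i) j x =
      fderiv ℝ (fderiv ℝ f) x (EuclideanSpace.single j 1) (EuclideanSpace.single i 1) := by
    intro i j
    unfold pd
    rw [fderiv_clm_apply (hd x) (differentiableAt_const _)]
    simp
  rw [key i j, key j i]
  have hs : IsSymmSndFDerivAt ℝ f x :=
    hf.contDiffAt.isSymmSndFDerivAt (by simp only [minSmoothness_of_isRCLikeNormedField]; exact WithTop.coe_le_coe.2 le_top)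
  exact hs _ _

theorem hcs_of {u F : E4 → ℝ} (hc : HasCompactSupport u)
    (h : ∀ x, x ∉ tsupport u → F x = 0) : HasCompactSupport F :=
  HasCompactSupport.intro hc h

/-- the Rellich identity:
`-2 ∫ P u · a(∇φ,∇u) = 2 ∫ a_ij ∂_j u ∂_i(a_kl ∂_k φ) ∂_l u - ∫ a_kl ∂_k φ (∂_l a_ij) ∂_i u ∂_j u
  - ∫ P φ a(∇u,∇u)` -/
theorem ibp_rellich {a : Fin 4 → Fin 4 → E4 → ℝ} (ha : ∀ i j, ContDiff ℝ ∞ (a i j))
    (hsymm : ∀ i j x, a i j x = a j i x) {φ u : E4 → ℝ} (hφ : ContDiff ℝ ∞ φ)
    (hu : ContDiff ℝ ∞ u) (hc : HasCompactSupport u) :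
    -2 * ∫ x, opP a u x * bil a φ u x =
      2 * (∫ x, ∑ i, ∑ j, ∑ l, a i j x * pd u j x *
        pd (fun y => ∑ k, a k l y * pd φ k y) i x * pd u l x)
      - (∫ x, ∑ i, ∑ j, ∑ l, (∑ k, a k l x * pd φ k x) * pd (a i j) l x * pd u i x * pd u j x)
      - ∫ x, opP a φ x * bil a u u x := by
  have hb : ∀ l, ContDiff ℝ ∞ (fun y => ∑ k, a k l y * pd φ k y) := fun l =>
    ContDiff.sum (fun k _ => (ha k l).mul (pd_smooth hφ k))
  have hpu : ∀ l, ContDiff ℝ ∞ (pd u l) := fun l => pd_smooth hu l
  have hG : ContDiff ℝ ∞ (bil a φ u) := smooth_bil ha hφ hu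
  have hcG : HasCompactSupport (bil a φ u) := hcs_of hc (fun x hx => bil_zero_right hx)
  have hcE : HasCompactSupport (bil a u u) := hcs_of hc (fun x hx => bil_zero_right hx)
  have hGl : bil a φ u = fun x => ∑ l, (∑ k, a k l x * pd φ k x) * pd u l x := by
    funext x
    unfold bil
    rw [Finset.sum_comm]
    refine Finset.sum_congr rfl (fun l _ => ?_)
    rw [Finset.sum_mul]
  have hpG : ∀ i x, pd (bil a φ u) i x =
      (∑ l, pd (fun y => ∑ k, a k l y * pd φ k y) i x * pd u l x) +
      ∑ l, (∑ k, a k l x * pd φ k x) * pd (pd u l) i x := by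
    intro i x
    rw [hGl, pd_sum (fun l => (hb l).mul (hpu l)), ← Finset.sum_add_distrib]
    exact Finset.sum_congr rfl (fun l _ => pd_mul (hb l) (hpu l) i x)
  have hpE : ∀ l x, pd (bil a u u) l x =
      ∑ i, ∑ j, (pd (a i j) l x * pd u i x * pd u j x +
        (a i j x * pd (pd u i) l x * pd u j x + a i j x * pd u i x * pd (pd u j) l x)) := by
    intro l x
    unfold bil
    rw [pd_sum (fun i => ContDiff.sum (fun j _ => ((ha i j).mul (hpu i)).mul (hpu j)))]
    refine Finset.sum_congr rfl (fun i _ => ?_)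
    rw [pd_sum (fun j => ((ha i j).mul (hpu i)).mul (hpu j))]
    refine Finset.sum_congr rfl (fun j _ => ?_)
    rw [pd_mul ((ha i j).mul (hpu i)) (hpu j), pd_mul (ha i j) (hpu i)]
    ring
  -- the two integrations by parts
  have h1 := ibp_op ha hu hG hcG
  have h2 := ibp_div (V := fun l y => ∑ k, a k l y * pd φ k y) hb (smooth_bil ha hu hu) hcE
  have h2' : ∀ x, ∑ l, pd (fun y => ∑ k, a k l y * pd φ k y) l x = opP a φ x := by
    intro x
    unfold opP
    refine Finset.sum_congr rfl (fun l _ => ?_)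
    congr 1
    funext y
    exact Finset.sum_congr rfl (fun k _ => by rw [hsymm k l])
  simp only [h2'] at h2
  -- pointwise identity
  have hpt : ∀ x, 2 * bil a (bil a φ u) u x =
      2 * (∑ i, ∑ j, ∑ l, a i j x * pd u j x *
        pd (fun y => ∑ k, a k l y * pd φ k y) i x * pd u l x)
      - (∑ i, ∑ j, ∑ l, (∑ k, a k l x * pd φ k x) * pd (a i j) l x * pd u i x * pd u j x)
      + ∑ l, (∑ k, a k l x * pd φ k x) * pd (bil a u u) l x := by
    intro x
    have e1 : bil a (bil a φ u) u x = (∑ i, ∑ j, ∑ l, a i j x * pd u j x *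
        pd (fun y => ∑ k, a k l y * pd φ k y) i x * pd u l x) +
        ∑ l, (∑ k, a k l x * pd φ k x) * ∑ i, ∑ j, a i j x * pd (pd u i) l x * pd u j x := by
      have e2 : ∑ l, (∑ k, a k l x * pd φ k x) * ∑ i, ∑ j, a i j x * pd (pd u i) l x * pd u j x
          = ∑ i, ∑ j, ∑ l, a i j x * pd u j x *
            ((∑ k, a k l x * pd φ k x) * pd (pd u l) i x) := by
        have : ∀ l, (∑ k, a k l x * pd φ k x) * ∑ i, ∑ j, a i j x * pd (pd u i) l x * pd u j x
            = ∑ i, ∑ j, a i j x * pd u j x *
              ((∑ k, a k l x * pd φ k x) * pd (pd u l) i x) := by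
          intro l
          rw [Finset.mul_sum]
          refine Finset.sum_congr rfl (fun i _ => ?_)
          rw [Finset.mul_sum]
          refine Finset.sum_congr rfl (fun j _ => ?_)
          rw [pd_comm hu l i]
          ring
        simp only [this]
        rw [Finset.sum_comm]
        refine Finset.sum_congr rfl (fun i _ => ?_)
        rw [Finset.sum_comm]
      rw [e2, ← Finset.sum_add_distrib]
      unfold bil
      refine Finset.sum_congr rfl (fun i _ => ?_)
      rw [← Finset.sum_add_distrib]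
      refine Finset.sum_congr rfl (fun j _ => ?_)
      have := hpG i x
      unfold bil at this
      rw [this, ← Finset.sum_add_distrib, ← Finset.sum_add_distrib, Finset.mul_sum,
        Finset.sum_mul]
      refine Finset.sum_congr rfl (fun l _ => ?_)
      ring
    have e3 : ∀ l, ∑ i, ∑ j, a i j x * pd u i x * pd (pd u j) l x =
        ∑ i, ∑ j, a i j x * pd (pd u i) l x * pd u j x := by
      intro l
      rw [Finset.sum_comm]
      refine Finset.sum_congr rfl (fun i _ => Finset.sum_congr rfl (fun j _ => ?_))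
      rw [hsymm j i]
      ring
    have e4 : ∑ l, (∑ k, a k l x * pd φ k x) * pd (bil a u u) l x =
        (∑ i, ∑ j, ∑ l, (∑ k, a k l x * pd φ k x) * pd (a i j) l x * pd u i x * pd u j x) +
        2 * ∑ l, (∑ k, a k l x * pd φ k x) * ∑ i, ∑ j, a i j x * pd (pd u i) l x * pd u j x := by
      have e5 : ∑ i, ∑ j, ∑ l, (∑ k, a k l x * pd φ k x) * pd (a i j) l x * pd u i x * pd u j x
          = ∑ l, (∑ k, a k l x * pd φ k x) * ∑ i, ∑ j, pd (a i j) l x * pd u i x * pd u j x := by
        symm
        have : ∀ l, (∑ k, a k l x * pd φ k x) * ∑ i, ∑ j, pd (a i j) l x * pd u i x * pd u j x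
            = ∑ i, ∑ j, (∑ k, a k l x * pd φ k x) * pd (a i j) l x * pd u i x * pd u j x := by
          intro l
          rw [Finset.mul_sum]
          refine Finset.sum_congr rfl (fun i _ => ?_)
          rw [Finset.mul_sum]
          exact Finset.sum_congr rfl (fun j _ => by ring)
        simp only [this]
        rw [Finset.sum_comm]
        refine Finset.sum_congr rfl (fun i _ => ?_)
        rw [Finset.sum_comm]
      rw [e5, Finset.mul_sum, ← Finset.sum_add_distrib]
      refine Finset.sum_congr rfl (fun l _ => ?_)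
      rw [hpE l x]
      simp only [Finset.sum_add_distrib]
      rw [e3 l]
      ring
    rw [e1, e4]
    ring
  have hi1 : Integrable (fun x => ∑ i, ∑ j, ∑ l, a i j x * pd u j x *
        pd (fun y => ∑ k, a k l y * pd φ k y) i x * pd u l x) := by
    refine int_of hc ?_ (fun x hx => by simp [pd_zero_of_notMem _ hx])
    refine continuous_finsetSum _ (fun i _ => continuous_finsetSum _ (fun j _ =>
      continuous_finsetSum _ (fun l _ => ?_)))
    exact (((ha i j).continuous.mul (hpu j).continuous).mul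
      (pd_smooth (hb l) i).continuous).mul (hpu l).continuous
  have hi2 : Integrable (fun x => ∑ i, ∑ j, ∑ l, (∑ k, a k l x * pd φ k x) *
      pd (a i j) l x * pd u i x * pd u j x) := by
    refine int_of hc ?_ (fun x hx => by simp [pd_zero_of_notMem _ hx])
    refine continuous_finsetSum _ (fun i _ => continuous_finsetSum _ (fun j _ =>
      continuous_finsetSum _ (fun l _ => ?_)))
    exact (((hb l).continuous.mul (pd_smooth (ha i j) l).continuous).mul
      (hpu i).continuous).mul (hpu j).continuous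
  have hi3 : Integrable (fun x => ∑ l, (∑ k, a k l x * pd φ k x) * pd (bil a u u) l x) := by
    refine int_of hcE ?_ (fun x hx => by simp [pd_zero_of_notMem _ hx])
    exact continuous_finsetSum _ (fun l _ => (hb l).continuous.mul
      (pd_smooth (smooth_bil ha hu hu) l).continuous)
  have h3 : ∫ x, 2 * bil a (bil a φ u) u x =
      2 * (∫ x, ∑ i, ∑ j, ∑ l, a i j x * pd u j x *
        pd (fun y => ∑ k, a k l y * pd φ k y) i x * pd u l x)
      - (∫ x, ∑ i, ∑ j, ∑ l, (∑ k, a k l x * pd φ k x) * pd (a i j) l x * pd u i x * pd u j x)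
      + ∫ x, ∑ l, (∑ k, a k l x * pd φ k x) * pd (bil a u u) l x := by
    simp only [hpt]
    have e1 := integral_add ((hi1.const_mul 2).sub hi2) hi3
    have e2 := integral_sub (hi1.const_mul 2) hi2
    simp only [Pi.sub_apply] at e1 e2
    rw [e1, e2, integral_const_mul]
  rw [integral_const_mul] at h3
  rw [h1]
  linarith

end Pool.Agent.Lib.MP_6c284f_gt
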