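import Pool.Agent.Lib.MP_6c284f_gt.UCA

set_option autoImplicit false
set_option maxSynthPendingDepth 5

/-!
The conjugated operator: lower bound for
`∫ (S u + A u)²` with `S u = P u + τ² a(∇φ,∇φ) u`, `A u = -2τ a(∇φ,∇u) - τ (P φ) u`.
-/

namespace Pool.Agent.Lib.MP_6c284f_gt

open scoped ContDiff Topology
open Set MeasureTheory Metric

theorem smooth_exp {φ : E4 → ℝ} (hφ : ContDiff ℝ ∞ φ) (τ : ℝ) :
    ContDiff ℝ ∞ (fun y => Real.exp (τ * φ y)) :=
  Real.contDiff_exp.comp (contDiff_const.mul hφ)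

theorem pd_exp {φ : E4 → ℝ} (hφ : ContDiff ℝ ∞ φ) (τ : ℝ) (i : Fin 4) (x : E4) :
    pd (fun y => Real.exp (τ * φ y)) i x = τ * pd φ i x * Real.exp (τ * φ x) := by
  unfold pd
  have h : HasFDerivAt (fun y => Real.exp (τ * φ y))
      (Real.exp (τ * φ x) • (τ • fderiv ℝ φ x)) x :=
    (((smooth_diff hφ x).hasFDerivAt).const_mul τ).exp
  rw [h.fderiv]
  simp
  ring

/-- conjugation of the operator with the exponential weight -/
theorem conj_op {a : Fin 4 → Fin 4 → E4 → ℝ} (ha : ∀ i j, ContDiff ℝ ∞ (a i j))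
    (hsymm : ∀ i j x, a i j x = a j i x) {φ w : E4 → ℝ} (hφ : ContDiff ℝ ∞ φ)
    (hw : ContDiff ℝ ∞ w) (τ : ℝ) (x : E4) :
    Real.exp (τ * φ x) * opP a w x =
      opP a (fun y => Real.exp (τ * φ y) * w y) x
      + τ ^ 2 * bil a φ φ x * (Real.exp (τ * φ x) * w x)
      - 2 * τ * bil a φ (fun y => Real.exp (τ * φ y) * w y) x
      - τ * opP a φ x * (Real.exp (τ * φ x) * w x) := by
  have he := smooth_exp hφ τ
  have hv : ContDiff ℝ ∞ (fun y => Real.exp (τ * φ y) * w y) := he.mul hw
  have hpv : ∀ j y, pd (fun y => Real.exp (τ * φ y) * w y) j y =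
      τ * (Real.exp (τ * φ y) * w y) * pd φ j y + Real.exp (τ * φ y) * pd w j y := by
    intro j y
    rw [pd_mul he hw, pd_exp hφ]
    ring
  have hrow : ∀ i, (fun y => ∑ j, a i j y * pd (fun y => Real.exp (τ * φ y) * w y) j y) =
      fun y => τ * ((Real.exp (τ * φ y) * w y) * ∑ j, a i j y * pd φ j y) +
        Real.exp (τ * φ y) * ∑ j, a i j y * pd w j y := by
    intro i
    funext y
    rw [Finset.mul_sum, Finset.mul_sum, Finset.mul_sum, ← Finset.sum_add_distrib]
    refine Finset.sum_congr rfl (fun j _ => ?_)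
    rw [hpv]
    ring
  have hpc : ∀ {F : E4 → ℝ} (_ : ContDiff ℝ ∞ F) (i : Fin 4),
      pd (fun y => τ * F y) i x = τ * pd F i x := by
    intro F hF i
    have := pd_mul (f := fun _ => τ) contDiff_const hF i x
    rw [this]
    unfold pd
    simp
  have hrs := smooth_row ha hφ
  have hrw := smooth_row ha hw
  have hop : opP a (fun y => Real.exp (τ * φ y) * w y) x =
      τ * bil a (fun y => Real.exp (τ * φ y) * w y) φ x +
      τ * (Real.exp (τ * φ x) * w x) * opP a φ x +
      τ * Real.exp (τ * φ x) * bil a φ w x + Real.exp (τ * φ x) * opP a w x := by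
    have e1 : ∀ i, pd (fun y => ∑ j, a i j y * pd (fun y => Real.exp (τ * φ y) * w y) j y) i x =
        τ * (pd (fun y => Real.exp (τ * φ y) * w y) i x * ∑ j, a i j x * pd φ j x) +
        τ * (Real.exp (τ * φ x) * w x) * pd (fun y => ∑ j, a i j y * pd φ j y) i x +
        τ * Real.exp (τ * φ x) * (pd φ i x * ∑ j, a i j x * pd w j x) +
        Real.exp (τ * φ x) * pd (fun y => ∑ j, a i j y * pd w j y) i x := by
      intro i
      rw [hrow i, pd_add (contDiff_const.mul (hv.mul (hrs i))) (he.mul (hrw i)),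
        hpc (hv.mul (hrs i)), pd_mul hv (hrs i), pd_mul he (hrw i), pd_exp hφ]
      ring
    have e2 : τ * bil a (fun y => Real.exp (τ * φ y) * w y) φ x =
        ∑ i, τ * (pd (fun y => Real.exp (τ * φ y) * w y) i x * ∑ j, a i j x * pd φ j x) := by
      unfold bil
      rw [Finset.mul_sum]
      refine Finset.sum_congr rfl (fun i _ => ?_)
      rw [Finset.mul_sum, Finset.mul_sum, Finset.mul_sum]
      exact Finset.sum_congr rfl (fun j _ => by ring)
    have e3 : τ * Real.exp (τ * φ x) * bil a φ w x =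
        ∑ i, τ * Real.exp (τ * φ x) * (pd φ i x * ∑ j, a i j x * pd w j x) := by
      unfold bil
      rw [Finset.mul_sum]
      refine Finset.sum_congr rfl (fun i _ => ?_)
      rw [Finset.mul_sum, Finset.mul_sum, Finset.mul_sum]
      exact Finset.sum_congr rfl (fun j _ => by ring)
    rw [e2, e3]
    unfold opP
    simp only [e1]
    rw [Finset.mul_sum, Finset.mul_sum, Finset.sum_add_distrib, Finset.sum_add_distrib,
      Finset.sum_add_distrib]
  have hbv : bil a φ (fun y => Real.exp (τ * φ y) * w y) x =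
      τ * (Real.exp (τ * φ x) * w x) * bil a φ φ x + Real.exp (τ * φ x) * bil a φ w x := by
    unfold bil
    rw [Finset.mul_sum, Finset.mul_sum, ← Finset.sum_add_distrib]
    refine Finset.sum_congr rfl (fun i _ => ?_)
    rw [Finset.mul_sum, Finset.mul_sum, ← Finset.sum_add_distrib]
    refine Finset.sum_congr rfl (fun j _ => ?_)
    rw [hpv]
    ring
  rw [bil_symm hsymm _ φ] at hop
  rw [hop, hbv]
  ring

end Pool.Agent.Lib.MP_6c284f_gt
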