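import Pool.Agent.Lib.MP_6c284f_gt.UCA
import Pool.Agent.Lib.MP_6c284f_gt.UCBA

set_option autoImplicit false
set_option maxSynthPendingDepth 5

/-!
The conjugated operator: lower bound for
`∫ (S u + A u)²` with `S u = P u + τ² a(∇φ,∇φ) u`, `A u = -2τ a(∇φ,∇u) - τ (P φ) u`.
-/

namespace Pool.Agent.Lib.MP_6c284f_gt

open scoped ContDiff Topology
open Set MeasureTheory Metric

/-- the gradient of the weight -/
noncomputable def gradW (x : E4) (k : Fin 4) : ℝ :=
  -(if k = 0 then 1 else 0) - x k / 4 + 2 * x 0 * (if k = 0 then 1 else 0)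

/-- the Hessian of the weight -/
noncomputable def hessW (i k : Fin 4) : ℝ :=
  -(if i = k then 1 / 4 else 0) + 2 * (if i = 0 then 1 else 0) * (if k = 0 then 1 else 0)

theorem hasFDerivAt_coord (k : Fin 4) (x : E4) :
    HasFDerivAt (fun y : E4 => y k) (EuclideanSpace.proj k : E4 →L[ℝ] ℝ) x :=
  (EuclideanSpace.proj k : E4 →L[ℝ] ℝ).hasFDerivAt

theorem cw_smooth : ContDiff ℝ ∞ cw := by
  unfold cw
  have h : ContDiff ℝ ∞ (fun x : E4 => x 0) := (EuclideanSpace.proj (0 : Fin 4) : E4 →L[ℝ] ℝ).contDiff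
  exact (h.neg.sub ((contDiff_norm_sq ℝ).div_const 8)).add (h.pow 2)

theorem pd_cw (k : Fin 4) (x : E4) : pd cw k x = gradW x k := by
  unfold pd
  have h0 := hasFDerivAt_coord 0 x
  have hn : HasFDerivAt (fun y : E4 => ‖y‖ ^ 2) (2 • (innerSL ℝ x)) x :=
    (hasStrictFDerivAt_norm_sq x).hasFDerivAt
  have h := (h0.fun_neg.fun_sub (hn.mul_const (1 / 8))).fun_add (h0.pow 2)
  have hcw : cw = fun y : E4 => -y 0 - ‖y‖ ^ 2 * (1 / 8) + (y 0) ^ 2 := by
    funext y
    unfold cw
    ring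
  rw [hcw, h.fderiv]
  unfold gradW
  simp [EuclideanSpace.inner_single_right]
  rcases eq_or_ne k 0 with rfl | hk
  · simp
    ring
  · simp [hk, Ne.symm hk]
    ring

theorem pd_coord (i k : Fin 4) (x : E4) : pd (fun y : E4 => y k) i x = if k = i then 1 else 0 := by
  unfold pd
  rw [(hasFDerivAt_coord k x).fderiv]
  simp

theorem pd_gF (i k : Fin 4) (x : E4) : pd (fun y => gradW y k) i x = hessW i k := by
  unfold pd gradW
  have hk := hasFDerivAt_coord k x
  have h0 := hasFDerivAt_coord 0 x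
  have h := ((hk.mul_const (1 / 4)).const_sub (-(if k = 0 then (1:ℝ) else 0))).fun_add
    ((h0.const_mul 2).mul_const (if k = 0 then (1:ℝ) else 0))
  have hcw : (fun y : E4 => -(if k = 0 then (1:ℝ) else 0) - y k / 4 +
      2 * y 0 * (if k = 0 then (1:ℝ) else 0)) =
      fun y : E4 => -(if k = 0 then (1:ℝ) else 0) - y k * (1 / 4) +
      2 * y 0 * (if k = 0 then (1:ℝ) else 0) := by
    funext y
    ring
  rw [hcw, h.fderiv]
  unfold hessW
  rcases eq_or_ne k 0 with rfl | hk
  · rcases eq_or_ne i 0 with rfl | hi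
    · simp
    · simp [hi, Ne.symm hi]
  · rcases eq_or_ne i k with rfl | hi
    · simp [hk]
    · simp [hk, hi, Ne.symm hi]

theorem smooth_gF (k : Fin 4) : ContDiff ℝ ∞ (fun y => gradW y k) := by
  have : (fun y => gradW y k) = pd cw k := by
    funext y
    rw [pd_cw]
  rw [this]
  exact pd_smooth cw_smooth k

theorem quad_le (E : Fin 4 → Fin 4 → ℝ) (ε : ℝ) (hE : ∀ i j, |E i j| ≤ ε) (p : Fin 4 → ℝ) :
    |∑ i, ∑ j, E i j * p i * p j| ≤ 4 * ε * ∑ i, p i ^ 2 := by
  have hε : 0 ≤ ε := (abs_nonneg _).trans (hE 0 0)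
  have h1 : ∀ i j, |E i j * p i * p j| ≤ ε * ((p i ^ 2 + p j ^ 2) / 2) := by
    intro i j
    rw [mul_assoc, abs_mul]
    refine mul_le_mul (hE i j) ?_ (abs_nonneg _) hε
    rw [abs_le]
    constructor
    · nlinarith [sq_nonneg (p i + p j)]
    · nlinarith [sq_nonneg (p i - p j)]
  calc |∑ i, ∑ j, E i j * p i * p j| ≤ ∑ i, ∑ j, |E i j * p i * p j| := by
        refine (Finset.abs_sum_le_sum_abs _ _).trans (Finset.sum_le_sum (fun i _ => ?_))
        exact Finset.abs_sum_le_sum_abs _ _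
    _ ≤ ∑ i, ∑ j, ε * ((p i ^ 2 + p j ^ 2) / 2) :=
        Finset.sum_le_sum (fun i _ => Finset.sum_le_sum (fun j _ => h1 i j))
    _ = 4 * ε * ∑ i, p i ^ 2 := by
        simp only [Fin.sum_univ_four]
        ring

/-- the pointwise lower bound -/
theorem pt_bound (A C E : Fin 4 → Fin 4 → ℝ) (Q G M τ u : ℝ) (p g : Fin 4 → ℝ)
    (hA : ∀ i j, |A i j - if i = j then 1 else 0| ≤ 1 / 100)
    (hC : ∀ j l, |C j l - hessW j l| ≤ 1 / 100) (hE : ∀ i j, |E i j| ≤ 1 / 100)
    (hQ : |Q - 1| ≤ 1 / 100) (hG : |G - 7 / 2| ≤ 1 / 100) (hg : ∀ j, |g j| ≤ M)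
    (hτ : 1 ≤ τ) (hτM : 1024 * M ^ 2 ≤ τ ^ 2) :
    1 / 4 * (τ ^ 3 * u ^ 2 + τ * ∑ i, p i ^ 2) ≤
      4 * τ * (∑ j, ∑ l, C j l * p j * p l) - 2 * τ * (∑ i, ∑ j, E i j * p i * p j)
      + 2 * τ * (u * ∑ i, ∑ j, A i j * p i * g j) + 2 * τ ^ 3 * (G * u ^ 2)
      + 2 * τ * (∑ i, ∑ j, A i j * p i * p j) - 2 * τ ^ 3 * (Q * u ^ 2) - τ ^ 2 * u ^ 2 := by
  set P := ∑ i, p i ^ 2 with hP
  have hP0 : 0 ≤ P := Finset.sum_nonneg (fun i _ => sq_nonneg _)
  have hM : 0 ≤ M := (abs_nonneg _).trans (hg 0)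
  have h1 : -(1 / 4) * P - 4 * (1 / 100) * P ≤ ∑ j, ∑ l, C j l * p j * p l := by
    have e := quad_le (fun j l => C j l - hessW j l) _ hC p
    have e2 : ∑ j, ∑ l, (C j l - hessW j l) * p j * p l =
        (∑ j, ∑ l, C j l * p j * p l) + 1 / 4 * P - 2 * p 0 ^ 2 := by
      simp only [hP, hessW, Fin.sum_univ_four]
      simp
      ring
    rw [e2] at e
    have := (abs_le.1 e).1
    nlinarith [sq_nonneg (p 0)]
  have h2 : ∑ i, ∑ j, E i j * p i * p j ≤ 4 * (1 / 100) * P :=
    (abs_le.1 (quad_le E _ hE p)).2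
  have h3 : P - 4 * (1 / 100) * P ≤ ∑ i, ∑ j, A i j * p i * p j := by
    have e := quad_le (fun i j => A i j - if i = j then 1 else 0) _ hA p
    have e2 : ∑ i, ∑ j, (A i j - if i = j then (1:ℝ) else 0) * p i * p j =
        (∑ i, ∑ j, A i j * p i * p j) - P := by
      simp only [hP, Fin.sum_univ_four]
      simp
      ring
    rw [e2] at e
    have := (abs_le.1 e).1
    linarith
  have h4 : -(1 / 8 * P + 512 * M ^ 2 * u ^ 2) ≤ u * ∑ i, ∑ j, A i j * p i * g j := by
    have hA2 : ∀ i j, |A i j| ≤ 2 := by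
      intro i j
      have := abs_le.1 (hA i j)
      rw [abs_le]
      split_ifs at this with h
      · constructor <;> linarith
      · constructor <;> linarith
    have e1 : ∀ i j, -(1 / 32 * p i ^ 2 + 32 * M ^ 2 * u ^ 2) ≤ u * (A i j * p i * g j) := by
      intro i j
      have b1 : |A i j * g j| ≤ 2 * M := by
        rw [abs_mul]
        exact mul_le_mul (hA2 i j) (hg j) (abs_nonneg _) (by norm_num)
      have b2 : |u * (A i j * p i * g j)| ≤ 2 * M * (|p i| * |u|) := by
        have : u * (A i j * p i * g j) = (A i j * g j) * (p i * u) := by ring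
        rw [this, abs_mul, abs_mul (p i)]
        exact mul_le_mul_of_nonneg_right b1 (by positivity)
      have b3 : 2 * M * (|p i| * |u|) ≤ 1 / 32 * p i ^ 2 + 32 * M ^ 2 * u ^ 2 := by
        rw [← sq_abs (p i), ← sq_abs u]
        nlinarith [sq_nonneg (|p i| - 32 * (M * |u|))]
      have b4 := (abs_le.1 b2).1
      linarith
    have e3 : u * ∑ i, ∑ j, A i j * p i * g j = ∑ i, ∑ j, u * (A i j * p i * g j) := by
      simp only [Finset.mul_sum]
    rw [e3]
    have e2 : -(1 / 8 * P + 512 * M ^ 2 * u ^ 2) =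
        ∑ i, ∑ _j : Fin 4, -(1 / 32 * p i ^ 2 + 32 * M ^ 2 * u ^ 2) := by
      simp only [hP, Fin.sum_univ_four]
      ring
    rw [e2]
    exact Finset.sum_le_sum (fun i _ => Finset.sum_le_sum (fun j _ => e1 i j))
  have hG' := (abs_le.1 hG).1
  have hQ' := (abs_le.1 hQ).2
  have hτ0 : 0 < τ := by linarith
  have hu : 0 ≤ u ^ 2 := sq_nonneg u
  have k1 : 4 * τ * (-(1 / 4) * P - 4 * (1 / 100) * P) ≤ 4 * τ * ∑ j, ∑ l, C j l * p j * p l :=
    mul_le_mul_of_nonneg_left h1 (by positivity)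
  have k2 : 2 * τ * (∑ i, ∑ j, E i j * p i * p j) ≤ 2 * τ * (4 * (1 / 100) * P) :=
    mul_le_mul_of_nonneg_left h2 (by positivity)
  have k3 : 2 * τ * (P - 4 * (1 / 100) * P) ≤ 2 * τ * (∑ i, ∑ j, A i j * p i * p j) :=
    mul_le_mul_of_nonneg_left h3 (by positivity)
  have k4 : 2 * τ * (-(1 / 8 * P + 512 * M ^ 2 * u ^ 2)) ≤
      2 * τ * (u * ∑ i, ∑ j, A i j * p i * g j) :=
    mul_le_mul_of_nonneg_left h4 (by positivity)
  have k5 : 2 * τ ^ 3 * ((7 / 2 - 1 / 100) * u ^ 2) ≤ 2 * τ ^ 3 * (G * u ^ 2) :=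
    mul_le_mul_of_nonneg_left (mul_le_mul_of_nonneg_right (by linarith) hu) (by positivity)
  have k6 : 2 * τ ^ 3 * (Q * u ^ 2) ≤ 2 * τ ^ 3 * ((1 + 1 / 100) * u ^ 2) :=
    mul_le_mul_of_nonneg_left (mul_le_mul_of_nonneg_right (by linarith) hu) (by positivity)
  have k7 : τ ^ 2 * u ^ 2 ≤ τ ^ 3 * u ^ 2 := by
    apply mul_le_mul_of_nonneg_right _ hu
    have : τ ^ 3 = τ ^ 2 * τ := by ring
    rw [this]
    nlinarith [sq_nonneg τ]
  have k8 : 2 * τ * (512 * M ^ 2 * u ^ 2) ≤ τ ^ 3 * u ^ 2 := by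
    have : 2 * τ * (512 * M ^ 2 * u ^ 2) = (τ * u ^ 2) * (1024 * M ^ 2) := by ring
    rw [this]
    have h : τ ^ 3 * u ^ 2 = (τ * u ^ 2) * τ ^ 2 := by ring
    rw [h]
    exact mul_le_mul_of_nonneg_left hτM (by positivity)
  have hτP : 0 ≤ τ * P := by positivity
  have hτu : 0 ≤ τ ^ 3 * u ^ 2 := by positivity
  nlinarith

/-- coefficients of the quadratic form in the first term of the Rellich identity -/
noncomputable def cC (A : Fin 4 → Fin 4 → ℝ) (D : Fin 4 → Fin 4 → Fin 4 → ℝ) (x : E4)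
    (j l : Fin 4) : ℝ :=
  ∑ i, A i j * ∑ k, (D i k l * gradW x k + A k l * hessW i k)

/-- coefficients of the quadratic form in the second term of the Rellich identity -/
noncomputable def cE (A : Fin 4 → Fin 4 → ℝ) (D : Fin 4 → Fin 4 → Fin 4 → ℝ) (x : E4)
    (i j : Fin 4) : ℝ :=
  ∑ l, (∑ k, A k l * gradW x k) * D l i j

/-- `a(∇φ, ∇φ)` -/
noncomputable def cQ (A : Fin 4 → Fin 4 → ℝ) (x : E4) : ℝ :=
  ∑ i, ∑ j, A i j * gradW x i * gradW x j

/-- the derivative of `a(∇φ, ∇φ)` -/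
noncomputable def cN (A : Fin 4 → Fin 4 → ℝ) (D : Fin 4 → Fin 4 → Fin 4 → ℝ) (x : E4)
    (m : Fin 4) : ℝ :=
  ∑ i, ∑ j, (D m i j * gradW x i * gradW x j + A i j * (hessW m i * gradW x j + gradW x i * hessW m j))

/-- `a(∇ a(∇φ, ∇φ), ∇φ)` -/
noncomputable def cG (A : Fin 4 → Fin 4 → ℝ) (D : Fin 4 → Fin 4 → Fin 4 → ℝ) (x : E4) : ℝ :=
  ∑ m, ∑ n, A m n * cN A D x m * gradW x n

theorem near : ∃ δ > 0, ∀ (A : Fin 4 → Fin 4 → ℝ) (D : Fin 4 → Fin 4 → Fin 4 → ℝ) (x : E4),
    (∀ i j, |A i j - if i = j then 1 else 0| ≤ δ) → (∀ l i j, |D l i j| ≤ δ) → ‖x‖ ≤ δ →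
    (∀ j l, |cC A D x j l - hessW j l| ≤ 1 / 100) ∧ (∀ i j, |cE A D x i j| ≤ 1 / 100) ∧
    |cQ A x - 1| ≤ 1 / 100 ∧ |cG A D x - 7 / 2| ≤ 1 / 100 := by
  let X := (Fin 4 → Fin 4 → ℝ) × (Fin 4 → Fin 4 → Fin 4 → ℝ) × E4
  let z0 : X := (fun i j => if i = j then 1 else 0, fun _ _ _ => 0, 0)
  have hg : ∀ k, Continuous (fun z : X => gradW z.2.2 k) := fun k =>
    (smooth_gF k).continuous.comp (continuous_snd.comp continuous_snd)
  have hA : ∀ i j, Continuous (fun z : X => z.1 i j) := fun i j =>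
    (continuous_apply j).comp ((continuous_apply i).comp continuous_fst)
  have hD : ∀ l i j, Continuous (fun z : X => z.2.1 l i j) := fun l i j =>
    (continuous_apply j).comp ((continuous_apply i).comp ((continuous_apply l).comp
      (continuous_fst.comp continuous_snd)))
  have hg0 : ∀ k, gradW (0 : E4) k = -(if k = 0 then 1 else 0) := by
    intro k
    unfold gradW
    simp
  have ev : ∀ (F : X → ℝ) (c : ℝ), Continuous F → F z0 = c →
      ∀ᶠ z in 𝓝 z0, |F z - c| ≤ 1 / 100 := by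
    intro F c hF hc
    have h := hF.tendsto z0
    rw [hc] at h
    have h2 := h.eventually (Metric.closedBall_mem_nhds c (by norm_num : (0:ℝ) < 1 / 100))
    filter_upwards [h2] with z hz
    simpa [Metric.mem_closedBall, Real.dist_eq] using hz
  have h1 : ∀ j l, ∀ᶠ z in 𝓝 z0, |cC z.1 z.2.1 z.2.2 j l - hessW j l| ≤ 1 / 100 := by
    intro j l
    refine ev _ _ ?_ ?_
    · unfold cC
      exact continuous_finsetSum _ (fun i _ => (hA i j).mul (continuous_finsetSum _ (fun k _ =>
        ((hD i k l).mul (hg k)).add ((hA k l).mul continuous_const))))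
    · simp [cC, z0]
  have h2 : ∀ i j, ∀ᶠ z in 𝓝 z0, |cE z.1 z.2.1 z.2.2 i j - 0| ≤ 1 / 100 := by
    intro i j
    refine ev _ _ ?_ ?_
    · unfold cE
      exact continuous_finsetSum _ (fun l _ => (continuous_finsetSum _ (fun k _ =>
        (hA k l).mul (hg k))).mul (hD l i j))
    · simp [cE, z0]
  have h3 : ∀ᶠ z in 𝓝 z0, |cQ z.1 z.2.2 - 1| ≤ 1 / 100 := by
    refine ev _ _ ?_ ?_
    · unfold cQ
      exact continuous_finsetSum _ (fun i _ => continuous_finsetSum _ (fun j _ =>
        ((hA i j).mul (hg i)).mul (hg j)))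
    · simp [cQ, z0, hg0]
  have hcN : ∀ m, Continuous (fun z : X => cN z.1 z.2.1 z.2.2 m) := by
    intro m
    unfold cN
    exact continuous_finsetSum _ (fun i _ => continuous_finsetSum _ (fun j _ =>
      (((hD m i j).mul (hg i)).mul (hg j)).add ((hA i j).mul ((continuous_const.mul (hg j)).add
        ((hg i).mul continuous_const)))))
  have h4 : ∀ᶠ z in 𝓝 z0, |cG z.1 z.2.1 z.2.2 - 7 / 2| ≤ 1 / 100 := by
    refine ev _ _ ?_ ?_
    · unfold cG
      exact continuous_finsetSum _ (fun m _ => continuous_finsetSum _ (fun n _ =>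
        ((hA m n).mul (hcN m)).mul (hg n)))
    · simp only [cG, cN, z0, hg0, hessW, Fin.sum_univ_four]
      simp
      norm_num
  have h5 : ∀ᶠ z in 𝓝 z0, (∀ j l, |cC z.1 z.2.1 z.2.2 j l - hessW j l| ≤ 1 / 100) ∧
      (∀ i j, |cE z.1 z.2.1 z.2.2 i j - 0| ≤ 1 / 100) ∧ |cQ z.1 z.2.2 - 1| ≤ 1 / 100 ∧
      |cG z.1 z.2.1 z.2.2 - 7 / 2| ≤ 1 / 100 := by
    refine Filter.Eventually.and ?_ (Filter.Eventually.and ?_ (h3.and h4))
    · exact Filter.eventually_all.2 (fun j => Filter.eventually_all.2 (fun l => h1 j l))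
    · exact Filter.eventually_all.2 (fun j => Filter.eventually_all.2 (fun l => h2 j l))
  obtain ⟨ε, hε, hh⟩ := Metric.eventually_nhds_iff.1 h5
  refine ⟨ε / 2, by positivity, ?_⟩
  intro A D x hA' hD' hx
  have := @hh (A, D, x) ?_
  · simpa only [sub_zero] using this
  · rw [Prod.dist_eq, Prod.dist_eq, max_lt_iff, max_lt_iff]
    refine ⟨?_, ?_, ?_⟩
    · refine (dist_pi_lt_iff hε).2 (fun i => (dist_pi_lt_iff hε).2 (fun j => ?_))
      rw [Real.dist_eq]
      exact (hA' i j).trans_lt (by linarith)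
    · refine (dist_pi_lt_iff hε).2 (fun l => (dist_pi_lt_iff hε).2 (fun i =>
        (dist_pi_lt_iff hε).2 (fun j => ?_)))
      rw [Real.dist_eq]
      show |D l i j - 0| < ε
      rw [sub_zero]
      exact (hD' l i j).trans_lt (by linarith)
    · show dist x 0 < ε
      rw [dist_zero_right]
      exact hx.trans_lt (by linarith)

theorem abs_pd_le (f : E4 → ℝ) (i : Fin 4) (x : E4) : |pd f i x| ≤ ‖fderiv ℝ f x‖ := by
  unfold pd
  have := (fderiv ℝ f x).le_opNorm (EuclideanSpace.single i 1)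
  simpa using this

theorem norm_fderiv_sq_le (u : E4 → ℝ) (x : E4) : ‖fderiv ℝ u x‖ ^ 2 ≤ ∑ i, pd u i x ^ 2 := by
  have h : ‖fderiv ℝ u x‖ ≤ Real.sqrt (∑ i, pd u i x ^ 2) := by
    refine ContinuousLinearMap.opNorm_le_bound _ (Real.sqrt_nonneg _) (fun v => ?_)
    have hv : fderiv ℝ u x v = ∑ i, v i * pd u i x := by
      have e : v = ∑ i, v i • EuclideanSpace.single i (1 : ℝ) := by
        ext j
        simp [Fin.sum_univ_four]
        fin_cases j <;> simp
      conv_lhs => rw [e]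
      rw [map_sum]
      simp [pd]
    rw [hv, EuclideanSpace.norm_eq, ← Real.sqrt_mul (Finset.sum_nonneg (fun i _ => sq_nonneg _)),
      Real.norm_eq_abs]
    apply Real.abs_le_sqrt
    refine (Finset.sum_mul_sq_le_sq_mul_sq _ _ _).trans (le_of_eq ?_)
    rw [mul_comm]
    simp
  have h0 : 0 ≤ ∑ i, pd u i x ^ 2 := Finset.sum_nonneg (fun i _ => sq_nonneg _)
  calc ‖fderiv ℝ u x‖ ^ 2 ≤ (Real.sqrt (∑ i, pd u i x ^ 2)) ^ 2 :=
        pow_le_pow_left₀ (norm_nonneg _) h 2
    _ = _ := Real.sq_sqrt h0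

theorem int_lin {n : ℕ} (c : Fin n → ℝ) (F : Fin n → E4 → ℝ) (hF : ∀ k, Integrable (F k)) :
    ∫ x, ∑ k, c k * F k x = ∑ k, c k * ∫ x, F k x := by
  rw [integral_finsetSum]
  · exact Finset.sum_congr rfl (fun k _ => integral_const_mul _ _)
  · exact fun k _ => (hF k).const_mul _

/-- the estimate for the conjugated operator with the weight `cw` -/
theorem carleman_conj : ∃ η > 0, ∃ r > 0, r ≤ 1 ∧ ∀ a : Fin 4 → Fin 4 → E4 → ℝ,
    (∀ i j, ContDiff ℝ ∞ (a i j)) → (∀ i j x, a i j x = a j i x) →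
    (∀ i j, ∀ x ∈ closedBall (0 : E4) r, |a i j x - if i = j then 1 else 0| ≤ η ∧
      ‖fderiv ℝ (a i j) x‖ ≤ η) →
    ∃ τ₀ ≥ 1, ∀ τ ≥ τ₀, ∀ u : E4 → ℝ, ContDiff ℝ ∞ u → tsupport u ⊆ ball 0 r →
      τ ^ 3 * (∫ x, u x ^ 2) + τ * (∫ x, ‖fderiv ℝ u x‖ ^ 2) ≤
        4 * ∫ x, (opP a u x + τ ^ 2 * bil a cw cw x * u x
          - 2 * τ * bil a cw u x - τ * opP a cw x * u x) ^ 2 := by
  obtain ⟨δ, hδ, hnear⟩ := near
  refine ⟨min δ (1 / 100), by positivity, min δ 1, by positivity, min_le_right _ _, ?_⟩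
  intro a ha hsymm hbd
  set r := min δ 1 with hr
  have hcw := cw_smooth
  have hPφ : ContDiff ℝ ∞ (opP a cw) := smooth_opP ha hcw
  have hQ : ContDiff ℝ ∞ (bil a cw cw) := smooth_bil ha hcw hcw
  obtain ⟨M, hM⟩ : ∃ M : ℝ, ∀ j, ∀ x ∈ closedBall (0 : E4) r, |pd (opP a cw) j x| ≤ M := by
    have h : ∀ j, ∃ M, ∀ x ∈ closedBall (0 : E4) r, |pd (opP a cw) j x| ≤ M := fun j => by
      obtain ⟨C, hC⟩ := (isCompact_closedBall (0 : E4) r).exists_bound_of_continuousOn
        (pd_smooth hPφ j).continuous.continuousOn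
      exact ⟨C, fun x hx => by simpa using hC x hx⟩
    choose Mf hMf using h
    refine ⟨∑ j, |Mf j|, fun j x hx => (hMf j x hx).trans ((le_abs_self _).trans ?_)⟩
    exact Finset.single_le_sum (f := fun j => |Mf j|) (fun i _ => abs_nonneg _)
      (Finset.mem_univ j)
  refine ⟨max 1 (32 * |M|), le_max_left _ _, ?_⟩
  intro τ hτ u hu hsu
  have hτ1 : 1 ≤ τ := (le_max_left _ _).trans hτ
  have hτM : 1024 * M ^ 2 ≤ τ ^ 2 := by
    have h : 32 * |M| ≤ τ := (le_max_right _ _).trans hτ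
    calc 1024 * M ^ 2 = (32 * |M|) ^ 2 := by rw [mul_pow, sq_abs]; norm_num
      _ ≤ τ ^ 2 := pow_le_pow_left₀ (by positivity) h 2
  have hc : HasCompactSupport u := (isCompact_closedBall (0 : E4) r).of_isClosed_subset
    (isClosed_tsupport u) (hsu.trans ball_subset_closedBall)
  have hu0 : ∀ x, x ∉ tsupport u → u x = 0 := fun x hx => image_eq_zero_of_notMem_tsupport hx
  have hPu : ContDiff ℝ ∞ (opP a u) := smooth_opP ha hu
  have hB : ContDiff ℝ ∞ (bil a cw u) := smooth_bil ha hcw hu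
  have hpu : ∀ l, ContDiff ℝ ∞ (pd u l) := fun l => pd_smooth hu l
  have hb : ∀ l, ContDiff ℝ ∞ (fun y => ∑ k, a k l y * pd cw k y) := fun l =>
    ContDiff.sum (fun k _ => (ha k l).mul (pd_smooth hcw k))
  have hPu0 : ∀ x, x ∉ tsupport u → opP a u x = 0 := by
    intro x hx
    unfold opP
    refine Finset.sum_eq_zero (fun i _ => pd_zero_of_notMem i (fun hx2 => hx ?_))
    refine closure_minimal ?_ (isClosed_tsupport u) hx2
    intro y hy
    by_contra h
    exact hy (by simp [pd_zero_of_notMem _ h])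
  -- integrable functions
  let R1 : E4 → ℝ := fun x => ∑ i, ∑ j, ∑ l, a i j x * pd u j x *
        pd (fun y => ∑ k, a k l y * pd cw k y) i x * pd u l x
  let R2 : E4 → ℝ := fun x => ∑ i, ∑ j, ∑ l, (∑ k, a k l x * pd cw k x) *
      pd (a i j) l x * pd u i x * pd u j x
  have iR1 : Integrable R1 := by
    refine int_of hc ?_ (fun x hx => by simp [R1, pd_zero_of_notMem _ hx])
    refine continuous_finsetSum _ (fun i _ => continuous_finsetSum _ (fun j _ =>
      continuous_finsetSum _ (fun l _ => ?_)))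
    exact (((ha i j).continuous.mul (hpu j).continuous).mul
      (pd_smooth (hb l) i).continuous).mul (hpu l).continuous
  have iR2 : Integrable R2 := by
    refine int_of hc ?_ (fun x hx => by simp [R2, pd_zero_of_notMem _ hx])
    refine continuous_finsetSum _ (fun i _ => continuous_finsetSum _ (fun j _ =>
      continuous_finsetSum _ (fun l _ => ?_)))
    exact (((hb l).continuous.mul (pd_smooth (ha i j) l).continuous).mul
      (hpu i).continuous).mul (hpu j).continuous
  have i1 : Integrable (fun x => opP a u x * u x) :=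
    int_of hc (hPu.continuous.mul hu.continuous) (fun x hx => by rw [hu0 x hx, mul_zero])
  have i2 : Integrable (fun x => bil a cw cw x * u x ^ 2) :=
    int_of hc (hQ.continuous.mul (hu.continuous.pow 2)) (fun x hx => by rw [hu0 x hx]; ring)
  have i3 : Integrable (fun x => u x ^ 2) :=
    int_of hc (hu.continuous.pow 2) (fun x hx => by rw [hu0 x hx]; ring)
  have i4 : Integrable (fun x => opP a u x * bil a cw u x) :=
    int_of hc (hPu.continuous.mul hB.continuous) (fun x hx => by rw [hPu0 x hx, zero_mul])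
  have i5 : Integrable (fun x => opP a u x * (opP a cw x * u x)) :=
    int_of hc (hPu.continuous.mul (hPφ.continuous.mul hu.continuous))
      (fun x hx => by rw [hu0 x hx]; ring)
  have i6 : Integrable (fun x => bil a cw cw x * u x * bil a cw u x) :=
    int_of hc ((hQ.continuous.mul hu.continuous).mul hB.continuous)
      (fun x hx => by rw [hu0 x hx]; ring)
  have i7 : Integrable (fun x => bil a cw cw x * opP a cw x * u x ^ 2) :=
    int_of hc ((hQ.continuous.mul hPφ.continuous).mul (hu.continuous.pow 2))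
      (fun x hx => by rw [hu0 x hx]; ring)
  have j1 : Integrable (fun x => bil a u u x) :=
    int_of hc (smooth_bil ha hu hu).continuous (fun x hx => bil_zero_left hx)
  have j5 : Integrable (fun x => u x * bil a u (opP a cw) x) :=
    int_of hc (hu.continuous.mul (smooth_bil ha hu hPφ).continuous)
      (fun x hx => by rw [hu0 x hx]; ring)
  have j6 : Integrable (fun x => bil a (bil a cw cw) cw x * u x ^ 2) :=
    int_of hc ((smooth_bil ha hQ hcw).continuous.mul (hu.continuous.pow 2))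
      (fun x hx => by rw [hu0 x hx]; ring)
  have iD : Integrable (fun x => ‖fderiv ℝ u x‖ ^ 2) := by
    refine int_of hc ((hu.continuous_fderiv (by simp)).norm.pow 2) (fun x hx => ?_)
    rw [fderiv_of_notMem_tsupport ℝ hx]
    simp
  -- the square
  have hSA : Integrable (fun x => (opP a u x + τ ^ 2 * bil a cw cw x * u x
          - 2 * τ * bil a cw u x - τ * opP a cw x * u x) ^ 2) := by
    refine int_of hc ?_ (fun x hx => by
      rw [hu0 x hx, hPu0 x hx, bil_zero_right hx]; ring)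
    exact ((((hPu.continuous.add ((continuous_const.mul hQ.continuous).mul hu.continuous)).sub
      (continuous_const.mul hB.continuous)).sub
      ((continuous_const.mul hPφ.continuous).mul hu.continuous)).pow 2)
  let F : Fin 7 → E4 → ℝ := ![fun x => opP a u x * u x, fun x => bil a cw cw x * u x ^ 2,
    fun x => u x ^ 2, fun x => opP a u x * bil a cw u x, fun x => opP a u x * (opP a cw x * u x),
    fun x => bil a cw cw x * u x * bil a cw u x, fun x => bil a cw cw x * opP a cw x * u x ^ 2]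
  let c : Fin 7 → ℝ := ![-2 * τ, -2 * τ ^ 3, -τ ^ 2, -4 * τ, -2 * τ, -4 * τ ^ 3, -2 * τ ^ 3]
  have hF : ∀ k, Integrable (F k) := by
    intro k
    fin_cases k
    · exact i1
    · exact i2
    · exact i3
    · exact i4
    · exact i5
    · exact i6
    · exact i7
  have hlin1 := int_lin c F hF
  have hlow : ∫ x, ∑ k, c k * F k x ≤ ∫ x, (opP a u x + τ ^ 2 * bil a cw cw x * u x
          - 2 * τ * bil a cw u x - τ * opP a cw x * u x) ^ 2 := by
    refine integral_mono (integrable_finsetSum _ (fun k _ => (hF k).const_mul _)) hSA ?_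
    intro x
    simp only [F, c, Fin.sum_univ_seven]
    simp
    nlinarith [sq_nonneg (opP a u x + τ ^ 2 * bil a cw cw x * u x + τ * u x),
      sq_nonneg (2 * τ * bil a cw u x + τ * opP a cw x * u x)]
  let F' : Fin 7 → E4 → ℝ := ![R1, R2, fun x => u x * bil a u (opP a cw) x,
    fun x => bil a (bil a cw cw) cw x * u x ^ 2, fun x => bil a u u x,
    fun x => bil a cw cw x * u x ^ 2, fun x => u x ^ 2]
  let c' : Fin 7 → ℝ := ![4 * τ, -2 * τ, 2 * τ, 2 * τ ^ 3, 2 * τ, -2 * τ ^ 3, -τ ^ 2]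
  have hF' : ∀ k, Integrable (F' k) := by
    intro k
    fin_cases k
    · exact iR1
    · exact iR2
    · exact j5
    · exact j6
    · exact j1
    · exact i2
    · exact i3
  have hlin2 := int_lin c' F' hF'
  -- identities
  have e1 := ibp_energy ha hu hc
  have e2 := ibp_rellich ha hsymm hcw hu hc
  have e3 := ibp_mul ha hsymm hPφ hu hc
  have e4 := ibp_zero ha hsymm hQ hcw hu hc
  have hpt : ∀ x, 1 / 4 * (τ ^ 3 * u x ^ 2 + τ * ‖fderiv ℝ u x‖ ^ 2) ≤ ∑ k, c' k * F' k x := by
    intro x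
    have hF'x : ∑ k, c' k * F' k x = 4 * τ * R1 x - 2 * τ * R2 x
        + 2 * τ * (u x * bil a u (opP a cw) x)
        + 2 * τ ^ 3 * (bil a (bil a cw cw) cw x * u x ^ 2) + 2 * τ * bil a u u x
        - 2 * τ ^ 3 * (bil a cw cw x * u x ^ 2) - τ ^ 2 * u x ^ 2 := by
      simp only [F', c', Fin.sum_univ_seven]
      simp
      ring
    rw [hF'x]
    by_cases hx : x ∈ tsupport u
    · have hxr := mem_ball_zero_iff.1 (hsu hx)
      have hxc : x ∈ closedBall (0 : E4) r := ball_subset_closedBall (hsu hx)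
      have hA1 : ∀ i j, |a i j x - if i = j then 1 else 0| ≤ 1 / 100 := fun i j =>
        (hbd i j x hxc).1.trans (min_le_right _ _)
      obtain ⟨n1, n2, n3, n4⟩ := hnear (fun i j => a i j x) (fun l i j => pd (a i j) l x) x
        (fun i j => (hbd i j x hxc).1.trans (min_le_left _ _))
        (fun l i j => (abs_pd_le _ _ _).trans ((hbd i j x hxc).2.trans (min_le_left _ _)))
        (hxr.le.trans (min_le_left _ _))
      have hrow : ∀ i l, pd (fun y => ∑ k, a k l y * pd cw k y) i x =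
          ∑ k, (pd (a k l) i x * gradW x k + a k l x * hessW i k) := by
        intro i l
        rw [pd_sum (fun k => (ha k l).mul (pd_smooth hcw k))]
        refine Finset.sum_congr rfl (fun k _ => ?_)
        rw [pd_mul (ha k l) (pd_smooth hcw k), pd_cw]
        have : pd cw k = fun y => gradW y k := by
          funext y
          rw [pd_cw]
        rw [this, pd_gF]
      have r1 : R1 x = ∑ j, ∑ l, cC (fun i j => a i j x) (fun l i j => pd (a i j) l x) x j l *
          pd u j x * pd u l x := by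
        show ∑ i, ∑ j, ∑ l, a i j x * pd u j x *
          pd (fun y => ∑ k, a k l y * pd cw k y) i x * pd u l x = _
        rw [Finset.sum_comm]
        refine Finset.sum_congr rfl (fun j _ => ?_)
        rw [Finset.sum_comm]
        refine Finset.sum_congr rfl (fun l _ => ?_)
        unfold cC
        rw [Finset.sum_mul, Finset.sum_mul]
        refine Finset.sum_congr rfl (fun i _ => ?_)
        rw [hrow]
        ring
      have r2 : R2 x = ∑ i, ∑ j, cE (fun i j => a i j x) (fun l i j => pd (a i j) l x) x i j *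
          pd u i x * pd u j x := by
        show ∑ i, ∑ j, ∑ l, (∑ k, a k l x * pd cw k x) *
          pd (a i j) l x * pd u i x * pd u j x = _
        refine Finset.sum_congr rfl (fun i _ => Finset.sum_congr rfl (fun j _ => ?_))
        unfold cE
        rw [Finset.sum_mul, Finset.sum_mul]
        refine Finset.sum_congr rfl (fun l _ => ?_)
        simp only [pd_cw]
      have r3 : bil a cw cw x = cQ (fun i j => a i j x) x := by
        unfold bil cQ
        simp only [pd_cw]
      have r4 : ∀ m, pd (bil a cw cw) m x =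
          cN (fun i j => a i j x) (fun l i j => pd (a i j) l x) x m := by
        intro m
        have h : bil a cw cw = fun y => ∑ i, ∑ j, a i j y * gradW y i * gradW y j := by
          funext y
          unfold bil
          simp only [pd_cw]
        rw [h, pd_sum (fun i => ContDiff.sum (fun j _ => ((ha i j).mul (smooth_gF i)).mul
          (smooth_gF j)))]
        unfold cN
        refine Finset.sum_congr rfl (fun i _ => ?_)
        rw [pd_sum (fun j => ((ha i j).mul (smooth_gF i)).mul (smooth_gF j))]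
        refine Finset.sum_congr rfl (fun j _ => ?_)
        rw [pd_mul ((ha i j).mul (smooth_gF i)) (smooth_gF j), pd_mul (ha i j) (smooth_gF i),
          pd_gF, pd_gF]
        ring
      have r5 : bil a (bil a cw cw) cw x =
          cG (fun i j => a i j x) (fun l i j => pd (a i j) l x) x := by
        unfold cG
        simp only [← r4, ← pd_cw]
        rfl
      have key := pt_bound (fun i j => a i j x) _ _ (cQ (fun i j => a i j x) x)
        (cG (fun i j => a i j x) (fun l i j => pd (a i j) l x) x) M τ (u x)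
        (fun i => pd u i x) (fun j => pd (opP a cw) j x) hA1 n1 n2 n3 n4
        (fun j => hM j x hxc) hτ1 hτM
      rw [r1, r2, r5, r3]
      unfold bil
      refine le_trans ?_ key
      have := norm_fderiv_sq_le u x
      have hτ0 : 0 < τ := by linarith
      nlinarith [mul_le_mul_of_nonneg_left this hτ0.le]
    · have z1 : R1 x = 0 := by simp [R1, pd_zero_of_notMem _ hx]
      have z2 : R2 x = 0 := by simp [R2, pd_zero_of_notMem _ hx]
      have z3 : bil a u u x = 0 := bil_zero_left hx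
      rw [z1, z2, hu0 x hx, z3, fderiv_of_notMem_tsupport ℝ hx]
      simp
  have hfin : ∫ x, 1 / 4 * (τ ^ 3 * u x ^ 2 + τ * ‖fderiv ℝ u x‖ ^ 2) ≤
      ∫ x, ∑ k, c' k * F' k x := by
    refine integral_mono (((i3.const_mul _).add (iD.const_mul _)).const_mul _)
      (integrable_finsetSum _ (fun k _ => (hF' k).const_mul _)) hpt
  rw [integral_const_mul, integral_add (i3.const_mul _) (iD.const_mul _), integral_const_mul,
    integral_const_mul, hlin2] at hfin
  rw [hlin1] at hlow
  have heq : ∑ k, c' k * ∫ x, F' k x = ∑ k, c k * ∫ x, F k x := by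
    simp only [F, F', c, c', Fin.sum_univ_seven]
    simp only [Matrix.cons_val_zero, Matrix.cons_val_one, Matrix.cons_val]
    have e2' : -2 * ∫ x, opP a u x * bil a cw u x =
      2 * (∫ x, R1 x) - (∫ x, R2 x) - ∫ x, opP a cw x * bil a u u x := e2
    have f1 : ∫ x, bil a u u x = -∫ x, opP a u x * u x := e1.symm
    linear_combination (-2 * τ) * e2' + (-2 * τ) * e3 + (-2 * τ ^ 3) * e4 + (2 * τ) * f1
  rw [heq] at hfin
  linarith

end Pool.Agent.Lib.MP_6c284f_gt
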