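import Pool.Agent.Lib.MP_6c284f_gt.UCB

set_option autoImplicit false
set_option maxSynthPendingDepth 5

/-!
The Carleman estimate.
-/

namespace Pool.Agent.Lib.MP_6c284f_gt

open scoped ContDiff Topology
open Set MeasureTheory Metric

private lemma ucc_cw_smooth : ContDiff ℝ ∞ cw := by
  have h0 : ContDiff ℝ ∞ (fun x : E4 => x 0) := (EuclideanSpace.proj (𝕜 := ℝ) (0 : Fin 4)).contDiff
  have h1 : ContDiff ℝ ∞ (fun x : E4 => ‖x‖ ^ 2) := contDiff_norm_sq ℝ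
  have h2 : cw = fun x : E4 => -x 0 - ‖x‖ ^ 2 / 8 + (x 0) ^ 2 := rfl
  rw [h2]
  exact (h0.neg.sub (h1.div_const 8)).add (h0.pow 2)

private lemma ucc_abs_coord (x : E4) (i : Fin 4) : |x i| ≤ ‖x‖ := by
  have := EuclideanSpace.norm_eq x
  have h := PiLp.norm_apply_le x i
  simpa [Real.norm_eq_abs] using h

private lemma ucc_cw_fderiv {x : E4} (hx : ‖x‖ ≤ 1) : ‖fderiv ℝ cw x‖ ≤ 13 / 4 := by
  have h0 : HasFDerivAt (fun y : E4 => y 0) (EuclideanSpace.proj (𝕜 := ℝ) (0 : Fin 4)) x :=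
    (EuclideanSpace.proj (𝕜 := ℝ) (0 : Fin 4)).hasFDerivAt
  have h1 : HasFDerivAt (fun y : E4 => ‖y‖ ^ 2) (2 • (innerSL ℝ x)) x := hasStrictFDerivAt_norm_sq x |>.hasFDerivAt
  have h2 : HasFDerivAt cw (-(EuclideanSpace.proj (𝕜 := ℝ) (0 : Fin 4)) - (8 : ℝ)⁻¹ • (2 • (innerSL ℝ x)) +
      (2 * x 0) • (EuclideanSpace.proj (𝕜 := ℝ) (0 : Fin 4) : E4 →L[ℝ] ℝ)) x := by
    have h3 := (h0.neg.sub (h1.mul_const' (8 : ℝ)⁻¹)).add (h0.pow 2)
    have e : cw = fun y : E4 => -y 0 - ‖y‖ ^ 2 * (8 : ℝ)⁻¹ + (y 0) ^ 2 := by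
      funext y; unfold cw; ring
    rw [e]
    refine h3.congr_fderiv ?_
    ext v
    simp
    ring
  rw [h2.fderiv]
  refine ContinuousLinearMap.opNorm_le_bound _ (by norm_num) (fun v => ?_)
  have hv := ucc_abs_coord v 0
  have hx0 := (ucc_abs_coord x 0).trans hx
  have hi := abs_real_inner_le_norm x v
  have e : ((-(EuclideanSpace.proj (𝕜 := ℝ) (0 : Fin 4)) - (8 : ℝ)⁻¹ • (2 • (innerSL ℝ x)) +
      (2 * x 0) • (EuclideanSpace.proj (𝕜 := ℝ) (0 : Fin 4) : E4 →L[ℝ] ℝ)) : E4 →L[ℝ] ℝ) v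
      = -v 0 - inner ℝ x v / 4 + 2 * x 0 * v 0 := by
    simp
    ring
  rw [e, Real.norm_eq_abs]
  have a1 : |-v 0 - inner ℝ x v / 4 + 2 * x 0 * v 0| ≤ |v 0| + |inner ℝ x v| / 4 + 2 * (|x 0| * |v 0|) := by
    have b1 := abs_add_le (-v 0 - inner ℝ x v / 4) (2 * x 0 * v 0)
    have b2 := abs_sub (-v 0) (inner ℝ x v / 4)
    rw [abs_neg, abs_div] at b2
    have b3 : |2 * x 0 * v 0| = 2 * (|x 0| * |v 0|) := by
      rw [abs_mul, abs_mul]; norm_num; ring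
    have b4 : |(4 : ℝ)| = 4 := by norm_num
    rw [b4] at b2
    linarith
  have a2 : |inner ℝ x v| ≤ ‖v‖ := hi.trans (by nlinarith [norm_nonneg v])
  have a3 : |x 0| * |v 0| ≤ ‖v‖ := by
    calc |x 0| * |v 0| ≤ 1 * ‖v‖ := mul_le_mul hx0 hv (abs_nonneg _) (by norm_num)
      _ = ‖v‖ := one_mul _
  linarith

private lemma ucc_sq {f : E4 → ℝ} (h : HasCompactSupport f) : HasCompactSupport (fun x => f x ^ 2) := by
  have e : (fun x => f x ^ 2) = fun x => f x * f x := by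
    funext x
    exact pow_two _
  rw [e]
  exact HasCompactSupport.mul_left (f := f) h

private lemma ucc_int1 {w E : E4 → ℝ} (hE : Continuous E) (hw : ContDiff ℝ ∞ w) (hc : HasCompactSupport w) :
    Integrable (fun x : E4 => E x * ‖fderiv ℝ w x‖ ^ 2) := by
  have h1 : Continuous fun x => ‖fderiv ℝ w x‖ := (hw.continuous_fderiv (by simp)).norm
  have h2 : HasCompactSupport (fun x => ‖fderiv ℝ w x‖) := (hc.fderiv ℝ).norm
  have h3 : HasCompactSupport (fun x => E x * ‖fderiv ℝ w x‖ ^ 2) := HasCompactSupport.mul_left (f := E) (ucc_sq h2)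
  exact (hE.mul (h1.pow 2)).integrable_of_hasCompactSupport h3

private lemma ucc_int2 {w : E4 → ℝ} (hw : ContDiff ℝ ∞ w) (hc : HasCompactSupport w) :
    Integrable (fun x : E4 => ‖fderiv ℝ w x‖ ^ 2) := by
  have h1 : Continuous fun x => ‖fderiv ℝ w x‖ := (hw.continuous_fderiv (by simp)).norm
  have h2 : HasCompactSupport (fun x => ‖fderiv ℝ w x‖) := (hc.fderiv ℝ).norm
  exact (h1.pow 2).integrable_of_hasCompactSupport (ucc_sq h2)

private lemma ucc_int3 {w : E4 → ℝ} (hw : ContDiff ℝ ∞ w) (hc : HasCompactSupport w) :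
    Integrable (fun x : E4 => w x ^ 2) :=
  (hw.continuous.pow 2).integrable_of_hasCompactSupport (ucc_sq hc)

theorem carleman : ∃ η > 0, ∃ r > 0, r ≤ 1 ∧ ∀ a : Fin 4 → Fin 4 → E4 → ℝ,
    (∀ i j, ContDiff ℝ ∞ (a i j)) → (∀ i j x, a i j x = a j i x) →
    (∀ i j, ∀ x ∈ closedBall (0 : E4) r, |a i j x - if i = j then 1 else 0| ≤ η ∧
      ‖fderiv ℝ (a i j) x‖ ≤ η) →
    ∃ τ₀ ≥ 1, ∀ τ ≥ τ₀, ∀ w : E4 → ℝ, ContDiff ℝ ∞ w → tsupport w ⊆ ball 0 r →
      τ ^ 3 * (∫ x, Real.exp (2 * τ * cw x) * w x ^ 2)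
        + τ * (∫ x, Real.exp (2 * τ * cw x) * ‖fderiv ℝ w x‖ ^ 2) ≤
        1000 * ∫ x, Real.exp (2 * τ * cw x) * opP a w x ^ 2 := by
  obtain ⟨η, hη, r, hr, hr1, H⟩ := carleman_conj
  refine ⟨η, hη, r, hr, hr1, fun a ha hsymm hsmall => ?_⟩
  obtain ⟨τ₀, hτ₀, H2⟩ := H a ha hsymm hsmall
  refine ⟨τ₀, hτ₀, fun τ hτ w hw hsupp => ?_⟩
  have hτ1 : 1 ≤ τ := le_trans hτ₀ hτ
  have hτpos : 0 < τ := by linarith
  set E : E4 → ℝ := fun y => Real.exp (τ * cw y) with hE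
  have hEs : ContDiff ℝ ∞ E := (contDiff_const.mul ucc_cw_smooth).exp
  set u : E4 → ℝ := fun y => Real.exp (τ * cw y) * w y with hu
  have hus : ContDiff ℝ ∞ u := hEs.mul hw
  have htu : tsupport u ⊆ tsupport w := by
    have : Function.support u ⊆ Function.support w := by
      intro y hy hwy
      apply hy
      simp only [hu, hwy, mul_zero]
    exact closure_mono this
  have hus2 : tsupport u ⊆ ball 0 r := htu.trans hsupp
  have H3 := H2 τ hτ u hus hus2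
  have hwc : HasCompactSupport w :=
    HasCompactSupport.intro' (isCompact_closedBall (0 : E4) r) isClosed_closedBall (fun x hx => by
      by_contra hne
      exact hx (ball_subset_closedBall (hsupp (subset_tsupport w hne))))
  have huc : HasCompactSupport u := hwc.mul_left
  have hexp2 : ∀ x, Real.exp (2 * τ * cw x) = Real.exp (τ * cw x) ^ 2 := by
    intro x
    rw [← Real.exp_nat_mul]
    congr 1
    push_cast
    ring
  -- the right-hand side
  have e1 : ∀ x, (opP a u x + τ ^ 2 * bil a cw cw x * u x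
          - 2 * τ * bil a cw u x - τ * opP a cw x * u x) ^ 2 = Real.exp (2 * τ * cw x) * opP a w x ^ 2 := by
    intro x
    rw [hexp2, ← mul_pow, conj_op ha hsymm ucc_cw_smooth hw τ x]
  have e1' : (∫ x, (opP a u x + τ ^ 2 * bil a cw cw x * u x
          - 2 * τ * bil a cw u x - τ * opP a cw x * u x) ^ 2) = ∫ x, Real.exp (2 * τ * cw x) * opP a w x ^ 2 := by
    congr 1
    funext x
    exact e1 x
  rw [e1'] at H3
  have e2 : (∫ x, Real.exp (2 * τ * cw x) * w x ^ 2) = ∫ x, u x ^ 2 := by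
    congr 1
    funext x
    rw [hexp2, hu]
    ring
  -- the gradient
  have hfd : ∀ x, fderiv ℝ u x = E x • fderiv ℝ w x + (τ * u x) • fderiv ℝ cw x := by
    intro x
    have d1 : HasFDerivAt cw (fderiv ℝ cw x) x :=
      (ucc_cw_smooth.differentiable (by simp)).differentiableAt.hasFDerivAt
    have d2 : HasFDerivAt E (Real.exp (τ * cw x) • (τ • fderiv ℝ cw x)) x := (d1.const_mul τ).exp
    have d3 : HasFDerivAt w (fderiv ℝ w x) x :=
      (hw.differentiable (by simp)).differentiableAt.hasFDerivAt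
    have d4 := d2.mul d3
    have d5 : HasFDerivAt u (E x • fderiv ℝ w x + w x • (Real.exp (τ * cw x) • (τ • fderiv ℝ cw x))) x := d4
    rw [d5.fderiv]
    congr 1
    rw [smul_smul, smul_smul]
    congr 1
    simp only [hu]
    ring
  have hb : ∀ x, Real.exp (2 * τ * cw x) * ‖fderiv ℝ w x‖ ^ 2 ≤ 2 * ‖fderiv ℝ u x‖ ^ 2 + 22 * τ ^ 2 * u x ^ 2 := by
    intro x
    by_cases hx : x ∈ closedBall (0 : E4) 1
    · have hn : ‖fderiv ℝ cw x‖ ≤ 13 / 4 := ucc_cw_fderiv (mem_closedBall_zero_iff.mp hx)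
      have h1 : E x • fderiv ℝ w x = fderiv ℝ u x - (τ * u x) • fderiv ℝ cw x := by
        rw [hfd x]; simp
      have h2 : E x * ‖fderiv ℝ w x‖ ≤ ‖fderiv ℝ u x‖ + τ * |u x| * (13 / 4) := by
        have h3 : ‖E x • fderiv ℝ w x‖ = E x * ‖fderiv ℝ w x‖ := by
          rw [norm_smul, Real.norm_eq_abs, abs_of_pos (Real.exp_pos _)]
        rw [← h3, h1]
        refine (norm_sub_le _ _).trans ?_
        rw [norm_smul, Real.norm_eq_abs, abs_mul, abs_of_pos hτpos]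
        have : τ * |u x| * ‖fderiv ℝ cw x‖ ≤ τ * |u x| * (13 / 4) :=
          mul_le_mul_of_nonneg_left hn (by positivity)
        linarith
      have h4 : 0 ≤ E x * ‖fderiv ℝ w x‖ := mul_nonneg (Real.exp_pos _).le (norm_nonneg _)
      have h5 : (E x * ‖fderiv ℝ w x‖) ^ 2 ≤ (‖fderiv ℝ u x‖ + τ * |u x| * (13 / 4)) ^ 2 :=
        pow_le_pow_left₀ h4 h2 2
      have h6 : Real.exp (2 * τ * cw x) * ‖fderiv ℝ w x‖ ^ 2 = (E x * ‖fderiv ℝ w x‖) ^ 2 := by
        rw [hexp2, mul_pow]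
      rw [h6]
      refine h5.trans ?_
      have h7 : (τ * |u x|) ^ 2 = τ ^ 2 * u x ^ 2 := by rw [mul_pow, sq_abs]
      have h8 : 22 * τ ^ 2 * u x ^ 2 = 22 * (τ * |u x|) ^ 2 := by rw [h7]; ring
      rw [h8]
      nlinarith [sq_nonneg (‖fderiv ℝ u x‖ - τ * |u x| * (13 / 4)), sq_nonneg (τ * |u x|)]
    · have h1 : fderiv ℝ w x = 0 := by
        have h2 : x ∉ tsupport w := fun h => hx (ball_subset_closedBall (ball_subset_ball hr1 (hsupp h)))
        have h3 : x ∉ tsupport (fderiv ℝ w) := fun h => h2 (tsupport_fderiv_subset ℝ h)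
        exact image_eq_zero_of_notMem_tsupport h3
      rw [h1, norm_zero]
      have : 0 ≤ 2 * ‖fderiv ℝ u x‖ ^ 2 + 22 * τ ^ 2 * u x ^ 2 := by positivity
      simpa using this
  have hcE2 : Continuous fun x : E4 => Real.exp (2 * τ * cw x) :=
    Real.continuous_exp.comp (continuous_const.mul ucc_cw_smooth.continuous)
  have i1 : Integrable (fun x : E4 => Real.exp (2 * τ * cw x) * ‖fderiv ℝ w x‖ ^ 2) := ucc_int1 hcE2 hw hwc
  have i2 : Integrable (fun x : E4 => ‖fderiv ℝ u x‖ ^ 2) := ucc_int2 hus huc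
  have i3 : Integrable (fun x : E4 => u x ^ 2) := ucc_int3 hus huc
  have e3 : (∫ x, Real.exp (2 * τ * cw x) * ‖fderiv ℝ w x‖ ^ 2) ≤
      2 * (∫ x, ‖fderiv ℝ u x‖ ^ 2) + 22 * τ ^ 2 * (∫ x, u x ^ 2) := by
    rw [← integral_const_mul, ← integral_const_mul, ← integral_add (i2.const_mul _) (i3.const_mul _)]
    exact integral_mono i1 ((i2.const_mul _).add (i3.const_mul _)) hb
  rw [e2]
  have p1 : 0 ≤ ∫ x, u x ^ 2 := integral_nonneg fun x => sq_nonneg _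
  have p2 : 0 ≤ ∫ x, ‖fderiv ℝ u x‖ ^ 2 := integral_nonneg fun x => sq_nonneg _
  have p3 : 0 ≤ ∫ x, Real.exp (2 * τ * cw x) * opP a w x ^ 2 :=
    integral_nonneg fun x => mul_nonneg (Real.exp_pos _).le (sq_nonneg _)
  have q1 : τ * (∫ x, Real.exp (2 * τ * cw x) * ‖fderiv ℝ w x‖ ^ 2) ≤
      2 * (τ * ∫ x, ‖fderiv ℝ u x‖ ^ 2) + 22 * (τ ^ 3 * ∫ x, u x ^ 2) := by
    have := mul_le_mul_of_nonneg_left e3 hτpos.le
    refine this.trans (le_of_eq ?_)
    ring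
  have q2 : 0 ≤ τ * ∫ x, ‖fderiv ℝ u x‖ ^ 2 := mul_nonneg hτpos.le p2
  have q3 : 0 ≤ τ ^ 3 * ∫ x, u x ^ 2 := mul_nonneg (by positivity) p1
  linarith

end Pool.Agent.Lib.MP_6c284f_gt
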