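import Pool.Agent.Lib.MP_6c284f_gt.UCC

set_option autoImplicit false
set_option maxSynthPendingDepth 5

/-!
Local unique continuation in normalised form.
-/

namespace Pool.Agent.Lib.MP_6c284f_gt

open scoped ContDiff Topology
open Set MeasureTheory Metric

theorem UCD_opP_congr {a : Fin 4 → Fin 4 → E4 → ℝ} {w w' : E4 → ℝ} {x : E4}
    (h : w =ᶠ[𝓝 x] w') : opP a w x = opP a w' x := by
  unfold opP
  refine Finset.sum_congr rfl fun i _ => ?_
  have h1 : fderiv ℝ w =ᶠ[𝓝 x] fderiv ℝ w' := h.fderiv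
  have h2 : (fun y => ∑ j, a i j y * pd w j y) =ᶠ[𝓝 x] (fun y => ∑ j, a i j y * pd w' j y) := by
    filter_upwards [h1] with y hy
    refine Finset.sum_congr rfl fun j _ => ?_
    unfold pd
    rw [hy]
  unfold pd at h2 ⊢
  rw [h2.fderiv_eq]

theorem UCD_opP_zero (a : Fin 4 → Fin 4 → E4 → ℝ) (x : E4) : opP a (fun _ => 0) x = 0 := by
  unfold opP pd
  simp

theorem UCD_pd_contDiff {f : E4 → ℝ} (hf : ContDiff ℝ ∞ f) (i : Fin 4) : ContDiff ℝ ∞ (pd f i) := by
  unfold pd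
  exact (hf.fderiv_right (m := ∞) (by simp)).clm_apply contDiff_const

theorem UCD_opP_contDiff {a : Fin 4 → Fin 4 → E4 → ℝ} (ha : ∀ i j, ContDiff ℝ ∞ (a i j))
    {w : E4 → ℝ} (hw : ContDiff ℝ ∞ w) : ContDiff ℝ ∞ (opP a w) := by
  unfold opP
  refine ContDiff.sum fun i _ => ?_
  refine UCD_pd_contDiff ?_ i
  exact ContDiff.sum fun j _ => (ha i j).mul (UCD_pd_contDiff hw j)

theorem UCD_cw_continuous : Continuous cw := by
  unfold cw
  fun_prop

theorem UCD_coord_le (x : E4) : |x 0| ≤ ‖x‖ := by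
  have := PiLp.norm_apply_le x 0
  rwa [Real.norm_eq_abs] at this

theorem UCD_cw_upper {x : E4} {r : ℝ} (hr : 0 < r) (hr1 : r ≤ 1) (hx : r / 2 ≤ ‖x‖)
    (hx1 : ‖x‖ ≤ 1) (hx0 : -‖x‖ ^ 2 / 32 ≤ x 0) : cw x ≤ -(9 / 400) * r ^ 2 := by
  unfold cw
  have h1 := UCD_coord_le x
  rw [abs_le] at h1
  have hs : (r / 2) ^ 2 ≤ ‖x‖ ^ 2 := by gcongr
  have hs1 : ‖x‖ ^ 2 ≤ 1 := by nlinarith [norm_nonneg x]
  rcases le_or_gt 0 (x 0) with h | h
  · nlinarith
  · have h2 : (x 0) ^ 2 ≤ (‖x‖ ^ 2 / 32) ^ 2 := by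
      apply sq_le_sq'
      · linarith
      · have : 0 ≤ ‖x‖ ^ 2 / 32 := by positivity
        linarith
    have h3 : (‖x‖ ^ 2 / 32) ^ 2 ≤ ‖x‖ ^ 2 / 1024 := by nlinarith [sq_nonneg ‖x‖]
    nlinarith

theorem UCD_cw_lower {x : E4} {r : ℝ} (hr : 0 < r) (hr1 : r ≤ 1) (hx : ‖x‖ ≤ r ^ 2 / 60) :
    -(8 / 400) * r ^ 2 ≤ cw x := by
  unfold cw
  have h1 := UCD_coord_le x
  rw [abs_le] at h1
  have h2 : r ^ 2 ≤ 1 := by nlinarith
  have h3 : ‖x‖ ^ 2 ≤ r ^ 2 / 60 := by nlinarith [norm_nonneg x]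
  have h4 : ‖x‖ ^ 2 ≤ (r ^ 2 / 60) * (1 / 60) := by nlinarith [norm_nonneg x]
  nlinarith [sq_nonneg (x 0)]

theorem UCD_sq_sum {n : ℕ} (p q : Fin n → ℝ) :
    (∑ m, (p m + q m)) ^ 2 ≤ 2 * n * ∑ m, (p m ^ 2 + q m ^ 2) := by
  have h := sq_sum_le_card_mul_sum_sq (s := Finset.univ) (f := fun m => p m + q m)
  rw [Finset.card_univ, Fintype.card_fin] at h
  refine h.trans ?_
  have h1 : ∑ m, (p m + q m) ^ 2 ≤ ∑ m, 2 * (p m ^ 2 + q m ^ 2) := by
    refine Finset.sum_le_sum fun m _ => ?_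
    nlinarith [sq_nonneg (p m - q m)]
  rw [← Finset.mul_sum] at h1
  have hn : (0 : ℝ) ≤ n := Nat.cast_nonneg n
  nlinarith

/-- the absorption argument: abstract form -/
theorem UCD_absorb {n : ℕ} (I J K : Fin n → ℝ) (hI : ∀ m, 0 ≤ I m) (hJ : ∀ m, 0 ≤ J m)
    {B τ E : ℝ} (hB : 0 ≤ B) (hτ1 : 1 ≤ τ) (hτ : 2000 * n * B ≤ τ)
    (h : ∀ k, τ ^ 3 * I k + τ * J k ≤ 1000 * (B * (∑ m, (I m + J m)) + E * K k)) :
    ∀ k, I k ≤ 2000 * (∑ m, E * K m) := by
  set S := ∑ m, (I m + J m) with hS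
  have hS0 : 0 ≤ S := Finset.sum_nonneg fun m _ => add_nonneg (hI m) (hJ m)
  have h1 : ∑ k, τ * (I k + J k) ≤ ∑ k, 1000 * (B * S + E * K k) := by
    refine Finset.sum_le_sum fun k _ => ?_
    refine le_trans ?_ (h k)
    have : τ * I k ≤ τ ^ 3 * I k := by
      apply mul_le_mul_of_nonneg_right _ (hI k)
      nlinarith [sq_nonneg τ]
    linarith [mul_add τ (I k) (J k)]
  have h0 : ∑ k, (B * S + E * K k) = n * (B * S) + ∑ k, E * K k := by
    rw [Finset.sum_add_distrib, Finset.sum_const, Finset.card_univ, Fintype.card_fin,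
      nsmul_eq_mul]
  rw [← Finset.mul_sum, ← Finset.mul_sum, ← hS, h0] at h1
  have h2 : 1000 * (n * (B * S)) ≤ (τ / 2) * S := by nlinarith
  have h3 : (τ / 2) * S ≤ 1000 * ∑ m, E * K m := by linarith
  have h4 : S ≤ 2000 * ∑ m, E * K m := by
    have : (1 / 2) * S ≤ (τ / 2) * S := by nlinarith
    linarith
  intro k
  have h5 : I k + J k ≤ S := Finset.single_le_sum (f := fun m => I m + J m)
    (fun m _ => add_nonneg (hI m) (hJ m)) (Finset.mem_univ k)
  linarith [hJ k]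

theorem local_uc : ∃ η > 0, ∃ r > 0, r ≤ 1 ∧ ∀ a : Fin 4 → Fin 4 → E4 → ℝ,
    (∀ i j, ContDiff ℝ ∞ (a i j)) → (∀ i j x, a i j x = a j i x) →
    (∀ i j, ∀ x ∈ closedBall (0 : E4) r, |a i j x - if i = j then 1 else 0| ≤ η ∧
      ‖fderiv ℝ (a i j) x‖ ≤ η) →
    ∀ (n : ℕ) (v : Fin n → E4 → ℝ) (C : ℝ), (∀ k, ContDiff ℝ ∞ (v k)) →
      (∀ x ∈ closedBall (0 : E4) r, ∀ k,
        |opP a (v k) x| ≤ C * ∑ m, (|v m x| + ‖fderiv ℝ (v m) x‖)) →
      (∀ x ∈ closedBall (0 : E4) r, x 0 < -‖x‖ ^ 2 / 32 → ∀ k, v k x = 0) →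
      ∀ᶠ x in 𝓝 (0 : E4), ∀ k, v k x = 0 := by
  obtain ⟨η, hη, r, hr, hr1, hcar⟩ := carleman
  refine ⟨η, hη, r, hr, hr1, fun a ha hsymm hab n v C hv hineq hzero => ?_⟩
  obtain ⟨τ₀, hτ₀, hcar⟩ := hcar a ha hsymm hab
  -- the cut-off
  let χ : ContDiffBump (0 : E4) := ⟨r / 2, 3 * r / 4, by linarith, by linarith⟩
  have hχ : ContDiff ℝ ∞ (χ : E4 → ℝ) := χ.contDiff
  let w : Fin n → E4 → ℝ := fun k x => χ x * v k x
  have hw : ∀ k, ContDiff ℝ ∞ (w k) := fun k => hχ.mul (hv k)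
  have hsupp : ∀ k, tsupport (w k) ⊆ closedBall 0 (3 * r / 4) := by
    intro k
    refine (tsupport_mul_subset_left).trans ?_
    rw [χ.tsupport_eq]
  have hsupp' : ∀ k, tsupport (w k) ⊆ ball 0 r := fun k => (hsupp k).trans
    (closedBall_subset_ball (by linarith))
  -- w = v near the origin
  have hwv : ∀ k, ∀ x ∈ ball (0 : E4) (r / 2), w k =ᶠ[𝓝 x] v k := by
    intro k x hx
    filter_upwards [isOpen_ball.mem_nhds hx] with y hy
    have h1 : χ y = 1 := χ.one_of_mem_closedBall (ball_subset_closedBall hy)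
    show χ y * v k y = v k y
    rw [h1, one_mul]
  -- w vanishes away from the ball
  have hwout : ∀ k, ∀ x ∉ closedBall (0 : E4) (3 * r / 4), w k =ᶠ[𝓝 x] fun _ => 0 := by
    intro k x hx
    have : x ∉ tsupport (w k) := fun h => hx (hsupp k h)
    exact notMem_tsupport_iff_eventuallyEq.1 this
  have hP : ∀ k, ContDiff ℝ ∞ (opP a (w k)) := fun k => UCD_opP_contDiff ha (hw k)
  have hPout : ∀ k, ∀ x ∉ closedBall (0 : E4) (3 * r / 4), opP a (w k) x = 0 := by
    intro k x hx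
    rw [UCD_opP_congr (hwout k x hx), UCD_opP_zero]
  have hPhalf : ∀ k, ∀ x, r / 2 ≤ ‖x‖ → opP a (w k) x ≠ 0 → ‖x‖ ≤ 1 ∧ -‖x‖ ^ 2 / 32 ≤ x 0 := by
    intro k x hx h
    have h1 : x ∈ closedBall (0 : E4) (3 * r / 4) := by
      by_contra h1
      exact h (hPout k x h1)
    have h1' : ‖x‖ ≤ 3 * r / 4 := by simpa using h1
    refine ⟨by linarith, ?_⟩
    by_contra h2
    push Not at h2
    apply h
    have h3 : w k =ᶠ[𝓝 x] fun _ => 0 := by
      have hc1 : Continuous fun y : E4 => y 0 := by fun_prop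
      have ho : IsOpen {y : E4 | y 0 < -‖y‖ ^ 2 / 32} :=
        isOpen_lt hc1 (by fun_prop)
      have hb : x ∈ ball (0 : E4) r := by
        rw [mem_ball_zero_iff]; linarith
      filter_upwards [ho.mem_nhds h2, isOpen_ball.mem_nhds hb] with y hy hy2
      show χ y * v k y = 0
      rw [hzero y (ball_subset_closedBall hy2) hy k, mul_zero]
    rw [UCD_opP_congr h3, UCD_opP_zero]
  -- constants
  set B : ℝ := C ^ 2 * (2 * n) with hBdef
  have hB : 0 ≤ B := by positivity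
  -- pointwise inequality
  have hpt : ∀ τ : ℝ, 0 ≤ τ → ∀ k x, Real.exp (2 * τ * cw x) * opP a (w k) x ^ 2 ≤
      B * (∑ m, (Real.exp (2 * τ * cw x) * w m x ^ 2
        + Real.exp (2 * τ * cw x) * ‖fderiv ℝ (w m) x‖ ^ 2))
      + Real.exp (-(18 / 400) * r ^ 2 * τ) * opP a (w k) x ^ 2 := by
    intro τ hτ k x
    have he : 0 < Real.exp (2 * τ * cw x) := Real.exp_pos _
    rcases lt_or_ge ‖x‖ (r / 2) with hx | hx
    · have hxb : x ∈ ball (0 : E4) (r / 2) := by rwa [mem_ball_zero_iff]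
      have h1 := hineq x (by rw [mem_closedBall_zero_iff]; linarith) k
      have h2 : opP a (w k) x = opP a (v k) x := UCD_opP_congr (hwv k x hxb)
      have h3 : ∑ m, (|v m x| + ‖fderiv ℝ (v m) x‖) = ∑ m, (|w m x| + ‖fderiv ℝ (w m) x‖) := by
        refine Finset.sum_congr rfl fun m _ => ?_
        rw [(hwv m x hxb).fderiv_eq, (hwv m x hxb).eq_of_nhds]
      rw [h3, ← h2] at h1
      have h4 : opP a (w k) x ^ 2 ≤ B * ∑ m, (w m x ^ 2 + ‖fderiv ℝ (w m) x‖ ^ 2) := by
        have h5 : opP a (w k) x ^ 2 ≤ (C * ∑ m, (|w m x| + ‖fderiv ℝ (w m) x‖)) ^ 2 := by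
          rw [← sq_abs (opP a (w k) x)]
          gcongr
        refine h5.trans ?_
        rw [mul_pow, hBdef, mul_assoc]
        refine mul_le_mul_of_nonneg_left ?_ (sq_nonneg _)
        refine (UCD_sq_sum _ _).trans (le_of_eq ?_)
        simp only [sq_abs]
      have h6 : Real.exp (2 * τ * cw x) * opP a (w k) x ^ 2 ≤
          Real.exp (2 * τ * cw x) * (B * ∑ m, (w m x ^ 2 + ‖fderiv ℝ (w m) x‖ ^ 2)) :=
        mul_le_mul_of_nonneg_left h4 he.le
      have h7 : Real.exp (2 * τ * cw x) * (B * ∑ m, (w m x ^ 2 + ‖fderiv ℝ (w m) x‖ ^ 2)) =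
          B * (∑ m, (Real.exp (2 * τ * cw x) * w m x ^ 2
            + Real.exp (2 * τ * cw x) * ‖fderiv ℝ (w m) x‖ ^ 2)) := by
        rw [mul_left_comm, Finset.mul_sum]
        congr 1
        refine Finset.sum_congr rfl fun m _ => ?_
        ring
      rw [h7] at h6
      have h8 : 0 ≤ Real.exp (-(18 / 400) * r ^ 2 * τ) * opP a (w k) x ^ 2 := by positivity
      linarith
    · have h0 : 0 ≤ B * (∑ m, (Real.exp (2 * τ * cw x) * w m x ^ 2
          + Real.exp (2 * τ * cw x) * ‖fderiv ℝ (w m) x‖ ^ 2)) := by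
        refine mul_nonneg hB (Finset.sum_nonneg fun m _ => ?_)
        positivity
      by_cases hz : opP a (w k) x = 0
      · rw [hz]
        simp only [ne_eq, OfNat.ofNat_ne_zero, not_false_eq_true, zero_pow, mul_zero, add_zero]
        exact h0
      · obtain ⟨h1, h2⟩ := hPhalf k x hx hz
        have h3 := UCD_cw_upper hr hr1 hx h1 h2
        have h4 : Real.exp (2 * τ * cw x) ≤ Real.exp (-(18 / 400) * r ^ 2 * τ) := by
          apply Real.exp_le_exp.2
          nlinarith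
        have h5 : Real.exp (2 * τ * cw x) * opP a (w k) x ^ 2 ≤
            Real.exp (-(18 / 400) * r ^ 2 * τ) * opP a (w k) x ^ 2 :=
          mul_le_mul_of_nonneg_right h4 (sq_nonneg _)
        linarith
  -- integrability
  have hint : ∀ f : E4 → ℝ, Continuous f → (∀ x ∉ closedBall (0 : E4) (3 * r / 4), f x = 0) →
      Integrable f := by
    intro f hf h0
    exact hf.integrable_of_hasCompactSupport
      (HasCompactSupport.intro (isCompact_closedBall 0 (3 * r / 4)) h0)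
  have hexp : ∀ τ : ℝ, Continuous fun x => Real.exp (2 * τ * cw x) := fun τ =>
    Real.continuous_exp.comp (continuous_const.mul UCD_cw_continuous)
  have hi1 : ∀ (τ : ℝ) m, Integrable fun x => Real.exp (2 * τ * cw x) * w m x ^ 2 := by
    intro τ m
    refine hint _ ((hexp τ).mul ((hw m).continuous.pow 2)) fun x hx => ?_
    rw [(hwout m x hx).eq_of_nhds]
    simp
  have hi2 : ∀ (τ : ℝ) m, Integrable fun x => Real.exp (2 * τ * cw x) * ‖fderiv ℝ (w m) x‖ ^ 2 := by
    intro τ m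
    refine hint _ ((hexp τ).mul (((hw m).continuous_fderiv (by simp)).norm.pow 2)) fun x hx => ?_
    rw [(hwout m x hx).fderiv_eq]
    simp
  have hi3 : ∀ (τ : ℝ) m, Integrable fun x => Real.exp (2 * τ * cw x) * opP a (w m) x ^ 2 := by
    intro τ m
    refine hint _ ((hexp τ).mul ((hP m).continuous.pow 2)) fun x hx => ?_
    rw [hPout m x hx]
    simp
  have hi4 : ∀ m, Integrable fun x => opP a (w m) x ^ 2 := by
    intro m
    refine hint _ ((hP m).continuous.pow 2) fun x hx => ?_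
    rw [hPout m x hx]
    simp
  -- integrated inequality
  set I : ℝ → Fin n → ℝ := fun τ m => ∫ x, Real.exp (2 * τ * cw x) * w m x ^ 2 with hI
  set J : ℝ → Fin n → ℝ := fun τ m => ∫ x, Real.exp (2 * τ * cw x) * ‖fderiv ℝ (w m) x‖ ^ 2 with hJ
  set K : Fin n → ℝ := fun m => ∫ x, opP a (w m) x ^ 2 with hK
  have hInn : ∀ τ m, 0 ≤ I τ m := fun τ m => integral_nonneg fun x => by positivity
  have hJnn : ∀ τ m, 0 ≤ J τ m := fun τ m => integral_nonneg fun x => by positivity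
  have hKnn : ∀ m, 0 ≤ K m := fun m => integral_nonneg fun x => by positivity
  have hmain : ∀ τ : ℝ, 0 ≤ τ → ∀ k, (∫ x, Real.exp (2 * τ * cw x) * opP a (w k) x ^ 2) ≤
      B * (∑ m, (I τ m + J τ m)) + Real.exp (-(18 / 400) * r ^ 2 * τ) * K k := by
    intro τ hτ k
    have h1 : B * (∑ m, (I τ m + J τ m)) + Real.exp (-(18 / 400) * r ^ 2 * τ) * K k =
        ∫ x, (B * (∑ m, (Real.exp (2 * τ * cw x) * w m x ^ 2
          + Real.exp (2 * τ * cw x) * ‖fderiv ℝ (w m) x‖ ^ 2))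
        + Real.exp (-(18 / 400) * r ^ 2 * τ) * opP a (w k) x ^ 2) := by
      rw [integral_add, integral_const_mul, integral_const_mul, integral_finsetSum]
      · congr 2
        refine Finset.sum_congr rfl fun m _ => ?_
        rw [integral_add (hi1 τ m) (hi2 τ m)]
      · intro m _
        exact (hi1 τ m).add (hi2 τ m)
      · refine Integrable.const_mul ?_ B
        exact integrable_finsetSum _ fun m _ => (hi1 τ m).add (hi2 τ m)
      · exact (hi4 k).const_mul _
    rw [h1]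
    refine integral_mono (hi3 τ k) ?_ (hpt τ hτ k)
    refine Integrable.add ?_ ((hi4 k).const_mul _)
    refine Integrable.const_mul ?_ B
    exact integrable_finsetSum _ fun m _ => (hi1 τ m).add (hi2 τ m)
  -- the small ball
  set ρ : ℝ := r ^ 2 / 60 with hρ
  have hρ0 : 0 < ρ := by positivity
  have hρr : ρ ≤ r / 2 := by rw [hρ]; nlinarith
  set L : Fin n → ℝ := fun k => ∫ x in ball (0 : E4) ρ, w k x ^ 2 with hL
  set Kt : ℝ := ∑ m, K m with hKt
  have hbound : ∀ τ : ℝ, τ₀ ≤ τ → 2000 * n * B ≤ τ → ∀ k,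
      L k ≤ 2000 * Kt * Real.exp (-(2 / 400 * r ^ 2) * τ) := by
    intro τ h1 h2 k
    have hτ1 : 1 ≤ τ := le_trans hτ₀ h1
    have h3 : ∀ k, τ ^ 3 * I τ k + τ * J τ k ≤
        1000 * (B * (∑ m, (I τ m + J τ m)) + Real.exp (-(18 / 400) * r ^ 2 * τ) * K k) := by
      intro k
      refine (hcar τ h1 (w k) (hw k) (hsupp' k)).trans ?_
      exact mul_le_mul_of_nonneg_left (hmain τ (by linarith) k) (by norm_num)
    have h4 := UCD_absorb (I τ) (J τ) K (hInn τ) (hJnn τ) hB hτ1 h2 h3 k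
    rw [← Finset.mul_sum, ← hKt] at h4
    have h5 : Real.exp (-(16 / 400) * r ^ 2 * τ) * L k ≤ I τ k := by
      rw [hL, hI]
      simp only
      rw [← integral_const_mul]
      refine le_trans (setIntegral_mono_on ?_ ((hi1 τ k).integrableOn) measurableSet_ball
        (g := fun x => Real.exp (2 * τ * cw x) * w k x ^ 2) ?_) ?_
      · refine Integrable.integrableOn ?_
        refine Integrable.const_mul ?_ _
        refine hint _ ((hw k).continuous.pow 2) fun x hx => ?_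
        rw [(hwout k x hx).eq_of_nhds]
        simp
      · intro x hx
        refine mul_le_mul_of_nonneg_right ?_ (sq_nonneg _)
        apply Real.exp_le_exp.2
        have hx' : ‖x‖ ≤ r ^ 2 / 60 := by
          rw [mem_ball_zero_iff] at hx
          exact hx.le
        have := UCD_cw_lower hr hr1 hx'
        nlinarith
      · exact setIntegral_le_integral (hi1 τ k)
          (Filter.Eventually.of_forall fun x => by positivity)
    have h6 : Real.exp (-(16 / 400) * r ^ 2 * τ) * L k ≤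
        2000 * (Real.exp (-(18 / 400) * r ^ 2 * τ) * Kt) := h5.trans h4
    have h7 : Real.exp (-(18 / 400) * r ^ 2 * τ) =
        Real.exp (-(16 / 400) * r ^ 2 * τ) * Real.exp (-(2 / 400 * r ^ 2) * τ) := by
      rw [← Real.exp_add]
      congr 1
      ring
    rw [h7] at h6
    have h8 : Real.exp (-(16 / 400) * r ^ 2 * τ) * L k ≤
        Real.exp (-(16 / 400) * r ^ 2 * τ) * (2000 * Kt * Real.exp (-(2 / 400 * r ^ 2) * τ)) := by
      refine h6.trans (le_of_eq ?_)
      ring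
    exact le_of_mul_le_mul_left h8 (Real.exp_pos _)
  have hL0 : ∀ k, L k ≤ 0 := by
    intro k
    have ht : Filter.Tendsto (fun τ : ℝ => 2000 * Kt * Real.exp (-(2 / 400 * r ^ 2) * τ))
        Filter.atTop (𝓝 (2000 * Kt * 0)) := by
      refine Filter.Tendsto.const_mul _ ?_
      refine Real.tendsto_exp_atBot.comp ?_
      refine Filter.Tendsto.const_mul_atTop_of_neg ?_ Filter.tendsto_id
      have : 0 < r ^ 2 := by positivity
      linarith
    rw [mul_zero] at ht
    refine ge_of_tendsto ht ?_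
    filter_upwards [Filter.eventually_ge_atTop τ₀, Filter.eventually_ge_atTop (2000 * n * B)]
      with τ h1 h2
    exact hbound τ h1 h2 k
  -- conclusion
  have hw0 : ∀ k, ∀ x ∈ ball (0 : E4) ρ, w k x = 0 := by
    intro k
    have h1 : (∫ x in ball (0 : E4) ρ, w k x ^ 2) = 0 :=
      le_antisymm (hL0 k) (integral_nonneg fun x => by positivity)
    have hi : Integrable fun x => w k x ^ 2 := by
      refine hint _ ((hw k).continuous.pow 2) fun x hx => ?_
      rw [(hwout k x hx).eq_of_nhds]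
      simp
    rw [setIntegral_eq_zero_iff_of_nonneg_ae (Filter.Eventually.of_forall fun x => by positivity)
      hi.integrableOn] at h1
    have h2 : EqOn (fun x => w k x ^ 2) (fun _ => (0 : ℝ)) (ball (0 : E4) ρ) := by
      refine MeasureTheory.Measure.eqOn_open_of_ae_eq h1 isOpen_ball ?_ continuousOn_const
      exact ((hw k).continuous.pow 2).continuousOn
    intro x hx
    have := h2 hx
    simpa using this
  filter_upwards [ball_mem_nhds (0 : E4) hρ0] with x hx k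
  have h1 := (hwv k x (ball_subset_ball hρr hx)).eq_of_nhds
  rw [← h1]
  exact hw0 k x hx

end Pool.Agent.Lib.MP_6c284f_gt
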