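import Pool.Agent.Lib.MP_6c284f_gt.Tube

set_option autoImplicit false
set_option maxSynthPendingDepth 5

/-!
Definitions for the unique continuation theorem.
-/

namespace Pool.Agent.Lib.MP_6c284f_gt

open scoped ContDiff Topology
open Set

/-- first derivative in the coordinate direction `i` -/
noncomputable def pd (f : E4 → ℝ) (i : Fin 4) (x : E4) : ℝ :=
  fderiv ℝ f x (EuclideanSpace.single i 1)

/-- the second derivative of `f` at `x` in the coordinate directions `i`, `j` -/
noncomputable def dd (f : E4 → ℝ) (i j : Fin 4) (x : E4) : ℝ :=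
  fderiv ℝ (fderiv ℝ f) x (EuclideanSpace.single i 1) (EuclideanSpace.single j 1)

/-- the second order operator in divergence form -/
noncomputable def opP (a : Fin 4 → Fin 4 → E4 → ℝ) (w : E4 → ℝ) (x : E4) : ℝ :=
  ∑ i, pd (fun y => ∑ j, a i j y * pd w j y) i x

/-- the bilinear form `a(∇ v, ∇ w)` -/
noncomputable def bil (a : Fin 4 → Fin 4 → E4 → ℝ) (v w : E4 → ℝ) (x : E4) : ℝ :=
  ∑ i, ∑ j, a i j x * pd v i x * pd w j x

/-- the Carleman weight -/
noncomputable def cw (x : E4) : ℝ := -x 0 - ‖x‖ ^ 2 / 8 + (x 0) ^ 2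

end Pool.Agent.Lib.MP_6c284f_gt
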