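import Pool.Agent.Lib.MP_6c284f_gt.UCD

set_option autoImplicit false
set_option maxSynthPendingDepth 5

/-!
Unique continuation at a point of a sphere, by an affine change of variables.
-/

namespace Pool.Agent.Lib.MP_6c284f_gt

open scoped ContDiff Topology
open Set MeasureTheory Metric

open scoped MatrixOrder in
private theorem ucE_factor (A : Matrix (Fin 4) (Fin 4) ℝ) (hA : A.PosDef) :
    ∃ B : E4 ≃L[ℝ] E4, ∀ x y : E4, inner ℝ (B x) (B y) = ∑ k, ∑ l, x k * A k l * y l := by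
  obtain ⟨B, hB⟩ := CStarAlgebra.nonneg_iff_eq_star_mul_self.mp hA.posSemidef.nonneg
  have hb : ∀ x y : E4, inner ℝ (Matrix.toEuclideanLin B x) (Matrix.toEuclideanLin B y) =
      ∑ k, ∑ l, x k * A k l * y l := by
    intro x y
    have h1 : inner ℝ (Matrix.toEuclideanLin B x) (Matrix.toEuclideanLin B y) =
        (B.mulVec x.ofLp) ⬝ᵥ (B.mulVec y.ofLp) := by
      simp [PiLp.inner_apply, dotProduct, mul_comm]
    have h2 : (B.mulVec x.ofLp) ⬝ᵥ (B.mulVec y.ofLp) = x.ofLp ⬝ᵥ (A.mulVec y.ofLp) := by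
      rw [hB, ← Matrix.mulVec_mulVec, Matrix.star_eq_conjTranspose, Matrix.dotProduct_mulVec x.ofLp,
        Matrix.vecMul_conjTranspose]
      simp
    rw [h1, h2]
    simp only [dotProduct, Matrix.mulVec, Finset.mul_sum, mul_assoc]
  have hinj : Function.Injective (Matrix.toEuclideanLin B) := by
    rw [injective_iff_map_eq_zero]
    intro x hx
    by_contra hne
    have h1 := hb x x
    rw [hx, inner_zero_left] at h1
    have h2 := hA.dotProduct_mulVec_pos (x := x.ofLp) (by simpa using hne)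
    simp only [dotProduct, Matrix.mulVec, Finset.mul_sum, ← mul_assoc, star_trivial, Pi.star_apply] at h2
    linarith
  refine ⟨(LinearEquiv.ofInjectiveEndo _ hinj).toContinuousLinearEquiv, ?_⟩
  intro x y
  exact hb x y

private theorem ucE_frame (A : Matrix (Fin 4) (Fin 4) ℝ) (hA : A.PosDef) {ν : E4} (hν : ν ≠ 0) :
    ∃ L : E4 ≃L[ℝ] E4, (∀ i j, ∑ k, ∑ l, (L.symm (EuclideanSpace.single k 1)) i * A k l *
      (L.symm (EuclideanSpace.single l 1)) j = if i = j then 1 else 0) ∧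
      ∃ s > 0, ∀ y : E4, inner ℝ (L y) ν = s * y 0 := by
  obtain ⟨B, hB⟩ := ucE_factor A hA
  have hw : B ν ≠ 0 := by
    intro h
    exact hν (by simpa using h)
  have hs : 0 < ‖B ν‖ := norm_pos_iff.2 hw
  obtain ⟨b, hb⟩ : ∃ b : OrthonormalBasis (Fin 4) ℝ E4, b 0 = (‖B ν‖⁻¹ : ℝ) • B ν := by
    have h1 : Orthonormal ℝ (({0} : Set (Fin 4)).domRestrict
        (fun _ : Fin 4 => (‖B ν‖⁻¹ : ℝ) • B ν)) := by
      constructor
      · rintro ⟨i, hi⟩
        simp [norm_smul, hs.ne']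
      · rintro ⟨i, hi⟩ ⟨j, hj⟩ hij
        exfalso
        apply hij
        rw [mem_singleton_iff] at hi hj
        subst hi; subst hj; rfl
    obtain ⟨b, hb⟩ := h1.exists_orthonormalBasis_extension_of_card_eq (by simp)
    exact ⟨b, hb 0 (mem_singleton 0)⟩
  let M : E4 →ₗ[ℝ] E4 :=
    { toFun := fun x => WithLp.toLp 2 (fun i => inner ℝ (B.symm (b i)) x)
      map_add' := by
        intro x y
        ext i
        simp [inner_add_right]
      map_smul' := by
        intro c x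
        ext i
        simp [inner_smul_right] }
  have hM : ∀ x i, M x i = inner ℝ (B.symm (b i)) x := fun x i => rfl
  have hinj : Function.Injective M := by
    rw [injective_iff_map_eq_zero]
    intro x hx
    have h1 : ∀ i, inner ℝ (B.symm (b i)) x = 0 := by
      intro i
      rw [← hM, hx]
      rfl
    have h2 : ∀ z : E4, inner ℝ (B.symm z) x = 0 := by
      intro z
      rw [← b.sum_repr z, map_sum, sum_inner]
      refine Finset.sum_eq_zero fun i _ => ?_
      rw [map_smul, real_inner_smul_left, h1, mul_zero]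
    have h3 := h2 (B x)
    rw [B.symm_apply_apply, inner_self_eq_zero] at h3
    exact h3
  let Me : E4 ≃L[ℝ] E4 := (LinearEquiv.ofInjectiveEndo M hinj).toContinuousLinearEquiv
  have hMe : ∀ x i, Me x i = inner ℝ (B.symm (b i)) x := fun x i => rfl
  refine ⟨Me.symm, ?_, ‖B ν‖, hs, ?_⟩
  · intro i j
    have h1 : ∀ k i, (Me.symm.symm (EuclideanSpace.single k 1)) i = (B.symm (b i)) k := by
      intro k i
      show Me (EuclideanSpace.single k 1) i = _
      rw [hMe, EuclideanSpace.inner_single_right]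
      simp
    simp only [h1]
    rw [← hB, B.apply_symm_apply, B.apply_symm_apply, orthonormal_iff_ite.1 b.orthonormal]
  · intro y
    have h1 : ν = ‖B ν‖ • B.symm (b 0) := by
      rw [hb, map_smul, B.symm_apply_apply, smul_smul, mul_inv_cancel₀ hs.ne', one_smul]
    have h2 : inner ℝ (B.symm (b 0)) (Me.symm y) = y 0 := by
      rw [← hMe, Me.apply_symm_apply]
    conv_lhs => rw [h1]
    rw [real_inner_smul_right, real_inner_comm, h2]

private theorem ucE_fderiv1 {g : E4 → ℝ} {p x : E4} {T : E4 →L[ℝ] E4}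
    (hg : DifferentiableAt ℝ g (p + T x)) :
    fderiv ℝ (fun y => g (p + T y)) x = (fderiv ℝ g (p + T x)).comp T := by
  have h1 : HasFDerivAt (fun y : E4 => p + T y) T x := T.hasFDerivAt.const_add p
  exact (hg.hasFDerivAt.comp x h1).fderiv

private theorem ucE_fderiv2 {g : E4 → ℝ} {p x : E4} {T : E4 →L[ℝ] E4}
    (hg : ContDiffAt ℝ ∞ g (p + T x)) (u w : E4) :
    fderiv ℝ (fderiv ℝ (fun y => g (p + T y))) x u w =
      fderiv ℝ (fderiv ℝ g) (p + T x) (T u) (T w) := by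
  have hcont : Filter.Tendsto (fun y : E4 => p + T y) (𝓝 x) (𝓝 (p + T x)) := by
    have : Continuous (fun y : E4 => p + T y) := by fun_prop
    exact this.tendsto x
  have hev : ∀ᶠ z in 𝓝 (p + T x), ContDiffAt ℝ 2 g z :=
    (hg.of_le (by norm_cast)).eventually (by simp)
  have h1 : fderiv ℝ (fun y => g (p + T y)) =ᶠ[𝓝 x]
      fun y => (fderiv ℝ g (p + T y)).comp T := by
    filter_upwards [hcont.eventually hev] with y hy
    exact ucE_fderiv1 (hy.differentiableAt (by norm_num))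
  rw [h1.fderiv_eq]
  have h2 : ContDiffAt ℝ 1 (fderiv ℝ g) (p + T x) := hg.fderiv_right (m := 1) (by norm_cast)
  have h3 : HasFDerivAt (fderiv ℝ g) (fderiv ℝ (fderiv ℝ g) (p + T x)) (p + T x) :=
    (h2.differentiableAt (by norm_num)).hasFDerivAt
  have h4 : HasFDerivAt (fun y : E4 => p + T y) T x := T.hasFDerivAt.const_add p
  have h5 : HasFDerivAt (fun y => fderiv ℝ g (p + T y))
      ((fderiv ℝ (fderiv ℝ g) (p + T x)).comp T) x := h3.comp x h4
  have h6 := h5.clm_comp (hasFDerivAt_const T x)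
  rw [h6.fderiv]
  simp

private theorem ucE_opP {a : Fin 4 → Fin 4 → E4 → ℝ} {w : E4 → ℝ} {x : E4}
    (ha : ∀ i j, DifferentiableAt ℝ (a i j) x) (hw : ContDiffAt ℝ ∞ w x) :
    opP a w x = (∑ i, ∑ j, a i j x * dd w i j x) + ∑ i, ∑ j, pd (a i j) i x * pd w j x := by
  have h2 : ContDiffAt ℝ 1 (fderiv ℝ w) x := hw.fderiv_right (m := 1) (by norm_cast)
  have h3 : HasFDerivAt (fderiv ℝ w) (fderiv ℝ (fderiv ℝ w) x) x :=
    (h2.differentiableAt (by norm_num)).hasFDerivAt
  have h4 : ∀ j, HasFDerivAt (fun y => pd w j y)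
      ((fderiv ℝ (fderiv ℝ w) x).flip (EuclideanSpace.single j 1)) x := by
    intro j
    have := h3.clm_apply (hasFDerivAt_const (EuclideanSpace.single j (1:ℝ)) x)
    simpa [pd] using this
  unfold opP
  rw [← Finset.sum_add_distrib]
  refine Finset.sum_congr rfl fun i _ => ?_
  rw [← Finset.sum_add_distrib]
  have h5 : HasFDerivAt (fun y => ∑ j, a i j y * pd w j y)
      (∑ j, (a i j x • ((fderiv ℝ (fderiv ℝ w) x).flip (EuclideanSpace.single j 1)) +
        pd w j x • fderiv ℝ (a i j) x)) x :=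
    HasFDerivAt.fun_sum fun j _ => (ha i j).hasFDerivAt.mul (h4 j)
  unfold pd at h5 ⊢
  rw [h5.fderiv]
  simp only [_root_.sum_apply, _root_.add_apply,
    _root_.smul_apply, ContinuousLinearMap.flip_apply, smul_eq_mul, dd]
  refine Finset.sum_congr rfl fun j _ => ?_
  ring

private theorem ucE_alg (L : E4 ≃L[ℝ] E4) (a : Fin 4 → Fin 4 → ℝ) (B : E4 →L[ℝ] E4 →L[ℝ] ℝ) :
    ∑ i, ∑ j, (∑ k, ∑ l, (L.symm (EuclideanSpace.single k 1)) i * a k l *
      (L.symm (EuclideanSpace.single l 1)) j) *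
        B (L (EuclideanSpace.single i 1)) (L (EuclideanSpace.single j 1)) =
      ∑ k, ∑ l, a k l * B (EuclideanSpace.single k 1) (EuclideanSpace.single l 1) := by
  have h0 : ∀ k : Fin 4, (EuclideanSpace.single k 1 : E4) =
      ∑ i, (L.symm (EuclideanSpace.single k 1)) i • L (EuclideanSpace.single i 1) := by
    intro k
    have h1 : L.symm (EuclideanSpace.single k 1) =
        ∑ i, (L.symm (EuclideanSpace.single k 1)) i • (EuclideanSpace.single i 1 : E4) := by
      ext m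
      simp [Finset.sum_apply, Pi.single_apply]
    conv_lhs => rw [← L.apply_symm_apply (EuclideanSpace.single k 1), h1, map_sum]
    refine Finset.sum_congr rfl fun i _ => ?_
    rw [map_smul]
  have h1 : ∀ k l : Fin 4, B (EuclideanSpace.single k 1) (EuclideanSpace.single l 1) =
      ∑ i, ∑ j, (L.symm (EuclideanSpace.single k 1)) i * (L.symm (EuclideanSpace.single l 1)) j *
        B (L (EuclideanSpace.single i 1)) (L (EuclideanSpace.single j 1)) := by
    intro k l
    conv_lhs => rw [h0 k, h0 l]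
    simp only [map_sum, map_smul, _root_.sum_apply, _root_.smul_apply,
      smul_eq_mul, Finset.mul_sum]
    rw [Finset.sum_comm]
    refine Finset.sum_congr rfl fun i _ => Finset.sum_congr rfl fun j _ => ?_
    ring
  simp only [h1, Finset.mul_sum, Finset.sum_mul]
  simp only [Fin.sum_univ_four]
  ring

private theorem ucE_cut (χ : ContDiffBump (0 : E4)) {f : E4 → ℝ}
    (hf : ∀ x ∈ closedBall (0 : E4) χ.rOut, ContDiffAt ℝ ∞ f x) :
    ContDiff ℝ ∞ (fun x => χ x * f x) := by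
  rw [contDiff_iff_contDiffAt]
  intro x
  by_cases hx : x ∈ closedBall (0 : E4) χ.rOut
  · exact χ.contDiff.contDiffAt.mul (hf x hx)
  · have h1 : (χ : E4 → ℝ) =ᶠ[𝓝 x] 0 := by
      rw [← notMem_tsupport_iff_eventuallyEq, χ.tsupport_eq]
      exact hx
    have h2 : (fun x => χ x * f x) =ᶠ[𝓝 x] fun _ => 0 := by
      filter_upwards [h1] with y hy
      rw [hy]
      simp
    exact contDiffAt_const.congr_of_eventuallyEq h2

private theorem ucE_pd (f : E4 → ℝ) (i : Fin 4) (x : E4) : |pd f i x| ≤ ‖fderiv ℝ f x‖ := by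
  have h := (fderiv ℝ f x).le_opNorm (EuclideanSpace.single i 1)
  rw [PiLp.norm_single, norm_one, mul_one] at h
  exact h

theorem uc_at_point {n : ℕ} {U : Set E4} (hU : IsOpen U)
    (a : Fin 4 → Fin 4 → E4 → ℝ) (ha : ∀ i j, ContDiffOn ℝ ∞ (a i j) U)
    (hsymm : ∀ x ∈ U, ∀ i j, a i j x = a j i x)
    (hpos : ∀ x ∈ U, ∀ ξ : Fin 4 → ℝ, ξ ≠ 0 → 0 < ∑ i, ∑ j, a i j x * ξ i * ξ j)
    (v : Fin n → E4 → ℝ) (hv : ∀ k, ContDiffOn ℝ ∞ (v k) U)
    (hineq : ∀ x ∈ U, ∃ C : ℝ, ∀ᶠ y in 𝓝 x, ∀ k,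
      |∑ i, ∑ j, a i j y * dd (v k) i j y| ≤ C * ∑ m, (|v m y| + ‖fderiv ℝ (v m) y‖))
    {p q : E4} (hp : p ∈ U) (hpq : p ≠ q)
    (hzero : ∀ x ∈ ball q (dist p q), x ∈ U → ∀ k, v k x = 0) :
    ∀ᶠ x in 𝓝 p, ∀ k, v k x = 0 := by
  obtain ⟨η, hη, r, hr, hr1, hloc⟩ := local_uc
  have hν : p - q ≠ 0 := sub_ne_zero.2 hpq
  have hAp : (Matrix.of fun i j => a i j p).PosDef := by
    refine Matrix.PosDef.of_dotProduct_mulVec_pos ?_ ?_
    · ext i j
      simp [Matrix.conjTranspose_apply, hsymm p hp i j]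
    · intro ξ hξ
      have := hpos p hp ξ hξ
      simp only [dotProduct, Matrix.mulVec, Finset.mul_sum, Matrix.of_apply, star_trivial,
        Pi.star_apply]
      refine lt_of_lt_of_eq this ?_
      refine Finset.sum_congr rfl fun i _ => Finset.sum_congr rfl fun j _ => ?_
      ring
  obtain ⟨L, hL, s, hs, hνs⟩ := ucE_frame _ hAp hν
  set S : Fin 4 → Fin 4 → ℝ := fun i k => (L.symm (EuclideanSpace.single k 1)) i with hS
  set F : Fin 4 → Fin 4 → E4 → ℝ :=
    fun i j x => ∑ k, ∑ l, S i k * a k l (p + L x) * S j l with hF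
  have haff : Continuous (fun x : E4 => p + L x) := by fun_prop
  have hFs : ∀ x, p + L x ∈ U → ∀ i j, ContDiffAt ℝ ∞ (F i j) x := by
    intro x hx i j
    rw [hF]
    refine ContDiffAt.sum fun k _ => ContDiffAt.sum fun l _ => ?_
    have h1 : ContDiffAt ℝ ∞ (a k l) (p + L x) := (ha k l).contDiffAt (hU.mem_nhds hx)
    have h2 : ContDiffAt ℝ ∞ (fun x : E4 => p + L x) x := by fun_prop
    exact (contDiffAt_const.mul (h1.comp x h2)).mul contDiffAt_const
  have hF0 : ∀ i j, F i j 0 = if i = j then 1 else 0 := by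
    intro i j
    rw [← hL i j]
    simp [hF, hS]
  have hp0 : p + L 0 = p := by simp
  obtain ⟨C, hC⟩ := hineq p hp
  have hev : ∀ᶠ x in 𝓝 (0 : E4), p + L x ∈ U ∧
      (∀ i j, |F i j x - if i = j then 1 else 0| ≤ η ∧
        ‖fderiv ℝ (F i j) x‖ ≤ ‖fderiv ℝ (F i j) 0‖ + 1) ∧
      (∀ k, |∑ i, ∑ j, a i j (p + L x) * dd (v k) i j (p + L x)| ≤
        C * ∑ m, (|v m (p + L x)| + ‖fderiv ℝ (v m) (p + L x)‖)) := by
    have ht : Filter.Tendsto (fun x : E4 => p + L x) (𝓝 0) (𝓝 p) := by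
      have := haff.tendsto 0
      rwa [hp0] at this
    have hU0 : p + L 0 ∈ U := by rw [hp0]; exact hp
    have h1 : ∀ᶠ x in 𝓝 (0 : E4), p + L x ∈ U := ht.eventually (hU.mem_nhds hp)
    have h2 := ht.eventually hC
    have h3 : ∀ᶠ x in 𝓝 (0 : E4), ∀ i j, |F i j x - if i = j then 1 else 0| ≤ η ∧
        ‖fderiv ℝ (F i j) x‖ ≤ ‖fderiv ℝ (F i j) 0‖ + 1 := by
      rw [Filter.eventually_all]
      intro i
      rw [Filter.eventually_all]
      intro j
      have h4 : ContinuousAt (F i j) 0 := (hFs 0 hU0 i j).continuousAt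
      have h5 : ContinuousAt (fderiv ℝ (F i j)) 0 :=
        ((hFs 0 hU0 i j).fderiv_right (m := 1) (by norm_cast)).continuousAt
      have h6 : ContinuousAt (fun x => |F i j x - if i = j then 1 else 0|) 0 :=
        (h4.sub continuousAt_const).abs
      have h7 : ∀ᶠ x in 𝓝 (0 : E4), |F i j x - if i = j then 1 else 0| < η := by
        refine h6.eventually_lt continuousAt_const ?_
        rw [hF0]
        simpa using hη
      have h8 : ∀ᶠ x in 𝓝 (0 : E4), ‖fderiv ℝ (F i j) x‖ < ‖fderiv ℝ (F i j) 0‖ + 1 := by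
        refine h5.norm.eventually_lt continuousAt_const ?_
        linarith
      filter_upwards [h7, h8] with x hx1 hx2
      exact ⟨hx1.le, hx2.le⟩
    filter_upwards [h1, h2, h3] with x hx1 hx2 hx3
    exact ⟨hx1, hx3, hx2⟩
  obtain ⟨ρ, hρ, hball⟩ := Metric.eventually_nhds_iff_ball.1 hev
  set M : ℝ := ∑ i, ∑ j, (‖fderiv ℝ (F i j) 0‖ + 1) with hM
  have hM0 : 0 ≤ M := Finset.sum_nonneg fun i _ => Finset.sum_nonneg fun j _ => by positivity
  have hMle : ∀ i j, ‖fderiv ℝ (F i j) 0‖ + 1 ≤ M := by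
    intro i j
    have h1 : ‖fderiv ℝ (F i j) 0‖ + 1 ≤ ∑ j, (‖fderiv ℝ (F i j) 0‖ + 1) :=
      Finset.single_le_sum (f := fun j => ‖fderiv ℝ (F i j) 0‖ + 1)
        (fun j _ => by positivity) (Finset.mem_univ j)
    refine h1.trans ?_
    exact Finset.single_le_sum (f := fun i => ∑ j, (‖fderiv ℝ (F i j) 0‖ + 1))
        (fun i _ => Finset.sum_nonneg fun j _ => by positivity) (Finset.mem_univ i)
  obtain ⟨ε, hε, hερ, hεM, hεL⟩ : ∃ ε > 0, ε * 2 < ρ ∧ ε * M ≤ η ∧
      ε * ‖(L : E4 →L[ℝ] E4)‖ ^ 2 ≤ s / 16 := by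
    refine ⟨min (ρ / 4) (min (η / (M + 1)) ((s / 16) / (‖(L : E4 →L[ℝ] E4)‖ ^ 2 + 1))),
      by positivity, ?_, ?_, ?_⟩
    · have := min_le_left (ρ / 4) (min (η / (M + 1)) ((s / 16) / (‖(L : E4 →L[ℝ] E4)‖ ^ 2 + 1)))
      linarith
    · have h1 : min (ρ / 4) (min (η / (M + 1)) ((s / 16) / (‖(L : E4 →L[ℝ] E4)‖ ^ 2 + 1))) ≤
        η / (M + 1) := (min_le_right _ _).trans (min_le_left _ _)
      calc _ ≤ η / (M + 1) * M := mul_le_mul_of_nonneg_right h1 hM0
        _ ≤ η / (M + 1) * (M + 1) := by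
          apply mul_le_mul_of_nonneg_left (by linarith) (by positivity)
        _ = η := by field_simp
    · have h1 : min (ρ / 4) (min (η / (M + 1)) ((s / 16) / (‖(L : E4 →L[ℝ] E4)‖ ^ 2 + 1))) ≤
        (s / 16) / (‖(L : E4 →L[ℝ] E4)‖ ^ 2 + 1) := (min_le_right _ _).trans (min_le_right _ _)
      calc _ ≤ (s / 16) / (‖(L : E4 →L[ℝ] E4)‖ ^ 2 + 1) * ‖(L : E4 →L[ℝ] E4)‖ ^ 2 :=
            mul_le_mul_of_nonneg_right h1 (by positivity)
        _ ≤ (s / 16) / (‖(L : E4 →L[ℝ] E4)‖ ^ 2 + 1) * (‖(L : E4 →L[ℝ] E4)‖ ^ 2 + 1) := by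
          apply mul_le_mul_of_nonneg_left (by linarith) (by positivity)
        _ = s / 16 := by field_simp
  set T : E4 →L[ℝ] E4 := ε • (L : E4 →L[ℝ] E4) with hT
  have hTx : ∀ x, T x = L (ε • x) := by
    intro x
    rw [map_smul]
    rfl
  have hTx' : ∀ x, T x = ε • L x := fun x => rfl
  have hmem : ∀ x ∈ closedBall (0 : E4) 2, ε • x ∈ ball (0 : E4) ρ := by
    intro x hx
    rw [mem_closedBall_zero_iff] at hx
    rw [mem_ball_zero_iff, norm_smul, Real.norm_eq_abs, abs_of_pos hε]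
    nlinarith
  have hTU : ∀ x ∈ closedBall (0 : E4) 2, p + T x ∈ U := by
    intro x hx
    rw [hTx]
    exact (hball _ (hmem x hx)).1
  let χ : ContDiffBump (0 : E4) := ⟨3 / 2, 2, by norm_num, by norm_num⟩
  have hχ1 : ∀ x ∈ closedBall (0 : E4) (3 / 2), χ x = 1 := fun x hx =>
    χ.one_of_mem_closedBall hx
  set a' : Fin 4 → Fin 4 → E4 → ℝ := fun i j y =>
    (if i = j then 1 else 0) + χ y * (F i j (ε • y) - if i = j then 1 else 0) with ha'
  set v' : Fin n → E4 → ℝ := fun k y => χ y * v k (p + T y) with hv'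
  have hsm : ∀ i j, ∀ x ∈ closedBall (0 : E4) 2, ContDiffAt ℝ ∞ (fun y => F i j (ε • y)) x := by
    intro i j x hx
    have h1 : ContDiffAt ℝ ∞ (F i j) (ε • x) := by
      apply hFs
      rw [← hTx]
      exact hTU x hx
    have h2 : ContDiffAt ℝ ∞ (fun y : E4 => ε • y) x := by fun_prop
    exact h1.comp x h2
  have hsv : ∀ k, ∀ x ∈ closedBall (0 : E4) 2, ContDiffAt ℝ ∞ (fun y => v k (p + T y)) x := by
    intro k x hx
    have h1 : ContDiffAt ℝ ∞ (v k) (p + T x) := (hv k).contDiffAt (hU.mem_nhds (hTU x hx))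
    have h2 : ContDiffAt ℝ ∞ (fun y : E4 => p + T y) x := by fun_prop
    exact h1.comp x h2
  have hnear : ∀ x ∈ closedBall (0 : E4) r, ∀ᶠ y in 𝓝 x, χ y = 1 := by
    intro x hx
    have h1 : x ∈ ball (0 : E4) (3 / 2) := by
      rw [mem_closedBall_zero_iff] at hx
      rw [mem_ball_zero_iff]
      linarith
    filter_upwards [isOpen_ball.mem_nhds h1] with y hy
    exact hχ1 y (ball_subset_closedBall hy)
  have hr2 : ∀ x ∈ closedBall (0 : E4) r, x ∈ closedBall (0 : E4) 2 := by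
    intro x hx
    rw [mem_closedBall_zero_iff] at hx ⊢
    linarith
  have hna : ∀ x ∈ closedBall (0 : E4) r, ∀ i j, a' i j =ᶠ[𝓝 x] fun y => F i j (ε • y) := by
    intro x hx i j
    filter_upwards [hnear x hx] with y hy
    simp only [ha', hy]
    ring
  have hnv : ∀ x ∈ closedBall (0 : E4) r, ∀ k, v' k =ᶠ[𝓝 x] fun y => v k (p + T y) := by
    intro x hx k
    filter_upwards [hnear x hx] with y hy
    simp only [hv', hy, one_mul]
  have hfa : ∀ x ∈ closedBall (0 : E4) r, ∀ i j, ‖fderiv ℝ (a' i j) x‖ ≤ η := by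
    intro x hx i j
    rw [(hna x hx i j).fderiv_eq]
    have h1 : DifferentiableAt ℝ (F i j) (ε • x) := by
      refine (hFs (ε • x) ?_ i j).differentiableAt (by simp)
      rw [← hTx]
      exact hTU x (hr2 x hx)
    have h2 : HasFDerivAt (fun y : E4 => ε • y) (ε • ContinuousLinearMap.id ℝ E4) x :=
      (hasFDerivAt_id x).const_smul ε
    have h3 : fderiv ℝ (fun y => F i j (ε • y)) x = ε • fderiv ℝ (F i j) (ε • x) := by
      have h4 := h1.hasFDerivAt.comp x h2
      have h5 : fderiv ℝ (fun y => F i j (ε • y)) x = _ := h4.fderiv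
      rw [h5]
      ext u
      simp
    rw [h3, norm_smul, Real.norm_eq_abs, abs_of_pos hε]
    have h4 := ((hball _ (hmem x (hr2 x hx))).2.1 i j).2
    calc ε * ‖fderiv ℝ (F i j) (ε • x)‖ ≤ ε * M :=
          mul_le_mul_of_nonneg_left (h4.trans (hMle i j)) hε.le
      _ ≤ η := hεM
  have hfinal := hloc a' ?_ ?_ ?_ n v'
    (ε ^ 2 * |C| * (1 + ε⁻¹ * ‖(L.symm : E4 →L[ℝ] E4)‖) + 16 * η) ?_ ?_ ?_
  · have h1 : ∀ᶠ x in 𝓝 (0 : E4), ∀ k, v k (p + T x) = 0 := by
      have h0 : (0 : E4) ∈ closedBall (0 : E4) r := by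
        rw [mem_closedBall_zero_iff, norm_zero]
        exact hr.le
      filter_upwards [hfinal, hnear 0 h0] with x hx1 hx2 k
      have := hx1 k
      simp only [hv', hx2, one_mul] at this
      exact this
    have h2 : Filter.Tendsto (fun y : E4 => ε⁻¹ • L.symm (y - p)) (𝓝 p) (𝓝 0) := by
      have h3 : Continuous (fun y : E4 => ε⁻¹ • L.symm (y - p)) := by fun_prop
      have := h3.tendsto p
      simpa using this
    filter_upwards [h2.eventually h1] with y hy k
    have h3 := hy k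
    rw [hTx, smul_smul, mul_inv_cancel₀ hε.ne', one_smul, L.apply_symm_apply,
      add_sub_cancel] at h3
    exact h3
  · intro i j
    refine contDiff_const.add (ucE_cut χ fun x hx => ?_)
    exact (hsm i j x hx).sub contDiffAt_const
  · intro i j x
    by_cases hx : x ∈ closedBall (0 : E4) 2
    · have h1 : F i j (ε • x) = F j i (ε • x) := by
        simp only [hF]
        rw [Finset.sum_comm]
        refine Finset.sum_congr rfl fun k _ => Finset.sum_congr rfl fun l _ => ?_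
        rw [hsymm (p + L (ε • x)) (by rw [← hTx]; exact hTU x hx) l k]
        ring
      simp only [ha', h1, eq_comm]
    · have h1 : χ x = 0 := by
        apply χ.zero_of_le_dist
        rw [mem_closedBall, not_le] at hx
        exact hx.le
      simp only [ha', h1, zero_mul, add_zero, eq_comm]
  · intro i j x hx
    refine ⟨?_, hfa x hx i j⟩
    rw [(hna x hx i j).eq_of_nhds]
    exact ((hball _ (hmem x (hr2 x hx))).2.1 i j).1
  · intro k
    exact ucE_cut χ fun x hx => hsv k x hx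
  · intro x hx k
    have hx2 := hr2 x hx
    have hpx := hTU x hx2
    have hvx : ∀ m, ContDiffAt ℝ ∞ (v m) (p + T x) := fun m =>
      (hv m).contDiffAt (hU.mem_nhds hpx)
    have hd1 : ∀ m, fderiv ℝ (v' m) x = (fderiv ℝ (v m) (p + T x)).comp T := by
      intro m
      rw [(hnv x hx m).fderiv_eq]
      exact ucE_fderiv1 ((hvx m).differentiableAt (by simp))
    have hd2 : ∀ i j, dd (v' k) i j x =
        ε ^ 2 * fderiv ℝ (fderiv ℝ (v k)) (p + T x) (L (EuclideanSpace.single i 1))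
          (L (EuclideanSpace.single j 1)) := by
      intro i j
      unfold dd
      have h1 : fderiv ℝ (v' k) =ᶠ[𝓝 x] fderiv ℝ (fun y => v k (p + T y)) :=
        (hnv x hx k).fderiv
      rw [h1.fderiv_eq, ucE_fderiv2 (hvx k), hTx' (EuclideanSpace.single i 1),
        hTx' (EuclideanSpace.single j 1)]
      simp only [map_smul, _root_.smul_apply, smul_eq_mul]
      ring
    have hsmooth' : ContDiffAt ℝ ∞ (v' k) x := (hsv k x hx2).congr_of_eventuallyEq (hnv x hx k)
    have hdiffa : ∀ i j, DifferentiableAt ℝ (a' i j) x := fun i j =>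
      ((hsm i j x hx2).congr_of_eventuallyEq (hna x hx i j)).differentiableAt (by simp)
    rw [ucE_opP hdiffa hsmooth']
    have hmain : ∑ i, ∑ j, a' i j x * dd (v' k) i j x =
        ε ^ 2 * ∑ i, ∑ j, a i j (p + T x) * dd (v k) i j (p + T x) := by
      have h1 := ucE_alg L (fun k l => a k l (p + T x)) (fderiv ℝ (fderiv ℝ (v k)) (p + T x))
      have h2 : ∀ i j, a' i j x = ∑ k, ∑ l, (L.symm (EuclideanSpace.single k 1)) i *
          a k l (p + T x) * (L.symm (EuclideanSpace.single l 1)) j := by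
        intro i j
        rw [(hna x hx i j).eq_of_nhds, hTx]
      unfold dd at hd2 ⊢
      rw [← h1, Finset.mul_sum]
      refine Finset.sum_congr rfl fun i _ => ?_
      rw [Finset.mul_sum]
      refine Finset.sum_congr rfl fun j _ => ?_
      rw [hd2, h2]
      ring
    have hb1 : |∑ i, ∑ j, a i j (p + T x) * dd (v k) i j (p + T x)| ≤
        |C| * ∑ m, (|v m (p + T x)| + ‖fderiv ℝ (v m) (p + T x)‖) := by
      have h1 := (hball _ (hmem x hx2)).2.2 k
      rw [← hTx] at h1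
      refine h1.trans (mul_le_mul_of_nonneg_right (le_abs_self C) ?_)
      exact Finset.sum_nonneg fun m _ => by positivity
    have hb2 : ∑ m, (|v m (p + T x)| + ‖fderiv ℝ (v m) (p + T x)‖) ≤
        (1 + ε⁻¹ * ‖(L.symm : E4 →L[ℝ] E4)‖) * ∑ m, (|v' m x| + ‖fderiv ℝ (v' m) x‖) := by
      rw [Finset.mul_sum]
      refine Finset.sum_le_sum fun m _ => ?_
      have h1 : v' m x = v m (p + T x) := (hnv x hx m).eq_of_nhds
      have h2 : fderiv ℝ (v m) (p + T x) =
          (fderiv ℝ (v' m) x).comp (ε⁻¹ • (L.symm : E4 →L[ℝ] E4)) := by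
        rw [hd1 m]
        ext u
        simp [hTx', smul_smul, hε.ne']
      have h3 : ‖fderiv ℝ (v m) (p + T x)‖ ≤
          ‖fderiv ℝ (v' m) x‖ * (ε⁻¹ * ‖(L.symm : E4 →L[ℝ] E4)‖) := by
        rw [h2]
        refine (ContinuousLinearMap.opNorm_comp_le _ _).trans ?_
        rw [norm_smul, Real.norm_eq_abs, abs_of_pos (inv_pos.2 hε)]
      rw [h1]
      have h4 : 0 ≤ ε⁻¹ * ‖(L.symm : E4 →L[ℝ] E4)‖ := by positivity
      nlinarith [abs_nonneg (v m (p + T x)), norm_nonneg (fderiv ℝ (v' m) x),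
        mul_nonneg h4 (abs_nonneg (v m (p + T x)))]
    have hb3 : |∑ i, ∑ j, pd (a' i j) i x * pd (v' k) j x| ≤ 16 * η * ‖fderiv ℝ (v' k) x‖ := by
      have h1 : ∀ i j : Fin 4, |pd (a' i j) i x * pd (v' k) j x| ≤ η * ‖fderiv ℝ (v' k) x‖ := by
        intro i j
        rw [abs_mul]
        exact mul_le_mul ((ucE_pd _ _ _).trans (hfa x hx i j)) (ucE_pd _ _ _) (abs_nonneg _) hη.le
      calc |∑ i, ∑ j, pd (a' i j) i x * pd (v' k) j x|
          ≤ ∑ i, |∑ j, pd (a' i j) i x * pd (v' k) j x| := Finset.abs_sum_le_sum_abs _ _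
        _ ≤ ∑ i, ∑ j, |pd (a' i j) i x * pd (v' k) j x| :=
            Finset.sum_le_sum fun i _ => Finset.abs_sum_le_sum_abs _ _
        _ ≤ ∑ _i : Fin 4, ∑ _j : Fin 4, η * ‖fderiv ℝ (v' k) x‖ :=
            Finset.sum_le_sum fun i _ => Finset.sum_le_sum fun j _ => h1 i j
        _ = 16 * η * ‖fderiv ℝ (v' k) x‖ := by
            simp
            ring
    have hb4 : ‖fderiv ℝ (v' k) x‖ ≤ ∑ m, (|v' m x| + ‖fderiv ℝ (v' m) x‖) := by
      have h1 : |v' k x| + ‖fderiv ℝ (v' k) x‖ ≤ ∑ m, (|v' m x| + ‖fderiv ℝ (v' m) x‖) :=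
        Finset.single_le_sum (f := fun m => |v' m x| + ‖fderiv ℝ (v' m) x‖)
          (fun m _ => by positivity) (Finset.mem_univ k)
      linarith [abs_nonneg (v' k x)]
    have hε2 : 0 ≤ ε ^ 2 := by positivity
    calc |(∑ i, ∑ j, a' i j x * dd (v' k) i j x) + ∑ i, ∑ j, pd (a' i j) i x * pd (v' k) j x|
        ≤ |∑ i, ∑ j, a' i j x * dd (v' k) i j x| + |∑ i, ∑ j, pd (a' i j) i x * pd (v' k) j x| :=
          abs_add_le _ _
      _ ≤ ε ^ 2 * (|C| * ((1 + ε⁻¹ * ‖(L.symm : E4 →L[ℝ] E4)‖) *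
            ∑ m, (|v' m x| + ‖fderiv ℝ (v' m) x‖))) +
          16 * η * ∑ m, (|v' m x| + ‖fderiv ℝ (v' m) x‖) := by
          refine add_le_add ?_ ?_
          · rw [hmain, abs_mul, abs_of_nonneg hε2]
            refine mul_le_mul_of_nonneg_left ?_ hε2
            exact hb1.trans (mul_le_mul_of_nonneg_left hb2 (abs_nonneg C))
          · exact hb3.trans (mul_le_mul_of_nonneg_left hb4 (by positivity))
      _ = _ := by ring
  · intro x hx hx0 k
    have h1 : p + T x ∈ ball q (dist p q) := by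
      rw [mem_ball, dist_eq_norm, dist_eq_norm]
      have h2 : ‖p + T x - q‖ ^ 2 = ‖p - q‖ ^ 2 + 2 * (ε * (s * x 0)) + ‖T x‖ ^ 2 := by
        have h3 : p + T x - q = (p - q) + T x := by abel
        rw [h3, norm_add_sq_real, real_inner_comm, hTx', real_inner_smul_left, hνs]
      have h4 : ‖T x‖ ≤ ε * (‖(L : E4 →L[ℝ] E4)‖ * ‖x‖) := by
        rw [hTx', norm_smul, Real.norm_eq_abs, abs_of_pos hε]
        exact mul_le_mul_of_nonneg_left ((L : E4 →L[ℝ] E4).le_opNorm x) hε.le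
      have h5 : ‖T x‖ ^ 2 ≤ ε * (s / 16 * ‖x‖ ^ 2) := by
        calc ‖T x‖ ^ 2 ≤ (ε * (‖(L : E4 →L[ℝ] E4)‖ * ‖x‖)) ^ 2 :=
              pow_le_pow_left₀ (norm_nonneg _) h4 2
          _ = ε * ((ε * ‖(L : E4 →L[ℝ] E4)‖ ^ 2) * ‖x‖ ^ 2) := by ring
          _ ≤ ε * (s / 16 * ‖x‖ ^ 2) := by
            refine mul_le_mul_of_nonneg_left ?_ hε.le
            exact mul_le_mul_of_nonneg_right hεL (by positivity)
      have h6 : ‖p + T x - q‖ ^ 2 < ‖p - q‖ ^ 2 := by
        have h7 : 2 * (ε * (s * x 0)) < 2 * (ε * (s * (-‖x‖ ^ 2 / 32))) := by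
          have := mul_lt_mul_of_pos_left (mul_lt_mul_of_pos_left hx0 hs) hε
          linarith
        nlinarith
      exact lt_of_pow_lt_pow_left₀ 2 (norm_nonneg _) h6
    simp only [hv', hzero _ h1 (hTU x (hr2 x hx)) k, mul_zero]

end Pool.Agent.Lib.MP_6c284f_gt
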